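import Pool.Agent.H30Q.AsmD

/-! # Assembly, last part: the main theorem -/

set_option autoImplicit false
set_option linter.all false

open Polynomial IsDedekindDomain Matrix NumberField
open scoped Classical

namespace Pool.Agent.H30Q

open Pool.Agent.N783.PF (HV)
open Pool.Agent.N874.PP (Ev)
open Pool.Agent.N202.M4 (hil IsSymbol)

namespace AsmP

/-- The zeros of `f` modulo `p`. -/
noncomputable def Zr (p : ℕ) (f : ℤ[X]) : Finset ℕ :=
  (Finset.range p).filter fun c => (p : ℤ) ∣ f.eval (c : ℤ)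

lemma card_Zr {n p : ℕ} {f : ℤ[X]} [hp : Fact p.Prime] (hm : f.Monic) (hd : f.natDegree = n) :
    (Zr p f).card ≤ n := by
  have h0 : rd p f ≠ 0 := (hm.map _).ne_zero
  have h1 : (Zr p f).card ≤ (rd p f).roots.toFinset.card := by
    refine Finset.card_le_card_of_injOn (fun c => ((c : ℤ) : ZMod p)) ?_ ?_
    · intro c hc
      have hc2 := (Finset.mem_filter.1 hc).2
      simp only [Finset.mem_coe, Multiset.mem_toFinset]
      rw [mem_roots h0, IsRoot.def, eval_rd, ZMod.intCast_zmod_eq_zero_iff_dvd]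
      exact hc2
    · intro c hc c' hc' e
      have h2 := Finset.mem_range.1 (Finset.mem_filter.1 hc).1
      have h3 := Finset.mem_range.1 (Finset.mem_filter.1 hc').1
      simp only [Int.cast_natCast] at e
      rw [ZMod.natCast_eq_natCast_iff'] at e
      rwa [Nat.mod_eq_of_lt h2, Nat.mod_eq_of_lt h3] at e
  refine h1.trans ((Multiset.toFinset_card_le _).trans ((card_roots' _).trans ?_))
  rw [rd, hm.natDegree_map, hd]

/-- a vector of signs which is not a product -/
lemma exists_tau {n r : ℕ} (P : Finset ℕ) (Z : ℕ → Finset ℕ) (hZ : ∀ p ∈ P, (Z p).card ≤ n)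
    (V : ℕ → ℕ → Fin r → ℤ) (hr : n ^ P.card < 2 ^ r) :
    ∃ τ : Fin r → ℤ, (∀ i, τ i = 1 ∨ τ i = -1) ∧ ∀ c : ℕ → ℕ, (∀ p ∈ P, c p ∈ Z p) →
      ∃ i, τ i ≠ ∏ p ∈ P, V p (c p) i := by
  let S : Finset (Fin r → ℤ) := Fintype.piFinset fun _ : Fin r => ({1, -1} : Finset ℤ)
  let U : Finset (P → ℕ) := Fintype.piFinset fun p : P => Z p
  let T : Finset (Fin r → ℤ) := U.image fun c => fun i => ∏ p : P, V p (c p) i
  have hS : S.card = 2 ^ r := by
    rw [Fintype.card_piFinset]
    simp
  have hT : T.card ≤ n ^ P.card := by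
    refine Finset.card_image_le.trans ?_
    rw [Fintype.card_piFinset]
    calc ∏ p : P, (Z p).card ≤ ∏ p : P, n := Finset.prod_le_prod' fun p _ => hZ p p.2
      _ = n ^ P.card := by simp
  obtain ⟨τ, hτ1, hτ2⟩ := Finset.exists_mem_notMem_of_card_lt_card (s := T) (t := S)
    (by rw [hS]; omega)
  refine ⟨τ, fun i => ?_, fun c hc => ?_⟩
  · have := Fintype.mem_piFinset.1 hτ1 i
    simpa using this
  · by_contra hne
    push Not at hne
    apply hτ2
    refine Finset.mem_image.2 ⟨fun p => c p, Fintype.mem_piFinset.2 fun p => hc p p.2, ?_⟩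
    funext i
    rw [hne i]
    exact Finset.prod_coe_sort P fun p => V p (c p) i

lemma prod_mod {W : ℕ} (S : Finset ℕ) (h : ∀ q ∈ S, q % W = 1 % W) : (W : ℤ) ∣ ((∏ q ∈ S, q : ℕ) : ℤ) - 1 := by
  have h1 : (∏ q ∈ S, q) ≡ 1 [MOD W] := by
    have : (∏ q ∈ S, q) ≡ ∏ q ∈ S, 1 [MOD W] := by
      induction S using Finset.induction_on with
      | empty => exact Nat.ModEq.refl _
      | insert a s ha ih =>
        rw [Finset.prod_insert ha, Finset.prod_insert ha]
        exact Nat.ModEq.mul (h a (Finset.mem_insert_self _ _))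
          (ih fun q hq => h q (Finset.mem_insert_of_mem hq))
    simpa using this
  have h2 := (Nat.modEq_iff_dvd.1 h1.symm)
  simpa using h2

lemma coprime_of_primes {P : Finset ℕ} (hP : ∀ p ∈ P, p.Prime) {q : ℕ} (hq : q.Prime)
    (h : q ∉ P) : ¬ q ∣ ∏ p ∈ P, p := by
  intro hd
  obtain ⟨p, hp, h1⟩ := (hq.prime.dvd_finset_prod_iff _).1 hd
  rw [Nat.prime_dvd_prime_iff_eq hq (hP p hp)] at h1
  exact h (h1 ▸ hp)

lemma squarefree_prod {P : Finset ℕ} (hP : ∀ p ∈ P, p.Prime) : Squarefree (∏ p ∈ P, p) := by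
  induction P using Finset.induction_on with
  | empty => simp
  | insert a s ha ih =>
    rw [Finset.prod_insert ha, Nat.squarefree_mul]
    · exact ⟨(hP a (Finset.mem_insert_self _ _)).squarefree,
        ih fun p hp => hP p (Finset.mem_insert_of_mem hp)⟩
    · rw [Nat.Prime.coprime_iff_not_dvd (hP a (Finset.mem_insert_self _ _))]
      exact coprime_of_primes (fun p hp => hP p (Finset.mem_insert_of_mem hp))
        (hP a (Finset.mem_insert_self _ _)) ha

end AsmP

end Pool.Agent.H30Q
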