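import Pool.Agent.H30Q.Stm
import Pool.Agent.N446.M4.Sym
import Pool.Agent.N835.PQ.Rec

/-! # Assembly, first part -/

set_option autoImplicit false
set_option linter.all false

open Polynomial IsDedekindDomain Matrix NumberField
open scoped Classical

namespace Pool.Agent.H30Q

open Pool.Agent.N783.PF (HV)
open Pool.Agent.N874.PP (Ev)
open Pool.Agent.N202.M4 (hil IsSymbol)

namespace AsmP

lemma oq_ov (E : Type) [Field E] [CharZero E] (A : ℤ[X]) : oq E (ov ℚ A) = ov E A := by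
  unfold oq ov
  rw [Polynomial.map_map]
  congr 1
  exact RingHom.ext_int _ _

lemma ov_monic (E : Type) [Field E] {f : ℤ[X]} (hf : f.Monic) : (ov E f).Monic := hf.map _

lemma ov_deg (E : Type) [Field E] {f : ℤ[X]} {n : ℕ} (hf : f.Monic) (hd : f.natDegree = n) :
    (ov E f).natDegree = n := by
  rw [ov, hf.natDegree_map, hd]

/-- the norm -/
lemma norm_eq {L : Type} [Field L] [NumberField L] {n : ℕ} {f : ℤ[X]} {θ : L} (h : Rt n f θ)
    (A : ℤ[X]) : Algebra.norm ℚ (aeval θ A) = nm (ov ℚ f) (ov ℚ A) := by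
  haveI : Fact (Irreducible (ov ℚ f)) := ⟨h.irr⟩
  have h0 : ov ℚ f ≠ 0 := h.irr.ne_zero
  have hr : aeval θ (ov ℚ f) = 0 := by
    have := h.root
    rw [ov, show (Int.castRingHom ℚ) = algebraMap ℤ ℚ from rfl, aeval_map_algebraMap]
    exact this
  let φ : AdjoinRoot (ov ℚ f) →ₐ[ℚ] L := AdjoinRoot.liftAlgHom (ov ℚ f) (Algebra.ofId ℚ L) θ (by
    rw [← hr, aeval_def]; rfl)
  have hinj : Function.Injective φ := φ.toRingHom.injective
  haveI : Module.Finite ℚ (AdjoinRoot (ov ℚ f)) := (AdjoinRoot.powerBasis h0).finite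
  have hfr : Module.finrank ℚ (AdjoinRoot (ov ℚ f)) = Module.finrank ℚ L := by
    rw [(AdjoinRoot.powerBasis h0).finrank, AdjoinRoot.powerBasis_dim, h.rank,
      ov_deg ℚ h.mon h.deg]
  have hbij : Function.Bijective φ := ⟨hinj,
    (LinearMap.injective_iff_surjective_of_finrank_eq_finrank (f := φ.toLinearMap) hfr).1 hinj⟩
  let ψ : AdjoinRoot (ov ℚ f) ≃ₐ[ℚ] L := AlgEquiv.ofBijective φ hbij
  have e : ψ (AdjoinRoot.mk (ov ℚ f) (ov ℚ A)) = aeval θ A := by
    have h0' : ψ (AdjoinRoot.mk (ov ℚ f) (ov ℚ A)) = φ (AdjoinRoot.mk (ov ℚ f) (ov ℚ A)) := rfl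
    rw [h0']
    have h1 : φ (AdjoinRoot.mk (ov ℚ f) (ov ℚ A)) = aeval θ (ov ℚ A) := by
      show AdjoinRoot.liftAlgHom (ov ℚ f) (Algebra.ofId ℚ L) θ _ _ = _
      rw [AdjoinRoot.liftAlgHom_mk]
      rfl
    rw [h1, ov, show (Int.castRingHom ℚ) = algebraMap ℤ ℚ from rfl, aeval_map_algebraMap]
  rw [← e, nm]
  exact Algebra.norm_eq_of_algEquiv ψ _

lemma cop_of {L : Type} [Field L] [NumberField L] {n : ℕ} {f : ℤ[X]} {θ : L} (h : Rt n f θ)
    {A : ℤ[X]} (hA : aeval θ A ≠ 0) : IsCoprime (ov ℚ A) (ov ℚ f) := by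
  rw [isCoprime_comm, (h.irr.coprime_iff_not_dvd)]
  intro ⟨c, hc⟩
  apply hA
  have hr : aeval θ (ov ℚ f) = 0 := by
    have := h.root
    rw [ov, show (Int.castRingHom ℚ) = algebraMap ℤ ℚ from rfl, aeval_map_algebraMap]
    exact this
  have : aeval θ (ov ℚ A) = 0 := by rw [hc, map_mul, hr, zero_mul]
  rwa [ov, show (Int.castRingHom ℚ) = algebraMap ℤ ℚ from rfl, aeval_map_algebraMap] at this

/-- coprime modulo large primes -/
lemma cop_mod {f A : ℤ[X]} (hf : f.Monic) (h : IsCoprime (ov ℚ A) (ov ℚ f)) :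
    ∃ B : ℕ, ∀ q : ℕ, q.Prime → B < q → IsCoprime (rd q A) (rd q f) := by
  by_cases hd : f.natDegree = 0
  · have h1 := eq_one_of_monic_natDegree_zero hf hd
    refine ⟨0, fun q _ _ => ?_⟩
    rw [h1, rd, rd, Polynomial.map_one]
    exact isCoprime_one_right
  obtain ⟨a, b, -, -, e⟩ := exists_mul_add_mul_eq_C_resultant (m := f.natDegree)
    (n := A.natDegree) f A le_rfl le_rfl (Or.inl hd)
  set R := f.resultant A f.natDegree A.natDegree with hR
  have hR0 : R ≠ 0 := by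
    intro h0
    rw [h0, map_zero] at e
    -- f * a + A * b = 0 over ℚ, degrees
    have h2 : (ov ℚ f).resultant (ov ℚ A) = 0 := by
      have h3 : (ov ℚ A).natDegree = A.natDegree :=
        natDegree_map_eq_of_injective Int.cast_injective A
      have h4 : (ov ℚ f).natDegree = f.natDegree := ov_deg ℚ hf rfl
      have h5 := resultant_map_map f A f.natDegree A.natDegree (Int.castRingHom ℚ)
      rw [h3, h4, h5, ← hR, h0, map_zero]
    rw [resultant_eq_zero_iff] at h2
    exact h2.2 h.symm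
  refine ⟨R.natAbs, fun q hq hB => ?_⟩
  haveI : Fact q.Prime := ⟨hq⟩
  have hRq : ((R : ℤ) : ZMod q) ≠ 0 := by
    intro h0
    rw [ZMod.intCast_zmod_eq_zero_iff_dvd] at h0
    have := Int.natAbs_dvd_natAbs.2 h0
    have h2 := Nat.le_of_dvd (Int.natAbs_pos.2 hR0) this
    simp at h2
    omega
  have e2 := congrArg (Polynomial.map (Int.castRingHom (ZMod q))) e
  rw [Polynomial.map_add, Polynomial.map_mul, Polynomial.map_mul, Polynomial.map_C] at e2
  refine ⟨C ((R : ZMod q)⁻¹) * b.map (Int.castRingHom (ZMod q)),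
    C ((R : ZMod q)⁻¹) * a.map (Int.castRingHom (ZMod q)), ?_⟩
  calc _ = C ((R : ZMod q)⁻¹) * (f.map (Int.castRingHom (ZMod q)) * a.map (Int.castRingHom (ZMod q))
        + A.map (Int.castRingHom (ZMod q)) * b.map (Int.castRingHom (ZMod q))) := by
        simp only [rd]; ring
    _ = 1 := by
        rw [e2, ← C_mul]
        simp [hRq]

end AsmP

end Pool.Agent.H30Q
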