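import Pool.Agent.H30Q.AsmA

/-! # Assembly, second part: the primes -/

set_option autoImplicit false
set_option linter.all false

open Polynomial IsDedekindDomain Matrix NumberField
open scoped Classical

namespace Pool.Agent.H30Q

open Pool.Agent.N783.PF (HV)
open Pool.Agent.N874.PP (Ev)
open Pool.Agent.N202.M4 (hil IsSymbol)

namespace AsmP

lemma exists_P (hTOT : S_TOT) {n : ℕ} {f : ℤ[X]} (hyp : Hyp n f) {W : ℕ} (hW : W ≠ 0) (B : ℕ) :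
    ∀ k : ℕ, ∃ P : Finset ℕ, P.card = k ∧
      ∀ p ∈ P, p.Prime ∧ B < p ∧ p % W = 1 % W ∧ Tot n p f := by
  intro k
  induction k with
  | zero => exact ⟨∅, rfl, fun p hp => absurd hp (Finset.notMem_empty _)⟩
  | succ k ih =>
    obtain ⟨P, hc, hP⟩ := ih
    obtain ⟨p, hp, hB, hm, ht⟩ := hTOT n f hyp.mon hyp.deg hyp.sep W (B + ∑ q ∈ P, q) hW
    have hnot : p ∉ P := by
      intro hmem
      have h9 : p ≤ ∑ q ∈ P, q :=
        Finset.single_le_sum (f := fun q : ℕ => q) (fun _ _ => Nat.zero_le _) hmem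
      omega
    refine ⟨insert p P, by rw [Finset.card_insert_of_notMem hnot, hc], fun q hq => ?_⟩
    rcases Finset.mem_insert.1 hq with rfl | hq
    · exact ⟨hp, by omega, hm, ht⟩
    · exact hP q hq

/-- `f = (X - e) h` modulo `q` -/
def Qd (n : ℕ) (f : ℤ[X]) (q : ℕ) (e : ℤ) : Prop := ∃ h : ℤ[X], h.Monic ∧ h.natDegree = n - 1 ∧
  Irreducible (rd q h) ∧ rd q f = rd q ((X - C e) * h)

lemma Qd.root {n : ℕ} {f : ℤ[X]} {q : ℕ} {e : ℤ} (h : Qd n f q e) :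
    (rd q f).eval ((e : ℤ) : ZMod q) = 0 := by
  obtain ⟨g, -, -, -, h4⟩ := h
  rw [h4, rd, Polynomial.map_mul, eval_mul]
  simp

lemma Qd.unique {n : ℕ} {f : ℤ[X]} {q : ℕ} [Fact q.Prime] {e e' : ℤ} (hn : 6 ≤ n)
    (h : Qd n f q e) (h' : Qd n f q e') : ((e : ℤ) : ZMod q) = e' := by
  obtain ⟨g, h1, h2, h3, h4⟩ := h
  have h5 := h'.root
  rw [h4, rd, Polynomial.map_mul, eval_mul] at h5
  rcases mul_eq_zero.1 h5 with h6 | h6
  · simp at h6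
    exact (sub_eq_zero.1 h6).symm
  · exfalso
    have h7 := degree_eq_one_of_irreducible_of_root h3 (x := ((e' : ℤ) : ZMod q)) h6
    have h8 : (rd q g).natDegree = 1 := natDegree_eq_of_degree_eq_some h7
    rw [rd, h1.natDegree_map, h2] at h8
    omega

/-- the sign -/
noncomputable def sgn (A : ℤ[X]) (q : ℕ) (e : ℤ) : ℤ :=
  if IsSquare ((A.eval e : ℤ) : ZMod q) then 1 else -1

lemma sgn_pm (A : ℤ[X]) (q : ℕ) (e : ℤ) : sgn A q e = 1 ∨ sgn A q e = -1 := by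
  unfold sgn
  split_ifs <;> simp

lemma sgn_congr {A : ℤ[X]} {q : ℕ} {e e' : ℤ} (h : ((e : ℤ) : ZMod q) = e') :
    sgn A q e = sgn A q e' := by
  unfold sgn
  have : ((A.eval e : ℤ) : ZMod q) = ((A.eval e' : ℤ) : ZMod q) := by
    have h1 : ∀ z : ℤ, ((A.eval z : ℤ) : ZMod q) = (rd q A).eval ((z : ℤ) : ZMod q) := by
      intro z
      rw [rd, eval_map, eval₂_at_intCast]
      rfl
    rw [h1, h1, h]
  rw [this]

lemma sgn_eq {A : ℤ[X]} {q : ℕ} [Fact q.Prime] {e : ℤ} (h0 : ((A.eval e : ℤ) : ZMod q) ≠ 0) :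
    sgn A q e = quadraticChar (ZMod q) ((A.eval e : ℤ) : ZMod q) := by
  unfold sgn
  rw [quadraticChar_apply, quadraticCharFun, if_neg h0]
  split_ifs <;> rfl

lemma sgn_prod {r : ℕ} {A : Fin r → ℤ[X]} {q : ℕ} [Fact q.Prime] {e : ℤ} (I : Finset (Fin r))
    (h0 : ∀ i, (((A i).eval e : ℤ) : ZMod q) ≠ 0) :
    sgn (∏ i ∈ I, A i) q e = ∏ i ∈ I, sgn (A i) q e := by
  have h1 : (((∏ i ∈ I, A i).eval e : ℤ) : ZMod q) = ∏ i ∈ I, (((A i).eval e : ℤ) : ZMod q) := by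
    rw [eval_prod, Int.cast_prod]
  rw [sgn_eq (by rw [h1]; exact Finset.prod_ne_zero_iff.2 fun i _ => h0 i), h1, map_prod]
  exact Finset.prod_congr rfl fun i _ => (sgn_eq (h0 i)).symm

lemma ne_of_cop {f A : ℤ[X]} {q : ℕ} [Fact q.Prime] {e : ℤ} (h : IsCoprime (rd q A) (rd q f))
    (hr : (rd q f).eval ((e : ℤ) : ZMod q) = 0) : ((A.eval e : ℤ) : ZMod q) ≠ 0 := by
  obtain ⟨a, b, e1⟩ := h
  intro h0
  have h1 := congrArg (Polynomial.eval ((e : ℤ) : ZMod q)) e1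
  rw [eval_add, eval_mul, eval_mul, hr, mul_zero, add_zero, eval_one] at h1
  have h2 : (rd q A).eval ((e : ℤ) : ZMod q) = 0 := by
    rw [rd, eval_map, eval₂_at_intCast]
    exact h0
  rw [h2, mul_zero] at h1
  exact zero_ne_one h1

lemma exists_J (hCHEB : P_CHEB) (hLIN1 : S_LIN1) {n : ℕ} {f : ℤ[X]} (hyp : Hyp n f)
    {L : Type} [Field L] [NumberField L] {θ : L} (h : Rt n f θ) {r : ℕ} {A : Fin r → ℤ[X]}
    (hne : ∀ i, aeval θ (A i) ≠ 0)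
    (hind : ∀ I : Finset (Fin r), I.Nonempty → ∀ (c : ℚ) (s : L),
      ∏ i ∈ I, aeval θ (A i) ≠ c * s ^ 2) {m : ℕ} (hm : m ≠ 0) (B : ℕ) (τ : Fin r → ℤ)
    (hτ : ∀ i, τ i = 1 ∨ τ i = -1) :
    ∃ (J : Finset ℕ) (e : ℕ → ℤ), (∀ q ∈ J, q.Prime ∧ B < q ∧ q % m = 1 % m ∧ Qd n f q (e q) ∧
      ∀ i, IsCoprime (rd q (A i)) (rd q f)) ∧ ∀ i, ∏ q ∈ J, sgn (A i) q (e q) = τ i := by
  have hb : ∀ i, ∃ B : ℕ, ∀ q : ℕ, q.Prime → B < q → IsCoprime (rd q (A i)) (rd q f) :=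
    fun i => cop_mod hyp.mon (cop_of h (hne i))
  choose b hb using hb
  have hq : ∀ I : Finset (Fin r), I.Nonempty → ∃ (q : ℕ) (e : ℤ), q.Prime ∧ B + ∑ i, b i < q ∧
      q % m = 1 % m ∧ Qd n f q e ∧
      ¬ IsSquare (((∏ i ∈ I, A i).eval e : ℤ) : ZMod q) := by
    intro I hI
    obtain ⟨q, e, g, h1, h2, h3, h4, h5, h6, h7, h8⟩ := hCHEB n f hyp L θ h (∏ i ∈ I, A i)
      (by rw [map_prod]; exact Finset.prod_ne_zero_iff.2 fun i _ => hne i)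
      (fun c s => by rw [map_prod]; exact hind I hI c s) m (B + ∑ i, b i) hm
    exact ⟨q, e, h1, h2, h3, ⟨g, h4, h5, h6, h7⟩, h8⟩
  let S : Set ℕ := {q | ∃ e : ℤ, q.Prime ∧ B + ∑ i, b i < q ∧ q % m = 1 % m ∧ Qd n f q e}
  let e : ℕ → ℤ := fun q => if hq : ∃ e : ℤ, q.Prime ∧ B + ∑ i, b i < q ∧ q % m = 1 % m ∧
    Qd n f q e then hq.choose else 0
  have he : ∀ q ∈ S, q.Prime ∧ B + ∑ i, b i < q ∧ q % m = 1 % m ∧ Qd n f q (e q) := by
    intro q hq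
    have hq' : ∃ e : ℤ, q.Prime ∧ B + ∑ i, b i < q ∧ q % m = 1 % m ∧ Qd n f q e := hq
    have : e q = hq'.choose := by simp only [e]; rw [dif_pos hq']
    rw [this]
    exact hq'.choose_spec
  have hcop : ∀ q ∈ S, ∀ i, IsCoprime (rd q (A i)) (rd q f) := by
    intro q hq i
    obtain ⟨h1, h2, -, -⟩ := he q hq
    refine hb i q h1 ?_
    have := Finset.single_le_sum (f := b) (fun _ _ => Nat.zero_le _) (Finset.mem_univ i)
    omega
  choose! qq ee' hqq using hq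
  let Q : Finset ℕ := (Finset.univ.filter fun I : Finset (Fin r) => I.Nonempty).image qq
  have hQS : ∀ q ∈ Q, q ∈ S := by
    intro q hq
    obtain ⟨I, hI, rfl⟩ := Finset.mem_image.1 hq
    obtain ⟨h1, h2, h3, h4, -⟩ := hqq I (Finset.mem_filter.1 hI).2
    exact ⟨_, h1, h2, h3, h4⟩
  obtain ⟨J, hJQ, hJ⟩ := hLIN1 r Q (fun q i => sgn (A i) q (e q)) (fun q i => sgn_pm _ _ _)
    (by
      intro I hI
      obtain ⟨h1, h2, h3, h4, h5⟩ := hqq I hI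
      haveI : Fact (qq I).Prime := ⟨h1⟩
      have hmem : qq I ∈ Q := Finset.mem_image.2 ⟨I, Finset.mem_filter.2 ⟨Finset.mem_univ _, hI⟩, rfl⟩
      have hS := hQS _ hmem
      refine ⟨qq I, hmem, ?_⟩
      have h6 := (he _ hS).2.2.2
      have h7 : ∀ i, (((A i).eval (e (qq I)) : ℤ) : ZMod (qq I)) ≠ 0 := fun i =>
        ne_of_cop (hcop _ hS i) h6.root
      rw [← sgn_prod I h7, sgn_congr (h6.unique hyp.six h4)]
      unfold sgn
      rw [if_neg h5]) τ hτ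
  refine ⟨J, e, fun q hq => ?_, hJ⟩
  have hS := hQS q (hJQ hq)
  obtain ⟨h1, h2, h3, h4⟩ := he q hS
  exact ⟨h1, by omega, h3, h4, hcop q hS⟩

end AsmP

end Pool.Agent.H30Q
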