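import Pool.Agent.H30Q.AsmB

/-! # Assembly, third part: local solubility -/

set_option autoImplicit false
set_option linter.all false

open Polynomial IsDedekindDomain Matrix NumberField
open scoped Classical

namespace Pool.Agent.H30Q

open Pool.Agent.N783.PF (HV)
open Pool.Agent.N874.PP (Ev)
open Pool.Agent.N202.M4 (hil IsSymbol)

namespace AsmP

lemma eval_rd (f : ℤ[X]) (p : ℕ) (e : ℤ) :
    (rd p f).eval ((e : ℤ) : ZMod p) = ((f.eval e : ℤ) : ZMod p) := by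
  rw [rd, eval_map, eval₂_at_intCast]
  rfl

lemma simple_of_sep {f : ℤ[X]} {p : ℕ} [Fact p.Prime] {e : ℤ} (hs : (rd p f).Separable)
    (he : (p : ℤ) ∣ f.eval e) : ¬ (p : ℤ) ∣ (derivative f).eval e := by
  intro h
  rw [← ZMod.intCast_zmod_eq_zero_iff_dvd, ← eval_rd] at he h
  obtain ⟨a, b, e1⟩ := hs
  have h1 := congrArg (Polynomial.eval ((e : ℤ) : ZMod p)) e1
  rw [eval_add, eval_mul, eval_mul, he, mul_zero, zero_add, eval_one] at h1
  have h2 : (derivative (rd p f)).eval ((e : ℤ) : ZMod p) = 0 := by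
    rw [rd, derivative_map]
    exact h
  rw [h2, mul_zero] at h1
  exact zero_ne_one h1

lemma sol_sq {E : Type} [Field E] [CharZero E] {f : ℤ[X]} {D : ℤ} {c : ℤ} {s : E} (hs : s ≠ 0)
    (h : (c : E) = s ^ 2) (hD : Sol E f D) : Sol E f (D * c) := by
  obtain ⟨x, y, hy, e⟩ := hD
  refine ⟨x, s * y, mul_ne_zero hs hy, ?_⟩
  rw [mul_pow, e, Int.cast_mul, h]
  ring

lemma els (hWEI : S_WEI) (hSMP : S_SMP) (hSQR : S_SQR) {n : ℕ} {f : ℤ[X]} (hyp : Hyp n f)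
    {L : Type} [Field L] [NumberField L] {θ : L} {W : ℕ} (hW : GW n f θ W) {D₀ : ℤ} (h0 : D₀ ≠ 0)
    (hD : D₀ ∣ W) {E : ℕ} (hE0 : E ≠ 0) (hE1 : (W : ℤ) ∣ (E : ℤ) - 1)
    (hE : ∀ p : ℕ, p.Prime → p ∣ E → ¬ p ∣ W ∧ ∃ e : ℤ, (rd p f).eval ((e : ℤ) : ZMod p) = 0)
    (hloc : ∀ (p : ℕ) [Fact p.Prime], Sol ℚ_[p] f D₀) (p : ℕ) [hp : Fact p.Prime] :
    Sol ℚ_[p] f (D₀ * (E : ℤ)) := by
  by_cases hpW : p ∣ W
  · obtain ⟨s, hs, e⟩ := hSQR W E p hW.ne hW.eight hpW hE1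
    exact sol_sq hs e (hloc p)
  · have hsep := hW.sep p hp.out hpW
    have h2 : p ≠ 2 := by
      rintro rfl
      exact hpW (dvd_trans (by norm_num) hW.eight)
    by_cases hpE : p ∣ E
    · obtain ⟨-, e, he⟩ := hE p hp.out hpE
      rw [eval_rd, ZMod.intCast_zmod_eq_zero_iff_dvd] at he
      exact hSMP f (D₀ * E) e p h2 (mul_ne_zero h0 (by exact_mod_cast hE0))
        (Dvd.dvd.mul_left (by exact_mod_cast hpE) _) he (simple_of_sep hsep he)
    · refine hWEI n f (D₀ * E) p (by have := hyp.six; omega) hyp.mon hyp.deg hsep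
        (hW.big p hp.out hpW) ?_
      intro hd
      rcases (Nat.prime_iff_prime_int.1 hp.out).dvd_or_dvd hd with h3 | h3
      · exact hpW (by exact_mod_cast h3.trans hD)
      · exact hpE (by exact_mod_cast h3)

lemma els_real {f : ℤ[X]} {D₀ : ℤ} {E : ℕ} (hE : E ≠ 0) (h : Sol ℝ f D₀) :
    Sol ℝ f (D₀ * (E : ℤ)) := by
  have hE' : (0 : ℝ) < E := by exact_mod_cast Nat.pos_of_ne_zero hE
  refine sol_sq (s := Real.sqrt E) (Real.sqrt_ne_zero'.2 hE') ?_ h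
  rw [Real.sq_sqrt hE'.le]
  simp

/-! ### the symbol of a point -/

lemma pm_mul {a b : ℤ} (ha : a = 1 ∨ a = -1) (hb : b = 1 ∨ b = -1) : a * b = 1 ∨ a * b = -1 := by
  rcases ha with rfl | rfl <;> rcases hb with rfl | rfl <;> simp

lemma Hs_pm {E : Type} [Field E] {n : ℕ} (M : Matrix (Fin n) (Fin n) E) : Hs M = 1 ∨ Hs M = -1 := by
  unfold Hs
  split_ifs <;> simp

lemma ee_pm {E : Type} [Field E] (n : ℕ) (F δ a : E[X]) : ee n F δ a = 1 ∨ ee n F δ a = -1 := by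
  unfold ee
  exact pm_mul (pm_mul (pm_mul (Hs_pm _) (Hs_pm _)) (Hs_pm _)) (Hs_pm _)

lemma cop_pt {E : Type} [Field E] {F : E[X]} {x : E} (hx : F.eval x ≠ 0) :
    IsCoprime (C x - X) F := by
  have h1 : IsCoprime (X - C x) F := by
    rw [(irreducible_X_sub_C x).coprime_iff_not_dvd, dvd_iff_isRoot]
    exact hx
  have h2 : C x - X = -(X - C x) := by ring
  rw [h2]
  exact (IsCoprime.neg_left_iff _ _).2 h1

lemma eval_ne {E : Type} [Field E] {F : E[X]} {x y D : E} (hy : y ≠ 0)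
    (h : y ^ 2 = D * F.eval x) : F.eval x ≠ 0 := by
  intro h0
  rw [h0, mul_zero] at h
  exact hy (pow_eq_zero_iff (two_ne_zero) |>.1 h)

lemma cop_of_dvd {E : Type} [Field E] {F a s : E[X]} {b : E[X]} (h : F ∣ a - b * s ^ 2)
    (ha : IsCoprime a F) : IsCoprime s F := by
  have h1 : IsCoprime (b * s ^ 2) F := by
    obtain ⟨c, hc⟩ := h
    have : b * s ^ 2 = a + F * (-c) := by rw [mul_neg, ← hc]; ring
    rw [this]
    exact (IsCoprime.add_mul_left_left_iff).2 ha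
  exact (IsCoprime.pow_left_iff (by norm_num)).1 (IsCoprime.of_mul_left_right h1)

lemma ee_pt (hEE : P_EE) {E : Type} [Field E] [CharZero E] (hs : IsSymbol (hil E)) {n : ℕ}
    {f : ℤ[X]} (hyp : Hyp n f) {D : ℤ} {h a : E[X]} (hh : IsCoprime h (ov E f))
    (ha : IsCoprime a (ov E f)) (hsq : IsSquare (nm (ov E f) a)) (hpt : Pt E f D h) :
    ∃ x y : E, y ≠ 0 ∧ y ^ 2 = (D : E) * (ov E f).eval x ∧
      ee n (ov E f) h a = ee n (ov E f) (C x - X) a := by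
  obtain ⟨x, y, u, s, hy, hu, e, hd⟩ := hpt
  refine ⟨x, y, hy, e, ?_⟩
  have hev := eval_ne hy e
  have hc := cop_pt hev
  have hsc := cop_of_dvd hd hc
  exact ((hEE E hs n (ov E f) h a (by have := hyp.six; omega) hyp.even (ov_monic E hyp.mon)
    (ov_deg E hyp.mon hyp.deg) hh ha).1 (C x - X) s u hu hsc hd hsq).symm

/-- the point is independent of `a` -/
lemma ee_pt' (hEE : P_EE) {E : Type} [Field E] [CharZero E] (hs : IsSymbol (hil E)) {n : ℕ}
    {f : ℤ[X]} (hyp : Hyp n f) {D : ℤ} {h : E[X]} (hh : IsCoprime h (ov E f))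
    (hpt : Pt E f D h) :
    ∃ x y : E, y ≠ 0 ∧ y ^ 2 = (D : E) * (ov E f).eval x ∧ ∀ a : E[X], IsCoprime a (ov E f) →
      IsSquare (nm (ov E f) a) → ee n (ov E f) h a = ee n (ov E f) (C x - X) a := by
  obtain ⟨x, y, u, s, hy, hu, e, hd⟩ := hpt
  refine ⟨x, y, hy, e, fun a ha hsq => ?_⟩
  have hev := eval_ne hy e
  have hc := cop_pt hev
  have hsc := cop_of_dvd hd hc
  exact ((hEE E hs n (ov E f) h a (by have := hyp.six; omega) hyp.even (ov_monic E hyp.mon)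
    (ov_deg E hyp.mon hyp.deg) hh ha).1 (C x - X) s u hu hsc hd hsq).symm

lemma hil_one_left {E : Type} [Field E] [CharZero E] (hs : IsSymbol (hil E)) {b : E} (hb : b ≠ 0) :
    hil E 1 b = 1 := by
  exact hs.one 1 b 1 0 one_ne_zero hb (by ring)

/-- squares have trivial symbols -/
lemma ee_sq (hEE : P_EE) (hGMB : S_GMB) {E : Type} [Field E] [CharZero E] (hs : IsSymbol (hil E))
    {n : ℕ} {f : ℤ[X]} (hyp : Hyp n f) {δ a s : E[X]} (hδ : IsCoprime δ (ov E f))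
    (hsc : IsCoprime s (ov E f)) (hd : ov E f ∣ a - s ^ 2) : ee n (ov E f) δ a = 1 := by
  have hn : 1 ≤ n := by have := hyp.six; omega
  have ha : IsCoprime a (ov E f) := by
    obtain ⟨c, hc⟩ := hd
    have : a = s ^ 2 + ov E f * c := by rw [← hc]; ring
    rw [this]
    exact (IsCoprime.add_mul_left_left_iff).2 hsc.pow_left
  have h1 := (hEE E hs n (ov E f) δ a hn hyp.even (ov_monic E hyp.mon)
    (ov_deg E hyp.mon hyp.deg) hδ ha).2.2.1 1 s one_ne_zero hsc (by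
      rw [C_1, one_mul]; exact hd)
  rw [h1]
  refine hil_one_left hs ?_
  have h2 := (hGMB E n (ov E f) hn (ov_monic E hyp.mon) (ov_deg E hyp.mon hyp.deg)).2.1 δ
  exact (h2.2 hδ).ne_zero

end AsmP

end Pool.Agent.H30Q
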