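import Pool.Agent.H30Q.AsmC

/-! # Assembly, fourth part: the symbols -/

set_option autoImplicit false
set_option linter.all false

open Polynomial IsDedekindDomain Matrix NumberField
open scoped Classical

namespace Pool.Agent.H30Q

open Pool.Agent.N783.PF (HV)
open Pool.Agent.N874.PP (Ev)
open Pool.Agent.N202.M4 (hil IsSymbol)

namespace AsmP

lemma sq_loc (hGMB : S_GMB) (E : Type) [Field E] [CharZero E] {n : ℕ} {f A : ℤ[X]} (hyp : Hyp n f)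
    (h : IsSquare (nm (ov ℚ f) (ov ℚ A))) : IsSquare (nm (ov E f) (ov E A)) := by
  have hn : 1 ≤ n := by have := hyp.six; omega
  have h1 := ((hGMB ℚ n (ov ℚ f) hn (ov_monic ℚ hyp.mon) (ov_deg ℚ hyp.mon hyp.deg)).2.2 E
    (Rat.castHom E) (ov ℚ A)).2
  have h2 : (ov ℚ f).map (Rat.castHom E) = ov E f := oq_ov E f
  have h3 : (ov ℚ A).map (Rat.castHom E) = ov E A := oq_ov E A
  rw [h2, h3] at h1
  rw [h1]
  exact h.map (Rat.castHom E)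

lemma cop_loc (E : Type) [Field E] [CharZero E] {f : ℤ[X]} {h : ℚ[X]}
    (hc : IsCoprime h (ov ℚ f)) : IsCoprime (oq E h) (ov E f) := by
  rw [← oq_ov E f]
  exact hc.map (mapRingHom (Rat.castHom E))

lemma cop_locA (E : Type) [Field E] [CharZero E] {f A : ℤ[X]}
    (hc : IsCoprime (ov ℚ A) (ov ℚ f)) : IsCoprime (ov E A) (ov E f) := by
  rw [← oq_ov E A]
  exact cop_loc E hc

/-- the primes dividing `W` -/
lemma ee_W (hEE : P_EE) (hGMB : S_GMB) (hHEN : S_HEN) {n : ℕ} {f : ℤ[X]} (hyp : Hyp n f)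
    {W p : ℕ} [hp : Fact p.Prime] (hpW : p ∣ W) {A Y : ℤ[X]} (hA : A = 1 + C (4 * W : ℤ) * Y)
    {δ : ℚ_[p][X]} (hδ : IsCoprime δ (ov ℚ_[p] f)) : ee n (ov ℚ_[p] f) δ (ov ℚ_[p] A) = 1 := by
  obtain ⟨k, rfl⟩ := hpW
  have hn : 1 ≤ n := by have := hyp.six; omega
  obtain ⟨s, hs, hd⟩ := hHEN p (f.map (Int.castRingHom ℤ_[p])) (A.map (Int.castRingHom ℤ_[p])) 1
    (C (k : ℤ_[p]) * Y.map (Int.castRingHom ℤ_[p])) (hyp.mon.map _)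
    (by rw [hyp.mon.natDegree_map, hyp.deg]; exact hn) isCoprime_one_left (by
      rw [hA]
      have : (1 + C (4 * ((p * k : ℕ) : ℤ) : ℤ) * Y).map (Int.castRingHom ℤ_[p]) - 1 ^ 2 -
          C (4 * p : ℤ_[p]) * (C (k : ℤ_[p]) * Y.map (Int.castRingHom ℤ_[p])) = 0 := by
        rw [Polynomial.map_add, Polynomial.map_mul, Polynomial.map_one, Polynomial.map_C,
          ← mul_assoc (C (4 * p : ℤ_[p])), ← C_mul]
        have h2 : (Int.castRingHom ℤ_[p]) (4 * ((p * k : ℕ) : ℤ)) = 4 * (p : ℤ_[p]) * k := by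
          simp
          ring
        rw [h2]
        ring
      rw [this]
      exact dvd_zero _)
  have hm : ∀ B : ℤ[X], (B.map (Int.castRingHom ℤ_[p])).map (algebraMap ℤ_[p] ℚ_[p]) =
      ov ℚ_[p] B := by
    intro B
    rw [Polynomial.map_map, ov]
    congr 1
  refine ee_sq hEE hGMB (Pool.Agent.N446.M4.sym_ p) hyp
    (s := s.map (algebraMap ℤ_[p] ℚ_[p])) hδ ?_ ?_
  · rw [← hm f]
    exact hs.map (mapRingHom (algebraMap ℤ_[p] ℚ_[p]))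
  · have := Polynomial.map_dvd (algebraMap ℤ_[p] ℚ_[p]) hd
    rwa [Polynomial.map_sub, Polynomial.map_pow, hm, hm] at this

/-- the real place -/
lemma ee_R (hEE : P_EE) (hGMB : S_GMB) (hREA : S_REA) {n : ℕ} {f : ℤ[X]} (hyp : Hyp n f)
    {A : ℤ[X]} (hpos : ∀ z : ℝ, (ov ℝ f).eval z = 0 → 0 < (ov ℝ A).eval z)
    (hc : IsCoprime (ov ℝ A) (ov ℝ f)) {δ : ℝ[X]} (hδ : IsCoprime δ (ov ℝ f)) :
    ee n (ov ℝ f) δ (ov ℝ A) = 1 := by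
  have hsep : (ov ℝ f).Separable := by
    rw [← oq_ov ℝ f]
    exact hyp.sep.map
  obtain ⟨s, hs, hd⟩ := hREA (ov ℝ f) (ov ℝ A) (ov_monic ℝ hyp.mon) hsep hpos hc
  exact ee_sq hEE hGMB Pool.Agent.N835.PQ.symR hyp hδ hs hd

/-- the good primes -/
lemma ee_good (hEVN : S_EVN) (hGPT : P_GPT) (hGMB : S_GMB) {n : ℕ} {f : ℤ[X]} (hyp : Hyp n f)
    {L : Type} [Field L] [NumberField L] {θ : L} (hθ : Rt n f θ) {W : ℕ} (hW : GW n f θ W)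
    {p : ℕ} [hp : Fact p.Prime] (hpW : ¬ p ∣ W) {A : ℤ[X]} (hA : aeval θ A ≠ 0)
    (hsq : IsSquare (nm (ov ℚ f) (ov ℚ A)))
    (hev : ∀ 𝔓 : HeightOneSpectrum (𝓞 L), (p : 𝓞 L) ∈ 𝔓.asIdeal → Ev 𝔓 (aeval θ A))
    {D : ℤ} (hD : ¬ (p : ℤ) ∣ D) {x y : ℚ_[p]} (hy : y ≠ 0)
    (e : y ^ 2 = (D : ℚ_[p]) * (ov ℚ_[p] f).eval x) :
    ee n (ov ℚ_[p] f) (C x - X) (ov ℚ_[p] A) = 1 := by
  have h2 : p ≠ 2 := by
    rintro rfl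
    exact hpW (dvd_trans (by norm_num) hW.eight)
  exact hGPT p h2 n f D (by have := hyp.six; omega) hyp.even hyp.mon hyp.deg
    (hW.sep p hp.out hpW) hD x y hy e (ov ℚ_[p] A) (cop_locA _ (cop_of hθ hA))
    (sq_loc hGMB _ hyp hsq) (hEVN n W f L θ hθ hW p hpW A hA hev)

/-- the primes in `P`: few vectors -/
lemma exists_vals (hPI : P_PI) (hEE : P_EE) (hGMB : S_GMB) {n : ℕ} {f : ℤ[X]} (hyp : Hyp n f)
    {p : ℕ} [hp : Fact p.Prime] (h2 : p ≠ 2) (hsep : (rd p f).Separable) {D₁ : ℤ}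
    (hd1 : (p : ℤ) ∣ D₁) (hd2 : ¬ (p : ℤ) ^ 2 ∣ D₁) {r : ℕ} {A : Fin r → ℤ[X]}
    (hA : ∀ i, IsCoprime (ov ℚ (A i)) (ov ℚ f))
    (hsq : ∀ i, IsSquare (nm (ov ℚ f) (ov ℚ (A i)))) :
    ∃ V : ℕ → Fin r → ℤ, (∀ c i, V c i = 1 ∨ V c i = -1) ∧ ∀ (D₂ : ℤ) (x y : ℚ_[p]),
      (p : ℤ) ∣ D₂ → ¬ (p : ℤ) ^ 2 ∣ D₂ → IsSquare ((D₁ * D₂ : ℤ) : ℚ_[p]) → y ≠ 0 →
      y ^ 2 = (D₂ : ℚ_[p]) * (ov ℚ_[p] f).eval x →
      ∃ c < p, (p : ℤ) ∣ f.eval (c : ℤ) ∧ ∀ i, ee n (ov ℚ_[p] f) (C x - X) (ov ℚ_[p] (A i)) = V c i := by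
  obtain ⟨hP1, hP2⟩ := hPI p h2 n f hyp.even hyp.mon hyp.deg hsep
  have hs := Pool.Agent.N446.M4.sym_ p
  -- a reference point
  let G : ℕ → Prop := fun c => ∃ (D₂ : ℤ) (x y : ℚ_[p]), (p : ℤ) ∣ D₂ ∧ ¬ (p : ℤ) ^ 2 ∣ D₂ ∧
    IsSquare ((D₁ * D₂ : ℤ) : ℚ_[p]) ∧ y ≠ 0 ∧ y ^ 2 = (D₂ : ℚ_[p]) * (ov ℚ_[p] f).eval x ∧
    ‖x - ((c : ℤ) : ℚ_[p])‖ < 1
  have hG : ∀ c, G c → ∃ x : ℚ_[p], ∃ (D₂ : ℤ) (y : ℚ_[p]), (p : ℤ) ∣ D₂ ∧ ¬ (p : ℤ) ^ 2 ∣ D₂ ∧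
    IsSquare ((D₁ * D₂ : ℤ) : ℚ_[p]) ∧ y ≠ 0 ∧ y ^ 2 = (D₂ : ℚ_[p]) * (ov ℚ_[p] f).eval x ∧
    ‖x - ((c : ℤ) : ℚ_[p])‖ < 1 := fun c ⟨D₂, x, y, hh⟩ => ⟨x, D₂, y, hh⟩
  choose! ref href using hG
  refine ⟨fun c i => ee n (ov ℚ_[p] f) (C (ref c) - X) (ov ℚ_[p] (A i)), fun c i => ee_pm _ _ _ _,
    ?_⟩
  intro D₂ x y hp2 hpp hsq2 hy e
  obtain ⟨e₀, he₀, hx₀⟩ := hP1 D₂ x y hp2 hpp hy e
  have hpos : (0 : ℤ) < p := by exact_mod_cast hp.out.pos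
  have hc0 : 0 ≤ e₀ % p := Int.emod_nonneg _ hpos.ne'
  have hc1 : e₀ % p < p := Int.emod_lt_of_pos _ hpos
  set c : ℕ := (e₀ % p).toNat with hc
  have hce : (c : ℤ) = e₀ % p := Int.toNat_of_nonneg hc0
  have hdvd : (p : ℤ) ∣ e₀ - c := by
    rw [hce]
    exact Int.dvd_self_sub_emod
  have hroot : (p : ℤ) ∣ f.eval (c : ℤ) := by
    rw [← ZMod.intCast_zmod_eq_zero_iff_dvd, ← eval_rd] at he₀ ⊢
    rw [← he₀]
    congr 1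
    have h3 := (ZMod.intCast_zmod_eq_zero_iff_dvd (e₀ - c) p).2 hdvd
    rw [Int.cast_sub, sub_eq_zero] at h3
    exact h3.symm
  have hxc : ‖x - ((c : ℤ) : ℚ_[p])‖ < 1 := by
    have h4 : x - ((c : ℤ) : ℚ_[p]) = (x - (e₀ : ℚ_[p])) + ((e₀ - c : ℤ) : ℚ_[p]) := by
      rw [Int.cast_sub]; ring
    rw [h4]
    refine lt_of_le_of_lt (Padic.nonarchimedean _ _) (max_lt hx₀ ?_)
    exact Padic.norm_intCast_lt_one_iff.2 hdvd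
  have hGc : G c := ⟨D₂, x, y, hp2, hpp, hsq2, hy, e, hxc⟩
  obtain ⟨D₃, y₃, h31, h32, h33, h34, h35, h36⟩ := href c hGc
  refine ⟨c, by have : (c : ℤ) < p := by rw [hce]; exact hc1
                exact_mod_cast this, hroot, fun i => ?_⟩
  have hD1 : (D₁ : ℚ_[p]) ≠ 0 := by
    intro h0
    apply hd2
    have : D₁ = 0 := by exact_mod_cast h0
    rw [this]
    exact dvd_zero _
  have hD3 : D₃ ≠ 0 := by
    rintro rfl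
    exact h32 (dvd_zero _)
  have hsq' : IsSquare ((D₂ * D₃ : ℤ) : ℚ_[p]) := by
    obtain ⟨u, hu⟩ := hsq2
    obtain ⟨v, hv⟩ := h33
    refine ⟨u * v / D₁, ?_⟩
    have : ((D₁ * D₂ : ℤ) : ℚ_[p]) * ((D₁ * D₃ : ℤ) : ℚ_[p]) = (u * u) * (v * v) := by rw [hu, hv]
    push_cast at this ⊢
    field_simp
    linear_combination this
  obtain ⟨s, hs1, hs2⟩ := hP2 D₂ D₃ (c : ℤ) x y (ref c) y₃ hp2 hpp hsq' hD3 hy e h34 h35 hxc h36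
  have hev := eval_ne hy e
  have hev3 := eval_ne h34 h35
  have h5 := (hEE ℚ_[p] hs n (ov ℚ_[p] f) (C x - X) (ov ℚ_[p] (A i)) (by have := hyp.six; omega)
    hyp.even (ov_monic _ hyp.mon) (ov_deg _ hyp.mon hyp.deg) (cop_pt hev)
    (cop_locA _ (hA i))).1 (C (ref c) - X) s 1 one_ne_zero hs1 (by rw [C_1, one_mul]; exact hs2)
    (sq_loc hGMB _ hyp (hsq i))
  exact h5.symm

end AsmP

end Pool.Agent.H30Q
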