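import Pool.Agent.H30Q.Stm

/-!
# Local points at the primes dividing `D` exactly once (piece PI of project HQ)
-/

set_option autoImplicit false
set_option linter.all false

open Polynomial

namespace Pool.Agent.H30Q

namespace PIP

section base

variable {p : ℕ} [Fact p.Prime]

theorem zm_zero (z : ℤ_[p]) : PadicInt.toZMod z = 0 ↔ ‖z‖ < 1 := by
  rw [← RingHom.mem_ker, PadicInt.ker_toZMod, IsLocalRing.mem_maximalIdeal, PadicInt.mem_nonunits]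

theorem zm_unit (z : ℤ_[p]) : IsUnit z ↔ PadicInt.toZMod z ≠ 0 := by
  rw [Ne, zm_zero, ← PadicInt.not_isUnit_iff, not_not]

theorem zm_dvd (z : ℤ_[p]) : PadicInt.toZMod z = 0 ↔ (p : ℤ_[p]) ∣ z := by
  rw [zm_zero, PadicInt.norm_lt_one_iff_dvd]

theorem zm_eq (x y : ℤ_[p]) : PadicInt.toZMod x = PadicInt.toZMod y ↔ ‖x - y‖ < 1 := by
  rw [← zm_zero, map_sub, sub_eq_zero]

/-- `f` over `ℤ_p` -/
noncomputable abbrev fz (p : ℕ) [Fact p.Prime] (f : ℤ[X]) : ℤ_[p][X] := f.map (Int.castRingHom ℤ_[p])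

theorem fz_ov (f : ℤ[X]) : (fz p f).map (algebraMap ℤ_[p] ℚ_[p]) = ov ℚ_[p] f := by
  unfold fz ov
  rw [Polynomial.map_map]
  congr 1

theorem fz_rd (f : ℤ[X]) : (fz p f).map PadicInt.toZMod = rd p f := by
  unfold fz rd
  rw [Polynomial.map_map]
  congr 1
  exact RingHom.ext_int _ _

theorem ev_rd (f : ℤ[X]) (x : ℤ_[p]) :
    PadicInt.toZMod ((fz p f).eval x) = (rd p f).eval (PadicInt.toZMod x) := by
  rw [← fz_rd]
  exact (Polynomial.eval_map_apply PadicInt.toZMod x).symm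

theorem ev_ov (f : ℤ[X]) (x : ℤ_[p]) : (ov ℚ_[p] f).eval (x : ℚ_[p]) = (((fz p f).eval x : ℤ_[p]) : ℚ_[p]) := by
  rw [← fz_ov, Polynomial.eval_map]
  exact Polynomial.eval₂_at_apply (algebraMap ℤ_[p] ℚ_[p]) x

/-- factorisation over `ℤ_p` near a zero modulo `p` -/
theorem fac (f : ℤ[X]) (hm : f.Monic) (hsep : (rd p f).Separable) (x : ℤ_[p])
    (hx : PadicInt.toZMod ((fz p f).eval x) = 0) : ∃ (ρ : ℤ_[p]) (G : ℤ_[p][X]),
      fz p f = (X - C ρ) * G ∧ G.Monic ∧ PadicInt.toZMod ρ = PadicInt.toZMod x ∧ IsUnit (G.eval ρ) := by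
  have hd : IsUnit ((derivative (fz p f)).eval x) := by
    rw [zm_unit]
    intro h
    have h1 : (derivative (rd p f)).eval (PadicInt.toZMod x) = 0 := by
      rw [← h]
      have : derivative (fz p f) = fz p (derivative f) := by
        unfold fz
        rw [Polynomial.derivative_map]
      rw [this, ev_rd]
      unfold rd
      rw [Polynomial.derivative_map]
    have h2 : (rd p f).eval (PadicInt.toZMod x) = 0 := by rw [← ev_rd, hx]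
    obtain ⟨a, b, hab⟩ := hsep
    have h3 := congrArg (fun q => q.eval (PadicInt.toZMod x)) hab
    simp only [eval_add, eval_mul, h1, h2, mul_zero, add_zero, eval_one] at h3
    exact zero_ne_one h3
  have hn1 : ‖(derivative (fz p f)).eval x‖ = 1 := PadicInt.isUnit_iff.mp hd
  obtain ⟨ρ, h1, h2, h3, -⟩ := hensels_lemma (p := p) (R := ℤ_[p]) (F := fz p f) (a := x) (by
    rw [Polynomial.coe_aeval_eq_eval, hn1, one_pow]
    exact (zm_zero _).mp hx)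
  rw [Polynomial.coe_aeval_eq_eval] at h1 h2 h3
  rw [hn1] at h2
  rw [Polynomial.coe_aeval_eq_eval, hn1] at h3
  obtain ⟨G, hG⟩ := Polynomial.dvd_iff_isRoot.mpr h1
  have hfm : (fz p f).Monic := hm.map _
  refine ⟨ρ, G, hG, ?_, (zm_eq _ _).mpr h2, ?_⟩
  · rw [hG] at hfm
    exact (Polynomial.monic_X_sub_C ρ).of_mul_monic_left hfm
  · rw [PadicInt.isUnit_iff, ← h3, hG]
    simp [Polynomial.derivative_mul]

/-- units congruent to one are squares -/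
theorem sq_one (hp : p ≠ 2) (u : ℤ_[p]) (hu : PadicInt.toZMod u = 1) : ∃ w : ℤ_[p], w ^ 2 = u := by
  have h2 : ‖(2 : ℤ_[p])‖ = 1 := by
    have h : ‖((2 : ℕ) : ℤ_[p])‖ = 1 := by
      rw [PadicInt.norm_natCast_eq_one_iff]
      exact (Nat.coprime_primes (Fact.out : p.Prime) Nat.prime_two).mpr hp
    simpa using h
  obtain ⟨w, h1, -⟩ := hensels_lemma (p := p) (R := ℤ_[p]) (F := X ^ 2 - C u) (a := 1) (by
    rw [Polynomial.coe_aeval_eq_eval]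
    simp only [derivative_sub, derivative_X_pow, derivative_C, sub_zero, eval_sub, eval_pow, eval_X,
      eval_C, one_pow, eval_mul, Nat.cast_ofNat, mul_one]
    have : ‖eval (1 : ℤ_[p]) (C (2 : ℤ_[p]))‖ = 1 := by rw [eval_C, h2]
    simp only [eval_C, Nat.add_one_sub_one, pow_one, eval_X, mul_one, h2, one_pow]
    rw [← zm_eq, hu, map_one])
  rw [Polynomial.coe_aeval_eq_eval] at h1
  refine ⟨w, ?_⟩
  simpa [sub_eq_zero] using h1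

theorem four_unit (hp : p ≠ 2) : ∃ i : ℤ_[p], 4 * i = 1 := by
  have h : IsUnit ((4 : ℕ) : ℤ_[p]) := by
    rw [PadicInt.isUnit_iff, PadicInt.norm_natCast_eq_one_iff]
    exact Nat.Coprime.pow_right 2 ((Nat.coprime_primes (Fact.out : p.Prime) Nat.prime_two).mpr hp)
  obtain ⟨i, hi⟩ := h.exists_right_inv
  exact ⟨i, by simpa using hi⟩

/-- valuation of a monic polynomial at a large number -/
theorem norm_eval_big (F : ℤ_[p][X]) (hF : F.Monic) {x : ℚ_[p]} (hx : 1 < ‖x‖) :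
    ‖(F.map (algebraMap ℤ_[p] ℚ_[p])).eval x‖ = ‖x‖ ^ F.natDegree := by
  have hM : (F.map (algebraMap ℤ_[p] ℚ_[p])).Monic := hF.map _
  have hd : (F.map (algebraMap ℤ_[p] ℚ_[p])).natDegree = F.natDegree := hF.natDegree_map _
  rw [hM.as_sum, hd, eval_add, eval_pow, eval_X, eval_finset_sum]
  have hs : ‖∑ i ∈ Finset.range F.natDegree,
      (C ((F.map (algebraMap ℤ_[p] ℚ_[p])).coeff i) * X ^ i).eval x‖ < ‖x‖ ^ F.natDegree := by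
    rcases Nat.eq_zero_or_pos F.natDegree with h0 | h0
    · rw [h0]
      simp
    · refine lt_of_le_of_lt (IsUltrametricDist.norm_sum_le_of_forall_le_of_nonneg
        (C := ‖x‖ ^ (F.natDegree - 1)) (by positivity) fun i hi => ?_) ?_
      · rw [eval_mul, eval_C, eval_pow, eval_X, norm_mul, norm_pow, coeff_map]
        have h1 : ‖algebraMap ℤ_[p] ℚ_[p] (F.coeff i)‖ ≤ 1 := (F.coeff i).2
        have h2 : ‖x‖ ^ i ≤ ‖x‖ ^ (F.natDegree - 1) :=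
          pow_le_pow_right₀ hx.le (by have := Finset.mem_range.mp hi; omega)
        calc _ ≤ 1 * ‖x‖ ^ (F.natDegree - 1) := mul_le_mul h1 h2 (by positivity) zero_le_one
          _ = _ := one_mul _
      · exact pow_lt_pow_right₀ hx (by omega)
  rw [← norm_pow] at hs
  rw [Padic.add_eq_max_of_ne hs.ne', max_eq_left hs.le, norm_pow]


theorem val_D (D : ℤ) (h1 : (p : ℤ) ∣ D) (h2 : ¬ (p : ℤ) ^ 2 ∣ D) :
    (D : ℚ_[p]).valuation = 1 ∧ (D : ℚ_[p]) ≠ 0 := by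
  obtain ⟨D', rfl⟩ := h1
  have h3 : ¬ (p : ℤ) ∣ D' := by
    rintro ⟨c, rfl⟩
    exact h2 ⟨c, by ring⟩
  have h4 : D' ≠ 0 := by
    rintro rfl
    exact h3 (dvd_zero _)
  have h5 : (D' : ℚ_[p]) ≠ 0 := by exact_mod_cast h4
  have h6 : (p : ℚ_[p]) ≠ 0 := by exact_mod_cast (Fact.out : p.Prime).ne_zero
  have h7 : (((p : ℤ) * D' : ℤ) : ℚ_[p]) = (p : ℚ_[p]) * (D' : ℚ_[p]) := by push_cast; rfl
  rw [h7]
  refine ⟨?_, mul_ne_zero h6 h5⟩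
  rw [Padic.valuation_mul h6 h5, Padic.valuation_p, Padic.valuation_intCast,
    padicValInt.eq_zero_of_not_dvd h3]
  simp

theorem val_eq {D : ℤ} (h1 : (p : ℤ) ∣ D) (h2 : ¬ (p : ℤ) ^ 2 ∣ D) {y z : ℚ_[p]} (hy : y ≠ 0)
    (h : y ^ 2 = (D : ℚ_[p]) * z) : z ≠ 0 ∧ 2 * y.valuation = 1 + z.valuation := by
  obtain ⟨h3, h4⟩ := val_D D h1 h2
  have hz : z ≠ 0 := by
    rintro rfl
    rw [mul_zero] at h
    exact hy (pow_eq_zero_iff (two_ne_zero)|>.mp h)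
  refine ⟨hz, ?_⟩
  have := congrArg Padic.valuation h
  rw [Padic.valuation_pow, Padic.valuation_mul h4 hz, h3] at this
  exact_mod_cast this

theorem val_unit {z : ℚ_[p]} (h : ‖z‖ = 1) : z.valuation = 0 := by
  have hz : z ≠ 0 := by
    rintro rfl
    simp at h
  have h1 := Padic.norm_eq_zpow_neg_valuation hz
  rw [h] at h1
  have hp : (1 : ℝ) < p := by exact_mod_cast (Fact.out : p.Prime).one_lt
  have h2 : (p : ℝ) ^ (0 : ℤ) = (p : ℝ) ^ (-z.valuation) := by rw [zpow_zero]; exact h1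
  have h3 := zpow_right_injective₀ (by linarith) hp.ne' h2
  omega

theorem small {n : ℕ} {f : ℤ[X]} (hn : Even n) (hm : f.Monic) (hd : f.natDegree = n) {D : ℤ} {x y : ℚ_[p]}
    (h1 : (p : ℤ) ∣ D) (h2 : ¬ (p : ℤ) ^ 2 ∣ D) (hy : y ≠ 0)
    (h : y ^ 2 = (D : ℚ_[p]) * (ov ℚ_[p] f).eval x) :
    ∃ X : ℤ_[p], (X : ℚ_[p]) = x ∧ PadicInt.toZMod ((fz p f).eval X) = 0 := by
  obtain ⟨hz, hv⟩ := val_eq h1 h2 hy h
  have hx : ‖x‖ ≤ 1 := by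
    by_contra hx
    push Not at hx
    have h3 := norm_eval_big (fz p f) (hm.map _) hx
    rw [fz_ov, hm.natDegree_map, hd] at h3
    have hx0 : x ≠ 0 := by
      rintro rfl
      simp at hx
      linarith
    rw [Padic.norm_eq_zpow_neg_valuation hz, Padic.norm_eq_zpow_neg_valuation hx0, ← zpow_natCast,
      ← zpow_mul] at h3
    have hp : (1 : ℝ) < p := by exact_mod_cast (Fact.out : p.Prime).one_lt
    have h4 := zpow_right_injective₀ (by linarith) hp.ne' h3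
    obtain ⟨k, rfl⟩ := hn
    push_cast at h4
    have h5 : x.valuation * ((k : ℤ) + k) = 2 * (x.valuation * k) := by ring
    have h6 : -x.valuation * ((k : ℤ) + k) = -(2 * (x.valuation * k)) := by ring
    rw [h6] at h4
    omega
  refine ⟨⟨x, hx⟩, rfl, ?_⟩
  by_contra hne
  have h3 : IsUnit ((fz p f).eval ⟨x, hx⟩) := (zm_unit _).mpr hne
  have h4 : ((ov ℚ_[p] f).eval x).valuation = 0 := by
    refine val_unit ?_
    have := ev_ov f (⟨x, hx⟩ : ℤ_[p])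
    have h5 : (ov ℚ_[p] f).eval x = (((fz p f).eval ⟨x, hx⟩ : ℤ_[p]) : ℚ_[p]) := this
    rw [h5]
    exact PadicInt.isUnit_iff.mp h3
  omega

theorem zm_int (e : ℤ) : PadicInt.toZMod (e : ℤ_[p]) = (e : ZMod p) := map_intCast _ _

theorem rd_int (f : ℤ[X]) (e : ℤ) : (rd p f).eval (e : ZMod p) = ((f.eval e : ℤ) : ZMod p) := by
  unfold rd
  exact Polynomial.eval_intCast_map (Int.castRingHom (ZMod p)) f e

/-- from a congruence in `ℚ_p` -/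
theorem near {x : ℚ_[p]} {e : ℤ} (h : ‖x - (e : ℚ_[p])‖ < 1) :
    ∃ X : ℤ_[p], (X : ℚ_[p]) = x ∧ PadicInt.toZMod X = (e : ZMod p) := by
  have h1 : ‖x‖ ≤ 1 := by
    have h2 : ‖(e : ℚ_[p])‖ ≤ 1 := Padic.norm_int_le_one e
    have h3 : x = (x - e) + e := by ring
    rw [h3]
    exact (Padic.nonarchimedean _ _).trans (max_le h.le h2)
  obtain ⟨X, hX⟩ : ∃ X : ℤ_[p], (X : ℚ_[p]) = x := ⟨⟨x, h1⟩, rfl⟩
  subst hX
  refine ⟨X, rfl, ?_⟩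
  rw [← zm_int, zm_eq]
  exact h

theorem near' {X : ℤ_[p]} {e : ℤ} (h : PadicInt.toZMod X = (e : ZMod p)) :
    ‖(X : ℚ_[p]) - (e : ℚ_[p])‖ < 1 := by
  rw [← zm_int, zm_eq] at h
  exact h

theorem one {n : ℕ} {f : ℤ[X]} (hn : Even n) (hm : f.Monic) (hd : f.natDegree = n) {D : ℤ} {x y : ℚ_[p]}
    (h1 : (p : ℤ) ∣ D) (h2 : ¬ (p : ℤ) ^ 2 ∣ D) (hy : y ≠ 0)
    (h : y ^ 2 = (D : ℚ_[p]) * (ov ℚ_[p] f).eval x) :
    ∃ e : ℤ, (p : ℤ) ∣ f.eval e ∧ ‖x - (e : ℚ_[p])‖ < 1 := by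
  obtain ⟨X, rfl, hX⟩ := small hn hm hd h1 h2 hy h
  obtain ⟨e, -, he⟩ := PadicInt.exists_mem_range (x := X)
  have h3 : PadicInt.toZMod X = ((e : ℤ) : ZMod p) := by
    rw [← zm_int, ← sub_eq_zero, ← map_sub, ← RingHom.mem_ker, PadicInt.ker_toZMod]
    simpa using he
  refine ⟨e, ?_, near' h3⟩
  rw [← ZMod.intCast_zmod_eq_zero_iff_dvd, ← rd_int, ← h3, ← ev_rd, hX]


theorem cop_lin {R : Type} [CommRing R] (G : R[X]) (r : R) (h : IsUnit (G.eval r)) :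
    IsCoprime (X - C r) G := by
  obtain ⟨Q, hQ⟩ := Polynomial.X_sub_C_dvd_sub_C_eval (a := r) (p := G)
  obtain ⟨u, hu⟩ := h.exists_right_inv
  refine ⟨-(C u * Q), C u, ?_⟩
  have h1 : C (G.eval r) * C u = 1 := by rw [← C_mul, hu, C_1]
  linear_combination h1 + C u * hQ

theorem cop_lin' {R : Type} [CommRing R] (G : R[X]) (r : R) (h : IsUnit (G.eval r)) :
    IsCoprime (C r - X) G := by
  have := (cop_lin G r h).neg_left
  rwa [neg_sub] at this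

theorem zm_eval (G : ℤ_[p][X]) (x : ℤ_[p]) :
    PadicInt.toZMod (G.eval x) = (G.map PadicInt.toZMod).eval (PadicInt.toZMod x) :=
  (Polynomial.eval_map_apply PadicInt.toZMod x).symm

/-- units at neighbours -/
theorem unit_near {G : ℤ_[p][X]} {x y : ℤ_[p]} (h : PadicInt.toZMod x = PadicInt.toZMod y)
    (hx : IsUnit (G.eval x)) : IsUnit (G.eval y) := by
  rw [zm_unit, zm_eval, ← h, ← zm_eval, ← zm_unit]
  exact hx

theorem map_eval (G : ℤ_[p][X]) (x : ℤ_[p]) :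
    (G.map (algebraMap ℤ_[p] ℚ_[p])).eval (x : ℚ_[p]) = ((G.eval x : ℤ_[p]) : ℚ_[p]) :=
  Polynomial.eval_map_apply (algebraMap ℤ_[p] ℚ_[p]) x

/-- Chinese remainder theorem for `(X - ρ) G` -/
theorem crt {ρ : ℤ_[p]} {G : ℤ_[p][X]} (hu : IsUnit (G.eval ρ)) (sG : ℤ_[p][X]) {b : ℚ_[p]} (hb : b ≠ 0)
    (hs : IsCoprime sG G) : ∃ s : ℚ_[p][X],
      IsCoprime s (((X - C ρ) * G).map (algebraMap ℤ_[p] ℚ_[p])) ∧
      (∃ q, s = sG.map (algebraMap ℤ_[p] ℚ_[p]) + G.map (algebraMap ℤ_[p] ℚ_[p]) * q) ∧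
      s.eval (ρ : ℚ_[p]) = b := by
  obtain ⟨α, β, h⟩ := cop_lin G ρ hu
  have h' : α.map (algebraMap ℤ_[p] ℚ_[p]) * (X - C (ρ : ℚ_[p])) +
      β.map (algebraMap ℤ_[p] ℚ_[p]) * G.map (algebraMap ℤ_[p] ℚ_[p]) = 1 := by
    have := congrArg (Polynomial.map (algebraMap ℤ_[p] ℚ_[p])) h
    simp only [Polynomial.map_add, Polynomial.map_mul, Polynomial.map_sub, map_X, map_C,
      Polynomial.map_one] at this
    exact this
  obtain ⟨s, hsd⟩ : ∃ s : ℚ_[p][X], s = sG.map (algebraMap ℤ_[p] ℚ_[p]) +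
    G.map (algebraMap ℤ_[p] ℚ_[p]) * (β.map (algebraMap ℤ_[p] ℚ_[p]) *
      (C b - sG.map (algebraMap ℤ_[p] ℚ_[p]))) := ⟨_, rfl⟩
  have hev : s.eval (ρ : ℚ_[p]) = b := by
    have h1 := congrArg (fun q => q.eval (ρ : ℚ_[p])) h'
    simp only [eval_add, eval_mul, eval_sub, eval_X, eval_C, sub_self, mul_zero, zero_add, eval_one] at h1
    rw [hsd]
    simp only [eval_add, eval_mul, eval_sub, eval_C]
    linear_combination (b - (sG.map (algebraMap ℤ_[p] ℚ_[p])).eval (ρ : ℚ_[p])) * h1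
  refine ⟨s, ?_, ⟨_, hsd⟩, hev⟩
  rw [Polynomial.map_mul, Polynomial.map_sub, map_X, map_C]
  refine IsCoprime.mul_right ?_ ?_
  · refine (cop_lin s (ρ : ℚ_[p]) ?_).symm
    rw [hev]
    exact hb.isUnit
  · obtain ⟨a, c, hac⟩ := hs
    have h2 := congrArg (Polynomial.map (algebraMap ℤ_[p] ℚ_[p])) hac
    simp only [Polynomial.map_add, Polynomial.map_mul, Polynomial.map_one] at h2
    refine ⟨a.map (algebraMap ℤ_[p] ℚ_[p]), c.map (algebraMap ℤ_[p] ℚ_[p]) -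
      a.map (algebraMap ℤ_[p] ℚ_[p]) * (β.map (algebraMap ℤ_[p] ℚ_[p]) *
      (C b - sG.map (algebraMap ℤ_[p] ℚ_[p]))), ?_⟩
    rw [hsd]
    linear_combination h2

theorem two (hH : S_HEN) (hp : p ≠ 2) {n : ℕ} {f : ℤ[X]} (hn : Even n) (hm : f.Monic)
    (hd : f.natDegree = n) (hsep : (rd p f).Separable) {D₁ D₂ e : ℤ} {x₁ y₁ x₂ y₂ : ℚ_[p]}
    (h1 : (p : ℤ) ∣ D₁) (h2 : ¬ (p : ℤ) ^ 2 ∣ D₁) (hsq : IsSquare ((D₁ * D₂ : ℤ) : ℚ_[p]))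
    (hD₂ : D₂ ≠ 0) (hy₁ : y₁ ≠ 0) (e₁ : y₁ ^ 2 = (D₁ : ℚ_[p]) * (ov ℚ_[p] f).eval x₁)
    (hy₂ : y₂ ≠ 0) (e₂ : y₂ ^ 2 = (D₂ : ℚ_[p]) * (ov ℚ_[p] f).eval x₂)
    (n₁ : ‖x₁ - (e : ℚ_[p])‖ < 1) (n₂ : ‖x₂ - (e : ℚ_[p])‖ < 1) :
    ∃ s : ℚ_[p][X], IsCoprime s (ov ℚ_[p] f) ∧ ov ℚ_[p] f ∣ (C x₂ - X) - (C x₁ - X) * s ^ 2 := by
  obtain ⟨X₁, rfl, hX₁⟩ := near n₁
  obtain ⟨X₂, rfl, hX₂⟩ := near n₂
  obtain ⟨X₁', hX₁', h0⟩ := small hn hm hd h1 h2 hy₁ e₁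
  have : X₁' = X₁ := Subtype.coe_injective hX₁'
  subst this
  obtain ⟨ρ, G, hf, hG, hρ, hu⟩ := fac f hm hsep X₁' h0
  have hu₁ : IsUnit (G.eval X₁') := unit_near hρ hu
  have hu₂ : IsUnit (G.eval X₂) := unit_near (by rw [hρ, hX₁, hX₂]) hu
  have hdG : 1 ≤ G.natDegree := by
    have h3 : (fz p f).natDegree = n := by rw [hm.natDegree_map, hd]
    rw [hf, (Polynomial.monic_X_sub_C ρ).natDegree_mul hG, natDegree_X_sub_C] at h3
    obtain ⟨k, rfl⟩ := hn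
    omega
  -- modulo `G`
  obtain ⟨w, hw⟩ : (p : ℤ_[p]) ∣ X₂ - X₁' := by
    rw [← zm_dvd, map_sub, hX₁, hX₂, sub_self]
  obtain ⟨i4, hi4⟩ := four_unit (p := p) hp
  obtain ⟨u, v, huv⟩ := cop_lin' G X₁' hu₁
  obtain ⟨sG, hsG, hsG'⟩ := hH p G (1 + C (X₂ - X₁') * u) 1 (C (w * i4) * u) hG hdG isCoprime_one_left (by
    have : (1 + C (X₂ - X₁') * u) - 1 ^ 2 - C (4 * p : ℤ_[p]) * (C (w * i4) * u) = 0 := by
      rw [← mul_assoc (C (4 * p : ℤ_[p])), ← C_mul, hw]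
      have h3 : (4 * (p : ℤ_[p])) * (w * i4) = p * w := by linear_combination (p * w) * hi4
      rw [h3]
      ring
    rw [this]
    exact dvd_zero _)
  obtain ⟨k, hk⟩ := hsG'
  have hGd : (C X₂ - X) - (C X₁' - X) * sG ^ 2 = G * (C (X₂ - X₁') * v + (C X₁' - X) * k) := by
    have h3 : (C (X₂ - X₁') : ℤ_[p][X]) = C X₂ - C X₁' := C_sub
    rw [h3] at hk ⊢
    linear_combination (C X₁' - X) * hk - (C X₂ - C X₁') * huv
  -- modulo `X - ρ`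
  have efac : ∀ Y : ℤ_[p], (ov ℚ_[p] f).eval (Y : ℚ_[p]) =
      ((Y : ℚ_[p]) - (ρ : ℚ_[p])) * ((G.eval Y : ℤ_[p]) : ℚ_[p]) := by
    intro Y
    rw [← fz_ov, hf, Polynomial.map_mul, eval_mul, map_eval, map_eval, eval_sub, eval_X, eval_C,
      PadicInt.coe_sub]
  rw [efac] at e₁ e₂
  obtain ⟨g₂, hg₂⟩ := hu₂.exists_right_inv
  obtain ⟨r, hr⟩ := sq_one hp (G.eval X₁' * g₂) (by
    rw [map_mul, zm_eval, hX₁, ← hX₂, ← zm_eval, ← map_mul, hg₂, map_one])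
  obtain ⟨d, hd'⟩ := hsq
  have hr' : (r : ℚ_[p]) ^ 2 * ((G.eval X₂ : ℤ_[p]) : ℚ_[p]) = ((G.eval X₁' : ℤ_[p]) : ℚ_[p]) := by
    have h3 : r ^ 2 * G.eval X₂ = G.eval X₁' := by
      rw [hr]
      linear_combination G.eval X₁' * hg₂
    exact_mod_cast congrArg (fun z : ℤ_[p] => (z : ℚ_[p])) h3
  have hD₂' : (D₂ : ℚ_[p]) ≠ 0 := by exact_mod_cast hD₂
  have hD₁' : (D₁ : ℚ_[p]) ≠ 0 := (val_D D₁ h1 h2).2
  have hdd : (D₁ : ℚ_[p]) * D₂ = d * d := by rw [← hd']; push_cast; rfl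
  have hd0 : d ≠ 0 := by
    rintro rfl
    rw [mul_zero] at hdd
    exact mul_ne_zero hD₁' hD₂' hdd
  have hr0 : (r : ℚ_[p]) ≠ 0 := by
    intro h
    rw [h] at hr'
    have : ((G.eval X₁' : ℤ_[p]) : ℚ_[p]) = 0 := by rw [← hr']; ring
    rw [this, mul_zero, mul_zero] at e₁
    exact hy₁ (pow_eq_zero_iff two_ne_zero |>.mp e₁)
  have hG₁ : ((G.eval X₁' : ℤ_[p]) : ℚ_[p]) ≠ 0 := by
    intro h
    rw [h, mul_zero, mul_zero] at e₁
    exact hy₁ (pow_eq_zero_iff two_ne_zero |>.mp e₁)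
  have hG₂ : ((G.eval X₂ : ℤ_[p]) : ℚ_[p]) ≠ 0 := by
    intro h
    rw [h, mul_zero] at hr'
    exact hG₁ hr'.symm
  have hb : (y₂ / y₁ * (d / D₂) * r) ≠ 0 :=
    mul_ne_zero (mul_ne_zero (div_ne_zero hy₂ hy₁) (div_ne_zero hd0 hD₂')) hr0
  obtain ⟨s, hs, ⟨q, hq⟩, hev⟩ := crt hu sG hb hsG
  rw [← hf, fz_ov] at hs
  refine ⟨s, hs, ?_⟩
  have hb2 : ((X₂ : ℚ_[p]) - ρ) - ((X₁' : ℚ_[p]) - ρ) * (y₂ / y₁ * (d / D₂) * r) ^ 2 = 0 := by
    have hy : (y₂ / y₁ * (d / D₂) * r) ^ 2 * (y₁ ^ 2 * (D₂ : ℚ_[p]) ^ 2) =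
        y₂ ^ 2 * (d * d) * (r : ℚ_[p]) ^ 2 := by
      field_simp
    rw [← hdd, e₁, e₂] at hy
    have hne : (D₁ : ℚ_[p]) * (D₂ : ℚ_[p]) ^ 2 * ((G.eval X₂ : ℤ_[p]) : ℚ_[p]) *
      ((G.eval X₁' : ℤ_[p]) : ℚ_[p]) ≠ 0 :=
      mul_ne_zero (mul_ne_zero (mul_ne_zero hD₁' (pow_ne_zero 2 hD₂')) hG₂) hG₁
    have h3 : ((D₁ : ℚ_[p]) * (D₂ : ℚ_[p]) ^ 2 * ((G.eval X₂ : ℤ_[p]) : ℚ_[p]) *
      ((G.eval X₁' : ℤ_[p]) : ℚ_[p])) * (((X₂ : ℚ_[p]) - ρ) - ((X₁' : ℚ_[p]) - ρ) *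
        (y₂ / y₁ * (d / D₂) * r) ^ 2) = 0 := by
      linear_combination (-((G.eval X₂ : ℤ_[p]) : ℚ_[p])) * hy -
        ((D₁ : ℚ_[p]) * (D₂ : ℚ_[p]) ^ 2 * ((X₂ : ℚ_[p]) - ρ) * ((G.eval X₂ : ℤ_[p]) : ℚ_[p])) * hr'
    exact (mul_eq_zero.mp h3).resolve_left hne
  rw [← fz_ov, hf, Polynomial.map_mul]
  refine IsCoprime.mul_dvd ?_ ?_ ?_
  · exact (cop_lin G ρ hu).map (Polynomial.mapRingHom (algebraMap ℤ_[p] ℚ_[p]))
  · rw [Polynomial.map_sub, map_X, map_C, Polynomial.dvd_iff_isRoot]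
    show eval (ρ : ℚ_[p]) _ = 0
    rw [eval_sub, eval_sub, eval_mul, eval_sub, eval_pow, hev, eval_C, eval_X, eval_C]
    exact hb2
  · have h3 := congrArg (Polynomial.map (algebraMap ℤ_[p] ℚ_[p])) hGd
    simp only [Polynomial.map_sub, Polynomial.map_mul, Polynomial.map_pow, map_X, map_C,
      Polynomial.map_add] at h3
    obtain ⟨k', hk'⟩ : ∃ k', (C (X₂ : ℚ_[p]) - X) - (C (X₁' : ℚ_[p]) - X) *
      sG.map (algebraMap ℤ_[p] ℚ_[p]) ^ 2 = G.map (algebraMap ℤ_[p] ℚ_[p]) * k' := ⟨_, h3⟩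
    rw [hq]
    refine ⟨k' - (C (X₁' : ℚ_[p]) - X) * (2 * sG.map (algebraMap ℤ_[p] ℚ_[p]) * q +
      G.map (algebraMap ℤ_[p] ℚ_[p]) * q ^ 2), ?_⟩
    rw [mul_sub, ← hk']
    ring

end base

end PIP

theorem t_PI : S_PI := by
  intro hH p _ hp n f hn hm hd hsep
  refine ⟨fun D x y h1 h2 hy h => PIP.one hn hm hd h1 h2 hy h, ?_⟩
  intro D₁ D₂ e x₁ y₁ x₂ y₂ h1 h2 hsq hD₂ hy₁ e₁ hy₂ e₂ n₁ n₂
  exact PIP.two hH hp hn hm hd hsep h1 h2 hsq hD₂ hy₁ e₁ hy₂ e₂ n₁ n₂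

end Pool.Agent.H30Q
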