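import Pool.Agent.H30Q.AsmC

/-!
# Project HQ, second part (helper30): EVERY irreducible `f` of even degree `n ≥ 6` (no condition on the Galois
group), and almost all twists

`SS W f`: the primes `q = 1` modulo `W` modulo which `f` has a zero. For a suitable `W` and every finite subset
`F` of `SS W f` the curve `y ^ 2 = D₀ (∏ F) f(x)` is everywhere locally soluble, and the relative upper density of
the `q` in `SS W f` for which the fake 2-Selmer set of `y ^ 2 = D₀ (∏ F) q f(x)` is not empty is at most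
`C ∏_{p ∈ F} wt f p`, `wt f p = (number of zeros modulo p) / 2 ^ (number of irreducible factors modulo p - 2)`.
`wt f p ≤ 1`, and its mean is `κ < 1`. So the iterated upper density of the twists by `k + 1` primes which do not
violate the Hasse principle is at most `C κ ^ k`.

Proof of the main inequality (M = ∏ F, P = F). Let `A i`, `i < r`, be as in the first part, for `P = F`, where now
only the independence modulo squares is needed, so `2 ^ r ≥ c ∏_{p ∈ P} 2 ^ (fac p - 1)` with `c > 0` independent of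
`P`. `D = D₀ M q`. At `p ∈ P` the vector `(ee_p(x - θ, A i))_i` depends only on the residue of `x` (`zer p`
possibilities) and on the class of `D` (two possibilities), so all the products over `P` are in a set `V` with
`|V| ≤ ∏ 2 zer p`. At `q`, if `x = e` modulo `q`, the vector is that of the Legendre symbols of the `A i (e)`
(QPG). By the product formula there is an `e` for which the vector of the `A i (e)` is in `V` (if the fake 2-Selmer
set is not empty). Since `A_I(θ)` is not a square in `L(ζ_W)` for `I ≠ ∅` (ramification), by Chebotarev's theorem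
the relative density of these `q` is at most `n |V| / 2 ^ r`.
-/

set_option autoImplicit false
set_option linter.all false

open Polynomial IsDedekindDomain Matrix NumberField Filter Topology
open scoped Classical

namespace Pool.Agent.H30Q

open Pool.Agent.N783.PF (HV)
open Pool.Agent.N874.PP (Ev)
open Pool.Agent.N202.M4 (hil IsSymbol)
open AsmP (sgn)

/-- The primes `q = 1` modulo `W` modulo which `f` has a zero. -/
def SS (W : ℕ) (f : ℤ[X]) : Set ℕ :=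
  {q | q.Prime ∧ q % W = 1 % W ∧ ∃ e : ℤ, (q : ℤ) ∣ f.eval e}

/-- The number of zeros of `f` modulo `q`. -/
noncomputable def zer (f : ℤ[X]) (q : ℕ) : ℕ :=
  ((Finset.range q).filter fun c => (q : ℤ) ∣ f.eval (c : ℤ)).card

/-- The number of irreducible factors of `f` modulo `q`. -/
noncomputable def fac (f : ℤ[X]) (q : ℕ) : ℕ :=
  Nat.card {g : (ZMod q)[X] // g.Monic ∧ Irreducible g ∧ g ∣ rd q f}

/-- The weight. -/
noncomputable def wt (f : ℤ[X]) (q : ℕ) : ℝ := 4 * zer f q / 2 ^ fac f q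

/-- The elements of `S` up to `x`. -/
noncomputable def upTo (S : Set ℕ) (x : ℕ) : Finset ℕ := (Finset.range (x + 1)).filter fun q => q ∈ S

/-- The mean of `g` on the elements of `S` up to `x`. -/
noncomputable def avg (S : Set ℕ) (g : ℕ → ℝ) (x : ℕ) : ℝ :=
  (∑ q ∈ upTo S x, g q) / (upTo S x).card

/-- The iterated upper means: `k` elements of `S` are added to `F`. -/
noncomputable def It (S : Set ℕ) (g : Finset ℕ → ℝ) : ℕ → Finset ℕ → ℝ
  | 0, F => g F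
  | k + 1, F => limsup (fun x => avg S (fun q => It S g k (insert q F)) x) atTop

/-- The fake 2-Selmer set of `y ^ 2 = D f(x)` is not empty. -/
def HasFake (f : ℤ[X]) (D : ℤ) : Prop := ∃ h : ℚ[X], IsCoprime h (ov ℚ f) ∧
  (∀ (p : ℕ) [Fact p.Prime], Pt ℚ_[p] f D (oq ℚ_[p] h)) ∧ Pt ℝ f D (oq ℝ h)

/-- The curve `y ^ 2 = D f(x)` is everywhere locally soluble. -/
def ELS (f : ℤ[X]) (D : ℤ) : Prop := (∀ (p : ℕ) [Fact p.Prime], Sol ℚ_[p] f D) ∧ Sol ℝ f D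

/-! ### The symbol at `q` -/

/-- Piece BLK (from GMA, GMB, HS): the form of `F = (X - ρ) G`.
Proof. In `E[X]/(F)` take the basis `e₀ = G`, `e_i = (X - ρ) X ^ (i - 1)`, `1 ≤ i ≤ n - 1`. It is orthogonal to
`e₀`: `e₀ e_i = 0` modulo `F`. The value on `(e₀, e₀)` is the top coefficient of `b G ^ 2 = b(ρ) G(ρ) G` modulo `F`,
which is `b(ρ) G(ρ)`; the value on `(e_i, e_j)` is the top coefficient of `(X - ρ) (b (X - ρ) X ^ (i + j - 2) mod G)`.
So `T (Gn n F b) Tᵀ` is the block matrix of `b(ρ) G(ρ)` and `M = Gn (n - 1) G ((X - ρ) b)`, whose Hasse invariant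
is `Hs M * (b(ρ) G(ρ), det M)` (diagonalise `M`; definition of `hasse` on `a :: l`; reindexing `Fin n`; HV). -/
def P_BLK : Prop := ∀ (E : Type) [Field E] [CharZero E], IsSymbol (hil E) →
  ∀ (n : ℕ) (G b : E[X]) (ρ : E), 2 ≤ n → G.Monic → G.natDegree = n - 1 → G.eval ρ ≠ 0 →
  IsCoprime b ((X - C ρ) * G) →
  Hs (Gn n ((X - C ρ) * G) b) = Hs (Gn (n - 1) G ((X - C ρ) * b)) *
    hil E (b.eval ρ * G.eval ρ) (Gn (n - 1) G ((X - C ρ) * b)).det

def S_BLK : Prop := S_HS → S_GMA → S_GMB → P_BLK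

/-- Piece LEG: the Hilbert symbol at an odd prime, one valuation odd, one unit; two units. -/
def S_LEG : Prop := ∀ (q : ℕ) [Fact q.Prime], q ≠ 2 → ∀ (α : ℚ_[q]) (u : ℤ_[q]), IsUnit u →
  ((∃ (k : ℤ) (v : ℤ_[q]), IsUnit v ∧ α = (q : ℚ_[q]) ^ (2 * k + 1) * v) →
    hil ℚ_[q] α (u : ℚ_[q]) = if IsSquare (PadicInt.toZMod u) then 1 else -1) ∧
  ∀ v : ℤ_[q], IsUnit v → hil ℚ_[q] (v : ℚ_[q]) (u : ℚ_[q]) = 1

/-- Piece QPG (from GMA, GMB, BLK, LEG, UNI): the symbol at `q ∥ D`, `f` separable modulo `q`, of a point `x = e`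
modulo `q`.
Proof. `f = (X - ρ) G` over `ℤ_q` (Hensel), `ρ = e` modulo `q`, `G(ρ)` a unit. `δ = C x - X` has coefficients in `ℤ_q`
(`‖x‖ ≤ 1`), `δ(ρ) = x - ρ` has odd valuation (`y ^ 2 = D (x - ρ) G(x)`, `G(x)` is a unit) and `δ` is a unit modulo `G`
(as `G(x)` is a unit); `a = A` is a unit modulo `f`. With BLK and `M_b = Gn (n - 1) G ((X - ρ) b)`, which for
`b = δ a, δ, a, 1` comes from a symmetric matrix over `ℤ_q` with unit determinant (GMA, GMB over `ℤ_q`), so that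
`Hs M_b = 1` by UNI:
`ee = (δ(ρ) a(ρ) G(ρ), det M_{δ a}) (δ(ρ) G(ρ), det M_δ) (a(ρ) G(ρ), det M_a) (G(ρ), det M_1)`; the last two are symbols
of units, so `1` (LEG). `det M_{δ a} = det M_δ * N`, `N = nm G a` a unit (GMB). So
`ee = (δ(ρ) a(ρ) G(ρ), det M_δ) (δ(ρ) a(ρ) G(ρ), N) (δ(ρ) G(ρ), det M_δ) = (δ(ρ), N)` (symbols of units are `1`), which
is the Legendre symbol of `N` modulo `q` by LEG. `N a(ρ) = nm f a` is a square (multiplicativity of the norm; e.g.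
GMB and the determinants of the block form, or `Algebra.norm` of a product of algebras), so it is the Legendre
symbol of `a(ρ)`, and `a(ρ) = A(e)` modulo `q`. -/
def P_QPG : Prop := ∀ (q : ℕ) [Fact q.Prime], q ≠ 2 → ∀ (n : ℕ) (f : ℤ[X]) (D e : ℤ) (A : ℤ[X]),
  4 ≤ n → Even n → f.Monic → f.natDegree = n → (rd q f).Separable → (q : ℤ) ∣ D →
  ¬ (q : ℤ) ^ 2 ∣ D → (q : ℤ) ∣ f.eval e → IsCoprime (rd q A) (rd q f) →
  IsSquare (nm (ov ℚ f) (ov ℚ A)) → ∀ x y : ℚ_[q], y ≠ 0 →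
  y ^ 2 = (D : ℚ_[q]) * (ov ℚ_[q] f).eval x → ‖x - (e : ℚ_[q])‖ < 1 →
  ee n (ov ℚ_[q] f) (C x - X) (ov ℚ_[q] A) = sgn A q e

def S_QPG : Prop := S_GMA → S_GMB → P_BLK → S_LEG → S_UNI → P_QPG

/-! ### The elements -/

/-- Piece KD: the number of the primes above `p` (Kummer-Dedekind; in Mathlib:
`NumberField.Ideal.primesOverSpanEquivMonicFactorsMod`, with `RingOfIntegers.exponent θ ∣ W` by `GW.ord`). -/
def S_KD : Prop := ∀ (n W : ℕ) (f : ℤ[X]) (L : Type) [Field L] [NumberField L] (θ : L), Rt n f θ →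
  GW n f θ W → ∀ p : ℕ, p.Prime → ¬ p ∣ W →
  {𝔓 : HeightOneSpectrum (𝓞 L) | (p : 𝓞 L) ∈ 𝔓.asIdeal}.Finite ∧
  {𝔓 : HeightOneSpectrum (𝓞 L) | (p : 𝓞 L) ∈ 𝔓.asIdeal}.ncard = fac f p

/-- Piece LINU (linear algebra over `F_2`). Proof. Some fibre of `Φ` has at least `|U| / |T|` elements; fix `v₀` in
it and choose a basis of the span of the `v + v₀`, `v` in the fibre, among these elements. -/
def S_LINU : Prop := ∀ (U : Type) [AddCommGroup U] [Module (ZMod 2) U] [Fintype U] (T : Type)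
  [Fintype T] (Φ : U → T), ∃ (r : ℕ) (v₀ : U) (v : Fin r → U), (∀ k, Φ (v k) = Φ v₀) ∧
    Fintype.card U ≤ Fintype.card T * 2 ^ r ∧
    ∀ I : Finset (Fin r), I.Nonempty → ∑ k ∈ I, (v k + v₀) ≠ 0

/-- The elements `A i (θ)`. -/
structure Cl2 {L : Type} [Field L] [NumberField L] (W : ℕ) (f : ℤ[X]) (θ : L) (P : Finset ℕ)
    (r : ℕ) (A : Fin r → ℤ[X]) : Prop where
  ne : ∀ i, aeval θ (A i) ≠ 0
  near : ∀ i, ∃ Y : ℤ[X], A i = 1 + C (4 * W : ℤ) * Y
  sq : ∀ i, IsSquare (Algebra.norm ℚ (aeval θ (A i)))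
  pos : ∀ i, ∀ z : ℝ, (ov ℝ f).eval z = 0 → 0 < (ov ℝ (A i)).eval z
  ev : ∀ i, ∀ 𝔓 : HeightOneSpectrum (𝓞 L), (∀ p ∈ P, (p : 𝓞 L) ∉ 𝔓.asIdeal) →
    Ev 𝔓 (aeval θ (A i))
  ind : ∀ I : Finset (Fin r), I.Nonempty → ∃ 𝔓 : HeightOneSpectrum (𝓞 L),
    (∃ p ∈ P, (p : 𝓞 L) ∈ 𝔓.asIdeal) ∧ ¬ Ev 𝔓 (∏ i ∈ I, aeval θ (A i))

/-- The conclusion of piece PGC. -/
def P_PGC : Prop := ∀ (n W : ℕ) (f : ℤ[X]) (L : Type) [Field L] [NumberField L] (θ : L), 1 ≤ n →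
  Rt n f θ → GW n f θ W → ∃ c : ℕ, 0 < c ∧ ∀ P : Finset ℕ, (∀ p ∈ P, p.Prime ∧ ¬ p ∣ W) →
  ∃ (r : ℕ) (A : Fin r → ℤ[X]), Cl2 W f θ P r A ∧
    2 ^ (∑ p ∈ P, fac f p) ≤ c * 2 ^ (r + P.card)

/-- Piece PGC (from LINU and KD; adapt `PGA.lean`).
Proof. As in PGA, but `v` is a function on the finite set `Q` of all the primes `𝔓` of `𝓞 L` above the elements of
`P`, `I_v = ∏ 𝔓 ^ (v 𝔓).val`. `U` is the space of the `v` with `∑_{𝔓 ∣ p} f(𝔓) v 𝔓 = 0` for all `p` in `P`,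
`N 𝔓 = p ^ f(𝔓)`; by KD it has at least `2 ^ (∑ (fac f p - 1))` elements (the kernel of a map
`(ZMod 2) ^ Q → (ZMod 2) ^ P`), and for `v` in `U` the norm of `I_v` is a square. `T` is the same finite set as in
PGA (`c` its cardinality). LINU gives `v₀`, `v k`; `A k` is constructed from `v k` and `v₀` as in PGA, the valuation of
`A k (θ)` at `𝔓` in `Q` has the parity of `v k 𝔓 + v₀ 𝔓`, so that of `∏_{k ∈ I} A k (θ)` at a `𝔓` with
`∑_{k ∈ I} (v k 𝔓 + v₀ 𝔓) ≠ 0` is odd. -/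
def S_PGC : Prop := S_LINU → S_KD → P_PGC

/-! ### Chebotarev's theorem -/

/-- The conclusion of piece CH2. -/
def P_CH2 : Prop := ∀ (n W : ℕ) (f : ℤ[X]) (L : Type) [Field L] [NumberField L] (θ : L), 1 ≤ n →
  Rt n f θ → GW n f θ W → ∀ (r : ℕ) (A : Fin r → ℤ[X]), (∀ i, aeval θ (A i) ≠ 0) →
  (∀ I : Finset (Fin r), I.Nonempty → ∃ 𝔓 : HeightOneSpectrum (𝓞 L), (W : 𝓞 L) ∉ 𝔓.asIdeal ∧
    ¬ Ev 𝔓 (∏ i ∈ I, aeval θ (A i))) →
  ∀ V : Finset (Fin r → ℤ), ∀ η : ℝ, 0 < η → ∀ᶠ x : ℕ in atTop,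
    (((upTo (SS W f) x).filter fun q : ℕ => ∃ e : ℤ, (q : ℤ) ∣ f.eval e ∧
      (fun i => sgn (A i) q e) ∈ V).card : ℝ) ≤
    ((n : ℝ) * V.card / 2 ^ r + η) * (upTo (SS W f) x).card

/-- Piece CH2 (compare `CHB.lean`, in particular `density`, `exists_sqrts`, and `RES.lean`).
Proof. `N` is a Galois number field with the roots `θ_j` of `f` (`j < n`), a primitive root of unity `ζ` of order `W`
and square roots `β_{ij}` of the `A i (θ_j)`. `H` = the `σ` with `σ ζ = ζ`, `H_j` = the `σ` in `H` with `σ θ_j = θ_j`,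
`v_j : H_j → {1, -1} ^ r`, `σ β_{ij} = v_j(σ)_i β_{ij}`, a homomorphism. (1) `v_j` is surjective: otherwise there is
`I ≠ ∅` with `∏_{i ∈ I} v_j(σ)_i = 1` for all `σ` in `H_j`, so `β = ∏_{i ∈ I} β_{ij}` is in `ℚ(θ_j, ζ)`. With an
isomorphism `L = ℚ(θ_j)` the square `β ^ 2 = A_I(θ)` would have even valuations at all the primes of `L(ζ)`; but the
primes `𝔓` of `L` which do not divide `W` are not ramified in `L(ζ_W)` (`X ^ W - 1` is separable modulo `𝔓`), a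
contradiction to `¬ Ev 𝔓`. (2) For `q` large with Frobenius element `σ` (`φ (σ x) = φ x ^ q`): `q = 1` modulo `W` if and
only if `σ` is in `H`; the zeros `e` of `f` modulo `q` are the `φ(θ_j)` with `σ θ_j = θ_j`; the Legendre symbol of
`A i (e)` is then `v_j(σ)_i`, because `A i (e) = φ(β_{ij}) ^ 2 ≠ 0`. (3) The number of the `σ` in `H` which are in `H_j`
with `v_j(σ) ∈ V` for some `j` is at most `∑_j |V| |H_j| / 2 ^ r ≤ (|V| / 2 ^ r) n |{σ ∈ H : σ ∈ H_j for some j}|`.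
(4) Chebotarev's theorem with natural densities (`Pool.Agent.W401.Cheb.chebotarev`) for both sets of `σ` (closed
under conjugation; `density` in `CHB.lean`). -/
def S_CH2 : Prop := P_CH2

/-- Piece MEA: the mean of the weight (Chebotarev's theorem with natural densities).
Proof. For large `q` with Frobenius element `σ` in the Galois closure of `ℚ(θ, ζ_W)`, `zer f q` is the number `k` of
the fixed points and `fac f q` the number `c` of the cycles of `σ` on the roots of `f`. So the mean converges to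
the mean of `4 k / 2 ^ c` over the `σ` with `σ ζ = ζ` and `k ≥ 1`. `4 k / 2 ^ c ≤ 1`: if `k < n` then `c ≥ k + 1` and
`2 ^ (k - 1) ≥ k`; if `k = n` then `c = n` and `2 ^ (n - 2) > n`, as `n ≥ 6`; so it is `< 1` for `σ = 1`.
(An element `q` of `SS W f` does not divide `W`.) -/
def S_MEA : Prop := ∀ (n W : ℕ) (f : ℤ[X]), 6 ≤ n → f.Monic → f.natDegree = n →
  (ov ℚ f).Separable → W ≠ 0 → (∀ p : ℕ, p.Prime → ¬ p ∣ W → (rd p f).Separable) →
  (∀ q ∈ SS W f, 0 ≤ wt f q ∧ wt f q ≤ 1) ∧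
  (∃ κ : ℝ, 0 ≤ κ ∧ κ < 1 ∧ Tendsto (avg (SS W f) (wt f)) atTop (𝓝 κ)) ∧
  ∃ c : ℝ, 0 < c ∧ ∀ᶠ x : ℕ in atTop, c * (Nat.primeCounting x : ℝ) ≤ (upTo (SS W f) x).card

/-- Piece ITR (real analysis).
Proof. Induction on `k`. `It (k + 2) F` is the upper limit of the means of `It (k + 1) (insert q F)`, which is at most
`C κ ^ k w(q) ∏_{p ∈ F} w p` for `q ∉ F` and at most `1` for the finitely many `q ∈ F`. (All values are in `[0, 1]`.) -/
def S_ITR : Prop := ∀ (S : Set ℕ) (g : Finset ℕ → ℝ) (w : ℕ → ℝ) (C κ : ℝ), S.Infinite → 0 ≤ C →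
  0 ≤ κ → (∀ F, 0 ≤ g F ∧ g F ≤ 1) → (∀ q ∈ S, 0 ≤ w q) → Tendsto (avg S w) atTop (𝓝 κ) →
  (∀ F : Finset ℕ, (∀ p ∈ F, p ∈ S) → ∀ η : ℝ, 0 < η → ∀ᶠ x : ℕ in atTop,
    (∑ q ∈ (upTo S x).filter (fun q => q ∉ F), g (insert q F)) ≤
      (C * ∏ p ∈ F, w p + η) * (upTo S x).card) →
  ∀ (k : ℕ) (F : Finset ℕ), (∀ p ∈ F, p ∈ S) → It S g (k + 1) F ≤ C * κ ^ k * ∏ p ∈ F, w p

/-! ### The main theorem -/

/-- The main theorem. -/
def S_MAIN2 : Prop := ∀ (n : ℕ) (f : ℤ[X]), 6 ≤ n → Even n → f.Monic → f.natDegree = n →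
  Irreducible (ov ℚ f) → ∀ D₀ : ℤ, D₀ ≠ 0 → ELS f D₀ → ∀ T : ℕ, T ≠ 0 →
  ∃ (W : ℕ) (C κ : ℝ), W ≠ 0 ∧ T ∣ W ∧ D₀ ∣ W ∧ 0 < C ∧ 0 ≤ κ ∧ κ < 1 ∧
    (∃ c : ℝ, 0 < c ∧ ∀ᶠ x : ℕ in atTop, c * (Nat.primeCounting x : ℝ) ≤ (upTo (SS W f) x).card) ∧
    (∀ F : Finset ℕ, (∀ p ∈ F, p ∈ SS W f) → ELS f (D₀ * ∏ p ∈ F, (p : ℤ))) ∧
    (∀ F : Finset ℕ, (∀ p ∈ F, p ∈ SS W f) → ∀ q : ℕ, q.Prime → q % W = 1 % W → q ∉ F →
      (ELS f (D₀ * ∏ p ∈ insert q F, (p : ℤ)) ↔ q ∈ SS W f)) ∧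
    (∀ F : Finset ℕ, (∀ p ∈ F, p ∈ SS W f) → ∀ η : ℝ, 0 < η → ∀ᶠ x : ℕ in atTop,
      (((upTo (SS W f) x).filter fun q : ℕ => q ∉ F ∧
        HasFake f (D₀ * ∏ p ∈ insert q F, (p : ℤ))).card : ℝ) ≤
      (C * ∏ p ∈ F, wt f p + η) * (upTo (SS W f) x).card) ∧
    ∀ k : ℕ, It (SS W f) (fun F => if HasFake f (D₀ * ∏ p ∈ F, (p : ℤ)) then 1 else 0) (k + 1) ∅ ≤
      C * κ ^ k

end Pool.Agent.H30Q
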