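import Pool.Agent.H30Q.AsmE

/-! # Assembly of the second part: the main inequality -/

set_option autoImplicit false
set_option linter.all false

open Polynomial IsDedekindDomain Matrix NumberField Filter Topology
open scoped Classical

namespace Pool.Agent.H30Q

open Pool.Agent.N783.PF (HV)
open Pool.Agent.N874.PP (Ev)
open Pool.Agent.N202.M4 (hil IsSymbol)

namespace AsmQ

open AsmP

lemma sq_of_res {p : ℕ} [hp : Fact p.Prime] (h2 : p ≠ 2) {m : ℤ} (h : IsSquare (m : ZMod p))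
    (h0 : (m : ZMod p) ≠ 0) : IsSquare (m : ℚ_[p]) := by
  obtain ⟨s, hs⟩ := h
  obtain ⟨s', rfl⟩ := ZMod.intCast_surjective s
  have hs0 : ((s' : ℤ) : ZMod p) ≠ 0 := by
    intro h1
    rw [h1, mul_zero] at hs
    exact h0 hs
  have hu : IsUnit ((s' : ℤ) : ℤ_[p]) := by
    rw [PIP.zm_unit, PIP.zm_int]
    exact hs0
  obtain ⟨i, hi⟩ := hu.exists_right_inv
  obtain ⟨w, hw⟩ := PIP.sq_one h2 ((m : ℤ_[p]) * i ^ 2) (by
    have h3 : PadicInt.toZMod (p := p) (((s' : ℤ) : ℤ_[p]) * i) = 1 := by rw [hi, map_one]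
    rw [map_mul, PIP.zm_int] at h3
    rw [map_mul, map_pow, PIP.zm_int, hs]
    linear_combination (((s' : ℤ) : ZMod p) * PadicInt.toZMod i + 1) * h3)
  refine ⟨((w * ((s' : ℤ) : ℤ_[p]) : ℤ_[p]) : ℚ_[p]), ?_⟩
  have h4 : (m : ℤ_[p]) = (w * (s' : ℤ_[p])) * (w * (s' : ℤ_[p])) := by
    calc (m : ℤ_[p]) = (m : ℤ_[p]) * i ^ 2 * (s' : ℤ_[p]) ^ 2 := by
          linear_combination (-(m : ℤ_[p])) * ((s' : ℤ_[p]) * i + 1) * hi
      _ = w ^ 2 * (s' : ℤ_[p]) ^ 2 := by rw [hw]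
      _ = _ := by ring
  have h5 := congrArg (fun z : ℤ_[p] => (z : ℚ_[p])) h4
  push_cast at h5 ⊢
  exact h5

lemma exists_nonres {p : ℕ} [hp : Fact p.Prime] (h2 : p ≠ 2) :
    ∃ u : ℤ, ¬ (p : ℤ) ∣ u ∧ ∀ m : ℤ, (m : ZMod p) ≠ 0 → IsSquare (m : ZMod p) ∨
      IsSquare ((u * m : ℤ) : ZMod p) := by
  obtain ⟨a, ha⟩ := FiniteField.exists_nonsquare (F := ZMod p) (by rwa [ZMod.ringChar_zmod_n])
  obtain ⟨u, rfl⟩ := ZMod.intCast_surjective a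
  have hu0 : (u : ZMod p) ≠ 0 := by
    intro h
    rw [h] at ha
    exact ha ⟨0, by simp⟩
  refine ⟨u, fun h => hu0 ((ZMod.intCast_zmod_eq_zero_iff_dvd _ _).2 h), fun m hm => ?_⟩
  by_cases h : IsSquare (m : ZMod p)
  · exact Or.inl h
  · right
    have hF : ringChar (ZMod p) ≠ 2 := by rwa [ZMod.ringChar_zmod_n]
    have h3 : quadraticChar (ZMod p) (u : ZMod p) = -1 :=
      quadraticChar_neg_one_iff_not_isSquare.2 ha
    have h4 : quadraticChar (ZMod p) (m : ZMod p) = -1 :=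
      quadraticChar_neg_one_iff_not_isSquare.2 h
    rw [Int.cast_mul, ← quadraticChar_one_iff_isSquare (mul_ne_zero hu0 hm), map_mul, h3, h4]
    norm_num

/-- the vectors at a prime `p` -/
lemma exists_vals2 (hPI : P_PI) (hEE : P_EE) (hGMB : S_GMB) {n : ℕ} {f : ℤ[X]} (hyp : Hy n f)
    {p : ℕ} [hp : Fact p.Prime] (h2 : p ≠ 2) (hsep : (rd p f).Separable) {r : ℕ}
    {A : Fin r → ℤ[X]} (hA : ∀ i, IsCoprime (ov ℚ (A i)) (ov ℚ f))
    (hsq : ∀ i, IsSquare (nm (ov ℚ f) (ov ℚ (A i)))) :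
    ∃ V : ℕ × Bool → Fin r → ℤ, ∀ (D₂ : ℤ) (x y : ℚ_[p]),
      (p : ℤ) ∣ D₂ → ¬ (p : ℤ) ^ 2 ∣ D₂ → y ≠ 0 →
      y ^ 2 = (D₂ : ℚ_[p]) * (ov ℚ_[p] f).eval x →
      ∃ c ∈ Zr p f ×ˢ (Finset.univ : Finset Bool),
        ∀ i, ee n (ov ℚ_[p] f) (C x - X) (ov ℚ_[p] (A i)) = V c i := by
  obtain ⟨u, hu, hres⟩ := exists_nonres (p := p) h2
  have hpp := Nat.prime_iff_prime_int.1 hp.out
  have e1 : ¬ (p : ℤ) ^ 2 ∣ (p : ℤ) := by
    intro h
    have h3 : p ^ 2 ∣ p := by exact_mod_cast h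
    have h4 := Nat.le_of_dvd hp.out.pos h3
    have := hp.out.one_lt
    nlinarith
  have e2 : ¬ (p : ℤ) ^ 2 ∣ (p : ℤ) * u := by
    intro h
    rw [pow_two] at h
    exact hu ((mul_dvd_mul_iff_left hpp.ne_zero).1 h)
  obtain ⟨V₁, -, hV₁⟩ := exists_vals hPI hEE hGMB hyp h2 hsep (dvd_refl (p : ℤ)) e1 hA hsq
  obtain ⟨V₂, -, hV₂⟩ := exists_vals hPI hEE hGMB hyp h2 hsep (dvd_mul_right (p : ℤ) u) e2 hA hsq
  refine ⟨fun c i => if c.2 then V₁ c.1 i else V₂ c.1 i, fun D₂ x y h1 h3 hy e => ?_⟩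
  obtain ⟨m, rfl⟩ := h1
  have hm : (m : ZMod p) ≠ 0 := by
    intro h
    rw [ZMod.intCast_zmod_eq_zero_iff_dvd] at h
    apply h3
    rw [pow_two]
    exact mul_dvd_mul_left _ h
  have hp0 : ((p : ℤ) : ℚ_[p]) ≠ 0 := by exact_mod_cast hp.out.ne_zero
  rcases hres m hm with h | h
  · obtain ⟨s, hs⟩ := sq_of_res h2 h hm
    obtain ⟨c, hc1, hc2, hc3⟩ := hV₁ (p * m) x y (dvd_mul_right _ _) h3
      ⟨(p : ℚ_[p]) * s, by push_cast; rw [hs]; ring⟩ hy e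
    refine ⟨(c, true), Finset.mem_product.2 ⟨Finset.mem_filter.2 ⟨Finset.mem_range.2 hc1, hc2⟩,
      Finset.mem_univ _⟩, fun i => ?_⟩
    rw [hc3 i]
    simp
  · have hum : ((u * m : ℤ) : ZMod p) ≠ 0 := by
      rw [Int.cast_mul]
      exact mul_ne_zero (fun h4 => hu ((ZMod.intCast_zmod_eq_zero_iff_dvd _ _).1 h4)) hm
    obtain ⟨s, hs⟩ := sq_of_res h2 h hum
    obtain ⟨c, hc1, hc2, hc3⟩ := hV₂ (p * m) x y (dvd_mul_right _ _) h3
      ⟨(p : ℚ_[p]) * s, by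
        have : (((p : ℤ) * u * (p * m) : ℤ) : ℚ_[p]) = (p : ℚ_[p]) ^ 2 * ((u * m : ℤ) : ℚ_[p]) := by
          push_cast; ring
        rw [this, hs]; ring⟩ hy e
    refine ⟨(c, false), Finset.mem_product.2 ⟨Finset.mem_filter.2 ⟨Finset.mem_range.2 hc1, hc2⟩,
      Finset.mem_univ _⟩, fun i => ?_⟩
    rw [hc3 i]
    simp

/-- the set of the products of vectors -/
lemma exists_V {r : ℕ} (F : Finset ℕ) (Z : ℕ → Finset (ℕ × Bool)) (V : ℕ → ℕ × Bool → Fin r → ℤ) :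
    ∃ T : Finset (Fin r → ℤ), T.card ≤ ∏ p ∈ F, (Z p).card ∧ ∀ c : ℕ → ℕ × Bool,
      (∀ p ∈ F, c p ∈ Z p) → (fun i => ∏ p ∈ F, V p (c p) i) ∈ T := by
  let U : Finset (F → ℕ × Bool) := Fintype.piFinset fun p : F => Z p
  refine ⟨U.image fun c => fun i => ∏ p : F, V p (c p) i, ?_, fun c hc => ?_⟩
  · refine Finset.card_image_le.trans ?_
    rw [Fintype.card_piFinset]
    exact (Finset.prod_coe_sort F fun p => (Z p).card).le
  · refine Finset.mem_image.2 ⟨fun p => c p, Fintype.mem_piFinset.2 fun p => hc p p.2, ?_⟩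
    funext i
    exact Finset.prod_coe_sort F fun p => V p (c p) i

lemma SS_W {W : ℕ} (hW : W ≠ 0) (h8 : 8 ∣ W) {q : ℕ} (hq : q.Prime)
    (h : q % W = 1 % W) : ¬ q ∣ W := by
  intro hd
  have h1 : q ≡ 1 [MOD W] := h
  have h2 : q ≡ 1 [MOD q] := h1.of_dvd hd
  have h3 : q ∣ 1 := (Nat.modEq_zero_iff_dvd.1 ((Nat.modEq_zero_iff_dvd.2 (dvd_refl q)).symm.trans h2
    |>.symm))
  exact hq.one_lt.ne' (Nat.dvd_one.1 h3)

end AsmQ

end Pool.Agent.H30Q
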