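import Pool.Agent.H30Q.Stm2

/-!
# Project HQ, third part (helper30): the number of the twists

If the fake 2-Selmer set of the twist by `D₀ (∏ F) q` is empty because the vectors of `q` are not in the set `V`
(part 2), the same holds for the twist by `D₀ (∏ F) q (∏ M)` for ALL finite sets `M` of primes `m` in `SS W f` for
which all the `A i (e)`, `f(e) = 0` modulo `m`, are squares modulo `m`. These primes have positive density, so at
least `X / (log X) ^ (1 - δ)` of the twists up to `X` violate the Hasse principle.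
-/

set_option autoImplicit false
set_option linter.all false

open Polynomial IsDedekindDomain Matrix NumberField Filter Topology
open scoped Classical

namespace Pool.Agent.H30Q

open AsmP (sgn)

/-- Piece CH3 (compare CH2.lean). Proof. The primes which split completely in the Galois closure `N` of the field
generated by the roots of `f`, a primitive root of unity of order `W` and the `√(A i (θ_j))` have density
`1 / [N : ℚ]` (`Pool.Agent.W401.Cheb.chebotarev` with `σ = 1`). -/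
def S_CH3 : Prop := ∀ (n W : ℕ) (f : ℤ[X]) (L : Type) [Field L] [NumberField L] (θ : L), 1 ≤ n →
  Rt n f θ → GW n f θ W → ∀ (r : ℕ) (A : Fin r → ℤ[X]), (∀ i, aeval θ (A i) ≠ 0) →
  ∃ c : ℝ, 0 < c ∧ ∀ᶠ x : ℕ in atTop, c * (Nat.primeCounting x : ℝ) ≤
    (((upTo (SS W f) x).filter fun q : ℕ => ∀ e : ℤ, (q : ℤ) ∣ f.eval e →
      ∀ i, sgn (A i) q e = 1).card : ℝ)

/-- The squarefree numbers up to `X` with prime factors in `S`. -/
noncomputable def sqf (S : Set ℕ) (X : ℕ) : Finset ℕ :=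
  (Finset.range (X + 1)).filter fun m : ℕ => Squarefree m ∧ ∀ p : ℕ, p.Prime → p ∣ m → p ∈ S

/-- Piece CNT: the number of the squarefree numbers composed of primes of a set of positive lower density.
Proof. Let `N(X)` be the number of the `m ≤ X`. Since `log X ≥ log m = ∑_{p ∣ m} log p`,
`N(X) log X ≥ ∑_{m' ≤ X} ∑_{p ∈ S, p ≤ X / m', p ∤ m'} log p`, and the inner sum is at least `c' X / m'` if `X / m'` is
larger than a constant `K` times `log X` (at most `log X / log 2` primes divide `m'`; `∑_{p ∈ S, p ≤ y} log p ≥ c'' y`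
for large `y` by Chebyshev's estimates: `#{p ∈ S, √y < p ≤ y} * log √y`). So `N(X) ≥ c' (X / log X) Σ`,
`Σ = ∑_{m' ≤ √X} 1 / m'`. With `y = X ^ η` Rankin's trick gives
`Σ ≥ ∏_{p ∈ S, p ≤ y} (1 + 1 / p) - X ^ (-1 / (2 log y)) ∏_{p ∈ S, p ≤ y} (1 + p ^ (1 / log y) / p) ≥ (1/2) ∏_{p ∈ S, p ≤ y} (1 + 1 / p)`
for a small constant `η` (the second product is at most a constant times the first, `X ^ (-1 / (2 log y)) = e ^ (-1 / (2 η))`),
and by partial summation `∑_{p ∈ S, p ≤ y} 1 / p ≥ c''' log log y - C`. Simpler and sufficient: for every `k` the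
squarefree products of `k` primes; or: `Σ ≥ ∑_{m'} 1 / m'` over the `m'` composed of primes `p ≤ X ^ (1 / (2 k))` with at
most `k` prime factors, `k = ⌈δ log log X⌉`, that is `≥ (1/k!) (∑ 1/p - small)^k`, with `k` a small multiple of
`log log X` this is `≥ (log X) ^ δ'`. Any proof with some `δ > 0` is welcome. -/
def S_CNT : Prop := ∀ (S : Set ℕ) (c : ℝ), (∀ p ∈ S, p.Prime) → 0 < c →
  (∀ᶠ x : ℕ in atTop, c * (Nat.primeCounting x : ℝ) ≤ ((upTo S x).card : ℝ)) →
  ∃ δ : ℝ, 0 < δ ∧ ∀ᶠ X : ℕ in atTop, (X : ℝ) / Real.log X ^ (1 - δ) ≤ ((sqf S X).card : ℝ)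

/-- The number of the twists. -/
def S_MAIN3 : Prop := ∀ (n : ℕ) (f : ℤ[X]), 6 ≤ n → Even n → f.Monic → f.natDegree = n →
  Irreducible (ov ℚ f) → ∀ D₀ : ℤ, D₀ ≠ 0 → ELS f D₀ → ∀ T : ℕ, T ≠ 0 →
  ∃ δ : ℝ, 0 < δ ∧ ∀ᶠ X : ℕ in atTop, (X : ℝ) / Real.log X ^ (1 - δ) ≤
    (((Finset.range (X + 1)).filter fun E : ℕ => 1 < E ∧ Squarefree E ∧ E % T = 1 % T ∧
      IsCoprime (E : ℤ) D₀ ∧ ELS f (D₀ * E) ∧ ¬ HasFake f (D₀ * E)).card : ℝ)

end Pool.Agent.H30Q
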