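import Pool.Agent.H30Q.Main2
import Pool.Agent.H30Q.Stm3

/-! # The number of the twists: assembly -/

set_option autoImplicit false
set_option linter.all false

open Polynomial IsDedekindDomain Matrix NumberField Filter Topology
open scoped Classical

namespace Pool.Agent.H30Q

open Pool.Agent.N783.PF (HV)
open Pool.Agent.N874.PP (Ev)
open Pool.Agent.N202.M4 (hil IsSymbol)

namespace AsmQ

open AsmP

/-- If the fake 2-Selmer set is not empty then `q` is bad. -/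
lemma bad_of_fake3 (hEE : P_EE) (hGMB : S_GMB) (hPRF : P_PRF) (hHEN : S_HEN) (hREA : S_REA)
    (hGPT : P_GPT) (hPI : P_PI) (hEVN : S_EVN) (hQPG : P_QPG)
    {n : ℕ} {f : ℤ[X]} (hyp : Hy n f) {L : Type} [Field L] [NumberField L] {θ : L}
    (hθ : Rt n f θ) {W : ℕ} (hW : GW n f θ W) {D₀ : ℤ} (hDW : D₀ ∣ (W : ℤ))
    {F : Finset ℕ} (hF : ∀ p ∈ F, p ∈ SS W f) {r : ℕ} {A : Fin r → ℤ[X]}
    (hA : Cl2 W f θ F r A) :
    ∃ T : Finset (Fin r → ℤ), T.card ≤ ∏ p ∈ F, 2 * zer f p ∧ ∃ B : ℕ, ∀ q : ℕ, q.Prime → B < q →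
      q % W = 1 % W → q ∉ F → ∀ M : Finset ℕ, (∀ m ∈ M, m ∈ SS W f ∧ B < m ∧ m ∉ insert q F ∧
        ∀ e : ℤ, (m : ℤ) ∣ f.eval e → ∀ i, sgn (A i) m e = 1) →
      HasFake f (D₀ * ∏ p ∈ insert q F ∪ M, (p : ℤ)) →
      ∃ e : ℤ, (q : ℤ) ∣ f.eval e ∧ (fun i => sgn (A i) q e) ∈ T := by
  have hn : 1 ≤ n := by have := hyp.six; omega
  have hFpr : ∀ p ∈ F, p.Prime := fun p hp => (hF p hp).1
  have hFW : ∀ p ∈ F, ¬ p ∣ W := fun p hp => SS_W hW.ne hW.eight (hFpr p hp) (hF p hp).2.1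
  have hne2 : ∀ p : ℕ, ¬ p ∣ W → p ≠ 2 := by
    rintro p hp rfl
    exact hp (dvd_trans (by norm_num) hW.eight)
  have hAc : ∀ i, IsCoprime (ov ℚ (A i)) (ov ℚ f) := fun i => cop_of hθ (hA.ne i)
  have hAsq : ∀ i, IsSquare (nm (ov ℚ f) (ov ℚ (A i))) := by
    intro i
    rw [← norm_eq hθ]
    exact hA.sq i
  have hV : ∀ p : ℕ, ∃ V : ℕ × Bool → Fin r → ℤ, p ∈ F → ∀ [Fact p.Prime],
      ∀ (D₂ : ℤ) (x y : ℚ_[p]), (p : ℤ) ∣ D₂ → ¬ (p : ℤ) ^ 2 ∣ D₂ → y ≠ 0 →
      y ^ 2 = (D₂ : ℚ_[p]) * (ov ℚ_[p] f).eval x →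
      ∃ c ∈ Zr p f ×ˢ (Finset.univ : Finset Bool),
        ∀ i, ee n (ov ℚ_[p] f) (C x - X) (ov ℚ_[p] (A i)) = V c i := by
    intro p
    by_cases hp : p ∈ F
    · haveI : Fact p.Prime := ⟨hFpr p hp⟩
      obtain ⟨V, hV⟩ := exists_vals2 hPI hEE hGMB hyp (hne2 p (hFW p hp))
        (hW.sep p (hFpr p hp) (hFW p hp)) hAc hAsq
      exact ⟨V, fun _ _ => hV⟩
    · exact ⟨fun _ _ => 1, fun h => absurd h hp⟩
  choose V hV using hV
  obtain ⟨T, hT1, hT2⟩ := exists_V F (fun p => Zr p f ×ˢ (Finset.univ : Finset Bool)) V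
  have hb : ∀ i, ∃ B : ℕ, ∀ q : ℕ, q.Prime → B < q → IsCoprime (rd q (A i)) (rd q f) :=
    fun i => cop_mod hyp.mon (hAc i)
  choose b hb using hb
  refine ⟨T, ?_, ∑ i, b i, ?_⟩
  · refine hT1.trans (Finset.prod_le_prod' fun p _ => ?_)
    rw [Finset.card_product, Finset.card_univ, Fintype.card_bool, mul_comm]
    rw [zer_eq]
  intro q hq hqB hqW hqF M hM ⟨h, hh, hpt, hptR⟩
  have hqW' : ¬ q ∣ W := SS_W hW.ne hW.eight hq hqW
  haveI hfq : Fact q.Prime := ⟨hq⟩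
  set U : Finset ℕ := insert q F ∪ M with hU
  have hUpr : ∀ p ∈ U, p.Prime := by
    intro p hp
    rcases Finset.mem_union.1 hp with hp | hp
    · rcases Finset.mem_insert.1 hp with rfl | hp
      · exact hq
      · exact hFpr p hp
    · exact (hM p hp).1.1
  have hUW : ∀ p ∈ U, ¬ p ∣ W := by
    intro p hp
    rcases Finset.mem_union.1 hp with hp | hp
    · rcases Finset.mem_insert.1 hp with rfl | hp
      · exact hqW'
      · exact hFW p hp
    · exact SS_W hW.ne hW.eight (hM p hp).1.1 (hM p hp).1.2.1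
  have hdis : Disjoint (insert q F) M := by
    rw [Finset.disjoint_left]
    intro p hp hpM
    exact (hM p hpM).2.2.1 hp
  set D : ℤ := D₀ * ∏ p ∈ U, (p : ℤ) with hD
  have hDe : D = D₀ * ((∏ p ∈ U, p : ℕ) : ℤ) := by rw [hD]; push_cast; rfl
  have hqc : ∀ i, IsCoprime (rd q (A i)) (rd q f) := by
    intro i
    refine hb i q hq ?_
    have := Finset.single_le_sum (f := b) (fun _ _ => Nat.zero_le _) (Finset.mem_univ i)
    omega
  -- the point at `q`
  obtain ⟨x, y, hy, hxy, heq⟩ := ee_pt' hEE (Pool.Agent.N446.M4.sym_ q) hyp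
    (cop_loc ℚ_[q] hh) (hpt q)
  have hvq := val_facts hDW U hUpr hUW q (Finset.mem_union_left _ (Finset.mem_insert_self _ _))
  rw [← hDe] at hvq
  obtain ⟨e, he1, he2⟩ := (hPI q (hne2 q hqW') n f hyp.even hyp.mon hyp.deg
    (hW.sep q hq hqW')).1 D x y hvq.1 hvq.2 hy hxy
  have hq1 : ∀ i, eeP q n f h (ov ℚ (A i)) = sgn (A i) q e := by
    intro i
    rw [eeP, dif_pos hq, oq_ov, heq _ (cop_locA _ (hAc i)) (sq_loc hGMB _ hyp (hAsq i))]
    exact hQPG q (hne2 q hqW') n f D e (A i) (by have := hyp.six; omega) hyp.even hyp.mon hyp.deg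
      (hW.sep q hq hqW') hvq.1 hvq.2 he1 (hqc i) (hAsq i) x y hy hxy he2
  -- the points at the primes in `M`
  have hM1 : ∀ m ∈ M, ∀ i, eeP m n f h (ov ℚ (A i)) = 1 := by
    intro m hm i
    have hmp : m.Prime := (hM m hm).1.1
    have hmW : ¬ m ∣ W := SS_W hW.ne hW.eight hmp (hM m hm).1.2.1
    haveI hfm : Fact m.Prime := ⟨hmp⟩
    obtain ⟨x, y, hy, hxy, heq⟩ := ee_pt' hEE (Pool.Agent.N446.M4.sym_ m) hyp
      (cop_loc ℚ_[m] hh) (hpt m)
    have hv := val_facts hDW U hUpr hUW m (Finset.mem_union_right _ hm)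
    rw [← hDe] at hv
    obtain ⟨e, he1, he2⟩ := (hPI m (hne2 m hmW) n f hyp.even hyp.mon hyp.deg
      (hW.sep m hmp hmW)).1 D x y hv.1 hv.2 hy hxy
    have hmc : IsCoprime (rd m (A i)) (rd m f) := by
      refine hb i m hmp ?_
      have h1 := Finset.single_le_sum (f := b) (fun _ _ => Nat.zero_le _) (Finset.mem_univ i)
      have h2 := (hM m hm).2.1
      omega
    rw [eeP, dif_pos hmp, oq_ov, heq _ (cop_locA _ (hAc i)) (sq_loc hGMB _ hyp (hAsq i))]
    rw [hQPG m (hne2 m hmW) n f D e (A i) (by have := hyp.six; omega) hyp.even hyp.mon hyp.deg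
      (hW.sep m hmp hmW) hv.1 hv.2 he1 hmc (hAsq i) x y hy hxy he2]
    exact (hM m hm).2.2.2 e he1 i
  -- the points at the primes in `F`
  have key : ∀ p : ℕ, p ∈ F → ∃ c ∈ Zr p f ×ˢ (Finset.univ : Finset Bool),
      ∀ i, eeP p n f h (ov ℚ (A i)) = V p c i := by
    intro p hp
    haveI hf : Fact p.Prime := ⟨hFpr p hp⟩
    obtain ⟨x, y, hy, hxy, hee⟩ := ee_pt' hEE (Pool.Agent.N446.M4.sym_ p) hyp
      (cop_loc ℚ_[p] hh) (hpt p)
    have hvp := val_facts hDW U hUpr hUW p (Finset.mem_union_left _ (Finset.mem_insert_of_mem hp))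
    rw [← hDe] at hvp
    obtain ⟨c, hc1, hc2⟩ := hV p hp D x y hvp.1 hvp.2 hy hxy
    refine ⟨c, hc1, fun i => ?_⟩
    rw [eeP, dif_pos hf.out, oq_ov, hee _ (cop_locA _ (hAc i)) (sq_loc hGMB _ hyp (hAsq i))]
    exact hc2 i
  choose! c hc1 hc2 using key
  refine ⟨e, he1, ?_⟩
  have hvec : (fun i => sgn (A i) q e) = fun i => ∏ p ∈ F, V p (c p) i := by
    funext i
    have hout : ∀ p : ℕ, p ∉ U → eeP p n f h (ov ℚ (A i)) = 1 := by
      intro p hp
      by_cases hpp : p.Prime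
      · haveI hf : Fact p.Prime := ⟨hpp⟩
        rw [eeP, dif_pos hpp, oq_ov]
        by_cases hpW : p ∣ W
        · obtain ⟨Y, hY⟩ := hA.near i
          exact ee_W hEE hGMB hHEN hyp hpW hY (cop_loc ℚ_[p] hh)
        · obtain ⟨x, y, hy, hxy, hee⟩ := ee_pt' hEE (Pool.Agent.N446.M4.sym_ p) hyp
            (cop_loc ℚ_[p] hh) (hpt p)
          rw [hee _ (cop_locA _ (hAc i)) (sq_loc hGMB _ hyp (hAsq i))]
          refine ee_good hEVN hGPT hGMB hyp hθ hW hpW (hA.ne i) (hAsq i) ?_ (D := D) ?_ hy hxy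
          · intro 𝔓 h𝔓
            refine hA.ev i 𝔓 fun p' hp' hmem => ?_
            have hne : p ≠ p' := by
              rintro rfl
              exact hp (Finset.mem_union_left _ (Finset.mem_insert_of_mem hp'))
            have hco : IsCoprime (p : ℤ) (p' : ℤ) :=
              Nat.isCoprime_iff_coprime.2 ((Nat.coprime_primes hpp (hFpr p' hp')).2 hne)
            obtain ⟨a, b, hab⟩ := hco
            have h1 : (1 : 𝓞 L) ∈ 𝔓.asIdeal := by
              have h2 : (1 : 𝓞 L) = (a : 𝓞 L) * (p : 𝓞 L) + (b : 𝓞 L) * (p' : 𝓞 L) := by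
                have := congrArg (Int.cast : ℤ → 𝓞 L) hab
                push_cast at this
                exact this.symm
              rw [h2]
              exact Ideal.add_mem _ (Ideal.mul_mem_left _ _ h𝔓) (Ideal.mul_mem_left _ _ hmem)
            exact 𝔓.isPrime.ne_top ((Ideal.eq_top_iff_one _).2 h1)
          · intro hd
            rw [hDe] at hd
            rcases (Nat.prime_iff_prime_int.1 hpp).dvd_or_dvd hd with h3 | h3
            · exact hpW (by exact_mod_cast h3.trans hDW)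
            · exact coprime_of_primes hUpr hpp hp (by exact_mod_cast h3)
      · rw [eeP, dif_neg hpp]
    obtain ⟨T₀, hT1, hT2⟩ := hPRF n f h (ov ℚ (A i)) hn hyp.mon hyp.deg hh (hAc i)
    have hRe : ee n (ov ℝ f) (oq ℝ h) (oq ℝ (ov ℚ (A i))) = 1 := by
      rw [oq_ov]
      exact ee_R hEE hGMB hREA hyp (hA.pos i) (cop_locA _ (hAc i)) (cop_loc ℝ hh)
    rw [hRe, one_mul] at hT2
    have h1 : ∏ p ∈ T₀, eeP p n f h (ov ℚ (A i)) = ∏ p ∈ U, eeP p n f h (ov ℚ (A i)) := by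
      have h2 : ∏ p ∈ T₀, eeP p n f h (ov ℚ (A i)) =
          ∏ p ∈ T₀ ∪ U, eeP p n f h (ov ℚ (A i)) :=
        Finset.prod_subset Finset.subset_union_left fun p _ hp => hT1 p hp
      have h3 : ∏ p ∈ U, eeP p n f h (ov ℚ (A i)) =
          ∏ p ∈ T₀ ∪ U, eeP p n f h (ov ℚ (A i)) :=
        Finset.prod_subset Finset.subset_union_right fun p _ hp => hout p hp
      rw [h2, h3]
    rw [h1, hU, Finset.prod_union hdis, Finset.prod_eq_one fun m hm => hM1 m hm i, mul_one,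
      Finset.prod_insert hqF, hq1 i, Finset.prod_congr rfl fun p hp => hc2 p hp i] at hT2
    rcases sgn_pm (A i) q e with h5 | h5
    · rw [h5, one_mul] at hT2
      rw [h5, hT2]
    · rw [h5] at hT2 ⊢
      linarith
  rw [hvec]
  exact hT2 c hc1

end AsmQ

end Pool.Agent.H30Q
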