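import Pool.Agent.H30Q.Stm

/-!
# Project HQ, piece BAD: the bad primes (helper33)
-/

set_option autoImplicit false
set_option linter.all false

open Polynomial IsDedekindDomain NumberField
open scoped Classical

namespace Pool.Agent.H30Q

namespace BADP

/-- a non-zero integer in the ideal `(F, F')` -/
theorem exists_R (F : ℤ[X]) (h : (ov ℚ F).Separable) :
    ∃ (R : ℤ) (U V : ℤ[X]), R ≠ 0 ∧ U * F + V * derivative F = C R := by
  obtain ⟨u, v, huv⟩ := h
  obtain ⟨b, hb, hbu⟩ := IsLocalization.integerNormalization_spec (nonZeroDivisors ℤ) u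
  obtain ⟨c, hc, hcv⟩ := IsLocalization.integerNormalization_spec (nonZeroDivisors ℤ) v
  set U := IsLocalization.integerNormalization (nonZeroDivisors ℤ) u
  set V := IsLocalization.integerNormalization (nonZeroDivisors ℤ) v
  refine ⟨b * c, C c * U, C b * V, mul_ne_zero (nonZeroDivisors.ne_zero hb)
    (nonZeroDivisors.ne_zero hc), ?_⟩
  apply Polynomial.map_injective (Int.castRingHom ℚ) Int.cast_injective
  have e1 : U.map (Int.castRingHom ℚ) = C (b : ℚ) * u := by
    have : U.map (Int.castRingHom ℚ) = U.map (algebraMap ℤ ℚ) := rfl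
    rw [this, hbu, zsmul_eq_mul]
    simp
  have e2 : V.map (Int.castRingHom ℚ) = C (c : ℚ) * v := by
    have : V.map (Int.castRingHom ℚ) = V.map (algebraMap ℤ ℚ) := rfl
    rw [this, hcv, zsmul_eq_mul]
    simp
  rw [Polynomial.map_add, Polynomial.map_mul, Polynomial.map_mul, Polynomial.map_mul,
    Polynomial.map_mul, e1, e2, ← Polynomial.derivative_map, map_C, map_C, map_C]
  have h3 : C (c : ℚ) * (C (b : ℚ) * u) * F.map (Int.castRingHom ℚ) +
      C (b : ℚ) * (C (c : ℚ) * v) * derivative (F.map (Int.castRingHom ℚ)) =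
      C (b : ℚ) * C (c : ℚ) *
        (u * F.map (Int.castRingHom ℚ) + v * derivative (F.map (Int.castRingHom ℚ))) := by ring
  have h4 : u * F.map (Int.castRingHom ℚ) + v * derivative (F.map (Int.castRingHom ℚ)) = 1 := huv
  simp only [Int.coe_castRingHom]
  rw [h3, h4, mul_one, ← C_mul, Int.cast_mul]

/-- the discriminant of the power basis -/
theorem exists_d {n : ℕ} {f : ℤ[X]} {L : Type} [Field L] [NumberField L] {θ : L}
    (h : Rt n f θ) : ∃ d : ℤ, d ≠ 0 ∧ ∀ x : 𝓞 L, ∃ Y : ℤ[X], (d : L) * (x : L) = aeval θ Y := by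
  have hk : IsIntegral ℤ θ := ⟨f, h.mon, by rw [← aeval_def]; exact h.root⟩
  have hmin : minpoly ℚ θ = ov ℚ f := by
    symm
    apply minpoly.eq_of_irreducible_of_monic h.irr
    · have := h.root
      rw [aeval_def] at this
      rw [aeval_def, ov, eval₂_map, ← this]
      congr 1
      exact RingHom.ext_int _ _
    · exact h.mon.map _
  have htop' : IntermediateField.adjoin ℚ {θ} = ⊤ := by
    rw [Field.primitive_element_iff_minpoly_natDegree_eq, hmin, h.rank, h.mon.natDegree_map, h.deg]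
  have htop : Algebra.adjoin ℚ {θ} = ⊤ := by
    rw [← IntermediateField.adjoin_simple_toSubalgebra_of_isAlgebraic
      (Algebra.IsAlgebraic.isAlgebraic (R := ℚ) θ), htop', IntermediateField.top_toSubalgebra]
  let B := PowerBasis.ofAdjoinEqTop (K := ℚ) (hk.tower_top : IsIntegral ℚ θ) htop
  have hgen : B.gen = θ := rfl
  have hint : IsIntegral ℤ (Algebra.discr ℚ B.basis) := by
    refine Algebra.discr_isIntegral ℚ fun i => ?_
    rw [B.basis_eq_pow, hgen]
    exact hk.pow _
  obtain ⟨d, hd⟩ := IsIntegrallyClosed.isIntegral_iff.1 hint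
  have hd' : (d : ℚ) = Algebra.discr ℚ B.basis := hd
  refine ⟨d, ?_, ?_⟩
  · rintro rfl
    exact Algebra.discr_not_zero_of_basis ℚ B.basis (by rw [← hd']; simp)
  · intro x
    have h1 := Algebra.discr_mul_isIntegral_mem_adjoin (R := ℤ) ℚ (B := B) (by rw [hgen]; exact hk)
      (z := (x : L)) x.2
    rw [hgen, Algebra.adjoin_singleton_eq_range_aeval, AlgHom.mem_range, ← hd'] at h1
    obtain ⟨g, hg⟩ := h1
    refine ⟨g, ?_⟩
    rw [hg, Algebra.smul_def]
    simp

end BADP

open BADP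

theorem t_BAD : S_BAD := by
  intro n T f L _ _ θ hn hR hT
  obtain ⟨R, U, V, hR0, hUV⟩ := exists_R f hR.irr.separable
  obtain ⟨d, hd0, hd⟩ := exists_d hR
  set W : ℕ := T * (8 * ((16 * n ^ 2).factorial * (R.natAbs * d.natAbs))) with hW
  have hW0 : W ≠ 0 := by
    refine mul_ne_zero hT (mul_ne_zero (by norm_num) (mul_ne_zero (Nat.factorial_ne_zero _)
      (mul_ne_zero (Int.natAbs_ne_zero.2 hR0) (Int.natAbs_ne_zero.2 hd0))))
  refine ⟨W, Dvd.intro _ rfl, hW0, ?_, ?_, ?_, ?_⟩
  · exact Dvd.dvd.mul_left (Dvd.intro _ rfl) _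
  · intro p hp hpW
    by_contra hcon
    rw [not_lt] at hcon
    apply hpW
    have h1 : p ∣ (16 * n ^ 2).factorial := Nat.dvd_factorial hp.pos hcon
    exact Dvd.dvd.mul_left (Dvd.dvd.mul_left (Dvd.dvd.mul_right h1 _) _) _
  · intro p hp hpW
    haveI : Fact p.Prime := ⟨hp⟩
    have hpR : ((R : ℤ) : ZMod p) ≠ 0 := by
      intro h0
      apply hpW
      have h1 : (p : ℤ) ∣ R := (ZMod.intCast_zmod_eq_zero_iff_dvd _ p).1 h0
      have h2 : p ∣ R.natAbs := Int.natCast_dvd.1 h1
      exact Dvd.dvd.mul_left (Dvd.dvd.mul_left (Dvd.dvd.mul_left (Dvd.dvd.mul_right h2 _) _) _) _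
    have h3 := congrArg (Polynomial.map (Int.castRingHom (ZMod p))) hUV
    rw [Polynomial.map_add, Polynomial.map_mul, Polynomial.map_mul, ← Polynomial.derivative_map,
      map_C] at h3
    refine ⟨C (((R : ℤ) : ZMod p)⁻¹) * U.map (Int.castRingHom (ZMod p)),
      C (((R : ℤ) : ZMod p)⁻¹) * V.map (Int.castRingHom (ZMod p)), ?_⟩
    calc C (((R : ℤ) : ZMod p)⁻¹) * U.map (Int.castRingHom (ZMod p)) * rd p f +
          C (((R : ℤ) : ZMod p)⁻¹) * V.map (Int.castRingHom (ZMod p)) * derivative (rd p f)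
        = C (((R : ℤ) : ZMod p)⁻¹) * (U.map (Int.castRingHom (ZMod p)) * rd p f +
          V.map (Int.castRingHom (ZMod p)) * derivative (rd p f)) := by ring
      _ = C (((R : ℤ) : ZMod p)⁻¹) * C ((Int.castRingHom (ZMod p)) R) := by rw [← h3]
      _ = 1 := by
        rw [← C_mul]
        simp only [Int.coe_castRingHom]
        rw [inv_mul_cancel₀ hpR, C_1]
  · intro x
    obtain ⟨Y, hY⟩ := hd x
    have h1 : (d : ℤ) ∣ (W : ℤ) := by
      have h2 : d.natAbs ∣ W :=
        Dvd.dvd.mul_left (Dvd.dvd.mul_left (Dvd.dvd.mul_left (Dvd.dvd.mul_left dvd_rfl _) _) _) _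
      exact Int.natAbs_dvd.1 (Int.natCast_dvd_natCast.2 h2)
    obtain ⟨m, hm⟩ := h1
    refine ⟨C m * Y, ?_⟩
    rw [map_mul, ← hY, aeval_C]
    have h2 : ((W : ℕ) : L) = (d : L) * (m : L) := by
      have := congrArg (Int.cast : ℤ → L) hm
      push_cast at this
      exact this
    rw [h2]
    simp only [algebraMap_int_eq, Int.coe_castRingHom]
    ring

end Pool.Agent.H30Q
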