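import Pool.Agent.H30Q.Stm

/-!
# Project HQ (helper30), piece GMA: the Gram matrices over a commutative ring

By helper88.
-/

set_option autoImplicit false
set_option linter.all false

open Polynomial IsDedekindDomain Matrix NumberField
open scoped Classical

namespace Pool.Agent.H30Q.GMAP

variable {E : Type} [CommRing E] [Nontrivial E] {n : ℕ} {F : E[X]}

lemma mod_congr {F a b : E[X]} (hF : F.Monic) (h : F ∣ a - b) : a %ₘ F = b %ₘ F := by
  have h1 := (modByMonic_eq_zero_iff_dvd hF).2 h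
  rwa [sub_modByMonic, sub_eq_zero] at h1

lemma dvd_sub_mod (F p : E[X]) : F ∣ p - p %ₘ F := by
  rw [modByMonic_eq_sub_mul_div, sub_sub_cancel]
  exact dvd_mul_right _ _

/-- The matrix of the multiplication by `s` (row `i`: the coefficients of `s X ^ i` modulo `F`). -/
noncomputable def Ms (n : ℕ) (F s : E[X]) : Matrix (Fin n) (Fin n) E :=
  Matrix.of fun i k => ((s * X ^ (i : ℕ)) %ₘ F).coeff k

lemma expand (hF : F.Monic) (hd : F.natDegree = n) (p : E[X]) :
    p %ₘ F = ∑ k : Fin n, C ((p %ₘ F).coeff k) * X ^ (k : ℕ) := by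
  have h1 := sum_modByMonic_coeff (p := p) hF (n := n) (hd ▸ degree_le_natDegree)
  rw [← h1]
  refine Finset.sum_congr rfl fun k _ => ?_
  rw [h1, C_mul_X_pow_eq_monomial]

lemma expand_dvd (hF : F.Monic) (hd : F.natDegree = n) (s : E[X]) (i : Fin n) :
    F ∣ s * X ^ (i : ℕ) - ∑ k : Fin n, C (Ms n F s i k) * X ^ (k : ℕ) := by
  have h1 := dvd_sub_mod F (s * X ^ (i : ℕ))
  rw [expand hF hd] at h1
  exact h1

lemma coeff_sum_mod {ι : Type} (S : Finset ι) (F : E[X]) (c : ι → E) (p : ι → E[X]) (m : ℕ) :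
    ((∑ k ∈ S, C (c k) * p k) %ₘ F).coeff m = ∑ k ∈ S, c k * ((p k) %ₘ F).coeff m := by
  have h1 : (∑ k ∈ S, C (c k) * p k) %ₘ F = modByMonicHom F (∑ k ∈ S, c k • p k) := by
    simp only [smul_eq_C_mul]; rfl
  rw [h1, map_sum, finsetSum_coeff]
  refine Finset.sum_congr rfl fun k _ => ?_
  rw [map_smul, coeff_smul, smul_eq_mul]; rfl

/-- `Gn b = Ms b * Gn 1`-type formula. -/
lemma Gn_mul (hF : F.Monic) (hd : F.natDegree = n) (b s : E[X]) :
    Gn n F (b * s) = Ms n F s * Gn n F b := by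
  ext i j
  rw [Matrix.mul_apply]
  unfold Gn
  simp only [Matrix.of_apply]
  have h1 : F ∣ b * s * X ^ ((i : ℕ) + j) -
      ∑ k : Fin n, C (Ms n F s i k) * (b * X ^ ((k : ℕ) + j)) := by
    have h2 : b * s * X ^ ((i : ℕ) + j) - ∑ k : Fin n, C (Ms n F s i k) * (b * X ^ ((k : ℕ) + j))
        = (s * X ^ (i : ℕ) - ∑ k : Fin n, C (Ms n F s i k) * X ^ (k : ℕ)) * (b * X ^ (j : ℕ)) := by
      rw [sub_mul, Finset.sum_mul]
      congr 1
      · rw [pow_add]; ring
      · refine Finset.sum_congr rfl fun k _ => ?_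
        rw [pow_add]; ring
    rw [h2]
    exact (expand_dvd hF hd s i).mul_right _
  rw [mod_congr hF h1, coeff_sum_mod]

lemma Gn_symm (n : ℕ) (F b : E[X]) : (Gn n F b).IsSymm := by
  ext i j
  rw [Matrix.transpose_apply]
  unfold Gn
  rw [Matrix.of_apply, Matrix.of_apply, add_comm]

lemma Gn_congr (hF : F.Monic) {b b' : E[X]} (h : F ∣ b - b') : Gn n F b = Gn n F b' := by
  ext i j
  unfold Gn
  rw [Matrix.of_apply, Matrix.of_apply, mod_congr hF (b := b' * X ^ ((i : ℕ) + j))]
  rw [← sub_mul]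
  exact h.mul_right _

lemma Gn_smul (c : E) (b : E[X]) : Gn n F (C c * b) = c • Gn n F b := by
  ext i j
  unfold Gn
  rw [Matrix.of_apply, Matrix.smul_apply, Matrix.of_apply, mul_assoc, ← smul_eq_C_mul,
    smul_modByMonic, coeff_smul]

lemma Ms_one (hF : F.Monic) (hd : F.natDegree = n) : Ms n F (1 : E[X]) = 1 := by
  ext i k
  unfold Ms
  rw [Matrix.of_apply, one_mul, (modByMonic_eq_self_iff hF).2, coeff_X_pow, Matrix.one_apply]
  · by_cases h : i = k
    · subst h; simp
    · rw [if_neg h, if_neg]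
      intro h2; exact h (Fin.ext h2.symm)
  · rw [degree_X_pow, degree_eq_natDegree hF.ne_zero, hd]
    exact_mod_cast i.2

lemma Ms_mul (hF : F.Monic) (hd : F.natDegree = n) (s s' : E[X]) :
    Ms n F (s' * s) = Ms n F s * Ms n F s' := by
  ext i j
  rw [Matrix.mul_apply]
  have h1 : F ∣ s' * s * X ^ (i : ℕ) -
      ∑ k : Fin n, C (Ms n F s i k) * (s' * X ^ (k : ℕ)) := by
    have h2 : s' * s * X ^ (i : ℕ) - ∑ k : Fin n, C (Ms n F s i k) * (s' * X ^ (k : ℕ))
        = (s * X ^ (i : ℕ) - ∑ k : Fin n, C (Ms n F s i k) * X ^ (k : ℕ)) * s' := by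
      rw [sub_mul, Finset.sum_mul]
      congr 1
      · ring
      · refine Finset.sum_congr rfl fun k _ => ?_
        ring
    rw [h2]
    exact (expand_dvd hF hd s i).mul_right _
  show ((s' * s * X ^ (i : ℕ)) %ₘ F).coeff j = _
  rw [mod_congr hF h1, coeff_sum_mod]
  rfl

lemma Ms_congr (hF : F.Monic) {b b' : E[X]} (h : F ∣ b - b') : Ms n F b = Ms n F b' := by
  ext i j
  unfold Ms
  rw [Matrix.of_apply, Matrix.of_apply, mod_congr hF (b := b' * X ^ (i : ℕ))]
  rw [← sub_mul]
  exact h.mul_right _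

lemma Ms_isUnit (hF : F.Monic) (hd : F.natDegree = n) {s : E[X]} (h : IsCoprime s F) :
    IsUnit (Ms n F s).det := by
  obtain ⟨a, b, hab⟩ := h
  have h1 : Ms n F (a * s) = 1 := by
    rw [← Ms_one hF hd]
    apply Ms_congr hF
    refine ⟨-b, ?_⟩
    rw [← hab]; ring
  rw [Ms_mul hF hd] at h1
  have h2 := congrArg Matrix.det h1
  rw [Matrix.det_mul, Matrix.det_one] at h2
  exact IsUnit.of_mul_eq_one _ h2

lemma Gn_sq (hF : F.Monic) (hd : F.natDegree = n) (b s : E[X]) :
    Gn n F (b * s ^ 2) = Ms n F s * Gn n F b * (Ms n F s)ᵀ := by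
  have h1 : b * s ^ 2 = b * s * s := by ring
  rw [h1, Gn_mul hF hd (b * s) s, Matrix.mul_assoc]
  congr 1
  have h2 := congrArg Matrix.transpose (Gn_mul hF hd b s)
  rw [(Gn_symm n F (b * s)).eq, Matrix.transpose_mul, (Gn_symm n F b).eq] at h2
  exact h2

lemma Gn_one_det (h1 : 1 ≤ n) (hF : F.Monic) (hd : F.natDegree = n) : (Gn n F 1).det ^ 2 = 1 := by
  have hX : ∀ m : ℕ, m < n → ((X ^ m : E[X]) %ₘ F) = X ^ m := by
    intro m hm
    rw [(modByMonic_eq_self_iff hF).2]
    rw [degree_X_pow, degree_eq_natDegree hF.ne_zero, hd]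
    exact_mod_cast hm
  have h2 : ((Gn n F 1).submatrix id (Fin.revPerm : Equiv.Perm (Fin n))).det = 1 := by
    rw [Matrix.det_of_lowerTriangular]
    · apply Finset.prod_eq_one
      intro i _
      rw [Matrix.submatrix_apply]
      unfold Gn
      rw [Matrix.of_apply, one_mul]
      have h3 : ((id i : Fin n) : ℕ) + ((Fin.revPerm i : Fin n) : ℕ) = n - 1 := by
        simp only [id, Fin.revPerm_apply, Fin.val_rev]
        have := i.2
        omega
      rw [h3, hX _ (by omega), coeff_X_pow, if_pos rfl]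
    · intro i j hij
      have hij' : (i : ℕ) < j := hij
      rw [Matrix.submatrix_apply]
      unfold Gn
      rw [Matrix.of_apply, one_mul]
      have h3 : ((id i : Fin n) : ℕ) + ((Fin.revPerm j : Fin n) : ℕ) < n - 1 := by
        simp only [id, Fin.revPerm_apply, Fin.val_rev]
        have := i.2
        have := j.2
        omega
      rw [hX _ (by omega), coeff_X_pow, if_neg (by omega)]
  rw [Matrix.det_permute'] at h2
  rcases Int.units_eq_one_or (Equiv.Perm.sign (Fin.revPerm : Equiv.Perm (Fin n))) with h | h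
  · rw [h] at h2
    simp only [Units.val_one, Int.cast_one, one_mul] at h2
    rw [h2, one_pow]
  · rw [h] at h2
    simp only [Units.val_neg, Units.val_one, Int.cast_neg, Int.cast_one, neg_mul, one_mul] at h2
    have h3 : (Gn n F 1).det = -1 := by rw [← h2, neg_neg]
    rw [h3]; ring

end Pool.Agent.H30Q.GMAP

namespace Pool.Agent.H30Q

open GMAP

theorem t_GMA : S_GMA := by
  intro E _ _ n F h1 hF hd
  refine ⟨fun b => Gn_symm n F b, fun b b' h => Gn_congr hF h, fun c b => Gn_smul c b, ?_, ?_⟩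
  · intro b s hs
    exact ⟨Ms n F s, Ms_isUnit hF hd hs, Gn_sq hF hd b s⟩
  · exact Gn_one_det h1 hF hd

end Pool.Agent.H30Q
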