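import Pool.Agent.H30Q.Stm
import Pool.Agent.N286.PF.HV

/-!
# Project HQ, piece HS: the Hasse invariant of `c M` (helper58)
-/

set_option autoImplicit false
set_option linter.all false

open Polynomial IsDedekindDomain Matrix NumberField
open scoped Classical

namespace Pool.Agent.H30Q

open Pool.Agent.N783.PF (HV)
open Pool.Agent.N202.M4 (hil IsSymbol hasse)
open Pool.Agent.N424.M4 (sq_one h_one h_sq h_prod)

namespace HSp

variable {E : Type} [Field E]

theorem mul_left {h : E → E → ℤ} (hs : IsSymbol h) {a b c : E} (ha : a ≠ 0) (hb : b ≠ 0)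
    (hc : c ≠ 0) : h (a * b) c = h a c * h b c := by
  rw [hs.symm, hs.mul c a b hc ha hb, hs.symm c a, hs.symm c b]

/-- the factor of the first entry -/
theorem map_scale {h : E → E → ℤ} (hs : IsSymbol h) {a c : E} (ha : a ≠ 0) (hc : c ≠ 0)
    (l : List E) (hl : ∀ x ∈ l, x ≠ 0) :
    (l.map fun x => h (c * a) (c * x)).prod =
      (l.map (h a)).prod * h c l.prod * h c c ^ l.length * h c a ^ l.length := by
  induction l with
  | nil => simp [h_one hs hc]
  | cons x l ih =>
    have hx : x ≠ 0 := hl x (by simp)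
    have hl' : ∀ y ∈ l, y ≠ 0 := fun y hy => hl y (by simp [hy])
    have hp : l.prod ≠ 0 := by
      intro h0
      rw [List.prod_eq_zero_iff] at h0
      exact hl' 0 h0 rfl
    rw [List.map_cons, List.prod_cons, ih hl', List.map_cons, List.prod_cons, List.prod_cons,
      List.length_cons, hs.mul (c * a) c x (mul_ne_zero hc ha) hc hx, mul_left hs hc ha hc,
      mul_left hs hc ha hx, hs.mul c x l.prod hc hx hp, hs.symm a c]
    ring

theorem hasse_smul {h : E → E → ℤ} (hs : IsSymbol h) {c : E} (hc : c ≠ 0) (l : List E)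
    (hl : ∀ x ∈ l, x ≠ 0) :
    hasse h (l.map fun x => c * x) =
      hasse h l * h c l.prod ^ (l.length - 1) * h c c ^ (l.length * (l.length - 1) / 2) := by
  induction l with
  | nil => simp [hasse]
  | cons a l ih =>
    have ha : a ≠ 0 := hl a (by simp)
    have hl' : ∀ y ∈ l, y ≠ 0 := fun y hy => hl y (by simp [hy])
    have hp : l.prod ≠ 0 := by
      intro h0
      rw [List.prod_eq_zero_iff] at h0
      exact hl' 0 h0 rfl
    rw [List.map_cons, hasse, hasse, ih hl', List.map_map]
    have e1 : (l.map (h (c * a) ∘ fun x => c * x)).prod =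
        (l.map fun x => h (c * a) (c * x)).prod := rfl
    rw [e1, map_scale hs ha hc l hl', List.length_cons, Nat.add_sub_cancel, List.prod_cons,
      hs.mul c a l.prod hc ha hp]
    have e2 : (l.length + 1) * l.length / 2 = l.length + l.length * (l.length - 1) / 2 := by
      rcases Nat.eq_zero_or_pos l.length with h0 | h0
      · rw [h0]
      · obtain ⟨m, hm⟩ := Nat.exists_eq_add_of_le' h0
        rw [hm, Nat.add_sub_cancel]
        have : (m + 1 + 1) * (m + 1) = (m + 1) * m + 2 * (m + 1) := by ring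
        rw [this, Nat.add_mul_div_left _ _ (by norm_num)]
        ring
    have e3 : h c l.prod * h c l.prod ^ (l.length - 1) = h c l.prod ^ l.length := by
      rcases Nat.eq_zero_or_pos l.length with h0 | h0
      · rw [List.length_eq_zero_iff.1 h0]
        simp [h_one hs hc]
      · rw [← pow_succ', Nat.sub_add_cancel h0]
    rw [e2, pow_add, mul_pow]
    calc _ = (l.map (h a)).prod * hasse h l * (h c l.prod * h c l.prod ^ (l.length - 1)) *
          h c a ^ l.length * (h c c ^ l.length * h c c ^ (l.length * (l.length - 1) / 2)) := by ring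
      _ = _ := by rw [e3]; ring

variable [CharZero E]

/-- the determinant does not depend on the decision procedure -/
theorem det_ne {R : Type} [CommRing R] {ι : Type} [Fintype ι] (i1 i2 : DecidableEq ι)
    {M : Matrix ι ι R} (h : @Matrix.det ι i1 _ R _ M ≠ 0) : @Matrix.det ι i2 _ R _ M ≠ 0 := by
  rwa [Subsingleton.elim i2 i1]

/-- a diagonal matrix does not depend on the decision procedure -/
theorem diag_eq {R : Type} [Zero R] {ι : Type} (i1 i2 : DecidableEq ι) (a : ι → R) :
    @Matrix.diagonal ι R i1 _ a = @Matrix.diagonal ι R i2 _ a := by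
  rw [Subsingleton.elim i2 i1]

theorem Hs_of (hs : IsSymbol (hil E)) {n : ℕ} {M : Matrix (Fin n) (Fin n) E} (hM : M.IsSymm)
    (hd : M.det ≠ 0) {ε : ℤ} (h : HV M ε) : Hs M = ε := by
  obtain ⟨⟨ε₀, h0, h1⟩, h2, -⟩ := Pool.Agent.N286.PF.hvg E hs (Fin n) M hM (det_ne _ _ hd)
  unfold Hs
  split_ifs with h3
  · exact h2 _ _ h3 h
  · have h4 := h2 _ _ h h1
    rw [h4]
    rcases h0 with h5 | h5
    · rw [h5] at h1
      exact absurd h1 h3
    · exact h5.symm

theorem exists_HV {n : ℕ} (M : Matrix (Fin n) (Fin n) E) (hM : M.IsSymm) (hd : M.det ≠ 0) :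
    ∃ (a : Fin n → E) (T : Matrix (Fin n) (Fin n) E), (∀ i, a i ≠ 0) ∧ T.det ≠ 0 ∧
      T * Matrix.diagonal a * Tᵀ = M ∧ HV M (hasse (hil E) (List.ofFn a)) := by
  obtain ⟨a, T, ha, hT, e⟩ := Pool.Agent.N286.PF.exists_diag M hM (det_ne _ _ hd)
  refine ⟨a, T, ha, det_ne _ _ hT, by convert e, n, Equiv.refl _, a, T, ha, ?_, rfl⟩
  rw [Equiv.coe_refl, Matrix.submatrix_id_id]
  convert e

end HSp

open HSp in
/-- **HS.** -/
theorem t_HS : S_HS := by
  intro E _ _ hs n M hM hd
  have hinv : ∀ T : Matrix (Fin n) (Fin n) E, T.det ≠ 0 → Hs (T * M * Tᵀ) = Hs M := by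
    intro T hT
    obtain ⟨a, R, ha, hR, e, hv⟩ := exists_HV M hM hd
    rw [Hs_of hs hM hd hv]
    refine Hs_of hs ?_ ?_ ?_
    · unfold Matrix.IsSymm
      rw [Matrix.transpose_mul, Matrix.transpose_mul, Matrix.transpose_transpose, hM.eq,
        Matrix.mul_assoc]
    · rw [Matrix.det_mul, Matrix.det_mul, Matrix.det_transpose]
      exact mul_ne_zero (mul_ne_zero hT hd) hT
    · exact (Pool.Agent.N286.PF.hvg E hs (Fin n) M hM (det_ne _ _ hd)).2.2 T _ (det_ne _ _ hT) hv
  refine ⟨hinv, fun c hc => ?_⟩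
  obtain ⟨a, T, ha, hT, e, hv⟩ := exists_HV M hM hd
  rw [Hs_of hs hM hd hv]
  have h1 : HV (c • M) (hasse (hil E) (List.ofFn fun i => c * a i)) := by
    refine ⟨n, Equiv.refl _, fun i => c * a i, T, fun i => mul_ne_zero hc (ha i), ?_, rfl⟩
    rw [Equiv.coe_refl, Matrix.submatrix_id_id, ← e]
    have : (Matrix.diagonal fun i => c * a i) = c • Matrix.diagonal a := by
      ext i j
      rw [Matrix.smul_apply, Matrix.diagonal_apply, Matrix.diagonal_apply, smul_eq_mul]
      split_ifs <;> simp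
    convert_to T * (Matrix.diagonal fun i => c * a i) * Tᵀ = c • (T * Matrix.diagonal a * Tᵀ)
    rw [this, Matrix.mul_smul, Matrix.smul_mul]
  have h2 : (c • M).IsSymm := by
    unfold Matrix.IsSymm
    rw [Matrix.transpose_smul, hM.eq]
  have h3 : (c • M).det ≠ 0 := by
    rw [Matrix.det_smul]
    exact mul_ne_zero (pow_ne_zero _ hc) hd
  rw [Hs_of hs h2 h3 h1]
  have h4 : (List.ofFn fun i => c * a i) = (List.ofFn a).map fun x => c * x := by
    rw [List.map_ofFn]
    rfl
  have hl : ∀ x ∈ List.ofFn a, x ≠ 0 := by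
    intro x hx
    obtain ⟨i, rfl⟩ := (List.mem_ofFn' _ _).1 hx
    exact ha i
  rw [h4, hasse_smul hs hc _ hl, List.length_ofFn]
  have h5 : M.det = (List.ofFn a).prod * T.det ^ 2 := by
    rw [← e, Matrix.det_mul, Matrix.det_mul, Matrix.det_transpose, Matrix.det_diagonal,
      List.prod_ofFn]
    ring
  have hp : (List.ofFn a).prod ≠ 0 := by
    intro h0
    rw [List.prod_eq_zero_iff] at h0
    exact hl 0 h0 rfl
  rw [h5, h_sq hs hc hp hT]

end Pool.Agent.H30Q
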