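import Pool.Agent.H30Q.Stm2
import Pool.Agent.H30Q.HS
import Pool.Agent.H30Q.GMA

/-!
# Piece BLK of project HQ, part 2: the form of `(X - ρ) G`
-/

set_option autoImplicit false
set_option linter.all false

open Polynomial IsDedekindDomain Matrix NumberField
open scoped Classical

namespace Pool.Agent.H30Q

open Pool.Agent.N783.PF (HV)
open Pool.Agent.N202.M4 (hil IsSymbol hasse)
open Pool.Agent.N424.M4 (sq_one h_one h_sq h_prod)

namespace BLKp

variable {E : Type} [Field E] {m : ℕ}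

/-- the block matrix -/
def Blk (c : E) (M : Matrix (Fin m) (Fin m) E) : Matrix (Fin (m + 1)) (Fin (m + 1)) E :=
  Matrix.of fun i j => Fin.cases (Fin.cases c (fun _ => 0) j) (fun i' => Fin.cases 0 (M i') j) i

@[simp] theorem Blk_00 (c : E) (M : Matrix (Fin m) (Fin m) E) : Blk c M 0 0 = c := rfl

@[simp] theorem Blk_0s (c : E) (M : Matrix (Fin m) (Fin m) E) (j : Fin m) :
    Blk c M 0 j.succ = 0 := rfl

@[simp] theorem Blk_s0 (c : E) (M : Matrix (Fin m) (Fin m) E) (i : Fin m) :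
    Blk c M i.succ 0 = 0 := rfl

@[simp] theorem Blk_ss (c : E) (M : Matrix (Fin m) (Fin m) E) (i j : Fin m) :
    Blk c M i.succ j.succ = M i j := rfl

theorem ext_blk {A B : Matrix (Fin (m + 1)) (Fin (m + 1)) E} (h00 : A 0 0 = B 0 0)
    (h0 : ∀ j : Fin m, A 0 j.succ = B 0 j.succ) (h1 : ∀ i : Fin m, A i.succ 0 = B i.succ 0)
    (h2 : ∀ i j : Fin m, A i.succ j.succ = B i.succ j.succ) : A = B := by
  ext i j
  refine Fin.cases ?_ (fun i' => ?_) i
  · refine Fin.cases h00 (fun j' => h0 j') j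
  · refine Fin.cases (h1 i') (fun j' => h2 i' j') j

theorem Blk_mul (c d : E) (M N : Matrix (Fin m) (Fin m) E) :
    Blk c M * Blk d N = Blk (c * d) (M * N) := by
  refine ext_blk ?_ ?_ ?_ ?_
  · rw [Matrix.mul_apply, Fin.sum_univ_succ]
    simp
  · intro j
    rw [Matrix.mul_apply, Fin.sum_univ_succ]
    simp
  · intro j
    rw [Matrix.mul_apply, Fin.sum_univ_succ]
    simp
  · intro i j
    rw [Matrix.mul_apply, Fin.sum_univ_succ]
    simp [Matrix.mul_apply]

theorem Blk_transpose (c : E) (M : Matrix (Fin m) (Fin m) E) : (Blk c M)ᵀ = Blk c Mᵀ :=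
  ext_blk rfl (fun _ => rfl) (fun _ => rfl) (fun _ _ => rfl)

theorem Blk_diagonal (c : E) (a : Fin m → E) :
    Matrix.diagonal (Fin.cons c a : Fin (m + 1) → E) = Blk c (Matrix.diagonal a) := by
  refine ext_blk ?_ ?_ ?_ ?_
  · simp
  · intro j
    rw [Matrix.diagonal_apply_ne _ (Fin.succ_ne_zero j).symm, Blk_0s]
  · intro j
    rw [Matrix.diagonal_apply_ne _ (Fin.succ_ne_zero j), Blk_s0]
  · intro i j
    rw [Blk_ss, Matrix.diagonal_apply, Matrix.diagonal_apply, Fin.cons_succ]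
    by_cases h : i = j
    · rw [if_pos h, if_pos (by rw [h])]
    · rw [if_neg h, if_neg (fun h' => h (Fin.succ_injective _ h'))]

theorem Blk_det (c : E) (M : Matrix (Fin m) (Fin m) E) : (Blk c M).det = c * M.det := by
  rw [Matrix.det_succ_row_zero, Fin.sum_univ_succ]
  have h1 : ∑ i : Fin m, (-1) ^ ((i.succ : Fin (m + 1)) : ℕ) * Blk c M 0 i.succ *
      ((Blk c M).submatrix Fin.succ i.succ.succAbove).det = 0 :=
    Finset.sum_eq_zero fun i _ => by rw [Blk_0s]; ring
  rw [h1, add_zero, Blk_00, Fin.val_zero, pow_zero, one_mul]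
  congr 2

theorem Hs_Blk [CharZero E] (hs : IsSymbol (hil E)) {c : E} (hc : c ≠ 0)
    {M : Matrix (Fin m) (Fin m) E} (hM : M.IsSymm) (hd : M.det ≠ 0) :
    Hs (Blk c M) = Hs M * hil E c M.det := by
  obtain ⟨a, T, ha, hT, e, hv⟩ := HSp.exists_HV M hM hd
  rw [HSp.Hs_of hs hM hd hv]
  have h1 : HV (Blk c M) (hasse (hil E) (List.ofFn (Fin.cons c a : Fin (m + 1) → E))) := by
    refine ⟨m + 1, Equiv.refl _, Fin.cons c a, Blk 1 T, ?_, ?_, rfl⟩
    · intro i
      refine Fin.cases ?_ (fun i' => ?_) i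
      · exact hc
      · rw [Fin.cons_succ]
        exact ha i'
    · rw [Equiv.coe_refl, Matrix.submatrix_id_id, ← e]
      convert_to Blk 1 T * Matrix.diagonal (Fin.cons c a : Fin (m + 1) → E) * (Blk 1 T)ᵀ =
        Blk c (T * Matrix.diagonal a * Tᵀ)
      rw [Blk_diagonal, Blk_transpose, Blk_mul, Blk_mul, one_mul, mul_one]
  have h2 : (Blk c M).IsSymm := by
    unfold Matrix.IsSymm
    rw [Blk_transpose, hM.eq]
  have h3 : (Blk c M).det ≠ 0 := by
    rw [Blk_det]
    exact mul_ne_zero hc hd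
  rw [HSp.Hs_of hs h2 h3 h1]
  have hl : ∀ x ∈ List.ofFn a, x ≠ 0 := by
    intro x hx
    obtain ⟨i, rfl⟩ := (List.mem_ofFn' _ _).1 hx
    exact ha i
  have h5 : M.det = (List.ofFn a).prod * T.det ^ 2 := by
    rw [← e, Matrix.det_mul, Matrix.det_mul, Matrix.det_transpose, Matrix.det_diagonal,
      List.prod_ofFn]
    ring
  have hp : (List.ofFn a).prod ≠ 0 := by
    intro h0
    rw [List.prod_eq_zero_iff] at h0
    exact hl 0 h0 rfl
  rw [h5, h_sq hs hc hp hT, List.ofFn_cons, hasse, h_prod hs hc _ hl, mul_comm]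

/-- the new basis -/
noncomputable def ev (m : ℕ) (G : E[X]) (ρ : E) (i : Fin (m + 1)) : E[X] :=
  Fin.cases (motive := fun _ => E[X]) G (fun i' : Fin m => (X - C ρ) * X ^ (i' : ℕ)) i

/-- the base change -/
noncomputable def Tm (m : ℕ) (G : E[X]) (ρ : E) : Matrix (Fin (m + 1)) (Fin (m + 1)) E :=
  Matrix.of fun i k => (ev m G ρ i).coeff k

theorem ev_deg {G : E[X]} (hG : G.natDegree = m) (ρ : E) (i : Fin (m + 1)) :
    (ev m G ρ i).natDegree < m + 1 := by
  refine Fin.cases ?_ (fun i' => ?_) i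
  · show G.natDegree < m + 1
    omega
  · show ((X - C ρ) * X ^ (i' : ℕ)).natDegree < m + 1
    rw [natDegree_mul (X_sub_C_ne_zero ρ) (pow_ne_zero _ X_ne_zero), natDegree_X_sub_C,
      natDegree_X_pow]
    have := i'.2
    omega

theorem ev_sum {G : E[X]} (hG : G.natDegree = m) (ρ : E) (i : Fin (m + 1)) :
    ev m G ρ i = ∑ k : Fin (m + 1), C (Tm m G ρ i k) * X ^ (k : ℕ) := by
  conv_lhs => rw [(ev m G ρ i).as_sum_range_C_mul_X_pow' (ev_deg hG ρ i)]
  rw [Finset.sum_range]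
  rfl

theorem TGT {G : E[X]} (hG : G.natDegree = m) (ρ : E) (F b : E[X]) (i j : Fin (m + 1)) :
    (Tm m G ρ * Gn (m + 1) F b * (Tm m G ρ)ᵀ) i j =
      ((b * ev m G ρ i * ev m G ρ j) %ₘ F).coeff m := by
  have h1 : b * ev m G ρ i * ev m G ρ j = ∑ l : Fin (m + 1), C (Tm m G ρ j l) *
      (∑ k : Fin (m + 1), C (Tm m G ρ i k) * (b * X ^ ((k : ℕ) + l))) := by
    conv_lhs => rw [ev_sum hG ρ i, ev_sum hG ρ j]
    rw [Finset.mul_sum]
    refine Finset.sum_congr rfl fun l _ => ?_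
    rw [Finset.mul_sum, Finset.sum_mul, Finset.mul_sum]
    refine Finset.sum_congr rfl fun k _ => ?_
    rw [pow_add]
    ring
  rw [h1, GMAP.coeff_sum_mod, Matrix.mul_apply]
  refine Finset.sum_congr rfl fun l _ => ?_
  rw [GMAP.coeff_sum_mod, Matrix.mul_apply, Matrix.transpose_apply, mul_comm]
  rfl

end BLKp

open BLKp in
theorem t_BLK : S_BLK := by
  intro hHS hA hB E _ _ hs n G b ρ hn hG hGd hGρ hb
  obtain ⟨m, rfl⟩ : ∃ m, n = m + 1 := ⟨n - 1, by omega⟩
  rw [Nat.add_sub_cancel] at hGd ⊢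
  have hm : 1 ≤ m := by omega
  set F := (X - C ρ) * G with hF
  have hXm : (X - C ρ : E[X]).Monic := monic_X_sub_C ρ
  have hFm : F.Monic := hXm.mul hG
  have hFd : F.natDegree = m + 1 := by
    rw [hF, hXm.natDegree_mul hG, natDegree_X_sub_C, hGd, add_comm]
  have hc : b.eval ρ * G.eval ρ ≠ 0 := by
    refine mul_ne_zero ?_ hGρ
    intro h0
    obtain ⟨u, v, huv⟩ := hb
    have h1 := congrArg (Polynomial.eval ρ) huv
    rw [hF] at h1
    simp [h0] at h1
  have hcop : IsCoprime ((X - C ρ) * b) G := by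
    refine IsCoprime.mul_left ?_ ?_
    · refine (Irreducible.coprime_iff_not_dvd (irreducible_X_sub_C ρ)).2 ?_
      rw [dvd_iff_isRoot]
      exact hGρ
    · exact hb.of_mul_right_right
  set M := Gn m G ((X - C ρ) * b) with hM
  have hMs : M.IsSymm := (hA E m G hm hG hGd).1 _
  have hMd : M.det ≠ 0 := by
    obtain ⟨b1, b2, -⟩ := hB E m G hm hG hGd
    rw [hM, b1]
    have h2 := (hA E m G hm hG hGd).2.2.2.2
    refine mul_ne_zero ((b2 _).2 hcop).ne_zero ?_
    intro h0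
    rw [h0] at h2
    simp at h2
  have hFdeg : F.degree = ((m + 1 : ℕ) : WithBot ℕ) := by
    rw [degree_eq_natDegree hFm.ne_zero, hFd]
  have key : Tm m G ρ * Gn (m + 1) F b * (Tm m G ρ)ᵀ = Blk (b.eval ρ * G.eval ρ) M := by
    have e0 : ev m G ρ 0 = G := rfl
    have es : ∀ i : Fin m, ev m G ρ i.succ = (X - C ρ) * X ^ (i : ℕ) := fun i => rfl
    refine ext_blk ?_ ?_ ?_ ?_
    · rw [TGT hGd, e0, Blk_00]
      have h1 : F ∣ b * G * G - C (b.eval ρ * G.eval ρ) * G := by
        have h2 : b * G * G - C (b.eval ρ * G.eval ρ) * G =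
            (b * G - C ((b * G).eval ρ)) * G := by
          rw [eval_mul]; ring
        rw [h2, hF]
        exact mul_dvd_mul_right (X_sub_C_dvd_sub_C_eval) _
      rw [GMAP.mod_congr hFm h1, (modByMonic_eq_self_iff hFm).2, coeff_C_mul]
      · have h2 : G.coeff m = 1 := by
          rw [← hGd]
          exact hG
        rw [h2, mul_one]
      · rw [hFdeg]
        rw [degree_C_mul hc, degree_eq_natDegree hG.ne_zero, hGd]
        exact_mod_cast Nat.lt_succ_self m
    · intro j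
      rw [TGT hGd, e0, es, Blk_0s]
      have h1 : b * G * ((X - C ρ) * X ^ (j : ℕ)) = F * (b * X ^ (j : ℕ)) := by
        rw [hF]; ring
      rw [h1, (modByMonic_eq_zero_iff_dvd hFm).2 (dvd_mul_right _ _), coeff_zero]
    · intro j
      rw [TGT hGd, e0, es, Blk_s0]
      have h1 : b * ((X - C ρ) * X ^ (j : ℕ)) * G = F * (b * X ^ (j : ℕ)) := by
        rw [hF]; ring
      rw [h1, (modByMonic_eq_zero_iff_dvd hFm).2 (dvd_mul_right _ _), coeff_zero]
    · intro i j
      rw [TGT hGd, es, es, Blk_ss]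
      set r := ((X - C ρ) * b * X ^ ((i : ℕ) + j)) %ₘ G with hr
      have hrdeg : r.degree < (m : WithBot ℕ) := by
        have h1 := degree_modByMonic_lt ((X - C ρ) * b * X ^ ((i : ℕ) + j)) hG
        rwa [degree_eq_natDegree hG.ne_zero, hGd] at h1
      have h1 : F ∣ b * ((X - C ρ) * X ^ (i : ℕ)) * ((X - C ρ) * X ^ (j : ℕ)) - (X - C ρ) * r := by
        have h2 : b * ((X - C ρ) * X ^ (i : ℕ)) * ((X - C ρ) * X ^ (j : ℕ)) - (X - C ρ) * r =
            (X - C ρ) * ((X - C ρ) * b * X ^ ((i : ℕ) + j) - r) := by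
          rw [pow_add]; ring
        rw [h2, hF]
        exact mul_dvd_mul_left _ (GMAP.dvd_sub_mod G _)
      rw [GMAP.mod_congr hFm h1, (modByMonic_eq_self_iff hFm).2]
      · obtain ⟨m', rfl⟩ : ∃ m', m = m' + 1 := ⟨m - 1, by omega⟩
        have h3 : r.coeff (m' + 1) = 0 := coeff_eq_zero_of_degree_lt hrdeg
        rw [sub_mul, coeff_sub, coeff_X_mul, coeff_C_mul, h3, mul_zero, sub_zero]
        rfl
      · rw [hFdeg]
        rcases eq_or_ne r 0 with h3 | h3
        · rw [h3, mul_zero, degree_zero]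
          exact WithBot.bot_lt_coe _
        · rw [degree_mul, degree_X_sub_C]
          rw [degree_eq_natDegree h3] at hrdeg ⊢
          have h4 : r.natDegree < m := by exact_mod_cast hrdeg
          have h5 : 1 + r.natDegree < m + 1 := by omega
          exact_mod_cast h5
  have hdet : (Tm m G ρ).det * (Gn (m + 1) F b).det * (Tm m G ρ).det ≠ 0 := by
    have h1 := congrArg Matrix.det key
    rw [Matrix.det_mul, Matrix.det_mul, Matrix.det_transpose, Blk_det] at h1
    rw [h1]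
    exact mul_ne_zero hc hMd
  have hT : (Tm m G ρ).det ≠ 0 := right_ne_zero_of_mul hdet
  have hD : (Gn (m + 1) F b).det ≠ 0 := right_ne_zero_of_mul (left_ne_zero_of_mul hdet)
  have hS : (Gn (m + 1) F b).IsSymm := (hA E (m + 1) F (by omega) hFm hFd).1 _
  rw [← (hHS E hs (m + 1) (Gn (m + 1) F b) hS hD).1 (Tm m G ρ) hT, key]
  exact Hs_Blk hs hc hMs hMd

end Pool.Agent.H30Q

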