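import Pool.Agent.H30Q.RESP
import Pool.Agent.H30T.Gal

/-!
# Project HQ (helper30), piece CHB: the density version of Chebotarev's theorem for the primes of the twists
-/

set_option autoImplicit false
set_option linter.all false

open Polynomial IsDedekindDomain NumberField Filter Topology

namespace Pool.Agent.H30Q

namespace CHBP

open Pool.Agent.W401.Cheb

/-- Positive density of the primes with a given Frobenius element. -/
theorem density {N : Type} [Field N] [NumberField N] [IsGalois ℚ N] (σ : Gal(N/ℚ)) (T : ℕ → Prop)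
    (M₀ : ℕ) (hT : ∀ q, q.Prime → M₀ < q → xp N σ q ≠ 0 → T q) :
    ∃ c : ℝ, 0 < c ∧ ∀ᶠ x : ℕ in atTop,
      c * x / Real.log x ≤ ({q : ℕ | q ≤ x ∧ T q}.ncard : ℝ) := by
  classical
  obtain ⟨D, hD, htor⟩ := torsor N
  set A : ℕ := D * (M₀ + 1).factorial with hA
  have hA0 : A ≠ 0 := mul_ne_zero hD.ne' (Nat.factorial_ne_zero _)
  set n : ℕ := Nat.card Gal(N/ℚ) with hn
  have hn0 : 0 < n := Nat.card_pos
  have hle : ∀ p : ℕ, p.Prime → ¬ p ∣ A → xp N σ p ≤ n := by
    intro p hp hpA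
    have hpF : Fact p.Prime := ⟨hp⟩
    have hpD : ¬ p ∣ D := fun h => hpA (hA ▸ h.mul_right _)
    have ht := (htor p hpD).1
    have hfin : Finite (𝓞 N →+* AlgebraicClosure (ZMod p)) := by
      refine Nat.finite_of_card_ne_zero ?_
      rw [ht]
      exact hn0.ne'
    unfold xp
    rw [dif_pos hp, hn, ← ht]
    exact Nat.card_le_card_of_injective _ Subtype.val_injective
  let good : ℕ → Prop := fun p => ¬ p ∣ A ∧ xp N σ p ≠ 0
  let a : ℕ → ℝ := fun p => if p ∣ A then 0 else (xp N σ p : ℝ)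
  have ha : Tendsto (M a) atTop (𝓝 1) := by
    refine M_congr (Nat.pos_of_ne_zero hA0) (b := fun p => (xp N σ p : ℝ)) ?_
      (chebotarev N σ)
    intro p _ hpA
    simp only [a, if_neg hpA]
  have hab : ∀ p, p.Prime → a p ≤ (fun p => (n : ℝ) * (if good p then 1 else 0)) p := by
    intro p hp
    simp only [a, good]
    by_cases h1 : p ∣ A
    · rw [if_pos h1]
      split_ifs <;> simp
    · rw [if_neg h1]
      by_cases h2 : xp N σ p = 0
      · rw [h2]
        split_ifs <;> simp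
      · rw [if_pos ⟨h1, h2⟩, mul_one]
        exact_mod_cast hle p hp h1
  refine ⟨1 / (8 * n), by positivity, ?_⟩
  have h12 : ∀ᶠ N : ℕ in atTop, (1 / 2 : ℝ) < M a N := ha.eventually (lt_mem_nhds (by norm_num))
  filter_upwards [h12, eventually_ge_atTop 7] with X hX hX2
  have hpc : 0 < (Nat.primeCounting X : ℝ) := by
    have : Nat.primeCounting X ≠ 0 := by
      rw [Ne, Nat.primeCounting_eq_zero_iff]
      omega
    exact_mod_cast Nat.pos_of_ne_zero this
  have h3 : (1 / 2 : ℝ) < M (fun p => (n : ℝ) * (if good p then 1 else 0)) X :=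
    lt_of_lt_of_le hX (M_mono hab X)
  rw [M_smul] at h3
  unfold M at h3
  have h4 : (∑ p ∈ pr X, (if good p then (1 : ℝ) else 0)) = (((pr X).filter good).card : ℝ) := by
    rw [Finset.sum_ite, Finset.sum_const_zero, add_zero, Finset.sum_const, nsmul_eq_mul, mul_one]
  rw [h4] at h3
  have hn1 : (0 : ℝ) < n := by exact_mod_cast hn0
  have h5 : 1 / (2 * (n : ℝ)) * (Nat.primeCounting X : ℝ) ≤ (((pr X).filter good).card : ℝ) := by
    have h6 : (n : ℝ) * ((((pr X).filter good).card : ℝ) / (Nat.primeCounting X : ℝ)) =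
      (n * (((pr X).filter good).card : ℝ)) / (Nat.primeCounting X : ℝ) := by ring
    rw [h6, lt_div_iff₀ hpc] at h3
    rw [div_mul_eq_mul_div, one_mul, div_le_iff₀ (by positivity)]
    linarith
  have hX7 : (7 : ℝ) ≤ X := by exact_mod_cast hX2
  have hlog : 0 < Real.log X := Real.log_pos (by linarith)
  have h7 : (X : ℝ) / 4 / Real.log X ≤ (Nat.primeCounting X : ℝ) := by
    refine le_trans ?_ (Chebyshev.pi_ge X)
    refine div_le_div_of_nonneg_right ?_ hlog.le
    have e1 : Real.log ((X : ℝ) + 1) = Real.log (((X : ℝ) + 1) / 8) + Real.log 8 := by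
      rw [Real.log_div (by positivity) (by norm_num)]
      ring
    have e2 : Real.log (((X : ℝ) + 1) / 8) ≤ ((X : ℝ) + 1) / 8 - 1 :=
      Real.log_le_sub_one_of_pos (by positivity)
    have e3 : Real.log 8 = 3 * Real.log 2 := by
      rw [show (8 : ℝ) = 2 ^ 3 by norm_num, Real.log_pow]
      norm_num
    have e4 := Real.log_two_gt_d9
    have e5 := Real.log_two_lt_d9
    nlinarith
  have h8 : 1 / (8 * (n : ℝ)) * X / Real.log X ≤ 1 / (2 * (n : ℝ)) * (Nat.primeCounting X : ℝ) := by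
    have h9 := mul_le_mul_of_nonneg_left h7 (show (0 : ℝ) ≤ 1 / (2 * (n : ℝ)) by positivity)
    refine le_trans (le_of_eq ?_) h9
    field_simp
    ring
  refine h8.trans (h5.trans ?_)
  rw [← Set.ncard_coe_finset]
  refine Nat.cast_le.2 (Set.ncard_le_ncard ?_ ((Set.finite_Iic X).subset fun q hq => hq.1))
  intro q hq
  obtain ⟨hq1, hq2, hq3⟩ := Finset.mem_filter.1 (Finset.mem_coe.1 hq)
  obtain ⟨hq4, hq5⟩ := mem_pr.1 hq1
  refine ⟨hq4, hT q hq5 ?_ hq3⟩
  by_contra hle'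
  exact hq2 (hA ▸ (Nat.dvd_factorial hq5.pos (by omega)).mul_left _)

/-- Square roots of finitely many elements. -/
theorem exists_sqrts (L : Type) [Field L] [NumberField L] (r : ℕ) (α : Fin r → L) :
    ∃ (E : Type) (_ : Field E) (_ : NumberField E) (ι : L →+* E) (β : Fin r → E),
      ∀ i, β i ^ 2 = ι (α i) := by
  induction r with
  | zero => exact ⟨L, inferInstance, inferInstance, RingHom.id L, fun i => i.elim0, fun i => i.elim0⟩
  | succ r ih =>
    obtain ⟨E, _, _, ι, β, hβ⟩ := ih (fun i => α i.castSucc)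
    obtain ⟨N, iF, iN, iG, κ, ζ, γ, -, hγ, -⟩ :=
      Pool.Agent.H30T.GalP.exists_closure E (ι (α (Fin.last r))) 1 one_ne_zero 1 one_ne_zero
    refine ⟨N, iF, iN, (κ : E →+* N).comp ι, Fin.lastCases γ (fun i => κ (β i)), ?_⟩
    intro i
    induction i using Fin.lastCases with
    | last => beta_reduce; rw [Fin.lastCases_last, hγ]; rfl
    | cast i => beta_reduce; rw [Fin.lastCases_castSucc, ← map_pow, hβ]; rfl

/-- A long cycle in a subgroup which contains the commutators. -/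
theorem exists_cycle (n : ℕ) (G ι : Type) [Group G] [Fintype ι] [DecidableEq ι]
    (ρ : G →* Equiv.Perm ι) (H : Subgroup G) (i₁ : ι) (hn : 6 ≤ n) (hev : Even n)
    (hcard : Fintype.card ι = n) (hρ : Function.Surjective ρ)
    (hcom : ∀ a b : G, a * b * a⁻¹ * b⁻¹ ∈ H) :
    ∃ σ ∈ H, ρ σ i₁ = i₁ ∧ (ρ σ).IsCycle ∧ (ρ σ).support = Finset.univ.erase i₁ := by
  classical
  have hcard' : Fintype.card {x : ι // x ≠ i₁} = n - 1 := by
    rw [Fintype.card_subtype_compl, Fintype.card_subtype_eq, hcard]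
  obtain ⟨f⟩ : Nonempty (Fin (n - 1) ≃ {x : ι // x ≠ i₁}) :=
    ⟨(Fintype.equivFinOfCardEq hcard').symm⟩
  set c : Equiv.Perm ι := (finRotate (n - 1)).extendDomain f with hc
  have hcyc : (finRotate (n - 1)).IsCycle := isCycle_finRotate_of_le (by omega)
  have hc2 : c.IsCycle := hcyc.extendDomain f
  have hc3 : c.support = Finset.univ.erase i₁ := by
    rw [hc, Equiv.Perm.support_extend_domain, support_finRotate_of_le (by omega)]
    ext x
    simp only [Finset.mem_map, Finset.mem_univ, true_and, Finset.mem_erase, and_true]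
    constructor
    · rintro ⟨y, rfl⟩
      exact (f y).2
    · intro hx
      exact ⟨f.symm ⟨x, hx⟩, by simp [Equiv.asEmbedding]⟩
  have hc4 : Equiv.Perm.sign c = 1 := by
    rw [hc2.sign, hc3, Finset.card_erase_of_mem (Finset.mem_univ _),
      Finset.card_univ, hcard]
    have h1 : Odd (n - 1) := Nat.Even.sub_odd (by omega) hev odd_one
    rw [h1.neg_one_pow, neg_neg]
  have h5 : 5 ≤ Nat.card ι := by
    rw [Nat.card_eq_fintype_card, hcard]
    omega
  have h6 : c ∈ commutator (Equiv.Perm ι) := by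
    rw [alternatingGroup.commutator_perm_eq h5, Equiv.Perm.mem_alternatingGroup]
    exact hc4
  have h7 : commutator (Equiv.Perm ι) = (commutator G).map ρ := by
    rw [commutator_def, commutator_def, Subgroup.map_commutator, ← MonoidHom.range_eq_map,
      MonoidHom.range_eq_top.2 hρ]
  rw [h7] at h6
  obtain ⟨σ, hσ, hσc⟩ := h6
  have h8 : commutator G ≤ H := by
    rw [commutator_def, Subgroup.commutator_le]
    intro a _ b _
    exact hcom a b
  refine ⟨σ, h8 hσ, ?_, ?_, ?_⟩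
  · rw [hσc, hc]
    exact Equiv.Perm.extendDomain_apply_not_subtype _ _ (by simp)
  · rw [hσc]; exact hc2
  · rw [hσc]; exact hc3

end CHBP

open CHBP RESP Pool.Agent.H30T.GalP Pool.Agent.W401.Cheb in
/-- **CHB.** -/
theorem t_CHB : S_CHB := by
  classical
  intro n f hyp L _ _ θ hRt r A hA m hm
  have h6 := hyp.six
  obtain ⟨E, _, _, ι₀, β₀, hβ₀⟩ := exists_sqrts L r (fun i => aeval θ (A i))
  set p : ℚ[X] := ov ℚ f with hp
  have hinj : Function.Injective (Int.castRingHom ℚ) := Int.cast_injective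
  have hmon : p.Monic := hyp.mon.map _
  have hsep : p.Separable := hyp.sep
  have hdeg : p.natDegree = n := by
    rw [hp, natDegree_map_eq_of_injective hinj, hyp.deg]
  obtain ⟨N, iF, iN, iG, κ, ζ, γ, hζ, -, hsp⟩ := exists_closure E 1 m hm p hmon.ne_zero
  set ι : L →+* N := (κ : E →+* N).comp ι₀ with hι
  obtain ⟨ρ, hρ, hρ2⟩ := exists_action (N := N) p hsep hsp (by rw [hdeg]; exact hyp.gal)
  obtain ⟨hcard, hprod⟩ := prod_rootSet (N := N) p hmon hsep hsp
  rw [hdeg] at hcard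
  have hιf : aeval (ι θ) f = 0 := by
    have h1 : ι (aeval θ f) = aeval (ι θ) f := by
      rw [aeval_def, aeval_def, hom_eval₂]
      congr 1
      exact Subsingleton.elim _ _
    rw [← h1, hRt.root, map_zero]
  have hi : ι θ ∈ p.rootSet N := by
    rw [mem_rootSet]
    refine ⟨hmon.ne_zero, ?_⟩
    have h1 := aeval_map_algebraMap ℚ (ι θ) f
    rw [hιf] at h1
    exact h1
  have hfN : f.map (Int.castRingHom N) = ∏ s : p.rootSet N, (X - C (s : N)) := by
    rw [← hprod, hp, Polynomial.map_map]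
    congr 1
    exact RingHom.ext_int _ _
  set i₁ : p.rootSet N := ⟨ι θ, hi⟩ with hi₁
  -- the elements which fix the roots of unity
  haveI : NeZero m := ⟨hm⟩
  have hpow : ∀ a : N ≃ₐ[ℚ] N, ∃ k : ℕ, ∀ z : N, z ^ m = 1 → a z = z ^ k := by
    intro a
    have h1 : (a ζ) ^ m = 1 := by rw [← map_pow, hζ.pow_eq_one, map_one]
    obtain ⟨k, _, hk⟩ := hζ.eq_pow_of_pow_eq_one h1
    refine ⟨k, fun z hz => ?_⟩
    obtain ⟨j, _, hj⟩ := hζ.eq_pow_of_pow_eq_one hz
    rw [← hj, map_pow, ← hk, ← pow_mul, ← pow_mul, mul_comm]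
  have hcm : ∀ (a b : N ≃ₐ[ℚ] N) (z : N), z ^ m = 1 → a (b z) = b (a z) := by
    intro a b z hz
    obtain ⟨k, hk⟩ := hpow a
    obtain ⟨l, hl⟩ := hpow b
    rw [hl z hz, hk z hz, map_pow, map_pow, hk z hz, hl z hz, ← pow_mul, ← pow_mul, mul_comm]
  have hcom : ∀ a b : N ≃ₐ[ℚ] N, a * b * a⁻¹ * b⁻¹ ∈ MulAction.stabilizer (N ≃ₐ[ℚ] N) ζ := by
    intro a b
    rw [MulAction.mem_stabilizer_iff]
    show a (b (a⁻¹ (b⁻¹ ζ))) = ζ
    rw [hcm a b _ (by rw [← map_pow, ← map_pow, hζ.pow_eq_one, map_one, map_one])]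
    show b ((a * a⁻¹) (b⁻¹ ζ)) = ζ
    rw [mul_inv_cancel]
    show (b * b⁻¹) ζ = ζ
    rw [mul_inv_cancel]
    rfl
  obtain ⟨σ₀, hσ₀, k1, k2, k3⟩ := exists_cycle n (N ≃ₐ[ℚ] N) (p.rootSet N) ρ
    (MulAction.stabilizer (N ≃ₐ[ℚ] N) ζ) i₁ h6 hyp.even hcard hρ hcom
  have hσ₀ζ : σ₀ ζ = ζ := hσ₀
  have hσ₀θ : σ₀ (ι θ) = ι θ := by
    have h1 := hρ2 σ₀ i₁
    rw [k1] at h1
    exact h1.symm
  have hcs₀ : (ρ σ₀).support.card = n - 1 := by
    rw [k3, Finset.card_erase_of_mem (Finset.mem_univ _), Finset.card_univ, hcard]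
  have hord₀ : orderOf (ρ σ₀) = n - 1 := by rw [k2.orderOf, hcs₀]
  have hodd : Odd (n - 1) := Nat.Even.sub_odd (by omega) hyp.even odd_one
  -- the square
  set σ : N ≃ₐ[ℚ] N := σ₀ ^ 2 with hσ
  set c : Equiv.Perm (p.rootSet N) := ρ σ with hc
  have hc₀ : c = (ρ σ₀) ^ 2 := by rw [hc, hσ, map_pow]
  have hcc : c.IsCycle := by
    rw [hc₀, k2.pow_iff, hord₀]
    exact (Nat.coprime_two_left).2 hodd
  have hσs : c.support = Finset.univ.erase i₁ := by
    rw [hc₀, ← k3, k2.support_pow_eq_iff, hord₀]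
    intro h
    have := Nat.le_of_dvd (by norm_num) h
    omega
  have hσζ : σ ζ = ζ := by
    show σ₀ (σ₀ ζ) = ζ
    rw [hσ₀ζ, hσ₀ζ]
  have hσθ : σ (ι θ) = ι θ := by
    show σ₀ (σ₀ (ι θ)) = ι θ
    rw [hσ₀θ, hσ₀θ]
  have hv : ∀ (a : N ≃ₐ[ℚ] N) (j : ℕ) (s : p.rootSet N), (((ρ a) ^ j) s : p.rootSet N) = ((a ^ j) (s : N) : N) := by
    intro a j s
    rw [← map_pow, hρ2]
  obtain ⟨s₂, hs₂⟩ : ∃ s : p.rootSet N, s ≠ i₁ := by
    have : Nontrivial (p.rootSet N) := by
      rw [← Fintype.one_lt_card_iff_nontrivial, hcard]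
      omega
    exact exists_ne i₁
  have hsupp : s₂ ∈ c.support := by
    rw [hσs]
    exact Finset.mem_erase.2 ⟨hs₂, Finset.mem_univ _⟩
  have hcs : c.support.card = n - 1 := by
    rw [hσs, Finset.card_erase_of_mem (Finset.mem_univ _), Finset.card_univ, hcard]
  have hord : orderOf c = n - 1 := by rw [hcc.orderOf, hcs]
  have himg : (Finset.range (n - 1)).image (fun j => (c ^ j) s₂) = c.support := by
    apply Finset.Subset.antisymm
    · intro y hy
      obtain ⟨j, _, rfl⟩ := Finset.mem_image.1 hy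
      exact Equiv.Perm.pow_apply_mem_support.2 hsupp
    · intro y hy
      obtain ⟨i, hi⟩ := hcc.exists_pow_eq (Equiv.Perm.mem_support.1 hsupp) (Equiv.Perm.mem_support.1 hy)
      refine Finset.mem_image.2 ⟨i % (n - 1), Finset.mem_range.2 (Nat.mod_lt _ (by omega)), ?_⟩
      show (c ^ (i % (n - 1))) s₂ = y
      rw [← hord, pow_mod_orderOf, hi]
  have hinjOn : Set.InjOn (fun j => (c ^ j) s₂) (Finset.range (n - 1)) := by
    rw [← Finset.card_image_iff, himg, hcs, Finset.card_range]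
  have hprod2 : f.map (Int.castRingHom N) =
      (X - C (ι θ)) * ∏ j ∈ Finset.range (n - 1), (X - C ((σ ^ j) (s₂ : N))) := by
    rw [hfN, ← Finset.mul_prod_erase Finset.univ _ (Finset.mem_univ i₁), ← hσs, ← himg, Finset.prod_image hinjOn]
    congr 1
    refine Finset.prod_congr rfl fun j _ => ?_
    rw [hv]
  have hsepN : (f.map (Int.castRingHom N)).Separable := by
    have h1 : f.map (Int.castRingHom N) = (ov ℚ f).map (algebraMap ℚ N) := by
      rw [Polynomial.map_map]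
      exact congrArg (fun r => Polynomial.map r f) (Subsingleton.elim _ _)
    rw [h1]
    exact hyp.sep.map
  obtain ⟨t₁, M, ht₁, hM⟩ := main_q (n - 1) (by omega) f hyp.mon (by rw [hyp.deg]; omega) hsepN m hm σ ζ
    (ι θ) (s₂ : N) hζ hσζ hσθ hprod2
  -- the square roots
  have hβ : ∀ i, (κ (β₀ i)) ^ 2 = aeval (algebraMap (𝓞 N) N t₁) (A i) := by
    intro i
    rw [← map_pow, hβ₀, ht₁, aeval_def, aeval_def, hom_eval₂]
    show (κ : E →+* N) _ = _
    rw [hom_eval₂]
    congr 1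
    exact Subsingleton.elim _ _
  choose b hb hb2 using fun i => exists_root t₁ (κ (β₀ i)) (A i) (hβ i)
  have hσb : ∀ i, σ (κ (β₀ i)) = κ (β₀ i) := by
    intro i
    have h1 : (σ₀ (κ (β₀ i))) ^ 2 = (κ (β₀ i)) ^ 2 := by
      rw [← map_pow, hβ, ht₁]
      have h2 := aeval_algHom_apply (σ₀ : N →ₐ[ℚ] N) (ι θ) ((A i).map (Int.castRingHom ℚ))
      have h3 : ∀ z : N, aeval z ((A i).map (Int.castRingHom ℚ)) = aeval z (A i) := fun z =>
        aeval_map_algebraMap ℚ z (A i)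
      rw [h3, h3] at h2
      rw [show σ₀ (aeval (ι θ) (A i)) = (σ₀ : N →ₐ[ℚ] N) (aeval (ι θ) (A i)) from rfl, ← h2]
      show (aeval (σ₀ (ι θ))) (A i) = (aeval (ι θ)) (A i)
      rw [hσ₀θ]
    show σ₀ (σ₀ (κ (β₀ i))) = κ (β₀ i)
    rcases sq_eq_sq_iff_eq_or_eq_neg.1 h1 with h2 | h2
    · rw [h2, h2]
    · rw [h2, map_neg, h2, neg_neg]
  obtain ⟨c', hc', hev⟩ := density σ (fun q => q.Prime ∧ q % m = 1 % m ∧ ∃ (e : ℤ) (h : ℤ[X]), h.Monic ∧
      h.natDegree = n - 1 ∧ Irreducible (rd q h) ∧ rd q f = rd q ((X - C e) * h) ∧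
      ∀ i, IsSquare (((A i).eval e : ℤ) : ZMod q)) M (by
    intro q hq hqM hxp
    have : Fact q.Prime := ⟨hq⟩
    obtain ⟨φ, hφ⟩ := exists_hom σ q hxp
    obtain ⟨hmod, e, h, he, hh1, hh2, hh3, hh4⟩ := hM q φ hqM hφ
    refine ⟨hq, hmod, e, h, hh1, hh2, hh3, hh4, fun i => ?_⟩
    have h1 : φ (b i) ^ q = φ (b i) := by
      rw [← hφ]
      congr 1
      apply RingOfIntegers.coe_injective
      show σ (algebraMap (𝓞 N) N (b i)) = algebraMap (𝓞 N) N (b i)
      rw [hb, hσb]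
    obtain ⟨s, hs⟩ := W54.ChTor.frob_fixed q _ h1
    refine ⟨s, ?_⟩
    apply (algebraMap (ZMod q) (AlgebraicClosure (ZMod q))).injective
    rw [← hom_aeval t₁ (A i) q φ e he, ← hb2, map_pow, ← hs, map_mul, pow_two])
  exact ⟨c', hc', hev⟩

end Pool.Agent.H30Q
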