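import Pool.Agent.H30Q.CH2B
import Pool.Agent.H30Q.CHB

/-!
# Project HQ (helper30), piece CH2 (helper21): the density of the primes with given Legendre symbols
-/

set_option autoImplicit false
set_option linter.all false

open Polynomial IsDedekindDomain NumberField Filter Topology
open scoped Classical

namespace Pool.Agent.H30Q

namespace CH2P

open Pool.Agent.N874.PP (Ev)
open Pool.Agent.W401.Cheb

/-- `count_set` for a subgroup. -/
theorem count_sub {G : Type} [Group G] [Fintype G] (H : Subgroup G) {r : ℕ} (v : G → Fin r → ℤ)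
    (hpm : ∀ a i, v a i = 1 ∨ v a i = -1)
    (hmul : ∀ a ∈ H, ∀ b ∈ H, ∀ i, v (a * b) i = v a i * v b i)
    (hI : ∀ I : Finset (Fin r), I.Nonempty → ∃ a ∈ H, ∏ i ∈ I, v a i = -1) (V : Finset (Fin r → ℤ)) :
    2 ^ r * (Finset.univ.filter fun a => a ∈ H ∧ v a ∈ V).card ≤
      V.card * (Finset.univ.filter fun a => a ∈ H).card := by
  have h1 := count_set (H := H) (fun a => v a) (fun a i => hpm a i)
    (fun a b i => hmul a a.2 b b.2 i)
    (fun I hI' => by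
      obtain ⟨a, ha, h⟩ := hI I hI'
      exact ⟨⟨a, ha⟩, h⟩) V
  have h2 : (Finset.univ.filter fun a : H => v a ∈ V).card =
      (Finset.univ.filter fun a => a ∈ H ∧ v a ∈ V).card := by
    rw [← Finset.card_map (Function.Embedding.subtype _)]
    congr 1
    ext a
    simp only [Finset.mem_map, Finset.mem_filter, Finset.mem_univ, true_and,
      Function.Embedding.subtype_apply]
    constructor
    · rintro ⟨b, hb, rfl⟩
      exact ⟨b.2, hb⟩
    · rintro ⟨ha, hb⟩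
      exact ⟨⟨a, ha⟩, hb, rfl⟩
  have h3 : Fintype.card H = (Finset.univ.filter fun a => a ∈ H).card := by
    rw [← Fintype.card_subtype]
  rw [← h2, ← h3]
  exact h1

end CH2P

open CH2P CHBP Pool.Agent.H30T.GalP Pool.Agent.W401.Cheb Pool.Agent.N874.PP in
/-- **CH2.** -/
theorem t_CH2 : S_CH2 := by
  intro n W f L _ _ θ hn hRt hGW r A hA hI V η hη
  obtain ⟨E, _, _, ι₀, β₀, hβ₀⟩ := exists_sqrts L r (fun i => aeval θ (A i))
  set p : ℚ[X] := ov ℚ f with hp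
  have hinj : Function.Injective (Int.castRingHom ℚ) := Int.cast_injective
  have hmon : p.Monic := hRt.mon.map _
  have hirr : Irreducible p := hRt.irr
  have hsep : p.Separable := hirr.separable
  have hdeg : p.natDegree = n := by
    rw [hp, natDegree_map_eq_of_injective hinj, hRt.deg]
  obtain ⟨N, iF, iN, iG, κ, ζ, γ, hζ, -, hsp⟩ := exists_closure E 1 W hGW.ne p hmon.ne_zero
  obtain ⟨hcard, hprod⟩ := prod_rootSet (N := N) p hmon hsep hsp
  rw [hdeg] at hcard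
  set ι : L →+* N := (κ : E →+* N).comp ι₀ with hι
  have hfN : f.map (Int.castRingHom N) = ∏ s : p.rootSet N, (X - C (s : N)) := by
    rw [← hprod, hp, Polynomial.map_map]
    congr 1
    exact RingHom.ext_int _ _
  have hιA : ∀ P : ℤ[X], ι (aeval θ P) = aeval (ι θ) P := by
    intro P
    rw [aeval_def, aeval_def, hom_eval₂]
    congr 1
    exact Subsingleton.elim _ _
  have hιp : aeval (ι θ) p = 0 := by
    have h1 := aeval_map_algebraMap ℚ (ι θ) f
    rw [← hιA, hRt.root, map_zero] at h1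
    exact h1
  have hmin : minpoly ℚ (ι θ) = p := (minpoly.eq_of_irreducible_of_monic hirr hιp hmon).symm
  have hex : ∀ s : p.rootSet N, ∃ τ : N ≃ₐ[ℚ] N, τ (ι θ) = s := by
    intro s
    refine minpoly.exists_algEquiv_of_root' (Algebra.IsAlgebraic.isAlgebraic (R := ℚ) (ι θ)) ?_
    rw [hmin]
    exact (mem_rootSet.1 s.2).2
  choose τ hτ using hex
  have hτA : ∀ (σ : N ≃ₐ[ℚ] N) (z : N) (P : ℤ[X]), σ (aeval z P) = aeval (σ z) P := by
    intro σ z P
    exact (aeval_algHom_apply ((σ : N →ₐ[ℚ] N).restrictScalars ℤ) z P).symm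
  set β : p.rootSet N → Fin r → N := fun s i => τ s (κ (β₀ i)) with hβdef
  have hκ2 : ∀ i, κ (β₀ i) ^ 2 = ι (aeval θ (A i)) := by
    intro i
    rw [← map_pow, hβ₀]
    rfl
  have hβ : ∀ s i, β s i ^ 2 = aeval ((s : p.rootSet N) : N) (A i) := by
    intro s i
    rw [hβdef]
    show (τ s (κ (β₀ i))) ^ 2 = _
    rw [← map_pow, hκ2, hιA, hτA, hτ]
  have hκ0 : ∀ i, κ (β₀ i) ≠ 0 := by
    intro i h0
    have h1 := hκ2 i
    rw [h0, zero_pow two_ne_zero] at h1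
    exact hA i ((map_eq_zero ι).1 h1.symm)
  have hβ0 : ∀ s i, β s i ≠ 0 := fun s i h0 => hκ0 i ((map_eq_zero (τ s)).1 h0)
  obtain ⟨M₀, hM⟩ := frob_dict f hRt.mon (p.rootSet N) (fun s => (s : N)) Subtype.val_injective hfN W
    hGW.ne ζ hζ r A β hβ hβ0
  set v : p.rootSet N → (N ≃ₐ[ℚ] N) → Fin r → ℤ :=
    fun s σ i => if σ (β s i) = β s i then 1 else -1 with hv
  have hpm : ∀ s σ i, v s σ i = 1 ∨ v s σ i = -1 := by
    intro s σ i
    simp only [hv]
    split_ifs <;> simp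
  have hvβ : ∀ (s : p.rootSet N) (σ : N ≃ₐ[ℚ] N), σ (s : N) = s → ∀ i, σ (β s i) = ((v s σ i : ℤ) : N) * β s i := by
    intro s σ hσ i
    have h1 : (σ (β s i)) ^ 2 = (β s i) ^ 2 := by
      rw [← map_pow, hβ, hτA, hσ]
    simp only [hv]
    split_ifs with h2
    · simp [h2]
    · rw [(sq_eq_sq_iff_eq_or_eq_neg.1 h1).resolve_left h2]
      simp
  let H : p.rootSet N → Subgroup (N ≃ₐ[ℚ] N) := fun s =>
    MulAction.stabilizer (N ≃ₐ[ℚ] N) ζ ⊓ MulAction.stabilizer (N ≃ₐ[ℚ] N) (s : N)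
  have hH : ∀ (s : p.rootSet N) (σ : N ≃ₐ[ℚ] N), σ ∈ H s ↔ σ ζ = ζ ∧ σ (s : N) = s := fun s σ => Iff.rfl
  have hmul : ∀ s, ∀ a ∈ H s, ∀ b ∈ H s, ∀ i, v s (a * b) i = v s a i * v s b i := by
    intro s a ha b hb i
    have h1 := hvβ s (a * b) ((hH s _).1 ((H s).mul_mem ha hb)).2 i
    have h2 : (a * b) (β s i) = a (b (β s i)) := rfl
    rw [h2, hvβ s b ((hH s b).1 hb).2, map_mul, map_intCast, hvβ s a ((hH s a).1 ha).2, ← mul_assoc] at h1
    have h3 := mul_right_cancel₀ (hβ0 s i) h1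
    have h4 : v s b i * v s a i = v s (a * b) i := by exact_mod_cast h3
    rw [← h4, mul_comm]
  haveI : NeZero W := ⟨hGW.ne⟩
  have hI2 : ∀ s, ∀ I : Finset (Fin r), I.Nonempty → ∃ a ∈ H s, ∏ i ∈ I, v s a i = -1 := by
    intro s I hIn
    by_contra hcon
    push Not at hcon
    have h1 : ∀ a ∈ H s, ∏ i ∈ I, v s a i = 1 := by
      intro a ha
      have h2 : ∏ i ∈ I, v s a i = 1 ∨ ∏ i ∈ I, v s a i = -1 := by
        refine Finset.prod_induction _ (fun z : ℤ => z = 1 ∨ z = -1) ?_ (Or.inl rfl) fun i _ => hpm s a i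
        rintro x y (rfl | rfl) (rfl | rfl) <;> simp
      exact h2.resolve_right (hcon a ha)
    obtain ⟨𝔓, hW𝔓, hodd⟩ := hI I hIn
    apply hodd
    refine even_of_fixed ι ζ W hGW.ne hζ _ (∏ i ∈ I, κ (β₀ i)) ?_ ?_ 𝔓 hW𝔓
    · rw [← Finset.prod_pow, map_prod]
      exact Finset.prod_congr rfl fun i _ => hκ2 i
    · intro σ hσ hσζ
      have h3 : τ s * σ * (τ s)⁻¹ ∈ H s := by
        rw [hH]
        constructor
        · have h4 : ((τ s)⁻¹ ζ) ^ W = 1 := by rw [← map_pow, hζ.pow_eq_one, map_one]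
          obtain ⟨k, -, hk⟩ := hζ.eq_pow_of_pow_eq_one h4
          show τ s (σ ((τ s)⁻¹ ζ)) = ζ
          rw [← hk, map_pow, hσζ, hk]
          exact AlgEquiv.apply_symm_apply (τ s) ζ
        · show τ s (σ ((τ s)⁻¹ (s : N))) = s
          have h4 : (τ s)⁻¹ (s : N) = ι θ := by
            rw [← hτ s]
            exact AlgEquiv.symm_apply_apply (τ s) _
          rw [h4, hσ, hτ]
      have h5 : (τ s * σ * (τ s)⁻¹) (∏ i ∈ I, β s i) = ∏ i ∈ I, β s i := by
        rw [map_prod, Finset.prod_congr rfl fun i _ => hvβ s _ ((hH s _).1 h3).2 i,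
          Finset.prod_mul_distrib, ← Int.cast_prod, h1 _ h3, Int.cast_one, one_mul]
      have h6 : ∏ i ∈ I, β s i = τ s (∏ i ∈ I, κ (β₀ i)) := (map_prod (τ s) _ _).symm
      have h7 : (τ s)⁻¹ (τ s (∏ i ∈ I, κ (β₀ i))) = ∏ i ∈ I, κ (β₀ i) :=
        AlgEquiv.symm_apply_apply (τ s) _
      rw [h6] at h5
      have h8 : τ s (σ ((τ s)⁻¹ (τ s (∏ i ∈ I, κ (β₀ i))))) = τ s (∏ i ∈ I, κ (β₀ i)) := h5
      rw [h7] at h8
      exact (τ s).injective h8
  -- the sets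
  set C₁ : Finset (N ≃ₐ[ℚ] N) := Finset.univ.filter fun σ => σ ζ = ζ ∧ ∃ s : p.rootSet N, σ (s : N) = s
    with hC₁
  set C₂ : Finset (N ≃ₐ[ℚ] N) := Finset.univ.filter fun σ => σ ζ = ζ ∧
    ∃ s : p.rootSet N, σ (s : N) = s ∧ v s σ ∈ V with hC₂
  have hle : 2 ^ r * C₂.card ≤ n * (V.card * C₁.card) := by
    have h1 : C₂ ⊆ Finset.univ.biUnion fun s => Finset.univ.filter fun a => a ∈ H s ∧ v s a ∈ V := by
      intro σ hσ
      obtain ⟨-, h2, s, h3, h4⟩ := Finset.mem_filter.1 hσ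
      exact Finset.mem_biUnion.2 ⟨s, Finset.mem_univ _, Finset.mem_filter.2
        ⟨Finset.mem_univ _, (hH s σ).2 ⟨h2, h3⟩, h4⟩⟩
    have h2 : ∀ s, (Finset.univ.filter fun a => a ∈ H s) ⊆ C₁ := by
      intro s σ hσ
      obtain ⟨-, h3⟩ := Finset.mem_filter.1 hσ
      obtain ⟨h4, h5⟩ := (hH s σ).1 h3
      exact Finset.mem_filter.2 ⟨Finset.mem_univ _, h4, s, h5⟩
    calc 2 ^ r * C₂.card
        ≤ 2 ^ r * ∑ s, (Finset.univ.filter fun a => a ∈ H s ∧ v s a ∈ V).card :=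
          Nat.mul_le_mul_left _ ((Finset.card_le_card h1).trans Finset.card_biUnion_le)
      _ = ∑ s, 2 ^ r * (Finset.univ.filter fun a => a ∈ H s ∧ v s a ∈ V).card := by
          rw [Finset.mul_sum]
      _ ≤ ∑ s : p.rootSet N, V.card * C₁.card := by
          refine Finset.sum_le_sum fun s _ => ?_
          refine (count_sub (H s) (v s) (hpm s) (hmul s) (hI2 s) V).trans ?_
          exact Nat.mul_le_mul_left _ (Finset.card_le_card (h2 s))
      _ = n * (V.card * C₁.card) := by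
          rw [Finset.sum_const, Finset.card_univ, hcard, smul_eq_mul]
  have hC1pos : 0 < C₁.card := by
    rw [Finset.card_pos]
    have : Nonempty (p.rootSet N) := by
      rw [← Fintype.card_pos_iff, hcard]
      omega
    obtain ⟨s⟩ := this
    exact ⟨1, Finset.mem_filter.2 ⟨Finset.mem_univ _, rfl, s, rfl⟩⟩
  -- the densities
  have hT₁ := dens (N := N) (fun q => q ∈ SS W f) C₁ M₀ (by
    intro q _ hq φ σ hφ
    obtain ⟨k1, k2, k3⟩ := hM q hq φ σ hφ
    constructor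
    · rintro ⟨h1, h2, e, h3⟩
      obtain ⟨j, h4, -⟩ := k2 e h3
      exact Finset.mem_filter.2 ⟨Finset.mem_univ _, k1.1 h2, j, h4⟩
    · intro h
      obtain ⟨-, h2, j, h3⟩ := Finset.mem_filter.1 h
      obtain ⟨e, h4, -⟩ := k3 j h3
      exact ⟨Fact.out, k1.2 h2, e, h4⟩)
  have hT₂ := dens (N := N) (fun q => q ∈ SS W f ∧ ∃ e : ℤ, (q : ℤ) ∣ f.eval e ∧
      (fun i => AsmP.sgn (A i) q e) ∈ V) C₂ M₀ (by
    intro q _ hq φ σ hφ
    obtain ⟨k1, k2, k3⟩ := hM q hq φ σ hφ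
    constructor
    · rintro ⟨⟨h1, h2, -⟩, e, h3, h5⟩
      obtain ⟨j, h4, h6⟩ := k2 e h3
      refine Finset.mem_filter.2 ⟨Finset.mem_univ _, k1.1 h2, j, h4, ?_⟩
      rw [show v j σ = fun i => AsmP.sgn (A i) q e from funext fun i => (h6 i).symm]
      exact h5
    · intro h
      obtain ⟨-, h2, j, h3, h5⟩ := Finset.mem_filter.1 h
      obtain ⟨e, h4, h6⟩ := k3 j h3
      refine ⟨⟨Fact.out, k1.2 h2, e, h4⟩, e, h4, ?_⟩
      rw [show (fun i => AsmP.sgn (A i) q e) = v j σ from funext fun i => h6 i]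
      exact h5)
  have hG : (0 : ℝ) < Nat.card (N ≃ₐ[ℚ] N) := by exact_mod_cast Nat.card_pos
  set c : ℝ := (n : ℝ) * V.card / 2 ^ r + η with hc
  have hlim := (hT₁.const_mul c).sub hT₂
  have hpos : 0 < c * ((C₁.card : ℝ) / Nat.card (N ≃ₐ[ℚ] N)) - (C₂.card : ℝ) / Nat.card (N ≃ₐ[ℚ] N) := by
    have h1 : (2 ^ r : ℝ) * C₂.card ≤ n * (V.card * C₁.card) := by exact_mod_cast hle
    have h2 : (C₂.card : ℝ) ≤ (n : ℝ) * V.card / 2 ^ r * C₁.card := by
      rw [div_mul_eq_mul_div, le_div_iff₀ (by positivity)]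
      linarith
    have h3 : (0 : ℝ) < C₁.card := by exact_mod_cast hC1pos
    have h4 : c * ((C₁.card : ℝ) / Nat.card (N ≃ₐ[ℚ] N)) - (C₂.card : ℝ) / Nat.card (N ≃ₐ[ℚ] N) =
      (c * C₁.card - C₂.card) / Nat.card (N ≃ₐ[ℚ] N) := by ring
    rw [h4]
    refine div_pos ?_ hG
    have h5 := mul_pos hη h3
    rw [hc]
    linarith
  filter_upwards [hlim.eventually (lt_mem_nhds hpos)] with x hx
  have hs1 : ∑ q ∈ pr x, (if q ∈ SS W f then (1 : ℝ) else 0) = ((upTo (SS W f) x).card : ℝ) := by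
    rw [Finset.sum_ite, Finset.sum_const_zero, add_zero, Finset.sum_const, nsmul_eq_mul, mul_one]
    congr 2
    ext q
    simp only [upTo, Finset.mem_filter, Finset.mem_range, mem_pr]
    constructor
    · rintro ⟨⟨h1, h2⟩, h3⟩
      exact ⟨by omega, h3⟩
    · rintro ⟨h1, h3⟩
      exact ⟨⟨by omega, h3.1⟩, h3⟩
  have hs2 : ∑ q ∈ pr x, (if (q ∈ SS W f ∧ ∃ e : ℤ, (q : ℤ) ∣ f.eval e ∧
      (fun i => AsmP.sgn (A i) q e) ∈ V) then (1 : ℝ) else 0) =
      (((upTo (SS W f) x).filter fun q : ℕ => ∃ e : ℤ, (q : ℤ) ∣ f.eval e ∧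
      (fun i => AsmP.sgn (A i) q e) ∈ V).card : ℝ) := by
    rw [Finset.sum_ite, Finset.sum_const_zero, add_zero, Finset.sum_const, nsmul_eq_mul, mul_one]
    congr 2
    ext q
    simp only [upTo, Finset.mem_filter, Finset.mem_range, mem_pr]
    constructor
    · rintro ⟨⟨h1, h2⟩, h3, h4⟩
      exact ⟨⟨by omega, h3⟩, h4⟩
    · rintro ⟨⟨h1, h3⟩, h4⟩
      exact ⟨⟨by omega, h3.1⟩, h3, h4⟩
  unfold M at hx
  rw [hs1, hs2, ← mul_div_assoc, ← sub_div] at hx
  have hpc : (0 : ℝ) < Nat.primeCounting x := by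
    have h1 : (0 : ℝ) ≤ Nat.primeCounting x := Nat.cast_nonneg _
    rcases h1.lt_or_eq with h2 | h2
    · exact h2
    · rw [← h2, div_zero] at hx
      exact absurd hx (lt_irrefl _)
  have h9 := (div_pos_iff_of_pos_right hpc).1 hx
  linarith

end Pool.Agent.H30Q
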