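import Pool.Agent.H30Q.RESP
import Pool.Agent.H30T.Gal

/-!
# Project HQ (helper30), auxiliary statements for piece CH2 (helper21)
-/

set_option autoImplicit false
set_option linter.all false

open Polynomial IsDedekindDomain NumberField Filter Topology

namespace Pool.Agent.H30Q.CH2P

open Pool.Agent.N874.PP (Ev)
open Pool.Agent.W401.Cheb

/-! ### Cyclotomic extensions are unramified -/

/-- The extension by the roots of unity of order `m` is not ramified outside `m`. -/
theorem unram {F L : Type} [Field F] [NumberField F] [Field L] [NumberField L] [Algebra F L]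
    (m : ℕ) [NeZero m] [IsCyclotomicExtension {m} F L]
    (P : Ideal (𝓞 L)) [P.IsPrime] (hP : (m : 𝓞 L) ∉ P) :
    Algebra.IsUnramifiedAt (𝓞 F) P := by
  rw [← not_dvd_differentIdeal_iff]
  intro hdvd
  apply hP
  let z := IsCyclotomicExtension.zeta m F L
  have hz : IsPrimitiveRoot z m := IsCyclotomicExtension.zeta_spec m F L
  let Z : 𝓞 L := hz.toInteger
  have hZ : algebraMap (𝓞 L) L Z = z := rfl
  have htop : Algebra.adjoin F {algebraMap (𝓞 L) L Z} = ⊤ := by
    rw [hZ]
    exact IsCyclotomicExtension.adjoin_primitive_root_eq_top hz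
  have hmem := aeval_derivative_mem_differentIdeal (𝓞 F) F L Z htop
  have hin : aeval Z (derivative (minpoly (𝓞 F) Z)) ∈ P := (Ideal.dvd_iff_le.mp hdvd) hmem
  have hZm : Z ^ m = 1 := by
    apply RingOfIntegers.ext
    have := hz.pow_eq_one
    simpa [hZ] using this
  have hdiv : minpoly (𝓞 F) Z ∣ X ^ m - 1 := by
    apply minpoly.isIntegrallyClosed_dvd
    · exact Algebra.IsIntegral.isIntegral Z
    · simp [hZm]
  obtain ⟨g, hg⟩ := hdiv
  have hder : aeval Z (derivative (X ^ m - 1 : (𝓞 F)[X])) =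
      aeval Z (derivative (minpoly (𝓞 F) Z)) * aeval Z g := by
    rw [hg, derivative_mul, map_add, map_mul, map_mul, minpoly.aeval]
    ring
  have h1 : (m : 𝓞 L) * Z ^ (m - 1) ∈ P := by
    have : (m : 𝓞 L) * Z ^ (m - 1) = aeval Z (derivative (X ^ m - 1 : (𝓞 F)[X])) := by
      simp [derivative_X_pow]
    rw [this, hder]
    exact P.mul_mem_right _ hin
  have h2 : (m : 𝓞 L) = (m : 𝓞 L) * Z ^ (m - 1) * Z := by
    rw [mul_assoc, ← pow_succ, Nat.sub_add_cancel (NeZero.one_le), hZm, mul_one]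
  rw [h2]
  exact P.mul_mem_right _ h1

/-- An element of `F` which is a square in `F(ζ)` has even valuations outside `m`. -/
theorem even_of_sq {F K : Type} [Field F] [NumberField F] [Field K] [NumberField K] [Algebra F K]
    (m : ℕ) [NeZero m] [IsCyclotomicExtension {m} F K] (a : F) (b : K) (hab : b ^ 2 = algebraMap F K a)
    (𝔓 : HeightOneSpectrum (𝓞 F)) (h𝔓 : (m : 𝓞 F) ∉ 𝔓.asIdeal) : Ev 𝔓 a := by
  obtain ⟨P, hP, hPv⟩ := Ideal.exists_maximal_ideal_liesOver_of_isIntegral 𝔓.asIdeal (S := 𝓞 K)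
  have hPp : P.IsPrime := hP.isPrime
  have hPb : P ≠ ⊥ := by
    intro h0
    have h1 := hPv.over
    rw [h0, Ideal.under_bot] at h1
    exact 𝔓.ne_bot h1
  let w : HeightOneSpectrum (𝓞 K) := ⟨P, hPp, hPb⟩
  haveI hlo : w.asIdeal.LiesOver 𝔓.asIdeal := hPv
  have hm : (m : 𝓞 K) ∉ P := by
    intro h1
    apply h𝔓
    rw [hPv.over, Ideal.under_def, Ideal.mem_comap, map_natCast]
    exact h1
  haveI := unram (F := F) m P hm
  have he : P.ramificationIdx (𝓞 F) = 1 := Ideal.ramificationIdx_eq_one_of_isUnramifiedAt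
  have h1 := HeightOneSpectrum.valuation_liesOver K 𝔓 w a
  have he' : 𝔓.asIdeal.ramificationIdx' w.asIdeal = 1 := by
    rw [← he]
    exact Ideal.ramificationIdx'_eq_ramificationIdx 𝔓.asIdeal P 𝔓.ne_bot
  rw [he', pow_one, ← hab, map_pow] at h1
  obtain ⟨y, hy⟩ := 𝔓.valuation_surjective F (w.valuation K b)
  exact ⟨y, by rw [h1, hy]⟩

/-- An element of `L` whose square root is fixed by the automorphisms which fix `L` and `ζ`. -/
theorem even_of_fixed {L N : Type} [Field L] [NumberField L] [Field N] [NumberField N] [IsGalois ℚ N]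
    (ι : L →+* N) (ζ : N) (m : ℕ) (hm : m ≠ 0) (hζ : IsPrimitiveRoot ζ m) (a : L) (β : N)
    (hβ : β ^ 2 = ι a)
    (hfix : ∀ σ : N ≃ₐ[ℚ] N, (∀ x, σ (ι x) = ι x) → σ ζ = ζ → σ β = β)
    (𝔓 : HeightOneSpectrum (𝓞 L)) (h𝔓 : (m : 𝓞 L) ∉ 𝔓.asIdeal) : Ev 𝔓 a := by
  haveI : NeZero m := ⟨hm⟩
  letI : Algebra L N := ι.toAlgebra
  have hal : ∀ x, algebraMap L N x = ι x := fun x => rfl
  haveI : IsScalarTower ℚ L N := IsScalarTower.of_algebraMap_eq' (Subsingleton.elim _ _)
  haveI : IsGalois L N := IsGalois.tower_top_of_isGalois ℚ L N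
  haveI : FiniteDimensional L N := FiniteDimensional.right ℚ L N
  let K : IntermediateField L N := IntermediateField.adjoin L {ζ}
  haveI : IsCyclotomicExtension {m} L K := hζ.intermediateField_adjoin_isCyclotomicExtension L
  have hK : β ∈ K := by
    rw [← IsGalois.fixedField_fixingSubgroup K, IntermediateField.mem_fixedField_iff]
    intro τ hτ
    have h1 : ∀ x ∈ K, τ x = x := by
      intro x hx
      exact (IntermediateField.mem_fixingSubgroup_iff K τ).1 hτ x hx
    exact hfix (τ.restrictScalars ℚ) (fun x => τ.commutes x)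
      (h1 ζ (IntermediateField.mem_adjoin_simple_self L ζ))
  haveI : FiniteDimensional ℚ K := FiniteDimensional.trans ℚ L K
  haveI : NumberField K := ⟨⟩
  refine even_of_sq (F := L) (K := K) m a ⟨β, hK⟩ ?_ 𝔓 h𝔓
  apply (algebraMap K N).injective
  rw [map_pow, ← IsScalarTower.algebraMap_apply L K N]
  exact hβ

/-- `L = ℚ(θ)`. -/
theorem fix_of_root {n : ℕ} {f : ℤ[X]} {L N : Type} [Field L] [NumberField L] [Field N] [NumberField N]
    {θ : L} (hRt : Rt n f θ) (ι : L →+* N) (σ : N ≃ₐ[ℚ] N) (h : σ (ι θ) = ι θ) (x : L) :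
    σ (ι x) = ι x := by
  have hm : (ov ℚ f).Monic := hRt.mon.map _
  have h1 : aeval θ (ov ℚ f) = 0 := by
    have h2 := aeval_map_algebraMap ℚ θ f
    rw [hRt.root] at h2
    exact h2
  have h3 := minpoly.eq_of_irreducible_of_monic hRt.irr h1 hm
  have hd : (minpoly ℚ θ).natDegree = Module.finrank ℚ L := by
    rw [← h3, hRt.rank, natDegree_map_eq_of_injective Int.cast_injective, hRt.deg]
  have htop : Algebra.adjoin ℚ {θ} = ⊤ := by
    have h1 : IntermediateField.adjoin ℚ {θ} = ⊤ :=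
      (Field.primitive_element_iff_minpoly_natDegree_eq ℚ θ).2 hd
    have h2 := IntermediateField.adjoin_simple_toSubalgebra_of_isAlgebraic
      (Algebra.IsAlgebraic.isAlgebraic (R := ℚ) θ)
    rw [← h2, h1]
    rfl
  have h4 : ((σ : N →ₐ[ℚ] N).comp (ι.toRatAlgHom)) = ι.toRatAlgHom :=
    AlgHom.ext_of_adjoin_eq_top htop (by
      intro y hy
      rw [Set.mem_singleton_iff.1 hy]
      exact h)
  exact DFunLike.congr_fun h4 x

/-! ### Counting -/

/-- The values of a homomorphism to `{1, -1} ^ r` which is surjective. -/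
theorem count {H : Type} [Group H] [Fintype H] {r : ℕ} (v : H → Fin r → ℤ)
    (hpm : ∀ a i, v a i = 1 ∨ v a i = -1) (hmul : ∀ a b i, v (a * b) i = v a i * v b i)
    (hI : ∀ I : Finset (Fin r), I.Nonempty → ∃ a, ∏ i ∈ I, v a i = -1) (τ : Fin r → ℤ) :
    2 ^ r * (Finset.univ.filter fun a => v a = τ).card ≤ Fintype.card H := by
  classical
  by_cases hτ : ∀ i, τ i = 1 ∨ τ i = -1
  · have h1 : ∀ I : Finset (Fin r), I.Nonempty → ∑ a, ∏ i ∈ I, v a i = 0 := by
      intro I hI'
      obtain ⟨a₀, ha₀⟩ := hI I hI'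
      have h2 : ∑ a, ∏ i ∈ I, v a i = ∑ a, ∏ i ∈ I, v (a₀ * a) i :=
        (Equiv.sum_comp (Equiv.mulLeft a₀) fun a => ∏ i ∈ I, v a i).symm
      have h3 : ∑ a, ∏ i ∈ I, v (a₀ * a) i = - ∑ a, ∏ i ∈ I, v a i := by
        rw [← Finset.sum_neg_distrib]
        refine Finset.sum_congr rfl fun a _ => ?_
        rw [Finset.prod_congr rfl fun i _ => hmul a₀ a i, Finset.prod_mul_distrib, ha₀, neg_one_mul]
      rw [h3] at h2
      omega
    have h4 : ∑ a, ∏ i, (1 + τ i * v a i) = (Fintype.card H : ℤ) := by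
      have h5 : ∀ a, ∏ i, (1 + τ i * v a i) =
          ∑ I ∈ (Finset.univ : Finset (Fin r)).powerset, (∏ i ∈ I, τ i) * ∏ i ∈ I, v a i := by
        intro a
        rw [Finset.prod_one_add]
        refine Finset.sum_congr rfl fun I _ => ?_
        rw [Finset.prod_mul_distrib]
      rw [Finset.sum_congr rfl fun a _ => h5 a, Finset.sum_comm]
      rw [Finset.sum_eq_single ∅]
      · simp
      · intro I _ hI'
        rw [← Finset.mul_sum, h1 I (Finset.nonempty_iff_ne_empty.2 hI'), mul_zero]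
      · intro h
        exact absurd (Finset.mem_powerset.2 (Finset.empty_subset _)) h
    have h6 : (2 ^ r * (Finset.univ.filter fun a => v a = τ).card : ℤ) ≤ ∑ a, ∏ i, (1 + τ i * v a i) := by
      have h7 : ∑ a, (if v a = τ then (2 ^ r : ℤ) else 0) ≤ ∑ a, ∏ i, (1 + τ i * v a i) := by
        refine Finset.sum_le_sum fun a _ => ?_
        split_ifs with h
        · have h8 : ∀ i, 1 + τ i * v a i = 2 := by
            intro i
            rw [h]
            rcases hτ i with h9 | h9 <;> rw [h9] <;> norm_num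
          rw [Finset.prod_congr rfl fun i _ => h8 i, Finset.prod_const, Finset.card_univ, Fintype.card_fin]
        · refine Finset.prod_nonneg fun i _ => ?_
          rcases hτ i with h9 | h9 <;> rcases hpm a i with h10 | h10 <;> rw [h9, h10] <;> norm_num
      refine le_trans (le_of_eq ?_) h7
      rw [← Finset.sum_filter, Finset.sum_const, nsmul_eq_mul, mul_comm]
    rw [h4] at h6
    exact_mod_cast h6
  · have h1 : (Finset.univ.filter fun a => v a = τ) = ∅ := by
      rw [Finset.filter_eq_empty_iff]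
      rintro a - rfl
      exact hτ (hpm a)
    rw [h1]
    simp

/-- The same for a set of values. -/
theorem count_set {H : Type} [Group H] [Fintype H] {r : ℕ} (v : H → Fin r → ℤ)
    (hpm : ∀ a i, v a i = 1 ∨ v a i = -1) (hmul : ∀ a b i, v (a * b) i = v a i * v b i)
    (hI : ∀ I : Finset (Fin r), I.Nonempty → ∃ a, ∏ i ∈ I, v a i = -1) (V : Finset (Fin r → ℤ)) :
    2 ^ r * (Finset.univ.filter fun a => v a ∈ V).card ≤ V.card * Fintype.card H := by
  classical
  have h1 : (Finset.univ.filter fun a => v a ∈ V) =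
      V.biUnion fun τ => Finset.univ.filter fun a => v a = τ := by
    ext a
    simp
  calc 2 ^ r * (Finset.univ.filter fun a => v a ∈ V).card
      ≤ 2 ^ r * ∑ τ ∈ V, (Finset.univ.filter fun a => v a = τ).card := by
        rw [h1]
        exact Nat.mul_le_mul_left _ Finset.card_biUnion_le
    _ = ∑ τ ∈ V, 2 ^ r * (Finset.univ.filter fun a => v a = τ).card := by rw [Finset.mul_sum]
    _ ≤ ∑ τ ∈ V, Fintype.card H := Finset.sum_le_sum fun τ _ => count v hpm hmul hI τ
    _ = V.card * Fintype.card H := by rw [Finset.sum_const, smul_eq_mul]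

/-! ### The density of a set of primes -/

/-- The density of the primes whose Frobenius elements are in `C`. -/
theorem dens {N : Type} [Field N] [NumberField N] [IsGalois ℚ N] (T : ℕ → Prop) [DecidablePred T]
    (C : Finset Gal(N/ℚ)) (M₀ : ℕ)
    (hT : ∀ (q : ℕ) [Fact q.Prime], M₀ < q → ∀ (φ : 𝓞 N →+* AlgebraicClosure (ZMod q)) (σ : Gal(N/ℚ)),
      HasFrob q φ σ → (T q ↔ σ ∈ C)) :
    Tendsto (M fun q => if T q then 1 else 0) atTop (𝓝 ((C.card : ℝ) / Nat.card Gal(N/ℚ))) := by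
  classical
  obtain ⟨D, hD, htor⟩ := torsor N
  have hn0 : 0 < Nat.card Gal(N/ℚ) := Nat.card_pos
  have hn1 : (0 : ℝ) < Nat.card Gal(N/ℚ) := by exact_mod_cast hn0
  have hb : Tendsto (M fun p => (1 / (Nat.card Gal(N/ℚ) : ℝ)) * ∑ σ ∈ C, (xp N σ p : ℝ)) atTop
      (𝓝 ((C.card : ℝ) / Nat.card Gal(N/ℚ))) := by
    have h1 : ∀ x, M (fun p => (1 / (Nat.card Gal(N/ℚ) : ℝ)) * ∑ σ ∈ C, (xp N σ p : ℝ)) x =
        (1 / (Nat.card Gal(N/ℚ) : ℝ)) * ∑ σ ∈ C, M (fun p => (xp N σ p : ℝ)) x := by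
      intro x
      rw [M_smul, M_sum]
    have h2 : Tendsto (fun x => ∑ σ ∈ C, M (fun p => (xp N σ p : ℝ)) x) atTop
        (𝓝 (∑ σ ∈ C, (1 : ℝ))) := tendsto_finsetSum _ fun σ _ => chebotarev N σ
    have h3 := h2.const_mul (1 / (Nat.card Gal(N/ℚ) : ℝ))
    rw [Finset.sum_const, nsmul_eq_mul, mul_one] at h3
    rw [show (C.card : ℝ) / Nat.card Gal(N/ℚ) = 1 / (Nat.card Gal(N/ℚ) : ℝ) * C.card by ring]
    exact h3.congr fun x => (h1 x).symm
  refine M_congr (D := D * (M₀ + 1).factorial) (Nat.mul_pos hD (Nat.factorial_pos _)) ?_ hb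
  intro p hp hpD
  haveI : Fact p.Prime := ⟨hp⟩
  have hp1 : ¬ p ∣ D := fun h => hpD (h.mul_right _)
  have hp2 : M₀ < p := by
    by_contra h
    exact hpD ((Nat.dvd_factorial hp.pos (by omega)).mul_left _)
  obtain ⟨t1, t2, -⟩ := htor p hp1
  haveI hfin : Finite (𝓞 N →+* AlgebraicClosure (ZMod p)) := by
    refine Nat.finite_of_card_ne_zero ?_
    rw [t1]
    exact hn0.ne'
  letI := Fintype.ofFinite (𝓞 N →+* AlgebraicClosure (ZMod p))
  have hex : ∀ φ : 𝓞 N →+* AlgebraicClosure (ZMod p), ∃! σ : Gal(N/ℚ), HasFrob p φ σ := by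
    intro φ
    obtain ⟨σ, h1, h2⟩ := t2 φ ((frobenius (AlgebraicClosure (ZMod p)) p).comp φ)
    exact ⟨σ, fun x => (h1 x).symm, fun τ hτ => h2 τ fun x => (hτ x).symm⟩
  choose F hF1 hF2 using hex
  have h1 : ∀ σ, xp N σ p = (Finset.univ.filter fun φ => F φ = σ).card := by
    intro σ
    unfold xp
    rw [dif_pos hp, Nat.card_eq_fintype_card, Fintype.card_subtype]
    congr 1
    ext φ
    simp only [Finset.mem_filter, Finset.mem_univ, true_and]
    constructor
    · intro h
      exact (hF2 φ σ h).symm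
    · rintro rfl
      exact hF1 φ
  have h2 : ∑ σ ∈ C, xp N σ p = (Finset.univ.filter fun φ => F φ ∈ C).card := by
    rw [Finset.sum_congr rfl fun σ _ => h1 σ]
    rw [Finset.card_eq_sum_card_fiberwise (f := F) (t := C) (s := Finset.univ.filter fun φ => F φ ∈ C)
      (fun φ hφ => (Finset.mem_filter.1 (Finset.mem_coe.1 hφ)).2)]
    refine Finset.sum_congr rfl fun σ hσ => ?_
    congr 1
    ext φ
    simp only [Finset.mem_filter, Finset.mem_univ, true_and]
    constructor
    · rintro rfl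
      exact ⟨hσ, rfl⟩
    · exact fun h => h.2
  have h3 : (∑ σ ∈ C, (xp N σ p : ℝ)) = ((Finset.univ.filter fun φ => F φ ∈ C).card : ℝ) := by
    rw [← h2, Nat.cast_sum]
  show (if T p then (1 : ℝ) else 0) = 1 / (Nat.card Gal(N/ℚ) : ℝ) * ∑ σ ∈ C, (xp N σ p : ℝ)
  rw [h3]
  split_ifs with h
  · have h4 : (Finset.univ.filter fun φ => F φ ∈ C) = Finset.univ := by
      rw [Finset.filter_true_of_mem]
      exact fun φ _ => (hT p hp2 φ (F φ) (hF1 φ)).1 h
    rw [h4, Finset.card_univ, ← Nat.card_eq_fintype_card, t1]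
    field_simp
  · have h4 : (Finset.univ.filter fun φ => F φ ∈ C) = ∅ := by
      rw [Finset.filter_eq_empty_iff]
      exact fun φ _ h' => h ((hT p hp2 φ (F φ) (hF1 φ)).2 h')
    rw [h4]
    simp

end Pool.Agent.H30Q.CH2P
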