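import Pool.Agent.H30Q.Stm2
import Pool.Agent.H30Q.CH2A

/-!
# Project HQ (helper30), auxiliary statements for piece CH2 (helper21): the Frobenius elements
-/

set_option autoImplicit false
set_option linter.all false

open Polynomial IsDedekindDomain NumberField Filter Topology

namespace Pool.Agent.H30Q.CH2P

open Pool.Agent.W401.Cheb
open RESP
open Pool.Agent.H30T.ResA (exists_large frob_pow)

theorem pow_iff {R : Type} [CommRing R] {ζ : R} {k : ℕ} (h : IsPrimitiveRoot ζ k) (hk : 0 < k) (i j : ℕ) :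
    ζ ^ i = ζ ^ j ↔ i % k = j % k := by
  have h1 : ∀ l, ζ ^ (l % k) = ζ ^ l := by
    intro l
    have h2 := pow_mod_orderOf ζ l
    rwa [← h.eq_orderOf] at h2
  constructor
  · intro h3
    rw [← h1 i, ← h1 j] at h3
    exact h.pow_inj (Nat.mod_lt _ hk) (Nat.mod_lt _ hk) h3
  · intro h3
    rw [← h1 i, ← h1 j, h3]

/-- The roots of unity. -/
theorem frob_zeta {N : Type} [Field N] [NumberField N] (ζ : 𝓞 N) (m : ℕ) (hm : m ≠ 0)
    (hζ : IsPrimitiveRoot ζ m) (q : ℕ) [Fact q.Prime] (φ : 𝓞 N →+* AlgebraicClosure (ZMod q))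
    (hmΩ : ((m : ℕ) : AlgebraicClosure (ZMod q)) ≠ 0) (σ : Gal(N/ℚ)) (hφ : HasFrob q φ σ) :
    q % m = 1 % m ↔ σ • ζ = ζ := by
  haveI : NeZero m := ⟨hm⟩
  have h3 := hζ.isRoot_cyclotomic (Nat.pos_of_ne_zero hm)
  have h4 : (cyclotomic m (AlgebraicClosure (ZMod q))).IsRoot (φ ζ) := by
    rw [← map_cyclotomic m φ]
    exact h3.map
  have : NeZero ((m : ℕ) : AlgebraicClosure (ZMod q)) := ⟨hmΩ⟩
  rw [isRoot_cyclotomic_iff] at h4
  have h5 : (σ • ζ) ^ m = 1 := by
    rw [← smul_pow', hζ.pow_eq_one, smul_one]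
  obtain ⟨k, -, hk⟩ := hζ.eq_pow_of_pow_eq_one h5
  have h6 := hφ ζ
  rw [← hk, map_pow, pow_iff h4 (Nat.pos_of_ne_zero hm)] at h6
  have h7 := pow_iff hζ (Nat.pos_of_ne_zero hm) k 1
  rw [hk, pow_one] at h7
  rw [h7, h6]

open scoped Classical in
/-- The Frobenius elements of the large primes. -/
theorem frob_dict {N : Type} [Field N] [NumberField N] [IsGalois ℚ N] (f : ℤ[X]) (hmon : f.Monic)
    (J : Type) [Fintype J] (s : J → N) (hs : Function.Injective s)
    (hf : f.map (Int.castRingHom N) = ∏ j, (X - C (s j))) (W : ℕ) (hW : W ≠ 0) (ζ : N)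
    (hζ : IsPrimitiveRoot ζ W) (r : ℕ) (A : Fin r → ℤ[X]) (β : J → Fin r → N)
    (hβ : ∀ j i, β j i ^ 2 = aeval (s j) (A i)) (hβ0 : ∀ j i, β j i ≠ 0) :
    ∃ M₀ : ℕ, ∀ (q : ℕ) [Fact q.Prime], M₀ < q → ∀ (φ : 𝓞 N →+* AlgebraicClosure (ZMod q))
      (σ : Gal(N/ℚ)), HasFrob q φ σ →
      (q % W = 1 % W ↔ σ ζ = ζ) ∧
      (∀ e : ℤ, (q : ℤ) ∣ f.eval e → ∃ j, σ (s j) = s j ∧
        ∀ i, AsmP.sgn (A i) q e = if σ (β j i) = β j i then 1 else -1) ∧
      (∀ j, σ (s j) = s j → ∃ e : ℤ, (q : ℤ) ∣ f.eval e ∧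
        ∀ i, AsmP.sgn (A i) q e = if σ (β j i) = β j i then 1 else -1) := by
  have hcs : ∀ (τ : Gal(N/ℚ)) (x : 𝓞 N), algebraMap (𝓞 N) N (τ • x) = τ (algebraMap (𝓞 N) N x) :=
    fun τ x => rfl
  have hroot : ∀ z : N, (f.map (Int.castRingHom N)).eval z = 0 ↔ ∃ j, z = s j := by
    intro z
    rw [hf, eval_prod, Finset.prod_eq_zero_iff]
    simp [sub_eq_zero]
  have hev : ∀ z : N, (f.map (Int.castRingHom N)).eval z = aeval z f := by
    intro z
    rw [aeval_def, eval_map]
    rfl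
  have hint : ∀ j, IsIntegral ℤ (s j) := by
    intro j
    refine ⟨f, hmon, ?_⟩
    rw [← aeval_def, ← hev, hroot]
    exact ⟨j, rfl⟩
  choose t ht using fun j => (⟨⟨s j, hint j⟩, rfl⟩ : ∃ t : 𝓞 N, algebraMap (𝓞 N) N t = s j)
  obtain ⟨ζ', hζ'⟩ : ∃ ζ' : 𝓞 N, algebraMap (𝓞 N) N ζ' = ζ :=
    ⟨⟨ζ, hζ.isIntegral (Nat.pos_of_ne_zero hW)⟩, rfl⟩
  have hζ2 : IsPrimitiveRoot ζ' W := by
    rw [← hζ'] at hζ
    exact hζ.of_map_of_injective (RingOfIntegers.coe_injective)
  choose b hb hb2 using fun j i => exists_root (t j) (β j i) (A i) (by rw [ht]; exact hβ j i)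
  have hb0 : ∀ j i, b j i ≠ 0 := by
    intro j i h
    apply hβ0 j i
    rw [← hb, h, map_zero]
  set E : 𝓞 N := (W : 𝓞 N) * (∏ i : J, ∏ j : J, (if i = j then 1 else t i - t j)) *
    ∏ j : J, ∏ i : Fin r, b j i with hE
  have hE0 : E ≠ 0 := by
    rw [hE]
    refine mul_ne_zero (mul_ne_zero (Nat.cast_ne_zero.2 hW) ?_) ?_
    · rw [Finset.prod_ne_zero_iff]
      intro i _
      rw [Finset.prod_ne_zero_iff]
      intro j _
      split_ifs with hij
      · exact one_ne_zero
      · intro h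
        apply hij
        have h1 := congrArg (algebraMap (𝓞 N) N) (sub_eq_zero.1 h)
        rw [ht, ht] at h1
        exact hs h1
    · rw [Finset.prod_ne_zero_iff]
      intro j _
      rw [Finset.prod_ne_zero_iff]
      intro i _
      exact hb0 j i
  obtain ⟨M, hM⟩ := exists_large E hE0
  refine ⟨max M 2, ?_⟩
  intro q hqF hq φ σ hφ
  have hqp : q.Prime := hqF.out
  obtain ⟨hqM, hq2⟩ := max_lt_iff.1 hq
  have hφE : φ E ≠ 0 := hM q hqM _ φ
  rw [hE, map_mul, map_mul, map_natCast, map_prod, map_prod] at hφE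
  have hmΩ := left_ne_zero_of_mul (left_ne_zero_of_mul hφE)
  have hu1 := right_ne_zero_of_mul (left_ne_zero_of_mul hφE)
  have hu2 := right_ne_zero_of_mul hφE
  rw [Finset.prod_ne_zero_iff] at hu1 hu2
  have k1 : ∀ i j, φ (t i) = φ (t j) → i = j := by
    intro i j hij
    by_contra hne
    have h1 := hu1 i (Finset.mem_univ _)
    rw [map_prod, Finset.prod_ne_zero_iff] at h1
    have h2 := h1 j (Finset.mem_univ _)
    rw [if_neg hne, map_sub, hij, sub_self] at h2
    exact h2 rfl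
  have k2 : ∀ j i, φ (b j i) ≠ 0 := by
    intro j i
    have h1 := hu2 j (Finset.mem_univ _)
    rw [map_prod, Finset.prod_ne_zero_iff] at h1
    exact h1 i (Finset.mem_univ _)
  have hfO : f.map (Int.castRingHom (𝓞 N)) = ∏ j, (X - C (t j)) := by
    apply Polynomial.map_injective (algebraMap (𝓞 N) N) RingOfIntegers.coe_injective
    rw [Polynomial.map_map, Polynomial.map_prod]
    simp only [Polynomial.map_sub, map_X, map_C, ht]
    rw [← hf]
    exact congrArg (fun r => Polynomial.map r f) (Subsingleton.elim _ _)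
  have hfΩ : f.map (Int.castRingHom (AlgebraicClosure (ZMod q))) = ∏ j, (X - C (φ (t j))) := by
    have h1 := congrArg (Polynomial.map φ) hfO
    rw [Polynomial.map_map, Polynomial.map_prod] at h1
    simp only [Polynomial.map_sub, map_X, map_C] at h1
    rw [← h1]
    exact congrArg (fun r => Polynomial.map r f) (Subsingleton.elim _ _)
  have k3 : ∀ e : ℤ, (q : ℤ) ∣ f.eval e ↔ ∃ j, (e : AlgebraicClosure (ZMod q)) = φ (t j) := by
    intro e
    have h1 : (f.map (Int.castRingHom (AlgebraicClosure (ZMod q)))).eval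
        ((e : ℤ) : AlgebraicClosure (ZMod q)) = ((f.eval e : ℤ) : AlgebraicClosure (ZMod q)) := by
      rw [eval_map, ← eq_intCast (Int.castRingHom (AlgebraicClosure (ZMod q))) e, eval₂_at_apply]
      rfl
    rw [← CharP.intCast_eq_zero_iff (AlgebraicClosure (ZMod q)) q, ← h1, hfΩ, eval_prod,
      Finset.prod_eq_zero_iff]
    simp [sub_eq_zero]
  have hodd : Odd q := hqp.odd_of_ne_two (by omega)
  have hZ : ∀ z : ZMod q, (algebraMap (ZMod q) (AlgebraicClosure (ZMod q)) z) ^ q =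
      algebraMap (ZMod q) (AlgebraicClosure (ZMod q)) z := by
    intro z
    rw [← map_pow, ZMod.pow_card]
  have key : ∀ (j : J) (e : ℤ), σ (s j) = s j → (e : AlgebraicClosure (ZMod q)) = φ (t j) →
      ∀ i, AsmP.sgn (A i) q e = if σ (β j i) = β j i then 1 else -1 := by
    intro j e hj he i
    have h1 := hom_aeval (t j) (A i) q φ e he
    rw [← hb2, map_pow] at h1
    have h2 : (σ (β j i)) ^ 2 = (β j i) ^ 2 := by
      rw [← map_pow, hβ]
      have h2 := aeval_algHom_apply (σ : N →ₐ[ℚ] N) (s j) ((A i).map (Int.castRingHom ℚ))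
      have h3 : ∀ z : N, aeval z ((A i).map (Int.castRingHom ℚ)) = aeval z (A i) := fun z =>
        aeval_map_algebraMap ℚ z (A i)
      rw [h3, h3] at h2
      rw [show σ (aeval (s j) (A i)) = (σ : N →ₐ[ℚ] N) (aeval (s j) (A i)) from rfl, ← h2]
      show (aeval (σ (s j))) (A i) = (aeval (s j)) (A i)
      rw [hj]
    unfold AsmP.sgn
    by_cases h3 : σ (β j i) = β j i
    · rw [if_pos h3, if_pos]
      have h4 : φ (b j i) ^ q = φ (b j i) := by
        rw [← hφ]
        congr 1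
        apply RingOfIntegers.coe_injective
        show algebraMap (𝓞 N) N (σ • b j i) = algebraMap (𝓞 N) N (b j i)
        rw [hcs, hb, h3]
      obtain ⟨z, hz⟩ := W54.ChTor.frob_fixed q _ h4
      refine ⟨z, ?_⟩
      apply (algebraMap (ZMod q) (AlgebraicClosure (ZMod q))).injective
      rw [← h1, ← hz, map_mul, pow_two]
    · rw [if_neg h3, if_neg]
      rintro ⟨z, hz⟩
      have h4 : σ (β j i) = - β j i := (sq_eq_sq_iff_eq_or_eq_neg.1 h2).resolve_left h3
      rw [hz, map_mul, ← pow_two] at h1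
      have h5 : φ (b j i) ^ q = φ (b j i) := by
        rcases sq_eq_sq_iff_eq_or_eq_neg.1 h1 with h6 | h6
        · rw [h6, hZ]
        · rw [h6, hodd.neg_pow, hZ]
      have h6 : φ (b j i) ^ q = - φ (b j i) := by
        rw [← hφ, ← map_neg]
        congr 1
        apply RingOfIntegers.coe_injective
        show algebraMap (𝓞 N) N (σ • b j i) = algebraMap (𝓞 N) N (-(b j i))
        rw [hcs, map_neg, hb, h4]
      have h7 : (2 : AlgebraicClosure (ZMod q)) * φ (b j i) = 0 := by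
        rw [h5] at h6
        linear_combination h6
      rcases mul_eq_zero.1 h7 with h8 | h8
      · have h9 : ((2 : ℕ) : AlgebraicClosure (ZMod q)) = 0 := by exact_mod_cast h8
        rw [CharP.cast_eq_zero_iff (AlgebraicClosure (ZMod q)) q] at h9
        have := Nat.le_of_dvd (by norm_num) h9
        omega
      · exact k2 j i h8
  refine ⟨?_, ?_, ?_⟩
  · rw [frob_zeta ζ' W hW hζ2 q φ hmΩ σ hφ, ← hζ', ← hcs]
    exact (RingOfIntegers.coe_injective (K := N)).eq_iff.symm
  · intro e he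
    obtain ⟨j, hj⟩ := (k3 e).1 he
    have h1 : σ (s j) = s j := by
      have h2 : (f.map (Int.castRingHom N)).eval (σ (s j)) = 0 := by
        have h3 : (f.map (Int.castRingHom N)).eval (s j) = 0 := (hroot _).2 ⟨j, rfl⟩
        rw [hev] at h3 ⊢
        have h4 := aeval_algHom_apply ((σ : N →ₐ[ℚ] N).restrictScalars ℤ) (s j) f
        rw [h3, map_zero] at h4
        exact h4
      obtain ⟨j', hj'⟩ := (hroot _).1 h2
      have h5 : σ • t j = t j' := by
        apply RingOfIntegers.coe_injective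
        show algebraMap (𝓞 N) N (σ • t j) = algebraMap (𝓞 N) N (t j')
        rw [hcs, ht, ht, hj']
      have h6 := hφ (t j)
      rw [h5, ← hj] at h6
      have h7 : ((e : ℤ) : AlgebraicClosure (ZMod q)) ^ q = e := by
        have h8 := hZ ((e : ℤ) : ZMod q)
        rwa [map_intCast] at h8
      rw [h7, hj] at h6
      rw [hj', k1 _ _ h6]
    exact ⟨j, h1, key j e h1 hj⟩
  · intro j hj
    have h1 : φ (t j) ^ q = φ (t j) := by
      rw [← hφ]
      congr 1
      apply RingOfIntegers.coe_injective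
      show algebraMap (𝓞 N) N (σ • t j) = algebraMap (𝓞 N) N (t j)
      rw [hcs, ht, hj]
    obtain ⟨z, hz⟩ := W54.ChTor.frob_fixed q _ h1
    obtain ⟨e, he⟩ := ZMod.intCast_surjective z
    have h2 : (e : AlgebraicClosure (ZMod q)) = φ (t j) := by
      rw [← hz, ← he, map_intCast]
    exact ⟨e, (k3 e).2 ⟨j, h2⟩, key j e hj h2⟩

end Pool.Agent.H30Q.CH2P
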