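import Pool.Agent.H30Q.CH2B
import Pool.Agent.H30Q.CHB
import Pool.Agent.H30Q.Stm3

/-!
# Project HQ (helper30), piece CH3: the primes modulo which all the `A i (e)` are squares
-/

set_option autoImplicit false
set_option linter.all false

open Polynomial IsDedekindDomain NumberField Filter Topology
open scoped Classical

namespace Pool.Agent.H30Q

open CH2P CHBP Pool.Agent.H30T.GalP Pool.Agent.W401.Cheb Pool.Agent.N874.PP in
/-- **CH3.** -/
theorem t_CH3 : S_CH3 := by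
  intro n W f L _ _ θ hn hRt hGW r A hA
  obtain ⟨E, _, _, ι₀, β₀, hβ₀⟩ := exists_sqrts L r (fun i => aeval θ (A i))
  set p : ℚ[X] := ov ℚ f with hp
  have hinj : Function.Injective (Int.castRingHom ℚ) := Int.cast_injective
  have hmon : p.Monic := hRt.mon.map _
  have hirr : Irreducible p := hRt.irr
  have hsep : p.Separable := hirr.separable
  have hdeg : p.natDegree = n := by
    rw [hp, natDegree_map_eq_of_injective hinj, hRt.deg]
  obtain ⟨N, iF, iN, iG, κ, ζ, γ, hζ, -, hsp⟩ := exists_closure E 1 W hGW.ne p hmon.ne_zero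
  obtain ⟨hcard, hprod⟩ := prod_rootSet (N := N) p hmon hsep hsp
  rw [hdeg] at hcard
  set ι : L →+* N := (κ : E →+* N).comp ι₀ with hι
  have hfN : f.map (Int.castRingHom N) = ∏ s : p.rootSet N, (X - C (s : N)) := by
    rw [← hprod, hp, Polynomial.map_map]
    congr 1
    exact RingHom.ext_int _ _
  have hιA : ∀ P : ℤ[X], ι (aeval θ P) = aeval (ι θ) P := by
    intro P
    rw [aeval_def, aeval_def, hom_eval₂]
    congr 1
    exact Subsingleton.elim _ _
  have hιp : aeval (ι θ) p = 0 := by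
    have h1 := aeval_map_algebraMap ℚ (ι θ) f
    rw [← hιA, hRt.root, map_zero] at h1
    exact h1
  have hmin : minpoly ℚ (ι θ) = p := (minpoly.eq_of_irreducible_of_monic hirr hιp hmon).symm
  have hex : ∀ s : p.rootSet N, ∃ τ : N ≃ₐ[ℚ] N, τ (ι θ) = s := by
    intro s
    refine minpoly.exists_algEquiv_of_root' (Algebra.IsAlgebraic.isAlgebraic (R := ℚ) (ι θ)) ?_
    rw [hmin]
    exact (mem_rootSet.1 s.2).2
  choose τ hτ using hex
  have hτA : ∀ (σ : N ≃ₐ[ℚ] N) (z : N) (P : ℤ[X]), σ (aeval z P) = aeval (σ z) P := by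
    intro σ z P
    exact (aeval_algHom_apply ((σ : N →ₐ[ℚ] N).restrictScalars ℤ) z P).symm
  set β : p.rootSet N → Fin r → N := fun s i => τ s (κ (β₀ i)) with hβdef
  have hκ2 : ∀ i, κ (β₀ i) ^ 2 = ι (aeval θ (A i)) := by
    intro i
    rw [← map_pow, hβ₀]
    rfl
  have hβ : ∀ s i, β s i ^ 2 = aeval ((s : p.rootSet N) : N) (A i) := by
    intro s i
    rw [hβdef]
    show (τ s (κ (β₀ i))) ^ 2 = _
    rw [← map_pow, hκ2, hιA, hτA, hτ]
  have hκ0 : ∀ i, κ (β₀ i) ≠ 0 := by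
    intro i h0
    have h1 := hκ2 i
    rw [h0, zero_pow two_ne_zero] at h1
    exact hA i ((map_eq_zero ι).1 h1.symm)
  have hβ0 : ∀ s i, β s i ≠ 0 := fun s i h0 => hκ0 i ((map_eq_zero (τ s)).1 h0)
  obtain ⟨M₀, hM⟩ := frob_dict f hRt.mon (p.rootSet N) (fun s => (s : N)) Subtype.val_injective hfN W
    hGW.ne ζ hζ r A β hβ hβ0
  set C₁ : Finset (N ≃ₐ[ℚ] N) := Finset.univ.filter fun σ => σ ζ = ζ ∧
    (∃ s : p.rootSet N, σ (s : N) = s) ∧ ∀ s : p.rootSet N, σ (s : N) = s → ∀ i, σ (β s i) = β s i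
    with hC₁
  have hC1pos : 0 < C₁.card := by
    rw [Finset.card_pos]
    have : Nonempty (p.rootSet N) := by
      rw [← Fintype.card_pos_iff, hcard]
      omega
    obtain ⟨s⟩ := this
    exact ⟨1, Finset.mem_filter.2 ⟨Finset.mem_univ _, rfl, ⟨s, rfl⟩, fun _ _ _ => rfl⟩⟩
  have hT₁ := dens (N := N) (fun q => q ∈ SS W f ∧ ∀ e : ℤ, (q : ℤ) ∣ f.eval e →
      ∀ i, AsmP.sgn (A i) q e = 1) C₁ M₀ (by
    intro q _ hq φ σ hφ
    obtain ⟨k1, k2, k3⟩ := hM q hq φ σ hφ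
    constructor
    · rintro ⟨⟨h1, h2, e, h3⟩, h5⟩
      obtain ⟨j, h4, -⟩ := k2 e h3
      refine Finset.mem_filter.2 ⟨Finset.mem_univ _, k1.1 h2, ⟨j, h4⟩, ?_⟩
      intro s hs i
      obtain ⟨e', h6, h7⟩ := k3 s hs
      have h8 := h7 i
      rw [h5 e' h6 i] at h8
      by_contra hne
      rw [if_neg hne] at h8
      norm_num at h8
    · intro h
      obtain ⟨-, h2, ⟨j, h3⟩, h5⟩ := Finset.mem_filter.1 h
      obtain ⟨e, h4, -⟩ := k3 j h3
      refine ⟨⟨Fact.out, k1.2 h2, e, h4⟩, ?_⟩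
      intro e' he' i
      obtain ⟨s, h6, h7⟩ := k2 e' he'
      rw [h7 i, if_pos (h5 s h6 i)])
  have hG : (0 : ℝ) < Nat.card (N ≃ₐ[ℚ] N) := by exact_mod_cast Nat.card_pos
  set d : ℝ := (C₁.card : ℝ) / Nat.card (N ≃ₐ[ℚ] N) with hd
  have hdpos : 0 < d := div_pos (by exact_mod_cast hC1pos) hG
  refine ⟨d / 2, half_pos hdpos, ?_⟩
  filter_upwards [hT₁.eventually (lt_mem_nhds (half_lt_self hdpos))] with x hx
  have hs2 : ∑ q ∈ pr x, (if (q ∈ SS W f ∧ ∀ e : ℤ, (q : ℤ) ∣ f.eval e →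
      ∀ i, AsmP.sgn (A i) q e = 1) then (1 : ℝ) else 0) =
      (((upTo (SS W f) x).filter fun q : ℕ => ∀ e : ℤ, (q : ℤ) ∣ f.eval e →
      ∀ i, AsmP.sgn (A i) q e = 1).card : ℝ) := by
    rw [Finset.sum_ite, Finset.sum_const_zero, add_zero, Finset.sum_const, nsmul_eq_mul, mul_one]
    congr 2
    ext q
    simp only [upTo, Finset.mem_filter, Finset.mem_range, mem_pr]
    constructor
    · rintro ⟨⟨h1, h2⟩, h3, h4⟩
      exact ⟨⟨by omega, h3⟩, h4⟩
    · rintro ⟨⟨h1, h3⟩, h4⟩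
      exact ⟨⟨by omega, h3.1⟩, h3, h4⟩
  unfold M at hx
  rw [hs2] at hx
  have hpc : (0 : ℝ) < Nat.primeCounting x := by
    have h1 : (0 : ℝ) ≤ Nat.primeCounting x := Nat.cast_nonneg _
    rcases h1.lt_or_eq with h2 | h2
    · exact h2
    · rw [← h2, div_zero] at hx
      exact absurd (half_pos hdpos) (not_lt.2 hx.le)
  exact ((lt_div_iff₀ hpc).1 hx).le

end Pool.Agent.H30Q
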