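import Pool.Agent.H30Q.Stm3

/-!
# Project HQ, piece CNT (helper33): the squarefree numbers composed of primes of a set of positive lower density

`Sg S Y = ∑ 1 / m` over the squarefree `m ≤ Y` composed of primes of `S`. Since the primes of `S` in
`(K ^ s, K ^ (s + 1)]` contribute at least `1 / (K s log K)` to `∑ 1 / p`, those in `(Y, Y ^ 2]`, `Y = K ^ i`,
contribute at least a constant `c₁`; the products `m p` with `m ≤ Y < p ≤ Y ^ 2` are distinct, so
`Sg (Y ^ 3) ≥ (1 + c₁) Sg Y`. Finally the products `m p ≤ X` with `m ≤ Y < p`, `Y ^ 4 ≤ X`, are distinct.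
-/

set_option autoImplicit false
set_option linter.all false

open Filter Topology
open scoped Classical

namespace Pool.Agent.H30Q

namespace CNTp

theorem cheb_low : ∀ᶠ n : ℕ in atTop, (n : ℝ) / (2 * Real.log n) ≤ Nat.primeCounting n := by
  have h1 := (Real.isLittleO_log_id_atTop.bound (by norm_num : (0:ℝ) < 1/10))
  have h2 : Tendsto (fun n : ℕ => (n : ℝ) + 1) atTop atTop :=
    tendsto_atTop_add_const_right _ _ tendsto_natCast_atTop_atTop
  filter_upwards [h2.eventually h1, eventually_ge_atTop 3] with n h3 hn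
  have hn' : (3:ℝ) ≤ n := by exact_mod_cast hn
  have hlog : 0 < Real.log n := Real.log_pos (by linarith)
  have h4 : Real.log ((n:ℝ) + 1) ≤ 1/10 * ((n:ℝ) + 1) := by
    have := (le_abs_self _).trans h3
    simpa [abs_of_pos (show (0:ℝ) < n + 1 by linarith)] using this
  have h5 := Real.log_two_gt_d9
  refine le_trans ?_ (Chebyshev.pi_ge n)
  rw [div_le_div_iff₀ (by positivity) hlog]
  have h6 : (n:ℝ) / 2 ≤ n * Real.log 2 - Real.log ((n:ℝ) + 1) := by nlinarith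
  nlinarith [mul_le_mul_of_nonneg_right h6 (by positivity : (0:ℝ) ≤ 2 * Real.log n)]

theorem cheb_up : ∀ᶠ n : ℕ in atTop, (Nat.primeCounting n : ℝ) ≤ 2 * n / Real.log n := by
  have h1 := Chebyshev.eventually_primeCounting_le (ε := 1/2) (by norm_num)
  filter_upwards [tendsto_natCast_atTop_atTop.eventually h1, eventually_ge_atTop 3] with n h3 hn
  have hn' : (3:ℝ) ≤ n := by exact_mod_cast hn
  have hlog : 0 < Real.log n := Real.log_pos (by linarith)
  rw [Nat.floor_natCast] at h3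
  refine h3.trans ?_
  have h4 : Real.log 4 = 2 * Real.log 2 := by
    rw [show (4:ℝ) = 2 ^ 2 by norm_num, Real.log_pow]; norm_num
  have h5 := Real.log_two_lt_d9
  rw [div_le_div_iff_of_pos_right hlog]
  nlinarith

theorem inj {Y m m' p p' : ℕ} (hm : m ≤ Y) (hm' : m' ≤ Y) (h0 : m' ≠ 0) (hp : p.Prime)
    (hp' : p'.Prime) (hY : Y < p) (h : m * p = m' * p') : p = p' ∧ m = m' := by
  have h1 : p ∣ m' * p' := ⟨m, by rw [← h, mul_comm]⟩
  rcases hp.dvd_mul.1 h1 with h2 | h2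
  · exact absurd (Nat.le_of_dvd (Nat.pos_of_ne_zero h0) h2) (by omega)
  · have h3 := (Nat.prime_dvd_prime_iff_eq hp hp').1 h2
    subst h3
    exact ⟨rfl, Nat.eq_of_mul_eq_mul_right hp.pos h⟩

theorem sqf_ne {S : Set ℕ} {Y m : ℕ} (hm : m ∈ sqf S Y) : m ≠ 0 ∧ m ≤ Y := by
  simp only [sqf, Finset.mem_filter, Finset.mem_range] at hm
  exact ⟨hm.2.1.ne_zero, by omega⟩

theorem sqf_mul {S : Set ℕ} (hS : ∀ p ∈ S, p.Prime) {X Y m p : ℕ} (hm : m ∈ sqf S Y) (hp : p ∈ S)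
    (hY : Y < p) (h : m * p ≤ X) : m * p ∈ sqf S X := by
  have h1 := sqf_ne hm
  simp only [sqf, Finset.mem_filter, Finset.mem_range] at hm ⊢
  refine ⟨by omega, ?_, ?_⟩
  · rw [Nat.squarefree_mul_iff]
    refine ⟨?_, hm.2.1, (hS p hp).prime.squarefree⟩
    rw [Nat.coprime_comm, (hS p hp).coprime_iff_not_dvd]
    intro h2
    have := Nat.le_of_dvd (Nat.pos_of_ne_zero h1.1) h2
    omega
  · intro q hq hqd
    rcases hq.dvd_mul.1 hqd with h2 | h2
    · exact hm.2.2 q hq h2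
    · rw [(Nat.prime_dvd_prime_iff_eq hq (hS p hp)).1 h2]; exact hp

/-- sum of the reciprocals -/
noncomputable def Sg (S : Set ℕ) (Y : ℕ) : ℝ := ∑ m ∈ sqf S Y, (1 : ℝ) / m

noncomputable def Gp (S : Set ℕ) (Y : ℕ) : ℝ := ∑ p ∈ upTo S Y, (1 : ℝ) / p

theorem upTo_mono {S : Set ℕ} {a b : ℕ} (h : a ≤ b) : upTo S a ⊆ upTo S b := by
  intro x hx
  simp only [upTo, Finset.mem_filter, Finset.mem_range] at hx ⊢
  exact ⟨by omega, hx.2⟩

theorem sqf_mono {S : Set ℕ} {a b : ℕ} (h : a ≤ b) : sqf S a ⊆ sqf S b := by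
  intro x hx
  simp only [sqf, Finset.mem_filter, Finset.mem_range] at hx ⊢
  exact ⟨by omega, hx.2⟩

theorem growth {S : Set ℕ} (hS : ∀ p ∈ S, p.Prime) {Y Z W : ℕ} (hYZ : Y ≤ Z) (hW : Y * Z ≤ W)
    (hYW : Y ≤ W) :
    Sg S Y * (1 + (Gp S Z - Gp S Y)) ≤ Sg S W := by
  have h1 : Gp S Z - Gp S Y = ∑ p ∈ upTo S Z \ upTo S Y, (1 : ℝ) / p := by
    unfold Gp
    rw [← Finset.sum_sdiff (upTo_mono hYZ)]; ring
  have hmemp : ∀ p ∈ upTo S Z \ upTo S Y, p ∈ S ∧ Y < p ∧ p ≤ Z := by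
    intro p hp
    simp only [upTo, Finset.mem_sdiff, Finset.mem_filter, Finset.mem_range, not_and] at hp
    refine ⟨hp.1.2, ?_, by omega⟩
    by_contra h
    exact hp.2 (by omega) hp.1.2
  have h2 : Sg S Y * (Gp S Z - Gp S Y) =
      ∑ x ∈ sqf S Y ×ˢ (upTo S Z \ upTo S Y), (1 : ℝ) / ((x.1 * x.2 : ℕ) : ℝ) := by
    rw [h1, Sg, Finset.sum_mul_sum, Finset.sum_product]
    refine Finset.sum_congr rfl fun m _ => Finset.sum_congr rfl fun p _ => ?_
    push_cast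
    rw [div_mul_div_comm, one_mul]
  have h3 : ∑ x ∈ sqf S Y ×ˢ (upTo S Z \ upTo S Y), (1 : ℝ) / ((x.1 * x.2 : ℕ) : ℝ) =
      ∑ m ∈ (sqf S Y ×ˢ (upTo S Z \ upTo S Y)).image (fun x => x.1 * x.2), (1 : ℝ) / m := by
    rw [Finset.sum_image]
    rintro ⟨m, p⟩ hx ⟨m', p'⟩ hx' h
    simp only [Finset.coe_product, Set.mem_prod, Finset.mem_coe] at hx hx'
    obtain ⟨hp, hYp, -⟩ := hmemp p hx.2
    obtain ⟨hp', hYp', -⟩ := hmemp p' hx'.2
    obtain ⟨e1, e2⟩ := inj (sqf_ne hx.1).2 (sqf_ne hx'.1).2 (sqf_ne hx'.1).1 (hS p hp) (hS p' hp') hYp h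
    rw [e1, e2]
  have hdis : Disjoint (sqf S Y) ((sqf S Y ×ˢ (upTo S Z \ upTo S Y)).image (fun x => x.1 * x.2)) := by
    rw [Finset.disjoint_left]
    intro m hm hm'
    simp only [Finset.mem_image, Finset.mem_product] at hm'
    obtain ⟨⟨m1, p⟩, ⟨hm1, hp⟩, rfl⟩ := hm'
    have h5 := (sqf_ne hm).2
    have h6 := Nat.pos_of_ne_zero (sqf_ne hm1).1
    have h7 := (hmemp p hp).2.1
    have : p ≤ m1 * p := Nat.le_mul_of_pos_left p h6
    simp only at h5
    omega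
  have hsub : (sqf S Y) ∪ ((sqf S Y ×ˢ (upTo S Z \ upTo S Y)).image (fun x => x.1 * x.2)) ⊆ sqf S W := by
    refine Finset.union_subset (sqf_mono hYW) ?_
    intro m hm
    simp only [Finset.mem_image, Finset.mem_product] at hm
    obtain ⟨⟨m1, p⟩, ⟨hm1, hp⟩, rfl⟩ := hm
    obtain ⟨hp1, hp2, hp3⟩ := hmemp p hp
    exact sqf_mul hS hm1 hp1 hp2 ((Nat.mul_le_mul (sqf_ne hm1).2 hp3).trans hW)
  calc Sg S Y * (1 + (Gp S Z - Gp S Y)) = Sg S Y + Sg S Y * (Gp S Z - Gp S Y) := by ring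
    _ = ∑ m ∈ (sqf S Y) ∪ ((sqf S Y ×ˢ (upTo S Z \ upTo S Y)).image (fun x => x.1 * x.2)),
          (1 : ℝ) / m := by rw [Finset.sum_union hdis, h2, h3, Sg]
    _ ≤ _ := by
      unfold Sg
      exact Finset.sum_le_sum_of_subset_of_nonneg hsub fun _ _ _ => by positivity

/-- the number of products -/
theorem count {S : Set ℕ} (hS : ∀ p ∈ S, p.Prime) {X Y : ℕ} (a : ℝ) (ha : 0 ≤ a)
    (h : ∀ m, 1 ≤ m → m ≤ Y → a / m ≤ ((upTo S (X / m)).card : ℝ) - ((upTo S Y).card : ℝ)) :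
    a * Sg S Y ≤ ((sqf S X).card : ℝ) := by
  have hmemp : ∀ (m p : ℕ), p ∈ upTo S (X / m) \ upTo S Y → p ∈ S ∧ Y < p ∧ p ≤ X / m := by
    intro m p hp
    simp only [upTo, Finset.mem_sdiff, Finset.mem_filter, Finset.mem_range, not_and] at hp
    refine ⟨hp.1.2, ?_, by omega⟩
    by_contra h
    exact hp.2 (by omega) hp.1.2
  have h1 : ((sqf S Y).sigma fun m => upTo S (X / m) \ upTo S Y).card ≤ (sqf S X).card := by
    refine Finset.card_le_card_of_injOn (fun x => x.1 * x.2) ?_ ?_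
    · rintro ⟨m, p⟩ hx
      simp only [Finset.coe_sigma, Set.mem_sigma_iff, Finset.mem_coe] at hx
      obtain ⟨hm, hp⟩ := hx
      obtain ⟨hp1, hp2, hp3⟩ := hmemp m p hp
      refine sqf_mul hS hm hp1 hp2 ?_
      exact (Nat.mul_le_mul_left m hp3).trans (Nat.mul_div_le X m)
    · rintro ⟨m, p⟩ hx ⟨m', p'⟩ hx' h
      simp only [Finset.coe_sigma, Set.mem_sigma_iff, Finset.mem_coe] at hx hx'
      obtain ⟨hm, hp⟩ := hx
      obtain ⟨hm', hp'⟩ := hx'
      obtain ⟨hp1, hp2, hp3⟩ := hmemp m p hp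
      obtain ⟨hp1', hp2', hp3'⟩ := hmemp m' p' hp'
      obtain ⟨e1, e2⟩ := inj (sqf_ne hm).2 (sqf_ne hm').2 (sqf_ne hm').1 (hS p hp1) (hS p' hp1') hp2 h
      subst e1; subst e2; rfl
  rw [Finset.card_sigma] at h1
  have h2 : (∑ m ∈ sqf S Y, ((upTo S (X / m) \ upTo S Y).card : ℝ)) ≤ ((sqf S X).card : ℝ) := by
    exact_mod_cast h1
  refine le_trans ?_ h2
  rw [Sg, Finset.mul_sum]
  refine Finset.sum_le_sum fun m hm => ?_
  have h3 := h m (Nat.pos_of_ne_zero (sqf_ne hm).1) (sqf_ne hm).2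
  rw [mul_one_div]
  refine h3.trans ?_
  have h4 := Finset.le_card_sdiff (upTo S Y) (upTo S (X / m))
  have h5 : ((upTo S (X / m)).card : ℝ) ≤ ((upTo S (X / m) \ upTo S Y).card : ℝ) + ((upTo S Y).card : ℝ) := by
    have : (upTo S (X / m)).card ≤ (upTo S (X / m) \ upTo S Y).card + (upTo S Y).card := by omega
    exact_mod_cast this
  linarith

theorem upTo_le {S : Set ℕ} (hS : ∀ p ∈ S, p.Prime) (n : ℕ) :
    (upTo S n).card ≤ Nat.primeCounting n := by
  rw [Nat.primeCounting, Nat.primeCounting', Nat.count_eq_card_filter_range]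
  refine Finset.card_le_card fun p hp => ?_
  simp only [upTo, Finset.mem_filter] at hp ⊢
  exact ⟨hp.1, hS p hp.2⟩

theorem upTo_le' (S : Set ℕ) (n : ℕ) : (upTo S n).card ≤ n + 1 := by
  refine (Finset.card_filter_le _ _).trans ?_
  simp

theorem blocks {S : Set ℕ} (hS : ∀ p ∈ S, p.Prime) {c : ℝ} (hc : 0 < c)
    (h : ∀ᶠ x : ℕ in atTop, c * (Nat.primeCounting x : ℝ) ≤ ((upTo S x).card : ℝ)) :
    ∃ K : ℕ, 2 ≤ K ∧ ∀ᶠ s : ℕ in atTop,
      1 / (K * s * Real.log K) ≤ Gp S (K ^ (s + 1)) - Gp S (K ^ s) := by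
  obtain ⟨K, hK⟩ := exists_nat_ge (12 / c + 2)
  have hcK : 12 ≤ c * K := by
    have : 12 / c ≤ K := by linarith
    rw [div_le_iff₀ hc] at this; linarith
  have hK2 : (2:ℝ) ≤ K := by
    have : 0 < 12 / c := by positivity
    linarith
  have hK2' : 2 ≤ K := by exact_mod_cast hK2
  refine ⟨K, hK2', ?_⟩
  have hlog : 0 < Real.log K := Real.log_pos (by linarith)
  have ht : Tendsto (fun s : ℕ => K ^ s) atTop atTop := tendsto_pow_atTop_atTop_of_one_lt (by omega)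
  have ht1 : Tendsto (fun s : ℕ => K ^ (s + 1)) atTop atTop := ht.comp (tendsto_add_atTop_nat 1)
  filter_upwards [ht1.eventually h, ht1.eventually cheb_low, ht.eventually cheb_up,
    eventually_ge_atTop 1] with s h1 h2 h3 hs
  have hs' : (1:ℝ) ≤ s := by exact_mod_cast hs
  push_cast at h2 h3
  rw [Real.log_pow] at h2 h3
  push_cast at h2
  have hd : Gp S (K ^ (s + 1)) - Gp S (K ^ s) =
      ∑ p ∈ upTo S (K ^ (s + 1)) \ upTo S (K ^ s), (1 : ℝ) / p := by
    unfold Gp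
    rw [← Finset.sum_sdiff (upTo_mono (Nat.pow_le_pow_right (by omega) (Nat.le_succ s)))]; ring
  have hKp : (0:ℝ) < (K:ℝ) ^ (s + 1) := by positivity
  have h4 : ((upTo S (K ^ (s + 1)) \ upTo S (K ^ s)).card : ℝ) * (1 / (K:ℝ) ^ (s + 1)) ≤
      ∑ p ∈ upTo S (K ^ (s + 1)) \ upTo S (K ^ s), (1 : ℝ) / p := by
    rw [← nsmul_eq_mul]
    refine Finset.card_nsmul_le_sum _ _ _ fun p hp => ?_
    simp only [upTo, Finset.mem_sdiff, Finset.mem_filter, Finset.mem_range] at hp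
    have hp0 : 0 < p := (hS p hp.1.2).pos
    have hp1 : p ≤ K ^ (s + 1) := by omega
    have hp2 : (p:ℝ) ≤ (K:ℝ) ^ (s + 1) := by exact_mod_cast hp1
    have hp3 : (0:ℝ) < p := by exact_mod_cast hp0
    exact one_div_le_one_div_of_le hp3 hp2
  have h5 := Finset.le_card_sdiff (upTo S (K ^ s)) (upTo S (K ^ (s + 1)))
  have h6 : ((upTo S (K ^ (s + 1))).card : ℝ) ≤
      ((upTo S (K ^ (s + 1)) \ upTo S (K ^ s)).card : ℝ) + ((upTo S (K ^ s)).card : ℝ) := by
    have : (upTo S (K ^ (s + 1))).card ≤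
      (upTo S (K ^ (s + 1)) \ upTo S (K ^ s)).card + (upTo S (K ^ s)).card := by omega
    exact_mod_cast this
  have h7 : ((upTo S (K ^ s)).card : ℝ) ≤ 2 * (K:ℝ) ^ s / (s * Real.log K) := by
    refine le_trans ?_ h3
    exact_mod_cast upTo_le hS _
  have h8 : c * ((K:ℝ) ^ (s + 1) / (2 * ((s + 1) * Real.log K))) ≤ ((upTo S (K ^ (s + 1))).card : ℝ) :=
    (mul_le_mul_of_nonneg_left h2 hc.le).trans h1
  rw [hd]
  refine le_trans ?_ h4
  have h9 : c * ((K:ℝ) ^ (s + 1) / (2 * ((s + 1) * Real.log K))) - 2 * (K:ℝ) ^ s / (s * Real.log K) ≤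
      ((upTo S (K ^ (s + 1)) \ upTo S (K ^ s)).card : ℝ) := by linarith
  refine le_trans ?_ (mul_le_mul_of_nonneg_right h9 (by positivity))
  have h10 : (c * ((K:ℝ) ^ (s + 1) / (2 * ((s + 1) * Real.log K))) - 2 * (K:ℝ) ^ s / (s * Real.log K)) *
      (1 / (K:ℝ) ^ (s + 1)) = c / (2 * ((s + 1) * Real.log K)) - 2 / (K * s * Real.log K) := by
    rw [pow_succ]
    field_simp
  rw [h10]
  have h11 : c / (4 * s * Real.log K) ≤ c / (2 * ((s + 1) * Real.log K)) := by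
    apply div_le_div_of_nonneg_left hc.le (by positivity)
    nlinarith
  have h12 : 3 / (K * s * Real.log K) ≤ c / (4 * s * Real.log K) := by
    rw [div_le_div_iff₀ (by positivity) (by positivity)]
    have : 0 < s * Real.log K := by positivity
    nlinarith
  have h13 : 1 / (K * s * Real.log K) + 2 / (K * s * Real.log K) = 3 / (K * s * Real.log K) := by ring
  linarith

theorem Gp_grow {S : Set ℕ} {K : ℕ} (hK : 2 ≤ K) {s₀ : ℕ}
    (h : ∀ s ≥ s₀, 1 / (K * s * Real.log K) ≤ Gp S (K ^ (s + 1)) - Gp S (K ^ s)) {i : ℕ}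
    (hi : s₀ ≤ i) (hi1 : 1 ≤ i) : 1 / (2 * K * Real.log K) ≤ Gp S (K ^ (2 * i)) - Gp S (K ^ i) := by
  have hK2 : (2:ℝ) ≤ K := by exact_mod_cast hK
  have hlog : 0 < Real.log K := Real.log_pos (by linarith)
  have hi' : (1:ℝ) ≤ i := by exact_mod_cast hi1
  have key : ∀ m : ℕ, m ≤ i → (m:ℝ) * (1 / (2 * i * K * Real.log K)) ≤
      Gp S (K ^ (i + m)) - Gp S (K ^ i) := by
    intro m
    induction m with
    | zero => intro _; simp
    | succ m ih =>
      intro hm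
      have h1 := ih (by omega)
      have h2 := h (i + m) (by omega)
      have hm' : ((m:ℝ)) + 1 ≤ i := by exact_mod_cast hm
      have h3 : 1 / (2 * i * K * Real.log K) ≤ 1 / (K * ((i + m : ℕ) : ℝ) * Real.log K) := by
        push_cast
        apply one_div_le_one_div_of_le (by positivity)
        have : 0 < K * Real.log K := by positivity
        nlinarith
      rw [show i + (m + 1) = i + m + 1 by ring]
      push_cast at h1 h2 h3 ⊢
      linarith
  have h4 := key i le_rfl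
  rw [← two_mul] at h4
  refine le_trans (le_of_eq ?_) h4
  field_simp

theorem Sg_grow {S : Set ℕ} (hS : ∀ p ∈ S, p.Prime) {c : ℝ} (hc : 0 < c)
    (h : ∀ᶠ x : ℕ in atTop, c * (Nat.primeCounting x : ℝ) ≤ ((upTo S x).card : ℝ)) :
    ∃ K : ℕ, 2 ≤ K ∧ ∃ c₁ : ℝ, 0 < c₁ ∧ ∃ s₀ : ℕ, ∀ i₀, s₀ ≤ i₀ → ∀ j : ℕ,
      (1 + c₁) ^ j ≤ Sg S (K ^ (3 ^ j * i₀)) := by
  obtain ⟨K, hK, hev⟩ := blocks hS hc h
  obtain ⟨s₀, hs₀⟩ := eventually_atTop.1 hev
  have hK2 : (2:ℝ) ≤ K := by exact_mod_cast hK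
  have hlog : 0 < Real.log K := Real.log_pos (by linarith)
  refine ⟨K, hK, 1 / (2 * K * Real.log K), by positivity, s₀ + 1, fun i₀ hi₀ j => ?_⟩
  induction j with
  | zero =>
    rw [pow_zero]
    have h1 : 1 ∈ sqf S (K ^ (3 ^ 0 * i₀)) := by
      simp only [sqf, Finset.mem_filter, Finset.mem_range]
      refine ⟨?_, squarefree_one, fun p hp hd => absurd (Nat.dvd_one.1 hd) hp.ne_one⟩
      have : 0 < K ^ (3 ^ 0 * i₀) := by positivity
      omega
    have h2 := Finset.single_le_sum (f := fun m : ℕ => (1:ℝ) / m) (fun m _ => by positivity) h1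
    simpa [Sg] using h2
  | succ j ih =>
    have hpos : 1 ≤ 3 ^ j := Nat.one_le_pow _ _ (by norm_num)
    have hi : i₀ ≤ 3 ^ j * i₀ := Nat.le_mul_of_pos_left _ (by omega)
    have h1 := Gp_grow hK hs₀ (i := 3 ^ j * i₀) (by omega) (by omega)
    have h2 := growth hS (Y := K ^ (3 ^ j * i₀)) (Z := K ^ (2 * (3 ^ j * i₀)))
      (W := K ^ (3 ^ (j + 1) * i₀)) (Nat.pow_le_pow_right (by omega) (by omega))
      (by rw [← pow_add]; exact Nat.pow_le_pow_right (by omega) (by rw [pow_succ]; nlinarith))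
      (Nat.pow_le_pow_right (by omega) (by rw [pow_succ]; nlinarith))
    refine le_trans ?_ h2
    rw [pow_succ]
    have h3 : 0 ≤ Sg S (K ^ (3 ^ j * i₀)) := by unfold Sg; positivity
    have hc1 : 0 < 1 / (2 * K * Real.log K) := by positivity
    exact mul_le_mul ih (by linarith) (by linarith) h3

theorem main : S_CNT := by
  intro S c hS hc h
  obtain ⟨K, hK, c₁, hc₁, s₀, hsg⟩ := Sg_grow hS hc h
  obtain ⟨N₁, hN₁⟩ := eventually_atTop.1 (h.and cheb_low)
  have hK2 : (2:ℝ) ≤ K := by exact_mod_cast hK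
  have hlogK : 0 < Real.log K := Real.log_pos (by linarith)
  obtain ⟨N₂, hN₂⟩ := exists_nat_ge (192 / c)
  set i₀ : ℕ := s₀ + N₁ + N₂ + 2 with hi₀
  set Yf : ℕ → ℕ := fun j => K ^ (3 ^ j * i₀) with hYf
  have hi₀j : ∀ j, i₀ ≤ 3 ^ j * i₀ := fun j => Nat.le_mul_of_pos_left _ (by positivity)
  have hYi : ∀ j, i₀ ≤ Yf j := fun j =>
    ((hi₀j j).trans (Nat.lt_pow_self (by omega)).le)
  set δ₀ : ℝ := Real.log (1 + c₁) / Real.log 3 with hδ₀
  have hlog3 : 0 < Real.log 3 := Real.log_pos (by norm_num)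
  have hδ₀p : 0 < δ₀ := div_pos (Real.log_pos (by linarith)) hlog3
  set C₂ : ℝ := 12 * i₀ * Real.log K with hC₂
  have hi₀p : (0:ℝ) < i₀ := by rw [hi₀]; positivity
  have hC₂p : 0 < C₂ := by positivity
  refine ⟨δ₀ / 2, by positivity, ?_⟩
  have hl : Tendsto (fun X : ℕ => Real.log X) atTop atTop :=
    Real.tendsto_log_atTop.comp tendsto_natCast_atTop_atTop
  have hl2 : Tendsto (fun X : ℕ => Real.log X ^ (δ₀ / 2)) atTop atTop :=
    (tendsto_rpow_atTop (by positivity)).comp hl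
  filter_upwards [eventually_ge_atTop (Yf 0 ^ 4), hl2.eventually (eventually_ge_atTop (8 * C₂ ^ δ₀ / c))]
    with X hX0 hX1
  -- choose j
  have hex : ∃ j, X < Yf j ^ 4 := by
    refine ⟨X, ?_⟩
    have h1 : X < 3 ^ X := Nat.lt_pow_self (by norm_num)
    have h2 : X < Yf X := by
      have : 3 ^ X * i₀ < K ^ (3 ^ X * i₀) := Nat.lt_pow_self (by omega)
      have h3 : 3 ^ X ≤ 3 ^ X * i₀ := Nat.le_mul_of_pos_right _ (by omega)
      simp only [hYf]; omega
    exact h2.trans_le (Nat.le_self_pow (by norm_num) _)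
  obtain ⟨j, hj1, hj2⟩ : ∃ j, Yf j ^ 4 ≤ X ∧ X < Yf (j + 1) ^ 4 := by
    have h1 : Nat.find hex ≠ 0 := by
      intro h0
      have := Nat.find_spec hex
      rw [h0] at this; omega
    obtain ⟨j, hj⟩ := Nat.exists_eq_succ_of_ne_zero h1
    refine ⟨j, ?_, ?_⟩
    · have := Nat.find_min hex (m := j) (by omega)
      omega
    · have := Nat.find_spec hex
      rwa [hj] at this
  set Y := Yf j with hY
  have hY0 : i₀ ≤ Y := hYi j
  have hYpos : 0 < Y := by omega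
  have hYr : (0:ℝ) < Y := by exact_mod_cast hYpos
  have hY12 : Yf (j + 1) = Y ^ 3 := by
    simp only [hY, hYf]; rw [← pow_mul]; congr 1; ring
  have hX12 : X < Y ^ 12 := by
    have : Yf (j + 1) ^ 4 = Y ^ 12 := by rw [hY12, ← pow_mul]
    omega
  have hYr2 : (2:ℝ) ≤ Y := by
    have : 2 ≤ Y := by omega
    exact_mod_cast this
  have hYc : 192 / c ≤ Y := hN₂.trans (by
    have : N₂ ≤ Y := by omega
    exact_mod_cast this)
  have hXr : ((Y:ℝ)) ^ 4 ≤ X := by exact_mod_cast hj1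
  have hXr1 : (1:ℝ) < X := by
    have h4 : (2:ℝ) ^ 4 ≤ (Y:ℝ) ^ 4 := pow_le_pow_left₀ (by norm_num) hYr2 4
    linarith [show (2:ℝ) ^ 4 = 16 by norm_num]
  have hXr12 : (X:ℝ) < (Y:ℝ) ^ 12 := by exact_mod_cast hX12
  set L := Real.log X with hL
  have hLp : 0 < L := Real.log_pos hXr1
  have hL12 : L ≤ 12 * Real.log Y := by
    have := Real.log_le_log (by linarith) hXr12.le
    rwa [Real.log_pow] at this
  have hlogY : Real.log Y = 3 ^ j * i₀ * Real.log K := by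
    simp only [hY, hYf]; push_cast; rw [Real.log_pow]; push_cast; ring
  have hLC : L / C₂ ≤ 3 ^ j := by
    rw [div_le_iff₀ hC₂p]
    refine hL12.trans (le_of_eq ?_)
    rw [hlogY, hC₂]; ring
  -- the count
  have hcount : c * X / (8 * L) * Sg S Y ≤ ((sqf S X).card : ℝ) := by
    refine count hS _ (by positivity) ?_
    intro m hm1 hmY
    have hmr : (1:ℝ) ≤ m := by exact_mod_cast hm1
    have hmYr : (m:ℝ) ≤ Y := by exact_mod_cast hmY
    have hn3 : Y ^ 3 ≤ X / m := by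
      rw [Nat.le_div_iff_mul_le (by omega)]
      calc Y ^ 3 * m ≤ Y ^ 3 * Y := Nat.mul_le_mul_left _ hmY
        _ = Y ^ 4 := by ring
        _ ≤ X := hj1
    have hYY : Y ≤ Y ^ 3 := Nat.le_self_pow (by norm_num) Y
    obtain ⟨g1, g2⟩ := hN₁ (X / m) (by omega)
    have hnX : ((X / m : ℕ) : ℝ) ≤ X := by exact_mod_cast Nat.div_le_self X m
    have hn2 : (2:ℝ) ≤ ((X / m : ℕ) : ℝ) := by
      have : 2 ≤ X / m := by omega
      exact_mod_cast this
    have hlogn : 0 < Real.log ((X / m : ℕ) : ℝ) := Real.log_pos (by linarith)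
    have hlogn2 : Real.log ((X / m : ℕ) : ℝ) ≤ L := Real.log_le_log (by linarith) hnX
    have hfl : (X:ℝ) / m ≤ 2 * ((X / m : ℕ) : ℝ) := by
      have h1 : (X:ℝ) / m < ((X / m : ℕ) : ℝ) + 1 := by
        rw [div_lt_iff₀ (by linarith)]
        have := Nat.lt_mul_div_succ X (show 0 < m by omega)
        have h2 : (X:ℝ) < m * (((X / m : ℕ) : ℝ) + 1) := by exact_mod_cast this
        linarith
      linarith
    have e1 : c * (X:ℝ) / (4 * m * L) ≤ ((upTo S (X / m)).card : ℝ) := by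
      refine le_trans ?_ ((mul_le_mul_of_nonneg_left g2 hc.le).trans g1)
      rw [mul_div_assoc]
      refine mul_le_mul_of_nonneg_left ?_ hc.le
      calc (X:ℝ) / (4 * m * L) = (X / m) / (4 * L) := by field_simp
        _ ≤ (2 * ((X / m : ℕ) : ℝ)) / (4 * L) := by gcongr
        _ = ((X / m : ℕ) : ℝ) / (2 * L) := by field_simp; ring
        _ ≤ _ := by gcongr
    have e2 : ((upTo S Y).card : ℝ) ≤ 2 * Y := by
      have := upTo_le' S Y
      have h2 : ((upTo S Y).card : ℝ) ≤ Y + 1 := by exact_mod_cast this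
      linarith
    have e3 : 2 * (Y:ℝ) ≤ c * X / (8 * m * L) := by
      rw [le_div_iff₀ (by positivity)]
      have h1 : Real.log Y ≤ Y := (Real.log_le_sub_one_of_pos hYr).trans (by linarith)
      have h2 : 192 ≤ c * Y := by
        rw [div_le_iff₀ hc] at hYc; linarith
      calc 2 * (Y:ℝ) * (8 * m * L) ≤ 2 * Y * (8 * Y * (12 * Y)) := by
            gcongr
            linarith
        _ = 192 * Y ^ 3 := by ring
        _ ≤ (c * Y) * Y ^ 3 := by gcongr
        _ = c * Y ^ 4 := by ring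
        _ ≤ c * X := by gcongr
    have e4 : c * (X:ℝ) / (4 * m * L) - c * X / (8 * m * L) = c * X / (8 * L) / m := by
      field_simp; ring
    linarith
  refine le_trans ?_ hcount
  have hS1 := hsg i₀ (by omega) j
  have hpow : (L / C₂) ^ δ₀ ≤ (1 + c₁) ^ j := by
    have h1 : (L / C₂) ^ δ₀ ≤ ((3:ℝ) ^ j) ^ δ₀ :=
      Real.rpow_le_rpow (by positivity) hLC hδ₀p.le
    refine h1.trans (le_of_eq ?_)
    rw [← Real.rpow_natCast, ← Real.rpow_mul (by norm_num), mul_comm, Real.rpow_mul (by norm_num),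
      Real.rpow_natCast]
    congr 1
    rw [hδ₀, Real.rpow_def_of_pos (by norm_num), mul_div_cancel₀ _ hlog3.ne',
      Real.exp_log (by linarith)]
  calc (X:ℝ) / L ^ (1 - δ₀ / 2) = X / L * L ^ (δ₀ / 2) := by
        rw [Real.rpow_sub hLp, Real.rpow_one]; field_simp
    _ ≤ X / L * (c / 8 * (L / C₂) ^ δ₀) := by
        refine mul_le_mul_of_nonneg_left ?_ (by positivity)
        rw [Real.div_rpow hLp.le hC₂p.le]
        have h2 : L ^ δ₀ = L ^ (δ₀ / 2) * L ^ (δ₀ / 2) := by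
          rw [← Real.rpow_add hLp]; ring_nf
        have h3 : 0 < C₂ ^ δ₀ := Real.rpow_pos_of_pos hC₂p _
        have h4 : 0 < L ^ (δ₀ / 2) := Real.rpow_pos_of_pos hLp _
        rw [h2]
        have h5 : 8 * C₂ ^ δ₀ ≤ L ^ (δ₀ / 2) * c := by
          rwa [div_le_iff₀ hc] at hX1
        rw [show c / 8 * (L ^ (δ₀ / 2) * L ^ (δ₀ / 2) / C₂ ^ δ₀) =
          L ^ (δ₀ / 2) * (L ^ (δ₀ / 2) * c / (8 * C₂ ^ δ₀)) by field_simp]
        refine le_mul_of_one_le_right h4.le ?_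
        rw [one_le_div (by positivity)]
        exact h5
    _ ≤ X / L * (c / 8 * Sg S Y) := by
        have h6 : (L / C₂) ^ δ₀ ≤ Sg S Y := hpow.trans hS1
        gcongr
    _ = c * X / (8 * L) * Sg S Y := by field_simp

end CNTp

theorem t_CNT : S_CNT := CNTp.main

end Pool.Agent.H30Q
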