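import Pool.Agent.H30Q.HS

/-!
# Project HQ, piece EE: properties of the symbol (helper58)
-/

set_option autoImplicit false
set_option linter.all false

open Polynomial IsDedekindDomain Matrix NumberField
open scoped Classical

namespace Pool.Agent.H30Q

open Pool.Agent.N202.M4 (hil IsSymbol hasse)
open Pool.Agent.N424.M4 (sq_one h_one h_sq h_prod)

namespace EEp

variable {E : Type} [Field E]

theorem pow_odd {h : E → E → ℤ} (hs : IsSymbol h) (a b : E) {m : ℕ} (hm : Odd m) :
    h a b ^ m = h a b := by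
  obtain ⟨k, rfl⟩ := hm
  rw [pow_succ, pow_mul, sq, sq_one hs, one_pow, one_mul]

theorem Hs_sq {n : ℕ} (M : Matrix (Fin n) (Fin n) E) : Hs M * Hs M = 1 := by
  unfold Hs
  split_ifs <;> norm_num

theorem nm_mul (F a b : E[X]) : nm F (a * b) = nm F a * nm F b := by
  unfold nm
  rw [map_mul, map_mul]

theorem nm_one (F : E[X]) : nm F 1 = 1 := by
  unfold nm
  rw [map_one, map_one]

theorem coprime_mul {F a b : E[X]} (ha : IsCoprime a F) (hb : IsCoprime b F) :
    IsCoprime (a * b) F := ha.mul_left hb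

end EEp

open EEp in
/-- **EE.** -/
theorem t_EE : S_EE := by
  intro hHS hA hB E _ _ hs n F δ a hn hev hF hdeg hδ ha
  obtain ⟨A1, A2, A3, A4, A5⟩ := hA E n F hn hF hdeg
  obtain ⟨B1, B2, -⟩ := hB E n F hn hF hdeg
  set d1 : E := (Gn n F 1).det with hd1
  have hd0 : d1 ≠ 0 := by
    intro h0
    rw [h0] at A5
    norm_num at A5
  have hnm : ∀ b, IsCoprime b F → nm F b ≠ 0 := fun b hb => ((B2 b).2 hb).ne_zero
  have hdet : ∀ b, IsCoprime b F → (Gn n F b).det ≠ 0 := by
    intro b hb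
    rw [B1]
    exact mul_ne_zero (hnm b hb) hd0
  have hodd : Odd (n - 1) := by
    obtain ⟨k, hk⟩ := hev
    exact ⟨k - 1, by omega⟩
  -- the constant
  set K : E → ℤ := fun u => hil E u d1 * hil E u u ^ (n * (n - 1) / 2) with hK
  have hKK : ∀ u, K u * K u = 1 := by
    intro u
    rw [hK]
    have h1 := sq_one hs u d1
    have h2 := sq_one hs u u
    calc hil E u d1 * hil E u u ^ (n * (n - 1) / 2) * (hil E u d1 * hil E u u ^ (n * (n - 1) / 2))
        = (hil E u d1 * hil E u d1) * (hil E u u * hil E u u) ^ (n * (n - 1) / 2) := by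
          rw [mul_pow]; ring
      _ = 1 := by rw [h1, h2, one_pow, one_mul]
  -- scaling and squares
  have key : ∀ (b s : E[X]) (u : E), IsCoprime b F → IsCoprime s F → u ≠ 0 →
      Hs (Gn n F (C u * (b * s ^ 2))) = Hs (Gn n F b) * (hil E u (nm F b) * K u) := by
    intro b s u hb hs' hu
    obtain ⟨T, hT, hTe⟩ := A4 b s hs'
    have hTd : T.det ≠ 0 := hT.ne_zero
    rw [A3]
    have hsy : (Gn n F (b * s ^ 2)).IsSymm := A1 _
    have hcop : IsCoprime (b * s ^ 2) F := hb.mul_left hs'.pow_left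
    rw [(hHS E hs n _ hsy (hdet _ hcop)).2 u hu]
    have h1 : Hs (Gn n F (b * s ^ 2)) = Hs (Gn n F b) := by
      rw [hTe]
      exact (hHS E hs n _ (A1 b) (hdet b hb)).1 T hTd
    have h2 : (Gn n F (b * s ^ 2)).det = nm F b * d1 * T.det ^ 2 := by
      rw [hTe, Matrix.det_mul, Matrix.det_mul, Matrix.det_transpose, B1]
      ring
    rw [h1, h2, h_sq hs hu (mul_ne_zero (hnm b hb) hd0) hTd, pow_odd hs _ _ hodd,
      hs.mul u _ _ hu (hnm b hb) hd0, hK]
    ring
  have key2 : ∀ (b b' s : E[X]), IsCoprime b F → IsCoprime s F → F ∣ b' - b * s ^ 2 →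
      Hs (Gn n F b') = Hs (Gn n F b) := by
    intro b b' s hb hs' hd
    obtain ⟨T, hT, hTe⟩ := A4 b s hs'
    rw [A2 b' _ hd, hTe]
    exact (hHS E hs n _ (A1 b) (hdet b hb)).1 T hT.ne_zero
  have c1 : IsCoprime (1 : E[X]) F := isCoprime_one_left
  have hsqr : ∀ u : E, u ≠ 0 → ∀ x : E, x ≠ 0 → IsSquare x → hil E u x = 1 := by
    rintro u hu x hx ⟨r, rfl⟩
    have hr : r ≠ 0 := by
      rintro rfl
      exact hx (mul_zero 0)
    rw [hs.mul u r r hu hr hr, sq_one hs]
  refine ⟨?_, ?_, ?_, ?_⟩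
  · intro δ' s u hu hs' hd hsq
    have h1 : Gn n F (δ' * a) = Gn n F (C u * ((δ * a) * s ^ 2)) := by
      apply A2
      have : δ' * a - C u * (δ * a * s ^ 2) = (δ' - C u * δ * s ^ 2) * a := by ring
      rw [this]
      exact hd.mul_right a
    have h2 : Gn n F δ' = Gn n F (C u * (δ * s ^ 2)) := by
      apply A2
      have : δ' - C u * (δ * s ^ 2) = δ' - C u * δ * s ^ 2 := by ring
      rw [this]
      exact hd
    have h3 : hil E u (nm F (δ * a)) = hil E u (nm F δ) := by
      rw [nm_mul, hs.mul u _ _ hu (hnm _ hδ) (hnm _ ha), hsqr u hu _ (hnm _ ha) hsq, mul_one]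
    unfold ee
    rw [h1, h2, key _ s u (hδ.mul_left ha) hs' hu, key _ s u hδ hs' hu, h3]
    have h4 := sq_one hs u (nm F δ)
    have h5 := hKK u
    calc Hs (Gn n F (δ * a)) * (hil E u (nm F δ) * K u) * (Hs (Gn n F δ) * (hil E u (nm F δ) * K u)) *
          Hs (Gn n F a) * Hs (Gn n F 1)
        = Hs (Gn n F (δ * a)) * Hs (Gn n F δ) * Hs (Gn n F a) * Hs (Gn n F 1) *
          (hil E u (nm F δ) * hil E u (nm F δ)) * (K u * K u) := by ring
      _ = _ := by rw [h4, h5, mul_one, mul_one]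
  · intro a' s hs' hd
    unfold ee
    rw [key2 a a' s ha hs' hd, key2 (δ * a) (δ * a') s (hδ.mul_left ha) hs' (by
      have : δ * a' - δ * a * s ^ 2 = δ * (a' - a * s ^ 2) := by ring
      rw [this]
      exact hd.mul_left δ)]
  · intro c s hc hs' hd
    have h1 : Gn n F (δ * a) = Gn n F (C c * (δ * s ^ 2)) := by
      apply A2
      have : δ * a - C c * (δ * s ^ 2) = δ * (a - C c * s ^ 2) := by ring
      rw [this]
      exact hd.mul_left δ
    have h2 : Gn n F a = Gn n F (C c * (1 * s ^ 2)) := by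
      apply A2
      rw [one_mul]
      exact hd
    unfold ee
    rw [h1, h2, key _ s c hδ hs' hc, key _ s c c1 hs' hc, nm_one, h_one hs hc]
    have h5 := hKK c
    have h6 := Hs_sq (Gn n F δ)
    have h7 := Hs_sq (Gn n F 1)
    calc Hs (Gn n F δ) * (hil E c (nm F δ) * K c) * Hs (Gn n F δ) * (Hs (Gn n F 1) * (1 * K c)) *
          Hs (Gn n F 1)
        = hil E c (nm F δ) * (Hs (Gn n F δ) * Hs (Gn n F δ)) * (Hs (Gn n F 1) * Hs (Gn n F 1)) *
          (K c * K c) := by ring
      _ = _ := by rw [h5, h6, h7, mul_one, mul_one, mul_one]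
  · intro u s hu hs' hd hsq
    have h1 : Gn n F (δ * a) = Gn n F (C u * (a * s ^ 2)) := by
      apply A2
      have : δ * a - C u * (a * s ^ 2) = (δ - C u * s ^ 2) * a := by ring
      rw [this]
      exact hd.mul_right a
    have h2 : Gn n F δ = Gn n F (C u * (1 * s ^ 2)) := by
      apply A2
      rw [one_mul]
      exact hd
    unfold ee
    rw [h1, h2, key _ s u ha hs' hu, key _ s u c1 hs' hu, nm_one, h_one hs hu,
      hsqr u hu _ (hnm _ ha) hsq]
    have h5 := hKK u
    have h6 := Hs_sq (Gn n F a)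
    have h7 := Hs_sq (Gn n F 1)
    calc Hs (Gn n F a) * (1 * K u) * (Hs (Gn n F 1) * (1 * K u)) * Hs (Gn n F a) * Hs (Gn n F 1)
        = (Hs (Gn n F a) * Hs (Gn n F a)) * (Hs (Gn n F 1) * Hs (Gn n F 1)) * (K u * K u) := by ring
      _ = _ := by rw [h5, h6, h7, mul_one, mul_one]

end Pool.Agent.H30Q
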