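import Pool.Agent.H30Q.Stm
import Pool.Agent.N644.PQ.HunC

/-! Project HQ (helper30), piece EVN (helper50): even valuations give an unramified class. -/

set_option autoImplicit false
set_option linter.all false

open Polynomial IsDedekindDomain Matrix NumberField
open scoped Classical

namespace Pool.Agent.H30Q.EVNP

open Pool.Agent.N874.PP (Ev)

variable {L : Type} [Field L] [NumberField L]

lemma aeval_ov (θ : L) (A : ℤ[X]) : aeval θ (ov ℚ A) = aeval θ A := by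
  have h : Int.castRingHom ℚ = algebraMap ℤ ℚ := rfl
  change aeval θ (A.map (Int.castRingHom ℚ)) = _
  rw [h, aeval_map_algebraMap]

lemma ov_dvd {n : ℕ} {f : ℤ[X]} {θ : L} (hR : Rt n f θ) (h : ℚ[X]) (h0 : aeval θ h = 0) :
    ov ℚ f ∣ h := by
  have hm : (ov ℚ f).Monic := hR.mon.map _
  have h1 : ov ℚ f = minpoly ℚ θ := by
    refine minpoly.eq_of_irreducible_of_monic hR.irr ?_ hm
    rw [aeval_ov]
    exact hR.root
  rw [h1]
  exact minpoly.dvd ℚ θ h0

lemma int_dvd {n : ℕ} {f : ℤ[X]} {θ : L} (hR : Rt n f θ) (h : ℤ[X]) (h0 : aeval θ h = 0) :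
    f ∣ h := by
  have h1 := ov_dvd hR (ov ℚ h) (by rw [aeval_ov]; exact h0)
  exact (Polynomial.map_dvd_map (Int.castRingHom ℚ) (Int.cast_injective) hR.mon).1 h1

lemma surj {n : ℕ} {f : ℤ[X]} {θ : L} (hR : Rt n f θ) (x : L) : ∃ h : ℚ[X], aeval θ h = x := by
  have hm : (ov ℚ f).Monic := hR.mon.map _
  have h1 : ov ℚ f = minpoly ℚ θ := by
    refine minpoly.eq_of_irreducible_of_monic hR.irr ?_ hm
    rw [aeval_ov]
    exact hR.root
  have h2 : (minpoly ℚ θ).natDegree = Module.finrank ℚ L := by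
    rw [← h1, hR.rank, ← hR.deg]
    exact hR.mon.natDegree_map _
  have h3 := (Field.primitive_element_iff_minpoly_natDegree_eq ℚ θ).2 h2
  have h4 : x ∈ IntermediateField.adjoin ℚ {θ} := by rw [h3]; trivial
  have h5 : x ∈ (IntermediateField.adjoin ℚ {θ}).toSubalgebra := h4
  rw [IntermediateField.adjoin_simple_toSubalgebra_of_isAlgebraic
      (Algebra.IsAlgebraic.isAlgebraic θ),
    Algebra.adjoin_singleton_eq_range_aeval] at h5
  obtain ⟨h, hh⟩ := h5
  exact ⟨h, hh⟩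

lemma hint (a : L) : ∃ N : ℤ, N ≠ 0 ∧ ∃ z : 𝓞 L, algebraMap (𝓞 L) L z = N * a := by
  obtain ⟨y, hy, h⟩ := IsAlgebraic.exists_integral_multiple
    ((IsFractionRing.isAlgebraic_iff ℤ ℚ L).2 (Algebra.IsAlgebraic.isAlgebraic (R := ℚ) a))
  exact ⟨y, hy, ⟨y • a, h⟩, by
    change (y • a : L) = _
    rw [zsmul_eq_mul]⟩

end Pool.Agent.H30Q.EVNP

namespace Pool.Agent.H30Q

open EVNP in
theorem t_EVN : S_EVN := by
  intro n W f L _ _ θ hR hG p _ hpW A hA hEv
  have hp : p.Prime := Fact.out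
  -- even valuations
  have hp0 : (p : 𝓞 L) ≠ 0 := by exact_mod_cast hp.ne_zero
  have hfin := Pool.Agent.N644.PQ.HunC.finite_over (O := 𝓞 L) (p : 𝓞 L) hp0
  have hy : ∀ v : HeightOneSpectrum (𝓞 L), ∃ y : L, (p : 𝓞 L) ∈ v.asIdeal →
      v.valuation L (aeval θ A) = v.valuation L y ^ 2 := by
    intro v
    by_cases hv : (p : 𝓞 L) ∈ v.asIdeal
    · obtain ⟨y, hy⟩ := hEv v hv
      exact ⟨y, fun _ => hy⟩
    · exact ⟨0, fun h => absurd h hv⟩
  choose y hy using hy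
  obtain ⟨s, hs0, hs⟩ := Pool.Agent.N644.PQ.HunC.approx (O := 𝓞 L) (L := L) hfin.toFinset y (by
    intro v hv h0
    rw [Set.Finite.mem_toFinset] at hv
    have h1 := hy v hv
    rw [h0, map_zero, zero_pow two_ne_zero] at h1
    exact hA ((Valuation.zero_iff _).1 h1))
  set β : L := aeval θ A / s ^ 2 with hβ
  have hβ0 : β ≠ 0 := div_ne_zero hA (pow_ne_zero 2 hs0)
  have hval : ∀ v : HeightOneSpectrum (𝓞 L), (p : 𝓞 L) ∈ v.asIdeal → v.valuation L β = 1 := by
    intro v hv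
    rw [hβ, map_div₀, map_pow, hs v (by rw [Set.Finite.mem_toFinset]; exact hv), hy v hv]
    apply div_self
    rw [← hy v hv]
    exact (Valuation.ne_zero_iff _).2 hA
  obtain ⟨m, hm, z, hz⟩ := Pool.Agent.N644.PQ.HunC.den (O := 𝓞 L) (L := L) hint p hp β
    (fun v hv => (hval v hv).le)
  obtain ⟨m', hm', z', hz'⟩ := Pool.Agent.N644.PQ.HunC.den (O := 𝓞 L) (L := L) hint p hp β⁻¹
    (fun v hv => by rw [map_inv₀, hval v hv, inv_one])
  obtain ⟨B, hB⟩ := hG.ord z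
  obtain ⟨B', hB'⟩ := hG.ord z'
  obtain ⟨t, ht⟩ := surj hR s
  have hz1 : (z : L) = m * β := hz
  have hz1' : (z' : L) = m' * β⁻¹ := hz'
  -- `B * B'` is a constant modulo `f`
  have hBB : f ∣ B * B' - C ((W : ℤ) * m * (W * m')) := by
    apply int_dvd hR
    rw [map_sub, map_mul, ← hB, ← hB', hz1, hz1', aeval_C]
    push_cast
    field_simp
    simp
  have hcu : IsUnit (((W : ℤ) * m * (W * m') : ℤ) : ℤ_[p]) := by
    have hu : ∀ k : ℤ, ¬ (p : ℤ) ∣ k → IsUnit (k : ℤ_[p]) := by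
      intro k hk
      rw [PadicInt.isUnit_iff]
      refine le_antisymm (PadicInt.norm_le_one _) ?_
      by_contra hcon
      rw [not_le, PadicInt.norm_int_lt_one_iff_dvd] at hcon
      exact hk hcon
    apply hu
    intro hd
    have hpi : Prime (p : ℤ) := Nat.prime_iff_prime_int.1 hp
    rcases hpi.dvd_or_dvd hd with h | h
    · rcases hpi.dvd_or_dvd h with h | h
      · exact hpW (by exact_mod_cast h)
      · exact hm h
    · rcases hpi.dvd_or_dvd h with h | h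
      · exact hpW (by exact_mod_cast h)
      · exact hm' h
  have hWm : IsUnit (((W : ℤ) * m : ℤ) : ℤ_[p]) := by
    push_cast at hcu ⊢
    exact (isUnit_of_mul_isUnit_left hcu)
  obtain ⟨u, hu⟩ := hWm
  refine ⟨C ((u⁻¹ : (ℤ_[p])ˣ) : ℤ_[p]) * B.map (Int.castRingHom ℤ_[p]), oq ℚ_[p] t, ?_, ?_, ?_⟩
  · obtain ⟨Q, hQ⟩ := hBB
    obtain ⟨w, hw⟩ := hcu
    have h1 := congrArg (Polynomial.map (Int.castRingHom ℤ_[p])) hQ
    rw [Polynomial.map_sub, Polynomial.map_mul, Polynomial.map_mul, Polynomial.map_C] at h1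
    have h2 : (Int.castRingHom ℤ_[p]) ((W : ℤ) * m * (W * m')) = (w : ℤ_[p]) := hw.symm
    rw [h2] at h1
    have hCu : (C ((w⁻¹ : (ℤ_[p])ˣ) : ℤ_[p]) : ℤ_[p][X]) * C (w : ℤ_[p]) = 1 := by
      rw [← C_mul, Units.inv_mul, C_1]
    have hCu2 : (C ((u : (ℤ_[p])ˣ) : ℤ_[p]) : ℤ_[p][X]) * C ((u⁻¹ : (ℤ_[p])ˣ) : ℤ_[p]) = 1 := by
      rw [← C_mul, Units.mul_inv, C_1]
    refine ⟨C ((w⁻¹ : (ℤ_[p])ˣ) : ℤ_[p]) * C (u : ℤ_[p]) * B'.map (Int.castRingHom ℤ_[p]),
      - C ((w⁻¹ : (ℤ_[p])ˣ) : ℤ_[p]) * Q.map (Int.castRingHom ℤ_[p]), ?_⟩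
    linear_combination (C ((w⁻¹ : (ℤ_[p])ˣ) : ℤ_[p]) : ℤ_[p][X]) * h1 + hCu +
      (C ((w⁻¹ : (ℤ_[p])ˣ) : ℤ_[p]) : ℤ_[p][X]) * B'.map (Int.castRingHom ℤ_[p]) *
        B.map (Int.castRingHom ℤ_[p]) * hCu2
  · -- `t` is coprime to `f`
    have h1 : IsCoprime t (ov ℚ f) := by
      apply IsCoprime.symm
      rw [hR.irr.coprime_iff_not_dvd]
      intro hd
      apply hs0
      rw [← ht]
      obtain ⟨q, rfl⟩ := hd
      rw [map_mul, aeval_ov, hR.root, zero_mul]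
    have h2 := h1.map (Polynomial.mapRingHom (Rat.castHom ℚ_[p]))
    simp only [coe_mapRingHom] at h2
    have h3 : (ov ℚ f).map (Rat.castHom ℚ_[p]) = ov ℚ_[p] f := by
      change (f.map _).map _ = _
      rw [Polynomial.map_map, RingHom.ext_int ((Rat.castHom ℚ_[p]).comp (Int.castRingHom ℚ)) (Int.castRingHom ℚ_[p])]
    rw [h3] at h2
    exact h2
  · have h0 : (W : ℚ) * m ≠ 0 := by
      have h1 : ((W : ℤ) * m : ℤ) ≠ 0 := by
        intro h
        apply hm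
        have hW : W ≠ 0 := hG.ne
        have : m = 0 := by
          rcases mul_eq_zero.1 h with h | h
          · exact absurd (by exact_mod_cast h) hW
          · exact h
        rw [this]
        exact dvd_zero _
      exact_mod_cast h1
    have h1 : ov ℚ f ∣ ov ℚ A - C (((W : ℚ) * m)⁻¹) * ov ℚ B * t ^ 2 := by
      apply ov_dvd hR
      have h0' : (W : L) * m ≠ 0 := by exact_mod_cast h0
      rw [map_sub, map_mul, map_mul, map_pow, aeval_ov, aeval_ov, ht, ← hB, hz1, hβ, aeval_C]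
      have hW0 : (W : L) ≠ 0 := left_ne_zero_of_mul h0'
      have hm0 : (m : L) ≠ 0 := right_ne_zero_of_mul h0'
      simp only [map_inv₀, map_mul, map_natCast, map_intCast]
      field_simp
      ring
    have h2 := Polynomial.map_dvd (Rat.castHom ℚ_[p]) h1
    have h3 : ∀ g : ℤ[X], (ov ℚ g).map (Rat.castHom ℚ_[p]) = ov ℚ_[p] g := by
      intro g
      change (g.map _).map _ = _
      rw [Polynomial.map_map, RingHom.ext_int ((Rat.castHom ℚ_[p]).comp (Int.castRingHom ℚ)) (Int.castRingHom ℚ_[p])]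
    rw [Polynomial.map_sub, Polynomial.map_mul, Polynomial.map_mul, Polynomial.map_pow, h3, h3, h3,
      Polynomial.map_C] at h2
    have h4 : (C ((u⁻¹ : (ℤ_[p])ˣ) : ℤ_[p]) * B.map (Int.castRingHom ℤ_[p])).map
        (algebraMap ℤ_[p] ℚ_[p]) = C ((Rat.castHom ℚ_[p]) ((W * m : ℚ)⁻¹)) * ov ℚ_[p] B := by
      rw [Polynomial.map_mul, Polynomial.map_C, Polynomial.map_map]
      congr 1
      · congr 1
        have h5 : algebraMap ℤ_[p] ℚ_[p] (u : ℤ_[p]) = (W : ℚ_[p]) * m := by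
          rw [hu]
          push_cast
          simp
        have h6 : algebraMap ℤ_[p] ℚ_[p] ((u⁻¹ : (ℤ_[p])ˣ) : ℤ_[p]) *
            algebraMap ℤ_[p] ℚ_[p] (u : ℤ_[p]) = 1 := by
          rw [← map_mul, Units.inv_mul, map_one]
        rw [h5] at h6
        rw [eq_comm, map_inv₀]
        simp only [map_mul, map_natCast, map_intCast]
        exact (eq_inv_of_mul_eq_one_left h6).symm
    rw [h4]
    exact h2

end Pool.Agent.H30Q
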