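import Pool.Agent.H30Q.GMA

/-!
# Project HQ (helper30), piece GMB: determinant, norm and base change

By helper88.
-/

set_option autoImplicit false
set_option linter.all false

open Polynomial IsDedekindDomain Matrix NumberField
open scoped Classical

namespace Pool.Agent.H30Q.GMBP

open Pool.Agent.H30Q.GMAP

variable {E : Type} [CommRing E] [Nontrivial E] {n : ℕ} {F : E[X]}

lemma basis_eq (hF : F.Monic) (j : Fin F.natDegree) :
    AdjoinRoot.powerBasisAux' hF j = AdjoinRoot.mk F (X ^ (j : ℕ)) := by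
  have h := (AdjoinRoot.powerBasis' hF).basis_eq_pow j
  rw [map_pow, AdjoinRoot.mk_X]
  exact h

lemma nm_eq_det (hF : F.Monic) (hd : F.natDegree = n) (b : E[X]) : nm F b = (Ms n F b).det := by
  subst hd
  unfold nm
  rw [Algebra.norm_eq_matrix_det (AdjoinRoot.powerBasisAux' hF), ← Matrix.det_transpose]
  congr 1
  ext i j
  rw [Matrix.transpose_apply, Algebra.leftMulMatrix_eq_repr_mul, basis_eq, ← map_mul,
    AdjoinRoot.powerBasisAux'_repr_apply_to_fun, AdjoinRoot.modByMonicHom_mk]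
  rfl

lemma Ms_map {E' : Type} [CommRing E'] [Nontrivial E'] (φ : E →+* E') (hF : F.Monic) (b : E[X]) :
    Ms n (F.map φ) (b.map φ) = (Ms n F b).map φ := by
  ext i j
  rw [Matrix.map_apply]
  unfold Ms
  rw [Matrix.of_apply, Matrix.of_apply]
  have e : b.map φ * X ^ (i : ℕ) = (b * X ^ (i : ℕ)).map φ := by
    rw [Polynomial.map_mul, Polynomial.map_pow, Polynomial.map_X]
  rw [e, ← Polynomial.map_modByMonic _ hF, Polynomial.coeff_map]

lemma Gn_map {E' : Type} [CommRing E'] [Nontrivial E'] (φ : E →+* E') (hF : F.Monic) (b : E[X]) :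
    (Gn n F b).map φ = Gn n (F.map φ) (b.map φ) := by
  ext i j
  rw [Matrix.map_apply]
  unfold Gn
  rw [Matrix.of_apply, Matrix.of_apply]
  have e : b.map φ * X ^ ((i : ℕ) + j) = (b * X ^ ((i : ℕ) + j)).map φ := by
    rw [Polynomial.map_mul, Polynomial.map_pow, Polynomial.map_X]
  rw [e, ← Polynomial.map_modByMonic _ hF, Polynomial.coeff_map]

lemma isUnit_nm (hF : F.Monic) (hd : F.natDegree = n) (b : E[X]) :
    IsUnit (nm F b) ↔ IsCoprime b F := by
  constructor
  · intro h
    haveI := hF.free_adjoinRoot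
    haveI := hF.finite_adjoinRoot
    have h1 : IsUnit (LinearMap.det (Algebra.lmul E (AdjoinRoot F) (AdjoinRoot.mk F b))) := h
    rw [← LinearMap.isUnit_iff_isUnit_det] at h1
    rw [Module.End.isUnit_iff] at h1
    obtain ⟨y, hy⟩ := h1.2 1
    obtain ⟨q, rfl⟩ := AdjoinRoot.mk_surjective y
    have h2 : AdjoinRoot.mk F (b * q) = AdjoinRoot.mk F 1 := by
      rw [map_mul, map_one]
      exact hy
    obtain ⟨r, hr⟩ := AdjoinRoot.mk_eq_mk.1 h2
    refine ⟨q, -r, ?_⟩
    have h3 : b * q = 1 + F * r := by rw [← hr]; ring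
    linear_combination h3
  · intro h
    rw [nm_eq_det hF hd]
    exact Ms_isUnit hF hd h

end Pool.Agent.H30Q.GMBP

namespace Pool.Agent.H30Q

open GMAP GMBP

theorem t_GMB : S_GMB := by
  intro E _ _ n F h1 hF hd
  refine ⟨?_, fun b => isUnit_nm hF hd b, ?_⟩
  · intro b
    have h2 := Gn_mul hF hd 1 b
    rw [one_mul] at h2
    rw [h2, Matrix.det_mul, nm_eq_det hF hd]
  · intro E' _ _ φ b
    refine ⟨Gn_map φ hF b, ?_⟩
    rw [nm_eq_det hF hd, nm_eq_det (hF.map φ) ((hF.natDegree_map φ).trans hd), Ms_map φ hF,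
      RingHom.map_det]
    rfl

end Pool.Agent.H30Q
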