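import Pool.Agent.H30Q.PI
import Pool.Agent.N446.M4.Sym

/-!
# The symbol is trivial at the good primes (piece GPT of project HQ)
-/

set_option autoImplicit false
set_option linter.all false

open Polynomial

namespace Pool.Agent.H30Q

open Pool.Agent.N202.M4 (hil IsSymbol)

namespace GPTP

open PIP

section

variable {p : ℕ} [Fact p.Prime]

/-- Chinese remainder theorem for `(X - ρ) G` over `ℤ_p` -/
theorem crtZ {ρ : ℤ_[p]} {G : ℤ_[p][X]} (hu : IsUnit (G.eval ρ)) (dG : ℤ_[p][X]) {b : ℤ_[p]} (hb : IsUnit b)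
    (hs : IsCoprime dG G) : ∃ s : ℤ_[p][X], IsCoprime s ((X - C ρ) * G) ∧
      (∃ q, s = dG + G * q) ∧ s.eval ρ = b := by
  obtain ⟨α, β, h⟩ := cop_lin G ρ hu
  obtain ⟨s, hsd⟩ : ∃ s : ℤ_[p][X], s = dG + G * (β * (C b - dG)) := ⟨_, rfl⟩
  have hev : s.eval ρ = b := by
    have h1 := congrArg (fun q => q.eval ρ) h
    simp only [eval_add, eval_mul, eval_sub, eval_X, eval_C, sub_self, mul_zero, zero_add, eval_one] at h1
    rw [hsd]
    simp only [eval_add, eval_mul, eval_sub, eval_C]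
    linear_combination (b - dG.eval ρ) * h1
  refine ⟨s, IsCoprime.mul_right ?_ ?_, ⟨_, hsd⟩, hev⟩
  · refine (cop_lin s ρ ?_).symm
    rw [hev]
    exact hb
  · obtain ⟨a, c, hac⟩ := hs
    refine ⟨a, c - a * (β * (C b - dG)), ?_⟩
    rw [hsd]
    linear_combination hac

/-- the class of a point with `‖x‖ ≤ 1` is unramified -/
theorem unitcl (hp : p ≠ 2) {f : ℤ[X]} {D : ℤ} (hm : f.Monic) (hsep : (rd p f).Separable)
    (hD : ¬ (p : ℤ) ∣ D) {x : ℤ_[p]} {y : ℚ_[p]} (hy : y ≠ 0)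
    (h : y ^ 2 = (D : ℚ_[p]) * (ov ℚ_[p] f).eval (x : ℚ_[p])) :
    UnitCl p f (C (x : ℚ_[p]) - X) := by
  have hmap : ((C x - X : ℤ_[p][X])).map (algebraMap ℤ_[p] ℚ_[p]) = C (x : ℚ_[p]) - X := by
    rw [Polynomial.map_sub, map_X, map_C]
    rfl
  by_cases hx : PadicInt.toZMod ((fz p f).eval x) = 0
  swap
  · refine ⟨C x - X, 1, cop_lin' _ _ ((zm_unit _).mpr hx), isCoprime_one_left, ?_⟩
    rw [hmap, one_pow, mul_one, sub_self]
    exact dvd_zero _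
  obtain ⟨ρ, G, hf, hG, hρ, hu⟩ := fac f hm hsep x hx
  have hux : IsUnit (G.eval x) := unit_near hρ hu
  rw [ev_ov, hf, eval_mul, eval_sub, eval_X, eval_C] at h
  have hxρ : x - ρ ≠ 0 := by
    intro h0
    rw [h0, zero_mul] at h
    have : y ^ 2 = 0 := by rw [h]; simp
    exact hy (pow_eq_zero_iff two_ne_zero |>.mp this)
  -- the valuation of `x - ρ` is even
  obtain ⟨k, hk⟩ : ∃ k : ℕ, (x - ρ).valuation = 2 * k := by
    have hD0 : (D : ℚ_[p]) ≠ 0 := by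
      intro h0
      have : D = 0 := by exact_mod_cast h0
      exact hD (this ▸ dvd_zero _)
    have h1 : (D : ℚ_[p]).valuation = 0 := by
      rw [Padic.valuation_intCast, padicValInt.eq_zero_of_not_dvd hD]
      rfl
    have h2 : (((G.eval x : ℤ_[p]) : ℚ_[p])).valuation = 0 := val_unit (PadicInt.isUnit_iff.mp hux)
    have h3 : ((x - ρ : ℤ_[p]) : ℚ_[p]) ≠ 0 := by
      intro h0
      exact hxρ (Subtype.coe_injective h0)
    have h4 : ((G.eval x : ℤ_[p]) : ℚ_[p]) ≠ 0 := by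
      intro h0
      have : G.eval x = 0 := Subtype.coe_injective h0
      rw [this] at hux
      exact not_isUnit_zero hux
    have h5 := congrArg Padic.valuation h
    rw [PadicInt.coe_mul, Padic.valuation_pow, Padic.valuation_mul hD0 (mul_ne_zero h3 h4),
      Padic.valuation_mul h3 h4, h1, h2, PadicInt.valuation_coe] at h5
    refine ⟨(x - ρ).valuation / 2, ?_⟩
    push_cast at h5
    omega
  obtain ⟨v, hv⟩ : ∃ v : ℤ_[p], v = PadicInt.unitCoeff hxρ := ⟨_, rfl⟩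
  have hvu : IsUnit v := by rw [hv]; exact Units.isUnit _
  have hsp := PadicInt.unitCoeff_spec hxρ
  rw [← hv, hk] at hsp
  have hpk : ((p : ℚ_[p]) ^ k) ≠ 0 := pow_ne_zero k (by exact_mod_cast (Fact.out : p.Prime).ne_zero)
  obtain ⟨δ, hδ, ⟨q₁, hq₁⟩, hδρ⟩ := crtZ hu (C x - X) hvu (cop_lin' G x hux)
  obtain ⟨s, hs, ⟨q₂, hq₂⟩, hsρ⟩ := crt hu 1 hpk isCoprime_one_left
  rw [← hf] at hδ
  rw [← hf, fz_ov] at hs
  refine ⟨δ, s, hδ, hs, ?_⟩
  rw [← fz_ov, hf, Polynomial.map_mul]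
  refine IsCoprime.mul_dvd ?_ ?_ ?_
  · exact (cop_lin G ρ hu).map (Polynomial.mapRingHom (algebraMap ℤ_[p] ℚ_[p]))
  · rw [Polynomial.map_sub, map_X, map_C, Polynomial.dvd_iff_isRoot]
    show eval (ρ : ℚ_[p]) _ = 0
    rw [eval_sub, eval_mul, eval_sub, eval_pow, hsρ, eval_C, eval_X, map_eval, hδρ]
    have h6 : (x : ℚ_[p]) - ρ = (v : ℚ_[p]) * (p : ℚ_[p]) ^ (2 * k) := by
      have := congrArg (fun z : ℤ_[p] => (z : ℚ_[p])) hsp
      simpa using this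
    rw [h6, pow_mul']
    ring
  · rw [hq₂, hq₁, Polynomial.map_add, hmap, Polynomial.map_mul, Polynomial.map_one]
    refine ⟨-(q₁.map (algebraMap ℤ_[p] ℚ_[p])) * (1 + G.map (algebraMap ℤ_[p] ℚ_[p]) * q₂) ^ 2 -
      (C (x : ℚ_[p]) - X) * (2 * q₂ + G.map (algebraMap ℤ_[p] ℚ_[p]) * q₂ ^ 2), ?_⟩
    ring

/-- the class of a point with `‖x‖ > 1` is trivial -/
theorem big (hH : S_HEN) (hp : p ≠ 2) {n : ℕ} {f : ℤ[X]} (hn : 1 ≤ n) (hm : f.Monic)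
    (hd : f.natDegree = n) {x : ℚ_[p]} (hx : 1 < ‖x‖) :
    ∃ s : ℚ_[p][X], IsCoprime s (ov ℚ_[p] f) ∧ ov ℚ_[p] f ∣ (C x - X) - C x * s ^ 2 := by
  have hx0 : x ≠ 0 := by
    rintro rfl
    simp at hx
    linarith
  have hxi : ‖x⁻¹‖ < 1 := by
    rw [norm_inv]
    exact inv_lt_one_of_one_lt₀ hx
  obtain ⟨z, hz⟩ : ∃ z : ℤ_[p], (z : ℚ_[p]) = x⁻¹ := ⟨⟨x⁻¹, hxi.le⟩, rfl⟩
  have hz1 : ‖z‖ < 1 := by
    rw [PadicInt.norm_def, hz]
    exact hxi
  obtain ⟨w, hw⟩ := (PadicInt.norm_lt_one_iff_dvd z).mp hz1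
  obtain ⟨i4, hi4⟩ := four_unit (p := p) hp
  obtain ⟨s, hs, k, hk⟩ := hH p (fz p f) (1 - C z * X) 1 (-(C (w * i4) * X)) (hm.map _)
    (by rw [hm.natDegree_map, hd]; exact hn) isCoprime_one_left (by
      have : (1 - C z * X) - 1 ^ 2 - C (4 * p : ℤ_[p]) * (-(C (w * i4) * X)) = 0 := by
        rw [mul_neg, ← mul_assoc (C (4 * p : ℤ_[p])), ← C_mul, hw]
        have h3 : (4 * (p : ℤ_[p])) * (w * i4) = p * w := by linear_combination (p * w) * hi4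
        rw [h3]
        ring
      rw [this]
      exact dvd_zero _)
  refine ⟨s.map (algebraMap ℤ_[p] ℚ_[p]), ?_, C x * k.map (algebraMap ℤ_[p] ℚ_[p]), ?_⟩
  · rw [← fz_ov]
    exact hs.map (Polynomial.mapRingHom (algebraMap ℤ_[p] ℚ_[p]))
  · have h1 := congrArg (Polynomial.map (algebraMap ℤ_[p] ℚ_[p])) hk
    simp only [Polynomial.map_sub, Polynomial.map_mul, Polynomial.map_pow, map_X, map_C,
      Polynomial.map_one] at h1
    have h2 : algebraMap ℤ_[p] ℚ_[p] z = x⁻¹ := hz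
    rw [h2, fz_ov] at h1
    have h3 : (C x : ℚ_[p][X]) * C x⁻¹ = 1 := by rw [← C_mul, mul_inv_cancel₀ hx0, C_1]
    linear_combination (C x) * h1 + X * h3

/-- the symbol of two unramified classes -/
theorem unram (h1 : S_GMA) (h2 : S_GMB) (h4 : S_UNI) (hp : p ≠ 2) {n : ℕ} {f : ℤ[X]} (hn : 1 ≤ n)
    (hm : f.Monic) (hd : f.natDegree = n) {δ a : ℤ_[p][X]} (hδ : IsCoprime δ (fz p f))
    (ha : IsCoprime a (fz p f)) :
    ee n (ov ℚ_[p] f) (δ.map (algebraMap ℤ_[p] ℚ_[p])) (a.map (algebraMap ℤ_[p] ℚ_[p])) = 1 := by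
  have hfm : (fz p f).Monic := hm.map _
  have hfd : (fz p f).natDegree = n := by rw [hm.natDegree_map, hd]
  obtain ⟨g1, -, -, -, g5⟩ := h1 ℤ_[p] n (fz p f) hn hfm hfd
  obtain ⟨g6, g7, g8⟩ := h2 ℤ_[p] n (fz p f) hn hfm hfd
  have hdet1 : IsUnit (Gn n (fz p f) 1).det := by
    have : IsUnit ((Gn n (fz p f) 1).det ^ 2) := by rw [g5]; exact isUnit_one
    exact (isUnit_pow_iff two_ne_zero).mp this
  have key : ∀ b : ℤ_[p][X], IsCoprime b (fz p f) →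
      Hs (Gn n (ov ℚ_[p] f) (b.map (algebraMap ℤ_[p] ℚ_[p]))) = 1 := by
    intro b hb
    have h9 := (g8 ℚ_[p] (algebraMap ℤ_[p] ℚ_[p]) b).1
    rw [fz_ov] at h9
    rw [← h9]
    refine h4 p hp n _ (g1 b) ?_
    rw [g6]
    exact ((g7 b).mpr hb).mul hdet1
  unfold ee
  rw [← Polynomial.map_mul, key _ (hδ.mul_left ha), key _ hδ, key _ ha]
  have := key 1 isCoprime_one_left
  rw [Polynomial.map_one] at this
  rw [this]
  rfl

end

end GPTP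

open PIP GPTP in
theorem t_GPT : S_GPT := by
  intro h1 h2 h3 h4 h5 p _ hp n f D hn hev hm hd hsep hD x y hy h a ha hnm hU
  have hsym : IsSymbol (hil ℚ_[p]) := Pool.Agent.N446.M4.sym_ p
  have hFm : (ov ℚ_[p] f).Monic := hm.map _
  have hFd : (ov ℚ_[p] f).natDegree = n := by rw [hm.natDegree_map, hd]
  have hfx : (ov ℚ_[p] f).eval x ≠ 0 := by
    intro h0
    rw [h0, mul_zero] at h
    exact hy (pow_eq_zero_iff two_ne_zero |>.mp h)
  have hδ : IsCoprime (C x - X) (ov ℚ_[p] f) := cop_lin' _ _ hfx.isUnit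
  by_cases hx : ‖x‖ ≤ 1
  · obtain ⟨x', rfl⟩ : ∃ z : ℤ_[p], (z : ℚ_[p]) = x := ⟨⟨x, hx⟩, rfl⟩
    obtain ⟨δ₀, s, hδ₀, hs, hd1⟩ := unitcl hp hm hsep hD hy h
    obtain ⟨a₀, s', ha₀, hs', hd2⟩ := hU
    have hδ₀' : IsCoprime (δ₀.map (algebraMap ℤ_[p] ℚ_[p])) (ov ℚ_[p] f) := by
      rw [← fz_ov]
      exact hδ₀.map (Polynomial.mapRingHom (algebraMap ℤ_[p] ℚ_[p]))
    have ha₀' : IsCoprime (a₀.map (algebraMap ℤ_[p] ℚ_[p])) (ov ℚ_[p] f) := by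
      rw [← fz_ov]
      exact ha₀.map (Polynomial.mapRingHom (algebraMap ℤ_[p] ℚ_[p]))
    have e1 := (h3 ℚ_[p] hsym n (ov ℚ_[p] f) (δ₀.map (algebraMap ℤ_[p] ℚ_[p])) a hn hev hFm hFd hδ₀' ha).1
      (C (x' : ℚ_[p]) - X) s 1 one_ne_zero hs (by rw [C_1, one_mul]; exact hd1) hnm
    have e2 := (h3 ℚ_[p] hsym n (ov ℚ_[p] f) (δ₀.map (algebraMap ℤ_[p] ℚ_[p]))
      (a₀.map (algebraMap ℤ_[p] ℚ_[p])) hn hev hFm hFd hδ₀' ha₀').2.1 a s' hs' hd2
    rw [e1, e2]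
    exact unram h1 h2 h4 hp hn hm hd hδ₀ ha₀
  · push Not at hx
    have hx0 : x ≠ 0 := by
      rintro rfl
      simp at hx
      linarith
    obtain ⟨s, hs, hs'⟩ := big h5 hp hn hm hd hx
    exact (h3 ℚ_[p] hsym n (ov ℚ_[p] f) (C x - X) a hn hev hFm hFd hδ ha).2.2.2 x s hx0 hs hs' hnm

end Pool.Agent.H30Q
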