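import Pool.Agent.H30Q.Stm
import Pool.Agent.H30T.Gal

/-! # Project HQ, pieces IRR and GAL (helper85; after `H30T/Irr.lean`, `H30T/Gal.lean`) -/

set_option autoImplicit false
set_option linter.all false

open Polynomial IsDedekindDomain Matrix NumberField
open scoped Classical

namespace Pool.Agent.H30Q

open Pool.Agent.H30T.GalP

/-- Piece IRR. -/
theorem t_IRR : S_IRR := by
  intro n f hyp
  have hinj : Function.Injective (Int.castRingHom ℚ) := Int.cast_injective
  have hn := hyp.six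
  set p : ℚ[X] := ov ℚ f with hp
  have hmon : p.Monic := hyp.mon.map _
  have hsep : p.Separable := hyp.sep
  have hdeg : p.natDegree = n := by
    rw [hp, ov, natDegree_map_eq_of_injective hinj, hyp.deg]
  obtain ⟨N, iF, iN, iG, -, -, -, -, -, hsp⟩ := exists_closure ℚ 1 1 one_ne_zero p hmon.ne_zero
  obtain ⟨ρ, hρ, hρ2⟩ := exists_action (N := N) p hsep hsp (by rw [hdeg]; exact hyp.gal)
  have hcard := (prod_rootSet (N := N) p hmon hsep hsp).1
  have hne : Nonempty (p.rootSet N) := by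
    rw [← Fintype.card_pos_iff, hcard, hdeg]
    omega
  obtain ⟨⟨x, hx⟩⟩ := hne
  have hint : IsIntegral ℚ x := Algebra.IsIntegral.isIntegral x
  have hne0 : minpoly ℚ x ≠ 0 := minpoly.ne_zero hint
  have hdvd : minpoly ℚ x ∣ p := minpoly.dvd ℚ x (mem_rootSet.1 hx).2
  have hle : p.natDegree ≤ (minpoly ℚ x).natDegree := by
    rw [← hcard]
    have h1 : p.rootSet N ⊆ (minpoly ℚ x).rootSet N := by
      intro y hy
      obtain ⟨c, hc⟩ := hρ (Equiv.swap ⟨x, hx⟩ ⟨y, hy⟩)
      have h2 := hρ2 c ⟨x, hx⟩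
      rw [hc, Equiv.swap_apply_left] at h2
      rw [mem_rootSet]
      refine ⟨hne0, ?_⟩
      have h3 : y = (c : N →ₐ[ℚ] N) x := h2
      rw [h3, aeval_algHom_apply, minpoly.aeval, map_zero]
    have h2 : (p.rootSet N).toFinset ⊆ ((minpoly ℚ x).rootSet N).toFinset := by
      simpa using h1
    calc Fintype.card (p.rootSet N) = (p.rootSet N).toFinset.card := (Set.toFinset_card _).symm
      _ ≤ ((minpoly ℚ x).rootSet N).toFinset.card := Finset.card_le_card h2
      _ = ((minpoly ℚ x).aroots N).toFinset.card := by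
          congr 1
          ext z
          rw [Set.mem_toFinset, rootSet, Finset.mem_coe, Multiset.mem_toFinset]
      _ ≤ (minpoly ℚ x).natDegree := by
          refine (Multiset.toFinset_card_le _).trans ?_
          refine (card_roots' _).trans ?_
          exact natDegree_map_le
  have heq : minpoly ℚ x = p :=
    (eq_of_monic_of_dvd_of_natDegree_le (minpoly.monic hint) hmon hdvd hle).symm
  rw [← heq]
  exact minpoly.irreducible hint

/-- A quadratic character of the Galois group is given by a square root of a rational number. -/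
theorem exists_root {N : Type} [Field N] [NumberField N] [IsGalois ℚ N]
    (χ : (N ≃ₐ[ℚ] N) →* ℤˣ) :
    ∃ γ : N, γ ≠ 0 ∧ (∀ a : N ≃ₐ[ℚ] N, a γ = ((χ a : ℤ) : N) * γ) ∧ ∃ c : ℚ, γ ^ 2 = c := by
  let x : (N ≃ₐ[ℚ] N) → Nˣ := fun a => Units.map (Int.castRingHom N : ℤ →* N) (χ a)
  have hx : ∀ a, ((x a : Nˣ) : N) = ((χ a : ℤ) : N) := fun a => rfl
  have hco : groupCohomology.IsMulCocycle₁ x := by
    intro a b
    apply Units.ext
    show ((χ (a * b) : ℤ) : N) = a ((χ b : ℤ) : N) * ((χ a : ℤ) : N)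
    rw [map_mul, Units.val_mul, Int.cast_mul, map_intCast, mul_comm]
  obtain ⟨y, hy⟩ := groupCohomology.isMulCoboundary₁_of_isMulCocycle₁_of_aut_to_units x hco
  have h1 : ∀ a : N ≃ₐ[ℚ] N, a (y : N) = ((χ a : ℤ) : N) * (y : N) := by
    intro a
    have h2 := hy a
    rw [div_eq_iff_eq_mul] at h2
    have h3 := congrArg (fun u : Nˣ => (u : N)) h2
    simp only [Units.val_mul, hx] at h3
    rw [← h3, AlgEquiv.smul_units_def]
    rfl
  refine ⟨y, y.ne_zero, h1, ?_⟩
  have h2 : (y : N) ^ 2 ∈ Set.range (algebraMap ℚ N) := by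
    refine (IsGalois.mem_range_algebraMap_iff_fixed ((y : N) ^ 2)).2 ?_
    intro a
    rw [map_pow, h1, mul_pow]
    have h3 : (((χ a : ℤ) : N)) ^ 2 = 1 := by
      rcases Int.units_eq_one_or (χ a) with h | h <;> rw [h] <;> simp
    rw [h3, one_mul]
  obtain ⟨c, hc⟩ := h2
  exact ⟨c, by rw [← hc]; rfl⟩

/-- Piece GAL. -/
theorem t_GAL : S_GAL := by
  intro hG n f hyp L _ _ θ hR A hA hsq m hm
  have hinj : Function.Injective (Int.castRingHom ℚ) := Int.cast_injective
  have hn := hyp.six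
  set p : ℚ[X] := f.map (Int.castRingHom ℚ) with hp
  have hmon : p.Monic := hyp.mon.map _
  have hsep : p.Separable := hyp.sep
  have hdeg : p.natDegree = n := by
    rw [hp, natDegree_map_eq_of_injective hinj, hyp.deg]
  have hθp : aeval θ p = 0 := by
    have h := aeval_map_algebraMap ℚ θ f
    rw [hR.root] at h
    exact h
  obtain ⟨α, hαdef⟩ : ∃ α : L, α = aeval θ A := ⟨_, rfl⟩
  rw [← hαdef] at hA hsq
  obtain ⟨N, iF, iN, iG, ι, ζ, β₁, hζ, hβ, hsp⟩ := exists_closure L α m hm p hmon.ne_zero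
  obtain ⟨ρ, hρ, hρ2⟩ := exists_action (N := N) p hsep hsp (by rw [hdeg]; exact hyp.gal)
  obtain ⟨hcard, hprod⟩ := prod_rootSet (N := N) p hmon hsep hsp
  rw [hdeg] at hcard
  have hi : ι θ ∈ p.rootSet N := by
    rw [mem_rootSet]
    refine ⟨hmon.ne_zero, ?_⟩
    rw [aeval_algHom_apply, hθp, map_zero]
  have hfN : f.map (Int.castRingHom N) = ∏ s : p.rootSet N, (X - C (s : N)) := by
    rw [← hprod, hp, Polynomial.map_map]
    congr 1
    exact RingHom.ext_int _ _
  set i₁ : p.rootSet N := ⟨ι θ, hi⟩ with hi₁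
  have hβ0 : β₁ ≠ 0 := by
    intro h0
    rw [h0, zero_pow two_ne_zero] at hβ
    exact hA ((map_eq_zero ι).1 hβ.symm)
  have hext : ∀ a : N ≃ₐ[ℚ] N, ρ a i₁ = i₁ → ∀ x : L, a (ι x) = ι x := by
    intro a ha x
    have h1 := hρ2 a i₁
    rw [ha] at h1
    have h2 := ext_hom p hmon hsep hsp ρ hρ hρ2 θ hθp (by rw [hR.rank, hdeg]) ι
      ((a : N →ₐ[ℚ] N).comp ι) ι h1.symm
    exact DFunLike.congr_fun h2 x
  have hun : ∀ e e' : ℤˣ, (((e : ℤˣ) : ℤ) : N) = (((e' : ℤˣ) : ℤ) : N) → e = e' := by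
    intro e e' h
    exact Units.ext (Int.cast_injective h)
  set ψ : (N ≃ₐ[ℚ] N) → ℤˣ := fun a => if a β₁ = β₁ then 1 else -1 with hψdef
  have hψ : ∀ a : N ≃ₐ[ℚ] N, ρ a i₁ = i₁ → a β₁ = ((ψ a : ℤ) : N) * β₁ := by
    intro a ha
    have h1 : (a β₁) ^ 2 = β₁ ^ 2 := by
      rw [← map_pow, hβ, hext a ha]
    simp only [hψdef]
    rcases sq_eq_sq_iff_eq_or_eq_neg.1 h1 with h2 | h2
    · rw [if_pos h2]
      simp [h2]
    · have h3 : ¬ a β₁ = β₁ := by
        rw [h2]
        intro h4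
        exact hβ0 (self_eq_neg.1 h4.symm)
      rw [if_neg h3]
      simp [h2]
  have hmul : ∀ a b : N ≃ₐ[ℚ] N, ρ a i₁ = i₁ → ρ b i₁ = i₁ → ψ (a * b) = ψ a * ψ b := by
    intro a b ha hb
    have hab : ρ (a * b) i₁ = i₁ := by
      rw [map_mul, Equiv.Perm.mul_apply, hb, ha]
    have h1 := hψ _ hab
    rw [AlgEquiv.mul_apply, hψ b hb, map_mul, map_intCast, hψ a ha, ← mul_assoc] at h1
    have h2 := mul_right_cancel₀ hβ0 h1
    refine (hun _ _ ?_).symm
    rw [Units.val_mul, Int.cast_mul, mul_comm]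
    exact h2
  -- the subgroup fixing the roots of unity
  have hpow : ∀ a : N ≃ₐ[ℚ] N, ∃ k : ℕ, ∀ z : N, z ^ m = 1 → a z = z ^ k := by
    intro a
    have h1 : (a ζ) ^ m = 1 := by rw [← map_pow, hζ.pow_eq_one, map_one]
    haveI : NeZero m := ⟨hm⟩
    obtain ⟨k, _, hk⟩ := hζ.eq_pow_of_pow_eq_one h1
    refine ⟨k, fun z hz => ?_⟩
    obtain ⟨j, _, hj⟩ := hζ.eq_pow_of_pow_eq_one hz
    rw [← hj, map_pow, ← hk, ← pow_mul, ← pow_mul, mul_comm]
  let H : Subgroup (N ≃ₐ[ℚ] N) :=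
    { carrier := {a | ∀ z : N, z ^ m = 1 → a z = z}
      mul_mem' := by
        intro a b ha hb z hz
        show a (b z) = z
        rw [hb z hz, ha z hz]
      one_mem' := fun z _ => rfl
      inv_mem' := by
        intro a ha z hz
        show a.symm z = z
        rw [AlgEquiv.symm_apply_eq]
        exact (ha z hz).symm }
  have hH : ∀ a, a ∈ H ↔ ∀ z : N, z ^ m = 1 → a z = z := fun a => Iff.rfl
  have hHc : ∀ a b : N ≃ₐ[ℚ] N, a * b * a⁻¹ * b⁻¹ ∈ H := by
    intro a b
    rw [hH]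
    intro z hz
    obtain ⟨k, hk⟩ := hpow a
    obtain ⟨l, hl⟩ := hpow b
    set w : N := a⁻¹ (b⁻¹ z) with hw
    have hw1 : w ^ m = 1 := by rw [hw, ← map_pow, ← map_pow, hz, map_one, map_one]
    have h1 : a (b w) = b (a w) := by
      rw [hl w hw1, hk w hw1, map_pow, map_pow, hk w hw1, hl w hw1, ← pow_mul, ← pow_mul, mul_comm]
    show a (b w) = z
    rw [h1, hw]
    have h2 : a (a⁻¹ (b⁻¹ z)) = b⁻¹ z := AlgEquiv.apply_symm_apply a _
    rw [h2]
    exact AlgEquiv.apply_symm_apply b z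
  rcases hG n (N ≃ₐ[ℚ] N) (p.rootSet N) ρ H i₁ ψ hn hyp.even hcard hρ hHc hmul with
    ⟨σ, hσH, hσ1, hσc, hσs, hσψ⟩ | ⟨χ, hχ⟩
  · -- the cycle
    have hv : ∀ (a : N ≃ₐ[ℚ] N) (j : ℕ) (s : p.rootSet N),
        (((ρ a) ^ j) s : p.rootSet N) = ((a ^ j) (s : N) : N) := by
      intro a j s
      rw [← map_pow, hρ2]
    obtain ⟨s₂, hs₂⟩ : ∃ s : p.rootSet N, s ≠ i₁ := by
      have : Nontrivial (p.rootSet N) := by
        rw [← Fintype.one_lt_card_iff_nontrivial, hcard]
        omega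
      exact exists_ne i₁
    set c : Equiv.Perm (p.rootSet N) := ρ σ with hc
    have hsupp : s₂ ∈ c.support := by
      rw [hσs]
      exact Finset.mem_erase.2 ⟨hs₂, Finset.mem_univ _⟩
    have hcs : c.support.card = n - 1 := by
      rw [hσs, Finset.card_erase_of_mem (Finset.mem_univ _), Finset.card_univ, hcard]
    have hord : orderOf c = n - 1 := by rw [hσc.orderOf, hcs]
    have himg : (Finset.range (n - 1)).image (fun j => (c ^ j) s₂) = c.support := by
      apply Finset.Subset.antisymm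
      · intro y hy
        obtain ⟨j, _, rfl⟩ := Finset.mem_image.1 hy
        exact Equiv.Perm.pow_apply_mem_support.2 hsupp
      · intro y hy
        obtain ⟨i, hi⟩ := hσc.exists_pow_eq (Equiv.Perm.mem_support.1 hsupp)
          (Equiv.Perm.mem_support.1 hy)
        refine Finset.mem_image.2 ⟨i % (n - 1), Finset.mem_range.2 (Nat.mod_lt _ (by omega)), ?_⟩
        show (c ^ (i % (n - 1))) s₂ = y
        rw [← hord, pow_mod_orderOf, hi]
    have hinjOn : Set.InjOn (fun j => (c ^ j) s₂) (Finset.range (n - 1)) := by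
      rw [← Finset.card_image_iff, himg, hcs, Finset.card_range]
    have hσθ : σ (ι θ) = ι θ := by
      have h1 := hρ2 σ i₁
      rw [hσ1] at h1
      exact h1.symm
    have hfix : (σ ^ (n - 1)) (s₂ : N) = (s₂ : N) := by
      rw [← hv, ← hc, ← hord, pow_orderOf_eq_one]
      rfl
    have hprod2 : f.map (Int.castRingHom N) =
        (X - C (ι θ)) * ∏ j ∈ Finset.range (n - 1), (X - C ((σ ^ j) (s₂ : N))) := by
      rw [hfN, ← Finset.mul_prod_erase Finset.univ _ (Finset.mem_univ i₁), ← hσs, ← himg,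
        Finset.prod_image hinjOn]
      congr 1
      refine Finset.prod_congr rfl fun j _ => ?_
      rw [hv]
    refine ⟨N, iF, iN, iG, σ, ζ, β₁, ι θ, (s₂ : N), hζ, (hH σ).1 hσH ζ hζ.pow_eq_one, hσθ, hprod2,
      hfix, ?_, ?_⟩
    · rw [hβ, hαdef]
      exact (map_aeval_eq_aeval_map (φ := (RingHom.id ℤ)) (ψ := (ι : L →+* N))
        (RingHom.ext_int _ _) A θ).trans (by rw [Polynomial.map_id]; rfl)
    · rw [hψ σ hσ1, hσψ]
      simp
  · exfalso
    obtain ⟨γ, hγ0, hγ, c, hc⟩ := exists_root χ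
    have h1 : β₁ / γ ∈ IntermediateField.fixedField (ι.fieldRange).fixingSubgroup := by
      rw [IntermediateField.mem_fixedField_iff]
      intro a ha
      have h2 : a (ι θ) = ι θ := by
        rw [IntermediateField.mem_fixingSubgroup_iff] at ha
        exact ha _ ⟨θ, rfl⟩
      have h3 : ρ a i₁ = i₁ := by
        apply Subtype.ext
        rw [hρ2]
        exact h2
      have h4 : (((χ a : ℤ) : N)) ≠ 0 := by
        rcases Int.units_eq_one_or (χ a) with h | h <;> rw [h] <;> simp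
      rw [map_div₀, hγ a, hψ a h3, ← hχ a h3, mul_div_mul_left _ _ h4]
    rw [IsGalois.fixedField_fixingSubgroup] at h1
    obtain ⟨b, hb⟩ := h1
    have hb' : ι b = β₁ / γ := hb
    apply hsq c b
    have h4 : ι α = ι (c * b ^ 2) := by
      rw [← hβ, map_mul, map_pow, hb', map_ratCast, ← hc, div_pow, mul_div_cancel₀]
      exact pow_ne_zero 2 hγ0
    exact ι.injective h4

end Pool.Agent.H30Q
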