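import Pool.Agent.H30Q.Stm

/-! # Project HQ, piece GRP (helper85): pure group theory -/

set_option autoImplicit false
set_option linter.all false

namespace Pool.Agent.H30Q.Grp

open Equiv.Perm

theorem units_ne {x : ℤˣ} (h : x ≠ -1) : x = 1 := by
  rcases Int.units_eq_one_or x with h1 | h1
  · exact h1
  · exact absurd h1 h

theorem units_sq (x : ℤˣ) : x * x = 1 := by
  rcases Int.units_eq_one_or x with h | h <;> rw [h] <;> decide

theorem sign_comm {ι : Type} [Fintype ι] [DecidableEq ι] (a b : Equiv.Perm ι) :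
    sign (a * b * a⁻¹ * b⁻¹) = 1 := by
  simp only [Equiv.Perm.sign_mul, Equiv.Perm.sign_inv]
  rcases Int.units_eq_one_or (sign a) with h | h <;>
    rcases Int.units_eq_one_or (sign b) with h' | h' <;> rw [h, h'] <;> decide

/-- An even permutation which maps `i` to `x`. -/
theorem even_to {ι : Type} [Fintype ι] [DecidableEq ι] (h3 : 3 ≤ Fintype.card ι) (i x : ι) :
    ∃ π : Equiv.Perm ι, sign π = 1 ∧ π i = x := by
  have h1 : ({i, x} : Finset ι).card < (Finset.univ : Finset ι).card := by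
    rw [Finset.card_univ]
    exact lt_of_le_of_lt Finset.card_le_two (by omega)
  obtain ⟨y, hy, hy'⟩ := Finset.exists_mem_notMem_of_card_lt_card h1
  have hyi : i ≠ y := by
    rintro rfl
    exact hy' (by simp)
  have hyx : x ≠ y := by
    rintro rfl
    exact hy' (by simp)
  refine ⟨Equiv.swap x y * Equiv.swap i y, ?_, ?_⟩
  · rw [Equiv.Perm.sign_mul, sign_swap hyx, sign_swap hyi]
    decide
  · rw [Equiv.Perm.mul_apply, Equiv.swap_apply_left, Equiv.swap_apply_right]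

theorem main (n : ℕ) (G ι : Type) [Group G] [Fintype ι] [DecidableEq ι]
    (ρ : G →* Equiv.Perm ι) (H : Subgroup G) (i₁ : ι) (ψ : G → ℤˣ) (hn : 6 ≤ n) (hev : Even n)
    (hcard : Fintype.card ι = n) (hρ : Function.Surjective ρ)
    (hcom : ∀ a b : G, a * b * a⁻¹ * b⁻¹ ∈ H)
    (hψ : ∀ a b : G, ρ a i₁ = i₁ → ρ b i₁ = i₁ → ψ (a * b) = ψ a * ψ b) :
    (∃ σ ∈ H, ρ σ i₁ = i₁ ∧ (ρ σ).IsCycle ∧ (ρ σ).support = Finset.univ.erase i₁ ∧ ψ σ = -1) ∨
      ∃ χ : G →* ℤˣ, ∀ a : G, ρ a i₁ = i₁ → χ a = ψ a := by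
  classical
  by_cases hcon : ∃ σ ∈ H, ρ σ i₁ = i₁ ∧ (ρ σ).IsCycle ∧ (ρ σ).support = Finset.univ.erase i₁ ∧
      ψ σ = -1
  · exact Or.inl hcon
  refine Or.inr ?_
  push Not at hcon
  have one : ψ 1 = 1 := by
    have := hψ 1 1 (by simp) (by simp)
    exact mul_left_cancel (a := ψ 1) (by rw [← this, mul_one, mul_one])
  -- the even elements of `H`
  let H' : Subgroup G := H ⊓ ((sign : Equiv.Perm ι →* ℤˣ).comp ρ).ker
  have hH' : ∀ a, a ∈ H' ↔ a ∈ H ∧ sign (ρ a) = 1 := fun a => by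
    rw [Subgroup.mem_inf, MonoidHom.mem_ker]
    rfl
  have hcom' : ∀ a b : G, a * b * a⁻¹ * b⁻¹ ∈ H' := fun a b => by
    rw [hH']
    refine ⟨hcom a b, ?_⟩
    rw [map_mul ρ, map_mul ρ, map_mul ρ, map_inv ρ, map_inv ρ]
    exact sign_comm (ρ a) (ρ b)
  have hnorm : H'.Normal := by
    refine ⟨fun a ha b => ?_⟩
    have h1 := mul_mem (hcom' b a) ha
    rwa [inv_mul_cancel_right] at h1
  -- lifting of even permutations
  have lift : ∀ π : Equiv.Perm ι, sign π = 1 → ∃ a ∈ H', ρ a = π := by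
    have h5 : 5 ≤ Nat.card ι := by
      rw [Nat.card_eq_fintype_card, hcard]
      omega
    have _i : (H'.map ρ).Normal := hnorm.map ρ hρ
    have hnt : Nontrivial (H'.map ρ) := by
      have h3 : 3 ≤ Fintype.card ι := by omega
      have : ∃ x y z : ι, x ≠ y ∧ y ≠ z ∧ x ≠ z := by
        obtain ⟨x, y, z, h⟩ := Finset.two_lt_card_iff.1
          (show 2 < (Finset.univ : Finset ι).card by rw [Finset.card_univ]; omega)
        exact ⟨x, y, z, h.2.2.2.1, h.2.2.2.2.2, h.2.2.2.2.1⟩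
      obtain ⟨x, y, z, hxy, hyz, hxz⟩ := this
      obtain ⟨a, ha⟩ := hρ (Equiv.swap x y)
      obtain ⟨b, hb⟩ := hρ (Equiv.swap y z)
      refine ⟨⟨⟨ρ (a * b * a⁻¹ * b⁻¹), ⟨_, hcom' a b, rfl⟩⟩, 1, fun h => ?_⟩⟩
      have h1 : ρ (a * b * a⁻¹ * b⁻¹) = 1 := congrArg Subtype.val h
      simp only [map_mul, map_inv, ha, hb, Equiv.swap_inv] at h1
      have h2 := Equiv.ext_iff.1 h1 z
      simp only [Equiv.Perm.mul_apply, Equiv.swap_apply_right, Equiv.Perm.one_apply] at h2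
      rw [Equiv.swap_apply_of_ne_of_ne hxy hxz, Equiv.swap_apply_left] at h2
      exact hyz h2
    have hle : alternatingGroup ι ≤ H'.map ρ := alternatingGroup_le_of_normal h5 hnt
    intro π hπ
    have h1 : π ∈ H'.map ρ := hle (by rw [mem_alternatingGroup]; exact hπ)
    exact h1
  -- the long cycle
  have hcard' : Fintype.card {x : ι // x ≠ i₁} = n - 1 := by
    rw [Fintype.card_subtype_compl, Fintype.card_subtype_eq, hcard]
  obtain ⟨f⟩ : Nonempty (Fin (n - 1) ≃ {x : ι // x ≠ i₁}) :=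
    ⟨(Fintype.equivFinOfCardEq hcard').symm⟩
  obtain ⟨c, hc⟩ : ∃ c : Equiv.Perm {x : ι // x ≠ i₁}, c = f.permCongr (finRotate (n - 1)) :=
    ⟨_, rfl⟩
  have hcyc : (finRotate (n - 1)).IsCycle := isCycle_finRotate_of_le (by omega)
  have hc1 : (ofSubtype c : Equiv.Perm ι) = (finRotate (n - 1)).extendDomain f := by
    ext x
    by_cases hx : x ≠ i₁
    · rw [ofSubtype_apply_of_mem c hx,
        Equiv.Perm.extendDomain_apply_subtype (finRotate (n - 1)) f hx, hc,
        Equiv.permCongr_apply]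
    · rw [ofSubtype_apply_of_not_mem c hx,
        Equiv.Perm.extendDomain_apply_not_subtype (finRotate (n - 1)) f hx]
  have hc2 : (ofSubtype c : Equiv.Perm ι).IsCycle := by
    rw [hc1]
    exact hcyc.extendDomain f
  have hc3 : (ofSubtype c : Equiv.Perm ι).support = Finset.univ.erase i₁ := by
    rw [hc1, support_extend_domain, support_finRotate_of_le (by omega)]
    ext x
    simp only [Finset.mem_map, Finset.mem_univ, true_and, Finset.mem_erase, and_true]
    constructor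
    · rintro ⟨y, rfl⟩
      exact (f y).2
    · intro hx
      exact ⟨f.symm ⟨x, hx⟩, by simp [Equiv.asEmbedding]⟩
  have hc4 : sign (ofSubtype c : Equiv.Perm ι) = 1 := by
    rw [hc2.sign, hc3, Finset.card_erase_of_mem (Finset.mem_univ _),
      Finset.card_univ, hcard]
    have h1 : Odd (n - 1) := Nat.Even.sub_odd (by omega) hev odd_one
    rw [h1.neg_one_pow, neg_neg]
  have hfix : ∀ π : Equiv.Perm {x : ι // x ≠ i₁}, (ofSubtype π : Equiv.Perm ι) i₁ = i₁ := by
    intro π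
    exact ofSubtype_apply_of_not_mem π (by simp)
  have hcyc1 : ∀ σ ∈ H, ρ σ = ofSubtype c → ψ σ = 1 := by
    intro σ hσ h
    refine units_ne (hcon σ hσ ?_ ?_ ?_)
    · rw [h]; exact hfix c
    · rw [h]; exact hc2
    · rw [h]; exact hc3
  -- elements of `H'` acting trivially
  have triv : ∀ u ∈ H', ρ u = 1 → ψ u = 1 := by
    intro u hu h
    obtain ⟨σ, hσ, h1⟩ := lift (ofSubtype c) hc4
    have h2 := hψ u σ (by rw [h]; rfl) (by rw [h1]; exact hfix c)
    rw [hcyc1 σ ((hH' σ).1 hσ).1 h1, mul_one] at h2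
    rw [← h2]
    exact hcyc1 _ ((hH' _).1 (mul_mem hu hσ)).1 (by rw [map_mul, h, h1, one_mul])
  have same : ∀ a ∈ H', ∀ b ∈ H', ρ a i₁ = i₁ → ρ a = ρ b → ψ a = ψ b := by
    intro a ha b hb h1 h2
    have h3 : ρ b i₁ = i₁ := by rw [← h2]; exact h1
    have h4 : ρ (a * b⁻¹) = 1 := by rw [map_mul, map_inv, h2, mul_inv_cancel]
    have h5 := hψ (a * b⁻¹) b (by rw [h4]; rfl) h3
    rw [triv _ (mul_mem ha (inv_mem hb)) h4, one_mul, mul_assoc, inv_mul_cancel, mul_one] at h5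
    exact h5
  -- the even permutations of the other points on which `ψ` is trivial
  let K : Subgroup (Equiv.Perm {x : ι // x ≠ i₁}) :=
    { carrier := {π | sign π = 1 ∧ ∀ a ∈ H', ρ a = ofSubtype π → ψ a = 1}
      mul_mem' := by
        rintro π π' ⟨h1, h2⟩ ⟨h3, h4⟩
        refine ⟨by rw [Equiv.Perm.sign_mul, h1, h3, one_mul], fun a ha hρa => ?_⟩
        obtain ⟨b, hb, hb'⟩ := lift (ofSubtype π) (by rw [sign_ofSubtype, h1])
        obtain ⟨b₂, hb₂, hb₂'⟩ := lift (ofSubtype π') (by rw [sign_ofSubtype, h3])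
        have h5 := same a ha (b * b₂) (mul_mem hb hb₂) (by rw [hρa]; exact hfix _)
          (by rw [map_mul, hb', hb₂', hρa, map_mul])
        rw [h5, hψ _ _ (by rw [hb']; exact hfix _) (by rw [hb₂']; exact hfix _), h2 b hb hb',
          h4 b₂ hb₂ hb₂', mul_one]
      one_mem' := ⟨Equiv.Perm.sign_one, fun a ha h => triv a ha (by rw [h, map_one])⟩
      inv_mem' := by
        rintro π ⟨h1, h2⟩
        refine ⟨by rw [Equiv.Perm.sign_inv, h1], fun a ha hρa => ?_⟩
        have h3 := h2 a⁻¹ (inv_mem ha) (by rw [map_inv, hρa, map_inv, inv_inv])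
        have h4 := hψ a a⁻¹ (by rw [hρa]; exact hfix _)
          (by rw [map_inv, hρa, map_inv, inv_inv]; exact hfix _)
        rw [mul_inv_cancel, one, h3, mul_one] at h4
        exact h4.symm }
  have hK : alternatingGroup {x : ι // x ≠ i₁} ≤ K := by
    rw [← closure_three_cycles_eq_alternating, Subgroup.closure_le]
    intro π hπ
    have hπ3 : IsThreeCycle π := hπ
    have hs : sign π = 1 := hπ3.sign
    refine ⟨hs, fun a ha hρa => ?_⟩
    -- `π = (π ^ 2) ^ 2`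
    obtain ⟨b, hb, hb'⟩ := lift (ofSubtype (π * π)) (by
      rw [sign_ofSubtype, Equiv.Perm.sign_mul, hs, one_mul])
    have h4 : π * π * (π * π) = π := by
      have h5 : π ^ 3 = 1 := by
        rw [← hπ3.orderOf]
        exact pow_orderOf_eq_one π
      calc π * π * (π * π) = π ^ 3 * π := by
            rw [pow_succ, pow_succ, pow_one]
            simp only [mul_assoc]
        _ = π := by rw [h5, one_mul]
    have h5 := same a ha (b * b) (mul_mem hb hb) (by rw [hρa]; exact hfix _)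
      (by rw [map_mul, hb', ← map_mul, h4, hρa])
    rw [h5, hψ _ _ (by rw [hb']; exact hfix _) (by rw [hb']; exact hfix _)]
    exact units_sq _
  have hH1 : ∀ a ∈ H', ρ a i₁ = i₁ → ψ a = 1 := by
    intro a ha h
    have h1 : ∀ x, (ρ a) x ≠ i₁ ↔ x ≠ i₁ := by
      intro x
      rw [not_iff_not]
      constructor
      · intro h2
        exact (ρ a).injective (by rw [h2, h])
      · rintro rfl
        exact h
    have h2 : (ofSubtype (subtypePerm (p := fun x => x ≠ i₁) (ρ a) h1) : Equiv.Perm ι) = ρ a := by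
      refine ofSubtype_subtypePerm h1 fun x hx => ?_
      rintro rfl
      exact hx h
    have h3 : sign (subtypePerm (p := fun x => x ≠ i₁) (ρ a) h1) = 1 := by
      rw [← sign_ofSubtype, h2]
      exact ((hH' a).1 ha).2
    exact (hK (by rw [mem_alternatingGroup]; exact h3)).2 a ha h2.symm
  -- the character of `G`
  have htr : ∀ a : G, ∃ h ∈ H', ρ h i₁ = ρ a i₁ := by
    intro a
    obtain ⟨π, h1, h2⟩ := even_to (by omega) i₁ (ρ a i₁)
    obtain ⟨h, hh, h3⟩ := lift π h1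
    exact ⟨h, hh, by rw [h3, h2]⟩
  choose s hs1 hs2 using htr
  have hfx : ∀ h a : G, ρ h i₁ = ρ a i₁ → ρ (h⁻¹ * a) i₁ = i₁ := by
    intro h a hh
    rw [map_mul, map_inv, Equiv.Perm.mul_apply, ← hh]
    exact Equiv.symm_apply_apply (ρ h) i₁
  have hind : ∀ h ∈ H', ∀ a : G, ρ h i₁ = ρ a i₁ → ψ (h⁻¹ * a) = ψ ((s a)⁻¹ * a) := by
    intro h hh a hha
    have h1 : h⁻¹ * a = (h⁻¹ * s a) * ((s a)⁻¹ * a) := by group
    have h2 : ρ (h⁻¹ * s a) i₁ = i₁ := hfx h (s a) (by rw [hha, hs2])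
    rw [h1, hψ _ _ h2 (hfx _ _ (hs2 a)), hH1 _ (mul_mem (inv_mem hh) (hs1 a)) h2, one_mul]
  refine ⟨{ toFun := fun a => ψ ((s a)⁻¹ * a), map_one' := ?_, map_mul' := ?_ }, fun a ha => ?_⟩
  · rw [mul_one]
    exact hH1 _ (inv_mem (hs1 1)) (by simpa using hfx (s 1) 1 (hs2 1))
  · intro a b
    have ha := hfx _ _ (hs2 a)
    have hb := hfx _ _ (hs2 b)
    have hm : s a * (((s a)⁻¹ * a) * s b * ((s a)⁻¹ * a)⁻¹) ∈ H' :=
      mul_mem (hs1 a) (hnorm.conj_mem _ (hs1 b) _)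
    have e1 : (s a * (((s a)⁻¹ * a) * s b * ((s a)⁻¹ * a)⁻¹))⁻¹ * (a * b) =
        ((s a)⁻¹ * a) * ((s b)⁻¹ * b) := by group
    have e2 : ρ (s a * (((s a)⁻¹ * a) * s b * ((s a)⁻¹ * a)⁻¹)) i₁ = ρ (a * b) i₁ := by
      have e3 : a * b = (s a * (((s a)⁻¹ * a) * s b * ((s a)⁻¹ * a)⁻¹)) *
          (((s a)⁻¹ * a) * ((s b)⁻¹ * b)) := by group
      have e4 : ρ (((s a)⁻¹ * a) * ((s b)⁻¹ * b)) i₁ = i₁ := by
        rw [map_mul, Equiv.Perm.mul_apply, hb, ha]
      conv_rhs => rw [e3, map_mul, Equiv.Perm.mul_apply, e4]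
    show ψ ((s (a * b))⁻¹ * (a * b)) = ψ ((s a)⁻¹ * a) * ψ ((s b)⁻¹ * b)
    rw [← hind _ hm _ e2, e1, hψ _ _ ha hb]
  · show ψ ((s a)⁻¹ * a) = ψ a
    rw [← hind 1 (one_mem _) a (by rw [ha, map_one]; rfl), inv_one, one_mul]

end Pool.Agent.H30Q.Grp

namespace Pool.Agent.H30Q

/-- Piece GRP. -/
theorem t_GRP : S_GRP := by
  intro n G ι _ _ _ ρ H i₁ ψ h1 h2 h3 h4 h5 h6
  exact Grp.main n G ι ρ H i₁ ψ h1 h2 h3 h4 h5 h6

end Pool.Agent.H30Q
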