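import Pool.Agent.H30Q.GMA

/-!
# Project HQ (helper30), piece HEN: Hensel's lemma for squares modulo `f`

By helper88.
-/

set_option autoImplicit false
set_option linter.all false

open Polynomial IsDedekindDomain Matrix NumberField
open scoped Classical NNReal

namespace Pool.Agent.H30Q.HENP

open Pool.Agent.H30Q.GMAP

/-- The fixed point theorem modulo `f`. -/
lemma fix (p : ℕ) [Fact p.Prime] (f z b c : ℤ_[p][X]) (hf : f.Monic) :
    ∃ v : ℤ_[p][X], f ∣ v - (z - C (p : ℤ_[p]) * (b * v ^ 2 + c * v)) := by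
  set n := f.natDegree with hn
  let P : (Fin n → ℤ_[p]) → ℤ_[p][X] := fun v => ∑ i : Fin n, C (v i) * X ^ (i : ℕ)
  let Ψ : (Fin n → ℤ_[p]) → (Fin n → ℤ_[p]) := fun v i =>
    ((z - C (p : ℤ_[p]) * (b * P v ^ 2 + c * P v)) %ₘ f).coeff i
  have hdiff : ∀ (v v' : Fin n → ℤ_[p]) (i : Fin n), Ψ v i - Ψ v' i =
      (p : ℤ_[p]) * ∑ k : Fin n, (v' k - v k) *
        ((X ^ (k : ℕ) * (b * (P v + P v') + c)) %ₘ f).coeff i := by
    intro v v' i
    have h1 : Ψ v i - Ψ v' i = ((∑ k : Fin n, C ((p : ℤ_[p]) * (v' k - v k)) *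
        (X ^ (k : ℕ) * (b * (P v + P v') + c))) %ₘ f).coeff i := by
      show ((z - C (p : ℤ_[p]) * (b * P v ^ 2 + c * P v)) %ₘ f).coeff i -
        ((z - C (p : ℤ_[p]) * (b * P v' ^ 2 + c * P v')) %ₘ f).coeff i = _
      rw [← coeff_sub, ← sub_modByMonic]
      congr 2
      have h2 : ∑ k : Fin n, C ((p : ℤ_[p]) * (v' k - v k)) *
        (X ^ (k : ℕ) * (b * (P v + P v') + c)) =
          C (p : ℤ_[p]) * (P v' - P v) * (b * (P v + P v') + c) := by
        show _ = C (p : ℤ_[p]) * ((∑ i : Fin n, C (v' i) * X ^ (i : ℕ)) -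
          (∑ i : Fin n, C (v i) * X ^ (i : ℕ))) * _
        rw [← Finset.sum_sub_distrib, Finset.mul_sum, Finset.sum_mul]
        refine Finset.sum_congr rfl fun k _ => ?_
        rw [C_mul, C_sub]; ring
      rw [h2]; ring
    rw [h1, coeff_sum_mod, Finset.mul_sum]
    refine Finset.sum_congr rfl fun k _ => ?_
    ring
  have hL : ContractingWith (1 / 2 : ℝ≥0) Ψ := by
    refine ⟨by norm_num, ?_⟩
    apply LipschitzWith.of_dist_le_mul
    intro v v'
    rw [dist_pi_le_iff (by positivity)]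
    intro i
    rw [dist_eq_norm, hdiff, norm_mul, PadicInt.norm_p]
    have h1 : ‖∑ k : Fin n, (v' k - v k) *
        ((X ^ (k : ℕ) * (b * (P v + P v') + c)) %ₘ f).coeff i‖ ≤ dist v v' := by
      apply IsUltrametricDist.norm_sum_le_of_forall_le_of_nonneg dist_nonneg
      intro k _
      rw [norm_mul]
      calc ‖v' k - v k‖ * ‖((X ^ (k : ℕ) * (b * (P v + P v') + c)) %ₘ f).coeff i‖
          ≤ ‖v' k - v k‖ * 1 := by
            apply mul_le_mul_of_nonneg_left (PadicInt.norm_le_one _) (norm_nonneg _)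
        _ = dist (v k) (v' k) := by rw [mul_one, dist_eq_norm, norm_sub_rev]
        _ ≤ dist v v' := dist_le_pi_dist v v' k
    have h2 : ((p : ℝ)⁻¹) ≤ 1 / 2 := by
      rw [one_div]
      apply inv_anti₀ (by norm_num)
      exact_mod_cast (Fact.out : p.Prime).two_le
    have h3 : ((1 / 2 : ℝ≥0) : ℝ) = 1 / 2 := by norm_num
    rw [h3]
    exact mul_le_mul h2 h1 (norm_nonneg _) (by norm_num)
  have hfix := hL.fixedPoint_isFixedPt
  set v := hL.fixedPoint with hv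
  refine ⟨P v, ?_⟩
  have h1 : (z - C (p : ℤ_[p]) * (b * P v ^ 2 + c * P v)) %ₘ f = P v := by
    rw [expand hf (hn.symm)]
    show _ = ∑ i : Fin n, C (v i) * X ^ (i : ℕ)
    refine Finset.sum_congr rfl fun k _ => ?_
    have h2 : Ψ v k = v k := congrFun hfix k
    rw [show ((z - C (p : ℤ_[p]) * (b * P v ^ 2 + c * P v)) %ₘ f).coeff (k : ℕ) = v k from h2]
  have h2 := dvd_sub_mod f (z - C (p : ℤ_[p]) * (b * P v ^ 2 + c * P v))
  rw [h1] at h2
  rw [← dvd_neg]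
  convert h2 using 1
  ring

end Pool.Agent.H30Q.HENP

namespace Pool.Agent.H30Q

open GMAP HENP

theorem t_HEN : S_HEN := by
  intro p _ f a t y hf h1 ht hy
  obtain ⟨u, w, hu⟩ := ht
  obtain ⟨g, hg⟩ := fix p f (u ^ 2 * y) 1 0 hf
  obtain ⟨h, hh⟩ := fix p f 1 0 (2 * g) hf
  obtain ⟨k, hk⟩ := hg
  obtain ⟨l, hl⟩ := hh
  obtain ⟨m, hm⟩ := hy
  have hp4 : C (4 * p : ℤ_[p]) = 4 * C (p : ℤ_[p]) := by rw [C_mul]; rfl
  rw [hp4] at hm
  refine ⟨t * (1 + 2 * C (p : ℤ_[p]) * g), ?_, ?_⟩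
  · apply IsCoprime.mul_left
    · exact ⟨u, w, hu⟩
    · refine ⟨h, -l, ?_⟩
      linear_combination hl
  · -- a - t^2 (1 + 2 p g)^2 = a - t^2 (1 + 4 p (g + p g^2))
    -- g + p g^2 = u^2 y + f k
    -- t u = 1 - w f
    refine ⟨m + 4 * C (p : ℤ_[p]) * y * (w * (1 + t * u)) - 4 * C (p : ℤ_[p]) * t ^ 2 * k, ?_⟩
    linear_combination hm - 4 * C (p : ℤ_[p]) * t ^ 2 * hk -
      4 * C (p : ℤ_[p]) * y * (1 + t * u) * hu

end Pool.Agent.H30Q
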