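import Pool.Agent.H30Q.Stm

set_option autoImplicit false

/-!
# Linear algebra over `F_2` (piece LIN1 of project HQ)
-/

namespace Pool.Agent.H30Q

namespace LIN1P

/-- signs -/
def s (a : ZMod 2) : ℤ := if a = 0 then 1 else -1

theorem s_add (a b : ZMod 2) : s (a + b) = s a * s b := by
  revert a b
  decide

theorem s_sum {ι : Type} (I : Finset ι) (w : ι → ZMod 2) : ∏ i ∈ I, s (w i) = s (∑ i ∈ I, w i) := by
  classical
  induction I using Finset.induction_on with
  | empty => simp [s]
  | insert a I ha ih => rw [Finset.prod_insert ha, Finset.sum_insert ha, s_add, ih]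

theorem s_surj (x : ℤ) (h : x = 1 ∨ x = -1) : s (if x = 1 then 0 else 1) = x := by
  rcases h with rfl | rfl
  · simp [s]
  · simp [s]

theorem z2_cases (a : ZMod 2) (h : a ≠ 0) : a = 1 := by
  revert a
  decide

end LIN1P

open LIN1P in
theorem t_LIN1 : S_LIN1 := by
  intro r Q ψ hψ hI τ hτ
  classical
  let w : ℕ → Fin r → ZMod 2 := fun q i => if ψ q i = 1 then 0 else 1
  have hw : ∀ q i, s (w q i) = ψ q i := fun q i => s_surj _ (hψ q i)
  have htop : Submodule.span (ZMod 2) (w '' (Q : Set ℕ)) = ⊤ := by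
    by_contra hne
    obtain ⟨φ, hφ, hle⟩ := Submodule.exists_le_ker_of_lt_top _ (lt_top_iff_ne_top.mpr hne)
    have h1 : ∀ x : Fin r → ZMod 2, φ x = ∑ i, x i * φ (Pi.single i 1) := by
      intro x
      conv_lhs => rw [← Finset.univ_sum_single x]
      rw [map_sum]
      refine Finset.sum_congr rfl fun i _ => ?_
      rw [← smul_eq_mul, ← map_smul]
      congr 1
      funext j
      by_cases h : j = i
      · subst h; simp
      · simp [h]
    let I : Finset (Fin r) := Finset.univ.filter fun i => φ (Pi.single i 1) ≠ 0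
    have h2 : ∀ x : Fin r → ZMod 2, φ x = ∑ i ∈ I, x i := by
      intro x
      rw [h1 x, Finset.sum_filter]
      refine Finset.sum_congr rfl fun i _ => ?_
      split_ifs with h
      · rw [z2_cases _ h, mul_one]
      · rw [not_not] at h
        rw [h, mul_zero]
    have hne' : I.Nonempty := by
      rw [Finset.nonempty_iff_ne_empty]
      intro h
      apply hφ
      ext x
      simp [h2, h]
    obtain ⟨q, hq, hprod⟩ := hI I hne'
    have h3 : φ (w q) = 0 := hle (Submodule.subset_span ⟨q, hq, rfl⟩)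
    rw [h2] at h3
    have h4 : ∏ i ∈ I, ψ q i = 1 := by
      rw [← Finset.prod_congr rfl fun i _ => hw q i, s_sum, h3]
      rfl
    rw [h4] at hprod
    norm_num at hprod
  have hmem : (fun i => if τ i = 1 then (0 : ZMod 2) else 1) ∈ Submodule.span (ZMod 2) (w '' (Q : Set ℕ)) := by
    rw [htop]
    exact Submodule.mem_top
  rw [Submodule.mem_span_image_finset_iff_exists_fun] at hmem
  obtain ⟨c₀, hc₀⟩ := hmem
  let c : ℕ → ZMod 2 := fun q => if h : q ∈ Q then c₀ ⟨q, h⟩ else 0
  have hc : ∑ q ∈ Q, c q • w q = fun i => if τ i = 1 then (0 : ZMod 2) else 1 := by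
    rw [← hc₀, ← Finset.sum_coe_sort Q (fun q => c q • w q)]
    refine Finset.sum_congr rfl fun q _ => ?_
    show (if h : (q : ℕ) ∈ Q then c₀ ⟨q, h⟩ else 0) • w q = c₀ q • w q
    rw [dif_pos q.2]
  refine ⟨Q.filter fun q => c q ≠ 0, Finset.filter_subset _ _, fun i => ?_⟩
  rw [← Finset.prod_congr rfl fun q _ => hw q i, s_sum, ← s_surj (τ i) (hτ i)]
  congr 1
  rw [← congrFun hc i, Finset.sum_apply, Finset.sum_filter]
  refine Finset.sum_congr rfl fun q _ => ?_
  rw [Pi.smul_apply, smul_eq_mul]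
  split_ifs with h
  · rw [z2_cases _ h, one_mul]
  · rw [not_not] at h
    rw [h, zero_mul]

end Pool.Agent.H30Q
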