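import Pool.Agent.H30Q.Stm

set_option autoImplicit false

/-!
# Linear algebra over `F_2` and counting (piece LIN2 of project HQ)
-/

namespace Pool.Agent.H30Q

namespace LIN2P

open Module

theorem arith {n c m r : ℕ} (hn : 6 ≤ n) (hc : c ≤ m)
    (h : (2 ^ n) ^ m ≤ c * 2 ^ r * 2 ^ m * 2 ^ m) : n ^ m < 2 ^ r := by
  have h1 : 8 * n ≤ 2 ^ n := by
    induction n, hn using Nat.le_induction with
    | base => norm_num
    | succ k hk ih =>
      rw [pow_succ]
      have h2 := ih (by
        refine le_trans ?_ h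
        exact Nat.pow_le_pow_left (Nat.pow_le_pow_right (by norm_num) (Nat.le_succ k)) m)
      omega
  have h2 : (8 * n) ^ m ≤ (2 ^ n) ^ m := Nat.pow_le_pow_left h1 m
  have h3 : (8 * n) ^ m = 2 ^ m * 2 ^ m * 2 ^ m * n ^ m := by
    rw [show 8 * n = 2 * 2 * 2 * n by ring, mul_pow, mul_pow, mul_pow]
  have h4 : c < 2 ^ m := lt_of_le_of_lt hc Nat.lt_two_pow_self
  have h5 : 0 < 2 ^ m := by positivity
  have hn0 : 0 < n ^ m := by positivity
  by_contra h6
  rw [not_lt] at h6
  have h7 : c * 2 ^ r * 2 ^ m * 2 ^ m < 2 ^ m * 2 ^ m * 2 ^ m * n ^ m := by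
    calc c * 2 ^ r * 2 ^ m * 2 ^ m = c * (2 ^ r * (2 ^ m * 2 ^ m)) := by ring
      _ < 2 ^ m * (2 ^ r * (2 ^ m * 2 ^ m)) := by
        apply Nat.mul_lt_mul_of_pos_right h4
        positivity
      _ ≤ 2 ^ m * (n ^ m * (2 ^ m * 2 ^ m)) := by gcongr
      _ = 2 ^ m * 2 ^ m * 2 ^ m * n ^ m := by ring
  omega

end LIN2P

open LIN2P Module in
theorem t_LIN2 : S_LIN2 := by
  intro n c hn hev
  refine ⟨c, fun ι _ hm T _ hT Φ => ?_⟩
  classical
  have hn0 : 0 < n := by omega
  set m := Fintype.card ι with hmdef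
  let X := ι → Fin n → ZMod 2
  let sm : X →ₗ[ZMod 2] (ι → ZMod 2) :=
    { toFun := fun v i => ∑ j, v i j
      map_add' := fun v w => by
        funext i
        exact Finset.sum_add_distrib
      map_smul' := fun a v => by
        funext i
        show ∑ j, a * v i j = a * ∑ j, v i j
        rw [Finset.mul_sum] }
  let cm : (ι → ZMod 2) →ₗ[ZMod 2] X :=
    { toFun := fun κ i _ => κ i
      map_add' := fun v w => rfl
      map_smul' := fun a v => rfl }
  let E := LinearMap.ker sm
  let K := LinearMap.range cm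
  have hX : Nat.card X = (2 ^ n) ^ m := by
    rw [Nat.card_eq_fintype_card]
    simp [X, hmdef, ZMod.card]
  have hI : Nat.card (ι → ZMod 2) = 2 ^ m := by
    rw [Nat.card_eq_fintype_card]
    simp [hmdef, ZMod.card]
  have hE : (2 ^ n) ^ m ≤ Nat.card E * 2 ^ m := by
    have h1 := Submodule.card_eq_card_quotient_mul_card E
    rw [← hX, h1]
    refine Nat.mul_le_mul_left _ ?_
    rw [← hI]
    exact Nat.card_le_card_of_injective (sm.quotKerEquivRange.trans (LinearEquiv.refl _ _))
      (LinearEquiv.injective _) |>.trans (Nat.card_le_card_of_injective _ (Subtype.val_injective))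
  have hK : Nat.card K ≤ 2 ^ m := by
    rw [← hI]
    exact Nat.card_le_card_of_surjective (fun x => ⟨cm x, x, rfl⟩ : (ι → ZMod 2) → K)
      (fun ⟨y, x, hx⟩ => ⟨x, Subtype.ext hx⟩)
  -- the largest fibre
  have hTne : Nonempty T := ⟨Φ 0⟩
  let Ef : Finset X := Finset.univ.filter fun v => v ∈ E
  have hEf : Ef.card = Nat.card E := by
    rw [Nat.card_eq_fintype_card, Fintype.card_subtype]
  obtain ⟨t, -, ht⟩ := Finset.exists_max_image (Finset.univ : Finset T) (fun t => (Ef.filter fun v => Φ v = t).card)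
    ⟨Φ 0, Finset.mem_univ _⟩
  set Fb := Ef.filter fun v => Φ v = t with hFb
  have h1 : Nat.card E ≤ c * Fb.card := by
    rw [← hEf, Finset.card_eq_sum_card_fiberwise (f := Φ) (t := Finset.univ) (fun x _ => Finset.mem_univ _)]
    refine (Finset.sum_le_card_nsmul _ _ _ fun s hs => ht s hs).trans ?_
    rw [smul_eq_mul, Finset.card_univ]
    exact Nat.mul_le_mul_right _ hT
  have hEpos : 0 < Nat.card E := Nat.card_pos
  have hFne : Fb.Nonempty := by
    rw [← Finset.card_pos]
    by_contra h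
    have : Fb.card = 0 := by omega
    rw [this] at h1
    omega
  have hc0 : 0 < c := by
    by_contra h
    have : c = 0 := by omega
    rw [this] at h1
    omega
  obtain ⟨v₀, hv₀⟩ := hFne
  -- the image in the quotient
  let g : X → X ⧸ K := fun v => K.mkQ (v + v₀)
  have h2 : Fb.card ≤ Nat.card K * (Fb.image g).card := by
    refine Finset.card_le_mul_card_image _ _ fun a ha => ?_
    obtain ⟨x₀, hx₀, rfl⟩ := Finset.mem_image.mp ha
    have h3 : ∀ x ∈ Fb.filter (fun x => g x = g x₀), x - x₀ ∈ K := by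
      intro x hx
      have h4 := (Finset.mem_filter.mp hx).2
      have h5 : K.mkQ ((x + v₀) - (x₀ + v₀)) = 0 := by
        rw [map_sub]
        exact sub_eq_zero.mpr h4
      rw [Submodule.mkQ_apply, Submodule.Quotient.mk_eq_zero] at h5
      simpa using h5
    have h6 : Nat.card K = (K : Set X).toFinset.card := by
      rw [Set.toFinset_card, Nat.card_eq_fintype_card]
      exact Fintype.card_congr (Equiv.refl _)
    rw [h6]
    refine Finset.card_le_card_of_injOn (fun x => x - x₀) (fun x hx => ?_) (fun x _ y _ h => by simpa using h)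
    rw [Finset.mem_coe, Set.mem_toFinset]
    exact h3 x hx
  obtain ⟨b, hb1, hb2, hb3⟩ := exists_linearIndependent (ZMod 2) ((Fb.image g : Finset (X ⧸ K)) : Set (X ⧸ K))
  have hbf : Fintype b := Fintype.ofFinite b
  set r := Fintype.card b with hr
  have h3 : (Fb.image g).card ≤ 2 ^ r := by
    have h4 : Nat.card (Submodule.span (ZMod 2) b) = 2 ^ r := by
      rw [Module.natCard_eq_pow_finrank (K := ZMod 2), finrank_span_set_eq_card hb3]
      simp [hr]
    rw [← h4, hb2]
    have h5 : ((Fb.image g : Finset (X ⧸ K)) : Set (X ⧸ K)) ⊆ Submodule.span (ZMod 2) ((Fb.image g : Finset (X ⧸ K)) : Set (X ⧸ K)) :=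
      Submodule.subset_span
    have h6 := Nat.card_mono (Set.toFinite _) h5
    rwa [Nat.card_coe_set_eq, Set.ncard_coe_finset] at h6
  let e : Fin r ≃ b := (Fintype.equivFin b).symm
  have hsel : ∀ k : Fin r, ∃ v : X, v ∈ Fb ∧ g v = (e k : X ⧸ K) := fun k => by
    have := hb1 (e k).2
    obtain ⟨v, hv, h⟩ := Finset.mem_image.mp (Finset.mem_coe.mp this)
    exact ⟨v, hv, h⟩
  choose v hv hgv using hsel
  have hmemE : ∀ x ∈ Fb, ∀ i, ∑ j, x i j = 0 := by
    intro x hx i
    have h4 : x ∈ E := (Finset.mem_filter.mp (Finset.mem_filter.mp hx).1).2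
    exact congrFun (LinearMap.mem_ker.mp h4) i
  have hΦ : ∀ x ∈ Fb, Φ x = t := fun x hx => (Finset.mem_filter.mp hx).2
  refine ⟨r, v₀, v, hmemE v₀ hv₀, fun k => hmemE _ (hv k), fun k => (hΦ _ (hv k)).trans (hΦ _ hv₀).symm, ?_, ?_⟩
  · refine arith (c := c) hn hm ?_
    calc (2 ^ n) ^ m ≤ Nat.card E * 2 ^ m := hE
      _ ≤ (c * Fb.card) * 2 ^ m := Nat.mul_le_mul_right _ h1
      _ ≤ (c * (Nat.card K * (Fb.image g).card)) * 2 ^ m := by gcongr
      _ ≤ (c * (2 ^ m * 2 ^ r)) * 2 ^ m := by gcongr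
      _ = c * 2 ^ r * 2 ^ m * 2 ^ m := by ring
  · intro I hI κ
    by_contra hcon
    push Not at hcon
    have h4 : ∑ k ∈ I, (v k + v₀) ∈ K := by
      refine ⟨κ, ?_⟩
      funext i j
      show κ i = (∑ k ∈ I, (v k + v₀)) i j
      rw [← hcon i j, Finset.sum_apply, Finset.sum_apply]
      rfl
    have h5 : ∑ k ∈ I, (e k : X ⧸ K) = 0 := by
      rw [← (Submodule.Quotient.mk_eq_zero K).mpr h4, ← Submodule.mkQ_apply, map_sum]
      exact Finset.sum_congr rfl fun k _ => (hgv k).symm
    have h6 := Fintype.linearIndependent_iff.mp (hb3.comp e e.injective) (fun k => if k ∈ I then 1 else 0) (by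
      rw [← h5]
      simp [Finset.sum_ite_mem])
    obtain ⟨k, hk⟩ := hI
    have := h6 k
    rw [if_pos hk] at this
    exact one_ne_zero this

end Pool.Agent.H30Q
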