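import Pool.Agent.H30Q.Stm

/-!
# Piece PGB of project HQ: the elements `A i` from the pigeonhole principle.
-/

set_option autoImplicit false
set_option linter.all false

open Polynomial IsDedekindDomain Matrix NumberField
open scoped Classical

namespace Pool.Agent.H30Q

open Pool.Agent.N874.PP (Ev)

namespace PGBP

variable {L : Type} [Field L] [NumberField L]

/-- The parity of the valuation. -/
noncomputable def par (𝔓 : HeightOneSpectrum (𝓞 L)) (x : L) : ZMod 2 :=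
  ((WithZero.log (𝔓.valuation L x) : ℤ) : ZMod 2)

theorem val_ne (𝔓 : HeightOneSpectrum (𝓞 L)) {x : L} (hx : x ≠ 0) : 𝔓.valuation L x ≠ 0 :=
  (Valuation.ne_zero_iff _).2 hx

theorem par_mul (𝔓 : HeightOneSpectrum (𝓞 L)) {x y : L} (hx : x ≠ 0) (hy : y ≠ 0) :
    par 𝔓 (x * y) = par 𝔓 x + par 𝔓 y := by
  unfold par
  rw [map_mul, WithZero.log_mul (val_ne 𝔓 hx) (val_ne 𝔓 hy)]
  push_cast
  ring

theorem two0 (x : ZMod 2) : x + x = 0 := by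
  revert x
  decide

theorem par_sq (𝔓 : HeightOneSpectrum (𝓞 L)) {x : L} (hx : x ≠ 0) : par 𝔓 (x ^ 2) = 0 := by
  rw [pow_two, par_mul 𝔓 hx hx, two0]

theorem par_prod (𝔓 : HeightOneSpectrum (𝓞 L)) {ι : Type} (I : Finset ι) (x : ι → L)
    (hx : ∀ i, x i ≠ 0) : par 𝔓 (∏ i ∈ I, x i) = ∑ i ∈ I, par 𝔓 (x i) := by
  classical
  induction I using Finset.induction_on with
  | empty => simp [par]
  | insert a s ha ih =>
    rw [Finset.prod_insert ha, Finset.sum_insert ha,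
      par_mul 𝔓 (hx a) (Finset.prod_ne_zero_iff.2 fun i _ => hx i), ih]

theorem ev_iff (𝔓 : HeightOneSpectrum (𝓞 L)) {x : L} (hx : x ≠ 0) : Ev 𝔓 x ↔ par 𝔓 x = 0 := by
  constructor
  · rintro ⟨y, hy⟩
    unfold par
    rw [hy, WithZero.log_pow]
    push_cast
    rw [nsmul_eq_mul]
    have : ((2 : ℕ) : ZMod 2) = 0 := rfl
    push_cast
    rw [show (2 : ZMod 2) = 0 from rfl, zero_mul]
  · intro h
    unfold par at h
    obtain ⟨k, hk⟩ := (ZMod.intCast_zmod_eq_zero_iff_dvd _ 2).1 h |> id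
    obtain ⟨π, hπ⟩ := 𝔓.valuation_exists_uniformizer L
    refine ⟨π ^ (-k), ?_⟩
    have h0 := val_ne 𝔓 hx
    rw [map_zpow₀, hπ]
    have h1 : ((WithZero.exp (-1 : ℤ)) ^ (-k)) ^ 2 = WithZero.exp (WithZero.log (𝔓.valuation L x)) := by
      rw [hk, ← WithZero.exp_zsmul, ← WithZero.exp_nsmul]
      congr 1
      simp
    rw [WithZero.exp_log h0] at h1
    exact h1.symm

theorem par_eq (𝔓 : HeightOneSpectrum (𝓞 L)) {x : L} (hx : x ≠ 0) (w : ZMod 2)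
    (h : Ev 𝔓 x ↔ w = 0) : par 𝔓 x = w := by
  rw [ev_iff 𝔓 hx] at h
  generalize par 𝔓 x = u at h
  revert u w
  decide

/-- The parity of an integer at the primes above `p`. -/
theorem par_p {n p : ℕ} (𝔭 : Fin n → HeightOneSpectrum (𝓞 L)) (hinj : Function.Injective 𝔭)
    (hp0 : p ≠ 0)
    (hprod : ∏ j, (𝔭 j).asIdeal = Ideal.span {(p : 𝓞 L)}) (j : Fin n) :
    par (𝔭 j) ((p : ℚ) : L) = 1 := by
  have hpO : (p : 𝓞 L) ≠ 0 := by exact_mod_cast hp0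
  have hmem : (p : 𝓞 L) ∈ (𝔭 j).asIdeal := by
    have h1 : Ideal.span {(p : 𝓞 L)} ≤ (𝔭 j).asIdeal := by
      rw [← hprod]
      exact Ideal.le_of_dvd (Finset.dvd_prod_of_mem _ (Finset.mem_univ j))
    exact h1 (Ideal.mem_span_singleton_self _)
  have hnot : (p : 𝓞 L) ∉ (𝔭 j).asIdeal ^ 2 := by
    intro h
    have h1 : (𝔭 j).asIdeal ^ 2 ∣ ∏ i, (𝔭 i).asIdeal := by
      rw [hprod, Ideal.dvd_span_singleton]
      exact h
    rw [← Finset.mul_prod_erase _ _ (Finset.mem_univ j), pow_two] at h1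
    have h2 : (𝔭 j).asIdeal ∣ ∏ i ∈ Finset.univ.erase j, (𝔭 i).asIdeal :=
      (mul_dvd_mul_iff_left (𝔭 j).ne_bot).1 h1
    rw [(𝔭 j).prime.dvd_finset_prod_iff] at h2
    obtain ⟨i, hi, hd⟩ := h2
    have h3 : (𝔭 i).asIdeal ≤ (𝔭 j).asIdeal := Ideal.le_of_dvd hd
    have h4 : (𝔭 i).asIdeal = (𝔭 j).asIdeal :=
      (𝔭 i).isMaximal.eq_of_le (𝔭 j).isPrime.ne_top h3
    exact (Finset.mem_erase.1 hi).1 (hinj (HeightOneSpectrum.ext h4))
  have e1 := ((𝔭 j).intValuation_le_pow_iff_mem (p : 𝓞 L) 1).2 (by rwa [pow_one])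
  have e2 : ¬ (𝔭 j).intValuation (p : 𝓞 L) ≤ WithZero.exp (-((2 : ℕ) : ℤ)) :=
    fun h => hnot (((𝔭 j).intValuation_le_pow_iff_mem (p : 𝓞 L) 2).1 h)
  have hv : (𝔭 j).valuation L (((p : ℚ) : L)) = (𝔭 j).intValuation (p : 𝓞 L) := by
    rw [← (𝔭 j).valuation_of_algebraMap (K := L)]
    simp
  have h0 : (𝔭 j).intValuation (p : 𝓞 L) ≠ 0 := (𝔭 j).intValuation_ne_zero _ hpO
  unfold par
  rw [hv]
  have f1 := (WithZero.log_le_iff_le_exp h0).2 e1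
  have f2 : ¬ WithZero.log ((𝔭 j).intValuation (p : 𝓞 L)) ≤ (-((2 : ℕ) : ℤ)) :=
    fun h => e2 ((WithZero.log_le_iff_le_exp h0).1 h)
  have f3 : WithZero.log ((𝔭 j).intValuation (p : 𝓞 L)) = -1 := by
    push_cast at f1 f2
    omega
  rw [f3]
  rfl

theorem par_int {n p : ℕ} (𝔭 : Fin n → HeightOneSpectrum (𝓞 L)) (hinj : Function.Injective 𝔭)
    (hp : p.Prime)
    (hprod : ∏ j, (𝔭 j).asIdeal = Ideal.span {(p : 𝓞 L)}) (m : ℤ) (hm : m ≠ 0) :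
    ∃ κ : ZMod 2, ∀ j : Fin n, par (𝔭 j) ((m : ℚ) : L) = κ := by
  have hfin : FiniteMultiplicity (p : ℤ) m := by
    rw [Int.finiteMultiplicity_iff]
    exact ⟨by simpa using hp.ne_one, hm⟩
  obtain ⟨m', hm', hnd⟩ := hfin.exists_eq_pow_mul_and_not_dvd
  refine ⟨((multiplicity (p : ℤ) m : ℕ) : ZMod 2), fun j => ?_⟩
  have hm'0 : m' ≠ 0 := by
    rintro rfl
    exact hm (by rw [hm', mul_zero])
  have hmemp : (p : 𝓞 L) ∈ (𝔭 j).asIdeal := by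
    have h1 : Ideal.span {(p : 𝓞 L)} ≤ (𝔭 j).asIdeal := by
      rw [← hprod]
      exact Ideal.le_of_dvd (Finset.dvd_prod_of_mem _ (Finset.mem_univ j))
    exact h1 (Ideal.mem_span_singleton_self _)
  have hunit : (𝔭 j).valuation L (((m' : ℚ)) : L) = 1 := by
    have hv : (𝔭 j).valuation L (((m' : ℚ) : L)) = (𝔭 j).intValuation (m' : 𝓞 L) := by
      rw [← (𝔭 j).valuation_of_algebraMap (K := L)]
      simp
    rw [hv, (𝔭 j).intValuation_eq_one_iff_mem_primeCompl]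
    intro hmem
    obtain ⟨a, b, hab⟩ : IsCoprime (p : ℤ) m' :=
      (Prime.coprime_iff_not_dvd (Nat.prime_iff_prime_int.1 hp)).2 hnd
    apply (𝔭 j).isPrime.ne_top
    rw [Ideal.eq_top_iff_one]
    have : (1 : 𝓞 L) = (a : 𝓞 L) * (p : 𝓞 L) + (b : 𝓞 L) * (m' : 𝓞 L) := by
      have := congrArg (fun z : ℤ => (z : 𝓞 L)) hab
      push_cast at this
      exact this.symm
    rw [this]
    exact Ideal.add_mem _ (Ideal.mul_mem_left _ _ hmemp) (Ideal.mul_mem_left _ _ hmem)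
  have hpL : (((p : ℚ)) : L) ≠ 0 := by
    have : (p : ℚ) ≠ 0 := by exact_mod_cast hp.ne_zero
    exact_mod_cast this
  have hm'L : (((m' : ℚ)) : L) ≠ 0 := by
    have : (m' : ℚ) ≠ 0 := by exact_mod_cast hm'0
    exact_mod_cast this
  have hpar' : par (𝔭 j) (((m' : ℚ)) : L) = 0 := by
    unfold par
    rw [hunit]
    simp
  have hpp := par_p 𝔭 hinj hp.ne_zero hprod j
  have hpow : ∀ e : ℕ, par (𝔭 j) ((((p : ℚ)) : L) ^ e) = (e : ZMod 2) := by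
    intro e
    induction e with
    | zero => simp [par]
    | succ e ih =>
      rw [pow_succ, par_mul _ (pow_ne_zero _ hpL) hpL, ih, hpp]
      push_cast
      ring
  have : (((m : ℚ)) : L) = ((((p : ℚ)) : L) ^ (multiplicity (p : ℤ) m)) * (((m' : ℚ)) : L) := by
    conv_lhs => rw [hm']
    push_cast
    ring
  rw [this, par_mul _ (pow_ne_zero _ hpL) hm'L, hpow, hpar', add_zero]

theorem par_rat {n p : ℕ} (𝔭 : Fin n → HeightOneSpectrum (𝓞 L)) (hinj : Function.Injective 𝔭)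
    (hp : p.Prime)
    (hprod : ∏ j, (𝔭 j).asIdeal = Ideal.span {(p : 𝓞 L)}) (c : ℚ) (hc : c ≠ 0) :
    ∃ κ : ZMod 2, ∀ j : Fin n, par (𝔭 j) (c : L) = κ := by
  obtain ⟨κ₁, h₁⟩ := par_int 𝔭 hinj hp hprod c.num (Rat.num_ne_zero.2 hc)
  obtain ⟨κ₂, h₂⟩ := par_int 𝔭 hinj hp hprod (c.den : ℤ) (by exact_mod_cast c.den_nz)
  refine ⟨κ₁ + κ₂, fun j => ?_⟩
  have hcL : (c : L) ≠ 0 := by exact_mod_cast hc
  have hdL : (((c.den : ℤ) : ℚ) : L) ≠ 0 := by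
    have : ((c.den : ℤ) : ℚ) ≠ 0 := by exact_mod_cast c.den_nz
    exact_mod_cast this
  have h3 : (c : L) * (((c.den : ℤ) : ℚ) : L) = ((c.num : ℚ) : L) := by
    rw [← Rat.cast_mul]
    congr 1
    push_cast
    exact Rat.mul_den_eq_num c
  have h4 : par (𝔭 j) (c : L) + κ₂ = κ₁ := by
    rw [← h₁ j, ← h₂ j, ← h3, par_mul _ hcL hdL]
  rw [← h4, add_assoc, two0, add_zero]

end PGBP

open PGBP in
theorem t_PGB : S_PGB := by
  intro hSPL hLIN hPGA n W f L _ _ θ hn hev hRt hGW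
  obtain ⟨c, hc⟩ := hPGA n W f L θ (by omega) hRt hGW
  obtain ⟨m₀, hm₀⟩ := hLIN n c hn hev
  refine ⟨m₀, fun P hP hPp => ?_⟩
  choose 𝔭 h1 h2 h3 using fun p : P =>
    hSPL n W f L θ hRt hGW p (hPp p p.2).1 (hPp p p.2).2.1 (hPp p p.2).2.2
  obtain ⟨T, hT, Φ, hTc, hΦ⟩ := hc P 𝔭 (fun p => ⟨(hPp p p.2).1, (hPp p p.2).2.1⟩) h1 h2 h3
  obtain ⟨r, v₀, v, hv₀, hv, hvΦ, hr, hind⟩ := hm₀ P (by rwa [Fintype.card_coe]) T hTc Φ
  choose A hA0 hA1 hA2 hA3 hA4 hA5 using fun k : Fin r => hΦ (v k) v₀ (hvΦ k) (hv k) hv₀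
  refine ⟨r, A, ⟨by rwa [Fintype.card_coe] at hr, hA0, hA1, hA2, hA3, hA4, ?_⟩⟩
  intro I hI c' s hcs
  have hne : ∏ i ∈ I, aeval θ (A i) ≠ 0 := Finset.prod_ne_zero_iff.2 fun i _ => hA0 i
  have hc'L : (c' : L) ≠ 0 := by
    intro h
    apply hne
    rw [hcs, h, zero_mul]
  have hc' : c' ≠ 0 := by
    rintro rfl
    exact hc'L (by simp)
  have hs : s ≠ 0 := by
    rintro rfl
    apply hne
    rw [hcs]
    simp
  choose κ hκ using fun p : P => par_rat (𝔭 p) (h1 p) (hPp p p.2).1 (h3 p) c' hc'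
  obtain ⟨p, j, hpj⟩ := hind I hI κ
  apply hpj
  have e1 : par (𝔭 p j) (∏ i ∈ I, aeval θ (A i)) = ∑ k ∈ I, (v k p j + v₀ p j) := by
    rw [par_prod _ _ _ hA0]
    refine Finset.sum_congr rfl fun k _ => ?_
    exact par_eq _ (hA0 k) _ (hA5 k p j)
  rw [← e1, hcs, par_mul _ hc'L (pow_ne_zero _ hs), par_sq _ hs, add_zero, hκ]

end Pool.Agent.H30Q
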