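import Pool.Agent.H30Q.Stm
import Pool.Agent.N286.PF.HV
import Pool.Agent.N835.PQ.Rec
import Pool.Agent.N446.M4.Mod

/-!
# Project HQ, piece PRF: the product formula (helper33)
-/

set_option autoImplicit false
set_option linter.all false

open Polynomial Matrix
open scoped Classical

namespace Pool.Agent.H30Q

open Pool.Agent.N783.PF (HV)
open Pool.Agent.N202.M4 (hil IsSymbol hasse)
open Pool.Agent.N446.M4 (hasse_prod hv hv_pm hasse_pm zl zl_ne hasse_zl)

namespace PRFP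

/-- the determinant does not depend on the decision procedure -/
theorem det_ne {R : Type} [CommRing R] {ι : Type} [Fintype ι] (i1 i2 : DecidableEq ι)
    {M : Matrix ι ι R} (h : @Matrix.det ι i1 _ R _ M ≠ 0) : @Matrix.det ι i2 _ R _ M ≠ 0 := by
  rwa [Subsingleton.elim i2 i1]

/-- the Hasse invariant from a diagonal form -/
theorem hs_of_diag {E : Type} [Field E] [CharZero E] (hs : IsSymbol (hil E)) {n : ℕ}
    {M : Matrix (Fin n) (Fin n) E} (hd : M.det ≠ 0) {a : Fin n → E} {T : Matrix (Fin n) (Fin n) E}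
    (ha : ∀ i, a i ≠ 0) (hT : T * Matrix.diagonal a * Tᵀ = M) :
    Hs M = hasse (hil E) (List.ofFn a) := by
  have h1 : HV M (hasse (hil E) (List.ofFn a)) :=
    ⟨n, Equiv.refl _, a, T, ha, by rw [hT]; rfl, rfl⟩
  have hpm : hasse (hil E) (List.ofFn a) = 1 ∨ hasse (hil E) (List.ofFn a) = -1 :=
    hasse_pm hs.pm _
  rcases hpm with h | h
  · rw [h] at h1 ⊢
    rw [Hs, if_pos h1]
  · rw [h] at h1 ⊢
    rw [Hs, if_neg]
    intro h2
    have hu : ∀ ε ε' : ℤ, HV M ε → HV M ε' → ε = ε' := fun ε ε' k1 k2 => by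
      exact Pool.Agent.N286.PF.hv_unique (M := M) hs (det_ne _ _ hd) k1 k2
    have := hu _ _ h1 h2
    norm_num at this

/-- one place -/
theorem hs_cast {E : Type} [Field E] [CharZero E] (hs : IsSymbol (hil E)) {n : ℕ}
    {M : Matrix (Fin n) (Fin n) ℚ} (hd : M.det ≠ 0) {a : Fin n → ℚ} {T : Matrix (Fin n) (Fin n) ℚ}
    (ha : ∀ i, a i ≠ 0) (hT : T * Matrix.diagonal a * Tᵀ = M) :
    Hs (M.map (Rat.castHom E)) = hasse (fun x y : ℤ => hil E (x : E) (y : E)) (zl a) := by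
  have h1 : (M.map (Rat.castHom E)).det ≠ 0 := by
    have := RingHom.map_det (Rat.castHom E) M
    rw [RingHom.mapMatrix_apply] at this
    rw [← this]
    exact (_root_.map_ne_zero _).2 hd
  rw [hs_of_diag hs h1 (a := fun i => (a i : E)) (T := T.map (Rat.castHom E))
    (fun i => by exact_mod_cast ha i) ?_, hasse_zl]
  rw [← hT, Matrix.map_mul, Matrix.map_mul, Matrix.diagonal_map (map_zero _),
    Matrix.transpose_map]
  rfl

theorem gn_cast (hB : S_GMB) {E : Type} [Field E] [CharZero E] {n : ℕ} (hn : 1 ≤ n) (f : ℤ[X])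
    (hf : f.Monic) (hd : f.natDegree = n) (b : ℚ[X]) :
    Gn n (ov E f) (oq E b) = (Gn n (ov ℚ f) b).map (Rat.castHom E) := by
  have h := ((hB ℚ n (ov ℚ f) hn (hf.map _) (by rw [hf.natDegree_map, hd])).2.2 E
    (Rat.castHom E) b).1
  rw [h]
  congr 1
  rw [ov, ov, Polynomial.map_map]
  congr 1
  exact RingHom.ext_int _ _

theorem gn_ne (hA : S_GMA) (hB : S_GMB) {n : ℕ} (hn : 1 ≤ n) (f : ℤ[X])
    (hf : f.Monic) (hd : f.natDegree = n) (b : ℚ[X]) (hb : IsCoprime b (ov ℚ f)) :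
    (Gn n (ov ℚ f) b).det ≠ 0 := by
  have hm : (ov ℚ f).Monic := hf.map _
  have hdd : (ov ℚ f).natDegree = n := by rw [hf.natDegree_map, hd]
  rw [(hB ℚ n (ov ℚ f) hn hm hdd).1 b]
  refine mul_ne_zero (((hB ℚ n (ov ℚ f) hn hm hdd).2.1 b).2 hb).ne_zero ?_
  have h := (hA ℚ n (ov ℚ f) hn hm hdd).2.2.2.2
  intro h0
  rw [h0] at h
  norm_num at h

end PRFP

open PRFP

theorem t_PRF : S_PRF := by
  intro hA hB n f δ a hn hf hd hδ ha
  have hm : (ov ℚ f).Monic := hf.map _
  have hdd : (ov ℚ f).natDegree = n := by rw [hf.natDegree_map, hd]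
  have hδa : IsCoprime (δ * a) (ov ℚ f) := hδ.mul_left ha
  have h1 : IsCoprime (1 : ℚ[X]) (ov ℚ f) := isCoprime_one_left
  have hsymm : ∀ b : ℚ[X], (Gn n (ov ℚ f) b).IsSymm := (hA ℚ n (ov ℚ f) hn hm hdd).1
  have D : ∀ b : ℚ[X], IsCoprime b (ov ℚ f) → ∃ c : Fin n → ℚ, (∀ i, c i ≠ 0) ∧
      ∀ (E : Type) [Field E] [CharZero E], IsSymbol (hil E) →
        Hs (Gn n (ov E f) (oq E b)) = hasse (fun x y : ℤ => hil E (x : E) (y : E)) (zl c) := by
    intro b hb
    obtain ⟨c, T, hc, -, hT⟩ := Pool.Agent.N835.PQ.exists_diag (Gn n (ov ℚ f) b) (hsymm b)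
      (gn_ne hA hB hn f hf hd b hb)
    refine ⟨c, hc, fun E _ _ hs => ?_⟩
    rw [gn_cast hB hn f hf hd b]
    exact hs_cast hs (gn_ne hA hB hn f hf hd b hb) hc hT
  obtain ⟨c1, hc1, e1⟩ := D _ hδa
  obtain ⟨c2, hc2, e2⟩ := D _ hδ
  obtain ⟨c3, hc3, e3⟩ := D _ ha
  obtain ⟨c4, hc4, e4⟩ := D _ h1
  let G : Option Nat.Primes → ℤ := fun v => hasse (hv v) (zl c1) * hasse (hv v) (zl c2) *
    hasse (hv v) (zl c3) * hasse (hv v) (zl c4)
  have hG : ∃ S0 : Finset (Option Nat.Primes), ∀ S : Finset (Option Nat.Primes), S0 ⊆ S →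
      ∏ v ∈ S, G v = 1 := by
    obtain ⟨S1, k1⟩ := hasse_prod (zl c1) (zl_ne hc1)
    obtain ⟨S2, k2⟩ := hasse_prod (zl c2) (zl_ne hc2)
    obtain ⟨S3, k3⟩ := hasse_prod (zl c3) (zl_ne hc3)
    obtain ⟨S4, k4⟩ := hasse_prod (zl c4) (zl_ne hc4)
    refine ⟨((S1 ∪ S2) ∪ S3) ∪ S4, fun S hS => ?_⟩
    have g4 := k4 S (Finset.union_subset_right hS)
    have g3 := k3 S (Finset.union_subset_right (Finset.union_subset_left hS))
    have g2 := k2 S (Finset.union_subset_right (Finset.union_subset_left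
      (Finset.union_subset_left hS)))
    have g1 := k1 S (Finset.union_subset_left (Finset.union_subset_left
      (Finset.union_subset_left hS)))
    show ∏ v ∈ S, hasse (hv v) (zl c1) * hasse (hv v) (zl c2) *
      hasse (hv v) (zl c3) * hasse (hv v) (zl c4) = 1
    rw [Finset.prod_mul_distrib, Finset.prod_mul_distrib, Finset.prod_mul_distrib, g1, g2, g3, g4]
    norm_num
  obtain ⟨S0, hS0⟩ := hG
  -- the places
  have hreal : ee n (ov ℝ f) (oq ℝ δ) (oq ℝ a) = G none := by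
    have hs := Pool.Agent.N835.PQ.symR
    have g1 := e1 ℝ hs
    have g2 := e2 ℝ hs
    have g3 := e3 ℝ hs
    have g4 := e4 ℝ hs
    rw [ee]
    have hmul : oq ℝ δ * oq ℝ a = oq ℝ (δ * a) := by rw [oq, oq, oq, Polynomial.map_mul]
    have hone : (1 : ℝ[X]) = oq ℝ 1 := by rw [oq, Polynomial.map_one]
    rw [hmul, hone, g1, g2, g3, g4]
    rfl
  have hp : ∀ (p : ℕ) (hp : p.Prime), eeP p n f δ a = G (some ⟨p, hp⟩) := by
    intro p hp
    haveI : Fact p.Prime := ⟨hp⟩
    have hs : IsSymbol (hil ℚ_[p]) := Pool.Agent.N446.M4.sym_ p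
    have g1 := e1 ℚ_[p] hs
    have g2 := e2 ℚ_[p] hs
    have g3 := e3 ℚ_[p] hs
    have g4 := e4 ℚ_[p] hs
    rw [eeP, dif_pos hp, ee]
    have hmul : oq ℚ_[p] δ * oq ℚ_[p] a = oq ℚ_[p] (δ * a) := by
      rw [oq, oq, oq, Polynomial.map_mul]
    have hone : (1 : ℚ_[p][X]) = oq ℚ_[p] 1 := by rw [oq, Polynomial.map_one]
    rw [hmul, hone, g1, g2, g3, g4]
    rfl
  set U : Finset (Option Nat.Primes) := insert none S0 with hU
  have hUS : S0 ⊆ U := Finset.subset_insert _ _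
  have hout : ∀ v, v ∉ U → G v = 1 := by
    intro v hv
    have h1 := hS0 (insert v U) (hUS.trans (Finset.subset_insert _ _))
    rw [Finset.prod_insert hv, hS0 U hUS, mul_one] at h1
    exact h1
  let j : Option Nat.Primes → ℕ := fun v => match v with
    | none => 0
    | some p => (p : ℕ)
  have hj : ∀ (p : ℕ) (hp : p.Prime), j (some ⟨p, hp⟩) = p := fun _ _ => rfl
  refine ⟨(U.erase none).image j, ?_, ?_⟩
  · intro p hpT
    by_cases hpp : p.Prime
    · rw [hp p hpp]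
      apply hout
      intro hmem
      apply hpT
      exact Finset.mem_image.2 ⟨some ⟨p, hpp⟩, Finset.mem_erase.2 ⟨by simp, hmem⟩, rfl⟩
    · rw [eeP, dif_neg hpp]
  · have hinj : ∀ v ∈ U.erase none, ∀ w ∈ U.erase none, j v = j w → v = w := by
      intro v hv w hw h
      have hv' := Finset.ne_of_mem_erase hv
      have hw' := Finset.ne_of_mem_erase hw
      cases v with
      | none => exact absurd rfl hv'
      | some p =>
        cases w with
        | none => exact absurd rfl hw'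
        | some q => exact congrArg some (Subtype.ext h)
    rw [Finset.prod_image hinj, hreal]
    have h5 : ∀ v ∈ U.erase none, eeP (j v) n f δ a = G v := by
      intro v hv
      have hv' := Finset.ne_of_mem_erase hv
      cases v with
      | none => exact absurd rfl hv'
      | some p => exact hp (p : ℕ) p.2
    rw [Finset.prod_congr rfl h5, Finset.mul_prod_erase _ _ (Finset.mem_insert_self none _)]
    exact hS0 U hUS

end Pool.Agent.H30Q
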