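import Pool.Agent.H30Q.Stm
import Pool.Agent.N615.JB.Alg0
import Pool.Agent.N507.PQ.Hs
import Pool.Agent.N446.M4.Sym

/-!
# QPT: the symbol at the primes `q` with `q ∥ D`, `f = (X - e) h` modulo `q`
-/

set_option autoImplicit false

open Polynomial
open scoped Classical

namespace Pool.Agent.H30Q.QPTP

open Pool.Agent.N202.M4 (hil IsSymbol)
open Pool.Agent.H30Q

/-! ### Norms -/

section norms

variable {K : Type} [Field K]

lemma nm_prod {F G : K[X]} (b : K[X]) (hF : F.Monic) (hG : G.Monic) :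
    nm (F * G) b = nm F b * nm G b := by
  apply (algebraMap K (AlgebraicClosure K)).injective
  have e := fun (P : K[X]) (hP : P.Monic) =>
    Pool.Agent.N615.JB.nrm0 K (AlgebraicClosure K) P b hP (IsAlgClosed.splits _)
  rw [map_mul, e _ (hF.mul hG), e _ hF, e _ hG, Polynomial.map_mul, Polynomial.roots_mul,
    Multiset.map_add, Multiset.prod_add]
  exact mul_ne_zero (hF.map _).ne_zero (hG.map _).ne_zero

lemma nm_lin (e : K) (b : K[X]) : nm (X - C e) b = b.eval e := by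
  apply (algebraMap K (AlgebraicClosure K)).injective
  rw [Pool.Agent.N615.JB.nrm0 K (AlgebraicClosure K) _ b (monic_X_sub_C e) (IsAlgClosed.splits _),
    Polynomial.map_sub, Polynomial.map_X, Polynomial.map_C, Polynomial.roots_X_sub_C,
    Multiset.map_singleton, Multiset.prod_singleton, aeval_algebraMap_apply, coe_aeval_eq_eval]

lemma nm_sub {F : K[X]} (hF : F.Monic) (x : K) : nm F (C x - X) = F.eval x := by
  apply (algebraMap K (AlgebraicClosure K)).injective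
  have hs : (F.map (algebraMap K (AlgebraicClosure K))).Splits := IsAlgClosed.splits _
  rw [Pool.Agent.N615.JB.nrm0 K (AlgebraicClosure K) F _ hF hs]
  have h1 := hs.eval_eq_prod_roots_of_monic (hF.map _) (algebraMap K (AlgebraicClosure K) x)
  rw [eval_map_algebraMap, aeval_algebraMap_apply, coe_aeval_eq_eval] at h1
  rw [h1]
  congr 1
  refine Multiset.map_congr rfl fun a _ => ?_
  simp

end norms

section finite

variable {p : ℕ} [hp : Fact p.Prime]

lemma sq_of_norm (hp2 : p ≠ 2) {h b : (ZMod p)[X]} (hi : Irreducible h) (hb : ¬ h ∣ b)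
    (hs : IsSquare (nm h b)) : ∃ w, h ∣ b - w ^ 2 := by
  have : Fact (Irreducible h) := ⟨hi⟩
  have hfin : Module.Finite (ZMod p) (AdjoinRoot h) := (AdjoinRoot.powerBasis hi.ne_zero).finite
  have : Finite (AdjoinRoot h) := Module.finite_of_finite (ZMod p)
  have : Fintype (AdjoinRoot h) := Fintype.ofFinite _
  obtain ⟨x, hx⟩ : ∃ x, x = AdjoinRoot.mk h b := ⟨_, rfl⟩
  have hx0 : x ≠ 0 := by
    rw [hx, Ne, AdjoinRoot.mk_eq_zero]
    exact hb
  have hc1 : ringChar (ZMod p) ≠ 2 := by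
    rw [ZMod.ringChar_zmod_n]
    exact hp2
  have hcp : CharP (AdjoinRoot h) p :=
    charP_of_injective_algebraMap (algebraMap (ZMod p) (AdjoinRoot h)).injective p
  have hc2 : ringChar (AdjoinRoot h) ≠ 2 := by
    have h0 : ringChar (AdjoinRoot h) = p := CharP.eq (AdjoinRoot h) (ringChar.charP _) hcp
    rw [h0]
    exact hp2
  have hn0 : Algebra.norm (ZMod p) x ≠ 0 := by
    rw [Ne, Algebra.norm_eq_zero_iff]
    exact hx0
  have h1 := (FiniteField.isSquare_iff hc1 hn0).1 (by rw [hx]; exact hs)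
  have h2 := FiniteField.algebraMap_norm_eq_pow (K := ZMod p) (x := x)
  have h3 : x ^ (Fintype.card (AdjoinRoot h) / 2) = 1 := by
    have h4 := congrArg (algebraMap (ZMod p) (AdjoinRoot h)) h1
    rw [map_pow, map_one, h2, ← pow_mul] at h4
    rw [← h4]
    congr 1
    rw [Nat.card_eq_fintype_card, Nat.card_eq_fintype_card, ZMod.card]
    have h5 : Fintype.card (AdjoinRoot h) = p ^ (Module.finrank (ZMod p) (AdjoinRoot h)) := by
      rw [Module.card_eq_pow_finrank (K := ZMod p), ZMod.card]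
    rw [h5]
    set N := Module.finrank (ZMod p) (AdjoinRoot h)
    have hodd : p % 2 = 1 := hp.out.eq_two_or_odd.resolve_left hp2
    have hp1 := hp.out.one_lt
    obtain ⟨r, hr⟩ : ∃ r, p ^ N - 1 = (p - 1) * r := by
      have := Nat.sub_one_dvd_pow_sub_one p N
      exact this
    rw [hr, Nat.mul_div_cancel_left _ (by omega)]
    have h6 : 1 ≤ p ^ N := Nat.one_le_pow _ _ (by omega)
    obtain ⟨k, hk⟩ : ∃ k, p = 2 * k + 1 := ⟨p / 2, by omega⟩
    have h7 : p / 2 = k := by omega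
    have h8 : p ^ N = 2 * (k * r) + 1 := by
      have : p - 1 = 2 * k := by omega
      rw [this] at hr
      have h9 : p ^ N = 2 * k * r + 1 := by omega
      rw [h9]
      ring
    rw [h7, h8, show (2 * (k * r) + 1) / 2 = k * r by omega]
    ring
  obtain ⟨y, hy⟩ := (FiniteField.isSquare_iff hc2 hx0).2 h3
  obtain ⟨w, hw⟩ := AdjoinRoot.mk_surjective y
  refine ⟨w, ?_⟩
  rw [← AdjoinRoot.mk_eq_zero, map_sub, map_pow, ← hx, hw, hy]
  ring

end finite

section hensel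

variable {q : ℕ} [hq : Fact q.Prime]

lemma red_map (P : ℤ[X]) :
    (P.map (Int.castRingHom ℤ_[q])).map (PadicInt.toZMod (p := q)) = rd q P := by
  rw [Polynomial.map_map]
  congr 1
  exact RingHom.ext_int _ _

lemma dvd_of_map_zero (P : ℤ_[q][X]) (h : P.map (PadicInt.toZMod (p := q)) = 0) :
    C (q : ℤ_[q]) ∣ P := by
  rw [C_dvd_iff_dvd_coeff]
  intro i
  have h1 : PadicInt.toZMod (P.coeff i) = 0 := by rw [← coeff_map, h, coeff_zero]
  rw [← RingHom.mem_ker, PadicInt.ker_toZMod, PadicInt.maximalIdeal_eq_span_p,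
    Ideal.mem_span_singleton] at h1
  exact h1

lemma cop_lift (h2 : S_GMB) {f t : ℤ_[q][X]} {n : ℕ} (hn : 1 ≤ n) (hf : f.Monic)
    (hd : f.natDegree = n)
    (h : IsCoprime (t.map (PadicInt.toZMod (p := q))) (f.map (PadicInt.toZMod (p := q)))) :
    IsCoprime t f := by
  obtain ⟨-, g2, g3⟩ := h2 ℤ_[q] n f hn hf hd
  obtain ⟨-, k2, -⟩ := h2 (ZMod q) n (f.map (PadicInt.toZMod (p := q))) hn (hf.map _)
    (by rw [hf.natDegree_map, hd])
  rw [← g2]
  have e := (g3 (ZMod q) (PadicInt.toZMod (p := q)) t).2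
  have u := (k2 (t.map (PadicInt.toZMod (p := q)))).2 h
  rw [e] at u
  rw [Pool.Agent.N507.PQ.unit_iff]
  exact u.ne_zero

lemma nm_C {K : Type} [Field K] {F : K[X]} (hF : F.Monic) (c : K) :
    nm F (C c) = c ^ F.natDegree := by
  show Algebra.norm K (AdjoinRoot.mk F (C c)) = _
  rw [AdjoinRoot.mk_C, ← AdjoinRoot.algebraMap_eq, Algebra.norm_algebraMap_of_basis
    (AdjoinRoot.powerBasis hF.ne_zero).basis]
  rw [Fintype.card_fin, AdjoinRoot.powerBasis_dim]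

lemma main_sq (h2 : S_GMB) (hH : S_HEN) (hq2 : q ≠ 2) {n : ℕ} {f A h : ℤ[X]} {e : ℤ}
    (hn : 4 ≤ n) (hev : Even n) (hf : f.Monic) (hd : f.natDegree = n) (hh : h.Monic)
    (hhd : h.natDegree = n - 1) (hi : Irreducible (rd q h))
    (hfh : rd q f = rd q ((X - C e) * h)) (hc : IsCoprime (rd q A) (rd q f))
    (hs : IsSquare (nm (ov ℚ f) (ov ℚ A))) :
    ((A.eval e : ℤ) : ZMod q) ≠ 0 ∧ ∃ s : ℤ_[q][X],
      IsCoprime s (f.map (Int.castRingHom ℤ_[q])) ∧
      f.map (Int.castRingHom ℤ_[q]) ∣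
        C ((A.eval e : ℤ) : ℤ_[q]) * A.map (Int.castRingHom ℤ_[q]) - s ^ 2 := by
  obtain ⟨c, hcd⟩ : ∃ c : ZMod q, c = ((A.eval e : ℤ) : ZMod q) := ⟨_, rfl⟩
  obtain ⟨e', he'⟩ : ∃ e' : ZMod q, e' = (e : ZMod q) := ⟨_, rfl⟩
  obtain ⟨Ab, hAb⟩ : ∃ Ab, Ab = rd q A := ⟨_, rfl⟩
  obtain ⟨hb, hhb⟩ : ∃ hb, hb = rd q h := ⟨_, rfl⟩
  have hcA : Ab.eval e' = c := by
    rw [hAb, he', hcd, Polynomial.eval_intCast_map]
    rfl
  have hfb : rd q f = (X - C e') * hb := by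
    rw [hfh, hhb, he']
    show Polynomial.map (Int.castRingHom (ZMod q)) ((X - C e) * h) = _
    rw [Polynomial.map_mul, Polynomial.map_sub, Polynomial.map_X, Polynomial.map_C]
    rfl
  rw [← hAb, hfb] at hc
  rw [← hhb] at hi
  have hhm : hb.Monic := by rw [hhb]; exact hh.map _
  have hhdeg : hb.natDegree = n - 1 := by rw [hhb, hh.natDegree_map, hhd]
  have hc0 : c ≠ 0 := by
    obtain ⟨u, v, huv⟩ := hc
    have h1 := congrArg (Polynomial.eval e') huv
    simp only [eval_add, eval_mul, eval_sub, eval_X, eval_C, sub_self, zero_mul, mul_zero, add_zero,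
      eval_one, hcA] at h1
    rintro rfl
    rw [mul_zero] at h1
    exact zero_ne_one h1
  have hcu : IsUnit (C c) := isUnit_C.2 (isUnit_iff_ne_zero.2 hc0)
  -- the norm modulo `q` is a square
  have hn1 : IsSquare (nm (rd q f) (rd q A)) := by
    obtain ⟨-, -, g3⟩ := h2 ℤ n f (by omega) hf hd
    have e1 := (g3 ℚ (Int.castRingHom ℚ) A).2
    have e2 := (g3 (ZMod q) (Int.castRingHom (ZMod q)) A).2
    have h3 : IsSquare (nm f A) := by
      rw [← Rat.isSquare_intCast_iff]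
      have : ((nm f A : ℤ) : ℚ) = nm (ov ℚ f) (ov ℚ A) := e1.symm
      rw [this]
      exact hs
    rw [e2]
    exact h3.map _
  have hn2 : nm (rd q f) (rd q A) = c * nm hb Ab := by
    rw [hfb, ← hAb, nm_prod Ab (monic_X_sub_C e') hhm, nm_lin, hcA]
  rw [hn2] at hn1
  have hcb : IsCoprime (C c * Ab) ((X - C e') * hb) :=
    IsCoprime.mul_left ⟨C c⁻¹, 0, by
      rw [zero_mul, add_zero, ← C_mul, inv_mul_cancel₀ hc0, C_1]⟩ hc
  have hcb2 : IsCoprime (C c * Ab) hb := hcb.of_mul_right_right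
  have hn3 : IsSquare (nm hb (C c * Ab)) := by
    have e1 : nm hb (C c * Ab) = c ^ (n - 1) * nm hb Ab := by
      rw [← hhdeg, ← nm_C hhm]
      show Algebra.norm (ZMod q) (AdjoinRoot.mk hb (C c * Ab)) = _
      rw [map_mul, map_mul]
    obtain ⟨k, hk⟩ := hev
    obtain ⟨r, hr⟩ := hn1
    refine ⟨c ^ (k - 1) * r, ?_⟩
    rw [e1, show n - 1 = (k - 1) + (k - 1) + 1 by omega, pow_succ, pow_add, mul_assoc _ c, hr]
    ring
  obtain ⟨w, hw⟩ := sq_of_norm hq2 hi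
    (fun h3 => hi.not_isUnit (hcb2.symm.isUnit_of_dvd h3)) hn3
  -- Chinese remainder theorem
  have hcop : IsCoprime (X - C e') hb := by
    rw [(irreducible_X_sub_C e').coprime_iff_not_dvd]
    rintro ⟨g, hg⟩
    rcases hi.isUnit_or_isUnit hg with h3 | h3
    · exact (irreducible_X_sub_C e').not_isUnit h3
    · have h4 : hb.natDegree = 1 := by
        rw [hg, natDegree_mul (X_sub_C_ne_zero e') h3.ne_zero, natDegree_X_sub_C,
          natDegree_eq_zero_of_isUnit h3]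
      omega
  obtain ⟨u, v, huv⟩ := hcop
  obtain ⟨tb, htb⟩ : ∃ tb, tb = C c * (v * hb) + w * (u * (X - C e')) := ⟨_, rfl⟩
  have hd1 : (X - C e') ∣ C c * Ab - tb ^ 2 := by
    rw [dvd_iff_isRoot, IsRoot.def]
    have h1 := congrArg (Polynomial.eval e') huv
    simp only [eval_add, eval_mul, eval_sub, eval_X, eval_C, sub_self, zero_mul, mul_zero, zero_add,
      eval_one] at h1
    simp only [htb, eval_add, eval_mul, eval_sub, eval_X, eval_C, sub_self, mul_zero, add_zero,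
      eval_pow, hcA, h1]
    ring
  have hd2 : hb ∣ C c * Ab - tb ^ 2 := by
    have h1 : tb - w = hb * ((C c - w) * v) := by
      have h3 : u * (X - C e') = 1 - v * hb := by rw [← huv]; ring
      rw [htb, h3]
      ring
    have h3 : C c * Ab - tb ^ 2 = (C c * Ab - w ^ 2) - (tb - w) * (tb + w) := by ring
    rw [h3, h1]
    refine dvd_sub hw ?_
    rw [mul_assoc]
    exact dvd_mul_right _ _
  obtain ⟨zb, hzb⟩ : (X - C e') * hb ∣ C c * Ab - tb ^ 2 :=
    (show IsCoprime (X - C e') hb from ⟨u, v, huv⟩).mul_dvd hd1 hd2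
  have htcop : IsCoprime tb ((X - C e') * hb) := by
    have h1 : tb ^ 2 = C c * Ab + (-zb) * ((X - C e') * hb) := by
      linear_combination (-1 : (ZMod q)[X]) * hzb
    have h3 : IsCoprime (tb ^ 2) ((X - C e') * hb) := by
      rw [h1]
      exact hcb.add_mul_right_left _
    exact (IsCoprime.pow_left_iff (by norm_num)).1 h3
  -- lift
  have hsur : Function.Surjective (PadicInt.toZMod (p := q)) := ZMod.ringHom_surjective _
  obtain ⟨t, ht⟩ := Polynomial.map_surjective _ hsur tb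
  obtain ⟨z, hz⟩ := Polynomial.map_surjective _ hsur zb
  obtain ⟨fz, hfz⟩ : ∃ fz, fz = f.map (Int.castRingHom ℤ_[q]) := ⟨_, rfl⟩
  obtain ⟨Az, hAz⟩ : ∃ Az, Az = A.map (Int.castRingHom ℤ_[q]) := ⟨_, rfl⟩
  obtain ⟨cz, hcz⟩ : ∃ cz : ℤ_[q], cz = ((A.eval e : ℤ) : ℤ_[q]) := ⟨_, rfl⟩
  have hfzb : fz.map (PadicInt.toZMod (p := q)) = (X - C e') * hb := by rw [hfz, red_map, hfb]
  have hfzm : fz.Monic := by rw [hfz]; exact hf.map _
  have hfzd : fz.natDegree = n := by rw [hfz, hf.natDegree_map, hd]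
  rw [← hcd]
  refine ⟨hc0, ?_⟩
  rw [← hfz, ← hAz, ← hcz]
  obtain ⟨y, hy⟩ := dvd_of_map_zero (C cz * Az - t ^ 2 - fz * z) (by
    have e1 : (C cz * Az).map (PadicInt.toZMod (p := q)) = C c * Ab := by
      rw [Polynomial.map_mul, hAz, red_map, Polynomial.map_C, hcz, Pool.Agent.W335.BMX.toZMod_int,
        ← hcd, ← hAb]
    rw [Polynomial.map_sub, Polynomial.map_sub, e1, Polynomial.map_pow, ht, Polynomial.map_mul,
      hfzb, hz, hzb, sub_self])
  have h4u : IsUnit (4 : ℤ_[q]) := by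
    rw [Pool.Agent.N507.PQ.unit_iff]
    have e1 : PadicInt.toZMod (4 : ℤ_[q]) = ((4 : ℕ) : ZMod q) := by
      rw [show (4 : ℤ_[q]) = ((4 : ℕ) : ℤ_[q]) by norm_num, map_natCast]
    rw [e1, Ne, ZMod.natCast_eq_zero_iff]
    intro h1
    have h3 : q ∣ 2 ^ 2 := by norm_num; exact h1
    have h5 := (Nat.prime_dvd_prime_iff_eq hq.out Nat.prime_two).1 (hq.out.dvd_of_dvd_pow h3)
    exact hq2 h5
  obtain ⟨i4, hi4⟩ := h4u.exists_right_inv
  refine hH q fz (C cz * Az) t (C i4 * y) hfzm (by omega)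
    (cop_lift h2 (n := n) (by omega) hfzm hfzd (by rw [ht, hfzb]; exact htcop)) ?_
  refine ⟨z, ?_⟩
  have h5 : C (4 * (q : ℤ_[q])) * (C i4 * y) = C (q : ℤ_[q]) * y := by
    rw [← mul_assoc, ← C_mul]
    congr 2
    linear_combination (q : ℤ_[q]) * hi4
  rw [h5, ← hy]
  ring

end hensel

end Pool.Agent.H30Q.QPTP

namespace Pool.Agent.H30Q

open Pool.Agent.N202.M4 (hil IsSymbol)
open Pool.Agent.H30Q.QPTP

theorem t_QPT : S_QPT := by
  intro h2 hEE hH q hq hq2 n f D e h A hn hev hf hd hqD hqD2 hh hhd hi hfh hc hs x y hy0 hxy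
  obtain ⟨hc0, s, hsc, hsd⟩ := main_sq h2 hH hq2 hn hev hf hd hh hhd hi hfh hc hs
  obtain ⟨c, hcd⟩ : ∃ c : ℤ, c = A.eval e := ⟨_, rfl⟩
  rw [← hcd] at hc0 hsd ⊢
  have hsym : IsSymbol (hil ℚ_[q]) := Pool.Agent.N446.M4.sym_ q
  set F := ov ℚ_[q] f with hF
  have hFm : F.Monic := hf.map _
  have hFd : F.natDegree = n := by rw [hF, hf.natDegree_map, hd]
  have hcu : IsUnit ((c : ℤ) : ℤ_[q]) := by
    rw [Pool.Agent.N507.PQ.unit_iff, Pool.Agent.W335.BMX.toZMod_int]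
    exact hc0
  have hcq : (c : ℚ_[q]) ≠ 0 := by
    rw [Int.cast_ne_zero]
    rintro rfl
    exact hc0 Int.cast_zero
  have hD0 : D ≠ 0 := by
    rintro rfl
    exact hqD2 (dvd_zero _)
  have hDq : (D : ℚ_[q]) ≠ 0 := Int.cast_ne_zero.2 hD0
  have hq0 : (q : ℚ_[q]) ≠ 0 := Nat.cast_ne_zero.2 hq.out.ne_zero
  have hFx : F.eval x ≠ 0 := by
    intro h0
    rw [h0, mul_zero] at hxy
    exact hy0 (pow_eq_zero_iff (by norm_num) |>.1 hxy)
  obtain ⟨-, g2, -⟩ := h2 ℚ_[q] n F (by omega) hFm hFd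
  have hnδ : nm F (C x - X) = F.eval x := nm_sub hFm x
  have hδ : IsCoprime (C x - X) F := by
    rw [← g2, hnδ]
    exact isUnit_iff_ne_zero.2 hFx
  have ha : IsCoprime (ov ℚ_[q] A) F := by
    obtain ⟨-, -, g3⟩ := h2 ℤ n f (by omega) hf hd
    obtain ⟨-, k2, -⟩ := h2 (ZMod q) n (rd q f) (by omega) (hf.map _) (by rw [hf.natDegree_map, hd])
    have e1 := (g3 ℚ_[q] (Int.castRingHom ℚ_[q]) A).2
    have e2 := (g3 (ZMod q) (Int.castRingHom (ZMod q)) A).2
    have u := (k2 (rd q A)).2 hc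
    have h3 : nm f A ≠ 0 := by
      intro h0
      rw [h0, map_zero] at e2
      exact u.ne_zero e2
    rw [← g2]
    have h4 : nm F (ov ℚ_[q] A) = ((nm f A : ℤ) : ℚ_[q]) := e1
    rw [h4]
    exact isUnit_iff_ne_zero.2 (Int.cast_ne_zero.2 h3)
  obtain ⟨S, hS⟩ : ∃ S : ℚ_[q][X], S = s.map (algebraMap ℤ_[q] ℚ_[q]) := ⟨_, rfl⟩
  have hmap : ∀ P : ℤ[X], (P.map (Int.castRingHom ℤ_[q])).map (algebraMap ℤ_[q] ℚ_[q]) =
      ov ℚ_[q] P := by
    intro P
    rw [Polynomial.map_map]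
    congr 1
  have hSF : IsCoprime S F := by
    have := hsc.map (Polynomial.mapRingHom (algebraMap ℤ_[q] ℚ_[q]))
    rw [coe_mapRingHom, hmap, ← hS] at this
    exact this
  have hdiv : F ∣ C (c : ℚ_[q]) * ov ℚ_[q] A - S ^ 2 := by
    have := map_dvd (Polynomial.mapRingHom (algebraMap ℤ_[q] ℚ_[q])) hsd
    rw [map_sub, map_mul, map_pow, coe_mapRingHom, hmap, hmap, ← hS, Polynomial.map_C] at this
    rw [map_intCast] at this
    exact this
  have hee := (hEE ℚ_[q] hsym n F (C x - X) (ov ℚ_[q] A) (by omega) hev hFm hFd hδ ha).2.2.1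
    (c : ℚ_[q]) (S * C (c : ℚ_[q])⁻¹) hcq
    (IsCoprime.mul_left hSF ⟨C (c : ℚ_[q]), 0, by
      rw [zero_mul, add_zero, ← C_mul, mul_inv_cancel₀ hcq, C_1]⟩) (by
      have e1 : ov ℚ_[q] A - C (c : ℚ_[q]) * (S * C (c : ℚ_[q])⁻¹) ^ 2 =
          (C (c : ℚ_[q]) * ov ℚ_[q] A - S ^ 2) * C (c : ℚ_[q])⁻¹ := by
        have e2 : C (c : ℚ_[q]) * C (c : ℚ_[q])⁻¹ = 1 := by
          rw [← C_mul, mul_inv_cancel₀ hcq, C_1]
        linear_combination (- ov ℚ_[q] A - S ^ 2 * C (c : ℚ_[q])⁻¹) * e2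
      rw [e1]
      exact Dvd.dvd.mul_right hdiv _)
  rw [hee, hnδ]
  obtain ⟨u, hu⟩ := hqD
  have huq : ¬ (q : ℤ) ∣ u := by
    rintro ⟨w, hw⟩
    exact hqD2 ⟨w, by rw [hu, hw]; ring⟩
  have huu : IsUnit ((u : ℤ) : ℤ_[q]) := by
    rw [Pool.Agent.N507.PQ.unit_iff, Pool.Agent.W335.BMX.toZMod_int]
    exact Pool.Agent.W335.BMX.cast_ne_zero huq
  have hu0 : (u : ℚ_[q]) ≠ 0 := by
    rw [Int.cast_ne_zero]
    rintro rfl
    exact huq (dvd_zero _)
  have hFe : F.eval x = ((q : ℚ_[q]) * u) * (y / D) ^ 2 := by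
    have e1 : (D : ℚ_[q]) = (q : ℚ_[q]) * u := by rw [hu]; push_cast; rfl
    rw [← e1, div_pow, hxy]
    field_simp
  rw [hFe, Pool.Agent.N424.M4.h_sq hsym hcq (mul_ne_zero hq0 hu0) (div_ne_zero hy0 hDq),
    hsym.mul _ _ _ hcq hq0 hu0, hsym.symm (c : ℚ_[q]) (q : ℚ_[q])]
  have k1 := Pool.Agent.N507.PQ.hil_units hq2 hcu huu
  have k2 := Pool.Agent.N507.PQ.hil_p hq2 hcu
  rw [Pool.Agent.W335.BMX.toZMod_int] at k2
  rw [PadicInt.coe_intCast] at k1 k2
  rw [PadicInt.coe_intCast] at k1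
  rw [k1, k2, mul_one]

end Pool.Agent.H30Q
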