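import Pool.Agent.H30Q.Stm

set_option autoImplicit false

/-!
# Square roots modulo a real polynomial (piece REA of project HQ)
-/

open Polynomial ComplexConjugate

namespace Pool.Agent.H30Q

namespace REAP

/-- the coefficientwise real part -/
noncomputable def rp (p : ℂ[X]) : ℝ[X] := ∑ i ∈ Finset.range (p.natDegree + 1), monomial i (p.coeff i).re

theorem rp_coeff (p : ℂ[X]) (i : ℕ) : (rp p).coeff i = (p.coeff i).re := by
  unfold rp
  rw [finsetSum_coeff]
  simp only [coeff_monomial]
  rw [Finset.sum_ite_eq']
  split_ifs with h
  · rfl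
  · rw [Finset.mem_range, not_lt] at h
    rw [coeff_eq_zero_of_natDegree_lt (by omega)]
    rfl

theorem rp_map (p : ℂ[X]) : (rp p).map Complex.ofRealHom = C (1 / 2) * (p + p.map (starRingEnd ℂ)) := by
  ext i
  rw [coeff_map, rp_coeff, coeff_C_mul, coeff_add, coeff_map]
  show ((p.coeff i).re : ℂ) = 1 / 2 * (p.coeff i + conj (p.coeff i))
  rw [Complex.add_conj]
  push_cast
  ring

theorem dvd_of_roots {F q : ℂ[X]} (hF : F.Monic) (hs : F.Separable) (h : ∀ z, F.eval z = 0 → q.eval z = 0) : F ∣ q := by
  by_cases hq : q = 0
  · rw [hq]; exact dvd_zero _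
  have h1 : F = (F.roots.map fun a => X - C a).prod := by
    have := (IsAlgClosed.splits F).eq_prod_roots_of_monic hF
    exact this
  rw [h1, Multiset.prod_X_sub_C_dvd_iff_le_roots hq, Multiset.le_iff_subset (nodup_roots hs)]
  intro z hz
  rw [mem_roots hq]
  exact h z (isRoot_of_mem_roots hz)

end REAP

open REAP in
theorem t_REA : S_REA := by
  intro F A hF hs hpos hcop
  classical
  set F' := F.map Complex.ofRealHom with hF'
  set A' := A.map Complex.ofRealHom with hA'
  have hm : F'.Monic := hF.map _
  have hsep : F'.Separable := hs.map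
  have hconj : ∀ (P : ℝ[X]) (z : ℂ), (P.map Complex.ofRealHom).eval (conj z) = conj ((P.map Complex.ofRealHom).eval z) := by
    intro P z
    have h1 : ((P.map Complex.ofRealHom).map (starRingEnd ℂ)) = P.map Complex.ofRealHom := by
      rw [Polynomial.map_map]
      congr 1
      ext x
      exact Complex.conj_ofReal x
    conv_lhs => rw [← h1, eval_map, eval₂_at_apply]
  -- the square roots
  have hb : ∀ z : ℂ, ∃ w : ℂ, w ^ 2 = A'.eval z := fun z => IsAlgClosed.exists_pow_nat_eq _ (by norm_num)
  choose b hb using hb
  let c : ℂ → ℂ := fun z => if z.im = 0 then ((Real.sqrt (A.eval z.re) : ℝ) : ℂ) else if 0 < z.im then b z else conj (b (conj z))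
  have hc1 : ∀ z, F'.eval z = 0 → c z ^ 2 = A'.eval z := by
    intro z hz
    by_cases h0 : z.im = 0
    · have hzr : z = (z.re : ℂ) := by
        apply Complex.ext
        · simp
        · simpa using h0
      have h1 : F.eval z.re = 0 := by
        rw [hzr, hF'] at hz
        have h2 : ((F.eval z.re : ℝ) : ℂ) = 0 := by
          rw [← hz]
          exact (eval_map_apply (f := Complex.ofRealHom) (p := F) z.re).symm
        exact_mod_cast h2
      have h3 := hpos z.re h1
      have h4 : c z = ((Real.sqrt (A.eval z.re) : ℝ) : ℂ) := if_pos h0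
      rw [h4, ← Complex.ofReal_pow, Real.sq_sqrt h3.le]
      conv_rhs => rw [hzr]
      exact (eval_map_apply (f := Complex.ofRealHom) (p := A) z.re).symm
    · by_cases h1 : 0 < z.im
      · have h4 : c z = b z := by
          show (if z.im = 0 then _ else if 0 < z.im then b z else _) = _
          rw [if_neg h0, if_pos h1]
        rw [h4, hb]
      · have h4 : c z = conj (b (conj z)) := by
          show (if z.im = 0 then _ else if 0 < z.im then b z else _) = _
          rw [if_neg h0, if_neg h1]
        rw [h4, ← map_pow, hb, hA', hconj]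
        simp
  have hc2 : ∀ z, c (conj z) = conj (c z) := by
    intro z
    rcases lt_trichotomy z.im 0 with h | h | h
    · have h4 : c z = conj (b (conj z)) := by
        show (if z.im = 0 then _ else if 0 < z.im then b z else _) = _
        rw [if_neg h.ne, if_neg h.not_gt]
      have h5 : c (conj z) = b (conj z) := by
        show (if (conj z).im = 0 then _ else if 0 < (conj z).im then b (conj z) else _) = _
        rw [Complex.conj_im, if_neg (by linarith), if_pos (by linarith)]
      rw [h4, h5]
      simp
    · have h6 : conj z = z := Complex.conj_eq_iff_im.mpr h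
      rw [h6]
      have h4 : c z = ((Real.sqrt (A.eval z.re) : ℝ) : ℂ) := if_pos h
      rw [h4, Complex.conj_ofReal]
    · have h4 : c z = b z := by
        show (if z.im = 0 then _ else if 0 < z.im then b z else _) = _
        rw [if_neg h.ne', if_pos h]
      have h5 : c (conj z) = conj (b (conj (conj z))) := by
        show (if (conj z).im = 0 then _ else if 0 < (conj z).im then b (conj z) else conj (b (conj (conj z)))) = _
        rw [Complex.conj_im, if_neg (by linarith), if_neg (by linarith)]
      rw [h4, h5]
      simp
  -- interpolation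
  let p : ℂ[X] := Lagrange.interpolate F'.roots.toFinset id c
  have hp : ∀ z, F'.eval z = 0 → p.eval z = c z := by
    intro z hz
    have h1 : z ∈ F'.roots.toFinset := by
      rw [Multiset.mem_toFinset, mem_roots hm.ne_zero]
      exact hz
    exact Lagrange.eval_interpolate_at_node c Function.injective_id.injOn h1
  have hs' : ∀ z, F'.eval z = 0 → ((rp p).map Complex.ofRealHom).eval z = c z := by
    intro z hz
    rw [rp_map, eval_mul, eval_add, eval_C, hp z hz]
    have h1 : (p.map (starRingEnd ℂ)).eval z = conj (p.eval (conj z)) := by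
      have h2 : z = conj (conj z) := by simp
      conv_lhs => rw [h2, eval_map, eval₂_at_apply]
    have h3 : F'.eval (conj z) = 0 := by
      rw [hF', hconj, ← hF', hz, map_zero]
    rw [h1, hp _ h3, hc2]
    simp
    ring
  have hdvd : F ∣ A - rp p ^ 2 := by
    rw [← Polynomial.map_dvd_map' Complex.ofRealHom, Polynomial.map_sub, Polynomial.map_pow]
    refine dvd_of_roots hm hsep fun z hz => ?_
    rw [eval_sub, eval_pow, hs' z hz, hc1 z hz, sub_self]
  refine ⟨rp p, ?_, hdvd⟩
  obtain ⟨k, hk⟩ := hdvd
  have h1 : A = rp p ^ 2 + k * F := by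
    rw [mul_comm k F, ← hk]
    ring
  rw [h1, IsCoprime.add_mul_right_left_iff] at hcop
  exact (IsCoprime.pow_left_iff (by norm_num)).mp hcop

end Pool.Agent.H30Q
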