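import Pool.Agent.H30Q.RESP

/-!
# Project HQ (helper30), piece RES: the primes with a non-square value from Chebotarev's theorem
-/

set_option autoImplicit false
set_option linter.all false

open Polynomial IsDedekindDomain NumberField

namespace Pool.Agent.H30Q

open Pool.Agent.W401.Cheb
open Pool.Agent.H30T.ResA (exists_large frob_pow)

open RESP in
/-- **RES.** -/
theorem t_RES : S_RES := by
  intro hGAL n f hyp L _ _ θ hRt A hA hns m B hm
  obtain ⟨N, _, _, _, σ, ζ, β, z₁, z₂, hζ, hσζ, hσz, hf, hσ2, hβ, hσβ⟩ :=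
    hGAL n f hyp L θ hRt A hA hns m hm
  have h6 := hyp.six
  have hsep : (f.map (Int.castRingHom N)).Separable := by
    have h1 : f.map (Int.castRingHom N) = (ov ℚ f).map (algebraMap ℚ N) := by
      rw [Polynomial.map_map]
      exact congrArg (fun r => Polynomial.map r f) (Subsingleton.elim _ _)
    rw [h1]
    exact hyp.sep.map
  obtain ⟨t₁, M, ht₁, hM⟩ := main_q (n - 1) (by omega) f hyp.mon (by rw [hyp.deg]; omega) hsep m hm σ ζ z₁ z₂
    hζ hσζ hσz hf
  have hz₁ : aeval z₁ f = 0 := by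
    have h1 : (f.map (Int.castRingHom N)).eval z₁ = 0 := by
      rw [hf, eval_mul, eval_sub, eval_X, eval_C, sub_self, zero_mul]
    rw [aeval_def, ← eval_map]
    exact h1
  have hA1 : aeval z₁ A ≠ 0 := fun h => hA ((root_iff f hyp.mon hRt.irr θ z₁ hRt.root hz₁ A).2 h)
  obtain ⟨b, hb, hb2⟩ := exists_root t₁ β A (by rw [ht₁]; exact hβ)
  have hb0 : b ≠ 0 := by
    rintro rfl
    rw [map_zero] at hb
    rw [← hb, zero_pow two_ne_zero] at hβ
    exact hA1 hβ.symm
  obtain ⟨M', hM'⟩ := exists_large b hb0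
  obtain ⟨q, ⟨hq, hxp⟩, hqgt⟩ := (infinite_frob N σ).exists_gt (max (max M M') (max B 2))
  simp only [max_lt_iff] at hqgt
  obtain ⟨⟨hqM, hqM'⟩, hqB, hq2⟩ := hqgt
  have : Fact q.Prime := ⟨hq⟩
  obtain ⟨φ, hφ⟩ := exists_hom σ q hxp
  obtain ⟨hmod, e, h, he, hh1, hh2, hh3, hh4⟩ := hM q φ hqM hφ
  refine ⟨q, e, h, hq, hqB, hmod, hh1, hh2, hh3, hh4, ?_⟩
  rintro ⟨s, hs⟩
  have h1 := hom_aeval t₁ A q φ e he
  rw [← hb2, hs, map_pow, map_mul, ← pow_two] at h1
  have hsq : (algebraMap (ZMod q) (AlgebraicClosure (ZMod q)) s) ^ q = algebraMap (ZMod q) (AlgebraicClosure (ZMod q)) s := by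
    rw [← map_pow, ZMod.pow_card]
  have hodd : Odd q := hq.odd_of_ne_two (by omega)
  have hbq : φ b ^ q = φ b := by
    rcases sq_eq_sq_iff_eq_or_eq_neg.1 h1 with h2 | h2
    · rw [h2, hsq]
    · rw [h2, hodd.neg_pow, hsq]
  have hbq' : φ b ^ q = - φ b := by
    rw [← hφ, ← map_neg]
    congr 1
    apply RingOfIntegers.coe_injective
    show σ (algebraMap (𝓞 N) N b) = algebraMap (𝓞 N) N (-b)
    rw [map_neg, hb, hσβ]
  have hb1 : φ b ≠ 0 := hM' q hqM' _ φ
  have h3 : (2 : AlgebraicClosure (ZMod q)) * φ b = 0 := by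
    rw [hbq] at hbq'
    linear_combination hbq'
  rcases mul_eq_zero.1 h3 with h4 | h4
  · have h5 : ((2 : ℕ) : AlgebraicClosure (ZMod q)) = 0 := by exact_mod_cast h4
    rw [CharP.cast_eq_zero_iff (AlgebraicClosure (ZMod q)) q] at h5
    have := Nat.le_of_dvd (by norm_num) h5
    omega
  · exact hb1 h4

end Pool.Agent.H30Q
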