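import Pool.Agent.H30Q.Stm

/-!
# Project HQ, pieces SMP and SQR (helper29): near a simple zero; squares in `ℚ_p`
-/

set_option autoImplicit false
set_option linter.all false

open Polynomial
open scoped Classical

namespace Pool.Agent.H30Q

namespace SMPP

/-- Elements near `1` are squares. -/
theorem sq_near {p : ℕ} [Fact p.Prime] {t : ℤ_[p]} (h : ‖t - 1‖ < ‖(2 : ℤ_[p])‖ ^ 2) :
    ∃ s : ℤ_[p], s ^ 2 = t := by
  have e1 : aeval (1 : ℤ_[p]) (X ^ 2 - C t : ℤ_[p][X]) = 1 - t := by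
    simp
  have e2 : aeval (1 : ℤ_[p]) (derivative (X ^ 2 - C t : ℤ_[p][X])) = 2 := by
    simp
    norm_num
  have hn : ‖aeval (1 : ℤ_[p]) (X ^ 2 - C t : ℤ_[p][X])‖ <
      ‖aeval (1 : ℤ_[p]) (derivative (X ^ 2 - C t : ℤ_[p][X]))‖ ^ 2 := by
    rw [e1, e2, norm_sub_rev]
    exact h
  obtain ⟨z, hz, -⟩ := hensels_lemma hn
  refine ⟨z, ?_⟩
  simp only [map_sub, map_pow, aeval_X, aeval_C, Algebra.algebraMap_self, RingHom.id_apply] at hz
  exact sub_eq_zero.1 hz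

theorem norm_two {p : ℕ} [Fact p.Prime] (h2 : p ≠ 2) : ‖(2 : ℤ_[p])‖ = 1 := by
  have h1 : ¬ ‖((2 : ℤ) : ℤ_[p])‖ < 1 := by
    rw [PadicInt.norm_int_lt_one_iff_dvd]
    intro h
    have h3 : p ∣ 2 := by exact_mod_cast h
    exact h2 ((Nat.prime_dvd_prime_iff_eq (Fact.out : p.Prime) Nat.prime_two).1 h3)
  have h3 : ((2 : ℤ) : ℤ_[p]) = 2 := by norm_num
  rw [h3] at h1
  exact le_antisymm (PadicInt.norm_le_one _) (not_lt.1 h1)

end SMPP

open SMPP

theorem t_SMP : S_SMP := by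
  intro f D e p _ h2 hD hpD he he'
  -- the zero
  have hd1 : ‖aeval (e : ℤ_[p]) (derivative f)‖ = 1 := by
    have e1 : aeval (e : ℤ_[p]) (derivative f) = (((derivative f).eval e : ℤ) : ℤ_[p]) := by
      rw [aeval_def, eval₂_eq_eval_map]
      rw [show algebraMap ℤ ℤ_[p] = Int.castRingHom ℤ_[p] from rfl]
      rw [eval_intCast_map]
      rfl
    rw [e1]
    refine le_antisymm (PadicInt.norm_le_one _) (not_lt.1 fun h => he' ?_)
    exact (PadicInt.norm_int_lt_one_iff_dvd _).1 h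
  have hv : ‖aeval (e : ℤ_[p]) f‖ < 1 := by
    have e1 : aeval (e : ℤ_[p]) f = ((f.eval e : ℤ) : ℤ_[p]) := by
      rw [aeval_def, eval₂_eq_eval_map]
      rw [show algebraMap ℤ ℤ_[p] = Int.castRingHom ℤ_[p] from rfl]
      rw [eval_intCast_map]
      rfl
    rw [e1]
    exact (PadicInt.norm_int_lt_one_iff_dvd _).2 he
  obtain ⟨ρ, h0, h3, h4, -⟩ := hensels_lemma (F := f) (a := (e : ℤ_[p])) (by
    rw [hd1, one_pow]; exact hv)
  rw [hd1] at h3
  rw [hd1] at h4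
  -- Taylor expansion
  obtain ⟨d, hd⟩ : ∃ d : ℤ_[p], d = aeval ρ (derivative f) := ⟨_, rfl⟩
  rw [← hd] at h4
  have hDn : ‖(D : ℤ_[p])‖ < 1 := (PadicInt.norm_int_lt_one_iff_dvd _).2 hpD
  obtain ⟨k, hk⟩ := binomExpansion (f.map (algebraMap ℤ ℤ_[p])) ρ (D * d)
  have e0 : (f.map (algebraMap ℤ ℤ_[p])).eval ρ = 0 := by
    rw [eval_map_algebraMap]
    exact h0
  have e1 : (derivative (f.map (algebraMap ℤ ℤ_[p]))).eval ρ = d := by
    rw [derivative_map, eval_map_algebraMap, hd]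
  rw [e0, e1] at hk
  have hkD : ‖k * (D : ℤ_[p])‖ < 1 := by
    rw [norm_mul]
    exact lt_of_le_of_lt (mul_le_of_le_one_left (norm_nonneg _) (PadicInt.norm_le_one _)) hDn
  obtain ⟨s, hs⟩ := sq_near (t := 1 + k * (D : ℤ_[p])) (by
    rw [norm_two h2, one_pow, add_sub_cancel_left]
    exact hkD)
  have hD0 : (D : ℤ_[p]) ≠ 0 := by exact_mod_cast hD
  have hd0 : d ≠ 0 := by
    rintro rfl
    rw [norm_zero] at h4
    norm_num at h4
  have hs0 : s ≠ 0 := by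
    rintro rfl
    rw [zero_pow two_ne_zero] at hs
    have h5 : k * (D : ℤ_[p]) = -1 := by linear_combination -hs
    rw [h5, norm_neg, norm_one] at hkD
    exact lt_irrefl _ hkD
  have hy : (D * d * s : ℤ_[p]) ^ 2 = D * (f.map (algebraMap ℤ ℤ_[p])).eval (ρ + D * d) := by
    rw [hk, mul_pow, hs]
    ring
  refine ⟨((ρ + D * d : ℤ_[p]) : ℚ_[p]), ((D * d * s : ℤ_[p]) : ℚ_[p]), ?_, ?_⟩
  · intro h
    have h5 : (D * d * s : ℤ_[p]) = 0 := Subtype.coe_injective h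
    exact mul_ne_zero (mul_ne_zero hD0 hd0) hs0 h5
  · have e2 : (ov ℚ_[p] f).eval ((ρ + D * d : ℤ_[p]) : ℚ_[p]) =
        (((f.map (algebraMap ℤ ℤ_[p])).eval (ρ + D * d) : ℤ_[p]) : ℚ_[p]) := by
      have e3 : ov ℚ_[p] f = (f.map (algebraMap ℤ ℤ_[p])).map (algebraMap ℤ_[p] ℚ_[p]) := by
        rw [Polynomial.map_map]
        congr 1
      rw [e3]
      show eval (algebraMap ℤ_[p] ℚ_[p] (ρ + D * d)) _ = _
      rw [eval_map_algebraMap, aeval_algebraMap_apply]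
      rfl
    rw [e2]
    have := congrArg (fun z : ℤ_[p] => (z : ℚ_[p])) hy
    push_cast at this ⊢
    exact this

theorem t_SQR : S_SQR := by
  intro W E p _ hW h8 hpW hE
  have key : ∃ s : ℤ_[p], s ^ 2 = (E : ℤ_[p]) := by
    apply sq_near
    have e1 : (E : ℤ_[p]) - 1 = ((E - 1 : ℤ) : ℤ_[p]) := by push_cast; ring
    rw [e1]
    by_cases h2 : p = 2
    · subst h2
      have h3 : ((2 ^ 3 : ℕ) : ℤ) ∣ E - 1 := by
        have : ((8 : ℕ) : ℤ) ∣ (W : ℤ) := by exact_mod_cast h8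
        exact dvd_trans (by norm_num) (this.trans hE)
      have h4 := (PadicInt.norm_int_le_pow_iff_dvd (p := 2) (k := E - 1) (n := 3)).2
        (by exact_mod_cast h3)
      have h5 : ‖(2 : ℤ_[2])‖ = 2⁻¹ := by
        have := PadicInt.norm_p (p := 2)
        exact_mod_cast this
      rw [h5]
      refine lt_of_le_of_lt h4 ?_
      norm_num
    · rw [norm_two h2, one_pow, PadicInt.norm_int_lt_one_iff_dvd]
      have : (p : ℤ) ∣ (W : ℤ) := by exact_mod_cast hpW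
      exact this.trans hE
  obtain ⟨s, hs⟩ := key
  have hs' : ((s : ℤ_[p]) : ℚ_[p]) ^ 2 = (E : ℚ_[p]) := by
    have := congrArg (fun z : ℤ_[p] => (z : ℚ_[p])) hs
    simpa using this
  refine ⟨s, fun h0 => ?_, hs'.symm⟩
  rw [h0, zero_pow two_ne_zero] at hs'
  have hE0 : E = 0 := by exact_mod_cast hs'.symm
  rw [hE0] at hE
  have h1 : (W : ℤ) ∣ 1 := by
    have := (dvd_neg (a := (W : ℤ))).2 hE
    simpa using this
  have h2 : (8 : ℤ) ∣ 1 := dvd_trans (by exact_mod_cast h8) h1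
  norm_num at h2

end Pool.Agent.H30Q
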