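import Pool.Agent.H30Q.Stm

/-!
Piece SPL of project HQ: the primes above a totally split prime.
-/

set_option autoImplicit false

open Polynomial IsDedekindDomain NumberField

namespace Pool.Agent.H30Q

namespace SPLaux

variable {L : Type} [Field L] [NumberField L] {n W : ℕ} {f : ℤ[X]} {θ : L}

theorem rd_mul (p : ℕ) (A B : ℤ[X]) : rd p (A * B) = rd p A * rd p B := Polynomial.map_mul _

theorem rd_add (p : ℕ) (A B : ℤ[X]) : rd p (A + B) = rd p A + rd p B := Polynomial.map_add _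

theorem rd_C (p : ℕ) (m : ℕ) : rd p (C (m : ℤ)) = C (m : ZMod p) := by simp [rd]

/-- `f` is the minimal polynomial of `θ`. -/
theorem dvd_of_aeval (hR : Rt n f θ) {Y : ℤ[X]} (h : aeval θ Y = 0) : f ∣ Y := by
  have h1 : (ov ℚ f).Monic := hR.mon.map _
  have h2 : aeval θ (ov ℚ f) = 0 := by
    have h3 : aeval θ (f.map (algebraMap ℤ ℚ)) = aeval θ f := aeval_map_algebraMap ℚ θ f
    exact h3.trans hR.root
  have h3 : ov ℚ f = minpoly ℚ θ := minpoly.eq_of_irreducible_of_monic hR.irr h2 h1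
  have h4 : aeval θ (ov ℚ Y) = 0 := by
    have h5 : aeval θ (Y.map (algebraMap ℤ ℚ)) = aeval θ Y := aeval_map_algebraMap ℚ θ Y
    exact h5.trans h
  have h5 : ov ℚ f ∣ ov ℚ Y := by
    rw [h3]
    exact minpoly.dvd ℚ θ h4
  exact (map_dvd_map (Int.castRingHom ℚ) (RingHom.injective_int _) hR.mon).1 h5

theorem eval_eq (hR : Rt n f θ) {p : ℕ} {ρ : ZMod p} (hρ : (rd p f).eval ρ = 0) {Y Z : ℤ[X]}
    (h : aeval θ Y = aeval θ Z) : (rd p Y).eval ρ = (rd p Z).eval ρ := by
  have h1 : f ∣ Y - Z := dvd_of_aeval hR (by rw [map_sub, h, sub_self])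
  obtain ⟨g, hg⟩ := h1
  have h2 : rd p Y - rd p Z = rd p f * rd p g := by
    rw [← Polynomial.map_sub, hg, Polynomial.map_mul]
  have h3 := congrArg (Polynomial.eval ρ) h2
  rw [eval_sub, eval_mul, hρ, zero_mul] at h3
  exact sub_eq_zero.1 h3

/-- The homomorphism to `ZMod p` given by a zero of `f` modulo `p`. -/
theorem exists_hom (hR : Rt n f θ) (hW : GW n f θ W) {p : ℕ} (hp : p.Prime) (hpW : ¬ p ∣ W)
    {ρ : ZMod p} (hρ : (rd p f).eval ρ = 0) :
    ∃ φ : 𝓞 L →+* ZMod p, ∀ (x : 𝓞 L) (Y : ℤ[X]), (x : L) = aeval θ Y → φ x = (rd p Y).eval ρ := by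
  have : Fact p.Prime := ⟨hp⟩
  choose Y hY using hW.ord
  have hW0 : (W : ZMod p) ≠ 0 := fun h => hpW ((ZMod.natCast_eq_zero_iff W p).1 h)
  let φ : 𝓞 L →+* ZMod p :=
    { toFun := fun x => (rd p (Y x)).eval ρ / (W : ZMod p)
      map_one' := by
        have h1 : aeval θ (Y 1) = aeval θ (C (W : ℤ)) := by
          rw [← hY 1]
          simp
        rw [eval_eq hR hρ h1]
        simp [hW0]
      map_zero' := by
        have h1 : aeval θ (Y 0) = aeval θ (0 : ℤ[X]) := by
          rw [← hY 0]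
          simp
        rw [eval_eq hR hρ h1]
        simp
      map_add' := fun x y => by
        have h1 : aeval θ (Y (x + y)) = aeval θ (Y x + Y y) := by
          rw [map_add, ← hY, ← hY, ← hY]
          push_cast
          ring
        rw [eval_eq hR hρ h1, rd_add, eval_add, add_div]
      map_mul' := fun x y => by
        have h1 : aeval θ (C (W : ℤ) * Y (x * y)) = aeval θ (Y x * Y y) := by
          rw [map_mul, map_mul, ← hY, ← hY, ← hY]
          simp
          ring
        have h2 := eval_eq hR hρ h1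
        rw [rd_mul, rd_mul, eval_mul, eval_mul, rd_C, eval_C] at h2
        field_simp
        rw [mul_comm]
        exact h2 }
  refine ⟨φ, fun x Z hZ => ?_⟩
  have h1 : aeval θ (Y x) = aeval θ (C (W : ℤ) * Z) := by
    rw [map_mul, ← hY, hZ]
    simp
  change (rd p (Y x)).eval ρ / (W : ZMod p) = _
  rw [eval_eq hR hρ h1, rd_mul, eval_mul, rd_C, eval_C]
  field_simp

end SPLaux

open SPLaux in
theorem t_SPL : S_SPL := by
  classical
  intro n W f L _ _ θ hR hW p hp hpW hT
  have : Fact p.Prime := ⟨hp⟩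
  obtain ⟨R, hRc, hRf⟩ := hT
  let e : Fin n ≃ R := (Finset.equivFinOfCardEq hRc).symm
  have hφ : ∀ j : Fin n, ∃ φ : 𝓞 L →+* ZMod p, ∀ (x : 𝓞 L) (Y : ℤ[X]), (x : L) = aeval θ Y →
      φ x = (rd p Y).eval (e j : ZMod p) := fun j =>
    exists_hom hR hW hp hpW (hRf _ (e j).2)
  choose φ hφ using hφ
  have hsurj : ∀ j, Function.Surjective (φ j) := by
    intro j x
    obtain ⟨m, rfl⟩ := ZMod.intCast_surjective x
    exact ⟨(m : 𝓞 L), by rw [map_intCast]⟩
  have hmax : ∀ j, (RingHom.ker (φ j)).IsMaximal := fun j =>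
    RingHom.ker_isMaximal_of_surjective _ (hsurj j)
  have hpm : ∀ j, ((p : ℕ) : 𝓞 L) ∈ RingHom.ker (φ j) := fun j => by
    rw [RingHom.mem_ker, map_natCast]
    exact ZMod.natCast_self p
  have hp0 : ((p : ℕ) : 𝓞 L) ≠ 0 := by exact_mod_cast hp.ne_zero
  let 𝔭 : Fin n → HeightOneSpectrum (𝓞 L) := fun j =>
    { asIdeal := RingHom.ker (φ j)
      isPrime := (hmax j).isPrime
      ne_bot := by
        intro h
        have h1 := hpm j
        rw [h, Ideal.mem_bot] at h1
        exact hp0 h1 }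
  have hθi : IsIntegral ℤ θ := ⟨f, hR.mon, by
    have := hR.root
    rwa [aeval_def] at this⟩
  have hne : ∀ i j, i ≠ j → (𝔭 i).asIdeal ≠ (𝔭 j).asIdeal := by
    intro i j hij h
    obtain ⟨m, hm⟩ := ZMod.intCast_surjective (e i : ZMod p)
    let t : 𝓞 L := ⟨θ, hθi⟩
    have h1 : ∀ k, φ k (t - (m : 𝓞 L)) = (e k : ZMod p) - (m : ZMod p) := by
      intro k
      rw [hφ k (t - (m : 𝓞 L)) (X - C m) (by
        have h5 : ((t - (m : 𝓞 L) : 𝓞 L) : L) = ((t : 𝓞 L) : L) - ((m : 𝓞 L) : L) := map_sub _ _ _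
        rw [h5]
        simp only [map_sub, aeval_X, aeval_C, map_intCast, algebraMap_int_eq, eq_intCast]
        rfl)]
      simp
    have h2 : (t - (m : 𝓞 L)) ∈ (𝔭 i).asIdeal := by
      change (t - (m : 𝓞 L)) ∈ RingHom.ker (φ i)
      rw [RingHom.mem_ker, h1, ← hm, sub_self]
    rw [h] at h2
    have h3 : φ j (t - (m : 𝓞 L)) = 0 := (RingHom.mem_ker (f := φ j)).1 h2
    rw [h1, hm, sub_eq_zero] at h3
    exact hij (e.injective (Subtype.ext h3)).symm
  have hnorm : ∀ j, Ideal.absNorm (𝔭 j).asIdeal = p := by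
    intro j
    rw [Ideal.absNorm_apply, Submodule.cardQuot_apply]
    have h1 : Nat.card (𝓞 L ⧸ RingHom.ker (φ j)) = Nat.card (ZMod p) :=
      Nat.card_congr (RingHom.quotientKerEquivOfSurjective (hsurj j)).toEquiv
    rw [Nat.card_zmod] at h1
    exact h1
  refine ⟨𝔭, ?_, hnorm, ?_⟩
  · intro i j h
    by_contra hij
    exact hne i j hij (congrArg HeightOneSpectrum.asIdeal h)
  · have h1 : ∏ j, (𝔭 j).asIdeal ∣ Ideal.span {((p : ℕ) : 𝓞 L)} := by
      refine Finset.prod_dvd_of_coprime ?_ ?_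
      · intro i _ j _ hij
        have := hmax i
        have := hmax j
        exact Ideal.isCoprime_of_isMaximal (hne i j hij)
      · intro j _
        rw [Ideal.dvd_span_singleton]
        exact hpm j
    obtain ⟨K, hK⟩ := h1
    have h2 : Ideal.absNorm (Ideal.span {((p : ℕ) : 𝓞 L)}) = p ^ n := by
      rw [Ideal.absNorm_span_singleton]
      have h3 : ((p : ℕ) : 𝓞 L) = algebraMap ℤ (𝓞 L) (p : ℤ) := by simp
      rw [h3, Algebra.norm_algebraMap, RingOfIntegers.rank, hR.rank, Int.natAbs_pow]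
      simp
    have h3 := congrArg Ideal.absNorm hK
    rw [h2, map_mul, map_prod, Finset.prod_congr rfl fun j _ => hnorm j, Finset.prod_const,
      Finset.card_univ, Fintype.card_fin] at h3
    have h4 : Ideal.absNorm K = 1 := by
      have h5 : 0 < p ^ n := pow_pos hp.pos _
      exact Nat.eq_of_mul_eq_mul_left h5 (h3.symm.trans (mul_one _).symm)
    rw [Ideal.absNorm_eq_one_iff] at h4
    rw [hK, h4, Ideal.mul_top]

end Pool.Agent.H30Q
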