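import Pool.Agent.H30Q.Stm
import Pool.Agent.N40.PQ.Spl
import Pool.Agent.TH888.B1.Roots

/-!
# Project HQ, piece TOT (helper29): totally split primes
-/

set_option autoImplicit false
set_option linter.all false

open Polynomial
open scoped Classical

namespace Pool.Agent.H30Q

namespace TOTP

open Pool.Agent.N922.PQ Pool.Agent.N40.PQ Pool.Agent.TH888.B1

theorem comb {f : ℤ[X]} (hsep : (ov ℚ f).Separable) :
    ∃ R : ℤ, R ≠ 0 ∧ ∃ u w : ℤ[X], C R = u * f + w * derivative f := by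
  have hinj : Function.Injective (algebraMap ℤ ℚ) := IsFractionRing.injective ℤ ℚ
  obtain ⟨u₀, w₀, h₀⟩ := hsep
  obtain ⟨b₁, hb₁, h₁⟩ := IsLocalization.integerNormalization_spec (nonZeroDivisors ℤ) u₀
  obtain ⟨b₂, hb₂, h₂⟩ := IsLocalization.integerNormalization_spec (nonZeroDivisors ℤ) w₀
  refine ⟨b₁ * b₂, mul_ne_zero (nonZeroDivisors.ne_zero hb₁) (nonZeroDivisors.ne_zero hb₂),
    C b₂ * IsLocalization.integerNormalization (nonZeroDivisors ℤ) u₀,
    C b₁ * IsLocalization.integerNormalization (nonZeroDivisors ℤ) w₀, ?_⟩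
  apply Polynomial.map_injective (algebraMap ℤ ℚ) hinj
  have e : ∀ (b : ℤ) (p : ℚ[X]), b • p = C (algebraMap ℤ ℚ b) * p := by
    intro b p
    rw [← Polynomial.smul_eq_C_mul, algebraMap_smul]
  have h₀' : u₀ * f.map (algebraMap ℤ ℚ) + w₀ * derivative (f.map (algebraMap ℤ ℚ)) = 1 := h₀
  rw [Polynomial.map_add, Polynomial.map_mul, Polynomial.map_mul, Polynomial.map_mul,
    Polynomial.map_mul, h₁, h₂, ← Polynomial.derivative_map, Polynomial.map_C,
    Polynomial.map_C, Polynomial.map_C, map_mul, C_mul]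
  rw [e, e]
  linear_combination (-(C (algebraMap ℤ ℚ b₁) * C (algebraMap ℤ ℚ b₂))) * h₀'

/-- The cyclotomic polynomial has a zero modulo `p`, so `p = 1` modulo `m`. -/
theorem mod_m {m p : ℕ} (hp : p.Prime) (hm : m ≠ 0) (hpm : ¬ p ∣ m)
    (h : ((cyclotomic m ℤ).map (Int.castRingHom (ZMod p))).Splits) : p % m = 1 % m := by
  haveI : Fact p.Prime := ⟨hp⟩
  rw [map_cyclotomic] at h
  have hd : (cyclotomic m (ZMod p)).degree ≠ 0 := by
    rw [degree_cyclotomic]
    have := Nat.totient_pos.2 (Nat.pos_of_ne_zero hm)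
    exact_mod_cast this.ne'
  obtain ⟨z, hz⟩ := h.exists_eval_eq_zero hd
  have hmp : ((m : ℕ) : ZMod p) ≠ 0 := by
    rw [Ne, ZMod.natCast_eq_zero_iff]
    exact hpm
  haveI : NeZero ((m : ℕ) : ZMod p) := ⟨hmp⟩
  have h1 : IsPrimitiveRoot z m := isRoot_cyclotomic_iff.1 hz
  have hz0 : z ≠ 0 := h1.ne_zero hm
  have h2 : z ^ (p - 1) = 1 := ZMod.pow_card_sub_one_eq_one hz0
  have h3 : m ∣ p - 1 := h1.dvd_of_pow_eq_one _ h2
  exact ((Nat.modEq_iff_dvd' hp.one_le).2 h3).symm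

end TOTP

open TOTP Pool.Agent.N922.PQ Pool.Agent.N40.PQ Pool.Agent.TH888.B1 in
theorem t_TOT : S_TOT := by
  intro n f hfm hdeg hsep m B hm
  obtain ⟨R, hR0, u, w, hR⟩ := comb hsep
  obtain ⟨F, hF⟩ : ∃ F : ℤ[X], F = f * cyclotomic m ℤ := ⟨_, rfl⟩
  have hFm : F.Monic := by rw [hF]; exact hfm.mul (cyclotomic.monic m ℤ)
  have hNN : NumberField (F.map (algebraMap ℤ ℚ)).SplittingField :=
    { to_charZero := charZero_of_injective_algebraMap
        (algebraMap ℚ (F.map (algebraMap ℤ ℚ)).SplittingField).injective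
      to_finiteDimensional := inferInstance }
  have hfs : (F.map (algebraMap ℤ (F.map (algebraMap ℤ ℚ)).SplittingField)).Splits := by
    have h1 := SplittingField.splits (F.map (algebraMap ℤ ℚ))
    rw [Polynomial.map_map] at h1
    convert h1 using 2
    exact RingHom.ext_int _ _
  obtain ⟨η, G, δ', hGG, hdG⟩ := gen (F.map (algebraMap ℤ ℚ)).SplittingField
  obtain ⟨Δ, hΔ0, hΔ⟩ := claim1 η G δ' hGG hdG F hFm hfs
  have hg0 : G.natDegree ≠ 0 := by
    rw [hdG]; exact Module.finrank_pos.ne'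
  have h1 := rootPrimes_diverges G (Nat.pos_of_ne_zero hg0)
  obtain ⟨T, hT⟩ : ∃ T : Set ℕ, T = {p : ℕ | (p : ℤ) ∣ Δ * R * m} ∪ Set.Iic B := ⟨_, rfl⟩
  have hfin : T.Finite := by
    rw [hT]
    refine Set.Finite.union ?_ (Set.finite_Iic B)
    have h2 : Δ * R * m ≠ 0 := mul_ne_zero (mul_ne_zero hΔ0 hR0) (by exact_mod_cast hm)
    apply (Set.finite_Icc 0 (Δ * R * m).natAbs).subset
    intro p hp
    have hp' : (p : ℤ) ∣ Δ * R * m := hp
    rw [Int.natCast_dvd] at hp'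
    exact ⟨Nat.zero_le _, Nat.le_of_dvd (Int.natAbs_pos.mpr h2) hp'⟩
  have h2 := diverges_diff hfin h1
  obtain ⟨p, hpR, hpT⟩ : (RootPrimes G \ T).Nonempty := by
    rw [Set.nonempty_iff_ne_empty]
    intro h3
    apply h2
    rw [h3]
    simp only [Set.indicator_empty]
    exact summable_zero
  obtain ⟨hp, x, hx⟩ := hpR
  haveI : Fact p.Prime := ⟨hp⟩
  rw [hT, Set.mem_union, not_or] at hpT
  obtain ⟨hp1, hp2⟩ := hpT
  have hpΔ : ¬ (p : ℤ) ∣ Δ := fun h => hp1 ((h.mul_right _).mul_right _)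
  have hpR : ¬ (p : ℤ) ∣ R := fun h => hp1 ((h.mul_left _).mul_right _)
  have hpm : ¬ p ∣ m := fun h => hp1 (by
    have : (p : ℤ) ∣ (m : ℤ) := by exact_mod_cast h
    exact this.mul_left _)
  obtain ⟨c, rfl⟩ := ZMod.intCast_surjective x
  have hc : (p : ℤ) ∣ G.eval c := by
    rw [← ZMod.intCast_zmod_eq_zero_iff_dvd]
    have e : (c : ZMod p) = Int.castRingHom (ZMod p) c := rfl
    rw [e, eval_map, eval₂_at_apply] at hx
    exact hx
  have h4 := hΔ p hp hpΔ c hc
  rw [hF, Polynomial.map_mul] at h4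
  have hne1 : f.map (Int.castRingHom (ZMod p)) ≠ 0 := (hfm.map _).ne_zero
  have hne2 : (cyclotomic m ℤ).map (Int.castRingHom (ZMod p)) ≠ 0 :=
    ((cyclotomic.monic m ℤ).map _).ne_zero
  rw [splits_mul_iff hne1 hne2] at h4
  refine ⟨p, hp, not_le.1 hp2, mod_m hp hm hpm h4.2, (rd p f).roots.toFinset, ?_, ?_⟩
  · have hs : (rd p f).Separable := by
      have h5 := congrArg (fun q : ℤ[X] => q.map (Int.castRingHom (ZMod p))) hR
      simp only [Polynomial.map_add, Polynomial.map_mul, Polynomial.map_C,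
        ← Polynomial.derivative_map] at h5
      have hr : (Int.castRingHom (ZMod p)) R ≠ 0 := by
        show ((R : ℤ) : ZMod p) ≠ 0
        rw [Ne, ZMod.intCast_zmod_eq_zero_iff_dvd]
        exact hpR
      obtain ⟨r, hr'⟩ : ∃ r : ZMod p, r = (Int.castRingHom (ZMod p)) R := ⟨_, rfl⟩
      rw [← hr'] at h5 hr
      refine ⟨C r⁻¹ * u.map (Int.castRingHom (ZMod p)), C r⁻¹ * w.map (Int.castRingHom (ZMod p)), ?_⟩
      have h6 : (C r⁻¹ : (ZMod p)[X]) * C r = 1 := by
        rw [← C_mul, inv_mul_cancel₀ hr, C_1]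
      rw [h5] at h6
      linear_combination h6
    rw [Multiset.toFinset_card_of_nodup (nodup_roots hs), ← hdeg,
      ← hfm.natDegree_map (Int.castRingHom (ZMod p))]
    exact (splits_iff_card_roots.1 h4.1)
  · intro ρ hρ
    rw [Multiset.mem_toFinset, mem_roots'] at hρ
    exact hρ.2

end Pool.Agent.H30Q
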