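import Pool.Agent.H30Q.Stm
import Pool.Agent.Q187.EB.Jc
import Pool.Agent.N507.PQ.Hs

/-!
# UNI: unimodular matrices over `ℤ_p`, `p` odd, have Hasse invariant `1`
-/

set_option autoImplicit false

open Matrix
open scoped Classical

namespace Pool.Agent.H30Q

open Pool.Agent.N783.PF (HV)
open Pool.Agent.N202.M4 (hil hasse)

theorem t_UNI : S_UNI := by
  intro p hp hp2 n M hM hd
  obtain ⟨P, a, ha, hP⟩ := Pool.Agent.Q187.EB.ud hp2 M hM hd
  have hdet : IsUnit P.det := by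
    have h1 := congrArg Matrix.det hP
    rw [Matrix.det_mul, Matrix.det_mul, Matrix.det_transpose, Matrix.det_diagonal] at h1
    have hu : IsUnit (∏ i, a i) := IsUnit.prod_univ_iff.mpr fun i => ha i
    rw [← h1] at hu
    exact isUnit_of_mul_isUnit_right hu
  have hPt : IsUnit Pᵀ.det := by rwa [Matrix.det_transpose]
  have e : (P⁻¹)ᵀ * Matrix.diagonal a * (P⁻¹)ᵀᵀ = M := by
    rw [← hP, Matrix.transpose_transpose, Matrix.transpose_nonsing_inv]
    calc (Pᵀ)⁻¹ * (Pᵀ * M * P) * P⁻¹ = ((Pᵀ)⁻¹ * Pᵀ) * M * (P * P⁻¹) := by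
          simp only [Matrix.mul_assoc]
      _ = M := by
          rw [Matrix.nonsing_inv_mul _ hPt, Matrix.mul_nonsing_inv _ hdet, Matrix.one_mul,
            Matrix.mul_one]
  have hHV : HV (M.map (algebraMap ℤ_[p] ℚ_[p])) 1 := by
    refine ⟨n, Equiv.refl _, fun i => ((a i : ℤ_[p]) : ℚ_[p]),
      ((P⁻¹)ᵀ).map (algebraMap ℤ_[p] ℚ_[p]), ?_, ?_, ?_⟩
    · intro i
      rw [Ne, PadicInt.coe_eq_zero]
      exact (ha i).ne_zero
    · have h2 := congrArg (fun N : Matrix (Fin n) (Fin n) ℤ_[p] => N.map (algebraMap ℤ_[p] ℚ_[p])) e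
      simp only [Matrix.map_mul] at h2
      rw [Matrix.diagonal_map (map_zero _)] at h2
      exact h2
    · refine Pool.Agent.N507.PQ.hasse_units _ ?_
      intro x hx y hy
      rw [List.mem_ofFn] at hx hy
      obtain ⟨i, rfl⟩ := hx
      obtain ⟨j, rfl⟩ := hy
      exact Pool.Agent.N507.PQ.hil_units hp2 (ha i) (ha j)
  exact if_pos hHV

end Pool.Agent.H30Q
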