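import Pool.Agent.H30Q.Stm
import Pool.Agent.H341R2.WeilSharp

/-!
Piece WEI of project HQ: local solubility at the good primes, from Weil's bound.
-/

set_option autoImplicit false

open Polynomial Finset

namespace Pool.Agent.H30Q

/-- Squares modulo an odd prime lift. -/
theorem lift_sq {q : ℕ} [Fact q.Prime] (hq : q ≠ 2) (N m : ℤ) (hm : ¬ (q : ℤ) ∣ m)
    (h : (q : ℤ) ∣ N - m ^ 2) : ∃ y : ℚ_[q], y ≠ 0 ∧ y ^ 2 = (N : ℚ_[q]) := by
  have hq2 : ¬ (q : ℤ) ∣ 2 * m := by
    intro h2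
    rcases (Nat.prime_iff_prime_int.1 (Fact.out : q.Prime)).dvd_mul.1 h2 with h3 | h3
    · have h4 : q ∣ 2 := by exact_mod_cast h3
      exact hq ((Nat.prime_dvd_prime_iff_eq Fact.out Nat.prime_two).1 h4)
    · exact hm h3
  have n2 : ‖((2 * m : ℤ) : ℤ_[q])‖ = 1 := by
    refine le_antisymm (PadicInt.norm_le_one _) ?_
    by_contra hlt
    exact hq2 ((PadicInt.norm_int_lt_one_iff_dvd _).1 (not_le.1 hlt))
  have n1 : ‖((N - m ^ 2 : ℤ) : ℤ_[q])‖ < 1 := (PadicInt.norm_int_lt_one_iff_dvd _).2 h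
  let F : Polynomial ℤ_[q] := X ^ 2 - C ((N : ℤ) : ℤ_[q])
  have e1 : (Polynomial.aeval ((m : ℤ) : ℤ_[q])) F = -((N - m ^ 2 : ℤ) : ℤ_[q]) := by
    simp [F]
  have e2 : (Polynomial.aeval ((m : ℤ) : ℤ_[q])) (derivative F) = ((2 * m : ℤ) : ℤ_[q]) := by
    simp [F]
    left
    norm_num
  obtain ⟨z, hz, -⟩ := hensels_lemma (p := q) (R := ℤ_[q]) (F := F) (a := ((m : ℤ) : ℤ_[q])) (by
    rw [e1, e2, n2, norm_neg]
    simpa using n1)
  have hz2 : z ^ 2 = ((N : ℤ) : ℤ_[q]) := by
    have h3 : (Polynomial.aeval z) F = z ^ 2 - ((N : ℤ) : ℤ_[q]) := by simp [F]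
    rw [h3] at hz
    exact sub_eq_zero.1 hz
  have hz3 : ((z : ℤ_[q]) : ℚ_[q]) ^ 2 = (N : ℚ_[q]) := by
    have h4 := congrArg (fun t : ℤ_[q] => (t : ℚ_[q])) hz2
    simpa using h4
  refine ⟨z, ?_, hz3⟩
  intro h0
  rw [h0] at hz3
  have h5 : (N : ℚ_[q]) = 0 := by rw [← hz3]; norm_num
  have h6 : N = 0 := by exact_mod_cast h5
  rw [h6] at h
  have h7 : (q : ℤ) ∣ m ^ 2 := by
    have := dvd_neg.2 h
    simpa using this
  exact hm ((Nat.prime_iff_prime_int.1 (Fact.out : q.Prime)).dvd_of_dvd_pow h7)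

theorem t_WEI : S_WEI := by
  classical
  intro n f D q _ hn hf hd hsep hq hD
  have hqp : q.Prime := Fact.out
  have hq2 : q ≠ 2 := by
    rintro rfl
    nlinarith
  have hfm : (rd q f).Monic := hf.map _
  have hfd : (rd q f).natDegree = n := by rw [hf.natDegree_map, hd]
  have hns : ∀ (c : ZMod q) (h : (ZMod q)[X]), rd q f ≠ C c * h ^ 2 := by
    intro c h hc
    have hsq := hsep.squarefree
    have h1 : h * h ∣ rd q f := by
      rw [hc, sq]
      exact dvd_mul_left _ _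
    have h2 : IsUnit h := hsq h h1
    have h3 : (rd q f).natDegree = 0 := by
      rw [hc]
      obtain ⟨u, -, hu⟩ := Polynomial.isUnit_iff.1 h2
      rw [← hu, ← C_pow, ← C_mul, natDegree_C]
    omega
  have hW := Pool.Agent.H341R2.Sharp.weil_sharp_monic (F := ZMod q)
    (by rw [ZMod.ringChar_zmod_n]; exact hq2) hfm (by omega) hns
  rw [hfd, ZMod.card] at hW
  have hD0 : ((D : ℤ) : ZMod q) ≠ 0 := fun h => hD ((ZMod.intCast_zmod_eq_zero_iff_dvd D q).1 h)
  -- there is a point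
  have key : ∃ x : ZMod q, quadraticChar (ZMod q) (((D : ℤ) : ZMod q) * (rd q f).eval x) = 1 := by
    by_contra hcon
    push Not at hcon
    have h1 : ∀ x : ZMod q, (quadraticChar (ZMod q) ((rd q f).eval x) : ℝ) *
        (quadraticChar (ZMod q) ((D : ℤ) : ZMod q) : ℝ) =
        -1 + if (rd q f).eval x = 0 then 1 else 0 := by
      intro x
      have h2 : quadraticChar (ZMod q) (((D : ℤ) : ZMod q) * (rd q f).eval x) =
          quadraticChar (ZMod q) ((rd q f).eval x) * quadraticChar (ZMod q) ((D : ℤ) : ZMod q) := by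
        rw [map_mul, mul_comm]
      split_ifs with h0
      · rw [h0]
        simp
      · have h3 : ((D : ℤ) : ZMod q) * (rd q f).eval x ≠ 0 := mul_ne_zero hD0 h0
        have h4 := (quadraticChar_dichotomy h3).resolve_left (hcon x)
        rw [h2] at h4
        have h5 : ((quadraticChar (ZMod q) ((rd q f).eval x) *
          quadraticChar (ZMod q) ((D : ℤ) : ZMod q) : ℤ) : ℝ) = ((-1 : ℤ) : ℝ) := by rw [h4]
        push_cast at h5
        rw [h5]
        norm_num
    have h2 : (∑ x : ZMod q, (quadraticChar (ZMod q) ((rd q f).eval x) : ℝ)) *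
        (quadraticChar (ZMod q) ((D : ℤ) : ZMod q) : ℝ) =
        -(q : ℝ) + ((univ.filter fun x : ZMod q => (rd q f).eval x = 0).card : ℝ) := by
      rw [sum_mul, sum_congr rfl fun x _ => h1 x, sum_add_distrib, sum_const, card_univ, ZMod.card,
        sum_boole]
      simp
    have h3 : ((univ.filter fun x : ZMod q => (rd q f).eval x = 0).card : ℝ) ≤ n := by
      have h4 : (univ.filter fun x : ZMod q => (rd q f).eval x = 0) ⊆ (rd q f).roots.toFinset := by
        intro x hx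
        rw [Multiset.mem_toFinset, mem_roots hfm.ne_zero]
        exact (mem_filter.1 hx).2
      have h5 := (card_le_card h4).trans ((Multiset.toFinset_card_le _).trans (card_roots' _))
      rw [hfd] at h5
      exact_mod_cast h5
    have h4 : |(quadraticChar (ZMod q) ((D : ℤ) : ZMod q) : ℝ)| = 1 := by
      rcases quadraticChar_dichotomy hD0 with h5 | h5 <;> rw [h5] <;> norm_num
    have h5 : |-(q : ℝ) + ((univ.filter fun x : ZMod q => (rd q f).eval x = 0).card : ℝ)| ≤
        ((n : ℝ) - 1) * Real.sqrt q := by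
      rw [← h2, abs_mul, h4, mul_one]
      exact hW
    have h6 : (q : ℝ) - n ≤ ((n : ℝ) - 1) * Real.sqrt q := by
      have h7 := neg_abs_le (-(q : ℝ) + ((univ.filter fun x : ZMod q => (rd q f).eval x = 0).card : ℝ))
      linarith
    have h7 : 4 * (n : ℝ) ≤ Real.sqrt q := by
      refine Real.le_sqrt_of_sq_le ?_
      have h8 : ((16 * n ^ 2 : ℕ) : ℝ) < q := by exact_mod_cast hq
      push_cast at h8
      nlinarith
    have h8 : Real.sqrt q * Real.sqrt q = q := Real.mul_self_sqrt (by positivity)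
    have h9 : (1 : ℝ) ≤ n := by exact_mod_cast hn
    nlinarith
  obtain ⟨x, hx⟩ := key
  have hx0 : ((D : ℤ) : ZMod q) * (rd q f).eval x ≠ 0 := by
    intro h
    rw [h] at hx
    simp at hx
  obtain ⟨y, hy⟩ := (quadraticChar_one_iff_isSquare hx0).1 hx
  have hy0 : y ≠ 0 := by
    rintro rfl
    rw [mul_zero] at hy
    exact hx0 hy
  obtain ⟨e, rfl⟩ := ZMod.intCast_surjective x
  obtain ⟨m, rfl⟩ := ZMod.intCast_surjective y
  have h1 : (rd q f).eval ((e : ℤ) : ZMod q) = ((f.eval e : ℤ) : ZMod q) := by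
    have := Polynomial.eval_intCast_map (Int.castRingHom (ZMod q)) f e
    simpa using this
  obtain ⟨z, hz0, hz⟩ := lift_sq hq2 (D * f.eval e) m
    (fun h => hy0 ((ZMod.intCast_zmod_eq_zero_iff_dvd m q).2 h)) (by
      rw [← ZMod.intCast_zmod_eq_zero_iff_dvd]
      push_cast
      rw [h1] at hy
      rw [hy]
      ring)
  refine ⟨(e : ℚ_[q]), z, hz0, ?_⟩
  rw [hz]
  have h2 : (ov ℚ_[q] f).eval ((e : ℤ) : ℚ_[q]) = ((f.eval e : ℤ) : ℚ_[q]) := by
    have := Polynomial.eval_intCast_map (Int.castRingHom ℚ_[q]) f e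
    simpa using this
  rw [h2]
  push_cast
  rfl

end Pool.Agent.H30Q
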