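import Pool.Agent.H30Q.Main
import Pool.Agent.H30Q.HS
import Pool.Agent.H30Q.GMA
import Pool.Agent.H30Q.GMB
import Pool.Agent.H30Q.EE
import Pool.Agent.H30Q.UNI
import Pool.Agent.H30Q.PRF
import Pool.Agent.H30Q.HEN
import Pool.Agent.H30Q.REA
import Pool.Agent.H30Q.GPT
import Pool.Agent.H30Q.QPT
import Pool.Agent.H30Q.PI
import Pool.Agent.H30Q.EVN
import Pool.Agent.H30Q.BAD
import Pool.Agent.H30Q.SPL
import Pool.Agent.H30Q.LIN2
import Pool.Agent.H30Q.PGA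
import Pool.Agent.H30Q.PGB
import Pool.Agent.H30Q.TOT
import Pool.Agent.H30Q.Grp
import Pool.Agent.H30Q.Gal
import Pool.Agent.H30Q.RES
import Pool.Agent.H30Q.WEI
import Pool.Agent.H30Q.SMP
import Pool.Agent.H30Q.LIN1

/-! # The main theorem of the first part -/

namespace Pool.Agent.H30Q

theorem t_EEP : P_EE := t_EE t_HS t_GMA t_GMB

theorem main1 : S_MAIN :=
  main t_EEP t_GMB (t_PRF t_GMA t_GMB) t_HEN t_REA (t_GPT t_GMA t_GMB t_EEP t_UNI t_HEN)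
    (t_QPT t_GMB t_EEP t_HEN) (t_PI t_HEN) t_EVN t_BAD (t_PGB t_SPL t_LIN2 t_PGA) t_TOT t_IRR
    (t_RES (t_GAL t_GRP)) t_WEI t_SMP t_SQR t_LIN1

end Pool.Agent.H30Q
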