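import Pool.Agent.H30Q.Stm2

/-!
# Piece KD of project HQ, part 2
-/

set_option autoImplicit false

open Polynomial IsDedekindDomain NumberField
open scoped Classical

namespace Pool.Agent.H30Q

theorem t_KD : S_KD := by
  intro n W f L _ _ θ hR hW p hp hpW
  have : Fact p.Prime := ⟨hp⟩
  have hint : IsIntegral ℤ θ := ⟨f, hR.mon, by
    have h := hR.root
    rwa [aeval_def] at h⟩
  let t : 𝓞 L := ⟨θ, hint⟩
  have hmin : minpoly ℤ t = f := by
    have h1 : minpoly ℚ θ = ov ℚ f := by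
      refine (minpoly.eq_of_irreducible_of_monic hR.irr ?_ (hR.mon.map _)).symm
      rw [ov, ← algebraMap_int_eq, aeval_map_algebraMap]
      exact hR.root
    have h2 : minpoly ℚ θ = (minpoly ℤ θ).map (algebraMap ℤ ℚ) :=
      minpoly.isIntegrallyClosed_eq_field_fractions' ℚ hint
    have h3 : minpoly ℤ t = minpoly ℤ θ := (minpoly.algebraMap_eq (B := 𝓞 L) (B' := L)
      RingOfIntegers.coe_injective t).symm
    rw [h3]
    apply Polynomial.map_injective (algebraMap ℤ ℚ) (RingHom.injective_int _)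
    rw [← h2, h1]
    rfl
  have hexp : ¬ p ∣ RingOfIntegers.exponent t := by
    rw [RingOfIntegers.not_dvd_exponent_iff, codisjoint_iff, Ideal.eq_top_iff_one]
    have h1 : (W : ℤ) ∈ Ideal.comap (algebraMap ℤ (𝓞 L)) (conductor ℤ t) := by
      rw [Ideal.mem_comap, mem_conductor_iff]
      intro b
      obtain ⟨Y, hY⟩ := hW.ord b
      have h2 : algebraMap ℤ (𝓞 L) (W : ℤ) * b = aeval t Y := by
        apply RingOfIntegers.coe_injective
        rw [map_mul]
        have h3 : algebraMap (𝓞 L) L (aeval t Y) = aeval θ Y :=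
          (Polynomial.aeval_algebraMap_apply L t Y).symm
        rw [h3, ← hY]
        simp
      rw [h2]
      exact aeval_mem_adjoin_singleton ℤ t
    have h2 : IsCoprime (W : ℤ) (p : ℤ) := by
      rw [Nat.isCoprime_iff_coprime]
      exact ((Nat.Prime.coprime_iff_not_dvd hp).2 hpW).symm
    obtain ⟨a, b, hab⟩ := h2
    rw [← hab]
    exact Submodule.add_mem_sup (Ideal.mul_mem_left _ _ h1)
      (Ideal.mul_mem_left _ _ (Ideal.mem_span_singleton_self _))
  let E := NumberField.Ideal.primesOverSpanEquivMonicFactorsMod hexp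
  -- the primes above `p`
  have hmemp : ∀ 𝔓 : HeightOneSpectrum (𝓞 L), (p : 𝓞 L) ∈ 𝔓.asIdeal ↔
      𝔓.asIdeal ∈ Ideal.primesOver (Ideal.span {(p : ℤ)}) (𝓞 L) := by
    intro 𝔓
    constructor
    · intro h
      refine ⟨𝔓.isPrime, ⟨?_⟩⟩
      have hmax : (Ideal.span {(p : ℤ)}).IsMaximal := Int.ideal_span_isMaximal_of_prime p
      refine hmax.eq_of_le ?_ ?_
      · exact (Ideal.IsPrime.under ℤ 𝔓.asIdeal).ne_top
      · rw [Ideal.span_singleton_le_iff_mem, Ideal.mem_comap]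
        simpa using h
    · rintro ⟨-, ⟨h⟩⟩
      have h1 : (p : ℤ) ∈ Ideal.under ℤ 𝔓.asIdeal := by
        rw [← h]
        exact Ideal.mem_span_singleton_self _
      rw [Ideal.mem_comap] at h1
      simpa using h1
  have hp0 : (Ideal.span {(p : ℤ)}) ≠ ⊥ := by
    rw [Ne, Ideal.span_singleton_eq_bot]
    exact_mod_cast hp.ne_zero
  let e₁ : {𝔓 : HeightOneSpectrum (𝓞 L) | (p : 𝓞 L) ∈ 𝔓.asIdeal} ≃
      Ideal.primesOver (Ideal.span {(p : ℤ)}) (𝓞 L) :=
    { toFun := fun 𝔓 => ⟨𝔓.1.asIdeal, (hmemp 𝔓.1).1 𝔓.2⟩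
      invFun := fun 𝔮 => ⟨⟨𝔮.1, 𝔮.2.1, by
        have := 𝔮.2.2
        exact Ideal.ne_bot_of_liesOver_of_ne_bot hp0 𝔮.1⟩, (hmemp _).2 𝔮.2⟩
      left_inv := fun 𝔓 => rfl
      right_inv := fun 𝔮 => rfl }
  let e₂ : RingOfIntegers.monicFactorsMod t p ≃
      {g : (ZMod p)[X] // g.Monic ∧ Irreducible g ∧ g ∣ rd p f} :=
    Equiv.subtypeEquivRight fun g => by
      have h0 : Polynomial.map (Int.castRingHom (ZMod p)) (minpoly ℤ t) ≠ 0 :=
        (minpoly.monic t.isIntegral).map _ |>.ne_zero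
      rw [Multiset.mem_toFinset, Polynomial.mem_normalizedFactors_iff h0, hmin]
      tauto
  have e : {𝔓 : HeightOneSpectrum (𝓞 L) | (p : 𝓞 L) ∈ 𝔓.asIdeal} ≃
      {g : (ZMod p)[X] // g.Monic ∧ Irreducible g ∧ g ∣ rd p f} := (e₁.trans E).trans e₂
  have hfin : Finite {𝔓 : HeightOneSpectrum (𝓞 L) | (p : 𝓞 L) ∈ 𝔓.asIdeal} :=
    Finite.of_equiv _ (e₁.trans E).symm
  exact ⟨hfin, Nat.card_congr e⟩

end Pool.Agent.H30Q

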