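import Pool.Agent.H30Q.Stm2

/-!
# Piece LINU of project HQ, part 2
-/

set_option autoImplicit false

open scoped Classical

namespace Pool.Agent.H30Q

theorem t_LINU : S_LINU := by
  intro U _ _ _ T _ Φ
  have hT : Nonempty T := ⟨Φ 0⟩
  -- a large fibre
  obtain ⟨t, ht⟩ : ∃ t : T, Fintype.card U ≤ Fintype.card T *
      (Finset.univ.filter fun u => Φ u = t).card := by
    by_contra hcon
    push Not at hcon
    have h1 : Fintype.card U = ∑ t : T, (Finset.univ.filter fun u => Φ u = t).card := by
      rw [← Finset.card_univ]
      exact Finset.card_eq_sum_card_fiberwise fun x _ => Finset.mem_coe.2 (Finset.mem_univ _)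
    have h2 : Fintype.card T * Fintype.card U < Fintype.card T * Fintype.card U := by
      calc Fintype.card T * Fintype.card U =
            ∑ t : T, Fintype.card T * (Finset.univ.filter fun u => Φ u = t).card := by
            rw [h1, Finset.mul_sum]
        _ < ∑ _t : T, Fintype.card U :=
            Finset.sum_lt_sum_of_nonempty Finset.univ_nonempty fun t _ => hcon t
        _ = Fintype.card T * Fintype.card U := by
            rw [Finset.sum_const, Finset.card_univ, smul_eq_mul]
    exact lt_irrefl _ h2
  set S := Finset.univ.filter fun u => Φ u = t with hS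
  have hSne : S.Nonempty := by
    rw [← Finset.card_pos]
    by_contra h
    have h1 : S.card = 0 := by omega
    rw [h1, mul_zero] at ht
    have h2 : 0 < Fintype.card U := Fintype.card_pos_iff.2 ⟨0⟩
    omega
  obtain ⟨v₀, hv₀⟩ := hSne
  have hv₀' : Φ v₀ = t := (Finset.mem_filter.1 hv₀).2
  obtain ⟨b, hbs, hspan, hli⟩ := exists_linearIndependent (ZMod 2)
    ((fun v => v + v₀) '' (S : Set U))
  have : Finite b := Set.toFinite b
  have : Fintype b := Fintype.ofFinite b
  let e : Fin (Fintype.card b) ≃ b := (Fintype.equivFin b).symm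
  choose w hw hwb using fun k => hbs (e k).2
  refine ⟨Fintype.card b, v₀, w, ?_, ?_, ?_⟩
  · intro k
    rw [hv₀']
    exact (Finset.mem_filter.1 (Finset.mem_coe.1 (hw k))).2
  · refine ht.trans (Nat.mul_le_mul_left _ ?_)
    let N := Submodule.span (ZMod 2) ((fun v => v + v₀) '' (S : Set U))
    have : Fintype N := Fintype.ofFinite N
    have h1 : S.card ≤ Fintype.card N := by
      rw [← Fintype.card_coe]
      refine Fintype.card_le_of_injective
        (fun v : S => (⟨v.1 + v₀, Submodule.subset_span ⟨v.1, v.2, rfl⟩⟩ : N)) ?_
      intro v v' h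
      exact Subtype.ext (add_right_cancel (congrArg Subtype.val h))
    have h2 : Fintype.card N = 2 ^ Fintype.card b := by
      rw [Module.card_eq_pow_finrank (K := ZMod 2) (V := N), ZMod.card]
      congr 1
      show Module.finrank (ZMod 2) (Submodule.span (ZMod 2) ((fun v => v + v₀) '' (S : Set U))) = _
      rw [← hspan, finrank_span_set_eq_card hli, Set.toFinset_card]
    rw [← h2]
    exact h1
  · intro I hI hsum
    have h1 : ∀ k, w k + v₀ = (e k : U) := hwb
    have hli2 : LinearIndependent (ZMod 2) fun k => ((e k : b) : U) := hli.comp e e.injective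
    rw [Fintype.linearIndependent_iff] at hli2
    obtain ⟨i, hi⟩ := hI
    have h2 := hli2 (fun k => if k ∈ I then 1 else 0) (by
      simp only [ite_smul, one_smul, zero_smul, Finset.sum_ite_mem, Finset.univ_inter]
      rw [← hsum]
      exact Finset.sum_congr rfl fun k _ => (h1 k).symm) i
    rw [if_pos hi] at h2
    exact one_ne_zero h2

end Pool.Agent.H30Q

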