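import Pool.Agent.H30Q.MEA2

/-!
# Project HQ (helper30), piece MEA: the mean of the weight
-/

set_option autoImplicit false

open Polynomial NumberField Filter Topology
open scoped Classical

namespace Pool.Agent.H30Q

namespace MEAP

open Pool.Agent.W401.Cheb

/-- Chebotarev's theorem for a function of the Frobenius elements. -/
theorem mean {N : Type} [Field N] [NumberField N] [IsGalois ℚ N] (a : ℕ → ℝ) (A : Gal(N/ℚ) → ℝ)
    (D : ℕ) (hD : 0 < D)
    (h : ∀ (q : ℕ) [Fact q.Prime], ¬ q ∣ D → ∀ (φ : 𝓞 N →+* AlgebraicClosure (ZMod q))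
      (σ : Gal(N/ℚ)), HasFrob q φ σ → a q = A σ) :
    Tendsto (M a) atTop (𝓝 ((∑ σ, A σ) / Nat.card Gal(N/ℚ))) := by
  obtain ⟨D', hD', htor⟩ := torsor N
  have hG : (0 : ℝ) < Nat.card Gal(N/ℚ) := by exact_mod_cast Nat.card_pos
  have h1 : Tendsto (M fun q => ∑ g : Gal(N/ℚ), A g * (xp N g q : ℝ)) atTop (𝓝 (∑ g, A g)) := by
    have e1 : Tendsto (fun n => ∑ g : Gal(N/ℚ), A g * M (fun q => (xp N g q : ℝ)) n) atTop
        (𝓝 (∑ g : Gal(N/ℚ), A g * 1)) :=
      tendsto_finsetSum _ fun g _ => (chebotarev N g).const_mul (A g)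
    simp only [mul_one] at e1
    refine e1.congr fun n => ?_
    rw [M_sum]
    exact Finset.sum_congr rfl fun g _ => (M_smul _ _ _).symm
  have h2 : Tendsto (M fun q => (1 / (Nat.card Gal(N/ℚ) : ℝ)) *
      ∑ g : Gal(N/ℚ), A g * (xp N g q : ℝ)) atTop (𝓝 ((∑ σ, A σ) / Nat.card Gal(N/ℚ))) := by
    have e1 := h1.const_mul (1 / (Nat.card Gal(N/ℚ) : ℝ))
    rw [one_div_mul_eq_div] at e1
    refine e1.congr fun n => ?_
    rw [M_smul]
  refine M_congr (D := D * D') (Nat.mul_pos hD hD') (fun q hq hqD => ?_) h2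
  have : Fact q.Prime := ⟨hq⟩
  have hqD1 : ¬ q ∣ D := fun h => hqD (h.mul_right _)
  have hqD2 : ¬ q ∣ D' := fun h => hqD (h.mul_left _)
  have ht := htor q hqD2
  have e1 : ∀ g : Gal(N/ℚ), A g * (xp N g q : ℝ) = a q * (xp N g q : ℝ) := by
    intro g
    by_cases hg : ∃ φ : 𝓞 N →+* AlgebraicClosure (ZMod q), HasFrob q φ g
    · obtain ⟨φ, hφ⟩ := hg
      rw [h q hqD1 φ g hφ]
    · have h0 : xp N g q = 0 := by
        unfold xp
        rw [dif_pos hq]
        have : IsEmpty {φ : 𝓞 N →+* AlgebraicClosure (ZMod q) // HasFrob q φ g} :=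
          ⟨fun x => hg ⟨x.1, x.2⟩⟩
        exact Nat.card_of_isEmpty
      rw [h0, Nat.cast_zero, mul_zero, mul_zero]
  have e2 : (∑ g : Gal(N/ℚ), (xp N g q : ℝ)) = Nat.card Gal(N/ℚ) := by
    rw [← sum_xp ht]
    push_cast
    rfl
  rw [Finset.sum_congr rfl fun g _ => e1 g, ← Finset.mul_sum, e2]
  field_simp

/-- The zeros of `f` in the integers of a number field in which it splits. -/
theorem zeros {N : Type} [Field N] [NumberField N] (f : ℤ[X]) (hm : f.Monic)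
    (hs : (ov ℚ f).Separable) (hsp : ((ov ℚ f).map (algebraMap ℚ N)).Splits) :
    Nat.card (ZN f N) = f.natDegree ∧
    f.map (algebraMap ℤ (𝓞 N)) = ∏ᶠ s : ZN f N, (X - C s.1) := by
  have hinj : Function.Injective (Int.castRingHom ℚ) := Int.cast_injective
  obtain ⟨h1, h2⟩ := Pool.Agent.H30T.GalP.prod_rootSet (N := N) (ov ℚ f) (hm.map _) hs hsp
  have hdeg : (ov ℚ f).natDegree = f.natDegree := natDegree_map_eq_of_injective hinj f
  have hroot : ∀ x : N, x ∈ (ov ℚ f).rootSet N ↔ aeval x f = 0 := by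
    intro x
    rw [mem_rootSet]
    have e := aeval_map_algebraMap ℚ x f
    constructor
    · rintro ⟨-, h⟩
      rw [← e]
      exact h
    · intro h
      refine ⟨(hm.map _).ne_zero, ?_⟩
      rw [← e] at h
      exact h
  have hco : ∀ x : 𝓞 N, algebraMap (𝓞 N) N (aeval x f) = aeval (x : N) f := by
    intro x
    exact (aeval_algebraMap_apply N x f).symm
  let e : ZN f N ≃ (ov ℚ f).rootSet N :=
    { toFun := fun s => ⟨(s.1 : N), by
        rw [hroot]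
        show aeval (s.1 : N) f = 0
        rw [← hco, s.2, map_zero]⟩
      invFun := fun x => ⟨⟨x.1, ⟨f, hm, (hroot x.1).1 x.2⟩⟩, by
        apply RingOfIntegers.ext
        have h3 := hco ⟨x.1, ⟨f, hm, (hroot x.1).1 x.2⟩⟩
        have h4 : aeval (x.1 : N) f = 0 := (hroot x.1).1 x.2
        show algebraMap (𝓞 N) N _ = algebraMap (𝓞 N) N 0
        rw [h3, map_zero]
        exact h4⟩
      left_inv := fun s => Subtype.ext (RingOfIntegers.ext rfl)
      right_inv := fun x => Subtype.ext rfl }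
  have hfin := finite_ZN (N := N) hm
  have : Fintype (ZN f N) := Fintype.ofFinite _
  refine ⟨?_, ?_⟩
  · rw [Nat.card_congr e, Nat.card_eq_fintype_card, h1, hdeg]
  · rw [finprod_eq_prod_of_fintype]
    apply Polynomial.map_injective (algebraMap (𝓞 N) N) RingOfIntegers.coe_injective
    rw [Polynomial.map_prod, Polynomial.map_map]
    have e1 : f.map ((algebraMap (𝓞 N) N).comp (algebraMap ℤ (𝓞 N))) =
        (ov ℚ f).map (algebraMap ℚ N) := by
      rw [Polynomial.map_map]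
      congr 1
      exact RingHom.ext_int _ _
    rw [e1, h2]
    symm
    refine Fintype.prod_equiv e _ _ fun s => ?_
    rw [Polynomial.map_sub, map_X, map_C]
    rfl

end MEAP

open MEAP Pool.Agent.W401.Cheb in
theorem t_MEA : S_MEA := by
  intro n W f hn hm hdeg hsep hW hWs
  subst hdeg
  obtain ⟨N, iF, iN, iG, -, ζ, -, hζ, -, hsp⟩ := Pool.Agent.H30T.GalP.exists_closure ℚ 1 W hW
    (ov ℚ f) (hm.map _).ne_zero
  obtain ⟨hN, hprod⟩ := zeros (N := N) f hm hsep hsp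
  have hWne : NeZero W := ⟨hW⟩
  -- elements of `SS W f`
  have hSSW : ∀ q ∈ SS W f, ¬ q ∣ W := by
    rintro q ⟨hq, hqW, -⟩ hd
    have h1 := hq.two_le
    rcases Nat.lt_or_ge W 2 with h | h
    · have h2 : W = 1 := by omega
      rw [h2, Nat.dvd_one] at hd
      omega
    · rw [Nat.mod_eq_of_lt (show 1 < W by omega)] at hqW
      have h3 : q ≤ W := Nat.le_of_dvd (by omega) hd
      rcases h3.lt_or_eq with h4 | h4
      · rw [Nat.mod_eq_of_lt h4] at hqW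
        omega
      · rw [h4, Nat.mod_self] at hqW
        omega
  have hwt : ∀ q ∈ SS W f, 0 ≤ wt f q ∧ wt f q ≤ 1 := by
    intro q hq
    have : Fact q.Prime := ⟨hq.1⟩
    have h1 := wt_le (p := q) hm (hWs q hq.1 (hSSW q hq)) hn
    exact ⟨h1.1, h1.2.1⟩
  refine ⟨hwt, ?_⟩
  -- the functions on the Galois group
  set Bf : Gal(N/ℚ) → ℝ := fun σ => if σ ζ = ζ ∧ kf f σ ≠ 0 then 1 else 0 with hBf
  set Af : Gal(N/ℚ) → ℝ := fun σ => if σ ζ = ζ ∧ kf f σ ≠ 0 then 4 * (kf f σ : ℝ) / 2 ^ cf f σ else 0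
    with hAf
  have hmemSS : ∀ (q : ℕ) [Fact q.Prime], ¬ q ∣ W → ∀ (φ : 𝓞 N →+* AlgebraicClosure (ZMod q))
      (σ : Gal(N/ℚ)), HasFrob q φ σ →
      zer f q = kf f σ ∧ fac f q = cf f σ ∧ (q ∈ SS W f ↔ σ ζ = ζ ∧ kf f σ ≠ 0) := by
    intro q hqF hqW φ σ hσ
    have hs := hWs q hqF.out hqW
    have hinj := inj_of hm hs hprod φ
    have hz := zer_frob hm hs hN φ hinj hσ
    have hf := fac_frob hm hs hN φ hinj hσ
    refine ⟨hz, hf, ?_⟩
    have h1 : (∃ e : ℤ, (q : ℤ) ∣ f.eval e) ↔ kf f σ ≠ 0 := by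
      rw [← hz, zer_eq hm]
      rw [Ne, Finset.card_eq_zero, ← Ne, ← Finset.nonempty_iff_ne_empty]
      constructor
      · rintro ⟨e, he⟩
        rw [dvd_iff] at he
        refine ⟨algebraMap (ZMod q) (AlgebraicClosure (ZMod q)) (e : ZMod q),
          Finset.mem_filter.2 ⟨?_, ?_⟩⟩
        · rw [mem_RR hm, aeval_algebraMap_apply, coe_aeval_eq_eval, he, map_zero]
        · rw [← map_pow, ZMod.pow_card]
      · rintro ⟨x, hx⟩
        obtain ⟨h2, h3⟩ := Finset.mem_filter.1 hx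
        obtain ⟨c, rfl⟩ := Pool.Agent.Q202.RT.fixed_frob x h3
        have h4 : (((c.val : ℕ) : ℤ) : ZMod q) = c := by push_cast; exact ZMod.natCast_zmod_val c
        refine ⟨((c.val : ℕ) : ℤ), ?_⟩
        rw [dvd_iff, h4]
        rw [mem_RR hm, aeval_algebraMap_apply, coe_aeval_eq_eval] at h2
        exact (map_eq_zero_iff _ (algebraMap (ZMod q) (AlgebraicClosure (ZMod q))).injective).1 h2
    have h2 : q % W = 1 % W ↔ σ ζ = ζ := by
      have hpow : (σ ζ) ^ W = 1 := by rw [← map_pow, hζ.pow_eq_one, map_one]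
      obtain ⟨m, _, hmζ⟩ := hζ.eq_pow_of_pow_eq_one hpow
      have h3 := Pool.Agent.Q202.RT.frob_zeta hW hζ hqW φ hσ hmζ.symm
      rw [ZMod.natCast_eq_natCast_iff'] at h3
      rw [← h3, ← hmζ]
      have h4 : ζ ^ m = ζ ↔ m ≡ 1 [MOD W] := by
        conv_lhs => rw [show (ζ ^ m = ζ) = (ζ ^ m = ζ ^ 1) by rw [pow_one]]
        obtain ⟨u, hu⟩ := hζ.isUnit hW
        have h5 : IsPrimitiveRoot u W := IsPrimitiveRoot.coe_units_iff.1 (by rw [hu]; exact hζ)
        rw [← hu, ← Units.val_pow_eq_pow_val, ← Units.val_pow_eq_pow_val, Units.val_inj,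
          pow_eq_pow_iff_modEq, ← h5.eq_orderOf]
      rw [h4]
      rfl
    constructor
    · rintro ⟨h3, h4, h5⟩
      exact ⟨h2.1 h4, h1.1 h5⟩
    · rintro ⟨h3, h4⟩
      exact ⟨hqF.out, h2.2 h3, h1.2 h4⟩
  set a : ℕ → ℝ := fun q => if q ∈ SS W f then wt f q else 0 with ha
  set b : ℕ → ℝ := fun q => if q ∈ SS W f then 1 else 0 with hb
  have hWpos : 0 < W := Nat.pos_of_ne_zero hW
  have haA : ∀ (q : ℕ) [Fact q.Prime], ¬ q ∣ W → ∀ (φ : 𝓞 N →+* AlgebraicClosure (ZMod q))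
      (σ : Gal(N/ℚ)), HasFrob q φ σ → a q = Af σ := by
    intro q _ hqW φ σ hσ
    obtain ⟨h1, h2, h3⟩ := hmemSS q hqW φ σ hσ
    simp only [ha, hAf]
    by_cases h4 : q ∈ SS W f
    · rw [if_pos h4, if_pos (h3.1 h4), wt, h1, h2]
    · rw [if_neg h4, if_neg (fun h => h4 (h3.2 h))]
  have hbB : ∀ (q : ℕ) [Fact q.Prime], ¬ q ∣ W → ∀ (φ : 𝓞 N →+* AlgebraicClosure (ZMod q))
      (σ : Gal(N/ℚ)), HasFrob q φ σ → b q = Bf σ := by
    intro q _ hqW φ σ hσ
    obtain ⟨h1, h2, h3⟩ := hmemSS q hqW φ σ hσ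
    simp only [hb, hBf]
    by_cases h4 : q ∈ SS W f
    · rw [if_pos h4, if_pos (h3.1 h4)]
    · rw [if_neg h4, if_neg (fun h => h4 (h3.2 h))]
  have hMa := mean a Af W hWpos haA
  have hMb := mean b Bf W hWpos hbB
  -- every element is a Frobenius element
  have hex : ∀ σ : Gal(N/ℚ), ∃ q : ℕ, ∃ (_ : Fact q.Prime), ¬ q ∣ W ∧
      ∃ φ : 𝓞 N →+* AlgebraicClosure (ZMod q), HasFrob q φ σ := by
    intro σ
    obtain ⟨q, ⟨hq, hx⟩, hqW⟩ := (infinite_frob N σ).exists_gt W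
    have hqF : Fact q.Prime := ⟨hq⟩
    refine ⟨q, hqF, fun h => absurd (Nat.le_of_dvd hWpos h) (by omega), ?_⟩
    by_contra hcon
    push Not at hcon
    apply hx
    unfold xp
    rw [dif_pos hq]
    have : IsEmpty {φ : 𝓞 N →+* AlgebraicClosure (ZMod q) // HasFrob q φ σ} :=
      ⟨fun x => hcon x.1 x.2⟩
    exact Nat.card_of_isEmpty
  have hAB : ∀ σ, 0 ≤ Af σ ∧ Af σ ≤ Bf σ := by
    intro σ
    obtain ⟨q, hqF, hqW, φ, hφ⟩ := hex σ
    rw [← haA q hqW φ σ hφ, ← hbB q hqW φ σ hφ]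
    simp only [ha, hb]
    split_ifs with h
    · exact hwt q h
    · exact ⟨le_rfl, le_rfl⟩
  have hfin := finite_ZN (N := N) hm
  have hk1 : kf f (1 : Gal(N/ℚ)) = f.natDegree := by
    rw [← hN, kf]
    refine Nat.card_congr (Equiv.subtypeUnivEquiv ?_)
    intro s
    apply Subtype.ext
    rw [act_coe, one_smul]
  have hcond1 : (1 : Gal(N/ℚ)) ζ = ζ ∧ kf f (1 : Gal(N/ℚ)) ≠ 0 := ⟨rfl, by rw [hk1]; omega⟩
  have hB1 : Bf 1 = 1 := by
    simp only [hBf]
    rw [if_pos hcond1]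
  have hA1 : Af 1 < 1 := by
    obtain ⟨q, hqF, hqW, φ, hφ⟩ := hex 1
    obtain ⟨h1, h2, h3⟩ := hmemSS q hqW φ 1 hφ
    rw [← haA q hqW φ 1 hφ]
    simp only [ha]
    rw [if_pos (h3.2 hcond1)]
    exact (wt_le (p := q) hm (hWs q hqF.out hqW) hn).2.2 (h1.trans hk1)
  have hG : (0 : ℝ) < Nat.card Gal(N/ℚ) := by exact_mod_cast Nat.card_pos
  have hsA : 0 ≤ ∑ σ, Af σ := Finset.sum_nonneg fun σ _ => (hAB σ).1
  have hsAB : ∑ σ, Af σ < ∑ σ, Bf σ :=
    Finset.sum_lt_sum (fun σ _ => (hAB σ).2) ⟨1, Finset.mem_univ _, by rw [hB1]; exact hA1⟩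
  have hsB : 0 < ∑ σ, Bf σ := hsA.trans_lt hsAB
  have hLB : 0 < (∑ σ, Bf σ) / (Nat.card Gal(N/ℚ) : ℝ) := div_pos hsB hG
  -- the sums
  have hup : ∀ x : ℕ, upTo (SS W f) x = (pr x).filter fun q => q ∈ SS W f := by
    intro x
    ext q
    unfold upTo pr
    rw [Finset.mem_filter, Finset.mem_filter, Finset.mem_filter, and_assoc]
    constructor
    · rintro ⟨h1, h2⟩
      exact ⟨h1, h2.1, h2⟩
    · rintro ⟨h1, -, h2⟩
      exact ⟨h1, h2⟩
  have hMa' : ∀ x : ℕ, M a x = (∑ q ∈ upTo (SS W f) x, wt f q) / (Nat.primeCounting x : ℝ) := by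
    intro x
    rw [hup, Finset.sum_filter]
    rfl
  have hMb' : ∀ x : ℕ, M b x = ((upTo (SS W f) x).card : ℝ) / (Nat.primeCounting x : ℝ) := by
    intro x
    rw [hup, Finset.card_filter]
    push_cast
    rfl
  have hpc : ∀ x : ℕ, 2 ≤ x → (0 : ℝ) < Nat.primeCounting x := by
    intro x hx
    have : Nat.primeCounting x ≠ 0 := by
      rw [Ne, Nat.primeCounting_eq_zero_iff]
      omega
    exact_mod_cast Nat.pos_of_ne_zero this
  refine ⟨⟨((∑ σ, Af σ) / Nat.card Gal(N/ℚ)) / ((∑ σ, Bf σ) / Nat.card Gal(N/ℚ)), ?_, ?_, ?_⟩, ?_⟩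
  · exact div_nonneg (div_nonneg hsA hG.le) hLB.le
  · rw [div_lt_one hLB]
    exact div_lt_div_of_pos_right hsAB hG
  · refine (hMa.div hMb hLB.ne').congr' ?_
    filter_upwards [eventually_ge_atTop 2] with x hx
    rw [Pi.div_apply, hMa', hMb', avg]
    have h1 := hpc x hx
    rw [div_div_div_cancel_right₀ h1.ne']
  · refine ⟨(∑ σ, Bf σ) / (Nat.card Gal(N/ℚ) : ℝ) / 2, by positivity, ?_⟩
    have h1 : ∀ᶠ x : ℕ in atTop, (∑ σ, Bf σ) / (Nat.card Gal(N/ℚ) : ℝ) / 2 < M b x :=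
      hMb.eventually (lt_mem_nhds (by linarith))
    filter_upwards [h1, eventually_ge_atTop 2] with x hx hx2
    rw [hMb', lt_div_iff₀ (hpc x hx2)] at hx
    exact hx.le

end Pool.Agent.H30Q
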