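import Pool.Agent.H30Q.PGA
import Pool.Agent.H30Q.Stm2

/-! Project HQ part 2 (helper30), piece PGC (helper66): the pigeonhole principle over the class group, all the
primes above `P`.  Adaptation of `PGA.lean` (helper50). -/

set_option autoImplicit false
set_option linter.all false

open Polynomial IsDedekindDomain Matrix NumberField
open scoped Classical nonZeroDivisors

namespace Pool.Agent.H30Q.PGCP

open Pool.Agent.N874.PP (Ev)
open Pool.Agent.H30Q.EVNP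
open Pool.Agent.H30Q.PGAP

variable {L : Type} [Field L] [NumberField L]

section main

variable {ι : Type} [Fintype ι] (𝔭 : ι → HeightOneSpectrum (𝓞 L))

/-- The ideal of a vector of exponents. -/
noncomputable def I2 (v : ι → ZMod 2) : Ideal (𝓞 L) := ∏ i, (𝔭 i).asIdeal ^ (v i).val

lemma I2_ne (v : ι → ZMod 2) : I2 𝔭 v ≠ 0 := by
  unfold I2
  exact Finset.prod_ne_zero_iff.2 fun j _ => pow_ne_zero _ (asIdeal_ne _)

lemma I2_dvd {N : 𝓞 L} (h : ∀ i, N ∈ (𝔭 i).asIdeal) (v : ι → ZMod 2) :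
    I2 𝔭 v ∣ Ideal.span {N} ^ Fintype.card ι := by
  unfold I2
  have h1 : Ideal.span {N} ^ Fintype.card ι = ∏ _i : ι, Ideal.span {N} := by
    rw [Finset.prod_const, Finset.card_univ]
  rw [h1]
  refine Finset.prod_dvd_prod_of_dvd _ _ fun i _ => ?_
  have h2 : (v i).val ≤ 1 := Nat.lt_succ_iff.1 (ZMod.val_lt _)
  calc (𝔭 i).asIdeal ^ (v i).val ∣ (𝔭 i).asIdeal ^ 1 := pow_dvd_pow _ h2
    _ = (𝔭 i).asIdeal := pow_one _
    _ ∣ Ideal.span {N} := by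
      rw [Ideal.dvd_iff_le, Ideal.span_singleton_le_iff_mem]
      exact h i

lemma I2_norm {P : Finset ℕ} (ch nn : ι → ℕ) (hch : ∀ i, ch i ∈ P)
    (h : ∀ i, Ideal.absNorm (𝔭 i).asIdeal = ch i ^ nn i)
    (v : ι → ZMod 2) (hv : ∀ p ∈ P, ∑ i ∈ Finset.univ.filter (fun i => ch i = p),
      (nn i : ZMod 2) * v i = 0) : IsSquare (Ideal.absNorm (I2 𝔭 v)) := by
  unfold I2
  rw [map_prod, ← Finset.prod_fiberwise_of_maps_to (fun i _ => hch i)]
  refine Finset.isSquare_prod _ fun p hp => ?_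
  have h1 : ∀ i ∈ Finset.univ.filter (fun i => ch i = p),
      Ideal.absNorm ((𝔭 i).asIdeal ^ (v i).val) = p ^ (nn i * (v i).val) := by
    intro i hi
    rw [map_pow, h i, (Finset.mem_filter.1 hi).2, pow_mul]
  rw [Finset.prod_congr rfl h1, Finset.prod_pow_eq_pow_sum]
  have h2 : Even (∑ i ∈ Finset.univ.filter (fun i => ch i = p), nn i * (v i).val) := by
    rw [← ZMod.natCast_eq_zero_iff_even, ← hv p hp]
    push_cast
    exact Finset.sum_congr rfl fun i _ => by rw [ZMod.natCast_zmod_val]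
  exact h2.isSquare_pow _

lemma I2_cc (q : HeightOneSpectrum (𝓞 L)) (v : ι → ZMod 2) :
    cc q (I2 𝔭 v) = ∑ i, (v i).val * (if q = 𝔭 i then 1 else 0) := by
  unfold I2
  rw [cc_prod q _ _ fun j _ => pow_ne_zero _ (asIdeal_ne _)]
  refine Finset.sum_congr rfl fun j _ => ?_
  rw [cc_pow q (asIdeal_ne _), cc_prime]

lemma I2_cc_self (hinj : Function.Injective 𝔭) (j₀ : ι) (v : ι → ZMod 2) :
    cc (𝔭 j₀) (I2 𝔭 v) = (v j₀).val := by
  rw [I2_cc, Finset.sum_eq_single j₀, if_pos rfl, mul_one]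
  · intro j _ hj
    rw [if_neg fun hh => hj (hinj hh).symm, mul_zero]
  · intro hh
    exact absurd (Finset.mem_univ _) hh

lemma I2_cc_zero (q : HeightOneSpectrum (𝓞 L)) (hq : ∀ i, q ≠ 𝔭 i) (v : ι → ZMod 2) :
    cc q (I2 𝔭 v) = 0 := by
  rw [I2_cc]
  refine Finset.sum_eq_zero fun j _ => ?_
  rw [if_neg (hq j), mul_zero]

end main

lemma core {n W : ℕ} {f : ℤ[X]} {θ : L} (hR : Rt n f θ) (hG : GW n f θ W) {P : Finset ℕ}
    {ι : Type} [Fintype ι] (𝔭 : ι → HeightOneSpectrum (𝓞 L))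
    (hP : ∀ p : P, (p : ℕ).Prime ∧ ¬ (p : ℕ) ∣ W)
    (hinj : Function.Injective 𝔭)
    (ch nn : ι → ℕ) (hch : ∀ i, ch i ∈ P)
    (habs : ∀ i, Ideal.absNorm (𝔭 i).asIdeal = ch i ^ nn i)
    (hmem : ∀ i, ((∏ p ∈ P, p : ℕ) : 𝓞 L) ∈ (𝔭 i).asIdeal)
    (hchm : ∀ i, ((ch i : ℕ) : 𝓞 L) ∈ (𝔭 i).asIdeal)
    (v v₀ : ι → ZMod 2)
    (hv : ∀ p ∈ P, ∑ i ∈ Finset.univ.filter (fun i => ch i = p), (nn i : ZMod 2) * v i = 0)
    (hv₀ : ∀ p ∈ P, ∑ i ∈ Finset.univ.filter (fun i => ch i = p), (nn i : ZMod 2) * v₀ i = 0)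
    (x x₀ : 𝓞 L) (J : Ideal (𝓞 L)) (hJ : J ≠ 0) (k : ℕ)
    (hJd : J ∣ Ideal.span {((∏ p ∈ P, p : ℕ) : 𝓞 L)} ^ k)
    (hx : Ideal.span {x} = I2 𝔭 v * J) (hx₀ : Ideal.span {x₀} = I2 𝔭 v₀ * J)
    (hmod : x - x₀ ∈ Ideal.span {((4 * W ^ 3 : ℕ) : 𝓞 L)})
    (hsg : ∀ z : ℝ, (ov ℝ f).eval z = 0 → ∃ σ : L →+* ℝ,
      (∀ g : ℤ[X], σ (aeval θ g) = (ov ℝ g).eval z) ∧
      (0 < σ (algebraMap (𝓞 L) L x) ↔ 0 < σ (algebraMap (𝓞 L) L x₀)))
    (hns : 0 < Algebra.norm ℤ x ↔ 0 < Algebra.norm ℤ x₀) :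
    ∃ A : ℤ[X], aeval θ A ≠ 0 ∧ (∃ Y : ℤ[X], A = 1 + C (4 * W : ℤ) * Y) ∧
    IsSquare (Algebra.norm ℚ (aeval θ A)) ∧
    (∀ z : ℝ, (ov ℝ f).eval z = 0 → 0 < (ov ℝ A).eval z) ∧
    (∀ 𝔓 : HeightOneSpectrum (𝓞 L), (∀ p ∈ P, (p : 𝓞 L) ∉ 𝔓.asIdeal) → Ev 𝔓 (aeval θ A)) ∧
    ∀ j, (Ev (𝔭 j) (aeval θ A) ↔ v j + v₀ j = 0) := by
  have hx0 : x ≠ 0 := by
    rintro rfl
    rw [Ideal.span_singleton_eq_bot.2 rfl] at hx
    exact mul_ne_zero (I2_ne 𝔭 v) hJ hx.symm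
  have hx₀0 : x₀ ≠ 0 := by
    rintro rfl
    rw [Ideal.span_singleton_eq_bot.2 rfl] at hx₀
    exact mul_ne_zero (I2_ne 𝔭 v₀) hJ hx₀.symm
  -- `x₀` divides a power of the product of the primes
  obtain ⟨k', hk'⟩ : ∃ k', k' = Fintype.card ι + k := ⟨_, rfl⟩
  have hdvd : x₀ ∣ ((∏ p ∈ P, p : ℕ) : 𝓞 L) ^ k' := by
    have h1 : Ideal.span {x₀} ∣ Ideal.span {((∏ p ∈ P, p : ℕ) : 𝓞 L) ^ k'} := by
      rw [hx₀, ← Ideal.span_singleton_pow, hk', pow_add]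
      exact mul_dvd_mul (I2_dvd 𝔭 hmem v₀) hJd
    rw [Ideal.dvd_iff_le] at h1
    exact Ideal.span_singleton_le_span_singleton.1 h1
  obtain ⟨y₀, hy₀⟩ := hdvd
  have h2W : 2 ∣ W := (by norm_num : 2 ∣ 8).trans hG.eight
  have hcop : Nat.Coprime ((∏ p ∈ P, p) ^ k') (4 * W ^ 3) := by
    apply Nat.Coprime.pow_left
    apply Nat.Coprime.prod_left
    intro p hp
    have h1 := hP ⟨p, hp⟩
    rw [Nat.Prime.coprime_iff_not_dvd h1.1]
    intro h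
    apply h1.2
    rcases (Nat.Prime.dvd_mul h1.1).1 h with h | h
    · have h3 : p ∣ 2 := Nat.Prime.dvd_of_dvd_pow h1.1 (n := 2) (by simpa using h)
      exact h3.trans h2W
    · exact Nat.Prime.dvd_of_dvd_pow h1.1 h
  obtain ⟨a, b, hab⟩ := Nat.isCoprime_iff_coprime.2 hcop
  have habO : (a : 𝓞 L) * ((∏ p ∈ P, p : ℕ) : 𝓞 L) ^ k' + b * (4 * W ^ 3) = 1 := by
    have := congrArg (Int.cast : ℤ → 𝓞 L) hab
    push_cast at this ⊢
    exact this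
  set x' : 𝓞 L := a * y₀ with hx'
  have hxx : x₀ * x' = 1 - b * (4 * W ^ 3) := by
    rw [hx', ← habO, hy₀]
    ring
  have hx'0 : x' ≠ 0 := by
    intro h
    rw [h, mul_zero] at hxx
    have h1 : ((b * (4 * W ^ 3) : ℤ) : 𝓞 L) = ((1 : ℤ) : 𝓞 L) := by
      push_cast
      linear_combination hxx
    have h2 : (b * (4 * (W : ℤ) ^ 3) : ℤ) = 1 := by exact_mod_cast h1
    have h3 : (4 : ℤ) ∣ 1 := ⟨b * (W : ℤ) ^ 3, by rw [← h2]; ring⟩
    norm_num at h3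
  obtain ⟨t, ht⟩ := Ideal.mem_span_singleton.1 hmod
  push_cast at ht
  obtain ⟨Z, hZ⟩ : ∃ Z : 𝓞 L, Z = -2 * b + 4 * W ^ 3 * b ^ 2 + t * x₀ * x' ^ 2 := ⟨_, rfl⟩
  have hα : x * x₀ * x' ^ 2 = 1 + 4 * W ^ 3 * Z := by
    have h1 : x = x₀ + 4 * W ^ 3 * t := by linear_combination ht
    rw [h1, hZ]
    linear_combination (x₀ * x' + (1 - b * (4 * W ^ 3))) * hxx
  obtain ⟨Y, hY⟩ := hG.ord Z
  have hA : aeval θ (1 + C (4 * W : ℤ) * (C (W : ℤ) * Y)) =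
      algebraMap (𝓞 L) L x * algebraMap (𝓞 L) L x₀ * algebraMap (𝓞 L) L x' ^ 2 := by
    have e1 : algebraMap (𝓞 L) L (x * x₀ * x' ^ 2) =
        1 + 4 * (W : L) ^ 3 * algebraMap (𝓞 L) L Z := by
      rw [hα, map_add, map_one, map_mul, map_mul, map_pow, map_natCast]
      have e4 : algebraMap (𝓞 L) L 4 = 4 := by exact map_ofNat _ 4
      rw [e4]
    have e2 : aeval θ (1 + C (4 * W : ℤ) * (C (W : ℤ) * Y)) =
        1 + 4 * (W : L) * (W * aeval θ Y) := by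
      rw [map_add, map_one, map_mul (aeval θ), map_mul (aeval θ), aeval_C, aeval_C]
      simp
    have e3 : (W : L) * algebraMap (𝓞 L) L Z = aeval θ Y := hY
    rw [← map_pow, ← map_mul, ← map_mul, e1, e2, ← e3]
    ring
  have hxL : algebraMap (𝓞 L) L x ≠ 0 := by
    rw [Ne, FaithfulSMul.algebraMap_eq_zero_iff]; exact hx0
  have hx₀L : algebraMap (𝓞 L) L x₀ ≠ 0 := by
    rw [Ne, FaithfulSMul.algebraMap_eq_zero_iff]; exact hx₀0
  have hx'L : algebraMap (𝓞 L) L x' ≠ 0 := by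
    rw [Ne, FaithfulSMul.algebraMap_eq_zero_iff]; exact hx'0
  have hcc : ∀ q : HeightOneSpectrum (𝓞 L),
      (Ev q (aeval θ (1 + C (4 * W : ℤ) * (C (W : ℤ) * Y))) ↔
        Even (cc q (I2 𝔭 v) + cc q (I2 𝔭 v₀) + 2 * cc q J)) := by
    intro q
    rw [hA, ev_mul_sq q _ _ hx'L, ← map_mul, ev_iff q (mul_ne_zero hx0 hx₀0),
      ← Ideal.span_singleton_mul_span_singleton, hx, hx₀,
      cc_mul q (mul_ne_zero (I2_ne 𝔭 v) hJ) (mul_ne_zero (I2_ne 𝔭 v₀) hJ),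
      cc_mul q (I2_ne 𝔭 v) hJ, cc_mul q (I2_ne 𝔭 v₀) hJ]
    have : cc q (I2 𝔭 v) + cc q J + (cc q (I2 𝔭 v₀) + cc q J) =
      cc q (I2 𝔭 v) + cc q (I2 𝔭 v₀) + 2 * cc q J := by ring
    rw [this]
  refine ⟨1 + C (4 * W : ℤ) * (C (W : ℤ) * Y), ?_, ⟨_, rfl⟩, ?_, ?_, ?_, ?_⟩
  · rw [hA]
    exact mul_ne_zero (mul_ne_zero hxL hx₀L) (pow_ne_zero 2 hx'L)
  · rw [hA, map_mul, map_pow, map_mul]
    refine IsSquare.mul ?_ (IsSquare.sq _)
    have e1 : ∀ y : 𝓞 L, Algebra.norm ℚ (algebraMap (𝓞 L) L y) = ((Algebra.norm ℤ y : ℤ) : ℚ) :=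
      fun y => (Algebra.coe_norm_int y).symm
    rw [e1, e1]
    have h1 : 0 < Algebra.norm ℤ x * Algebra.norm ℤ x₀ := by
      have n1 : Algebra.norm ℤ x ≠ 0 := Algebra.norm_ne_zero_iff.2 hx0
      have n2 : Algebra.norm ℤ x₀ ≠ 0 := Algebra.norm_ne_zero_iff.2 hx₀0
      rcases lt_or_gt_of_ne n1 with h | h
      · have h3 : Algebra.norm ℤ x₀ < 0 := by
          rcases lt_or_gt_of_ne n2 with h4 | h4
          · exact h4
          · exact absurd (hns.2 h4) (not_lt.2 h.le)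
        exact mul_pos_of_neg_of_neg h h3
      · exact mul_pos h (hns.1 h)
    have h2 : Algebra.norm ℤ x * Algebra.norm ℤ x₀ =
        ((Ideal.absNorm (I2 𝔭 v) * Ideal.absNorm (I2 𝔭 v₀) * Ideal.absNorm J ^ 2 : ℕ) : ℤ) := by
      rw [← abs_of_pos h1, Int.abs_eq_natAbs, Int.natAbs_mul, ← Ideal.absNorm_span_singleton,
        ← Ideal.absNorm_span_singleton, hx, hx₀, map_mul, map_mul]
      congr 1
      ring
    obtain ⟨r, hr⟩ := (((I2_norm 𝔭 ch nn hch habs v hv).mul (I2_norm 𝔭 ch nn hch habs v₀ hv₀)).mul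
      (IsSquare.sq (Ideal.absNorm J)))
    refine ⟨(r : ℚ), ?_⟩
    rw [← Int.cast_mul, h2, hr]
    push_cast
    ring
  · intro z hz
    obtain ⟨σ, hσ, hs⟩ := hsg z hz
    rw [← hσ, hA, map_mul, map_mul, map_pow]
    refine mul_pos ?_ (by
      have := (map_ne_zero σ).2 hx'L
      positivity)
    have n1 : σ (algebraMap (𝓞 L) L x) ≠ 0 := (map_ne_zero σ).2 hxL
    have n2 : σ (algebraMap (𝓞 L) L x₀) ≠ 0 := (map_ne_zero σ).2 hx₀L
    rcases lt_or_gt_of_ne n1 with h | h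
    · have h3 : σ (algebraMap (𝓞 L) L x₀) < 0 := by
        rcases lt_or_gt_of_ne n2 with h4 | h4
        · exact h4
        · exact absurd (hs.2 h4) (not_lt.2 h.le)
      exact mul_pos_of_neg_of_neg h h3
    · exact mul_pos h (hs.1 h)
  · intro q hq
    have hne : ∀ i, q ≠ 𝔭 i := by
      rintro i rfl
      exact hq _ (hch i) (hchm i)
    rw [hcc, I2_cc_zero 𝔭 q hne, I2_cc_zero 𝔭 q hne, zero_add, zero_add]
    exact even_two_mul _
  · intro j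
    rw [hcc, I2_cc_self 𝔭 hinj, I2_cc_self 𝔭 hinj]
    exact zmod_even _ _ _

/-- the parity of the valuation -/
noncomputable def par (q : HeightOneSpectrum (𝓞 L)) (a : L) : ZMod 2 :=
  ((WithZero.log (q.valuation L a) : ℤ) : ZMod 2)

lemma par_mul (q : HeightOneSpectrum (𝓞 L)) {a b : L} (ha : a ≠ 0) (hb : b ≠ 0) :
    par q (a * b) = par q a + par q b := by
  unfold par
  rw [map_mul, WithZero.log_mul ((Valuation.ne_zero_iff _).2 ha) ((Valuation.ne_zero_iff _).2 hb)]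
  push_cast
  rfl

lemma par_one (q : HeightOneSpectrum (𝓞 L)) : par q (1 : L) = 0 := by
  unfold par
  rw [map_one, WithZero.log_one, Int.cast_zero]

lemma par_prod (q : HeightOneSpectrum (𝓞 L)) {κ : Type} (s : Finset κ) (g : κ → L)
    (hg : ∀ k ∈ s, g k ≠ 0) : par q (∏ k ∈ s, g k) = ∑ k ∈ s, par q (g k) := by
  induction s using Finset.induction_on with
  | empty => rw [Finset.prod_empty, Finset.sum_empty, par_one]
  | insert a s ha ih =>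
    rw [Finset.prod_insert ha, Finset.sum_insert ha, par_mul q (hg a (Finset.mem_insert_self a s))
      (Finset.prod_ne_zero_iff.2 fun i hi => hg i (Finset.mem_insert_of_mem hi)),
      ih fun i hi => hg i (Finset.mem_insert_of_mem hi)]

lemma ev_par (q : HeightOneSpectrum (𝓞 L)) {a : L} (ha : a ≠ 0) : Ev q a ↔ par q a = 0 := by
  have hva : q.valuation L a ≠ 0 := (Valuation.ne_zero_iff _).2 ha
  unfold par
  rw [ZMod.intCast_zmod_eq_zero_iff_dvd]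
  constructor
  · rintro ⟨y, hy⟩
    refine ⟨WithZero.log (q.valuation L y), ?_⟩
    rw [hy, WithZero.log_pow, nsmul_eq_mul]
    try (push_cast; rfl)
  · rintro ⟨m, hm⟩
    push_cast at hm
    obtain ⟨π, hπ⟩ := q.intValuation_exists_uniformizer
    refine ⟨(algebraMap (𝓞 L) L π) ^ (-m), ?_⟩
    rw [← WithZero.exp_log hva, hm, map_zpow₀, q.valuation_of_algebraMap, hπ, ← zpow_natCast,
      ← WithZero.exp_zsmul, ← WithZero.exp_zsmul, WithZero.exp_inj]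
    simp only [zsmul_eq_mul, smul_eq_mul]
    push_cast
    try ring

lemma zmod2_eq {a b : ZMod 2} (h : a = 0 ↔ b = 0) : a = b := by
  revert h
  revert a b
  decide

end Pool.Agent.H30Q.PGCP

namespace Pool.Agent.H30Q

open PGAP PGCP Pool.Agent.N874.PP in
theorem t_PGC : S_PGC := by
  intro hLINU hKD n W f L _ _ θ hn hR hG
  have hW : W ≠ 0 := hG.ne
  have hI : Ideal.span {((4 * W ^ 3 : ℕ) : 𝓞 L)} ≠ ⊥ := by
    rw [Ne, Ideal.span_singleton_eq_bot]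
    have : (4 * W ^ 3 : ℕ) ≠ 0 := by positivity
    exact_mod_cast this
  haveI : Finite (𝓞 L ⧸ Ideal.span {((4 * W ^ 3 : ℕ) : 𝓞 L)}) :=
    Ideal.finiteQuotientOfFreeOfNeBot _ hI
  letI : Fintype (𝓞 L ⧸ Ideal.span {((4 * W ^ 3 : ℕ) : 𝓞 L)}) := Fintype.ofFinite _
  refine ⟨Fintype.card (ClassGroup (𝓞 L) × (𝓞 L ⧸ Ideal.span {((4 * W ^ 3 : ℕ) : 𝓞 L)}) ×
    ({z : ℝ // z ∈ (ov ℝ f).roots.toFinset} → Bool) × Bool),
    Fintype.card_pos_iff.2 ⟨(1, 0, fun _ => true, true)⟩, fun P hP => ?_⟩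
  -- the finite set of all the primes above `P`
  have hfin : ∀ p : P, {𝔓 : HeightOneSpectrum (𝓞 L) | ((p : ℕ) : 𝓞 L) ∈ 𝔓.asIdeal}.Finite :=
    fun p => (hKD n W f L θ hR hG p (hP p p.2).1 (hP p p.2).2).1
  have hcard : ∀ p : P, {𝔓 : HeightOneSpectrum (𝓞 L) | ((p : ℕ) : 𝓞 L) ∈ 𝔓.asIdeal}.ncard =
      fac f p := fun p => (hKD n W f L θ hR hG p (hP p p.2).1 (hP p p.2).2).2
  obtain ⟨Q, hQ⟩ : ∃ Q : Finset (HeightOneSpectrum (𝓞 L)),
      Q = P.attach.biUnion fun p => (hfin p).toFinset := ⟨_, rfl⟩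
  have hQmem : ∀ 𝔓, 𝔓 ∈ Q ↔ ∃ p ∈ P, ((p : ℕ) : 𝓞 L) ∈ 𝔓.asIdeal := by
    intro 𝔓
    rw [hQ, Finset.mem_biUnion]
    constructor
    · rintro ⟨p, -, hp⟩
      exact ⟨p, p.2, (hfin p).mem_toFinset.1 hp⟩
    · rintro ⟨p, hp, hp2⟩
      exact ⟨⟨p, hp⟩, Finset.mem_attach _ _, (hfin ⟨p, hp⟩).mem_toFinset.2 hp2⟩
  have hQcard : Q.card = ∑ p ∈ P, fac f p := by
    rw [hQ, Finset.card_biUnion]
    · rw [← Finset.sum_attach P]
      refine Finset.sum_congr rfl fun p _ => ?_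
      rw [← hcard p, Set.ncard_eq_toFinset_card _ (hfin p)]
    · intro p _ q _ hpq
      change Disjoint (hfin p).toFinset (hfin q).toFinset
      rw [Finset.disjoint_left]
      intro 𝔓 h1 h2
      have h1' : ((p : ℕ) : 𝓞 L) ∈ 𝔓.asIdeal := (hfin p).mem_toFinset.1 h1
      have h2' : ((q : ℕ) : 𝓞 L) ∈ 𝔓.asIdeal := (hfin q).mem_toFinset.1 h2
      have hc : Nat.Coprime (p : ℕ) q :=
        (Nat.coprime_primes (hP p p.2).1 (hP q q.2).1).2 fun h => hpq (Subtype.ext h)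
      obtain ⟨a, b, hab⟩ := Nat.isCoprime_iff_coprime.2 hc
      have h3 : (a : 𝓞 L) * ((p : ℕ) : 𝓞 L) + b * ((q : ℕ) : 𝓞 L) = 1 := by
        have := congrArg (Int.cast : ℤ → 𝓞 L) hab
        push_cast at this ⊢
        exact this
      apply 𝔓.isPrime.ne_top
      rw [Ideal.eq_top_iff_one, ← h3]
      exact 𝔓.asIdeal.add_mem (𝔓.asIdeal.mul_mem_left _ h1') (𝔓.asIdeal.mul_mem_left _ h2')
  let ι : Type := {𝔓 // 𝔓 ∈ Q}
  let 𝔭 : ι → HeightOneSpectrum (𝓞 L) := Subtype.val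
  have hinj : Function.Injective 𝔭 := Subtype.val_injective
  have hch0 : ∀ i : ι, ∃ p ∈ P, ((p : ℕ) : 𝓞 L) ∈ (𝔭 i).asIdeal := fun i => (hQmem _).1 i.2
  choose ch hch hchm using hch0
  have hnn0 : ∀ i : ι, ∃ k, Ideal.absNorm (𝔭 i).asIdeal = ch i ^ k := by
    intro i
    have h1 : (𝔭 i).asIdeal ∣ Ideal.span {((ch i : ℕ) : 𝓞 L)} := by
      rw [Ideal.dvd_iff_le, Ideal.span_singleton_le_iff_mem]
      exact hchm i
    have h2 := map_dvd Ideal.absNorm h1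
    rw [Ideal.absNorm_span_singleton] at h2
    have h3 : (Algebra.norm ℤ ((ch i : ℕ) : 𝓞 L)).natAbs = ch i ^ Module.finrank ℤ (𝓞 L) := by
      have h4 := Algebra.norm_algebraMap_of_basis (Module.Free.chooseBasis ℤ (𝓞 L)) (ch i : ℤ)
      rw [← Module.finrank_eq_card_chooseBasisIndex] at h4
      have h5 : algebraMap ℤ (𝓞 L) (ch i : ℤ) = ((ch i : ℕ) : 𝓞 L) := by simp
      rw [← h5, h4, Int.natAbs_pow, Int.natAbs_natCast]
    rw [h3, Nat.dvd_prime_pow (hP _ (hch i)).1] at h2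
    obtain ⟨k, -, hk⟩ := h2
    exact ⟨k, hk⟩
  choose nn habs using hnn0
  have hmem : ∀ i : ι, ((∏ p ∈ P, p : ℕ) : 𝓞 L) ∈ (𝔭 i).asIdeal := by
    intro i
    obtain ⟨m, hm⟩ := Finset.dvd_prod_of_mem (fun p : ℕ => p) (hch i)
    rw [hm]
    push_cast
    exact Ideal.mul_mem_right _ _ (hchm i)
  -- the space of the vectors for which the norm is a square
  let lin : (ι → ZMod 2) →ₗ[ZMod 2] (P → ZMod 2) :=
    { toFun := fun v p => ∑ i ∈ Finset.univ.filter (fun i => ch i = p), (nn i : ZMod 2) * v i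
      map_add' := fun v w => by
        funext p
        simp only [Pi.add_apply, mul_add, Finset.sum_add_distrib]
      map_smul' := fun a v => by
        funext p
        simp only [Pi.smul_apply, smul_eq_mul, RingHom.id_apply, Finset.mul_sum]
        exact Finset.sum_congr rfl fun i _ => by ring }
  have hker : ∀ v ∈ LinearMap.ker lin, ∀ p ∈ P,
      ∑ i ∈ Finset.univ.filter (fun i => ch i = p), (nn i : ZMod 2) * v i = 0 := by
    intro v hv p hp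
    exact congrFun (LinearMap.mem_ker.1 hv) ⟨p, hp⟩
  have hcU : 2 ^ Q.card ≤ Fintype.card (LinearMap.ker lin) * 2 ^ P.card := by
    have h1 := Submodule.card_eq_card_quotient_mul_card (LinearMap.ker lin)
    have h2 : Nat.card ((ι → ZMod 2) ⧸ LinearMap.ker lin) ≤ 2 ^ P.card := by
      rw [Nat.card_congr lin.quotKerEquivRange.toEquiv]
      calc Nat.card (LinearMap.range lin) ≤ Nat.card (P → ZMod 2) :=
            Nat.card_le_card_of_injective _ (Submodule.injective_subtype _)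
        _ = 2 ^ P.card := by
            rw [Nat.card_eq_fintype_card, Fintype.card_fun, ZMod.card, Fintype.card_coe]
    have h3 : Nat.card (ι → ZMod 2) = 2 ^ Q.card := by
      rw [Nat.card_eq_fintype_card, Fintype.card_fun, ZMod.card]
      congr 1
      exact Fintype.card_coe Q
    rw [← h3, h1, ← Nat.card_eq_fintype_card]
    first
      | exact Nat.mul_le_mul_left _ h2
      | (rw [mul_comm]; exact Nat.mul_le_mul_left _ h2)
  -- the classes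
  let I0 : (ι → ZMod 2) → (Ideal (𝓞 L))⁰ := fun v =>
    ⟨I2 𝔭 v, mem_nonZeroDivisors_of_ne_zero (I2_ne 𝔭 v)⟩
  let cl : (ι → ZMod 2) → ClassGroup (𝓞 L) := fun v => ClassGroup.mk0 (I0 v)
  let r : ClassGroup (𝓞 L) → (ι → ZMod 2) := fun γ =>
    if h : ∃ v, cl v = γ then h.choose else 0
  have hr : ∀ v, cl (r (cl v)) = cl v := by
    intro v
    have h : ∃ w, cl w = cl v := ⟨v, rfl⟩
    have h1 : r (cl v) = h.choose := dif_pos h
    rw [h1]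
    exact h.choose_spec
  have hpos : 0 < Fintype.card (ClassGroup (𝓞 L)) := Fintype.card_pos
  have hpr : ∀ v, ∃ x : 𝓞 L, Ideal.span {x} =
      I2 𝔭 v * I2 𝔭 (r (cl v)) ^ (Fintype.card (ClassGroup (𝓞 L)) - 1) := by
    intro v
    have h1 : ClassGroup.mk0 (I0 v * I0 (r (cl v)) ^
        (Fintype.card (ClassGroup (𝓞 L)) - 1)) = 1 := by
      rw [map_mul, map_pow]
      change cl v * cl (r (cl v)) ^ _ = 1
      rw [hr, ← pow_succ', Nat.sub_add_cancel hpos, pow_card_eq_one]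
    have h2 := (ClassGroup.mk0_eq_one_iff (I0 v * I0 (r (cl v)) ^
        (Fintype.card (ClassGroup (𝓞 L)) - 1)).2).1 h1
    obtain ⟨x, hx⟩ := h2
    exact ⟨x, hx.symm⟩
  choose x hx using hpr
  have hmemr : ∀ z : ℝ, z ∈ (ov ℝ f).roots.toFinset ↔ (ov ℝ f).eval z = 0 := by
    intro z
    rw [Multiset.mem_toFinset, mem_roots (hR.mon.map _).ne_zero]
    rfl
  have hemb : ∀ z : {z : ℝ // z ∈ (ov ℝ f).roots.toFinset}, ∃ σ : L →+* ℝ,
      ∀ g : ℤ[X], σ (aeval θ g) = (ov ℝ g).eval (z : ℝ) :=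
    fun z => exists_emb hR z ((hmemr z).1 z.2)
  choose σ hσ using hemb
  let Φ : LinearMap.ker lin → ClassGroup (𝓞 L) × (𝓞 L ⧸ Ideal.span {((4 * W ^ 3 : ℕ) : 𝓞 L)}) ×
      ({z : ℝ // z ∈ (ov ℝ f).roots.toFinset} → Bool) × Bool := fun v =>
    (cl v, Ideal.Quotient.mk _ (x v),
      fun z => decide (0 < σ z (algebraMap (𝓞 L) L (x v))), decide (0 < Algebra.norm ℤ (x v)))
  obtain ⟨s, v₀, v, hΦ, hcs, hind⟩ := hLINU (LinearMap.ker lin) _ Φ
  have hcore : ∀ k : Fin s, ∃ A : ℤ[X], aeval θ A ≠ 0 ∧ (∃ Y : ℤ[X], A = 1 + C (4 * W : ℤ) * Y) ∧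
      IsSquare (Algebra.norm ℚ (aeval θ A)) ∧
      (∀ z : ℝ, (ov ℝ f).eval z = 0 → 0 < (ov ℝ A).eval z) ∧
      (∀ 𝔓 : HeightOneSpectrum (𝓞 L), (∀ p ∈ P, (p : 𝓞 L) ∉ 𝔓.asIdeal) → Ev 𝔓 (aeval θ A)) ∧
      ∀ j, (Ev (𝔭 j) (aeval θ A) ↔ (v k : ι → ZMod 2) j + (v₀ : ι → ZMod 2) j = 0) := by
    intro k
    have h := hΦ k
    simp only [Φ, Prod.mk.injEq] at h
    obtain ⟨h1, h2, h3, h4⟩ := h
    refine core hR hG 𝔭 (fun p => hP p p.2) hinj ch nn hch habs hmem hchm (v k) v₀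
      (hker _ (v k).2) (hker _ v₀.2) (x (v k)) (x v₀)
      (I2 𝔭 (r (cl (v k))) ^ (Fintype.card (ClassGroup (𝓞 L)) - 1)) (pow_ne_zero _ (I2_ne 𝔭 _))
      (Fintype.card ι * (Fintype.card (ClassGroup (𝓞 L)) - 1))
      (by rw [pow_mul]; exact pow_dvd_pow_of_dvd (I2_dvd 𝔭 hmem _) _) (hx (v k))
      (by rw [h1]; exact hx v₀) (Ideal.Quotient.eq.1 h2) ?_ (decide_eq_decide.1 h4)
    intro z hz
    exact ⟨σ ⟨z, (hmemr z).2 hz⟩, hσ _, decide_eq_decide.1 (congrFun h3 ⟨z, (hmemr z).2 hz⟩)⟩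
  choose A hA1 hA2 hA3 hA4 hA5 hA6 using hcore
  refine ⟨s, A, ⟨hA1, hA2, hA3, hA4, hA5, ?_⟩, ?_⟩
  · intro I hI
    have h1 := hind I hI
    have h2 : ((∑ k ∈ I, (v k + v₀) : LinearMap.ker lin) : ι → ZMod 2) ≠ 0 := fun h =>
      h1 (Subtype.ext h)
    obtain ⟨j, hj⟩ := Function.ne_iff.1 h2
    refine ⟨𝔭 j, ⟨ch j, hch j, hchm j⟩, ?_⟩
    rw [ev_par (𝔭 j) (Finset.prod_ne_zero_iff.2 fun k _ => hA1 k),
      par_prod (𝔭 j) I _ fun k _ => hA1 k]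
    have h3 : ∀ k, par (𝔭 j) (aeval θ (A k)) = (v k : ι → ZMod 2) j + (v₀ : ι → ZMod 2) j :=
      fun k => zmod2_eq ((ev_par (𝔭 j) (hA1 k)).symm.trans (hA6 k j))
    rw [Finset.sum_congr rfl fun k _ => h3 k]
    intro h4
    apply hj
    rw [Submodule.coe_sum, Finset.sum_apply]
    exact h4
  · rw [← hQcard]
    calc 2 ^ Q.card ≤ Fintype.card (LinearMap.ker lin) * 2 ^ P.card := hcU
      _ ≤ (_ * 2 ^ s) * 2 ^ P.card := Nat.mul_le_mul_right _ hcs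
      _ = _ := by rw [pow_add, mul_assoc]

end Pool.Agent.H30Q
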