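import Pool.Agent.H30Q.Stm2
import Pool.Agent.H30Q.GPT
import Pool.Agent.H30Q.QPT

/-!
# Piece QPG of project HQ, second part: the symbol at `q`
-/

set_option autoImplicit false
set_option linter.all false

open Polynomial
open scoped Classical

namespace Pool.Agent.H30Q

open Pool.Agent.N202.M4 (hil IsSymbol)

namespace QPGP

open PIP AsmP

section

variable {q : ℕ} [hq : Fact q.Prime]

theorem coe_ne_zero {u : ℤ_[q]} (hu : IsUnit u) : (u : ℚ_[q]) ≠ 0 := by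
  intro h0
  have : u = 0 := Subtype.coe_injective h0
  rw [this] at hu
  exact not_isUnit_zero hu

theorem nm_mulR {E : Type} [CommRing E] (F a b : E[X]) : nm F (a * b) = nm F a * nm F b := by
  show Algebra.norm E (AdjoinRoot.mk F (a * b)) = _
  rw [map_mul, map_mul]

/-- a product of two units which is a square -/
theorem sq_iff {K : Type} [Field K] {a b c : K} (ha : a ≠ 0) (hb : b ≠ 0) (h : a * b = c * c) :
    IsSquare b ↔ IsSquare a := by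
  constructor
  · rintro ⟨r, rfl⟩
    have hr : r ≠ 0 := by
      rintro rfl
      simp at hb
    refine ⟨c / r, ?_⟩
    field_simp
    linear_combination h
  · rintro ⟨r, rfl⟩
    have hr : r ≠ 0 := by
      rintro rfl
      simp at ha
    refine ⟨c / r, ?_⟩
    field_simp
    linear_combination h

/-- the determinant of the form on `G` -/
noncomputable def dd (m : ℕ) (G : ℤ_[q][X]) (ρ : ℤ_[q]) (b : ℤ_[q][X]) : ℤ_[q] :=
  nm G ((X - C ρ) * b) * (Gn m G 1).det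

theorem dd_unit (h1 : S_GMA) (h2 : S_GMB) {m : ℕ} (hm : 1 ≤ m) {G : ℤ_[q][X]} (hG : G.Monic)
    (hGd : G.natDegree = m) {ρ : ℤ_[q]} (hu : IsUnit (G.eval ρ)) {b : ℤ_[q][X]}
    (hb : IsCoprime b G) : IsUnit (dd m G ρ b) := by
  obtain ⟨-, -, -, -, g5⟩ := h1 ℤ_[q] m G hm hG hGd
  obtain ⟨-, g7, -⟩ := h2 ℤ_[q] m G hm hG hGd
  have hdet1 : IsUnit (Gn m G 1).det := by
    have : IsUnit ((Gn m G 1).det ^ 2) := by rw [g5]; exact isUnit_one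
    exact (isUnit_pow_iff two_ne_zero).mp this
  exact ((g7 _).mpr ((cop_lin G ρ hu).mul_left hb)).mul hdet1

/-- the Hasse invariant of the form of `b` -/
theorem hs_form (h1 : S_GMA) (h2 : S_GMB) (hB : P_BLK) (hU : S_UNI) (hq2 : q ≠ 2) {n : ℕ}
    (hn : 2 ≤ n) {G : ℤ_[q][X]} (hG : G.Monic) (hGd : G.natDegree = n - 1) {ρ : ℤ_[q]}
    (hu : IsUnit (G.eval ρ)) {b : ℤ_[q][X]} (hb : IsCoprime b G)
    (hbF : IsCoprime (b.map (algebraMap ℤ_[q] ℚ_[q]))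
      ((X - C (ρ : ℚ_[q])) * G.map (algebraMap ℤ_[q] ℚ_[q]))) :
    Hs (Gn n ((X - C (ρ : ℚ_[q])) * G.map (algebraMap ℤ_[q] ℚ_[q]))
      (b.map (algebraMap ℤ_[q] ℚ_[q]))) =
      hil ℚ_[q] (((b.eval ρ * G.eval ρ : ℤ_[q])) : ℚ_[q]) ((dd (n - 1) G ρ b : ℤ_[q]) : ℚ_[q]) := by
  have hm : 1 ≤ n - 1 := by omega
  have hsym : IsSymbol (hil ℚ_[q]) := Pool.Agent.N446.M4.sym_ q
  obtain ⟨g1, -, -, -, g5⟩ := h1 ℤ_[q] (n - 1) G hm hG hGd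
  obtain ⟨g6, g7, g8⟩ := h2 ℤ_[q] (n - 1) G hm hG hGd
  have hlin : ((X - C ρ : ℤ_[q][X])).map (algebraMap ℤ_[q] ℚ_[q]) = X - C (ρ : ℚ_[q]) := by
    rw [Polynomial.map_sub, map_X, map_C]
    rfl
  have hev : ∀ P : ℤ_[q][X], (P.map (algebraMap ℤ_[q] ℚ_[q])).eval (ρ : ℚ_[q]) =
      ((P.eval ρ : ℤ_[q]) : ℚ_[q]) := by
    intro P
    rw [Polynomial.eval_map]
    exact Polynomial.eval₂_at_apply (algebraMap ℤ_[q] ℚ_[q]) ρ
  have hM : Gn (n - 1) (G.map (algebraMap ℤ_[q] ℚ_[q]))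
      ((X - C (ρ : ℚ_[q])) * b.map (algebraMap ℤ_[q] ℚ_[q])) =
      (Gn (n - 1) G ((X - C ρ) * b)).map (algebraMap ℤ_[q] ℚ_[q]) := by
    rw [(g8 ℚ_[q] (algebraMap ℤ_[q] ℚ_[q]) ((X - C ρ) * b)).1, Polynomial.map_mul, hlin]
  have hdet : (Gn (n - 1) G ((X - C ρ) * b)).det = dd (n - 1) G ρ b := g6 _
  have hunit := dd_unit h1 h2 hm hG hGd hu hb
  have hH : Hs (Gn (n - 1) (G.map (algebraMap ℤ_[q] ℚ_[q]))
      ((X - C (ρ : ℚ_[q])) * b.map (algebraMap ℤ_[q] ℚ_[q]))) = 1 := by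
    rw [hM]
    exact hU q hq2 _ _ (g1 _) (by rw [hdet]; exact hunit)
  have hdetQ : (Gn (n - 1) (G.map (algebraMap ℤ_[q] ℚ_[q]))
      ((X - C (ρ : ℚ_[q])) * b.map (algebraMap ℤ_[q] ℚ_[q]))).det =
      ((dd (n - 1) G ρ b : ℤ_[q]) : ℚ_[q]) := by
    rw [hM, ← hdet]
    exact ((algebraMap ℤ_[q] ℚ_[q]).map_det _).symm
  have hGe : (G.map (algebraMap ℤ_[q] ℚ_[q])).eval (ρ : ℚ_[q]) ≠ 0 := by
    rw [hev]
    exact coe_ne_zero hu
  rw [hB ℚ_[q] hsym n (G.map (algebraMap ℤ_[q] ℚ_[q])) (b.map (algebraMap ℤ_[q] ℚ_[q])) (ρ : ℚ_[q])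
    hn (hG.map _) (by rw [hG.natDegree_map, hGd]) hGe hbF, hH, one_mul, hdetQ, hev, hev]
  norm_cast

end

end QPGP

open PIP AsmP QPGP in
theorem t_QPG : S_QPG := by
  intro h1 h2 hB hL hU q hq hq2 n f D e A hn hev hf hd hsep hqD hqD2 hqe hc hs x y hy0 hxy hxe
  have hsym : IsSymbol (hil ℚ_[q]) := Pool.Agent.N446.M4.sym_ q
  obtain ⟨x', rfl, hx'e⟩ := near hxe
  have hx0 : PadicInt.toZMod ((fz q f).eval x') = 0 := by
    rw [ev_rd, hx'e, rd_int]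
    exact (ZMod.intCast_zmod_eq_zero_iff_dvd _ _).2 hqe
  obtain ⟨ρ, G, hfG, hG, hρ, hu⟩ := PIP.fac f hf hsep x' hx0
  have hux : IsUnit (G.eval x') := unit_near hρ hu
  have hfm : (fz q f).Monic := hf.map _
  have hfd : (fz q f).natDegree = n := by rw [hf.natDegree_map, hd]
  have hGd : G.natDegree = n - 1 := by
    have h3 := congrArg Polynomial.natDegree hfG
    rw [(monic_X_sub_C ρ).natDegree_mul hG, natDegree_X_sub_C, hfd] at h3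
    omega
  have hlin : ((X - C ρ : ℤ_[q][X])).map (algebraMap ℤ_[q] ℚ_[q]) = X - C (ρ : ℚ_[q]) := by
    rw [Polynomial.map_sub, map_X, map_C]
    rfl
  have hF : ov ℚ_[q] f = (X - C (ρ : ℚ_[q])) * G.map (algebraMap ℤ_[q] ℚ_[q]) := by
    rw [← fz_ov, hfG, Polynomial.map_mul, hlin]
  have hFx : (ov ℚ_[q] f).eval (x' : ℚ_[q]) = (((x' - ρ) * G.eval x' : ℤ_[q]) : ℚ_[q]) := by
    rw [ev_ov, hfG, eval_mul, eval_sub, eval_X, eval_C]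
  -- the valuation of `x' - ρ`
  obtain ⟨hz, hval⟩ := val_eq hqD hqD2 hy0 hxy
  have hδF : IsCoprime (C (x' : ℚ_[q]) - X) (ov ℚ_[q] f) := cop_lin' _ _ hz.isUnit
  have hxρ : x' - ρ ≠ 0 := by
    intro h0
    rw [hFx, h0, zero_mul] at hz
    exact hz rfl
  have hxρQ : ((x' - ρ : ℤ_[q]) : ℚ_[q]) ≠ 0 := by
    intro h0
    exact hxρ (Subtype.coe_injective h0)
  obtain ⟨k, v, hv, hkv⟩ : ∃ (k : ℤ) (v : ℤ_[q]), IsUnit v ∧
      ((x' - ρ : ℤ_[q]) : ℚ_[q]) = (q : ℚ_[q]) ^ (2 * k + 1) * v := by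
    have h2' : (((G.eval x' : ℤ_[q]) : ℚ_[q])).valuation = 0 := val_unit (PadicInt.isUnit_iff.mp hux)
    rw [hFx, PadicInt.coe_mul, Padic.valuation_mul hxρQ (coe_ne_zero hux), h2',
      PadicInt.valuation_coe] at hval
    refine ⟨(x' - ρ).valuation / 2, PadicInt.unitCoeff hxρ, Units.isUnit _, ?_⟩
    have hsp := PadicInt.unitCoeff_spec hxρ
    have h3 := congrArg (fun z : ℤ_[q] => (z : ℚ_[q])) hsp
    simp only [PadicInt.coe_mul, PadicInt.coe_pow, PadicInt.coe_natCast] at h3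
    rw [h3, mul_comm]
    congr 1
    rw [← zpow_natCast]
    congr 1
    omega
  -- the polynomials
  set a : ℤ_[q][X] := fz q A with ha
  set δ : ℤ_[q][X] := C x' - X with hδ
  have hδm : δ.map (algebraMap ℤ_[q] ℚ_[q]) = C (x' : ℚ_[q]) - X := by
    rw [hδ, Polynomial.map_sub, map_X, map_C]
    rfl
  have haf : IsCoprime a (fz q f) := by
    refine QPTP.cop_lift h2 (n := n) (by omega) hfm hfd ?_
    rw [ha, fz_rd, fz_rd]
    exact hc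
  have haG : IsCoprime a G := by
    rw [hfG] at haf
    exact haf.of_mul_right_right
  have haρ : IsUnit (a.eval ρ) := by
    rw [hfG] at haf
    obtain ⟨s, t, hst⟩ := haf.of_mul_right_left
    have h3 := congrArg (fun P => P.eval ρ) hst
    simp only [eval_add, eval_mul, eval_sub, eval_X, eval_C, sub_self, mul_zero, add_zero,
      eval_one] at h3
    exact IsUnit.of_mul_eq_one_right _ h3
  have hδG : IsCoprime δ G := cop_lin' G x' hux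
  have haF : IsCoprime (a.map (algebraMap ℤ_[q] ℚ_[q])) (ov ℚ_[q] f) := by
    rw [← fz_ov]
    exact haf.map (Polynomial.mapRingHom (algebraMap ℤ_[q] ℚ_[q]))
  have hδF' : IsCoprime (δ.map (algebraMap ℤ_[q] ℚ_[q])) (ov ℚ_[q] f) := by
    rw [hδm]; exact hδF
  have hδρ : δ.eval ρ = x' - ρ := by rw [hδ]; simp
  -- the four forms
  have key : ∀ b : ℤ_[q][X], IsCoprime b G → IsCoprime (b.map (algebraMap ℤ_[q] ℚ_[q])) (ov ℚ_[q] f) →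
      Hs (Gn n (ov ℚ_[q] f) (b.map (algebraMap ℤ_[q] ℚ_[q]))) =
      hil ℚ_[q] (((b.eval ρ * G.eval ρ : ℤ_[q])) : ℚ_[q]) ((dd (n - 1) G ρ b : ℤ_[q]) : ℚ_[q]) := by
    intro b hb hbF
    rw [hF] at hbF ⊢
    exact hs_form h1 h2 hB hU hq2 (by omega) hG hGd hu hb hbF
  have hdu : ∀ b : ℤ_[q][X], IsCoprime b G → IsUnit (dd (n - 1) G ρ b) := fun b hb =>
    dd_unit h1 h2 (by omega) hG hGd hu hb
  set N : ℤ_[q] := nm G a with hN
  have hNu : IsUnit N := by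
    obtain ⟨-, g7, -⟩ := h2 ℤ_[q] (n - 1) G (by omega) hG hGd
    exact (g7 a).mpr haG
  have hdm : dd (n - 1) G ρ (δ * a) = dd (n - 1) G ρ δ * N := by
    unfold dd
    rw [← mul_assoc (X - C ρ), nm_mulR]
    ring
  have e1 := key (δ * a) (hδG.mul_left haG) (by
    rw [Polynomial.map_mul]
    exact hδF'.mul_left haF)
  have e2 := key δ hδG hδF'
  have e3 := key a haG haF
  have e4 := key 1 isCoprime_one_left (by rw [Polynomial.map_one]; exact isCoprime_one_left)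
  rw [Polynomial.map_mul] at e1
  rw [Polynomial.map_one] at e4
  have hee : ee n (ov ℚ_[q] f) (C (x' : ℚ_[q]) - X) (ov ℚ_[q] A) =
      hil ℚ_[q] ((x' - ρ : ℤ_[q]) : ℚ_[q]) (N : ℚ_[q]) := by
    have hA : ov ℚ_[q] A = a.map (algebraMap ℤ_[q] ℚ_[q]) := (fz_ov A).symm
    unfold ee
    rw [← hδm, hA, e1, e2, e3, e4, hdm, eval_mul, hδρ, eval_one, one_mul]
    have u3 : hil ℚ_[q] (((a.eval ρ * G.eval ρ : ℤ_[q])) : ℚ_[q])
        ((dd (n - 1) G ρ a : ℤ_[q]) : ℚ_[q]) = 1 :=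
      Pool.Agent.N507.PQ.hil_units hq2 (haρ.mul hu) (hdu a haG)
    have u4 : hil ℚ_[q] ((G.eval ρ : ℤ_[q]) : ℚ_[q]) ((dd (n - 1) G ρ 1 : ℤ_[q]) : ℚ_[q]) = 1 :=
      Pool.Agent.N507.PQ.hil_units hq2 hu (hdu 1 isCoprime_one_left)
    rw [u3, u4, mul_one, mul_one]
    have d0 := coe_ne_zero (hdu δ hδG)
    have N0 := coe_ne_zero hNu
    have g0 := coe_ne_zero hu
    have ag0 := coe_ne_zero (haρ.mul hu)
    have u5 : hil ℚ_[q] (((a.eval ρ * G.eval ρ : ℤ_[q])) : ℚ_[q])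
        ((dd (n - 1) G ρ δ * N : ℤ_[q]) : ℚ_[q]) = 1 :=
      Pool.Agent.N507.PQ.hil_units hq2 (haρ.mul hu) ((hdu δ hδG).mul hNu)
    have u6 : hil ℚ_[q] ((G.eval ρ : ℤ_[q]) : ℚ_[q]) ((dd (n - 1) G ρ δ : ℤ_[q]) : ℚ_[q]) = 1 :=
      Pool.Agent.N507.PQ.hil_units hq2 hu (hdu δ hδG)
    have f1 : hil ℚ_[q] (((x' - ρ) * a.eval ρ * G.eval ρ : ℤ_[q]) : ℚ_[q])
        ((dd (n - 1) G ρ δ * N : ℤ_[q]) : ℚ_[q]) =
        hil ℚ_[q] ((x' - ρ : ℤ_[q]) : ℚ_[q]) ((dd (n - 1) G ρ δ : ℤ_[q]) : ℚ_[q]) *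
        hil ℚ_[q] ((x' - ρ : ℤ_[q]) : ℚ_[q]) (N : ℚ_[q]) := by
      rw [mul_assoc, PadicInt.coe_mul (x' - ρ), hsym.symm, hsym.mul _ _ _ (by
        rw [PadicInt.coe_mul]; exact mul_ne_zero d0 N0) hxρQ ag0, hsym.symm _ ((x' - ρ : ℤ_[q]) : ℚ_[q]),
        hsym.symm _ ((a.eval ρ * G.eval ρ : ℤ_[q]) : ℚ_[q]), u5, mul_one, PadicInt.coe_mul,
        hsym.mul _ _ _ hxρQ d0 N0]
    have f2 : hil ℚ_[q] (((x' - ρ) * G.eval ρ : ℤ_[q]) : ℚ_[q])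
        ((dd (n - 1) G ρ δ : ℤ_[q]) : ℚ_[q]) =
        hil ℚ_[q] ((x' - ρ : ℤ_[q]) : ℚ_[q]) ((dd (n - 1) G ρ δ : ℤ_[q]) : ℚ_[q]) := by
      rw [PadicInt.coe_mul (x' - ρ), hsym.symm, hsym.mul _ _ _ d0 hxρQ g0,
        hsym.symm _ ((x' - ρ : ℤ_[q]) : ℚ_[q]), hsym.symm _ ((G.eval ρ : ℤ_[q]) : ℚ_[q]), u6, mul_one]
    rw [f1, f2]
    rcases hsym.pm ((x' - ρ : ℤ_[q]) : ℚ_[q]) ((dd (n - 1) G ρ δ : ℤ_[q]) : ℚ_[q]) with h3 | h3 <;>
      rw [h3] <;> ring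
  rw [hee, (hL q hq2 ((x' - ρ : ℤ_[q]) : ℚ_[q]) N hNu).1 ⟨k, v, hv, hkv⟩]
  unfold sgn
  -- the square
  obtain ⟨-, -, g3⟩ := h2 ℤ n f (by omega) hf hd
  have hsqZ : IsSquare (nm f A) := by
    rw [← Rat.isSquare_intCast_iff]
    have : ((nm f A : ℤ) : ℚ) = nm (ov ℚ f) (ov ℚ A) := ((g3 ℚ (Int.castRingHom ℚ) A).2).symm
    rw [this]
    exact hs
  obtain ⟨r, hr⟩ := hsqZ
  have hprod : ((nm f A : ℤ) : ℤ_[q]) = a.eval ρ * N := by
    apply Subtype.coe_injective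
    have h3 : nm (ov ℚ_[q] f) (ov ℚ_[q] A) = ((nm f A : ℤ) : ℚ_[q]) :=
      (g3 ℚ_[q] (Int.castRingHom ℚ_[q]) A).2
    have h4 : nm (ov ℚ_[q] f) (ov ℚ_[q] A) = ((a.eval ρ * N : ℤ_[q]) : ℚ_[q]) := by
      obtain ⟨-, -, g8⟩ := h2 ℤ_[q] (n - 1) G (by omega) hG hGd
      have h5 := (g8 ℚ_[q] (algebraMap ℤ_[q] ℚ_[q]) a).2
      rw [fz_ov] at h5
      rw [hF, QPTP.nm_prod _ (monic_X_sub_C _) (hG.map _), QPTP.nm_lin, h5, ev_ov, PadicInt.coe_mul]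
      rfl
    show (((nm f A : ℤ) : ℤ_[q]) : ℚ_[q]) = ((a.eval ρ * N : ℤ_[q]) : ℚ_[q])
    rw [← h4, h3, PadicInt.coe_intCast]
  have hred := congrArg (PadicInt.toZMod (p := q)) hprod
  rw [map_intCast, map_mul, ha, ev_rd, hρ, hx'e, rd_int, hr, Int.cast_mul] at hred
  have hN0 : PadicInt.toZMod N ≠ 0 := (zm_unit N).mp hNu
  have hA0 : ((A.eval e : ℤ) : ZMod q) ≠ 0 := by
    rw [← rd_int, ← hx'e, ← hρ, ← ev_rd]
    exact (zm_unit _).mp haρ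
  have hiff := sq_iff hA0 hN0 hred.symm
  by_cases h5 : IsSquare ((A.eval e : ℤ) : ZMod q)
  · rw [if_pos h5, if_pos (hiff.2 h5)]
  · rw [if_neg h5, if_neg (fun h => h5 (hiff.1 h))]

end Pool.Agent.H30Q
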