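import Pool.Agent.H30Q.Main2
import Pool.Agent.H30Q.HS
import Pool.Agent.H30Q.GMA
import Pool.Agent.H30Q.GMB
import Pool.Agent.H30Q.EE
import Pool.Agent.H30Q.UNI
import Pool.Agent.H30Q.PRF
import Pool.Agent.H30Q.HEN
import Pool.Agent.H30Q.REA
import Pool.Agent.H30Q.GPT
import Pool.Agent.H30Q.PI
import Pool.Agent.H30Q.EVN
import Pool.Agent.H30Q.BAD
import Pool.Agent.H30Q.WEI
import Pool.Agent.H30Q.SMP
import Pool.Agent.H30Q.BLK
import Pool.Agent.H30Q.LEG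
import Pool.Agent.H30Q.QPG
import Pool.Agent.H30Q.KD
import Pool.Agent.H30Q.LINU
import Pool.Agent.H30Q.PGC
import Pool.Agent.H30Q.CH2
import Pool.Agent.H30Q.MEA

/-! # The main theorem of the second part -/

namespace Pool.Agent.H30Q

theorem t_EEQ : P_EE := t_EE t_HS t_GMA t_GMB

theorem t_MAIN2 (hITR : S_ITR) : S_MAIN2 :=
  main2 t_EEQ t_GMB (t_PRF t_GMA t_GMB) t_HEN t_REA (t_GPT t_GMA t_GMB t_EEQ t_UNI t_HEN)
    (t_PI t_HEN) t_EVN t_BAD t_WEI t_SMP t_SQR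
    (t_QPG t_GMA t_GMB (t_BLK t_HS t_GMA t_GMB) t_LEG t_UNI) (t_PGC t_LINU t_KD) t_CH2 t_MEA hITR

end Pool.Agent.H30Q
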