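import Pool.Agent.H30Q.Stm2

/-!
Piece ITR (helper23): iterated upper means.
-/

set_option autoImplicit false
set_option linter.all false

open Filter Topology
open scoped Classical

namespace Pool.Agent.H30Q

namespace ITRp

theorem card_tendsto {S : Set ℕ} (hS : S.Infinite) :
    Tendsto (fun x => ((upTo S x).card : ℝ)) atTop atTop := by
  apply tendsto_natCast_atTop_atTop.comp
  apply tendsto_atTop.2
  intro K
  obtain ⟨T, hT, hTc⟩ := hS.exists_subset_card_eq K
  obtain ⟨B, hB⟩ := T.bddAbove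
  filter_upwards [eventually_ge_atTop B] with x hx
  rw [← hTc]
  apply Finset.card_le_card
  intro q hq
  unfold upTo
  rw [Finset.mem_filter, Finset.mem_range]
  exact ⟨Nat.lt_succ_of_le ((hB hq).trans hx), hT hq⟩

theorem avg_mem {S : Set ℕ} {h : ℕ → ℝ} (hh : ∀ q, 0 ≤ h q ∧ h q ≤ 1) (x : ℕ) :
    0 ≤ avg S h x ∧ avg S h x ≤ 1 := by
  unfold avg
  refine ⟨div_nonneg (Finset.sum_nonneg fun q _ => (hh q).1) (Nat.cast_nonneg _), ?_⟩
  apply div_le_one_of_le₀ _ (Nat.cast_nonneg _)
  calc ∑ q ∈ upTo S x, h q ≤ ∑ q ∈ upTo S x, (1 : ℝ) := Finset.sum_le_sum fun q _ => (hh q).2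
    _ = (upTo S x).card := by simp

theorem bdd_above {S : Set ℕ} {h : ℕ → ℝ} (hh : ∀ q, 0 ≤ h q ∧ h q ≤ 1) :
    IsBoundedUnder (· ≤ ·) atTop (avg S h) :=
  isBoundedUnder_of ⟨1, fun x => (avg_mem hh x).2⟩

theorem cobdd {S : Set ℕ} {h : ℕ → ℝ} (hh : ∀ q, 0 ≤ h q ∧ h q ≤ 1) :
    IsCoboundedUnder (· ≤ ·) atTop (avg S h) := by
  have : IsBoundedUnder (· ≥ ·) atTop (avg S h) :=
    isBoundedUnder_of ⟨0, fun x => (avg_mem hh x).1⟩
  exact this.isCoboundedUnder_le

theorem limsup_mem {S : Set ℕ} {h : ℕ → ℝ} (hh : ∀ q, 0 ≤ h q ∧ h q ≤ 1) :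
    0 ≤ limsup (fun x => avg S h x) atTop ∧ limsup (fun x => avg S h x) atTop ≤ 1 := by
  constructor
  · exact le_limsup_of_frequently_le (Eventually.frequently
      (Eventually.of_forall fun x => (avg_mem hh x).1)) (bdd_above hh)
  · exact limsup_le_of_le (cobdd hh) (Eventually.of_forall fun x => (avg_mem hh x).2)

theorem It_mem {S : Set ℕ} {g : Finset ℕ → ℝ} (hg : ∀ F, 0 ≤ g F ∧ g F ≤ 1) :
    ∀ (k : ℕ) (F : Finset ℕ), 0 ≤ It S g k F ∧ It S g k F ≤ 1 := by
  intro k
  induction k with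
  | zero => intro F; exact hg F
  | succ k ih =>
    intro F
    exact limsup_mem (h := fun q => It S g k (insert q F)) (fun q => ih _)

theorem main_le {S : Set ℕ} (hS : S.Infinite) {h : ℕ → ℝ} (hh : ∀ q, 0 ≤ h q ∧ h q ≤ 1)
    (F : Finset ℕ) (L : ℝ)
    (hL : ∀ η : ℝ, 0 < η → ∀ᶠ x : ℕ in atTop,
      (∑ q ∈ (upTo S x).filter (fun q => q ∉ F), h q) ≤ (L + η) * (upTo S x).card) :
    limsup (fun x => avg S h x) atTop ≤ L := by
  apply le_of_forall_pos_le_add
  intro η hη
  apply limsup_le_of_le (cobdd hh)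
  have h1 := hL (η / 2) (half_pos hη)
  have h2 : ∀ᶠ x : ℕ in atTop, (F.card : ℝ) / (η / 2) ≤ ((upTo S x).card : ℝ) :=
    (card_tendsto hS).eventually_ge_atTop _
  have h3 : ∀ᶠ x : ℕ in atTop, (1 : ℝ) ≤ ((upTo S x).card : ℝ) :=
    (card_tendsto hS).eventually_ge_atTop _
  filter_upwards [h1, h2, h3] with x k1 k2 k3
  unfold avg
  rw [div_le_iff₀ (by linarith)]
  rw [div_le_iff₀ (half_pos hη)] at k2
  have k4 : ∑ q ∈ upTo S x, h q = (∑ q ∈ (upTo S x).filter (fun q => q ∉ F), h q) +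
      ∑ q ∈ (upTo S x).filter (fun q => ¬ q ∉ F), h q :=
    (Finset.sum_filter_add_sum_filter_not _ _ _).symm
  have k5 : ∑ q ∈ (upTo S x).filter (fun q => ¬ q ∉ F), h q ≤ F.card := by
    calc ∑ q ∈ (upTo S x).filter (fun q => ¬ q ∉ F), h q
        ≤ ∑ q ∈ (upTo S x).filter (fun q => ¬ q ∉ F), (1 : ℝ) :=
          Finset.sum_le_sum fun q _ => (hh q).2
      _ = (((upTo S x).filter (fun q => ¬ q ∉ F)).card : ℝ) := by simp
      _ ≤ F.card := by
        apply Nat.cast_le.2
        apply Finset.card_le_card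
        intro q hq
        rw [Finset.mem_filter] at hq
        exact not_not.1 hq.2
  rw [k4]
  nlinarith

end ITRp

open ITRp

theorem t_ITR : S_ITR := by
  intro S g w C κ hS hC hκ hg hw hwκ hF k
  induction k with
  | zero =>
    intro F hFS
    have h1 := main_le hS (h := fun q => g (insert q F)) (fun q => hg _) F
      (C * ∏ p ∈ F, w p) (hF F hFS)
    rw [pow_zero, mul_one]
    exact h1
  | succ k ih =>
    intro F hFS
    have hp : 0 ≤ ∏ p ∈ F, w p := Finset.prod_nonneg fun p hp => hw p (hFS p hp)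
    set A : ℝ := C * κ ^ k * ∏ p ∈ F, w p with hA
    have hA0 : 0 ≤ A := mul_nonneg (mul_nonneg hC (pow_nonneg hκ _)) hp
    have h2 : C * κ ^ (k + 1) * ∏ p ∈ F, w p = A * κ := by rw [hA]; ring
    rw [h2]
    apply main_le hS (h := fun q => It S g (k + 1) (insert q F)) (fun q => It_mem hg _ _) F (A * κ)
    intro η hη
    have h3 : ∀ᶠ x in atTop, avg S w x < κ + η / (A + 1) :=
      (tendsto_order.1 hwκ).2 _ (by have : 0 < η / (A + 1) := by positivity
                                    linarith)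
    have h4 : ∀ᶠ x : ℕ in atTop, (1 : ℝ) ≤ ((upTo S x).card : ℝ) :=
      (card_tendsto hS).eventually_ge_atTop _
    filter_upwards [h3, h4] with x k3 k4
    have k5 : ∑ q ∈ (upTo S x).filter (fun q => q ∉ F), It S g (k + 1) (insert q F) ≤
        ∑ q ∈ (upTo S x).filter (fun q => q ∉ F), A * w q := by
      apply Finset.sum_le_sum
      intro q hq
      rw [Finset.mem_filter] at hq
      have hqS : q ∈ S := (Finset.mem_filter.1 hq.1).2
      have := ih (insert q F) (by
        intro p hp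
        rcases Finset.mem_insert.1 hp with rfl | hp
        · exact hqS
        · exact hFS p hp)
      rw [Finset.prod_insert hq.2] at this
      calc It S g (k + 1) (insert q F) ≤ C * κ ^ k * (w q * ∏ p ∈ F, w p) := this
        _ = A * w q := by rw [hA]; ring
    have k6 : ∑ q ∈ (upTo S x).filter (fun q => q ∉ F), A * w q ≤ ∑ q ∈ upTo S x, A * w q := by
      apply Finset.sum_le_sum_of_subset_of_nonneg (Finset.filter_subset _ _)
      intro q hq _
      exact mul_nonneg hA0 (hw q (Finset.mem_filter.1 hq).2)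
    have k7 : ∑ q ∈ upTo S x, A * w q = A * avg S w x * (upTo S x).card := by
      unfold avg
      rw [← Finset.mul_sum]
      field_simp
    have k8 : A * avg S w x ≤ A * κ + η := by
      have e1 : A * avg S w x ≤ A * (κ + η / (A + 1)) := mul_le_mul_of_nonneg_left k3.le hA0
      have e2 : A * (η / (A + 1)) ≤ η := by
        rw [mul_div_assoc', div_le_iff₀ (by linarith)]
        nlinarith
      linarith
    calc ∑ q ∈ (upTo S x).filter (fun q => q ∉ F), It S g (k + 1) (insert q F)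
        ≤ A * avg S w x * (upTo S x).card := by rw [← k7]; exact k5.trans k6
      _ ≤ (A * κ + η) * (upTo S x).card := mul_le_mul_of_nonneg_right k8 (Nat.cast_nonneg _)

end Pool.Agent.H30Q
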