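import Pool.Agent.H30Q.AsmG

/-! # The number of the twists: the theorem from the pieces -/

set_option autoImplicit false
set_option linter.all false

open Polynomial IsDedekindDomain Matrix NumberField Filter Topology
open scoped Classical

namespace Pool.Agent.H30Q

open Pool.Agent.N783.PF (HV)
open Pool.Agent.N874.PP (Ev)
open Pool.Agent.N202.M4 (hil IsSymbol)

namespace AsmQ

open AsmP

lemma mem_upTo {S : Set ℕ} {x q : ℕ} : q ∈ upTo S x ↔ q ∈ Finset.range (x + 1) ∧ q ∈ S := by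
  unfold upTo
  rw [Finset.mem_filter]

/-- small weights -/
lemma exists_small {S : Set ℕ} {w : ℕ → ℝ} {κ : ℝ} (hκ1 : κ < 1)
    (hκ : Tendsto (avg S w) atTop (𝓝 κ))
    (htend : Tendsto (fun x : ℕ => ((upTo S x).card : ℝ)) atTop atTop) (hκ0 : 0 ≤ κ)
    (hw : ∀ q ∈ S, 0 ≤ w q) (N : ℕ) :
    ∃ q ∈ S, N < q ∧ w q < (1 + κ) / 2 := by
  by_contra hne
  push Not at hne
  have h1 : ∀ x : ℕ, (1 + κ) / 2 * ((upTo S x).card - (N + 1 : ℕ)) ≤ ∑ q ∈ upTo S x, w q := by
    intro x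
    have h2 : ∑ q ∈ (upTo S x).filter (fun q => N < q), ((1 + κ) / 2) ≤
        ∑ q ∈ (upTo S x).filter (fun q => N < q), w q := by
      refine Finset.sum_le_sum fun q hq => ?_
      obtain ⟨h3, h4⟩ := Finset.mem_filter.1 hq
      exact hne q (Finset.mem_filter.1 h3).2 h4
    have h3 : ∑ q ∈ (upTo S x).filter (fun q => N < q), w q ≤ ∑ q ∈ upTo S x, w q :=
      Finset.sum_le_sum_of_subset_of_nonneg (Finset.filter_subset _ _)
        fun q hq _ => hw q (Finset.mem_filter.1 hq).2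
    rw [Finset.sum_const, nsmul_eq_mul] at h2
    have h4 : ((upTo S x).card : ℝ) - (N + 1 : ℕ) ≤
        (((upTo S x).filter (fun q => N < q)).card : ℝ) := by
      have h5 : (upTo S x).card ≤ ((upTo S x).filter (fun q => N < q)).card + (N + 1) := by
        have h6 := Finset.card_filter_add_card_filter_not (s := upTo S x) (fun q => N < q)
        have h7 : ((upTo S x).filter (fun q => ¬ N < q)).card ≤ N + 1 := by
          refine (Finset.card_le_card (t := Finset.range (N + 1)) ?_).trans (by simp)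
          intro q hq
          have := (Finset.mem_filter.1 hq).2
          exact Finset.mem_range.2 (by omega)
        omega
      have : ((upTo S x).card : ℝ) ≤ (((upTo S x).filter (fun q => N < q)).card : ℝ) +
          (N + 1 : ℕ) := by exact_mod_cast h5
      linarith
    nlinarith
  have h2 : Tendsto (fun x : ℕ => (1 + κ) / 2 * (1 - ((N + 1 : ℕ) : ℝ) / ((upTo S x).card : ℝ)))
      atTop (𝓝 ((1 + κ) / 2 * (1 - 0))) := by
    refine Tendsto.const_mul _ (Tendsto.const_sub _ ?_)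
    exact Tendsto.div_atTop tendsto_const_nhds htend
  have h3 : (1 + κ) / 2 * (1 - 0) ≤ κ := by
    refine le_of_tendsto_of_tendsto h2 hκ ?_
    filter_upwards [htend.eventually_gt_atTop 0] with x hx
    unfold avg
    rw [le_div_iff₀ hx]
    have h4 := h1 x
    have h5 : (1 + κ) / 2 * (1 - ((N + 1 : ℕ) : ℝ) / ((upTo S x).card : ℝ)) *
        ((upTo S x).card : ℝ) = (1 + κ) / 2 * ((upTo S x).card - (N + 1 : ℕ)) := by
      field_simp
    rw [h5]
    exact h4
  linarith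

/-- a set with small weight -/
lemma exists_set {S : Set ℕ} {w : ℕ → ℝ} {κ : ℝ} (hκ1 : κ < 1)
    (hκ : Tendsto (avg S w) atTop (𝓝 κ))
    (htend : Tendsto (fun x : ℕ => ((upTo S x).card : ℝ)) atTop atTop) (hκ0 : 0 ≤ κ)
    (hw : ∀ q ∈ S, 0 ≤ w q) (k : ℕ) :
    ∃ F : Finset ℕ, (∀ p ∈ F, p ∈ S) ∧ ∏ p ∈ F, w p ≤ ((1 + κ) / 2) ^ k := by
  induction k with
  | zero => exact ⟨∅, fun p hp => absurd hp (Finset.notMem_empty _), by simp⟩
  | succ k ih =>
    obtain ⟨F, hF, hk⟩ := ih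
    obtain ⟨q, hq, hN, hwq⟩ := exists_small hκ1 hκ htend hκ0 hw (∑ p ∈ F, p)
    have hnot : q ∉ F := by
      intro hmem
      have h9 : q ≤ ∑ p ∈ F, p :=
        Finset.single_le_sum (f := fun q : ℕ => q) (fun _ _ => Nat.zero_le _) hmem
      omega
    refine ⟨insert q F, fun p hp => ?_, ?_⟩
    · rcases Finset.mem_insert.1 hp with rfl | hp
      · exact hq
      · exact hF p hp
    · rw [Finset.prod_insert hnot, pow_succ, mul_comm]
      exact mul_le_mul hk hwq.le (hw q hq) (by positivity)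

/-- comparison of the bounds -/
lemma final_count {δ : ℝ} (hδ : 0 < δ) {E₀ : ℕ} (hE₀ : 0 < E₀) {g : ℕ → ℕ} {G : ℕ → ℕ}
    (hg : ∀ᶠ X : ℕ in atTop, (X : ℝ) / Real.log X ^ (1 - δ) ≤ (g X : ℝ))
    (hG : ∀ X, g (X / E₀) ≤ G X) :
    ∃ δ' : ℝ, 0 < δ' ∧ ∀ᶠ X : ℕ in atTop, (X : ℝ) / Real.log X ^ (1 - δ') ≤ (G X : ℝ) := by
  set δ₁ : ℝ := min δ (1 / 2) with hδ₁
  have hδ₁0 : 0 < δ₁ := lt_min hδ (by norm_num)
  have hδ₁2 : δ₁ ≤ 1 / 2 := min_le_right _ _
  refine ⟨δ₁ / 2, by positivity, ?_⟩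
  have hdiv : Tendsto (fun X : ℕ => X / E₀) atTop atTop := Nat.tendsto_div_const_atTop hE₀.ne'
  have hlog : Tendsto (fun X : ℕ => Real.log X) atTop atTop :=
    Real.tendsto_log_atTop.comp tendsto_natCast_atTop_atTop
  have hpow : Tendsto (fun X : ℕ => Real.log X ^ (δ₁ / 2)) atTop atTop :=
    (tendsto_rpow_atTop (by positivity)).comp hlog
  filter_upwards [hdiv.eventually hg, hlog.eventually_ge_atTop 1,
    hpow.eventually_ge_atTop (2 * E₀ : ℝ), eventually_ge_atTop (8 * E₀),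
    hdiv.eventually (hlog.eventually_ge_atTop 1)] with X h1 h2 h3 h4 h5
  set Y : ℕ := X / E₀ with hY
  have hYX : Y ≤ X := Nat.div_le_self _ _
  have hE₀' : (0 : ℝ) < E₀ := by exact_mod_cast hE₀
  have hY2 : (X : ℝ) / (2 * E₀) ≤ Y := by
    have h6 : X < (Y + 1) * E₀ := by
      have := Nat.lt_mul_div_succ X hE₀
      rw [hY]
      nlinarith
    have h7 : (X : ℝ) < (Y + 1) * E₀ := by exact_mod_cast h6
    have h8 : (8 : ℝ) * E₀ ≤ X := by exact_mod_cast h4
    rw [div_le_iff₀ (by positivity)]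
    nlinarith
  have hX0 : (0 : ℝ) < X := by
    have h8 : (8 : ℝ) * E₀ ≤ X := by exact_mod_cast h4
    nlinarith
  have hlY : Real.log Y ≤ Real.log X := by
    refine Real.log_le_log ?_ (by exact_mod_cast hYX)
    have : (0 : ℝ) < X / (2 * E₀) := by positivity
    linarith
  have hlX0 : (0 : ℝ) < Real.log X := by linarith
  have hlY0 : (0 : ℝ) < Real.log Y := by linarith
  have h6 : (X : ℝ) / Real.log X ^ (1 - δ₁ / 2) ≤ (Y : ℝ) / Real.log Y ^ (1 - δ) := by
    have h7 : Real.log Y ^ (1 - δ) ≤ Real.log X ^ (1 - δ₁) := by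
      calc Real.log Y ^ (1 - δ) ≤ Real.log Y ^ (1 - δ₁) :=
            Real.rpow_le_rpow_of_exponent_le h5 (by linarith [min_le_left δ (1 / 2)])
        _ ≤ Real.log X ^ (1 - δ₁) := Real.rpow_le_rpow hlY0.le hlY (by linarith)
    have h8 : Real.log X ^ (1 - δ₁ / 2) = Real.log X ^ (1 - δ₁) * Real.log X ^ (δ₁ / 2) := by
      rw [← Real.rpow_add hlX0]
      congr 1
      ring
    have h9 : (0 : ℝ) < Real.log X ^ (1 - δ₁) := Real.rpow_pos_of_pos hlX0 _
    have h10 : (0 : ℝ) < Real.log Y ^ (1 - δ) := Real.rpow_pos_of_pos hlY0 _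
    rw [h8, div_le_div_iff₀ (by positivity) h10]
    calc (X : ℝ) * Real.log Y ^ (1 - δ) ≤ X * Real.log X ^ (1 - δ₁) :=
          mul_le_mul_of_nonneg_left h7 hX0.le
      _ = X / (2 * E₀) * (Real.log X ^ (1 - δ₁) * (2 * E₀)) := by field_simp
      _ ≤ Y * (Real.log X ^ (1 - δ₁) * Real.log X ^ (δ₁ / 2)) := by
          refine mul_le_mul hY2 (mul_le_mul_of_nonneg_left h3 h9.le) (by positivity) (by positivity)
  refine h6.trans (h1.trans ?_)
  exact_mod_cast hG X

end AsmQ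

open AsmP AsmQ

theorem main3 (hEE : P_EE) (hGMB : S_GMB) (hPRF : P_PRF) (hHEN : S_HEN) (hREA : S_REA)
    (hGPT : P_GPT) (hPI : P_PI) (hEVN : S_EVN) (hBAD : S_BAD) (hWEI : S_WEI) (hSMP : S_SMP)
    (hSQR : S_SQR) (hQPG : P_QPG) (hPGC : P_PGC) (hCH2 : P_CH2) (hMEA : S_MEA) (hCH3 : S_CH3)
    (hCNT : S_CNT) : S_MAIN3 := by
  intro n f h6 heven hmon hdeg hirr D₀ hD₀ hels T hT
  have hsep : (ov ℚ f).Separable := hirr.separable
  have hyp : Hy n f := ⟨h6, heven, hmon, hdeg, hsep⟩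
  obtain ⟨L, _, _, θ, hθ⟩ := exists_field' hyp hirr
  have hn : 1 ≤ n := by omega
  obtain ⟨W, hTW, hW⟩ := hBAD n (T * D₀.natAbs) f L θ hn hθ
    (mul_ne_zero hT (Int.natAbs_ne_zero.2 hD₀))
  have hTW' : T ∣ W := (dvd_mul_right _ _).trans hTW
  have hDW : D₀ ∣ (W : ℤ) := by
    rw [← Int.natAbs_dvd_natAbs, Int.natAbs_natCast]
    exact (dvd_mul_left _ _).trans hTW
  obtain ⟨hwt, ⟨κ, hκ0, hκ1, hκ⟩, c₀, hc₀, hcnt⟩ := hMEA n W f h6 hmon hdeg hsep hW.ne hW.sep
  obtain ⟨c, hc, hPG⟩ := hPGC n W f L θ hn hθ hW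
  have hSSW : ∀ q ∈ SS W f, ¬ q ∣ W := fun q hq => SS_W hW.ne hW.eight hq.1 hq.2.1
  have hE : ∀ F : Finset ℕ, (∀ p ∈ F, p ∈ SS W f) → ELS f (D₀ * ((∏ p ∈ F, p : ℕ) : ℤ)) := by
    intro F hF
    have hFpr : ∀ p ∈ F, p.Prime := fun p hp => (hF p hp).1
    have h2 : (∏ p ∈ F, p) ≠ 0 := Finset.prod_ne_zero_iff.2 fun p hp => (hFpr p hp).ne_zero
    refine ⟨fun p _ => ?_, els_real h2 hels.2⟩
    refine els hWEI hSMP hSQR hyp hW hD₀ hDW h2 (prod_mod _ fun q hq => (hF q hq).2.1) ?_ hels.1 p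
    intro p hp hd
    have hpF : p ∈ F := by
      by_contra hn
      exact coprime_of_primes hFpr hp hn hd
    refine ⟨hSSW p (hF p hpF), ?_⟩
    obtain ⟨e, he⟩ := (hF p hpF).2.2
    exact ⟨e, by rw [eval_rd, ZMod.intCast_zmod_eq_zero_iff_dvd]; exact he⟩
  have htend : Tendsto (fun x : ℕ => ((upTo (SS W f) x).card : ℝ)) atTop atTop := by
    have h1 : Tendsto (fun x : ℕ => c₀ * (Nat.primeCounting x : ℝ)) atTop atTop :=
      (tendsto_natCast_atTop_atTop.comp Nat.tendsto_primeCounting).const_mul_atTop hc₀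
    exact tendsto_atTop_mono' _ hcnt h1
  -- the set `F`
  obtain ⟨k, hk⟩ := exists_pow_lt_of_lt_one (show (0 : ℝ) < 1 / (4 * (n * c)) by positivity)
    (show (1 + κ) / 2 < 1 by linarith)
  obtain ⟨F, hF, hFk⟩ := exists_set hκ1 hκ htend hκ0 (fun q hq => (hwt q hq).1) k
  have hsmall : (n * c : ℝ) * ∏ p ∈ F, wt f p < 1 / 4 := by
    have h1 : ∏ p ∈ F, wt f p < 1 / (4 * (n * c)) := lt_of_le_of_lt hFk hk
    have h2 : (0 : ℝ) < n * c := by positivity
    calc (n * c : ℝ) * ∏ p ∈ F, wt f p < (n * c : ℝ) * (1 / (4 * (n * c))) :=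
          mul_lt_mul_of_pos_left h1 h2
      _ = 1 / 4 := by field_simp
  obtain ⟨r, A, hA, hr⟩ := hPG F fun p hp => ⟨(hF p hp).1, hSSW p (hF p hp)⟩
  obtain ⟨V, hV1, B, hB⟩ := bad_of_fake3 hEE hGMB hPRF hHEN hREA hGPT hPI hEVN hQPG hyp hθ hW hDW
    hF hA
  have hwtV : (n : ℝ) * V.card / 2 ^ r ≤ (n * c : ℝ) * ∏ p ∈ F, wt f p := by
    have h1 : (V.card : ℝ) ≤ ∏ p ∈ F, (2 * (zer f p : ℝ)) := by exact_mod_cast hV1
    have h2 : (∏ p ∈ F, (2 : ℝ) ^ fac f p) ≤ c * (2 ^ r * 2 ^ F.card) := by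
      rw [Finset.prod_pow_eq_pow_sum, ← pow_add]
      exact_mod_cast hr
    have h3 : ∏ p ∈ F, wt f p = (∏ p ∈ F, (2 * (zer f p : ℝ))) * 2 ^ F.card /
        ∏ p ∈ F, (2 : ℝ) ^ fac f p := by
      rw [← Finset.prod_const, ← Finset.prod_mul_distrib, ← Finset.prod_div_distrib]
      refine Finset.prod_congr rfl fun p _ => ?_
      unfold wt
      ring
    have h4 : 0 < ∏ p ∈ F, (2 : ℝ) ^ fac f p := Finset.prod_pos fun p _ => by positivity
    have h5 : 0 ≤ ∏ p ∈ F, (2 * (zer f p : ℝ)) := Finset.prod_nonneg fun p _ => by positivity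
    rw [h3, div_le_iff₀ (by positivity)]
    have h6 : (n : ℝ) * V.card ≤ n * ∏ p ∈ F, (2 * (zer f p : ℝ)) :=
      mul_le_mul_of_nonneg_left h1 (by positivity)
    refine h6.trans ?_
    rw [mul_div_assoc', div_mul_eq_mul_div, le_div_iff₀ h4]
    have h7 : (n : ℝ) * (∏ p ∈ F, (2 * (zer f p : ℝ))) * (∏ p ∈ F, (2 : ℝ) ^ fac f p) ≤
        n * (∏ p ∈ F, (2 * (zer f p : ℝ))) * (c * (2 ^ r * 2 ^ F.card)) :=
      mul_le_mul_of_nonneg_left h2 (by positivity)
    refine h7.trans (le_of_eq ?_)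
    ring
  -- the prime `q`
  obtain ⟨q, hqS, hqF, hqB, hq⟩ : ∃ q ∈ SS W f, q ∉ F ∧ B < q ∧
      ∀ e : ℤ, (q : ℤ) ∣ f.eval e → (fun i => sgn (A i) q e) ∉ V := by
    have hev := hCH2 n W f L θ hn hθ hW r A hA.ne (by
      intro I hI
      obtain ⟨𝔓, ⟨p, hp, hmem⟩, hne⟩ := hA.ind I hI
      refine ⟨𝔓, fun hWm => ?_, hne⟩
      have hco : IsCoprime (p : ℤ) (W : ℤ) := by
        rw [(Nat.prime_iff_prime_int.1 (hF p hp).1).coprime_iff_not_dvd]
        intro h2
        exact hSSW p (hF p hp) (by exact_mod_cast h2)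
      obtain ⟨a, b, hab⟩ := hco
      have h1 : (1 : 𝓞 L) ∈ 𝔓.asIdeal := by
        have h2 : (1 : 𝓞 L) = (a : 𝓞 L) * (p : 𝓞 L) + (b : 𝓞 L) * (W : 𝓞 L) := by
          have := congrArg (Int.cast : ℤ → 𝓞 L) hab
          push_cast at this
          exact this.symm
        rw [h2]
        exact Ideal.add_mem _ (Ideal.mul_mem_left _ _ hmem) (Ideal.mul_mem_left _ _ hWm)
      exact 𝔓.isPrime.ne_top ((Ideal.eq_top_iff_one _).2 h1)) V (1 / 4) (by norm_num)
    obtain ⟨x, hx1, hx2⟩ := (hev.and (htend.eventually_gt_atTop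
      (4 * ((B + 1 : ℕ) + F.card) : ℝ))).exists
    by_contra hcon
    push Not at hcon
    have hsub : upTo (SS W f) x ⊆ (Finset.range (B + 1) ∪ F) ∪
        (upTo (SS W f) x).filter fun q : ℕ => ∃ e : ℤ, (q : ℤ) ∣ f.eval e ∧
          (fun i => sgn (A i) q e) ∈ V := by
      intro q hq
      by_cases hqB : q ≤ B
      · exact Finset.mem_union_left _ (Finset.mem_union_left _ (Finset.mem_range.2 (by omega)))
      by_cases hqF : q ∈ F
      · exact Finset.mem_union_left _ (Finset.mem_union_right _ hqF)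
      exact Finset.mem_union_right _ (Finset.mem_filter.2 ⟨hq,
        hcon q (Finset.mem_filter.1 hq).2 hqF (by omega)⟩)
    have hcard : ((upTo (SS W f) x).card : ℝ) ≤ ((B + 1 : ℕ) + F.card) +
        (((upTo (SS W f) x).filter fun q : ℕ => ∃ e : ℤ, (q : ℤ) ∣ f.eval e ∧
          (fun i => sgn (A i) q e) ∈ V).card : ℝ) := by
      have h1 := (Finset.card_le_card hsub).trans (Finset.card_union_le _ _)
      have h2 := Finset.card_union_le (Finset.range (B + 1)) F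
      rw [Finset.card_range] at h2
      have h3 := h1.trans (Nat.add_le_add_right h2 _)
      exact_mod_cast h3
    have h9 : ((n : ℝ) * V.card / 2 ^ r + 1 / 4) * (upTo (SS W f) x).card ≤
        1 / 2 * (upTo (SS W f) x).card := by
      refine mul_le_mul_of_nonneg_right ?_ (Nat.cast_nonneg _)
      linarith
    linarith
  -- the set of primes
  obtain ⟨c₁, hc₁, hcnt₁⟩ := hCH3 n W f L θ hn hθ hW r A hA.ne
  set S₁ : Set ℕ := {m | m ∈ SS W f ∧ B < m ∧ m ∉ insert q F ∧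
        ∀ e : ℤ, (m : ℤ) ∣ f.eval e → ∀ i, sgn (A i) m e = 1} with hS₁
  have hS₁c : ∀ᶠ x : ℕ in atTop, c₁ / 2 * (Nat.primeCounting x : ℝ) ≤ ((upTo S₁ x).card : ℝ) := by
    have hpi : Tendsto (fun x : ℕ => c₁ / 2 * (Nat.primeCounting x : ℝ)) atTop atTop :=
      (tendsto_natCast_atTop_atTop.comp Nat.tendsto_primeCounting).const_mul_atTop (by positivity)
    filter_upwards [hcnt₁, hpi.eventually_ge_atTop (((B + 1 : ℕ) + (insert q F).card : ℕ) : ℝ)]
      with x hx1 hx2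
    have hsub : ((upTo (SS W f) x).filter fun q : ℕ => ∀ e : ℤ, (q : ℤ) ∣ f.eval e →
        ∀ i, sgn (A i) q e = 1) ⊆ (Finset.range (B + 1) ∪ insert q F) ∪ upTo S₁ x := by
      intro m hm
      obtain ⟨hm1, hm2⟩ := Finset.mem_filter.1 hm
      by_cases hmB : m ≤ B
      · exact Finset.mem_union_left _ (Finset.mem_union_left _ (Finset.mem_range.2 (by omega)))
      by_cases hmF : m ∈ insert q F
      · exact Finset.mem_union_left _ (Finset.mem_union_right _ hmF)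
      exact Finset.mem_union_right _ (mem_upTo.2 ⟨(mem_upTo.1 hm1).1,
        (mem_upTo.1 hm1).2, by omega, hmF, hm2⟩)
    have h1 := (Finset.card_le_card hsub).trans (Finset.card_union_le _ _)
    have h2 := Finset.card_union_le (Finset.range (B + 1)) (insert q F)
    rw [Finset.card_range] at h2
    have h3 := h1.trans (Nat.add_le_add_right h2 _)
    have h4 : (((upTo (SS W f) x).filter fun q : ℕ => ∀ e : ℤ, (q : ℤ) ∣ f.eval e →
        ∀ i, sgn (A i) q e = 1).card : ℝ) ≤ (((B + 1 : ℕ) + (insert q F).card : ℕ) : ℝ) +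
          ((upTo S₁ x).card : ℝ) := by exact_mod_cast h3
    linarith
  obtain ⟨δ, hδ, hδc⟩ := hCNT S₁ (c₁ / 2) (fun p hp => hp.1.1) (by positivity) hS₁c
  have hU : ∀ p ∈ insert q F, p ∈ SS W f := by
    intro p hp
    rcases Finset.mem_insert.1 hp with rfl | hp
    · exact hqS
    · exact hF p hp
  have hUpr : ∀ p ∈ insert q F, p.Prime := fun p hp => (hU p hp).1
  set E₀ : ℕ := ∏ p ∈ insert q F, p with hE₀
  have hE₀0 : 0 < E₀ := Finset.prod_pos fun p hp => (hUpr p hp).pos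
  refine final_count hδ hE₀0 (g := fun X => (sqf S₁ X).card) hδc (fun X => ?_)
  refine Finset.card_le_card_of_injOn (fun m => E₀ * m) ?_ ?_
  · intro m hm
    obtain ⟨hm1, hm2, hm3⟩ := Finset.mem_filter.1 (Finset.mem_coe.1 hm)
    have hmX : E₀ * m ≤ X := by
      have h1 : m ≤ X / E₀ := by
        have := Finset.mem_range.1 hm1
        omega
      calc E₀ * m ≤ E₀ * (X / E₀) := Nat.mul_le_mul_left _ h1
        _ ≤ X := Nat.mul_div_le _ _
    have hMS : ∀ p ∈ m.primeFactors, p ∈ S₁ := fun p hp =>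
      hm3 p (Nat.prime_of_mem_primeFactors hp) (Nat.dvd_of_mem_primeFactors hp)
    have hMm : ∏ p ∈ m.primeFactors, p = m := Nat.prod_primeFactors_of_squarefree hm2
    have hdis : Disjoint (insert q F) m.primeFactors := by
      rw [Finset.disjoint_left]
      intro p hp hpM
      exact (hMS p hpM).2.2.1 hp
    have hUM : ∏ p ∈ insert q F ∪ m.primeFactors, p = E₀ * m := by
      rw [Finset.prod_union hdis, hMm]
    have hall : ∀ p ∈ insert q F ∪ m.primeFactors, p ∈ SS W f := by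
      intro p hp
      rcases Finset.mem_union.1 hp with hp | hp
      · exact hU p hp
      · exact (hMS p hp).1
    have hallp : ∀ p ∈ insert q F ∪ m.primeFactors, p.Prime := fun p hp => (hall p hp).1
    rw [Finset.mem_coe, Finset.mem_filter]
    refine ⟨Finset.mem_range.2 (Nat.lt_succ_of_le hmX), ?_, ?_, ?_, ?_, ?_, ?_⟩
    · show 1 < E₀ * m
      have h1 : 2 ≤ E₀ := (hUpr q (Finset.mem_insert_self _ _)).two_le.trans
        (Nat.le_of_dvd hE₀0 (Finset.dvd_prod_of_mem _ (Finset.mem_insert_self _ _)))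
      have h2 : 0 < m := Nat.pos_of_ne_zero hm2.ne_zero
      calc 1 < E₀ * 1 := by omega
        _ ≤ E₀ * m := Nat.mul_le_mul_left _ h2
    · show Squarefree (E₀ * m)
      rw [← hUM]
      exact squarefree_prod hallp
    · have h1 : (W : ℤ) ∣ ((E₀ * m : ℕ) : ℤ) - 1 := by
        rw [← hUM]
        exact prod_mod _ fun p hp => (hall p hp).2.1
      have h2 : (T : ℤ) ∣ ((E₀ * m : ℕ) : ℤ) - 1 := (Int.natCast_dvd_natCast.2 hTW').trans h1
      have h3 : (1 : ℕ) ≡ E₀ * m [MOD T] := (Nat.modEq_iff_dvd).2 (by simpa using h2)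
      exact h3.symm
    · show IsCoprime ((E₀ * m : ℕ) : ℤ) D₀
      rw [← hUM, Nat.cast_prod]
      refine IsCoprime.prod_left fun p hp => ?_
      rw [(Nat.prime_iff_prime_int.1 (hallp p hp)).coprime_iff_not_dvd]
      intro h2
      exact hSSW p (hall p hp) (by exact_mod_cast h2.trans hDW)
    · show ELS f (D₀ * ((E₀ * m : ℕ) : ℤ))
      rw [← hUM]
      exact hE _ hall
    · show ¬ HasFake f (D₀ * ((E₀ * m : ℕ) : ℤ))
      intro hfake
      rw [← hUM, Nat.cast_prod] at hfake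
      obtain ⟨e, he1, he2⟩ := hB q hqS.1 hqB hqS.2.1 hqF m.primeFactors (fun p hp => hMS p hp) hfake
      exact hq e he1 he2
  · intro a _ b _ hab
    exact Nat.eq_of_mul_eq_mul_left hE₀0 hab

end Pool.Agent.H30Q
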