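import Pool.Agent.H30Q.Done2
import Pool.Agent.H30Q.ITR
import Pool.Agent.H30Q.Main3
import Pool.Agent.H30Q.CH3
import Pool.Agent.H30Q.CNT

/-! # The main theorems of the second and third part -/

namespace Pool.Agent.H30Q

theorem m2 : S_MAIN2 := t_MAIN2 t_ITR

theorem m3 : S_MAIN3 :=
  main3 t_EEQ t_GMB (t_PRF t_GMA t_GMB) t_HEN t_REA (t_GPT t_GMA t_GMB t_EEQ t_UNI t_HEN)
    (t_PI t_HEN) t_EVN t_BAD t_WEI t_SMP t_SQR
    (t_QPG t_GMA t_GMB (t_BLK t_HS t_GMA t_GMB) t_LEG t_UNI) (t_PGC t_LINU t_KD) t_CH2 t_MEA t_CH3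
    t_CNT

end Pool.Agent.H30Q
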