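import Pool.Agent.H30Q.Main2
import Pool.Agent.H30Q.Done3

/-!
# Project HQ (helper30): the second part again, with the weights
-/

set_option autoImplicit false
set_option linter.all false

open Polynomial IsDedekindDomain Matrix NumberField Filter Topology
open scoped Classical

namespace Pool.Agent.H30Q

open AsmP AsmQ

/-- The main theorem. -/
def S_MAIN4 : Prop := ∀ (n : ℕ) (f : ℤ[X]), 6 ≤ n → Even n → f.Monic → f.natDegree = n →
  Irreducible (ov ℚ f) → ∀ D₀ : ℤ, D₀ ≠ 0 → ELS f D₀ → ∀ T : ℕ, T ≠ 0 →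
  ∃ (W : ℕ) (C κ : ℝ), W ≠ 0 ∧ T ∣ W ∧ D₀ ∣ W ∧ 0 < C ∧ 0 ≤ κ ∧ κ < 1 ∧
    (∃ c : ℝ, 0 < c ∧ ∀ᶠ x : ℕ in atTop, c * (Nat.primeCounting x : ℝ) ≤ (upTo (SS W f) x).card) ∧
    (∀ F : Finset ℕ, (∀ p ∈ F, p ∈ SS W f) → ELS f (D₀ * ∏ p ∈ F, (p : ℤ))) ∧
    (∀ F : Finset ℕ, (∀ p ∈ F, p ∈ SS W f) → ∀ q : ℕ, q.Prime → q % W = 1 % W → q ∉ F →
      (ELS f (D₀ * ∏ p ∈ insert q F, (p : ℤ)) ↔ q ∈ SS W f)) ∧
    (∀ q ∈ SS W f, 0 ≤ wt f q ∧ wt f q ≤ 1) ∧
    ∀ (k : ℕ) (F : Finset ℕ), (∀ p ∈ F, p ∈ SS W f) →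
      It (SS W f) (fun F => if HasFake f (D₀ * ∏ p ∈ F, (p : ℤ)) then 1 else 0) (k + 1) F ≤
      C * κ ^ k * ∏ p ∈ F, wt f p

theorem main4 (hEE : P_EE) (hGMB : S_GMB) (hPRF : P_PRF) (hHEN : S_HEN) (hREA : S_REA)
    (hGPT : P_GPT) (hPI : P_PI) (hEVN : S_EVN) (hBAD : S_BAD) (hWEI : S_WEI) (hSMP : S_SMP)
    (hSQR : S_SQR) (hQPG : P_QPG) (hPGC : P_PGC) (hCH2 : P_CH2) (hMEA : S_MEA) (hITR : S_ITR) :
    S_MAIN4 := by
  intro n f h6 heven hmon hdeg hirr D₀ hD₀ hels T hT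
  have hsep : (ov ℚ f).Separable := hirr.separable
  have hyp : Hy n f := ⟨h6, heven, hmon, hdeg, hsep⟩
  obtain ⟨L, _, _, θ, hθ⟩ := exists_field' hyp hirr
  have hn : 1 ≤ n := by omega
  obtain ⟨W, hTW, hW⟩ := hBAD n (T * D₀.natAbs) f L θ hn hθ
    (mul_ne_zero hT (Int.natAbs_ne_zero.2 hD₀))
  have hTW' : T ∣ W := (dvd_mul_right _ _).trans hTW
  have hDW : D₀ ∣ (W : ℤ) := by
    rw [← Int.natAbs_dvd_natAbs, Int.natAbs_natCast]
    exact (dvd_mul_left _ _).trans hTW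
  obtain ⟨hwt, ⟨κ, hκ0, hκ1, hκ⟩, c₀, hc₀, hcnt⟩ := hMEA n W f h6 hmon hdeg hsep hW.ne hW.sep
  obtain ⟨c, hc, hPG⟩ := hPGC n W f L θ hn hθ hW
  have hne2 : ∀ p : ℕ, ¬ p ∣ W → p ≠ 2 := by
    rintro p hp rfl
    exact hp (dvd_trans (by norm_num) hW.eight)
  have hSSW : ∀ q ∈ SS W f, ¬ q ∣ W := fun q hq => SS_W hW.ne hW.eight hq.1 hq.2.1
  -- everywhere locally soluble
  have hE : ∀ F : Finset ℕ, (∀ p ∈ F, p ∈ SS W f) → ELS f (D₀ * ∏ p ∈ F, (p : ℤ)) := by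
    intro F hF
    have hFpr : ∀ p ∈ F, p.Prime := fun p hp => (hF p hp).1
    have h1 : (∏ p ∈ F, (p : ℤ)) = ((∏ p ∈ F, p : ℕ) : ℤ) := by push_cast; rfl
    have h2 : (∏ p ∈ F, p) ≠ 0 := Finset.prod_ne_zero_iff.2 fun p hp => (hFpr p hp).ne_zero
    rw [h1]
    refine ⟨fun p _ => ?_, els_real h2 hels.2⟩
    refine els hWEI hSMP hSQR hyp hW hD₀ hDW h2 (prod_mod _ fun q hq => (hF q hq).2.1) ?_ hels.1 p
    intro p hp hd
    have hpF : p ∈ F := by
      by_contra hn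
      exact coprime_of_primes hFpr hp hn hd
    refine ⟨hSSW p (hF p hpF), ?_⟩
    obtain ⟨e, he⟩ := (hF p hpF).2.2
    exact ⟨e, by rw [eval_rd, ZMod.intCast_zmod_eq_zero_iff_dvd]; exact he⟩
  -- counting
  have htend : Tendsto (fun x : ℕ => ((upTo (SS W f) x).card : ℝ)) atTop atTop := by
    have h1 : Tendsto (fun x : ℕ => c₀ * (Nat.primeCounting x : ℝ)) atTop atTop :=
      (tendsto_natCast_atTop_atTop.comp Nat.tendsto_primeCounting).const_mul_atTop hc₀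
    exact tendsto_atTop_mono' _ hcnt h1
  have hcore : ∀ F : Finset ℕ, (∀ p ∈ F, p ∈ SS W f) → ∀ η : ℝ, 0 < η → ∀ᶠ x : ℕ in atTop,
      (((upTo (SS W f) x).filter fun q : ℕ => q ∉ F ∧
        HasFake f (D₀ * ∏ p ∈ insert q F, (p : ℤ))).card : ℝ) ≤
      ((n * c : ℝ) * ∏ p ∈ F, wt f p + η) * (upTo (SS W f) x).card := by
    intro F hF η hη
    obtain ⟨r, A, hA, hr⟩ := hPG F fun p hp => ⟨(hF p hp).1, hSSW p (hF p hp)⟩
    obtain ⟨V, hV1, B, hB⟩ := bad_of_fake hEE hGMB hPRF hHEN hREA hGPT hPI hEVN hQPG hyp hθ hW hDW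
      hF hA
    have hev := hCH2 n W f L θ hn hθ hW r A hA.ne (by
      intro I hI
      obtain ⟨𝔓, ⟨p, hp, hmem⟩, hne⟩ := hA.ind I hI
      refine ⟨𝔓, fun hWm => ?_, hne⟩
      have hco : IsCoprime (p : ℤ) (W : ℤ) := by
        rw [(Nat.prime_iff_prime_int.1 (hF p hp).1).coprime_iff_not_dvd]
        intro h2
        exact hSSW p (hF p hp) (by exact_mod_cast h2)
      obtain ⟨a, b, hab⟩ := hco
      have h1 : (1 : 𝓞 L) ∈ 𝔓.asIdeal := by
        have h2 : (1 : 𝓞 L) = (a : 𝓞 L) * (p : 𝓞 L) + (b : 𝓞 L) * (W : 𝓞 L) := by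
          have := congrArg (Int.cast : ℤ → 𝓞 L) hab
          push_cast at this
          exact this.symm
        rw [h2]
        exact Ideal.add_mem _ (Ideal.mul_mem_left _ _ hmem) (Ideal.mul_mem_left _ _ hWm)
      exact 𝔓.isPrime.ne_top ((Ideal.eq_top_iff_one _).2 h1)) V (η / 2) (by positivity)
    have hlarge := htend.eventually_ge_atTop ((B + 1 : ℕ) / (η / 2) : ℝ)
    filter_upwards [hev, hlarge] with x hx1 hx2
    have hsub : (upTo (SS W f) x).filter (fun q : ℕ => q ∉ F ∧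
        HasFake f (D₀ * ∏ p ∈ insert q F, (p : ℤ))) ⊆ Finset.range (B + 1) ∪
        (upTo (SS W f) x).filter fun q : ℕ => ∃ e : ℤ, (q : ℤ) ∣ f.eval e ∧
          (fun i => sgn (A i) q e) ∈ V := by
      intro q hq
      obtain ⟨hq1, hq2, hq3⟩ := Finset.mem_filter.1 hq
      have hqS : q ∈ SS W f := (Finset.mem_filter.1 hq1).2
      by_cases hqB : q ≤ B
      · exact Finset.mem_union_left _ (Finset.mem_range.2 (by omega))
      · exact Finset.mem_union_right _ (Finset.mem_filter.2 ⟨hq1,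
          hB q hqS.1 (by omega) hqS.2.1 hq2 hq3⟩)
    have hcard : (((upTo (SS W f) x).filter fun q : ℕ => q ∉ F ∧
        HasFake f (D₀ * ∏ p ∈ insert q F, (p : ℤ))).card : ℝ) ≤ (B + 1 : ℕ) +
        (((upTo (SS W f) x).filter fun q : ℕ => ∃ e : ℤ, (q : ℤ) ∣ f.eval e ∧
          (fun i => sgn (A i) q e) ∈ V).card : ℝ) := by
      have h1 := (Finset.card_le_card hsub).trans (Finset.card_union_le _ _)
      rw [Finset.card_range] at h1
      exact_mod_cast h1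
    have hB2 : ((B + 1 : ℕ) : ℝ) ≤ η / 2 * (upTo (SS W f) x).card := by
      rw [div_le_iff₀ (by positivity)] at hx2
      linarith
    have hwtV : (n : ℝ) * V.card / 2 ^ r ≤ (n * c : ℝ) * ∏ p ∈ F, wt f p := by
      have h1 : (V.card : ℝ) ≤ ∏ p ∈ F, (2 * (zer f p : ℝ)) := by exact_mod_cast hV1
      have h2 : (∏ p ∈ F, (2 : ℝ) ^ fac f p) ≤ c * (2 ^ r * 2 ^ F.card) := by
        rw [Finset.prod_pow_eq_pow_sum, ← pow_add]
        exact_mod_cast hr
      have h3 : ∏ p ∈ F, wt f p = (∏ p ∈ F, (2 * (zer f p : ℝ))) * 2 ^ F.card /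
          ∏ p ∈ F, (2 : ℝ) ^ fac f p := by
        rw [← Finset.prod_const, ← Finset.prod_mul_distrib, ← Finset.prod_div_distrib]
        refine Finset.prod_congr rfl fun p _ => ?_
        unfold wt
        ring
      have h4 : 0 < ∏ p ∈ F, (2 : ℝ) ^ fac f p := Finset.prod_pos fun p _ => by positivity
      have h5 : 0 ≤ ∏ p ∈ F, (2 * (zer f p : ℝ)) := Finset.prod_nonneg fun p _ => by positivity
      rw [h3, div_le_iff₀ (by positivity)]
      have h6 : (n : ℝ) * V.card ≤ n * ∏ p ∈ F, (2 * (zer f p : ℝ)) :=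
        mul_le_mul_of_nonneg_left h1 (by positivity)
      refine h6.trans ?_
      rw [mul_div_assoc', div_mul_eq_mul_div, le_div_iff₀ h4]
      have h7 : (n : ℝ) * (∏ p ∈ F, (2 * (zer f p : ℝ))) * (∏ p ∈ F, (2 : ℝ) ^ fac f p) ≤
          n * (∏ p ∈ F, (2 * (zer f p : ℝ))) * (c * (2 ^ r * 2 ^ F.card)) :=
        mul_le_mul_of_nonneg_left h2 (by positivity)
      refine h7.trans (le_of_eq ?_)
      ring
    calc _ ≤ ((B + 1 : ℕ) : ℝ) + _ := hcard
      _ ≤ η / 2 * (upTo (SS W f) x).card + ((n : ℝ) * V.card / 2 ^ r + η / 2) *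
          (upTo (SS W f) x).card := add_le_add hB2 hx1
      _ = ((n : ℝ) * V.card / 2 ^ r + η) * (upTo (SS W f) x).card := by ring
      _ ≤ _ := by
        refine mul_le_mul_of_nonneg_right ?_ (Nat.cast_nonneg _)
        linarith
  refine ⟨W, n * c, κ, hW.ne, hTW', hDW, by positivity, hκ0, hκ1, ⟨c₀, hc₀, hcnt⟩, hE, ?_, hwt,
    ?_⟩
  · intro F hF q hq hqW hqF
    constructor
    · intro hloc
      haveI : Fact q.Prime := ⟨hq⟩
      have hqW' : ¬ q ∣ W := SS_W hW.ne hW.eight hq hqW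
      have hUpr : ∀ p ∈ insert q F, p.Prime := by
        intro p hp
        rcases Finset.mem_insert.1 hp with rfl | hp
        · exact hq
        · exact (hF p hp).1
      have hUW : ∀ p ∈ insert q F, ¬ p ∣ W := by
        intro p hp
        rcases Finset.mem_insert.1 hp with rfl | hp
        · exact hqW'
        · exact hSSW p (hF p hp)
      obtain ⟨x, y, hy, hxy⟩ := hloc.1 q
      have hv := val_facts hDW _ hUpr hUW q (Finset.mem_insert_self _ _)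
      have h1 : (∏ p ∈ insert q F, (p : ℤ)) = ((∏ p ∈ insert q F, p : ℕ) : ℤ) := by
        push_cast; rfl
      rw [← h1] at hv
      obtain ⟨e, he, -⟩ := (hPI q (hne2 q hqW') n f heven hmon hdeg (hW.sep q hq hqW')).1 _ x y
        hv.1 hv.2 hy hxy
      exact ⟨hq, hqW, e, he⟩
    · intro hqS
      refine hE _ fun p hp => ?_
      rcases Finset.mem_insert.1 hp with rfl | hp
      · exact hqS
      · exact hF p hp
  · intro k F₀ hF₀
    have hinf : (SS W f).Infinite := by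
      intro hfin
      obtain ⟨x, hx⟩ := (htend.eventually_ge_atTop ((hfin.toFinset.card : ℝ) + 1)).exists
      have h1 : upTo (SS W f) x ⊆ hfin.toFinset := by
        intro q hq
        exact hfin.mem_toFinset.2 (Finset.mem_filter.1 hq).2
      have h2 : ((upTo (SS W f) x).card : ℝ) ≤ hfin.toFinset.card := by
        exact_mod_cast Finset.card_le_card h1
      linarith
    have h1 := hITR (SS W f) (fun F => if HasFake f (D₀ * ∏ p ∈ F, (p : ℤ)) then 1 else 0)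
      (wt f) (n * c) κ hinf (by positivity) hκ0 (fun F => by split_ifs <;> norm_num)
      (fun q hq => (hwt q hq).1) hκ (by
        intro F hF η hη
        filter_upwards [hcore F hF η hη] with x hx
        refine le_trans (le_of_eq ?_) hx
        rw [Finset.sum_boole, Finset.filter_filter]) k F₀ hF₀
    exact h1

theorem m4 : S_MAIN4 :=
  main4 t_EEQ t_GMB (t_PRF t_GMA t_GMB) t_HEN t_REA (t_GPT t_GMA t_GMB t_EEQ t_UNI t_HEN)
    (t_PI t_HEN) t_EVN t_BAD t_WEI t_SMP t_SQR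
    (t_QPG t_GMA t_GMB (t_BLK t_HS t_GMA t_GMB) t_LEG t_UNI) (t_PGC t_LINU t_KD) t_CH2 t_MEA t_ITR

end Pool.Agent.H30Q
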