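import Pool.Agent.H30Q.Gen
import Pool.Agent.H30Q.Main4

/-!
# Project HQ (helper30): the theorem for all irreducible polynomials of even degree
-/

set_option autoImplicit false
set_option linter.all false

open Polynomial Filter Topology
open scoped Classical

namespace Pool.Agent.H30Q

open GenP AsmQ AsmP

/-- `y ^ 2 = E g(x)` violates the Hasse principle. -/
structure Vio (g : ℤ[X]) (E : ℤ) : Prop where
  soluble : ELS g E
  noSelmer : ¬ HasFake g E
  noPoint : ¬ ∃ x y : ℚ, y ^ 2 = (E : ℚ) * (ov ℚ g).eval x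
  noPointInf : ¬ IsSquare (E * g.leadingCoeff)

lemma fake_of_point {g : ℤ[X]} {E : ℤ} {x y : ℚ} (hy : y ≠ 0)
    (h : y ^ 2 = (E : ℚ) * (ov ℚ g).eval x) : HasFake g E := by
  have hx : (ov ℚ g).eval x ≠ 0 := by
    intro h0
    rw [h0, mul_zero] at h
    exact hy (pow_eq_zero_iff two_ne_zero |>.1 h)
  have key : ∀ (K : Type) [Field K] [CharZero K], Pt K g E (oq K (C x - X)) := by
    intro K _ _
    refine ⟨(x : K), (y : K), 1, 1, by exact_mod_cast hy, one_ne_zero, ?_, ?_⟩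
    · have h1 := congrArg (Rat.castHom K) h
      rw [map_pow, map_mul] at h1
      have h2 : (Rat.castHom K) ((ov ℚ g).eval x) = (ov K g).eval (x : K) := by
        rw [← eval_map_apply]
        show ((g.map (Int.castRingHom ℚ)).map (Rat.castHom K)).eval _ = _
        rw [Polynomial.map_map, show (Rat.castHom K).comp (Int.castRingHom ℚ) = Int.castRingHom K from
          RingHom.ext_int _ _]
        rfl
      rw [h2] at h1
      simpa using h1
    · have h1 : (oq K (C x - X)) = C (x : K) - X := by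
        show (C x - X : ℚ[X]).map (Rat.castHom K) = _
        simp
      rw [h1, C_1, one_mul, one_pow, mul_one, sub_self]
      exact dvd_zero _
  refine ⟨C x - X, ?_, fun p _ => key ℚ_[p], key ℝ⟩
  have h1 : IsCoprime (X - C x : ℚ[X]) (ov ℚ g) := by
    rw [(irreducible_X_sub_C x).coprime_iff_not_dvd, dvd_iff_isRoot]
    exact hx
  have h2 : (C x - X : ℚ[X]) = -(X - C x) := by ring
  rw [h2]
  exact h1.neg_left

theorem vio_of {g : ℤ[X]} (hirr : Irreducible (ov ℚ g)) (hev : Even g.natDegree)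
    (h6 : 6 ≤ g.natDegree) {E : ℤ} (hE : ELS g E) (hf : ¬ HasFake (nz g) (g.leadingCoeff * E))
    {p : ℕ} (hp : p.Prime) (hpE : (p : ℤ) ∣ E) (hp2 : ¬ (p : ℤ) ^ 2 ∣ E)
    (hpa : ¬ (p : ℤ) ∣ g.leadingCoeff) : Vio g E := by
  have hf' : ¬ HasFake g E := fun h => hf (HasFake_imp (by omega) hev E h)
  have hE0 : E ≠ 0 := by
    rintro rfl
    exact hp2 (dvd_zero _)
  refine ⟨hE, hf', ?_, ?_⟩
  · rintro ⟨x, y, h⟩
    by_cases hy : y = 0
    · rw [hy, zero_pow two_ne_zero] at h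
      have h1 : (ov ℚ g).eval x = 0 := (mul_eq_zero.1 h.symm).resolve_left (Int.cast_ne_zero.2 hE0)
      have h2 := degree_eq_one_of_irreducible_of_root hirr h1
      have h3 : (ov ℚ g).natDegree = 1 := natDegree_eq_of_degree_eq_some h2
      have h4 : (ov ℚ g).natDegree = g.natDegree :=
        natDegree_map_eq_of_injective Int.cast_injective g
      omega
    · exact hf' (fake_of_point hy h)
  · rintro ⟨r, hr⟩
    have hpZ : Prime (p : ℤ) := Nat.prime_iff_prime_int.1 hp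
    have h1 : (p : ℤ) ∣ r := by
      have h2 : (p : ℤ) ∣ r * r := hr ▸ hpE.mul_right _
      rcases hpZ.dvd_or_dvd h2 with h | h <;> exact h
    have h2 : (p : ℤ) ^ 2 ∣ E * g.leadingCoeff := by
      rw [hr, sq]
      exact mul_dvd_mul h1 h1
    have h3 : IsCoprime ((p : ℤ) ^ 2) g.leadingCoeff :=
      ((hpZ.coprime_iff_not_dvd).2 hpa).pow_left
    exact hp2 (h3.dvd_of_dvd_mul_right h2)

lemma not_dvd_W {W q : ℕ} (hW : W ≠ 0) (hq : q.Prime) (hqW : q % W = 1 % W) : ¬ q ∣ W := by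
  intro h
  have h1 : q ≡ 1 [MOD q] := Nat.ModEq.of_dvd h hqW
  have h2 : 1 % q = 0 := by
    have h3 : q % q = 1 % q := h1
    rw [Nat.mod_self] at h3
    exact h3.symm
  rw [Nat.mod_eq_of_lt hq.one_lt] at h2
  exact one_ne_zero h2

lemma lc_unit {g : ℤ[X]} {W q : ℕ} (hW : W ≠ 0) (hgW : g.leadingCoeff ∣ (W : ℤ)) (hq : q.Prime)
    (hqW : q % W = 1 % W) : ¬ (q : ℤ) ∣ g.leadingCoeff := fun h =>
  not_dvd_W hW hq hqW (by exact_mod_cast h.trans hgW)

lemma SS_eq {g : ℤ[X]} (hn : 1 ≤ g.natDegree) {W : ℕ} (hW : W ≠ 0)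
    (hgW : g.leadingCoeff ∣ (W : ℤ)) : SS W g = SS W (nz g) := by
  ext q
  constructor
  · rintro ⟨h1, h2, h3⟩
    haveI : Fact q.Prime := ⟨h1⟩
    refine ⟨h1, h2, (zero_iff hn ?_).1 h3⟩
    rw [Ne, ZMod.intCast_zmod_eq_zero_iff_dvd]
    exact lc_unit hW hgW h1 h2
  · rintro ⟨h1, h2, h3⟩
    haveI : Fact q.Prime := ⟨h1⟩
    refine ⟨h1, h2, (zero_iff hn ?_).2 h3⟩
    rw [Ne, ZMod.intCast_zmod_eq_zero_iff_dvd]
    exact lc_unit hW hgW h1 h2

/-- The number of the twists up to `X`. -/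
theorem fin1 (g : ℤ[X]) (hirr : Irreducible (ov ℚ g)) (hev : Even g.natDegree)
    (h6 : 6 ≤ g.natDegree) (hels : ELS g 1) (T : ℕ) (hT : T ≠ 0) :
    ∃ δ : ℝ, 0 < δ ∧ ∀ᶠ X : ℕ in atTop, (X : ℝ) / Real.log X ^ (1 - δ) ≤
      (((Finset.range (X + 1)).filter fun E : ℕ => Squarefree E ∧ E % T = 1 % T ∧
        Vio g (E : ℤ)).card : ℝ) := by
  have hn : 1 ≤ g.natDegree := by omega
  have hg : g ≠ 0 := by
    rintro rfl
    rw [natDegree_zero] at hn
    omega
  have ha : g.leadingCoeff ≠ 0 := leadingCoeff_ne_zero.2 hg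
  have hels' : ELS (nz g) g.leadingCoeff := by
    have h := (ELS_iff hn hev 1).1 hels
    rwa [mul_one] at h
  obtain ⟨δ, hδ, h⟩ := m3 g.natDegree (nz g) h6 hev (monic_integralNormalization hg)
    natDegree_integralNormalization (nz_irr hn hirr) g.leadingCoeff ha hels' T hT
  refine ⟨δ, hδ, ?_⟩
  filter_upwards [h] with X hX
  refine hX.trans ?_
  exact_mod_cast Finset.card_le_card (by
    intro E hE
    obtain ⟨h1, h2, h3, h4, h5, h7, h8⟩ := Finset.mem_filter.1 hE
    refine Finset.mem_filter.2 ⟨h1, h3, h4, ?_⟩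
    obtain ⟨p, hp, hpE⟩ := Nat.exists_prime_and_dvd (by omega : E ≠ 1)
    refine vio_of hirr hev h6 ((ELS_iff hn hev E).2 h7) h8 hp (by exact_mod_cast hpE) ?_ ?_
    · intro h9
      have h10 : p ^ 2 ∣ E := by exact_mod_cast h9
      have h11 := (Nat.squarefree_iff_prime_squarefree.1 h3) p hp
      exact h11 (by rwa [← sq])
    · intro h9
      obtain ⟨u, v, huv⟩ := h5
      have h10 : (p : ℤ) ∣ 1 := by
        rw [← huv]
        exact dvd_add ((Int.natCast_dvd_natCast.2 hpE).mul_left u) (h9.mul_left v)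
      have h11 : p ∣ 1 := by exact_mod_cast h10
      exact hp.one_lt.ne' (Nat.dvd_one.1 h11))

/-! ### Fans -/

lemma avg_mono {S : Set ℕ} {h h' : ℕ → ℝ} (x : ℕ) (hh : ∀ q ∈ S, h q ≤ h' q) :
    avg S h x ≤ avg S h' x := by
  unfold avg
  refine div_le_div_of_nonneg_right (Finset.sum_le_sum fun q hq => hh q ?_) (Nat.cast_nonneg _)
  exact (Finset.mem_filter.1 hq).2

lemma It_mono {S : Set ℕ} {G G' : Finset ℕ → ℝ} (hG : ∀ F, 0 ≤ G F ∧ G F ≤ 1)
    (hG' : ∀ F, 0 ≤ G' F ∧ G' F ≤ 1)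
    (h : ∀ F : Finset ℕ, F.Nonempty → (∀ p ∈ F, p ∈ S) → G F ≤ G' F) :
    ∀ (k : ℕ) (F : Finset ℕ), (F.Nonempty ∨ 0 < k) → (∀ p ∈ F, p ∈ S) → It S G k F ≤ It S G' k F := by
  intro k
  induction k with
  | zero =>
    intro F hF hFS
    exact h F (hF.resolve_right (lt_irrefl _)) hFS
  | succ k ih =>
    intro F _ hFS
    show limsup (fun x => avg S (fun q => It S G k (insert q F)) x) atTop ≤
      limsup (fun x => avg S (fun q => It S G' k (insert q F)) x) atTop
    refine limsup_le_limsup (Eventually.of_forall fun x => ?_)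
      (ITRp.cobdd fun q => ITRp.It_mem hG k _) (ITRp.bdd_above fun q => ITRp.It_mem hG' k _)
    refine avg_mono x fun q hq => ih _ (Or.inl (Finset.insert_nonempty _ _)) fun p hp => ?_
    rcases Finset.mem_insert.1 hp with rfl | hp
    · exact hq
    · exact hFS p hp

/-- The number of the elements of `F` modulo which `g` has `deg g` zeros. -/
noncomputable def tsp (g : ℤ[X]) (F : Finset ℕ) : ℕ :=
  (F.filter fun p => ((Finset.range p).filter fun c : ℕ => (p : ℤ) ∣ g.eval (c : ℤ)).card =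
    g.natDegree).card

theorem fin2 (g : ℤ[X]) (hirr : Irreducible (ov ℚ g)) (hev : Even g.natDegree)
    (h6 : 6 ≤ g.natDegree) (hels : ELS g 1) (T : ℕ) (hT : T ≠ 0) :
    ∃ (W : ℕ) (C κ : ℝ), W ≠ 0 ∧ T ∣ W ∧ 0 < C ∧ 0 ≤ κ ∧ κ < 1 ∧
    (∃ c : ℝ, 0 < c ∧ ∀ᶠ x : ℕ in atTop, c * (Nat.primeCounting x : ℝ) ≤ (upTo (SS W g) x).card) ∧
    (∀ F : Finset ℕ, (∀ p ∈ F, p ∈ SS W g) → ELS g (∏ p ∈ F, (p : ℤ))) ∧
    (∀ F : Finset ℕ, (∀ p ∈ F, p ∈ SS W g) → ∀ q : ℕ, q.Prime → q % W = 1 % W → q ∉ F →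
      (ELS g (∏ p ∈ insert q F, (p : ℤ)) ↔ q ∈ SS W g)) ∧
    ∀ (k : ℕ) (F : Finset ℕ), (∀ p ∈ F, p ∈ SS W g) →
      It (SS W g) (fun F => if Vio g (∏ p ∈ F, (p : ℤ)) then 0 else 1) (k + 1) F ≤
      C * κ ^ k * (4 * g.natDegree / 2 ^ g.natDegree) ^ tsp g F := by
  have hn : 1 ≤ g.natDegree := by omega
  have hg : g ≠ 0 := by
    rintro rfl
    rw [natDegree_zero] at hn
    omega
  have ha : g.leadingCoeff ≠ 0 := leadingCoeff_ne_zero.2 hg
  have hels' : ELS (nz g) g.leadingCoeff := by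
    have h := (ELS_iff hn hev 1).1 hels
    rwa [mul_one] at h
  have hm : (nz g).Monic := monic_integralNormalization hg
  obtain ⟨W, C, κ, hW, hTW, hgW, hC, hκ0, hκ1, hc, h1, h2, hwt, h3⟩ := m4 g.natDegree (nz g) h6 hev hm
    natDegree_integralNormalization (nz_irr hn hirr) g.leadingCoeff ha hels' T hT
  have hSS := SS_eq hn hW hgW
  rw [← hSS] at hc h1 h2 h3 hwt
  refine ⟨W, C, κ, hW, hTW, hC, hκ0, hκ1, hc, fun F hF => (ELS_iff hn hev _).2 (h1 F hF), ?_, ?_⟩
  · intro F hF q hq hqW hqF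
    rw [ELS_iff hn hev]
    exact h2 F hF q hq hqW hqF
  · intro k F hF
    have hle : It (SS W g) (fun F => if Vio g (∏ p ∈ F, (p : ℤ)) then (0 : ℝ) else 1) (k + 1) F ≤
        It (SS W g) (fun F => if HasFake (nz g) (g.leadingCoeff * ∏ p ∈ F, (p : ℤ)) then (1 : ℝ) else 0)
          (k + 1) F := by
      refine It_mono (fun F => ?_) (fun F => ?_) ?_ (k + 1) F (Or.inr (Nat.succ_pos k)) hF
      · beta_reduce
        split_ifs <;> norm_num
      · beta_reduce
        split_ifs <;> norm_num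
      · intro F hFne hFS
        by_cases hf : HasFake (nz g) (g.leadingCoeff * ∏ p ∈ F, (p : ℤ))
        · rw [if_pos hf]
          split_ifs <;> norm_num
        · have hv : Vio g (∏ p ∈ F, (p : ℤ)) := by
            obtain ⟨p, hp⟩ := hFne
            have hpp := (hFS p hp).1
            refine vio_of hirr hev h6 ((ELS_iff hn hev _).2 (h1 F hFS)) hf hpp
              (Finset.dvd_prod_of_mem _ hp) ?_ (lc_unit hW hgW hpp (hFS p hp).2.1)
            intro hd
            rw [← Finset.mul_prod_erase _ _ hp, sq] at hd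
            have h4 : (p : ℤ) ∣ ∏ x ∈ F.erase p, (x : ℤ) :=
              (mul_dvd_mul_iff_left (by exact_mod_cast hpp.ne_zero)).1 hd
            obtain ⟨q, hq, hpq⟩ := ((Nat.prime_iff_prime_int.1 hpp).dvd_finsetProd_iff _).1 h4
            have h5 : p ∣ q := by exact_mod_cast hpq
            have h6 := (Nat.prime_dvd_prime_iff_eq hpp (hFS q (Finset.mem_of_mem_erase hq)).1).1 h5
            exact Finset.ne_of_mem_erase hq h6.symm
          rw [if_pos hv, if_neg hf]
    refine hle.trans ((h3 k F hF).trans ?_)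
    refine mul_le_mul_of_nonneg_left ?_ (by positivity)
    have hρ : ∀ p ∈ F, wt (nz g) p ≤
        if ((Finset.range p).filter fun c : ℕ => (p : ℤ) ∣ g.eval (c : ℤ)).card = g.natDegree then
          (4 * g.natDegree / 2 ^ g.natDegree : ℝ) else 1 := by
      intro p hp
      split_ifs with h
      · haveI : Fact p.Prime := ⟨(hF p hp).1⟩
        refine wt_tot hm g.natDegree ?_
        have h4 : ((g.leadingCoeff : ℤ) : ZMod p) ≠ 0 := by
          rw [Ne, ZMod.intCast_zmod_eq_zero_iff_dvd]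
          exact lc_unit hW hgW (hF p hp).1 (hF p hp).2.1
        rw [NR_card hn h4, ← Zr_card]
        exact h
      · exact (hwt p (hF p hp)).2
    refine (Finset.prod_le_prod (fun p hp => (hwt p (hF p hp)).1) hρ).trans (le_of_eq ?_)
    rw [Finset.prod_ite, Finset.prod_const, Finset.prod_const_one, mul_one]
    rfl

end Pool.Agent.H30Q
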