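import Pool.Agent.H30Q.Stm2
import Pool.Agent.H30T.Gal
import Pool.Agent.Q202.RT.Dn

/-!
# Project HQ (helper30), piece MEA, first part: zeros and irreducible factors over a finite field
-/

set_option autoImplicit false

open Polynomial NumberField Filter Topology
open scoped Classical

namespace Pool.Agent.H30Q

namespace MEAP

section ff

variable {p : ℕ} [Fact p.Prime] {k : Type} [Field k] [Algebra (ZMod p) k]

theorem charP_k : CharP k p := charP_of_injective_algebraMap (algebraMap (ZMod p) k).injective p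

theorem pow_inj {x y : k} (h : x ^ p = y ^ p) : x = y := by
  have : CharP k p := charP_k
  have : ExpChar k p := ExpChar.prime Fact.out
  exact frobenius_inj k p h

/-- A finite set stable under the Frobenius map is the set of the zeros of a polynomial. -/
theorem lift_prod (T : Finset k) (hT : ∀ x ∈ T, x ^ p ∈ T) :
    ∃ h : (ZMod p)[X], h.map (algebraMap (ZMod p) k) = ∏ x ∈ T, (X - C x) := by
  have : CharP k p := charP_k
  have : ExpChar k p := ExpChar.prime Fact.out
  set P : k[X] := ∏ x ∈ T, (X - C x) with hP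
  have hinj : Set.InjOn (fun x : k => x ^ p) T := fun x _ y _ h => pow_inj (p := p) h
  have himg : T.image (fun x => x ^ p) = T :=
    Finset.eq_of_subset_of_card_le (Finset.image_subset_iff.2 hT)
      (by rw [Finset.card_image_of_injOn hinj])
  have h1 : P.map (frobenius k p) = P := by
    have e : P = ∏ x ∈ T, (X - C (x ^ p)) := by
      rw [hP]
      conv_lhs => rw [← himg]
      rw [Finset.prod_image hinj]
    rw [hP, Polynomial.map_prod, ← hP, e]
    refine Finset.prod_congr rfl fun x _ => ?_
    rw [Polynomial.map_sub, map_X, map_C, frobenius_def]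
  have h2 : P ∈ lifts (algebraMap (ZMod p) k) := by
    rw [lifts_iff_coeff_lifts]
    intro i
    have h3 : (P.coeff i) ^ p = P.coeff i := by
      have h4 := congrArg (fun Q : k[X] => Q.coeff i) h1
      simp only [coeff_map, frobenius_def] at h4
      exact h4
    exact Pool.Agent.Q202.RT.fixed_frob _ h3
  exact (mem_lifts _).1 h2

/-- Two elements of a stable finite set have the same minimal polynomial iff they are conjugate by a power of
the Frobenius map. -/
theorem minpoly_eq_iff (R : Finset k) (hR : ∀ x ∈ R, x ^ p ∈ R) {x y : k} (hx : x ∈ R) (hy : y ∈ R) :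
    minpoly (ZMod p) x = minpoly (ZMod p) y ↔ ∃ i : ℕ, y = x ^ (p ^ i) := by
  have : CharP k p := charP_k
  have : ExpChar k p := ExpChar.prime Fact.out
  constructor
  · intro h
    set T : Finset k := R.filter fun z => ∃ i : ℕ, z = x ^ (p ^ i) with hTd
    have hT : ∀ z ∈ T, z ^ p ∈ T := by
      intro z hz
      obtain ⟨hzR, i, hi⟩ := Finset.mem_filter.1 hz
      refine Finset.mem_filter.2 ⟨hR z hzR, i + 1, ?_⟩
      rw [hi, ← pow_mul, pow_succ]
    obtain ⟨g, hg⟩ := lift_prod T hT
    have hxT : x ∈ T := Finset.mem_filter.2 ⟨hx, 0, by rw [pow_zero, pow_one]⟩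
    have hgx : aeval x g = 0 := by
      rw [← aeval_map_algebraMap k x g, hg, coe_aeval_eq_eval, eval_prod]
      exact Finset.prod_eq_zero hxT (by simp)
    have hd := minpoly.dvd (ZMod p) x hgx
    rw [h] at hd
    have hgy : aeval y g = 0 := by
      obtain ⟨u, hu⟩ := hd
      rw [hu, map_mul, minpoly.aeval, zero_mul]
    rw [← aeval_map_algebraMap k y g, hg, coe_aeval_eq_eval, eval_prod] at hgy
    obtain ⟨z, hz, hyz⟩ := Finset.prod_eq_zero_iff.1 hgy
    have : y = z := by
      simpa [sub_eq_zero] using hyz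
    obtain ⟨-, i, hi⟩ := Finset.mem_filter.1 hz
    exact ⟨i, this.trans hi⟩
  · rintro ⟨i, rfl⟩
    clear hy
    have h1 : ∀ z : k, minpoly (ZMod p) (z ^ p) = minpoly (ZMod p) z := by
      intro z
      let F : k →ₐ[ZMod p] k :=
        { frobenius k p with
          commutes' := fun c => by
            show (algebraMap (ZMod p) k c) ^ p = algebraMap (ZMod p) k c
            rw [← map_pow, ZMod.pow_card] }
      have hF : F z = z ^ p := rfl
      rw [← hF]
      exact minpoly.algHom_eq F F.toRingHom.injective z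
    induction i with
    | zero => rw [pow_zero, pow_one]
    | succ i ih => rw [pow_succ, pow_mul, h1, ← ih]

end ff

/-- Equal kernels, ranges with equally many elements. -/
theorem card_range_eq {α β γ : Type} (F : α → β) (G : α → γ) (h : ∀ a b, F a = F b ↔ G a = G b) :
    Nat.card (Set.range F) = Nat.card (Set.range G) := by
  have e : Setoid.ker F = Setoid.ker G := by
    ext a b
    exact h a b
  rw [← Nat.card_congr (Setoid.quotientKerEquivRange F), e]
  exact Nat.card_congr (Setoid.quotientKerEquivRange G)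

section cnt

variable (p : ℕ) [Fact p.Prime] (f : ℤ[X])

/-- The zeros in the algebraic closure. -/
noncomputable def RR : Finset (AlgebraicClosure (ZMod p)) :=
  ((rd p f).map (algebraMap (ZMod p) (AlgebraicClosure (ZMod p)))).roots.toFinset

variable {p f}

theorem mem_RR (hm : f.Monic) {x : AlgebraicClosure (ZMod p)} : x ∈ RR p f ↔ aeval x (rd p f) = 0 := by
  have h0 : (rd p f).map (algebraMap (ZMod p) (AlgebraicClosure (ZMod p))) ≠ 0 :=
    ((hm.map _).map _).ne_zero
  unfold RR
  rw [Multiset.mem_toFinset, mem_roots h0, IsRoot.def, eval_map_algebraMap]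

theorem RR_stable (hm : f.Monic) : ∀ x ∈ RR p f, x ^ p ∈ RR p f := by
  intro x hx
  rw [mem_RR hm] at hx ⊢
  have h1 : aeval (x ^ p) (rd p f) = (aeval x (rd p f)) ^ p := by
    have : CharP (AlgebraicClosure (ZMod p)) p := charP_k
    have : ExpChar (AlgebraicClosure (ZMod p)) p := ExpChar.prime Fact.out
    let F : AlgebraicClosure (ZMod p) →ₐ[ZMod p] AlgebraicClosure (ZMod p) :=
      { frobenius (AlgebraicClosure (ZMod p)) p with
        commutes' := fun c => by
          show (algebraMap (ZMod p) _ c) ^ p = algebraMap (ZMod p) _ c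
          rw [← map_pow, ZMod.pow_card] }
    have h2 := aeval_algHom_apply F x (rd p f)
    exact h2
  rw [h1, hx, zero_pow (Fact.out : p.Prime).ne_zero]

theorem card_RR (hm : f.Monic) (hs : (rd p f).Separable) : (RR p f).card = f.natDegree := by
  have h1 : ((rd p f).map (algebraMap (ZMod p) (AlgebraicClosure (ZMod p)))).roots.Nodup :=
    nodup_roots hs.map
  unfold RR
  rw [Multiset.toFinset_card_of_nodup h1, IsAlgClosed.card_roots_eq_natDegree, natDegree_map,
    hm.natDegree_map]

theorem dvd_iff (e : ℤ) : (p : ℤ) ∣ f.eval e ↔ (rd p f).eval (e : ZMod p) = 0 := by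
  rw [← ZMod.intCast_zmod_eq_zero_iff_dvd]
  have : ((f.eval e : ℤ) : ZMod p) = (rd p f).eval (e : ZMod p) := by
    rw [eval_intCast_map]
    rfl
  rw [this]

theorem zer_eq (hm : f.Monic) : zer f p = ((RR p f).filter fun x => x ^ p = x).card := by
  unfold zer
  have hmem : ∀ c : ℤ, (c ∈ (do let a ← Finset.range p; pure (a : ℤ) : Finset ℤ)) ↔
      ∃ a : ℕ, a < p ∧ (a : ℤ) = c := by
    intro c
    simp [Finset.bind_def, eq_comm]
  refine Finset.card_bij (fun c _ => algebraMap (ZMod p) (AlgebraicClosure (ZMod p)) (c : ZMod p))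
    ?_ ?_ ?_
  · intro c hc
    obtain ⟨-, h2⟩ := Finset.mem_filter.1 hc
    rw [dvd_iff] at h2
    refine Finset.mem_filter.2 ⟨?_, ?_⟩
    · rw [mem_RR hm, aeval_algebraMap_apply, coe_aeval_eq_eval, h2, map_zero]
    · rw [← map_pow, ZMod.pow_card]
  · intro c hc d hd h
    have h1 := (algebraMap (ZMod p) (AlgebraicClosure (ZMod p))).injective h
    obtain ⟨c', hc', rfl⟩ := (hmem c).1 (Finset.mem_filter.1 hc).1
    obtain ⟨d', hd', rfl⟩ := (hmem d).1 (Finset.mem_filter.1 hd).1
    push_cast at h1
    have h2 := (ZMod.natCast_eq_natCast_iff' c' d' p).1 h1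
    rw [Nat.mod_eq_of_lt hc', Nat.mod_eq_of_lt hd'] at h2
    rw [h2]
  · intro x hx
    obtain ⟨h1, h2⟩ := Finset.mem_filter.1 hx
    obtain ⟨c, rfl⟩ := Pool.Agent.Q202.RT.fixed_frob x h2
    have h3 : (((c.val : ℕ) : ℤ) : ZMod p) = c := by push_cast; exact ZMod.natCast_zmod_val c
    refine ⟨((c.val : ℕ) : ℤ), Finset.mem_filter.2 ⟨(hmem _).2 ⟨c.val, ZMod.val_lt c, rfl⟩, ?_⟩,
      by rw [h3]⟩
    rw [dvd_iff, h3]
    rw [mem_RR hm, aeval_algebraMap_apply, coe_aeval_eq_eval] at h1
    exact (map_eq_zero_iff _ (algebraMap (ZMod p) (AlgebraicClosure (ZMod p))).injective).1 h1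

theorem fac_eq (hm : f.Monic) :
    fac f p = Nat.card (Set.range fun x : RR p f => minpoly (ZMod p) (x : AlgebraicClosure (ZMod p))) := by
  unfold fac
  have e : {g : (ZMod p)[X] | g.Monic ∧ Irreducible g ∧ g ∣ rd p f} =
      Set.range fun x : RR p f => minpoly (ZMod p) (x : AlgebraicClosure (ZMod p)) := by
    ext g
    constructor
    · rintro ⟨h1, h2, h3⟩
      obtain ⟨x, hx⟩ := IsAlgClosed.exists_aeval_eq_zero (AlgebraicClosure (ZMod p)) g
        (degree_pos_of_irreducible h2).ne'
      refine ⟨⟨x, ?_⟩, (minpoly.eq_of_irreducible_of_monic h2 hx h1).symm⟩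
      rw [mem_RR hm]
      obtain ⟨u, hu⟩ := h3
      rw [hu, map_mul, hx, zero_mul]
    · rintro ⟨⟨x, hx⟩, rfl⟩
      have hi : IsIntegral (ZMod p) x := Algebra.IsIntegral.isIntegral x
      exact ⟨minpoly.monic hi, minpoly.irreducible hi, minpoly.dvd _ _ ((mem_RR hm).1 hx)⟩
  rw [← e]
  rfl

/-- The weight is at most one, and less than one if all the zeros are rational. -/
theorem wt_le (hm : f.Monic) (hs : (rd p f).Separable) (hn : 6 ≤ f.natDegree) :
    0 ≤ wt f p ∧ wt f p ≤ 1 ∧ (zer f p = f.natDegree → wt f p < 1) := by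
  set F : RR p f → (ZMod p)[X] := fun x => minpoly (ZMod p) (x : AlgebraicClosure (ZMod p)) with hF
  have hst := RR_stable (p := p) hm
  have hFe : ∀ x y : RR p f, F x = F y ↔ ∃ i : ℕ, (y : AlgebraicClosure (ZMod p)) = x ^ (p ^ i) :=
    fun x y => minpoly_eq_iff (RR p f) hst x.2 y.2
  have hfix : ∀ (x : AlgebraicClosure (ZMod p)), x ^ p = x → ∀ i : ℕ, x ^ (p ^ i) = x := by
    intro x hx i
    induction i with
    | zero => rw [pow_zero, pow_one]
    | succ i ih => rw [pow_succ, pow_mul, ih, hx]
  have hR := card_RR (p := p) hm hs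
  have hz := zer_eq (p := p) hm
  have hzn : zer f p ≤ f.natDegree := by
    rw [hz, ← hR]
    exact Finset.card_filter_le _ _
  -- the classes
  have hfac : fac f p = (Finset.univ.image F).card := by
    rw [fac_eq hm, ← Set.ncard_coe_finset, Finset.coe_image, Finset.coe_univ, Set.image_univ]
    rfl
  set R₀ : Finset (RR p f) := Finset.univ.filter fun x => (x : AlgebraicClosure (ZMod p)) ^ p = x with hR₀
  have hc₀ : R₀.card = zer f p := by
    rw [hz, hR₀]
    refine Finset.card_bij (fun x _ => (x : AlgebraicClosure (ZMod p))) ?_ ?_ ?_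
    · intro x hx
      exact Finset.mem_filter.2 ⟨x.2, (Finset.mem_filter.1 hx).2⟩
    · intro x _ y _ h
      exact Subtype.ext h
    · intro x hx
      obtain ⟨h1, h2⟩ := Finset.mem_filter.1 hx
      exact ⟨⟨x, h1⟩, Finset.mem_filter.2 ⟨Finset.mem_univ _, h2⟩, rfl⟩
  have hinj : Set.InjOn F (R₀ : Set (RR p f)) := by
    intro x hx y _ h
    obtain ⟨i, hi⟩ := (hFe x y).1 h
    rw [hfix _ (Finset.mem_filter.1 (Finset.mem_coe.1 hx)).2] at hi
    exact (Subtype.ext hi).symm
  have h1 : (R₀.image F).card = zer f p := by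
    rw [Finset.card_image_of_injOn hinj, hc₀]
  have hsub : R₀.image F ⊆ Finset.univ.image F := Finset.image_subset_image (Finset.subset_univ _)
  have hge : zer f p ≤ fac f p := by
    rw [← h1, hfac]
    exact Finset.card_le_card hsub
  have hgt : zer f p ≠ f.natDegree → zer f p + 1 ≤ fac f p := by
    intro hne
    obtain ⟨x, hx⟩ : ∃ x : RR p f, x ∉ R₀ := by
      by_contra hcon
      push Not at hcon
      have : R₀ = Finset.univ := Finset.eq_univ_iff_forall.2 hcon
      rw [this, Finset.card_univ, Fintype.card_coe, hR] at hc₀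
      exact hne hc₀.symm
    have hnot : F x ∉ R₀.image F := by
      intro h
      obtain ⟨y, hy, hyx⟩ := Finset.mem_image.1 h
      obtain ⟨i, hi⟩ := (hFe y x).1 hyx
      have hyf := (Finset.mem_filter.1 hy).2
      rw [hfix _ hyf] at hi
      apply hx
      have : x = y := Subtype.ext hi
      rw [this]
      exact hy
    have h2 : (insert (F x) (R₀.image F)).card = zer f p + 1 := by
      rw [Finset.card_insert_of_notMem hnot, h1]
    rw [← h2, hfac]
    refine Finset.card_le_card ?_
    intro z hz'
    rcases Finset.mem_insert.1 hz' with rfl | h3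
    · exact Finset.mem_image_of_mem _ (Finset.mem_univ _)
    · exact hsub h3
  have hpow : ∀ m : ℕ, 5 ≤ m → 4 * m < 2 ^ m := by
    intro m hm5
    induction m, hm5 using Nat.le_induction with
    | base => norm_num
    | succ m hm5 ih => rw [pow_succ]; omega
  have hpow2 : ∀ m : ℕ, 4 * m ≤ 2 ^ (m + 1) := by
    intro m
    induction m with
    | zero => norm_num
    | succ m ih =>
      rcases Nat.lt_or_ge m 1 with h | h
      · interval_cases m
        norm_num
      · have : 2 ^ 1 ≤ 2 ^ m := Nat.pow_le_pow_right (by norm_num) h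
        rw [pow_succ]
        omega
  have hnat : 4 * zer f p ≤ 2 ^ fac f p ∧ (zer f p = f.natDegree → 4 * zer f p < 2 ^ fac f p) := by
    by_cases hne : zer f p = f.natDegree
    · have h5 : 4 * zer f p < 2 ^ fac f p := by
        refine (hpow (zer f p) (by omega)).trans_le ?_
        exact Nat.pow_le_pow_right (by norm_num) hge
      exact ⟨h5.le, fun _ => h5⟩
    · refine ⟨(hpow2 (zer f p)).trans (Nat.pow_le_pow_right (by norm_num) (hgt hne)), fun h => absurd h hne⟩
  have h2pos : (0 : ℝ) < 2 ^ fac f p := by positivity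
  unfold wt
  refine ⟨by positivity, ?_, ?_⟩
  · rw [div_le_one h2pos]
    exact_mod_cast hnat.1
  · intro h
    rw [div_lt_one h2pos]
    exact_mod_cast hnat.2 h

end cnt

end MEAP

end Pool.Agent.H30Q
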