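import Pool.Agent.H30Q.Done3
import Pool.Agent.H30Q.MEA1

/-!
# Project HQ (helper30): polynomials which are not monic

`y ^ 2 = E g(x)`, `a` the leading coefficient of `g`, is isomorphic to `y ^ 2 = a E f(x)`, where
`f(a x) = a ^ (n - 1) g(x)` is monic.
-/

set_option autoImplicit false
set_option linter.all false

open Polynomial Filter Topology
open scoped Classical

namespace Pool.Agent.H30Q

namespace GenP

open AsmQ AsmP

variable {F : Type} [Field F]

/-- The substitution `X ↦ c⁻¹ X`. -/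
noncomputable def sb (c : F) (p : F[X]) : F[X] := p.comp (C c⁻¹ * X)

lemma sb_mul (c : F) (p q : F[X]) : sb c (p * q) = sb c p * sb c q := mul_comp _ _ _
lemma sb_sub (c : F) (p q : F[X]) : sb c (p - q) = sb c p - sb c q := sub_comp
lemma sb_pow (c : F) (p : F[X]) (k : ℕ) : sb c (p ^ k) = sb c p ^ k := pow_comp _ _ _
lemma sb_C (c x : F) : sb c (C x) = C x := C_comp
lemma sb_X (c : F) : sb c X = C c⁻¹ * X := X_comp
lemma sb_one (c : F) : sb c 1 = 1 := one_comp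

lemma sb_add (c : F) (p q : F[X]) : sb c (p + q) = sb c p + sb c q := add_comp

lemma sb_dvd (c : F) {p q : F[X]} (h : p ∣ q) : sb c p ∣ sb c q := by
  obtain ⟨r, rfl⟩ := h
  exact ⟨sb c r, sb_mul c p r⟩

lemma sb_sb {c : F} (hc : c ≠ 0) (p : F[X]) : sb c⁻¹ (sb c p) = p := by
  unfold sb
  rw [comp_assoc]
  have h : (C c⁻¹ * X : F[X]).comp (C c⁻¹⁻¹ * X) = X := by
    rw [mul_comp, C_comp, X_comp, ← mul_assoc, ← C_mul, inv_inv, inv_mul_cancel₀ hc, C_1, one_mul]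
  rw [h, comp_X]

lemma sb_sb' {c : F} (hc : c ≠ 0) (p : F[X]) : sb c (sb c⁻¹ p) = p := by
  have h := sb_sb (inv_ne_zero hc) p
  rwa [inv_inv] at h

lemma sb_coprime {c : F} {p q : F[X]} (h : IsCoprime p q) : IsCoprime (sb c p) (sb c q) := by
  obtain ⟨a, b, hab⟩ := h
  exact ⟨sb c a, sb c b, by rw [← sb_mul, ← sb_mul, ← sb_add, hab, sb_one]⟩

lemma sb_unit {c : F} {p : F[X]} (h : IsUnit p) : IsUnit (sb c p) := by
  obtain ⟨q, hq⟩ := isUnit_iff_exists_inv.1 h
  exact isUnit_iff_exists_inv.2 ⟨sb c q, by rw [← sb_mul, hq, sb_one]⟩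

lemma sb_irr {c : F} (hc : c ≠ 0) {p : F[X]} (h : Irreducible p) : Irreducible (sb c p) := by
  constructor
  · intro hu
    have h1 := sb_unit (c := c⁻¹) hu
    rw [sb_sb hc] at h1
    exact h.not_isUnit h1
  · intro a b hab
    have h1 : p = sb c⁻¹ a * sb c⁻¹ b := by rw [← sb_mul, ← hab, sb_sb hc]
    rcases h.isUnit_or_isUnit h1 with h2 | h2
    · left
      have h3 := sb_unit (c := c) h2
      rwa [sb_sb' hc] at h3
    · right
      have h3 := sb_unit (c := c) h2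
      rwa [sb_sb' hc] at h3

/-- The monic polynomial. -/
noncomputable abbrev nz (g : ℤ[X]) : ℤ[X] := g.integralNormalization

section

variable {g : ℤ[X]} (hg : g ≠ 0) (hn : 1 ≤ g.natDegree)

lemma nz_map (hn : 1 ≤ g.natDegree) (ha : (g.leadingCoeff : F) ≠ 0) :
    (nz g).map (Int.castRingHom F) =
      C ((g.leadingCoeff : F) ^ (g.natDegree - 1)) * sb (g.leadingCoeff : F)
        (g.map (Int.castRingHom F)) := by
  ext i
  unfold sb
  rw [coeff_C_mul, comp_C_mul_X_coeff, coeff_map, coeff_map]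
  have h := congrArg (Int.castRingHom F) (integralNormalization_coeff_mul_leadingCoeff_pow (p := g) i hn)
  rw [map_mul, map_mul, map_pow, map_pow] at h
  have h1 : (Int.castRingHom F) g.leadingCoeff = (g.leadingCoeff : F) := rfl
  rw [h1] at h
  have h2 : (g.leadingCoeff : F) ^ i ≠ 0 := pow_ne_zero _ ha
  rw [inv_pow]
  field_simp
  rw [h]
  ring

lemma nz_eval (hn : 1 ≤ g.natDegree) (x : F) :
    ((nz g).map (Int.castRingHom F)).eval ((g.leadingCoeff : F) * x) =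
      (g.leadingCoeff : F) ^ (g.natDegree - 1) * (g.map (Int.castRingHom F)).eval x := by
  rw [eval_map, eval_map]
  exact integralNormalization_eval₂_leadingCoeff_mul hn (Int.castRingHom F) x

lemma nz_irr (hn : 1 ≤ g.natDegree) (hirr : Irreducible (ov ℚ g)) : Irreducible (ov ℚ (nz g)) := by
  have hg : g ≠ 0 := by
    rintro rfl
    rw [natDegree_zero] at hn
    omega
  have ha : ((g.leadingCoeff : ℤ) : ℚ) ≠ 0 := Int.cast_ne_zero.2 (leadingCoeff_ne_zero.2 hg)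
  show Irreducible ((nz g).map (Int.castRingHom ℚ))
  rw [nz_map hn ha]
  rw [irreducible_isUnit_mul (isUnit_C.2 (pow_ne_zero _ ha).isUnit)]
  exact sb_irr ha hirr

lemma sol (hn : 1 ≤ g.natDegree) (hev : Even g.natDegree) (ha : (g.leadingCoeff : F) ≠ 0) {E : ℤ}
    (x y : F) (h : y ^ 2 = (E : F) * (ov F g).eval x) :
    ((g.leadingCoeff : F) ^ (g.natDegree / 2) * y) ^ 2 =
      ((g.leadingCoeff * E : ℤ) : F) * (ov F (nz g)).eval ((g.leadingCoeff : F) * x) := by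
  have h1 : (ov F (nz g)).eval ((g.leadingCoeff : F) * x) = _ := nz_eval hn x
  rw [h1, mul_pow, h, ← pow_mul, Nat.div_mul_cancel hev.two_dvd]
  have h2 : (g.leadingCoeff : F) ^ g.natDegree =
      (g.leadingCoeff : F) * (g.leadingCoeff : F) ^ (g.natDegree - 1) := by
    rw [← pow_succ', Nat.sub_add_cancel hn]
  rw [h2]
  push_cast
  ring

lemma sol' (hn : 1 ≤ g.natDegree) (hev : Even g.natDegree) (ha : (g.leadingCoeff : F) ≠ 0) {E : ℤ}
    (x y : F) (h : y ^ 2 = ((g.leadingCoeff * E : ℤ) : F) * (ov F (nz g)).eval x) :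
    (((g.leadingCoeff : F) ^ (g.natDegree / 2))⁻¹ * y) ^ 2 =
      (E : F) * (ov F g).eval ((g.leadingCoeff : F)⁻¹ * x) := by
  have h1 := nz_eval (F := F) hn ((g.leadingCoeff : F)⁻¹ * x)
  rw [mul_inv_cancel_left₀ ha] at h1
  have h2 : (g.leadingCoeff : F) ^ g.natDegree =
      (g.leadingCoeff : F) * (g.leadingCoeff : F) ^ (g.natDegree - 1) := by
    rw [← pow_succ', Nat.sub_add_cancel hn]
  have h3 : (g.leadingCoeff : F) ^ (g.natDegree - 1) ≠ 0 := pow_ne_zero _ ha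
  rw [mul_pow, h, inv_pow, ← pow_mul, Nat.div_mul_cancel hev.two_dvd, h2]
  show _ * (_ * ((nz g).map (Int.castRingHom F)).eval x) =
    (E : F) * (g.map (Int.castRingHom F)).eval _
  rw [h1]
  push_cast
  field_simp

lemma Sol_iff (hn : 1 ≤ g.natDegree) (hev : Even g.natDegree) (ha : (g.leadingCoeff : F) ≠ 0)
    (E : ℤ) : Sol F g E ↔ Sol F (nz g) (g.leadingCoeff * E) := by
  constructor
  · rintro ⟨x, y, hy, h⟩
    exact ⟨_, _, mul_ne_zero (pow_ne_zero _ ha) hy, sol hn hev ha x y h⟩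
  · rintro ⟨x, y, hy, h⟩
    exact ⟨_, _, mul_ne_zero (inv_ne_zero (pow_ne_zero _ ha)) hy, sol' hn hev ha x y h⟩

lemma Pt_imp (hn : 1 ≤ g.natDegree) (hev : Even g.natDegree) (ha : (g.leadingCoeff : F) ≠ 0)
    (E : ℤ) (h : F[X]) (hp : Pt F g E h) :
    Pt F (nz g) (g.leadingCoeff * E) (sb (g.leadingCoeff : F) h) := by
  obtain ⟨x, y, u, s, hy, hu, hxy, hd⟩ := hp
  refine ⟨(g.leadingCoeff : F) * x, (g.leadingCoeff : F) ^ (g.natDegree / 2) * y,
    (g.leadingCoeff : F) * u, sb (g.leadingCoeff : F) s, mul_ne_zero (pow_ne_zero _ ha) hy,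
    mul_ne_zero ha hu, sol hn hev ha x y hxy, ?_⟩
  have h1 : ov F (nz g) = C ((g.leadingCoeff : F) ^ (g.natDegree - 1)) *
      sb (g.leadingCoeff : F) (ov F g) := nz_map hn ha
  have h2 : (C ((g.leadingCoeff : F) * x) - X : F[X]) - C ((g.leadingCoeff : F) * u) *
      sb (g.leadingCoeff : F) h * sb (g.leadingCoeff : F) s ^ 2 =
      C (g.leadingCoeff : F) * sb (g.leadingCoeff : F) ((C x - X) - C u * h * s ^ 2) := by
    have h3 : (C (g.leadingCoeff : F) * C (g.leadingCoeff : F)⁻¹ : F[X]) = 1 := by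
      rw [← C_mul, mul_inv_cancel₀ ha, C_1]
    rw [sb_sub, sb_sub, sb_mul, sb_mul, sb_pow, sb_C, sb_C, sb_X, C_mul, C_mul]
    linear_combination (X : F[X]) * h3
  rw [h1, h2]
  refine (IsUnit.mul_left_dvd (isUnit_C.2 (pow_ne_zero _ ha).isUnit)).2 ?_
  exact (sb_dvd _ hd).mul_left _

end

lemma oq_sb {E : Type} [Field E] [CharZero E] (c : ℚ) (h : ℚ[X]) :
    oq E (sb c h) = sb (c : E) (oq E h) := by
  show (sb c h).map (Rat.castHom E) = _
  unfold sb
  rw [Polynomial.map_comp, Polynomial.map_mul, map_C, map_X]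
  congr 2
  simp

lemma HasFake_imp {g : ℤ[X]} (hn : 1 ≤ g.natDegree) (hev : Even g.natDegree) (E : ℤ)
    (h : HasFake g E) : HasFake (nz g) (g.leadingCoeff * E) := by
  have hg : g ≠ 0 := by
    rintro rfl
    rw [natDegree_zero] at hn
    omega
  have ha : ∀ (K : Type) [Field K] [CharZero K], ((g.leadingCoeff : ℤ) : K) ≠ 0 := fun K _ _ =>
    Int.cast_ne_zero.2 (leadingCoeff_ne_zero.2 hg)
  obtain ⟨h, hco, hp, hR⟩ := h
  refine ⟨sb ((g.leadingCoeff : ℤ) : ℚ) h, ?_, ?_, ?_⟩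
  · show IsCoprime _ ((nz g).map (Int.castRingHom ℚ))
    rw [nz_map hn (ha ℚ)]
    refine (isCoprime_mul_unit_left_right (isUnit_C.2 (pow_ne_zero _ (ha ℚ)).isUnit) _ _).2 ?_
    exact sb_coprime hco
  · intro p _
    have h1 := Pt_imp hn hev (ha ℚ_[p]) E _ (hp p)
    rw [oq_sb]
    rwa [Rat.cast_intCast]
  · have h1 := Pt_imp hn hev (ha ℝ) E _ hR
    rw [oq_sb]
    rwa [Rat.cast_intCast]

lemma ELS_iff {g : ℤ[X]} (hn : 1 ≤ g.natDegree) (hev : Even g.natDegree) (E : ℤ) :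
    ELS g E ↔ ELS (nz g) (g.leadingCoeff * E) := by
  have hg : g ≠ 0 := by
    rintro rfl
    rw [natDegree_zero] at hn
    omega
  have ha : ∀ (K : Type) [Field K] [CharZero K], ((g.leadingCoeff : ℤ) : K) ≠ 0 := fun K _ _ =>
    Int.cast_ne_zero.2 (leadingCoeff_ne_zero.2 hg)
  unfold ELS
  rw [Sol_iff hn hev (ha ℝ)]
  constructor
  · rintro ⟨h1, h2⟩
    exact ⟨fun p _ => (Sol_iff hn hev (ha ℚ_[p]) E).1 (h1 p), h2⟩
  · rintro ⟨h1, h2⟩
    exact ⟨fun p _ => (Sol_iff hn hev (ha ℚ_[p]) E).2 (h1 p), h2⟩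

/-! ### Zeros -/

lemma dvd_iff' (g : ℤ[X]) (q : ℕ) (e : ℤ) :
    (q : ℤ) ∣ g.eval e ↔ (g.map (Int.castRingHom (ZMod q))).eval (e : ZMod q) = 0 := by
  rw [← ZMod.intCast_zmod_eq_zero_iff_dvd, eval_map, eval₂_at_intCast]
  rfl

lemma zero_iff {g : ℤ[X]} (hn : 1 ≤ g.natDegree) {q : ℕ} [Fact q.Prime]
    (ha : ((g.leadingCoeff : ℤ) : ZMod q) ≠ 0) :
    (∃ e : ℤ, (q : ℤ) ∣ g.eval e) ↔ ∃ e : ℤ, (q : ℤ) ∣ (nz g).eval e := by
  constructor
  · rintro ⟨e, he⟩
    refine ⟨g.leadingCoeff * e, ?_⟩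
    rw [dvd_iff'] at he ⊢
    push_cast
    rw [nz_eval hn, he, mul_zero]
  · rintro ⟨e, he⟩
    obtain ⟨e', he'⟩ := ZMod.intCast_surjective (((g.leadingCoeff : ℤ) : ZMod q)⁻¹ * (e : ZMod q))
    refine ⟨e', ?_⟩
    rw [dvd_iff'] at he ⊢
    have h1 := nz_eval (F := ZMod q) hn (e' : ZMod q)
    rw [he', mul_inv_cancel_left₀ ha, he] at h1
    rw [he']
    exact (mul_eq_zero.1 h1.symm).resolve_left (pow_ne_zero _ ha)

/-- The zeros modulo `q`. -/
noncomputable def NR (q : ℕ) [NeZero q] (g : ℤ[X]) : Finset (ZMod q) :=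
  Finset.univ.filter fun c => (g.map (Int.castRingHom (ZMod q))).eval c = 0

lemma Zr_card (g : ℤ[X]) {q : ℕ} [hq : Fact q.Prime] : (Zr q g).card = (NR q g).card := by
  haveI : NeZero q := ⟨hq.1.ne_zero⟩
  refine Finset.card_bij (fun c _ => (c : ZMod q)) ?_ ?_ ?_
  · intro c hc
    obtain ⟨-, h⟩ := Finset.mem_filter.1 hc
    rw [dvd_iff'] at h
    exact Finset.mem_filter.2 ⟨Finset.mem_univ _, by exact_mod_cast h⟩
  · intro a ha b hb hab
    have h1 := Finset.mem_range.1 (Finset.mem_filter.1 ha).1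
    have h2 := Finset.mem_range.1 (Finset.mem_filter.1 hb).1
    have h3 := (ZMod.natCast_eq_natCast_iff' a b q).1 hab
    rwa [Nat.mod_eq_of_lt h1, Nat.mod_eq_of_lt h2] at h3
  · intro c hc
    obtain ⟨-, h⟩ := Finset.mem_filter.1 hc
    refine ⟨c.val, Finset.mem_filter.2 ⟨Finset.mem_range.2 (ZMod.val_lt c), ?_⟩, ZMod.natCast_zmod_val c⟩
    rw [dvd_iff']
    have h1 : (((c.val : ℕ) : ℤ) : ZMod q) = c := by
      rw [Int.cast_natCast, ZMod.natCast_zmod_val]
    rw [h1]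
    exact h

lemma NR_card {g : ℤ[X]} (hn : 1 ≤ g.natDegree) {q : ℕ} [hq : Fact q.Prime]
    (ha : ((g.leadingCoeff : ℤ) : ZMod q) ≠ 0) : (NR q (nz g)).card = (NR q g).card := by
  symm
  refine Finset.card_bij (fun c _ => ((g.leadingCoeff : ℤ) : ZMod q) * c) ?_ ?_ ?_
  · intro c hc
    obtain ⟨-, h⟩ := Finset.mem_filter.1 hc
    refine Finset.mem_filter.2 ⟨Finset.mem_univ _, ?_⟩
    rw [nz_eval hn, h, mul_zero]
  · intro a _ b _ hab
    exact mul_left_cancel₀ ha hab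
  · intro c hc
    obtain ⟨-, h⟩ := Finset.mem_filter.1 hc
    refine ⟨((g.leadingCoeff : ℤ) : ZMod q)⁻¹ * c, Finset.mem_filter.2 ⟨Finset.mem_univ _, ?_⟩,
      mul_inv_cancel_left₀ ha c⟩
    have h1 := nz_eval (F := ZMod q) hn (((g.leadingCoeff : ℤ) : ZMod q)⁻¹ * c)
    rw [mul_inv_cancel_left₀ ha, h] at h1
    exact (mul_eq_zero.1 h1.symm).resolve_left (pow_ne_zero _ ha)

lemma wt_tot {f : ℤ[X]} (hm : f.Monic) {q : ℕ} [hq : Fact q.Prime] (n : ℕ)
    (hc : (NR q f).card = n) : wt f q ≤ 4 * n / 2 ^ n := by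
  have hfin : Finite {h : (ZMod q)[X] // h.Monic ∧ Irreducible h ∧ h ∣ rd q f} := by
    have h0 : rd q f ≠ 0 := (hm.map _).ne_zero
    have h1 : {h : (ZMod q)[X] | h.Monic ∧ Irreducible h ∧ h ∣ rd q f} ⊆
        ((UniqueFactorizationMonoid.normalizedFactors (rd q f)).toFinset : Set (ZMod q)[X]) := by
      rintro h ⟨h1, h2, h3⟩
      rw [Finset.mem_coe, Multiset.mem_toFinset]
      obtain ⟨p, hp, hap⟩ := UniqueFactorizationMonoid.exists_mem_normalizedFactors_of_dvd h0 h2 h3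
      have h4 := UniqueFactorizationMonoid.normalize_normalized_factor p hp
      have h5 : normalize h = normalize p := normalize_eq_normalize_iff_associated.2 hap
      rw [h4, h1.normalize_eq_self] at h5
      rwa [h5]
    exact (Finset.finite_toSet _).subset h1
  have h1 : n ≤ fac f q := by
    rw [← hc]
    unfold fac
    have h2 : Nat.card (NR q f) ≤ Nat.card {h : (ZMod q)[X] // h.Monic ∧ Irreducible h ∧ h ∣ rd q f} := by
      refine Nat.card_le_card_of_injective (fun c => ⟨X - C (c : ZMod q), monic_X_sub_C _,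
        irreducible_X_sub_C _, dvd_iff_isRoot.2 (Finset.mem_filter.1 c.2).2⟩) ?_
      intro a b hab
      have h3 : (X - C (a : ZMod q) : (ZMod q)[X]) = X - C (b : ZMod q) := congrArg Subtype.val hab
      have h4 : (a : ZMod q) = b := C_injective (sub_right_injective h3)
      exact Subtype.ext h4
    rwa [Nat.card_eq_fintype_card, Fintype.card_coe] at h2
  have h2 : zer f q = n := by rw [AsmQ.zer_eq, Zr_card, hc]
  unfold wt
  rw [h2]
  refine div_le_div_of_nonneg_left (by positivity) (by positivity) ?_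
  exact_mod_cast Nat.pow_le_pow_right (by norm_num) h1

end GenP

end Pool.Agent.H30Q
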