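import Pool.Agent.H30Q.Stm2
import Pool.Agent.N507.PQ.Hs
import Pool.Agent.N446.M4.Sym

/-!
# Piece LEG of project HQ, second part
-/

set_option autoImplicit false
set_option linter.all false

open Polynomial
open scoped Classical

namespace Pool.Agent.H30Q

open Pool.Agent.N202.M4 (hil IsSymbol)

theorem t_LEG : S_LEG := by
  intro q hq hq2 α u hu
  have hsym : IsSymbol (hil ℚ_[q]) := Pool.Agent.N446.M4.sym_ q
  refine ⟨?_, fun v hv => Pool.Agent.N507.PQ.hil_units hq2 hv hu⟩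
  rintro ⟨k, v, hv, rfl⟩
  have hq0 : (q : ℚ_[q]) ≠ 0 := Nat.cast_ne_zero.2 hq.out.ne_zero
  have hv0 : (v : ℚ_[q]) ≠ 0 := by
    intro h0
    have : v = 0 := Subtype.coe_injective h0
    rw [this] at hv
    exact not_isUnit_zero hv
  have hu0 : (u : ℚ_[q]) ≠ 0 := by
    intro h0
    have : u = 0 := Subtype.coe_injective h0
    rw [this] at hu
    exact not_isUnit_zero hu
  have e1 : (q : ℚ_[q]) ^ (2 * k + 1) * v = ((q : ℚ_[q]) * v) * ((q : ℚ_[q]) ^ k) ^ 2 := by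
    rw [zpow_add₀ hq0, zpow_one, zpow_mul', zpow_ofNat]
    ring
  rw [hsym.symm, e1, Pool.Agent.N424.M4.h_sq hsym hu0 (mul_ne_zero hq0 hv0) (zpow_ne_zero k hq0),
    hsym.mul _ _ _ hu0 hq0 hv0, hsym.symm (u : ℚ_[q]) (q : ℚ_[q]),
    Pool.Agent.N507.PQ.hil_p hq2 hu, Pool.Agent.N507.PQ.hil_units hq2 hu hv, mul_one]

end Pool.Agent.H30Q
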