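import Pool.Agent.H30Q.MEA1

/-!
# Project HQ (helper30), piece MEA, second part: Frobenius elements
-/

set_option autoImplicit false

open Polynomial NumberField Filter Topology
open scoped Classical

namespace Pool.Agent.H30Q

namespace MEAP

open Pool.Agent.W401.Cheb

section gal

variable {N : Type} [Field N] [NumberField N]

/-- The zeros in `N`. -/
abbrev ZN (f : ℤ[X]) (N : Type) [Field N] [NumberField N] : Type := {s : 𝓞 N // aeval s f = 0}

theorem finite_ZN {f : ℤ[X]} (hm : f.Monic) : Finite (ZN f N) := by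
  have h0 : f.map (algebraMap ℤ (𝓞 N)) ≠ 0 := (hm.map _).ne_zero
  have : Finite {s : 𝓞 N // s ∈ (f.map (algebraMap ℤ (𝓞 N))).roots.toFinset} := inferInstance
  refine Finite.of_injective (fun s : ZN f N => (⟨s.1, ?_⟩ :
    {s : 𝓞 N // s ∈ (f.map (algebraMap ℤ (𝓞 N))).roots.toFinset})) ?_
  · rw [Multiset.mem_toFinset, mem_roots h0, IsRoot.def, eval_map_algebraMap]
    exact s.2
  · intro s t h
    exact Subtype.ext (congrArg (fun z => z.1) h)

/-- The action on the zeros. -/
noncomputable def act {f : ℤ[X]} (σ : Gal(N/ℚ)) (s : ZN f N) : ZN f N :=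
  ⟨σ • s.1, by
    have h1 : σ • (aeval s.1 f) = aeval (σ • s.1) f := by
      have h2 := aeval_algHom_apply (MulSemiringAction.toAlgHom ℤ (𝓞 N) σ) s.1 f
      exact h2.symm
    rw [← h1, s.2, smul_zero]⟩

theorem act_coe {f : ℤ[X]} (σ : Gal(N/ℚ)) (s : ZN f N) : (act σ s : 𝓞 N) = σ • (s : 𝓞 N) := rfl

/-- The number of the fixed zeros. -/
noncomputable def kf (f : ℤ[X]) (σ : Gal(N/ℚ)) : ℕ := Nat.card {s : ZN f N // act σ s = s}

/-- The cycle of a zero. -/
def cyc {f : ℤ[X]} (σ : Gal(N/ℚ)) (s : ZN f N) : Set (ZN f N) := {t | ∃ i : ℕ, (act σ)^[i] s = t}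

/-- The number of the cycles. -/
noncomputable def cf (f : ℤ[X]) (σ : Gal(N/ℚ)) : ℕ := Nat.card (Set.range fun s : ZN f N => cyc σ s)

theorem act_iterate {f : ℤ[X]} (σ : Gal(N/ℚ)) (i : ℕ) (s : ZN f N) :
    (((act σ)^[i] s : ZN f N) : 𝓞 N) = (σ ^ i) • (s : 𝓞 N) := by
  induction i with
  | zero => rw [Function.iterate_zero, id, pow_zero, one_smul]
  | succ i ih => rw [Function.iterate_succ_apply', act_coe, ih, pow_succ', mul_smul]

theorem cyc_eq {f : ℤ[X]} (σ : Gal(N/ℚ)) (s t : ZN f N) : cyc σ s = cyc σ t ↔ t ∈ cyc σ s := by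
  constructor
  · intro h
    rw [h]
    exact ⟨0, rfl⟩
  · rintro ⟨i, rfl⟩
    ext u
    constructor
    · rintro ⟨j, rfl⟩
      obtain ⟨m, hm⟩ : ∃ m : ℕ, i + m = orderOf σ * i := by
        have : 1 ≤ orderOf σ := orderOf_pos σ
        exact ⟨orderOf σ * i - i, by
          have h2 : i ≤ orderOf σ * i := Nat.le_mul_of_pos_left i (by omega)
          omega⟩
      refine ⟨m + j, ?_⟩
      apply Subtype.ext
      rw [act_iterate, act_iterate, act_iterate, ← mul_smul, ← pow_add]
      have e : m + j + i = j + orderOf σ * i := by omega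
      rw [e, pow_add, pow_mul, pow_orderOf_eq_one, one_pow, mul_one]
    · rintro ⟨j, rfl⟩
      refine ⟨j + i, ?_⟩
      rw [Function.iterate_add_apply]

end gal

section frob

variable {N : Type} [Field N] [NumberField N] {p : ℕ} [Fact p.Prime] {f : ℤ[X]}

/-- The zeros in `N` and in the algebraic closure of the residue field. -/
theorem bij (hm : f.Monic) (hs : (rd p f).Separable) (hN : Nat.card (ZN f N) = f.natDegree)
    (φ : 𝓞 N →+* AlgebraicClosure (ZMod p)) (hφ : Function.Injective fun s : ZN f N => φ s.1) :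
    ∀ x, x ∈ RR p f ↔ ∃ s : ZN f N, φ s.1 = x := by
  have hfin := finite_ZN (N := N) hm
  have : Fintype (ZN f N) := Fintype.ofFinite _
  have hφf : ∀ s : ZN f N, φ s.1 ∈ RR p f := by
    intro s
    rw [mem_RR hm]
    have h1 : aeval (φ s.1) (rd p f) = φ (aeval s.1 f) := by
      rw [aeval_def, aeval_def, eval₂_map, hom_eval₂]
      congr 1
      exact RingHom.ext_int _ _
    rw [h1, s.2, map_zero]
  have himg : (Finset.univ.image fun s : ZN f N => φ s.1) = RR p f := by
    refine Finset.eq_of_subset_of_card_le ?_ ?_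
    · intro x hx
      obtain ⟨s, _, rfl⟩ := Finset.mem_image.1 hx
      exact hφf s
    · rw [Finset.card_image_of_injective _ hφ, Finset.card_univ, card_RR hm hs, ← hN,
        Nat.card_eq_fintype_card]
  intro x
  rw [← himg, Finset.mem_image]
  constructor
  · rintro ⟨s, _, h⟩
    exact ⟨s, h⟩
  · rintro ⟨s, h⟩
    exact ⟨s, Finset.mem_univ _, h⟩

/-- Modulo a prime which does not divide the discriminant different zeros have different images. -/
theorem inj_of (hm : f.Monic) (hs : (rd p f).Separable)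
    (hprod : f.map (algebraMap ℤ (𝓞 N)) = ∏ᶠ s : ZN f N, (X - C s.1))
    (φ : 𝓞 N →+* AlgebraicClosure (ZMod p)) : Function.Injective fun s : ZN f N => φ s.1 := by
  have hfin := finite_ZN (N := N) hm
  have : Fintype (ZN f N) := Fintype.ofFinite _
  rw [finprod_eq_prod_of_fintype] at hprod
  have h1 : (rd p f).map (algebraMap (ZMod p) (AlgebraicClosure (ZMod p))) =
      ∏ s : ZN f N, (X - C (φ s.1)) := by
    have h2 := congrArg (Polynomial.map φ) hprod
    rw [Polynomial.map_prod, Polynomial.map_map] at h2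
    rw [Polynomial.map_map]
    refine Eq.trans ?_ (h2.trans ?_)
    · congr 1
      exact RingHom.ext_int _ _
    · refine Finset.prod_congr rfl fun s _ => ?_
      rw [Polynomial.map_sub, map_X, map_C]
  have h3 : ((rd p f).map (algebraMap (ZMod p) (AlgebraicClosure (ZMod p)))).Separable := hs.map
  rw [h1] at h3
  have h4 : (∏ s : ZN f N, (X - C (φ s.1))).roots.Nodup := nodup_roots h3
  have h5 : (∏ s : ZN f N, (X - C (φ s.1))).roots = Multiset.map (fun s : ZN f N => φ s.1) Finset.univ.val := by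
    have h6 := roots_multiset_prod_X_sub_C (Multiset.map (fun s : ZN f N => φ s.1) Finset.univ.val)
    rw [Multiset.map_map] at h6
    exact h6
  rw [h5] at h4
  intro s t hst
  exact Multiset.inj_on_of_nodup_map h4 s (Finset.mem_univ_val s) t (Finset.mem_univ_val t) hst

variable (hm : f.Monic) (hs : (rd p f).Separable) (hN : Nat.card (ZN f N) = f.natDegree)
  (φ : 𝓞 N →+* AlgebraicClosure (ZMod p)) (hφ : Function.Injective fun s : ZN f N => φ s.1)
  {σ : Gal(N/ℚ)} (hσ : HasFrob p φ σ)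

include hσ in
theorem frob_act (s : ZN f N) : φ (act σ s).1 = φ s.1 ^ p := hσ s.1

include hσ in
theorem frob_iterate (s : ZN f N) (i : ℕ) : φ ((act σ)^[i] s).1 = φ s.1 ^ (p ^ i) := by
  induction i with
  | zero => rw [Function.iterate_zero, id, pow_zero, pow_one]
  | succ i ih => rw [Function.iterate_succ_apply', frob_act φ hσ, ih, ← pow_mul, pow_succ]

include hm hs hN hφ hσ in
theorem zer_frob : zer f p = kf f σ := by
  have hb := bij hm hs hN φ hφ
  have h0 : ((RR p f).filter fun x => x ^ p = x).card =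
      Nat.card {x // x ∈ (RR p f).filter fun x => x ^ p = x} := by
    rw [Nat.card_eq_fintype_card, Fintype.card_coe]
  rw [zer_eq hm, kf, h0]
  symm
  refine Nat.card_eq_of_bijective (fun s : {s : ZN f N // act σ s = s} =>
    (⟨φ s.1.1, Finset.mem_filter.2 ⟨(hb _).2 ⟨s.1, rfl⟩, by
      rw [← frob_act φ hσ, s.2]⟩⟩ : {x // x ∈ (RR p f).filter fun x => x ^ p = x})) ⟨?_, ?_⟩
  · intro s t h
    exact Subtype.ext (hφ (congrArg (fun z => z.1) h))
  · rintro ⟨x, hx⟩
    obtain ⟨h1, h2⟩ := Finset.mem_filter.1 hx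
    obtain ⟨s, rfl⟩ := (hb x).1 h1
    refine ⟨⟨s, ?_⟩, rfl⟩
    apply hφ
    show φ (act σ s).1 = φ s.1
    rw [frob_act φ hσ, h2]

include hm hs hN hφ hσ in
theorem fac_frob : fac f p = cf f σ := by
  have hb := bij hm hs hN φ hφ
  rw [fac_eq hm, cf]
  have e : Set.range (fun x : RR p f => minpoly (ZMod p) (x : AlgebraicClosure (ZMod p))) =
      Set.range fun s : ZN f N => minpoly (ZMod p) (φ s.1) := by
    ext g
    constructor
    · rintro ⟨⟨x, hx⟩, rfl⟩
      obtain ⟨s, rfl⟩ := (hb x).1 hx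
      exact ⟨s, rfl⟩
    · rintro ⟨s, rfl⟩
      exact ⟨⟨φ s.1, (hb _).2 ⟨s, rfl⟩⟩, rfl⟩
  rw [e]
  refine card_range_eq _ _ fun s t => ?_
  rw [cyc_eq, minpoly_eq_iff (RR p f) (RR_stable hm) ((hb _).2 ⟨s, rfl⟩) ((hb _).2 ⟨t, rfl⟩)]
  constructor
  · rintro ⟨i, hi⟩
    rw [← frob_iterate φ hσ] at hi
    exact ⟨i, (hφ hi).symm⟩
  · rintro ⟨i, rfl⟩
    exact ⟨i, frob_iterate φ hσ s i⟩

end frob

end MEAP

end Pool.Agent.H30Q
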