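import Pool.Agent.H30Q.Asm

/-! # The main theorem from the pieces -/

set_option autoImplicit false
set_option linter.all false

open Polynomial IsDedekindDomain Matrix NumberField
open scoped Classical

namespace Pool.Agent.H30Q

open Pool.Agent.N783.PF (HV)
open Pool.Agent.N874.PP (Ev)
open Pool.Agent.N202.M4 (hil IsSymbol)

namespace AsmP

lemma exists_field {n : ℕ} {f : ℤ[X]} (hyp : Hyp n f) (hirr : Irreducible (ov ℚ f)) :
    ∃ (L : Type) (_ : Field L) (_ : NumberField L) (θ : L), Rt n f θ := by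
  haveI : Fact (Irreducible (ov ℚ f)) := ⟨hirr⟩
  have h0 : ov ℚ f ≠ 0 := hirr.ne_zero
  haveI : Module.Finite ℚ (AdjoinRoot (ov ℚ f)) := (AdjoinRoot.powerBasis h0).finite
  haveI hN : NumberField (AdjoinRoot (ov ℚ f)) := NumberField.of_module_finite ℚ _
  refine ⟨AdjoinRoot (ov ℚ f), inferInstance, hN, AdjoinRoot.root (ov ℚ f), hyp.mon, hyp.deg,
    hirr, ?_, ?_⟩
  · have h1 : eval₂ ((AdjoinRoot.of (ov ℚ f)).comp (Int.castRingHom ℚ))
        (AdjoinRoot.root (ov ℚ f)) f = 0 := by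
      rw [← eval₂_map]
      exact AdjoinRoot.eval₂_root (ov ℚ f)
    rw [aeval_def, ← h1]
    congr 1
  · have h1 := (AdjoinRoot.powerBasis h0).finrank
    rw [AdjoinRoot.powerBasis_dim, ov_deg ℚ hyp.mon hyp.deg] at h1
    have key : ∀ (i j : Algebra ℚ (AdjoinRoot (ov ℚ f))),
        @Module.finrank ℚ (AdjoinRoot (ov ℚ f)) _ _ i.toModule =
        @Module.finrank ℚ (AdjoinRoot (ov ℚ f)) _ _ j.toModule := by
      intro i j
      rw [Subsingleton.elim i j]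
    rw [← h1]

end AsmP

open AsmP

theorem main (hEE : P_EE) (hGMB : S_GMB) (hPRF : P_PRF) (hHEN : S_HEN) (hREA : S_REA)
    (hGPT : P_GPT) (hQPT : P_QPT) (hPI : P_PI) (hEVN : S_EVN) (hBAD : S_BAD) (hPIG : P_PIG)
    (hTOT : S_TOT) (hIRR : S_IRR) (hCHEB : P_CHEB) (hWEI : S_WEI) (hSMP : S_SMP) (hSQR : S_SQR)
    (hLIN1 : S_LIN1) : S_MAIN := by
  intro n f hyp D₀ hD₀ hloc hR T N hT
  obtain ⟨L, _, _, θ, hθ⟩ := exists_field hyp (hIRR n f hyp)
  have hn : 1 ≤ n := by have := hyp.six; omega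
  obtain ⟨W, hTW, hW⟩ := hBAD n (T * D₀.natAbs) f L θ hn hθ
    (mul_ne_zero hT (Int.natAbs_ne_zero.2 hD₀))
  have hTW' : T ∣ W := (dvd_mul_right _ _).trans hTW
  have hDW : D₀ ∣ (W : ℤ) := by
    rw [← Int.natAbs_dvd_natAbs, Int.natAbs_natCast]
    exact (dvd_mul_left _ _).trans hTW
  obtain ⟨m₀, hm₀⟩ := hPIG n W f L θ hyp.six hyp.even hθ hW
  obtain ⟨P, hPc, hP⟩ := exists_P hTOT hyp hW.ne (W + N) (m₀ + 1)
  have hPpr : ∀ p ∈ P, p.Prime := fun p hp => (hP p hp).1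
  have hPW : ∀ p ∈ P, ¬ p ∣ W := by
    intro p hp hd
    have := Nat.le_of_dvd (Nat.pos_of_ne_zero hW.ne) hd
    have := (hP p hp).2.1
    omega
  obtain ⟨r, A, hA⟩ := hm₀ P (by omega) fun p hp => ⟨(hP p hp).1, hPW p hp, (hP p hp).2.2.2⟩
  have hAc : ∀ i, IsCoprime (ov ℚ (A i)) (ov ℚ f) := fun i => cop_of hθ (hA.ne i)
  have hAsq : ∀ i, IsSquare (nm (ov ℚ f) (ov ℚ (A i))) := by
    intro i
    rw [← norm_eq hθ]
    exact hA.sq i
  have hP0 : (∏ p ∈ P, p) ≠ 0 := Finset.prod_ne_zero_iff.2 fun p hp => (hPpr p hp).ne_zero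
  set D₁ : ℤ := D₀ * ((∏ p ∈ P, p : ℕ) : ℤ) with hD₁
  have hP2 : ∀ p ∈ P, p ≠ 2 := by
    rintro p hp rfl
    exact hPW 2 hp (dvd_trans (by norm_num) hW.eight)
  -- valuations at the primes in `P`
  have hval : ∀ (S : Finset ℕ), (∀ q ∈ S, q.Prime) → (∀ q ∈ S, ¬ q ∣ W) → ∀ p ∈ S,
      (p : ℤ) ∣ D₀ * ((∏ q ∈ S, q : ℕ) : ℤ) ∧ ¬ (p : ℤ) ^ 2 ∣ D₀ * ((∏ q ∈ S, q : ℕ) : ℤ) := by
    intro S hS hSW p hp
    refine ⟨Dvd.dvd.mul_left (by exact_mod_cast Finset.dvd_prod_of_mem (fun q : ℕ => q) hp) _, ?_⟩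
    intro hd
    have h1 : IsCoprime ((p : ℤ) ^ 2) D₀ := by
      refine IsCoprime.pow_left ?_
      rw [(Nat.prime_iff_prime_int.1 (hS p hp)).coprime_iff_not_dvd]
      intro h2
      exact hSW p hp (by exact_mod_cast h2.trans hDW)
    have h2 := h1.dvd_of_dvd_mul_left hd
    have h3 : p ^ 2 ∣ ∏ q ∈ S, q := by exact_mod_cast h2
    have h4 := (squarefree_prod hS) p (by rw [← pow_two]; exact h3)
    exact (hS p hp).one_lt.ne' (Nat.isUnit_iff.1 h4)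
  -- the vectors at the primes in `P`
  have hV : ∀ p : ℕ, ∃ V : ℕ → Fin r → ℤ, p ∈ P → ∀ [Fact p.Prime], (∀ c i, V c i = 1 ∨ V c i = -1) ∧
      ∀ (D₂ : ℤ) (x y : ℚ_[p]), (p : ℤ) ∣ D₂ → ¬ (p : ℤ) ^ 2 ∣ D₂ →
      IsSquare ((D₁ * D₂ : ℤ) : ℚ_[p]) → y ≠ 0 → y ^ 2 = (D₂ : ℚ_[p]) * (ov ℚ_[p] f).eval x →
      ∃ c < p, (p : ℤ) ∣ f.eval (c : ℤ) ∧
        ∀ i, ee n (ov ℚ_[p] f) (C x - X) (ov ℚ_[p] (A i)) = V c i := by
    intro p
    by_cases hp : p ∈ P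
    · haveI : Fact p.Prime := ⟨hPpr p hp⟩
      obtain ⟨V, hV⟩ := exists_vals hPI hEE hGMB hyp (hP2 p hp) (hW.sep p (hPpr p hp) (hPW p hp))
        (hval P hPpr hPW p hp).1 (hval P hPpr hPW p hp).2 hAc hAsq
      exact ⟨V, fun _ _ => hV⟩
    · exact ⟨fun _ _ => 1, fun h => absurd h hp⟩
  choose V hV using hV
  obtain ⟨τ, hτ1, hτ2⟩ := exists_tau P (fun p => Zr p f)
    (fun p hp => by haveI : Fact p.Prime := ⟨hPpr p hp⟩; exact card_Zr hyp.mon hyp.deg) V hA.many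
  -- the primes in `J`
  obtain ⟨J, e, hJ, hJτ⟩ := exists_J hCHEB hLIN1 hyp hθ hA.ne hA.ind (m := W * ∏ p ∈ P, p)
    (mul_ne_zero hW.ne hP0) (W + ∑ p ∈ P, p) τ hτ1
  have hJpr : ∀ q ∈ J, q.Prime := fun q hq => (hJ q hq).1
  have hJW : ∀ q ∈ J, ¬ q ∣ W := by
    intro p hp hd
    have := Nat.le_of_dvd (Nat.pos_of_ne_zero hW.ne) hd
    have := (hJ p hp).2.1
    omega
  have hdis : Disjoint P J := by
    rw [Finset.disjoint_left]
    intro p hp hq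
    have h1 : p ≤ ∑ p ∈ P, p :=
      Finset.single_le_sum (f := fun q : ℕ => q) (fun _ _ => Nat.zero_le _) hp
    have := (hJ p hq).2.1
    omega
  have hUpr : ∀ q ∈ P ∪ J, q.Prime := fun q hq => (Finset.mem_union.1 hq).elim (hPpr q) (hJpr q)
  have hUW : ∀ q ∈ P ∪ J, ¬ q ∣ W := fun q hq => (Finset.mem_union.1 hq).elim (hPW q) (hJW q)
  have hprod : ∏ q ∈ P ∪ J, q = (∏ p ∈ P, p) * ∏ q ∈ J, q := Finset.prod_union hdis
  set E : ℕ := ∏ q ∈ P ∪ J, q with hE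
  have hE0 : E ≠ 0 := Finset.prod_ne_zero_iff.2 fun p hp => (hUpr p hp).ne_zero
  have hUm : ∀ q ∈ P ∪ J, q % W = 1 % W := by
    intro q hq
    rcases Finset.mem_union.1 hq with h | h
    · exact (hP q h).2.2.1
    · have h1 : q ≡ 1 [MOD W * ∏ p ∈ P, p] := (hJ q h).2.2.1
      exact Nat.ModEq.of_mul_right _ h1
  have hE1 : (W : ℤ) ∣ (E : ℤ) - 1 := prod_mod _ hUm
  have hpE : ∀ p : ℕ, p.Prime → p ∣ E → p ∈ P ∪ J := by
    intro p hp hd
    by_contra hn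
    exact coprime_of_primes hUpr hp hn hd
  have hcopE : IsCoprime (E : ℤ) D₀ := by
    rw [hE, Nat.cast_prod]
    refine IsCoprime.prod_left fun q hq => ?_
    rw [(Nat.prime_iff_prime_int.1 (hUpr q hq)).coprime_iff_not_dvd]
    intro h2
    exact hUW q hq (by exact_mod_cast h2.trans hDW)
  have hroot : ∀ p : ℕ, p.Prime → p ∣ E → ¬ p ∣ W ∧
      ∃ e : ℤ, (rd p f).eval ((e : ℤ) : ZMod p) = 0 := by
    intro p hp hd
    have h1 := hpE p hp hd
    refine ⟨hUW p h1, ?_⟩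
    rcases Finset.mem_union.1 h1 with h | h
    · obtain ⟨R, hR1, hR2⟩ := (hP p h).2.2.2
      have : R.Nonempty := by rw [← Finset.card_pos, hR1]; exact hn
      obtain ⟨ρ, hρ⟩ := this
      refine ⟨ρ.cast, ?_⟩
      rw [ZMod.intCast_cast, ZMod.cast_id', id]
      exact hR2 ρ hρ
    · exact ⟨e p, (hJ p h).2.2.2.1.root⟩
  refine ⟨E, squarefree_prod hUpr, ?_, ?_, hcopE, fun p _ => ?_, ?_, ?_⟩
  · have hne : P.Nonempty := by rw [← Finset.card_pos]; omega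
    obtain ⟨p, hp⟩ := hne
    have h1 : p ∣ E := Finset.dvd_prod_of_mem (fun q : ℕ => q) (Finset.mem_union_left _ hp)
    have h2 := Nat.le_of_dvd (Nat.pos_of_ne_zero hE0) h1
    have := (hP p hp).2.1
    omega
  · have h1 : (T : ℤ) ∣ (E : ℤ) - 1 := (Int.natCast_dvd_natCast.2 hTW').trans hE1
    have h2 : (1 : ℕ) ≡ E [MOD T] := (Nat.modEq_iff_dvd).2 (by simpa using h1)
    exact h2.symm
  · exact els hWEI hSMP hSQR hyp hW hD₀ hDW hE0 hE1 hroot hloc p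
  · exact els_real hE0 hR
  · intro h hh hpt hptR
    -- the points
    have hsymR := Pool.Agent.N835.PQ.symR
    have key : ∀ p : ℕ, p ∈ P → ∃ c ∈ Zr p f, ∀ i, eeP p n f h (ov ℚ (A i)) = V p c i := by
      intro p hp
      haveI hf : Fact p.Prime := ⟨hPpr p hp⟩
      obtain ⟨x, y, hy, hxy, hee⟩ := ee_pt' hEE (Pool.Agent.N446.M4.sym_ p) hyp
        (cop_loc ℚ_[p] hh) (hpt p)
      have hmem : p ∈ P ∪ J := Finset.mem_union_left _ hp
      have hJ2 : ∃ s : ℚ_[p], s ≠ 0 ∧ (((∏ q ∈ J, q : ℕ) : ℤ) : ℚ_[p]) = s ^ 2 := by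
        refine hSQR (W * ∏ p ∈ P, p) _ p (mul_ne_zero hW.ne hP0) (Dvd.dvd.mul_right hW.eight _)
          (Dvd.dvd.mul_left (Finset.dvd_prod_of_mem (fun q : ℕ => q) hp) _) ?_
        exact prod_mod _ fun q hq => (hJ q hq).2.2.1
      obtain ⟨s, -, hs⟩ := hJ2
      have hsq : IsSquare ((D₁ * (D₀ * (E : ℤ)) : ℤ) : ℚ_[p]) := by
        refine ⟨(D₁ : ℚ_[p]) * s, ?_⟩
        have h1 : (D₁ * (D₀ * (E : ℤ)) : ℤ) = D₁ * D₁ * ((∏ q ∈ J, q : ℕ) : ℤ) := by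
          rw [hprod, hD₁]
          push_cast
          ring
        rw [h1, Int.cast_mul, hs, Int.cast_mul]
        ring
      obtain ⟨c, hc1, hc2, hc3⟩ := (hV p hp).2 (D₀ * E) x y (hval (P ∪ J) hUpr hUW p hmem).1
        (hval (P ∪ J) hUpr hUW p hmem).2 hsq hy hxy
      refine ⟨c, Finset.mem_filter.2 ⟨Finset.mem_range.2 hc1, hc2⟩, fun i => ?_⟩
      rw [eeP, dif_pos hf.out, oq_ov, hee _ (cop_locA _ (hAc i)) (sq_loc hGMB _ hyp (hAsq i))]
      exact hc3 i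
    choose! c hc1 hc2 using key
    obtain ⟨i, hi⟩ := hτ2 c hc1
    apply hi
    -- the symbols
    have hJs : ∀ q ∈ J, eeP q n f h (ov ℚ (A i)) = sgn (A i) q (e q) := by
      intro q hq
      haveI hf : Fact q.Prime := ⟨hJpr q hq⟩
      obtain ⟨x, y, hy, hxy, hee⟩ := ee_pt' hEE (Pool.Agent.N446.M4.sym_ q) hyp
        (cop_loc ℚ_[q] hh) (hpt q)
      have hmem : q ∈ P ∪ J := Finset.mem_union_right _ hq
      rw [eeP, dif_pos hf.out, oq_ov, hee _ (cop_locA _ (hAc i)) (sq_loc hGMB _ hyp (hAsq i))]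
      obtain ⟨g, g1, g2, g3, g4⟩ := (hJ q hq).2.2.2.1
      have hq2 : q ≠ 2 := by
        rintro rfl
        exact hJW 2 hq (dvd_trans (by norm_num) hW.eight)
      rw [hQPT q hq2 n f (D₀ * E) (e q) g (A i) (by have := hyp.six; omega) hyp.even hyp.mon
        hyp.deg (hval (P ∪ J) hUpr hUW q hmem).1 (hval (P ∪ J) hUpr hUW q hmem).2 g1 g2 g3 g4
        ((hJ q hq).2.2.2.2 i) (hAsq i) x y hy hxy]
      unfold sgn
      split_ifs <;> rfl
    have hout : ∀ p : ℕ, p ∉ P ∪ J → eeP p n f h (ov ℚ (A i)) = 1 := by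
      intro p hp
      by_cases hpp : p.Prime
      · haveI hf : Fact p.Prime := ⟨hpp⟩
        rw [eeP, dif_pos hpp, oq_ov]
        by_cases hpW : p ∣ W
        · obtain ⟨Y, hY⟩ := hA.near i
          exact ee_W hEE hGMB hHEN hyp hpW hY (cop_loc ℚ_[p] hh)
        · obtain ⟨x, y, hy, hxy, hee⟩ := ee_pt' hEE (Pool.Agent.N446.M4.sym_ p) hyp
            (cop_loc ℚ_[p] hh) (hpt p)
          rw [hee _ (cop_locA _ (hAc i)) (sq_loc hGMB _ hyp (hAsq i))]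
          refine ee_good hEVN hGPT hGMB hyp hθ hW hpW (hA.ne i) (hAsq i) ?_ (D := D₀ * E) ?_ hy hxy
          · intro 𝔓 h𝔓
            refine hA.ev i 𝔓 fun p' hp' hmem => ?_
            have hne : p ≠ p' := by
              rintro rfl
              exact hp (Finset.mem_union_left _ hp')
            have hco : IsCoprime (p : ℤ) (p' : ℤ) :=
              Nat.isCoprime_iff_coprime.2 ((Nat.coprime_primes hpp (hPpr p' hp')).2 hne)
            obtain ⟨a, b, hab⟩ := hco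
            have h1 : (1 : 𝓞 L) ∈ 𝔓.asIdeal := by
              have h2 : (1 : 𝓞 L) = (a : 𝓞 L) * (p : 𝓞 L) + (b : 𝓞 L) * (p' : 𝓞 L) := by
                have := congrArg (Int.cast : ℤ → 𝓞 L) hab
                push_cast at this
                exact this.symm
              rw [h2]
              exact Ideal.add_mem _ (Ideal.mul_mem_left _ _ h𝔓) (Ideal.mul_mem_left _ _ hmem)
            exact 𝔓.isPrime.ne_top ((Ideal.eq_top_iff_one _).2 h1)
          · intro hd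
            rcases (Nat.prime_iff_prime_int.1 hpp).dvd_or_dvd hd with h3 | h3
            · exact hpW (by exact_mod_cast h3.trans hDW)
            · exact hp (hpE p hpp (by exact_mod_cast h3))
      · rw [eeP, dif_neg hpp]
    obtain ⟨T₀, hT1, hT2⟩ := hPRF n f h (ov ℚ (A i)) hn hyp.mon hyp.deg hh (hAc i)
    have hRe : ee n (ov ℝ f) (oq ℝ h) (oq ℝ (ov ℚ (A i))) = 1 := by
      rw [oq_ov]
      exact ee_R hEE hGMB hREA hyp (hA.pos i) (cop_locA _ (hAc i)) (cop_loc ℝ hh)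
    rw [hRe, one_mul] at hT2
    have h1 : ∏ p ∈ T₀, eeP p n f h (ov ℚ (A i)) = ∏ p ∈ P ∪ J, eeP p n f h (ov ℚ (A i)) := by
      have h2 : ∏ p ∈ T₀, eeP p n f h (ov ℚ (A i)) =
          ∏ p ∈ T₀ ∪ (P ∪ J), eeP p n f h (ov ℚ (A i)) :=
        Finset.prod_subset Finset.subset_union_left fun p _ hp => hT1 p hp
      have h3 : ∏ p ∈ P ∪ J, eeP p n f h (ov ℚ (A i)) =
          ∏ p ∈ T₀ ∪ (P ∪ J), eeP p n f h (ov ℚ (A i)) :=
        Finset.prod_subset Finset.subset_union_right fun p _ hp => hout p hp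
      rw [h2, h3]
    rw [h1, Finset.prod_union hdis, Finset.prod_congr rfl hJs, hJτ i,
      Finset.prod_congr rfl fun p hp => hc2 p hp i] at hT2
    rcases hτ1 i with h5 | h5
    · rw [h5, mul_one] at hT2
      rw [h5, hT2]
    · rw [h5] at hT2 ⊢
      linarith

end Pool.Agent.H30Q
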