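import Pool.Agent.H30Q.AsmF
import Pool.Agent.H30Q.Main

/-! # The main theorem of the second part from the pieces -/

set_option autoImplicit false
set_option linter.all false

open Polynomial IsDedekindDomain Matrix NumberField Filter Topology
open scoped Classical

namespace Pool.Agent.H30Q

open Pool.Agent.N783.PF (HV)
open Pool.Agent.N874.PP (Ev)
open Pool.Agent.N202.M4 (hil IsSymbol)

namespace AsmQ

open AsmP

lemma zer_eq (f : ℤ[X]) (q : ℕ) : zer f q = (Zr q f).card := by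
  have h : (do let a ← Finset.range q; pure (a : ℤ) : Finset ℤ) =
      (Finset.range q).image (fun a : ℕ => (a : ℤ)) := by
    ext z
    simp only [Finset.bind_def, Finset.pure_def, Finset.mem_sup, Finset.mem_singleton,
      Finset.mem_image]
    constructor
    · rintro ⟨a, h1, h2⟩
      exact ⟨a, h1, h2.symm⟩
    · rintro ⟨a, h1, h2⟩
      exact ⟨a, h1, h2.symm⟩
  unfold zer Zr
  rw [h, Finset.filter_image, Finset.card_image_of_injective _ Nat.cast_injective]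

lemma exists_field' {n : ℕ} {f : ℤ[X]} (hyp : Hy n f) (hirr : Irreducible (ov ℚ f)) :
    ∃ (L : Type) (_ : Field L) (_ : NumberField L) (θ : L), Rt n f θ := by
  haveI : Fact (Irreducible (ov ℚ f)) := ⟨hirr⟩
  have h0 : ov ℚ f ≠ 0 := hirr.ne_zero
  haveI : Module.Finite ℚ (AdjoinRoot (ov ℚ f)) := (AdjoinRoot.powerBasis h0).finite
  haveI hN : NumberField (AdjoinRoot (ov ℚ f)) := NumberField.of_module_finite ℚ _
  refine ⟨AdjoinRoot (ov ℚ f), inferInstance, hN, AdjoinRoot.root (ov ℚ f), hyp.mon, hyp.deg,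
    hirr, ?_, ?_⟩
  · have h1 : eval₂ ((AdjoinRoot.of (ov ℚ f)).comp (Int.castRingHom ℚ))
        (AdjoinRoot.root (ov ℚ f)) f = 0 := by
      rw [← eval₂_map]
      exact AdjoinRoot.eval₂_root (ov ℚ f)
    rw [aeval_def, ← h1]
    congr 1
  · have h1 := (AdjoinRoot.powerBasis h0).finrank
    rw [AdjoinRoot.powerBasis_dim, ov_deg ℚ hyp.mon hyp.deg] at h1
    have key : ∀ (i j : Algebra ℚ (AdjoinRoot (ov ℚ f))),
        @Module.finrank ℚ (AdjoinRoot (ov ℚ f)) _ _ i.toModule =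
        @Module.finrank ℚ (AdjoinRoot (ov ℚ f)) _ _ j.toModule := by
      intro i j
      rw [Subsingleton.elim i j]
    rw [← h1]

lemma val_facts {W : ℕ} {D₀ : ℤ} (hDW : D₀ ∣ (W : ℤ)) (S : Finset ℕ) (hS : ∀ q ∈ S, q.Prime)
    (hSW : ∀ q ∈ S, ¬ q ∣ W) : ∀ p ∈ S,
      (p : ℤ) ∣ D₀ * ((∏ q ∈ S, q : ℕ) : ℤ) ∧ ¬ (p : ℤ) ^ 2 ∣ D₀ * ((∏ q ∈ S, q : ℕ) : ℤ) := by
  intro p hp
  refine ⟨Dvd.dvd.mul_left (by exact_mod_cast Finset.dvd_prod_of_mem (fun q : ℕ => q) hp) _, ?_⟩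
  intro hd
  have h1 : IsCoprime ((p : ℤ) ^ 2) D₀ := by
    refine IsCoprime.pow_left ?_
    rw [(Nat.prime_iff_prime_int.1 (hS p hp)).coprime_iff_not_dvd]
    intro h2
    exact hSW p hp (by exact_mod_cast h2.trans hDW)
  have h2 := h1.dvd_of_dvd_mul_left hd
  have h3 : p ^ 2 ∣ ∏ q ∈ S, q := by exact_mod_cast h2
  have h4 := (squarefree_prod hS) p (by rw [← pow_two]; exact h3)
  exact (hS p hp).one_lt.ne' (Nat.isUnit_iff.1 h4)

/-- If the fake 2-Selmer set is not empty then `q` is bad. -/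
lemma bad_of_fake (hEE : P_EE) (hGMB : S_GMB) (hPRF : P_PRF) (hHEN : S_HEN) (hREA : S_REA)
    (hGPT : P_GPT) (hPI : P_PI) (hEVN : S_EVN) (hQPG : P_QPG)
    {n : ℕ} {f : ℤ[X]} (hyp : Hy n f) {L : Type} [Field L] [NumberField L] {θ : L}
    (hθ : Rt n f θ) {W : ℕ} (hW : GW n f θ W) {D₀ : ℤ} (hDW : D₀ ∣ (W : ℤ))
    {F : Finset ℕ} (hF : ∀ p ∈ F, p ∈ SS W f) {r : ℕ} {A : Fin r → ℤ[X]}
    (hA : Cl2 W f θ F r A) :
    ∃ T : Finset (Fin r → ℤ), T.card ≤ ∏ p ∈ F, 2 * zer f p ∧ ∃ B : ℕ, ∀ q : ℕ, q.Prime → B < q →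
      q % W = 1 % W → q ∉ F → HasFake f (D₀ * ∏ p ∈ insert q F, (p : ℤ)) →
      ∃ e : ℤ, (q : ℤ) ∣ f.eval e ∧ (fun i => sgn (A i) q e) ∈ T := by
  have hn : 1 ≤ n := by have := hyp.six; omega
  have hFpr : ∀ p ∈ F, p.Prime := fun p hp => (hF p hp).1
  have hFW : ∀ p ∈ F, ¬ p ∣ W := fun p hp => SS_W hW.ne hW.eight (hFpr p hp) (hF p hp).2.1
  have hne2 : ∀ p : ℕ, ¬ p ∣ W → p ≠ 2 := by
    rintro p hp rfl
    exact hp (dvd_trans (by norm_num) hW.eight)
  have hAc : ∀ i, IsCoprime (ov ℚ (A i)) (ov ℚ f) := fun i => cop_of hθ (hA.ne i)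
  have hAsq : ∀ i, IsSquare (nm (ov ℚ f) (ov ℚ (A i))) := by
    intro i
    rw [← norm_eq hθ]
    exact hA.sq i
  have hV : ∀ p : ℕ, ∃ V : ℕ × Bool → Fin r → ℤ, p ∈ F → ∀ [Fact p.Prime],
      ∀ (D₂ : ℤ) (x y : ℚ_[p]), (p : ℤ) ∣ D₂ → ¬ (p : ℤ) ^ 2 ∣ D₂ → y ≠ 0 →
      y ^ 2 = (D₂ : ℚ_[p]) * (ov ℚ_[p] f).eval x →
      ∃ c ∈ Zr p f ×ˢ (Finset.univ : Finset Bool),
        ∀ i, ee n (ov ℚ_[p] f) (C x - X) (ov ℚ_[p] (A i)) = V c i := by
    intro p
    by_cases hp : p ∈ F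
    · haveI : Fact p.Prime := ⟨hFpr p hp⟩
      obtain ⟨V, hV⟩ := exists_vals2 hPI hEE hGMB hyp (hne2 p (hFW p hp))
        (hW.sep p (hFpr p hp) (hFW p hp)) hAc hAsq
      exact ⟨V, fun _ _ => hV⟩
    · exact ⟨fun _ _ => 1, fun h => absurd h hp⟩
  choose V hV using hV
  obtain ⟨T, hT1, hT2⟩ := exists_V F (fun p => Zr p f ×ˢ (Finset.univ : Finset Bool)) V
  have hb : ∀ i, ∃ B : ℕ, ∀ q : ℕ, q.Prime → B < q → IsCoprime (rd q (A i)) (rd q f) :=
    fun i => cop_mod hyp.mon (hAc i)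
  choose b hb using hb
  refine ⟨T, ?_, ∑ i, b i, ?_⟩
  · refine hT1.trans (Finset.prod_le_prod' fun p _ => ?_)
    rw [Finset.card_product, Finset.card_univ, Fintype.card_bool, mul_comm]
    rw [zer_eq]
  intro q hq hqB hqW hqF ⟨h, hh, hpt, hptR⟩
  have hqW' : ¬ q ∣ W := SS_W hW.ne hW.eight hq hqW
  haveI hfq : Fact q.Prime := ⟨hq⟩
  set U : Finset ℕ := insert q F with hU
  have hUpr : ∀ p ∈ U, p.Prime := by
    intro p hp
    rcases Finset.mem_insert.1 hp with rfl | hp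
    · exact hq
    · exact hFpr p hp
  have hUW : ∀ p ∈ U, ¬ p ∣ W := by
    intro p hp
    rcases Finset.mem_insert.1 hp with rfl | hp
    · exact hqW'
    · exact hFW p hp
  set D : ℤ := D₀ * ∏ p ∈ U, (p : ℤ) with hD
  have hDe : D = D₀ * ((∏ p ∈ U, p : ℕ) : ℤ) := by rw [hD]; push_cast; rfl
  have hqc : ∀ i, IsCoprime (rd q (A i)) (rd q f) := by
    intro i
    refine hb i q hq ?_
    have := Finset.single_le_sum (f := b) (fun _ _ => Nat.zero_le _) (Finset.mem_univ i)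
    omega
  -- the point at `q`
  obtain ⟨x, y, hy, hxy, heq⟩ := ee_pt' hEE (Pool.Agent.N446.M4.sym_ q) hyp
    (cop_loc ℚ_[q] hh) (hpt q)
  have hvq := val_facts hDW U hUpr hUW q (Finset.mem_insert_self _ _)
  rw [← hDe] at hvq
  obtain ⟨e, he1, he2⟩ := (hPI q (hne2 q hqW') n f hyp.even hyp.mon hyp.deg
    (hW.sep q hq hqW')).1 D x y hvq.1 hvq.2 hy hxy
  have hq1 : ∀ i, eeP q n f h (ov ℚ (A i)) = sgn (A i) q e := by
    intro i
    rw [eeP, dif_pos hq, oq_ov, heq _ (cop_locA _ (hAc i)) (sq_loc hGMB _ hyp (hAsq i))]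
    exact hQPG q (hne2 q hqW') n f D e (A i) (by have := hyp.six; omega) hyp.even hyp.mon hyp.deg
      (hW.sep q hq hqW') hvq.1 hvq.2 he1 (hqc i) (hAsq i) x y hy hxy he2
  -- the points at the primes in `F`
  have key : ∀ p : ℕ, p ∈ F → ∃ c ∈ Zr p f ×ˢ (Finset.univ : Finset Bool),
      ∀ i, eeP p n f h (ov ℚ (A i)) = V p c i := by
    intro p hp
    haveI hf : Fact p.Prime := ⟨hFpr p hp⟩
    obtain ⟨x, y, hy, hxy, hee⟩ := ee_pt' hEE (Pool.Agent.N446.M4.sym_ p) hyp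
      (cop_loc ℚ_[p] hh) (hpt p)
    have hvp := val_facts hDW U hUpr hUW p (Finset.mem_insert_of_mem hp)
    rw [← hDe] at hvp
    obtain ⟨c, hc1, hc2⟩ := hV p hp D x y hvp.1 hvp.2 hy hxy
    refine ⟨c, hc1, fun i => ?_⟩
    rw [eeP, dif_pos hf.out, oq_ov, hee _ (cop_locA _ (hAc i)) (sq_loc hGMB _ hyp (hAsq i))]
    exact hc2 i
  choose! c hc1 hc2 using key
  refine ⟨e, he1, ?_⟩
  have hvec : (fun i => sgn (A i) q e) = fun i => ∏ p ∈ F, V p (c p) i := by
    funext i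
    have hout : ∀ p : ℕ, p ∉ U → eeP p n f h (ov ℚ (A i)) = 1 := by
      intro p hp
      by_cases hpp : p.Prime
      · haveI hf : Fact p.Prime := ⟨hpp⟩
        rw [eeP, dif_pos hpp, oq_ov]
        by_cases hpW : p ∣ W
        · obtain ⟨Y, hY⟩ := hA.near i
          exact ee_W hEE hGMB hHEN hyp hpW hY (cop_loc ℚ_[p] hh)
        · obtain ⟨x, y, hy, hxy, hee⟩ := ee_pt' hEE (Pool.Agent.N446.M4.sym_ p) hyp
            (cop_loc ℚ_[p] hh) (hpt p)
          rw [hee _ (cop_locA _ (hAc i)) (sq_loc hGMB _ hyp (hAsq i))]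
          refine ee_good hEVN hGPT hGMB hyp hθ hW hpW (hA.ne i) (hAsq i) ?_ (D := D) ?_ hy hxy
          · intro 𝔓 h𝔓
            refine hA.ev i 𝔓 fun p' hp' hmem => ?_
            have hne : p ≠ p' := by
              rintro rfl
              exact hp (Finset.mem_insert_of_mem hp')
            have hco : IsCoprime (p : ℤ) (p' : ℤ) :=
              Nat.isCoprime_iff_coprime.2 ((Nat.coprime_primes hpp (hFpr p' hp')).2 hne)
            obtain ⟨a, b, hab⟩ := hco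
            have h1 : (1 : 𝓞 L) ∈ 𝔓.asIdeal := by
              have h2 : (1 : 𝓞 L) = (a : 𝓞 L) * (p : 𝓞 L) + (b : 𝓞 L) * (p' : 𝓞 L) := by
                have := congrArg (Int.cast : ℤ → 𝓞 L) hab
                push_cast at this
                exact this.symm
              rw [h2]
              exact Ideal.add_mem _ (Ideal.mul_mem_left _ _ h𝔓) (Ideal.mul_mem_left _ _ hmem)
            exact 𝔓.isPrime.ne_top ((Ideal.eq_top_iff_one _).2 h1)
          · intro hd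
            rw [hDe] at hd
            rcases (Nat.prime_iff_prime_int.1 hpp).dvd_or_dvd hd with h3 | h3
            · exact hpW (by exact_mod_cast h3.trans hDW)
            · exact coprime_of_primes hUpr hpp hp (by exact_mod_cast h3)
      · rw [eeP, dif_neg hpp]
    obtain ⟨T₀, hT1, hT2⟩ := hPRF n f h (ov ℚ (A i)) hn hyp.mon hyp.deg hh (hAc i)
    have hRe : ee n (ov ℝ f) (oq ℝ h) (oq ℝ (ov ℚ (A i))) = 1 := by
      rw [oq_ov]
      exact ee_R hEE hGMB hREA hyp (hA.pos i) (cop_locA _ (hAc i)) (cop_loc ℝ hh)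
    rw [hRe, one_mul] at hT2
    have h1 : ∏ p ∈ T₀, eeP p n f h (ov ℚ (A i)) = ∏ p ∈ U, eeP p n f h (ov ℚ (A i)) := by
      have h2 : ∏ p ∈ T₀, eeP p n f h (ov ℚ (A i)) =
          ∏ p ∈ T₀ ∪ U, eeP p n f h (ov ℚ (A i)) :=
        Finset.prod_subset Finset.subset_union_left fun p _ hp => hT1 p hp
      have h3 : ∏ p ∈ U, eeP p n f h (ov ℚ (A i)) =
          ∏ p ∈ T₀ ∪ U, eeP p n f h (ov ℚ (A i)) :=
        Finset.prod_subset Finset.subset_union_right fun p _ hp => hout p hp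
      rw [h2, h3]
    rw [h1, hU, Finset.prod_insert hqF, hq1 i,
      Finset.prod_congr rfl fun p hp => hc2 p hp i] at hT2
    rcases sgn_pm (A i) q e with h5 | h5
    · rw [h5, one_mul] at hT2
      rw [h5, hT2]
    · rw [h5] at hT2 ⊢
      linarith
  rw [hvec]
  exact hT2 c hc1

end AsmQ

open AsmP AsmQ

theorem main2 (hEE : P_EE) (hGMB : S_GMB) (hPRF : P_PRF) (hHEN : S_HEN) (hREA : S_REA)
    (hGPT : P_GPT) (hPI : P_PI) (hEVN : S_EVN) (hBAD : S_BAD) (hWEI : S_WEI) (hSMP : S_SMP)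
    (hSQR : S_SQR) (hQPG : P_QPG) (hPGC : P_PGC) (hCH2 : P_CH2) (hMEA : S_MEA) (hITR : S_ITR) :
    S_MAIN2 := by
  intro n f h6 heven hmon hdeg hirr D₀ hD₀ hels T hT
  have hsep : (ov ℚ f).Separable := hirr.separable
  have hyp : Hy n f := ⟨h6, heven, hmon, hdeg, hsep⟩
  obtain ⟨L, _, _, θ, hθ⟩ := exists_field' hyp hirr
  have hn : 1 ≤ n := by omega
  obtain ⟨W, hTW, hW⟩ := hBAD n (T * D₀.natAbs) f L θ hn hθ
    (mul_ne_zero hT (Int.natAbs_ne_zero.2 hD₀))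
  have hTW' : T ∣ W := (dvd_mul_right _ _).trans hTW
  have hDW : D₀ ∣ (W : ℤ) := by
    rw [← Int.natAbs_dvd_natAbs, Int.natAbs_natCast]
    exact (dvd_mul_left _ _).trans hTW
  obtain ⟨hwt, ⟨κ, hκ0, hκ1, hκ⟩, c₀, hc₀, hcnt⟩ := hMEA n W f h6 hmon hdeg hsep hW.ne hW.sep
  obtain ⟨c, hc, hPG⟩ := hPGC n W f L θ hn hθ hW
  have hne2 : ∀ p : ℕ, ¬ p ∣ W → p ≠ 2 := by
    rintro p hp rfl
    exact hp (dvd_trans (by norm_num) hW.eight)
  have hSSW : ∀ q ∈ SS W f, ¬ q ∣ W := fun q hq => SS_W hW.ne hW.eight hq.1 hq.2.1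
  -- everywhere locally soluble
  have hE : ∀ F : Finset ℕ, (∀ p ∈ F, p ∈ SS W f) → ELS f (D₀ * ∏ p ∈ F, (p : ℤ)) := by
    intro F hF
    have hFpr : ∀ p ∈ F, p.Prime := fun p hp => (hF p hp).1
    have h1 : (∏ p ∈ F, (p : ℤ)) = ((∏ p ∈ F, p : ℕ) : ℤ) := by push_cast; rfl
    have h2 : (∏ p ∈ F, p) ≠ 0 := Finset.prod_ne_zero_iff.2 fun p hp => (hFpr p hp).ne_zero
    rw [h1]
    refine ⟨fun p _ => ?_, els_real h2 hels.2⟩
    refine els hWEI hSMP hSQR hyp hW hD₀ hDW h2 (prod_mod _ fun q hq => (hF q hq).2.1) ?_ hels.1 p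
    intro p hp hd
    have hpF : p ∈ F := by
      by_contra hn
      exact coprime_of_primes hFpr hp hn hd
    refine ⟨hSSW p (hF p hpF), ?_⟩
    obtain ⟨e, he⟩ := (hF p hpF).2.2
    exact ⟨e, by rw [eval_rd, ZMod.intCast_zmod_eq_zero_iff_dvd]; exact he⟩
  -- counting
  have htend : Tendsto (fun x : ℕ => ((upTo (SS W f) x).card : ℝ)) atTop atTop := by
    have h1 : Tendsto (fun x : ℕ => c₀ * (Nat.primeCounting x : ℝ)) atTop atTop :=
      (tendsto_natCast_atTop_atTop.comp Nat.tendsto_primeCounting).const_mul_atTop hc₀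
    exact tendsto_atTop_mono' _ hcnt h1
  have hcore : ∀ F : Finset ℕ, (∀ p ∈ F, p ∈ SS W f) → ∀ η : ℝ, 0 < η → ∀ᶠ x : ℕ in atTop,
      (((upTo (SS W f) x).filter fun q : ℕ => q ∉ F ∧
        HasFake f (D₀ * ∏ p ∈ insert q F, (p : ℤ))).card : ℝ) ≤
      ((n * c : ℝ) * ∏ p ∈ F, wt f p + η) * (upTo (SS W f) x).card := by
    intro F hF η hη
    obtain ⟨r, A, hA, hr⟩ := hPG F fun p hp => ⟨(hF p hp).1, hSSW p (hF p hp)⟩
    obtain ⟨V, hV1, B, hB⟩ := bad_of_fake hEE hGMB hPRF hHEN hREA hGPT hPI hEVN hQPG hyp hθ hW hDW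
      hF hA
    have hev := hCH2 n W f L θ hn hθ hW r A hA.ne (by
      intro I hI
      obtain ⟨𝔓, ⟨p, hp, hmem⟩, hne⟩ := hA.ind I hI
      refine ⟨𝔓, fun hWm => ?_, hne⟩
      have hco : IsCoprime (p : ℤ) (W : ℤ) := by
        rw [(Nat.prime_iff_prime_int.1 (hF p hp).1).coprime_iff_not_dvd]
        intro h2
        exact hSSW p (hF p hp) (by exact_mod_cast h2)
      obtain ⟨a, b, hab⟩ := hco
      have h1 : (1 : 𝓞 L) ∈ 𝔓.asIdeal := by
        have h2 : (1 : 𝓞 L) = (a : 𝓞 L) * (p : 𝓞 L) + (b : 𝓞 L) * (W : 𝓞 L) := by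
          have := congrArg (Int.cast : ℤ → 𝓞 L) hab
          push_cast at this
          exact this.symm
        rw [h2]
        exact Ideal.add_mem _ (Ideal.mul_mem_left _ _ hmem) (Ideal.mul_mem_left _ _ hWm)
      exact 𝔓.isPrime.ne_top ((Ideal.eq_top_iff_one _).2 h1)) V (η / 2) (by positivity)
    have hlarge := htend.eventually_ge_atTop ((B + 1 : ℕ) / (η / 2) : ℝ)
    filter_upwards [hev, hlarge] with x hx1 hx2
    have hsub : (upTo (SS W f) x).filter (fun q : ℕ => q ∉ F ∧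
        HasFake f (D₀ * ∏ p ∈ insert q F, (p : ℤ))) ⊆ Finset.range (B + 1) ∪
        (upTo (SS W f) x).filter fun q : ℕ => ∃ e : ℤ, (q : ℤ) ∣ f.eval e ∧
          (fun i => sgn (A i) q e) ∈ V := by
      intro q hq
      obtain ⟨hq1, hq2, hq3⟩ := Finset.mem_filter.1 hq
      have hqS : q ∈ SS W f := (Finset.mem_filter.1 hq1).2
      by_cases hqB : q ≤ B
      · exact Finset.mem_union_left _ (Finset.mem_range.2 (by omega))
      · exact Finset.mem_union_right _ (Finset.mem_filter.2 ⟨hq1,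
          hB q hqS.1 (by omega) hqS.2.1 hq2 hq3⟩)
    have hcard : (((upTo (SS W f) x).filter fun q : ℕ => q ∉ F ∧
        HasFake f (D₀ * ∏ p ∈ insert q F, (p : ℤ))).card : ℝ) ≤ (B + 1 : ℕ) +
        (((upTo (SS W f) x).filter fun q : ℕ => ∃ e : ℤ, (q : ℤ) ∣ f.eval e ∧
          (fun i => sgn (A i) q e) ∈ V).card : ℝ) := by
      have h1 := (Finset.card_le_card hsub).trans (Finset.card_union_le _ _)
      rw [Finset.card_range] at h1
      exact_mod_cast h1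
    have hB2 : ((B + 1 : ℕ) : ℝ) ≤ η / 2 * (upTo (SS W f) x).card := by
      rw [div_le_iff₀ (by positivity)] at hx2
      linarith
    have hwtV : (n : ℝ) * V.card / 2 ^ r ≤ (n * c : ℝ) * ∏ p ∈ F, wt f p := by
      have h1 : (V.card : ℝ) ≤ ∏ p ∈ F, (2 * (zer f p : ℝ)) := by exact_mod_cast hV1
      have h2 : (∏ p ∈ F, (2 : ℝ) ^ fac f p) ≤ c * (2 ^ r * 2 ^ F.card) := by
        rw [Finset.prod_pow_eq_pow_sum, ← pow_add]
        exact_mod_cast hr
      have h3 : ∏ p ∈ F, wt f p = (∏ p ∈ F, (2 * (zer f p : ℝ))) * 2 ^ F.card /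
          ∏ p ∈ F, (2 : ℝ) ^ fac f p := by
        rw [← Finset.prod_const, ← Finset.prod_mul_distrib, ← Finset.prod_div_distrib]
        refine Finset.prod_congr rfl fun p _ => ?_
        unfold wt
        ring
      have h4 : 0 < ∏ p ∈ F, (2 : ℝ) ^ fac f p := Finset.prod_pos fun p _ => by positivity
      have h5 : 0 ≤ ∏ p ∈ F, (2 * (zer f p : ℝ)) := Finset.prod_nonneg fun p _ => by positivity
      rw [h3, div_le_iff₀ (by positivity)]
      have h6 : (n : ℝ) * V.card ≤ n * ∏ p ∈ F, (2 * (zer f p : ℝ)) :=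
        mul_le_mul_of_nonneg_left h1 (by positivity)
      refine h6.trans ?_
      rw [mul_div_assoc', div_mul_eq_mul_div, le_div_iff₀ h4]
      have h7 : (n : ℝ) * (∏ p ∈ F, (2 * (zer f p : ℝ))) * (∏ p ∈ F, (2 : ℝ) ^ fac f p) ≤
          n * (∏ p ∈ F, (2 * (zer f p : ℝ))) * (c * (2 ^ r * 2 ^ F.card)) :=
        mul_le_mul_of_nonneg_left h2 (by positivity)
      refine h7.trans (le_of_eq ?_)
      ring
    calc _ ≤ ((B + 1 : ℕ) : ℝ) + _ := hcard
      _ ≤ η / 2 * (upTo (SS W f) x).card + ((n : ℝ) * V.card / 2 ^ r + η / 2) *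
          (upTo (SS W f) x).card := add_le_add hB2 hx1
      _ = ((n : ℝ) * V.card / 2 ^ r + η) * (upTo (SS W f) x).card := by ring
      _ ≤ _ := by
        refine mul_le_mul_of_nonneg_right ?_ (Nat.cast_nonneg _)
        linarith
  refine ⟨W, n * c, κ, hW.ne, hTW', hDW, by positivity, hκ0, hκ1, ⟨c₀, hc₀, hcnt⟩, hE, ?_, hcore,
    ?_⟩
  · intro F hF q hq hqW hqF
    constructor
    · intro hloc
      haveI : Fact q.Prime := ⟨hq⟩
      have hqW' : ¬ q ∣ W := SS_W hW.ne hW.eight hq hqW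
      have hUpr : ∀ p ∈ insert q F, p.Prime := by
        intro p hp
        rcases Finset.mem_insert.1 hp with rfl | hp
        · exact hq
        · exact (hF p hp).1
      have hUW : ∀ p ∈ insert q F, ¬ p ∣ W := by
        intro p hp
        rcases Finset.mem_insert.1 hp with rfl | hp
        · exact hqW'
        · exact hSSW p (hF p hp)
      obtain ⟨x, y, hy, hxy⟩ := hloc.1 q
      have hv := val_facts hDW _ hUpr hUW q (Finset.mem_insert_self _ _)
      have h1 : (∏ p ∈ insert q F, (p : ℤ)) = ((∏ p ∈ insert q F, p : ℕ) : ℤ) := by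
        push_cast; rfl
      rw [← h1] at hv
      obtain ⟨e, he, -⟩ := (hPI q (hne2 q hqW') n f heven hmon hdeg (hW.sep q hq hqW')).1 _ x y
        hv.1 hv.2 hy hxy
      exact ⟨hq, hqW, e, he⟩
    · intro hqS
      refine hE _ fun p hp => ?_
      rcases Finset.mem_insert.1 hp with rfl | hp
      · exact hqS
      · exact hF p hp
  · intro k
    have hinf : (SS W f).Infinite := by
      intro hfin
      obtain ⟨x, hx⟩ := (htend.eventually_ge_atTop ((hfin.toFinset.card : ℝ) + 1)).exists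
      have h1 : upTo (SS W f) x ⊆ hfin.toFinset := by
        intro q hq
        exact hfin.mem_toFinset.2 (Finset.mem_filter.1 hq).2
      have h2 : ((upTo (SS W f) x).card : ℝ) ≤ hfin.toFinset.card := by
        exact_mod_cast Finset.card_le_card h1
      linarith
    have h1 := hITR (SS W f) (fun F => if HasFake f (D₀ * ∏ p ∈ F, (p : ℤ)) then 1 else 0)
      (wt f) (n * c) κ hinf (by positivity) hκ0 (fun F => by split_ifs <;> norm_num)
      (fun q hq => (hwt q hq).1) hκ (by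
        intro F hF η hη
        filter_upwards [hcore F hF η hη] with x hx
        refine le_trans (le_of_eq ?_) hx
        rw [Finset.sum_boole, Finset.filter_filter]) k ∅ (fun p hp => absurd hp (Finset.notMem_empty _))
    rw [Finset.prod_empty, mul_one] at h1
    exact h1

end Pool.Agent.H30Q
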