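import Pool.Agent.H30Q.EVN

/-! Project HQ (helper30), piece PGA (helper50): the pigeonhole principle over the class group. -/

set_option autoImplicit false
set_option linter.all false

open Polynomial IsDedekindDomain Matrix NumberField
open scoped Classical nonZeroDivisors

namespace Pool.Agent.H30Q.PGAP

open Pool.Agent.N874.PP (Ev)
open Pool.Agent.H30Q.EVNP

variable {L : Type} [Field L] [NumberField L]

/-- The multiplicity of `q` in `I`. -/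
noncomputable def cc (q : HeightOneSpectrum (𝓞 L)) (I : Ideal (𝓞 L)) : ℕ :=
  (Associates.mk q.asIdeal).count (Associates.mk I).factors

lemma cc_mul (q : HeightOneSpectrum (𝓞 L)) {I J : Ideal (𝓞 L)} (hI : I ≠ 0) (hJ : J ≠ 0) :
    cc q (I * J) = cc q I + cc q J := by
  unfold cc
  rw [← Associates.mk_mul_mk, Associates.count_mul (Associates.mk_ne_zero.2 hI)
    (Associates.mk_ne_zero.2 hJ) q.associates_irreducible]

lemma cc_pow (q : HeightOneSpectrum (𝓞 L)) {I : Ideal (𝓞 L)} (hI : I ≠ 0) (k : ℕ) :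
    cc q (I ^ k) = k * cc q I := by
  unfold cc
  rw [Associates.mk_pow, Associates.count_pow (Associates.mk_ne_zero.2 hI)
    q.associates_irreducible]

lemma cc_one (q : HeightOneSpectrum (𝓞 L)) : cc q (1 : Ideal (𝓞 L)) = 0 := by
  have h := cc_pow q (I := (1 : Ideal (𝓞 L))) one_ne_zero 0
  rwa [pow_zero, zero_mul] at h

lemma cc_prod (q : HeightOneSpectrum (𝓞 L)) {ι : Type} (s : Finset ι) (g : ι → Ideal (𝓞 L))
    (hg : ∀ i ∈ s, g i ≠ 0) : cc q (∏ i ∈ s, g i) = ∑ i ∈ s, cc q (g i) := by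
  induction s using Finset.induction_on with
  | empty => rw [Finset.prod_empty, Finset.sum_empty, cc_one]
  | insert a s ha ih =>
    rw [Finset.prod_insert ha, Finset.sum_insert ha, cc_mul q (hg a (Finset.mem_insert_self a s))
      (Finset.prod_ne_zero_iff.2 fun i hi => hg i (Finset.mem_insert_of_mem hi)),
      ih fun i hi => hg i (Finset.mem_insert_of_mem hi)]

lemma cc_prime (q q' : HeightOneSpectrum (𝓞 L)) :
    cc q q'.asIdeal = if q = q' then 1 else 0 := by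
  unfold cc
  split_ifs with h
  · rw [h]
    exact Associates.count_self q'.associates_irreducible
  · apply Associates.count_eq_zero_of_ne q.associates_irreducible q'.associates_irreducible
    intro h2
    apply h
    apply HeightOneSpectrum.ext
    exact associated_iff_eq.1 (Associates.mk_eq_mk_iff_associated.1 h2)

lemma val_eq (q : HeightOneSpectrum (𝓞 L)) {x : 𝓞 L} (hx : x ≠ 0) :
    q.valuation L (algebraMap (𝓞 L) L x) = WithZero.exp (-(cc q (Ideal.span {x}) : ℤ)) := by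
  rw [q.valuation_of_algebraMap, q.intValuation_if_neg hx]
  rfl

lemma ev_iff (q : HeightOneSpectrum (𝓞 L)) {x : 𝓞 L} (hx : x ≠ 0) :
    Ev q (algebraMap (𝓞 L) L x) ↔ Even (cc q (Ideal.span {x})) := by
  constructor
  · rintro ⟨y, hy⟩
    rw [val_eq q hx] at hy
    have hy0 : q.valuation L y ≠ 0 := by
      intro h
      rw [h, zero_pow two_ne_zero] at hy
      exact WithZero.exp_ne_zero hy
    rw [← WithZero.exp_log hy0, ← WithZero.exp_nsmul, WithZero.exp_inj] at hy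
    have h2 : ((cc q (Ideal.span {x}) : ℕ) : ℤ) = -(2 * WithZero.log (q.valuation L y)) := by
      rw [nsmul_eq_mul] at hy
      push_cast at hy
      linarith
    have h3 : Even ((cc q (Ideal.span {x}) : ℕ) : ℤ) := by
      rw [h2]
      exact (even_two_mul _).neg
    exact_mod_cast h3
  · rintro ⟨k, hk⟩
    obtain ⟨π, hπ⟩ := q.intValuation_exists_uniformizer
    refine ⟨(algebraMap (𝓞 L) L π) ^ k, ?_⟩
    rw [val_eq q hx, map_pow, q.valuation_of_algebraMap, hπ, hk, ← WithZero.exp_nsmul,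
      ← WithZero.exp_nsmul, WithZero.exp_inj]
    simp only [nsmul_eq_mul]
    push_cast
    ring

lemma ev_mul_sq (q : HeightOneSpectrum (𝓞 L)) (a y : L) (hy : y ≠ 0) :
    Ev q (a * y ^ 2) ↔ Ev q a := by
  have hv : q.valuation L y ≠ 0 := (Valuation.ne_zero_iff _).2 hy
  constructor
  · rintro ⟨z, hz⟩
    refine ⟨z / y, ?_⟩
    rw [map_mul, map_pow] at hz
    rw [map_div₀, div_pow, ← hz, mul_div_assoc, div_self (pow_ne_zero 2 hv), mul_one]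
  · rintro ⟨z, hz⟩
    refine ⟨z * y, ?_⟩
    rw [map_mul, map_pow, hz, map_mul, mul_pow]

/-- A real zero of `f` gives a real embedding. -/
lemma exists_emb {n : ℕ} {f : ℤ[X]} {θ : L} (hR : Rt n f θ) (z : ℝ) (hz : (ov ℝ f).eval z = 0) :
    ∃ σ : L →+* ℝ, ∀ g : ℤ[X], σ (aeval θ g) = (ov ℝ g).eval z := by
  have hs : Function.Surjective ((aeval θ : ℚ[X] →ₐ[ℚ] L) : ℚ[X] →+* L) := fun x => surj hR x
  let g : ℚ[X] →+* ℝ := (aeval z : ℚ[X] →ₐ[ℚ] ℝ)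
  have hev : ∀ h : ℤ[X], g (ov ℚ h) = (ov ℝ h).eval z := by
    intro h
    change aeval z (h.map (Int.castRingHom ℚ)) = (h.map (Int.castRingHom ℝ)).eval z
    rw [aeval_def, eval₂_map, eval_map]
    congr 1
  have hk : RingHom.ker ((aeval θ : ℚ[X] →ₐ[ℚ] L) : ℚ[X] →+* L) ≤ RingHom.ker g := by
    intro h hh
    rw [RingHom.mem_ker] at hh ⊢
    obtain ⟨k, rfl⟩ := ov_dvd hR h hh
    rw [map_mul, hev, hz, zero_mul]
  refine ⟨RingHom.liftOfSurjective _ hs ⟨g, hk⟩, fun h => ?_⟩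
  rw [← hev, ← aeval_ov θ h]
  exact RingHom.liftOfRightInverse_comp_apply _ _ _ _ _


section main

variable {n : ℕ} {P : Finset ℕ} (𝔭 : P → Fin n → HeightOneSpectrum (𝓞 L))

/-- The ideal of a matrix of exponents. -/
noncomputable def II (v : P → Fin n → ZMod 2) : Ideal (𝓞 L) :=
  ∏ p, ∏ j, (𝔭 p j).asIdeal ^ (v p j).val

lemma asIdeal_ne (q : HeightOneSpectrum (𝓞 L)) : q.asIdeal ≠ 0 := q.ne_bot

lemma II_ne (v : P → Fin n → ZMod 2) : II 𝔭 v ≠ 0 := by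
  unfold II
  exact Finset.prod_ne_zero_iff.2 fun p _ => Finset.prod_ne_zero_iff.2 fun j _ =>
    pow_ne_zero _ (asIdeal_ne _)

lemma II_dvd (h : ∀ p : P, ∏ j, (𝔭 p j).asIdeal = Ideal.span {((p : ℕ) : 𝓞 L)})
    (v : P → Fin n → ZMod 2) :
    II 𝔭 v ∣ Ideal.span {((∏ p ∈ P, p : ℕ) : 𝓞 L)} := by
  have h1 : Ideal.span {((∏ p ∈ P, p : ℕ) : 𝓞 L)} = ∏ p : P, ∏ j, (𝔭 p j).asIdeal := by
    rw [Finset.prod_congr rfl fun p _ => h p, Ideal.prod_span_singleton, Nat.cast_prod,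
      Finset.prod_coe_sort P (fun p => (p : 𝓞 L))]
  rw [h1]
  unfold II
  refine Finset.prod_dvd_prod_of_dvd _ _ fun p _ => Finset.prod_dvd_prod_of_dvd _ _ fun j _ => ?_
  have h2 : (v p j).val ≤ 1 := Nat.lt_succ_iff.1 (ZMod.val_lt _)
  calc (𝔭 p j).asIdeal ^ (v p j).val ∣ (𝔭 p j).asIdeal ^ 1 := pow_dvd_pow _ h2
    _ = (𝔭 p j).asIdeal := pow_one _

lemma sum_val_even (u : Fin n → ZMod 2) (h : ∑ j, u j = 0) : Even (∑ j, (u j).val) := by
  have h1 : ((∑ j, (u j).val : ℕ) : ZMod 2) = 0 := by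
    rw [Nat.cast_sum, ← h]
    exact Finset.sum_congr rfl fun j _ => ZMod.natCast_zmod_val _
  exact (ZMod.natCast_eq_zero_iff_even).1 h1

lemma II_norm (h : ∀ (p : P) (j : Fin n), Ideal.absNorm (𝔭 p j).asIdeal = p)
    (v : P → Fin n → ZMod 2) (hv : ∀ p, ∑ j, v p j = 0) : IsSquare (Ideal.absNorm (II 𝔭 v)) := by
  unfold II
  rw [map_prod]
  refine Finset.isSquare_prod _ fun p _ => ?_
  rw [map_prod, Finset.prod_congr rfl fun j _ => by rw [map_pow, h p j], Finset.prod_pow_eq_pow_sum]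
  exact (sum_val_even _ (hv p)).isSquare_pow _

lemma II_cc (q : HeightOneSpectrum (𝓞 L)) (v : P → Fin n → ZMod 2) :
    cc q (II 𝔭 v) = ∑ p, ∑ j, (v p j).val * (if q = 𝔭 p j then 1 else 0) := by
  unfold II
  rw [cc_prod q _ _ fun p _ => Finset.prod_ne_zero_iff.2 fun j _ => pow_ne_zero _ (asIdeal_ne _)]
  refine Finset.sum_congr rfl fun p _ => ?_
  rw [cc_prod q _ _ fun j _ => pow_ne_zero _ (asIdeal_ne _)]
  refine Finset.sum_congr rfl fun j _ => ?_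
  rw [cc_pow q (asIdeal_ne _), cc_prime]

lemma II_cc_self (hinj : ∀ p, Function.Injective (𝔭 p))
    (h : ∀ (p : P) (j : Fin n), Ideal.absNorm (𝔭 p j).asIdeal = p) (p₀ : P) (j₀ : Fin n)
    (v : P → Fin n → ZMod 2) : cc (𝔭 p₀ j₀) (II 𝔭 v) = (v p₀ j₀).val := by
  rw [II_cc, Finset.sum_eq_single p₀, Finset.sum_eq_single j₀, if_pos rfl, mul_one]
  · intro j _ hj
    rw [if_neg fun hh => hj (hinj p₀ hh).symm, mul_zero]
  · intro hh
    exact absurd (Finset.mem_univ _) hh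
  · intro p _ hp
    refine Finset.sum_eq_zero fun j _ => ?_
    rw [if_neg, mul_zero]
    intro hh
    apply hp
    apply Subtype.ext
    rw [← h p j, ← hh, h]
  · intro hh
    exact absurd (Finset.mem_univ _) hh

lemma II_cc_zero (h : ∀ (p : P) (j : Fin n), Ideal.absNorm (𝔭 p j).asIdeal = p)
    (q : HeightOneSpectrum (𝓞 L)) (hq : ∀ p ∈ P, (p : 𝓞 L) ∉ q.asIdeal)
    (v : P → Fin n → ZMod 2) : cc q (II 𝔭 v) = 0 := by
  rw [II_cc]
  refine Finset.sum_eq_zero fun p _ => Finset.sum_eq_zero fun j _ => ?_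
  rw [if_neg, mul_zero]
  intro hh
  apply hq p p.2
  rw [hh]
  have := Ideal.absNorm_mem (𝔭 p j).asIdeal
  rwa [h] at this

end main

lemma zmod_even (a b : ZMod 2) (c : ℕ) : Even (a.val + b.val + 2 * c) ↔ a + b = 0 := by
  have h1 : Even (a.val + b.val + 2 * c) ↔ ((a.val + b.val + 2 * c : ℕ) : ZMod 2) = 0 :=
    (ZMod.natCast_eq_zero_iff_even).symm
  rw [h1]
  push_cast
  rw [ZMod.natCast_zmod_val, ZMod.natCast_zmod_val]
  have h2 : (2 : ZMod 2) = 0 := by decide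
  rw [h2, zero_mul, add_zero]

lemma core {n W : ℕ} {f : ℤ[X]} {θ : L} (hR : Rt n f θ) (hG : GW n f θ W) {P : Finset ℕ}
    (𝔭 : P → Fin n → HeightOneSpectrum (𝓞 L)) (hP : ∀ p : P, (p : ℕ).Prime ∧ ¬ (p : ℕ) ∣ W)
    (hinj : ∀ p, Function.Injective (𝔭 p))
    (habs : ∀ (p : P) (j : Fin n), Ideal.absNorm (𝔭 p j).asIdeal = p)
    (hprod : ∀ p : P, ∏ j, (𝔭 p j).asIdeal = Ideal.span {((p : ℕ) : 𝓞 L)})
    (v v₀ : P → Fin n → ZMod 2) (hv : ∀ p, ∑ j, v p j = 0) (hv₀ : ∀ p, ∑ j, v₀ p j = 0)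
    (x x₀ : 𝓞 L) (J : Ideal (𝓞 L)) (hJ : J ≠ 0) (k : ℕ)
    (hJd : J ∣ Ideal.span {((∏ p ∈ P, p : ℕ) : 𝓞 L)} ^ k)
    (hx : Ideal.span {x} = II 𝔭 v * J) (hx₀ : Ideal.span {x₀} = II 𝔭 v₀ * J)
    (hmod : x - x₀ ∈ Ideal.span {((4 * W ^ 3 : ℕ) : 𝓞 L)})
    (hsg : ∀ z : ℝ, (ov ℝ f).eval z = 0 → ∃ σ : L →+* ℝ,
      (∀ g : ℤ[X], σ (aeval θ g) = (ov ℝ g).eval z) ∧
      (0 < σ (algebraMap (𝓞 L) L x) ↔ 0 < σ (algebraMap (𝓞 L) L x₀)))
    (hns : 0 < Algebra.norm ℤ x ↔ 0 < Algebra.norm ℤ x₀) :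
    ∃ A : ℤ[X], aeval θ A ≠ 0 ∧ (∃ Y : ℤ[X], A = 1 + C (4 * W : ℤ) * Y) ∧
    IsSquare (Algebra.norm ℚ (aeval θ A)) ∧
    (∀ z : ℝ, (ov ℝ f).eval z = 0 → 0 < (ov ℝ A).eval z) ∧
    (∀ 𝔓 : HeightOneSpectrum (𝓞 L), (∀ p ∈ P, (p : 𝓞 L) ∉ 𝔓.asIdeal) → Ev 𝔓 (aeval θ A)) ∧
    ∀ p j, (Ev (𝔭 p j) (aeval θ A) ↔ v p j + v₀ p j = 0) := by
  have hx0 : x ≠ 0 := by
    rintro rfl
    rw [Ideal.span_singleton_eq_bot.2 rfl] at hx
    exact mul_ne_zero (II_ne 𝔭 v) hJ hx.symm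
  have hx₀0 : x₀ ≠ 0 := by
    rintro rfl
    rw [Ideal.span_singleton_eq_bot.2 rfl] at hx₀
    exact mul_ne_zero (II_ne 𝔭 v₀) hJ hx₀.symm
  -- `x₀` divides a power of the product of the primes
  have hdvd : x₀ ∣ ((∏ p ∈ P, p : ℕ) : 𝓞 L) ^ (k + 1) := by
    have h1 : Ideal.span {x₀} ∣ Ideal.span {((∏ p ∈ P, p : ℕ) : 𝓞 L) ^ (k + 1)} := by
      rw [hx₀, ← Ideal.span_singleton_pow, pow_succ']
      exact mul_dvd_mul (II_dvd 𝔭 hprod v₀) hJd
    rw [Ideal.dvd_iff_le] at h1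
    exact Ideal.span_singleton_le_span_singleton.1 h1
  obtain ⟨y₀, hy₀⟩ := hdvd
  have h2W : 2 ∣ W := (by norm_num : 2 ∣ 8).trans hG.eight
  have hcop : Nat.Coprime ((∏ p ∈ P, p) ^ (k + 1)) (4 * W ^ 3) := by
    apply Nat.Coprime.pow_left
    apply Nat.Coprime.prod_left
    intro p hp
    have h1 := hP ⟨p, hp⟩
    rw [Nat.Prime.coprime_iff_not_dvd h1.1]
    intro h
    apply h1.2
    rcases (Nat.Prime.dvd_mul h1.1).1 h with h | h
    · have h3 : p ∣ 2 := Nat.Prime.dvd_of_dvd_pow h1.1 (n := 2) (by simpa using h)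
      exact h3.trans h2W
    · exact Nat.Prime.dvd_of_dvd_pow h1.1 h
  obtain ⟨a, b, hab⟩ := Nat.isCoprime_iff_coprime.2 hcop
  have habO : (a : 𝓞 L) * ((∏ p ∈ P, p : ℕ) : 𝓞 L) ^ (k + 1) + b * (4 * W ^ 3) = 1 := by
    have := congrArg (Int.cast : ℤ → 𝓞 L) hab
    push_cast at this ⊢
    exact this
  set x' : 𝓞 L := a * y₀ with hx'
  have hxx : x₀ * x' = 1 - b * (4 * W ^ 3) := by
    rw [hx', ← habO, hy₀]
    ring
  have hx'0 : x' ≠ 0 := by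
    intro h
    rw [h, mul_zero] at hxx
    have h1 : ((b * (4 * W ^ 3) : ℤ) : 𝓞 L) = ((1 : ℤ) : 𝓞 L) := by
      push_cast
      linear_combination hxx
    have h2 : (b * (4 * (W : ℤ) ^ 3) : ℤ) = 1 := by exact_mod_cast h1
    have h3 : (4 : ℤ) ∣ 1 := ⟨b * (W : ℤ) ^ 3, by rw [← h2]; ring⟩
    norm_num at h3
  obtain ⟨t, ht⟩ := Ideal.mem_span_singleton.1 hmod
  push_cast at ht
  obtain ⟨Z, hZ⟩ : ∃ Z : 𝓞 L, Z = -2 * b + 4 * W ^ 3 * b ^ 2 + t * x₀ * x' ^ 2 := ⟨_, rfl⟩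
  have hα : x * x₀ * x' ^ 2 = 1 + 4 * W ^ 3 * Z := by
    have h1 : x = x₀ + 4 * W ^ 3 * t := by linear_combination ht
    rw [h1, hZ]
    linear_combination (x₀ * x' + (1 - b * (4 * W ^ 3))) * hxx
  obtain ⟨Y, hY⟩ := hG.ord Z
  have hA : aeval θ (1 + C (4 * W : ℤ) * (C (W : ℤ) * Y)) =
      algebraMap (𝓞 L) L x * algebraMap (𝓞 L) L x₀ * algebraMap (𝓞 L) L x' ^ 2 := by
    have e1 : algebraMap (𝓞 L) L (x * x₀ * x' ^ 2) =
        1 + 4 * (W : L) ^ 3 * algebraMap (𝓞 L) L Z := by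
      rw [hα, map_add, map_one, map_mul, map_mul, map_pow, map_natCast]
      have e4 : algebraMap (𝓞 L) L 4 = 4 := by exact map_ofNat _ 4
      rw [e4]
    have e2 : aeval θ (1 + C (4 * W : ℤ) * (C (W : ℤ) * Y)) =
        1 + 4 * (W : L) * (W * aeval θ Y) := by
      rw [map_add, map_one, map_mul (aeval θ), map_mul (aeval θ), aeval_C, aeval_C]
      simp
    have e3 : (W : L) * algebraMap (𝓞 L) L Z = aeval θ Y := hY
    rw [← map_pow, ← map_mul, ← map_mul, e1, e2, ← e3]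
    ring
  have hxL : algebraMap (𝓞 L) L x ≠ 0 := by
    rw [Ne, FaithfulSMul.algebraMap_eq_zero_iff]; exact hx0
  have hx₀L : algebraMap (𝓞 L) L x₀ ≠ 0 := by
    rw [Ne, FaithfulSMul.algebraMap_eq_zero_iff]; exact hx₀0
  have hx'L : algebraMap (𝓞 L) L x' ≠ 0 := by
    rw [Ne, FaithfulSMul.algebraMap_eq_zero_iff]; exact hx'0
  have hcc : ∀ q : HeightOneSpectrum (𝓞 L),
      (Ev q (aeval θ (1 + C (4 * W : ℤ) * (C (W : ℤ) * Y))) ↔
        Even (cc q (II 𝔭 v) + cc q (II 𝔭 v₀) + 2 * cc q J)) := by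
    intro q
    rw [hA, ev_mul_sq q _ _ hx'L, ← map_mul, ev_iff q (mul_ne_zero hx0 hx₀0),
      ← Ideal.span_singleton_mul_span_singleton, hx, hx₀,
      cc_mul q (mul_ne_zero (II_ne 𝔭 v) hJ) (mul_ne_zero (II_ne 𝔭 v₀) hJ),
      cc_mul q (II_ne 𝔭 v) hJ, cc_mul q (II_ne 𝔭 v₀) hJ]
    have : cc q (II 𝔭 v) + cc q J + (cc q (II 𝔭 v₀) + cc q J) =
      cc q (II 𝔭 v) + cc q (II 𝔭 v₀) + 2 * cc q J := by ring
    rw [this]
  refine ⟨1 + C (4 * W : ℤ) * (C (W : ℤ) * Y), ?_, ⟨_, rfl⟩, ?_, ?_, ?_, ?_⟩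
  · rw [hA]
    exact mul_ne_zero (mul_ne_zero hxL hx₀L) (pow_ne_zero 2 hx'L)
  · rw [hA, map_mul, map_pow, map_mul]
    refine IsSquare.mul ?_ (IsSquare.sq _)
    have e1 : ∀ y : 𝓞 L, Algebra.norm ℚ (algebraMap (𝓞 L) L y) = ((Algebra.norm ℤ y : ℤ) : ℚ) :=
      fun y => (Algebra.coe_norm_int y).symm
    rw [e1, e1]
    have h1 : 0 < Algebra.norm ℤ x * Algebra.norm ℤ x₀ := by
      have n1 : Algebra.norm ℤ x ≠ 0 := Algebra.norm_ne_zero_iff.2 hx0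
      have n2 : Algebra.norm ℤ x₀ ≠ 0 := Algebra.norm_ne_zero_iff.2 hx₀0
      rcases lt_or_gt_of_ne n1 with h | h
      · have h3 : Algebra.norm ℤ x₀ < 0 := by
          rcases lt_or_gt_of_ne n2 with h4 | h4
          · exact h4
          · exact absurd (hns.2 h4) (not_lt.2 h.le)
        exact mul_pos_of_neg_of_neg h h3
      · exact mul_pos h (hns.1 h)
    have h2 : Algebra.norm ℤ x * Algebra.norm ℤ x₀ =
        ((Ideal.absNorm (II 𝔭 v) * Ideal.absNorm (II 𝔭 v₀) * Ideal.absNorm J ^ 2 : ℕ) : ℤ) := by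
      rw [← abs_of_pos h1, Int.abs_eq_natAbs, Int.natAbs_mul, ← Ideal.absNorm_span_singleton,
        ← Ideal.absNorm_span_singleton, hx, hx₀, map_mul, map_mul]
      congr 1
      ring
    obtain ⟨r, hr⟩ := (((II_norm 𝔭 habs v hv).mul (II_norm 𝔭 habs v₀ hv₀)).mul
      (IsSquare.sq (Ideal.absNorm J)))
    refine ⟨(r : ℚ), ?_⟩
    rw [← Int.cast_mul, h2, hr]
    push_cast
    ring
  · intro z hz
    obtain ⟨σ, hσ, hs⟩ := hsg z hz
    rw [← hσ, hA, map_mul, map_mul, map_pow]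
    refine mul_pos ?_ (by
      have := (map_ne_zero σ).2 hx'L
      positivity)
    have n1 : σ (algebraMap (𝓞 L) L x) ≠ 0 := (map_ne_zero σ).2 hxL
    have n2 : σ (algebraMap (𝓞 L) L x₀) ≠ 0 := (map_ne_zero σ).2 hx₀L
    rcases lt_or_gt_of_ne n1 with h | h
    · have h3 : σ (algebraMap (𝓞 L) L x₀) < 0 := by
        rcases lt_or_gt_of_ne n2 with h4 | h4
        · exact h4
        · exact absurd (hs.2 h4) (not_lt.2 h.le)
      exact mul_pos_of_neg_of_neg h h3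
    · exact mul_pos h (hs.1 h)
  · intro q hq
    rw [hcc, II_cc_zero 𝔭 habs q hq, II_cc_zero 𝔭 habs q hq, zero_add, zero_add]
    exact even_two_mul _
  · intro p j
    rw [hcc, II_cc_self 𝔭 hinj habs, II_cc_self 𝔭 hinj habs]
    exact zmod_even _ _ _

end Pool.Agent.H30Q.PGAP

namespace Pool.Agent.H30Q

open PGAP in
theorem t_PGA : S_PGA := by
  intro n W f L _ _ θ hn hR hG
  have hW : W ≠ 0 := hG.ne
  have hI : Ideal.span {((4 * W ^ 3 : ℕ) : 𝓞 L)} ≠ ⊥ := by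
    rw [Ne, Ideal.span_singleton_eq_bot]
    have : (4 * W ^ 3 : ℕ) ≠ 0 := by positivity
    exact_mod_cast this
  haveI : Finite (𝓞 L ⧸ Ideal.span {((4 * W ^ 3 : ℕ) : 𝓞 L)}) :=
    Ideal.finiteQuotientOfFreeOfNeBot _ hI
  letI : Fintype (𝓞 L ⧸ Ideal.span {((4 * W ^ 3 : ℕ) : 𝓞 L)}) := Fintype.ofFinite _
  refine ⟨Fintype.card (ClassGroup (𝓞 L) × (𝓞 L ⧸ Ideal.span {((4 * W ^ 3 : ℕ) : 𝓞 L)}) ×
    ({z : ℝ // z ∈ (ov ℝ f).roots.toFinset} → Bool) × Bool), fun P 𝔭 hP hinj habs hprod => ?_⟩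
  let I0 : (P → Fin n → ZMod 2) → (Ideal (𝓞 L))⁰ := fun v =>
    ⟨II 𝔭 v, mem_nonZeroDivisors_of_ne_zero (II_ne 𝔭 v)⟩
  let cl : (P → Fin n → ZMod 2) → ClassGroup (𝓞 L) := fun v => ClassGroup.mk0 (I0 v)
  let r : ClassGroup (𝓞 L) → (P → Fin n → ZMod 2) := fun γ =>
    if h : ∃ v, cl v = γ then h.choose else 0
  have hr : ∀ v, cl (r (cl v)) = cl v := by
    intro v
    have h : ∃ w, cl w = cl v := ⟨v, rfl⟩
    have h1 : r (cl v) = h.choose := dif_pos h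
    rw [h1]
    exact h.choose_spec
  have hpos : 0 < Fintype.card (ClassGroup (𝓞 L)) := Fintype.card_pos
  have hpr : ∀ v, ∃ x : 𝓞 L, Ideal.span {x} =
      II 𝔭 v * II 𝔭 (r (cl v)) ^ (Fintype.card (ClassGroup (𝓞 L)) - 1) := by
    intro v
    have h1 : ClassGroup.mk0 (I0 v * I0 (r (cl v)) ^
        (Fintype.card (ClassGroup (𝓞 L)) - 1)) = 1 := by
      rw [map_mul, map_pow]
      change cl v * cl (r (cl v)) ^ _ = 1
      rw [hr, ← pow_succ', Nat.sub_add_cancel hpos, pow_card_eq_one]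
    have h2 := (ClassGroup.mk0_eq_one_iff (I0 v * I0 (r (cl v)) ^
        (Fintype.card (ClassGroup (𝓞 L)) - 1)).2).1 h1
    obtain ⟨x, hx⟩ := h2
    exact ⟨x, hx.symm⟩
  choose x hx using hpr
  have hmem : ∀ z : ℝ, z ∈ (ov ℝ f).roots.toFinset ↔ (ov ℝ f).eval z = 0 := by
    intro z
    rw [Multiset.mem_toFinset, mem_roots (hR.mon.map _).ne_zero]
    rfl
  have hemb : ∀ z : {z : ℝ // z ∈ (ov ℝ f).roots.toFinset}, ∃ σ : L →+* ℝ,
      ∀ g : ℤ[X], σ (aeval θ g) = (ov ℝ g).eval (z : ℝ) :=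
    fun z => exists_emb hR z ((hmem z).1 z.2)
  choose σ hσ using hemb
  refine ⟨_, inferInstance, fun v => (cl v, Ideal.Quotient.mk _ (x v),
    fun z => decide (0 < σ z (algebraMap (𝓞 L) L (x v))), decide (0 < Algebra.norm ℤ (x v))),
    le_rfl, ?_⟩
  intro v v₀ hΦ hv hv₀
  simp only [Prod.mk.injEq] at hΦ
  obtain ⟨h1, h2, h3, h4⟩ := hΦ
  refine core hR hG 𝔭 hP hinj habs hprod v v₀ hv hv₀ (x v) (x v₀)
    (II 𝔭 (r (cl v)) ^ (Fintype.card (ClassGroup (𝓞 L)) - 1)) (pow_ne_zero _ (II_ne 𝔭 _))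
    (Fintype.card (ClassGroup (𝓞 L)) - 1) (pow_dvd_pow_of_dvd (II_dvd 𝔭 hprod _) _) (hx v)
    (by rw [h1]; exact hx v₀) (Ideal.Quotient.eq.1 h2) ?_ (decide_eq_decide.1 h4)
  intro z hz
  exact ⟨σ ⟨z, (hmem z).2 hz⟩, hσ _, decide_eq_decide.1 (congrFun h3 ⟨z, (hmem z).2 hz⟩)⟩

end Pool.Agent.H30Q
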