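import Pool.Agent.H30Q.Stm
import Pool.Agent.H30T.ResA
import Pool.Agent.W401.Cheb.Main

/-!
# Project HQ (helper30), auxiliary statements for the pieces RES and CHB: the factorisation modulo the primes
with a given Frobenius element
-/

set_option autoImplicit false
set_option linter.all false

open Polynomial IsDedekindDomain NumberField

namespace Pool.Agent.H30Q.RESP

open Pool.Agent.W401.Cheb
open Pool.Agent.H30T.ResA (exists_large frob_pow)

/-- The polynomial modulo `q`. -/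
theorem poly_part (d q : ℕ) [Fact q.Prime] (f : ℤ[X]) (hmon : f.Monic)
    (hdeg : f.natDegree = d + 1) (e₀ t : AlgebraicClosure (ZMod q)) (he₀ : e₀ ^ q = e₀)
    (hf : f.map (Int.castRingHom (AlgebraicClosure (ZMod q))) =
      (X - C e₀) * ∏ j ∈ Finset.range d, (X - C (t ^ (q ^ j))))
    (hinj : ∀ i < d, ∀ j < d, t ^ (q ^ i) = t ^ (q ^ j) → i = j) (hd : 1 ≤ d) :
    ∃ (e : ℤ) (h : ℤ[X]), (e : AlgebraicClosure (ZMod q)) = e₀ ∧ h.Monic ∧ h.natDegree = d ∧
      Irreducible (h.map (Int.castRingHom (ZMod q))) ∧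
      f.map (Int.castRingHom (ZMod q)) = ((X - C e) * h).map (Int.castRingHom (ZMod q)) := by
  classical
  obtain ⟨z, hz⟩ := W54.ChTor.frob_fixed q e₀ he₀
  obtain ⟨e, he⟩ := ZMod.intCast_surjective z
  set fF := f.map (Int.castRingHom (ZMod q)) with hfF
  have hmap : fF.map (algebraMap (ZMod q) (AlgebraicClosure (ZMod q))) = f.map (Int.castRingHom (AlgebraicClosure (ZMod q))) := by
    rw [hfF, Polynomial.map_map]
    congr 1
  have hfm : fF.Monic := hmon.map _
  have hroot : fF.IsRoot z := by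
    rw [IsRoot.def]
    apply (algebraMap (ZMod q) (AlgebraicClosure (ZMod q))).injective
    rw [map_zero, ← eval_map_apply, hmap, hf, hz, eval_mul, eval_sub, eval_X, eval_C, sub_self,
      zero_mul]
  obtain ⟨hF, hhF⟩ := dvd_iff_isRoot.2 hroot
  have hhm : hF.Monic := (monic_X_sub_C z).of_mul_monic_left (hhF ▸ hfm)
  have hfd : fF.natDegree = d + 1 := by rw [hfF, hmon.natDegree_map, hdeg]
  have hhd : hF.natDegree = d := by
    rw [hhF, (monic_X_sub_C z).natDegree_mul hhm, natDegree_X_sub_C] at hfd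
    omega
  have hprod : hF.map (algebraMap (ZMod q) (AlgebraicClosure (ZMod q))) =
      ∏ j ∈ Finset.range d, (X - C (t ^ (q ^ j))) := by
    have h1 := hmap
    rw [hf, hhF, Polynomial.map_mul, Polynomial.map_sub, map_X, map_C, hz] at h1
    exact mul_left_cancel₀ (X_sub_C_ne_zero e₀) h1
  have hint : IsIntegral (ZMod q) t := (Algebra.IsAlgebraic.isAlgebraic t).isIntegral
  have hroots : ∀ j, aeval (t ^ (q ^ j)) (minpoly (ZMod q) t) = 0 := by
    intro j
    induction j with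
    | zero => rw [pow_zero, pow_one, minpoly.aeval]
    | succ j ih =>
      rw [pow_succ, pow_mul, ← expand_aeval, ZMod.expand_card, map_pow, ih,
        zero_pow (Fact.out : q.Prime).ne_zero]
  have hdvd : minpoly (ZMod q) t ∣ hF := by
    apply minpoly.dvd
    rw [← eval_map_algebraMap, hprod, eval_prod]
    apply Finset.prod_eq_zero (Finset.mem_range.2 (show 0 < d by omega))
    rw [pow_zero, pow_one, eval_sub, eval_X, eval_C, sub_self]
  have hcard : d ≤ (minpoly (ZMod q) t).natDegree := by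
    have h0 : (minpoly (ZMod q) t).map (algebraMap (ZMod q) (AlgebraicClosure (ZMod q))) ≠ 0 :=
      ((minpoly.monic hint).map _).ne_zero
    have h1 : ((Finset.range d).image fun j => t ^ (q ^ j)).card = d := by
      rw [Finset.card_image_of_injOn, Finset.card_range]
      intro i hi j hj hij
      exact hinj i (Finset.mem_range.1 hi) j (Finset.mem_range.1 hj) hij
    have h2 : ((Finset.range d).image fun j => t ^ (q ^ j)) ⊆
        ((minpoly (ZMod q) t).map (algebraMap (ZMod q) (AlgebraicClosure (ZMod q)))).roots.toFinset := by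
      intro y hy
      obtain ⟨j, -, rfl⟩ := Finset.mem_image.1 hy
      rw [Multiset.mem_toFinset, mem_roots h0, IsRoot.def, eval_map_algebraMap]
      exact hroots j
    have h3 := Finset.card_le_card h2
    rw [h1] at h3
    refine h3.trans ((Multiset.toFinset_card_le _).trans ((card_roots' _).trans ?_))
    rw [(minpoly.monic hint).natDegree_map]
  have heq : hF = minpoly (ZMod q) t :=
    eq_of_monic_of_dvd_of_natDegree_le (minpoly.monic hint) hhm hdvd (by rw [hhd]; exact hcard)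
  obtain ⟨h, hh1, hh2, hh3⟩ := lifts_and_natDegree_eq_and_monic (f := Int.castRingHom (ZMod q))
    (p := hF) (by
      rw [lifts_iff_coeff_lifts]
      intro i
      exact ZMod.intCast_surjective _) hhm
  refine ⟨e, h, ?_, hh3, hh2.trans hhd, ?_, ?_⟩
  · rw [← hz, ← he, map_intCast]
  · rw [hh1, heq]
    exact minpoly.irreducible hint
  · rw [Polynomial.map_mul, hh1, hhF, Polynomial.map_sub, map_X, map_C]
    congr 3
    rw [← he]
    rfl

/-- The factorisation of `f` modulo the large primes with Frobenius element `σ`. -/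
theorem main_q {N : Type} [Field N] [NumberField N] [IsGalois ℚ N] (d : ℕ) (hd : 1 ≤ d) (f : ℤ[X])
    (hmon : f.Monic) (hdeg : f.natDegree = d + 1) (hsep : (f.map (Int.castRingHom N)).Separable)
    (m : ℕ) (hm : m ≠ 0) (σ : Gal(N/ℚ)) (ζ z₁ z₂ : N)
    (hζ : IsPrimitiveRoot ζ m) (hσζ : σ ζ = ζ) (hσz : σ z₁ = z₁)
    (hf : f.map (Int.castRingHom N) = (X - C z₁) * ∏ j ∈ Finset.range d, (X - C ((σ ^ j) z₂))) :
    ∃ (t₁ : 𝓞 N) (M : ℕ), algebraMap (𝓞 N) N t₁ = z₁ ∧
      ∀ (q : ℕ) [Fact q.Prime] (φ : 𝓞 N →+* AlgebraicClosure (ZMod q)), M < q → HasFrob q φ σ →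
      q % m = 1 % m ∧ ∃ (e : ℤ) (h : ℤ[X]), (e : AlgebraicClosure (ZMod q)) = φ t₁ ∧ h.Monic ∧
        h.natDegree = d ∧ Irreducible (rd q h) ∧ rd q f = rd q ((X - C e) * h) := by
  classical
  rw [hf] at hsep
  have hinj : ∀ i < d, ∀ j < d, (σ ^ i) z₂ = (σ ^ j) z₂ → i = j := by
    have h1 := separable_prod_X_sub_C_iff'.1 hsep.of_mul_right
    intro i hi j hj hij
    exact h1 i (Finset.mem_range.2 hi) j (Finset.mem_range.2 hj) hij
  have hfz1 : (f.map (Int.castRingHom N)).eval z₁ = 0 := by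
    rw [hf, eval_mul, eval_sub, eval_X, eval_C, sub_self, zero_mul]
  have hfz2 : (f.map (Int.castRingHom N)).eval z₂ = 0 := by
    rw [hf, eval_mul, eval_prod, Finset.prod_eq_zero (Finset.mem_range.2 (show 0 < d by omega)), mul_zero]
    rw [pow_zero, AlgEquiv.one_apply, eval_sub, eval_X, eval_C, sub_self]
  have hint : ∀ z : N, (f.map (Int.castRingHom N)).eval z = 0 → IsIntegral ℤ z := by
    intro z hz
    refine ⟨f, hmon, ?_⟩
    rw [← eval_map]
    exact hz
  obtain ⟨t₁, ht₁⟩ : ∃ t₁ : 𝓞 N, algebraMap (𝓞 N) N t₁ = z₁ := ⟨⟨z₁, hint _ hfz1⟩, rfl⟩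
  obtain ⟨t₂, ht₂⟩ : ∃ t₂ : 𝓞 N, algebraMap (𝓞 N) N t₂ = z₂ := ⟨⟨z₂, hint _ hfz2⟩, rfl⟩
  have hζint : IsIntegral ℤ ζ := hζ.isIntegral (Nat.pos_of_ne_zero hm)
  obtain ⟨ζ', hζ'⟩ : ∃ ζ' : 𝓞 N, algebraMap (𝓞 N) N ζ' = ζ := ⟨⟨ζ, hζint⟩, rfl⟩
  have hcs : ∀ (τ : Gal(N/ℚ)) (x : 𝓞 N), algebraMap (𝓞 N) N (τ • x) = τ (algebraMap (𝓞 N) N x) :=
    fun τ x => rfl
  set E : 𝓞 N := (m : 𝓞 N) *
    ∏ i ∈ Finset.range d, ∏ j ∈ Finset.range d,
      (if i = j then 1 else (σ ^ i) • t₂ - (σ ^ j) • t₂) with hE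
  have hE0 : E ≠ 0 := by
    rw [hE]
    refine mul_ne_zero (Nat.cast_ne_zero.2 hm) ?_
    rw [Finset.prod_ne_zero_iff]
    intro i hi
    rw [Finset.prod_ne_zero_iff]
    intro j hj
    split_ifs with hij
    · exact one_ne_zero
    · intro h
      apply hij
      have h1 := congrArg (algebraMap (𝓞 N) N) (sub_eq_zero.1 h)
      rw [hcs, hcs, ht₂] at h1
      exact hinj i (Finset.mem_range.1 hi) j (Finset.mem_range.1 hj) h1
  obtain ⟨M, hM⟩ := exists_large E hE0
  refine ⟨t₁, M, ht₁, ?_⟩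
  intro q hqF φ hq hφ
  have hqp : q.Prime := hqF.out
  have hφE : φ E ≠ 0 := hM q hq _ φ
  rw [hE, map_mul, map_natCast, map_prod] at hφE
  have hmΩ := left_ne_zero_of_mul hφE
  have hu2 := right_ne_zero_of_mul hφE
  rw [Finset.prod_ne_zero_iff] at hu2
  have hv1 : ∀ j, φ ((σ ^ j) • t₂) = φ t₂ ^ (q ^ j) := fun j => frob_pow hφ j _
  have hv2 : ∀ i < d, ∀ j < d, φ t₂ ^ (q ^ i) = φ t₂ ^ (q ^ j) → i = j := by
    intro i hi j hj hij
    by_contra hne
    have h1 := hu2 i (Finset.mem_range.2 hi)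
    rw [map_prod, Finset.prod_ne_zero_iff] at h1
    have h2 := h1 j (Finset.mem_range.2 hj)
    rw [if_neg hne, map_sub, hv1, hv1, hij, sub_self] at h2
    exact h2 rfl
  have hmod : q % m = 1 % m := by
    have h1 : φ ζ' ^ q = φ ζ' := by
      rw [← hφ]
      congr 1
      apply RingOfIntegers.coe_injective
      show algebraMap (𝓞 N) N (σ • ζ') = algebraMap (𝓞 N) N ζ'
      rw [hcs, hζ', hσζ]
    have h2 : IsPrimitiveRoot ζ' m := by
      rw [← hζ'] at hζ
      exact hζ.of_map_of_injective (RingOfIntegers.coe_injective)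
    have h3 := h2.isRoot_cyclotomic (Nat.pos_of_ne_zero hm)
    have h4 : (cyclotomic m (AlgebraicClosure (ZMod q))).IsRoot (φ ζ') := by
      rw [← map_cyclotomic m φ]
      exact h3.map
    have : NeZero ((m : ℕ) : AlgebraicClosure (ZMod q)) := ⟨hmΩ⟩
    rw [isRoot_cyclotomic_iff] at h4
    have h5 : φ ζ' ^ (q - 1) = 1 := by
      have h6 : φ ζ' ≠ 0 := h4.ne_zero hm
      apply mul_right_cancel₀ h6
      rw [← pow_succ, Nat.sub_add_cancel hqp.one_lt.le, h1, one_mul]
    have h6 := h4.dvd_of_pow_eq_one _ h5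
    exact ((Nat.modEq_iff_dvd' hqp.one_lt.le).2 h6).symm
  have hfO : f.map (Int.castRingHom (𝓞 N)) = (X - C t₁) *
      ∏ j ∈ Finset.range d, (X - C ((σ ^ j) • t₂)) := by
    apply Polynomial.map_injective (algebraMap (𝓞 N) N) RingOfIntegers.coe_injective
    rw [Polynomial.map_map, Polynomial.map_mul, Polynomial.map_prod]
    simp only [Polynomial.map_sub, map_X, map_C, hcs, ht₁, ht₂]
    rw [← hf]
    exact congrArg (fun r => Polynomial.map r f) (Subsingleton.elim _ _)
  have hfΩ : f.map (Int.castRingHom (AlgebraicClosure (ZMod q))) = (X - C (φ t₁)) *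
      ∏ j ∈ Finset.range d, (X - C (φ t₂ ^ (q ^ j))) := by
    have h1 := congrArg (Polynomial.map φ) hfO
    rw [Polynomial.map_map, Polynomial.map_mul, Polynomial.map_prod] at h1
    simp only [Polynomial.map_sub, map_X, map_C, hv1] at h1
    rw [← h1]
    exact congrArg (fun r => Polynomial.map r f) (Subsingleton.elim _ _)
  have he₀ : φ t₁ ^ q = φ t₁ := by
    rw [← hφ]
    congr 1
    apply RingOfIntegers.coe_injective
    show algebraMap (𝓞 N) N (σ • t₁) = algebraMap (𝓞 N) N t₁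
    rw [hcs, ht₁, hσz]
  obtain ⟨e, h, he, hh1, hh2, hh3, hh4⟩ := poly_part d q f hmon hdeg (φ t₁)
    (φ t₂) he₀ hfΩ hv2 hd
  exact ⟨hmod, e, h, he, hh1, hh2, hh3, hh4⟩

/-- `xp ≠ 0` gives a homomorphism with the Frobenius element `σ`. -/
theorem exists_hom {N : Type} [Field N] [NumberField N] (σ : Gal(N/ℚ)) (q : ℕ) [hq : Fact q.Prime]
    (h : xp N σ q ≠ 0) : ∃ φ : 𝓞 N →+* AlgebraicClosure (ZMod q), HasFrob q φ σ := by
  unfold xp at h
  rw [dif_pos hq.out] at h
  by_contra h'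
  push Not at h'
  apply h
  rw [Nat.card_eq_zero]
  left
  exact ⟨fun x => h' x.1 x.2⟩

/-- An element whose square is the value of a polynomial at `z`. -/
theorem exists_root {N : Type} [Field N] [NumberField N] (t : 𝓞 N) (β : N) (A : ℤ[X])
    (hβ : β ^ 2 = aeval (algebraMap (𝓞 N) N t) A) :
    ∃ b : 𝓞 N, algebraMap (𝓞 N) N b = β ∧ b ^ 2 = aeval t A := by
  have h1 : IsIntegral ℤ (β ^ 2) := by
    rw [hβ, aeval_algebraMap_apply]
    exact RingOfIntegers.isIntegral_coe _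
  have h2 : IsIntegral ℤ β := h1.of_pow two_pos
  obtain ⟨b, hb⟩ : ∃ b : 𝓞 N, algebraMap (𝓞 N) N b = β := ⟨⟨β, h2⟩, rfl⟩
  refine ⟨b, hb, ?_⟩
  apply RingOfIntegers.coe_injective
  show algebraMap (𝓞 N) N (b ^ 2) = algebraMap (𝓞 N) N (aeval t A)
  rw [map_pow, ← aeval_algebraMap_apply, ← hβ, hb]

/-- The value at a homomorphism. -/
theorem hom_aeval {N : Type} [Field N] [NumberField N] (t : 𝓞 N) (A : ℤ[X]) (q : ℕ) [Fact q.Prime]
    (φ : 𝓞 N →+* AlgebraicClosure (ZMod q)) (e : ℤ) (he : (e : AlgebraicClosure (ZMod q)) = φ t) :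
    φ (aeval t A) = algebraMap (ZMod q) (AlgebraicClosure (ZMod q)) ((A.eval e : ℤ) : ZMod q) := by
  rw [aeval_def, hom_eval₂, ← he, map_intCast]
  have h1 : eval₂ (φ.comp (algebraMap ℤ (𝓞 N))) ((e : ℤ) : AlgebraicClosure (ZMod q)) A =
      eval₂ (Int.castRingHom (AlgebraicClosure (ZMod q))) ((e : ℤ) : AlgebraicClosure (ZMod q)) A := by
    congr 1
    exact Subsingleton.elim _ _
  rw [h1, ← eq_intCast (Int.castRingHom (AlgebraicClosure (ZMod q))) e, eval₂_at_apply]
  rfl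

/-- Roots of an irreducible polynomial. -/
theorem root_iff {L N : Type} [Field L] [NumberField L] [Field N] [NumberField N] (f : ℤ[X])
    (hmon : f.Monic) (hirr : Irreducible (ov ℚ f)) (θ : L) (z : N) (hθ : aeval θ f = 0) (hz : aeval z f = 0)
    (A : ℤ[X]) : aeval θ A = 0 ↔ aeval z A = 0 := by
  have key : ∀ {K : Type} [Field K] [NumberField K] (x : K), aeval x f = 0 →
      (aeval x A = 0 ↔ ov ℚ f ∣ A.map (Int.castRingHom ℚ)) := by
    intro K _ _ x hx
    have hm : (ov ℚ f).Monic := hmon.map _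
    have h1 : aeval x (ov ℚ f) = 0 := by
      have h2 := aeval_map_algebraMap ℚ x f
      rw [hx] at h2
      exact h2
    have h3 := minpoly.eq_of_irreducible_of_monic hirr h1 hm
    have h4 : aeval x A = aeval x (A.map (Int.castRingHom ℚ)) := (aeval_map_algebraMap ℚ x A).symm
    rw [h4, h3]
    exact (minpoly.dvd_iff).symm
  rw [key θ hθ, key z hz]

end Pool.Agent.H30Q.RESP
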