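import Pool.Agent.N783.PF.Loc

/-!
# Project HQ (helper30): counterexamples to the Hasse principle among the quadratic twists of EVERY
hyperelliptic curve `y ^ 2 = f(x)`, `f` of even degree `n ≥ 6` with Galois group `S_n`, explained by
2-descent (the fake 2-Selmer set is empty). Definitions, statements and proofs of the pieces.

Outline. `L = ℚ(θ) = ℚ[X]/(f)`. Choose `A i` in `L` whose norm is a square, local squares at the bad places,
with even valuations outside the primes above a finite set `P` of totally split primes, independent modulo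
`ℚ^* L^{*2}`, `i < r`, with `2 ^ r > n ^ |P|` (pigeonhole principle; this is where `n ≥ 6` is used). The
symbol `ee(δ, a)` (`= Cores_{L/ℚ} (δ, a)` at a place, defined by Hasse invariants of trace forms) satisfies the
product formula. For `D = D₀ ∏_{p ∈ P} p ∏_{q ∈ J} q` and a class `δ` which comes from local points of
`y ^ 2 = D f(x)` everywhere `ee_v(δ, A i) = 1` at the good places and at the bad
ones, the vector `(ee_p(δ, A i))_i` has at most `n` values for each `p` in `P`, and for `q` in `J`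
(`f = (X - e) h` modulo `q`, `h` irreducible) `ee_q(δ, A i)` is the Legendre symbol of `A i (e)`. By Chebotarev's
theorem the products over `J` realise every vector `τ` of signs, so also one which is not among the at most
`n ^ |P| < 2 ^ r` vectors from `P`: contradiction to the product formula, there is no such `δ`.
-/

set_option autoImplicit false
set_option linter.all false

open Polynomial IsDedekindDomain Matrix NumberField
open scoped Classical

namespace Pool.Agent.H30Q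

open Pool.Agent.N783.PF (HV)
open Pool.Agent.N874.PP (Ev)
open Pool.Agent.N202.M4 (hil IsSymbol)

/-! ### Definitions -/

/-- `f` over the field `E`. -/
noncomputable abbrev ov (E : Type) [Field E] (f : ℤ[X]) : E[X] := f.map (Int.castRingHom E)

/-- A rational polynomial over a field of characteristic zero. -/
noncomputable abbrev oq (E : Type) [Field E] [CharZero E] (h : ℚ[X]) : E[X] :=
  h.map (Rat.castHom E)

/-- The norm of the class of `b` in `E[X]/(F)`. -/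
noncomputable abbrev nm {E : Type} [CommRing E] (F b : E[X]) : E :=
  Algebra.norm E (AdjoinRoot.mk F b)

/-- The Gram matrix of the form `(x, y) ↦ (coefficient of X ^ (n - 1) of b x y modulo F)`. -/
noncomputable def Gn {E : Type} [CommRing E] (n : ℕ) (F b : E[X]) : Matrix (Fin n) (Fin n) E :=
  Matrix.of fun i j => ((b * X ^ ((i : ℕ) + j)) %ₘ F).coeff (n - 1)

/-- The Hasse invariant of a symmetric matrix (`HV M ε`: `M` has a diagonal form with Hasse invariant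
`ε`; see `Pool.Agent.N286.PF.hvg : S_HVG`). -/
noncomputable def Hs {E : Type} [Field E] {n : ℕ} (M : Matrix (Fin n) (Fin n) E) : ℤ :=
  if HV M 1 then 1 else -1

/-- The symbol. -/
noncomputable def ee {E : Type} [Field E] (n : ℕ) (F δ a : E[X]) : ℤ :=
  Hs (Gn n F (δ * a)) * Hs (Gn n F δ) * Hs (Gn n F a) * Hs (Gn n F 1)

/-- The symbol at the prime `p` of rational polynomials (`1` if `p` is not a prime). -/
noncomputable def eeP (p n : ℕ) (f : ℤ[X]) (δ a : ℚ[X]) : ℤ :=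
  if h : p.Prime then
    haveI : Fact p.Prime := ⟨h⟩
    ee n (ov ℚ_[p] f) (oq ℚ_[p] δ) (oq ℚ_[p] a)
  else 1

/-- Reduction modulo `p`. -/
noncomputable abbrev rd (p : ℕ) (f : ℤ[X]) : (ZMod p)[X] := f.map (Int.castRingHom (ZMod p))

/-- The class of `a` modulo `F` is an unramified class: up to squares a polynomial with coefficients in
`ℤ_p` which is a unit modulo `f`. -/
def UnitCl (p : ℕ) [Fact p.Prime] (f : ℤ[X]) (a : ℚ_[p][X]) : Prop :=
  ∃ (a₀ : ℤ_[p][X]) (s : ℚ_[p][X]), IsCoprime a₀ (f.map (Int.castRingHom ℤ_[p])) ∧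
    IsCoprime s (ov ℚ_[p] f) ∧ ov ℚ_[p] f ∣ a - a₀.map (algebraMap ℤ_[p] ℚ_[p]) * s ^ 2

/-- `h` is, up to squares and constants, the class `x - θ` of a point of `y ^ 2 = D f(x)` over `E`. -/
def Pt (E : Type) [Field E] (f : ℤ[X]) (D : ℤ) (h : E[X]) : Prop :=
  ∃ (x y u : E) (s : E[X]), y ≠ 0 ∧ u ≠ 0 ∧ y ^ 2 = (D : E) * (ov E f).eval x ∧
    ov E f ∣ (C x - X) - C u * h * s ^ 2

/-- The curve `y ^ 2 = D f(x)` has a point with `y ≠ 0` over `E`. -/
def Sol (E : Type) [Field E] (f : ℤ[X]) (D : ℤ) : Prop :=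
  ∃ x y : E, y ≠ 0 ∧ y ^ 2 = (D : E) * (ov E f).eval x

/-- The hypotheses on the polynomial. -/
structure Hyp (n : ℕ) (f : ℤ[X]) : Prop where
  six : 6 ≤ n
  even : Even n
  mon : f.Monic
  deg : f.natDegree = n
  sep : (ov ℚ f).Separable
  gal : Nat.card (ov ℚ f).Gal = n.factorial

section fld

variable {L : Type} [Field L] [NumberField L]

/-- `L = ℚ(θ)` is of degree `n` and `f(θ) = 0`. -/
structure Rt (n : ℕ) (f : ℤ[X]) (θ : L) : Prop where
  mon : f.Monic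
  deg : f.natDegree = n
  irr : Irreducible (ov ℚ f)
  root : aeval θ f = 0
  rank : Module.finrank ℚ L = n

/-- The bad primes divide `W`: all the primes `p ≤ 16 n ^ 2`, the primes modulo which `f` is not separable and
those at which `ℤ[θ]` is not the ring of integers. -/
structure GW (n : ℕ) (f : ℤ[X]) (θ : L) (W : ℕ) : Prop where
  ne : W ≠ 0
  eight : 8 ∣ W
  big : ∀ p : ℕ, p.Prime → ¬ p ∣ W → 16 * n ^ 2 < p
  sep : ∀ p : ℕ, p.Prime → ¬ p ∣ W → (rd p f).Separable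
  ord : ∀ x : 𝓞 L, ∃ Y : ℤ[X], (W : L) * (x : L) = aeval θ Y

end fld

/-- `f` has `n` different zeros modulo `p`. -/
def Tot (n p : ℕ) (f : ℤ[X]) : Prop :=
  ∃ R : Finset (ZMod p), R.card = n ∧ ∀ ρ ∈ R, (rd p f).eval ρ = 0

/-! ### Group A: the symbol -/

/-- Piece HS (uses `Pool.Agent.N286.PF.hvg`, `Pool.Agent.N424.M4.hasse_scale`...): the Hasse invariant of
`c M`.
Proof. `M = T diag(a) Tᵀ` by `hvg`; the invariant of `diag(c a)` is `∏_{i < j} (c a_i, c a_j)`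
`= (c, c) ^ (n (n - 1) / 2) * ∏_i (c, a_i) ^ (n - 1) * ∏_{i < j} (a_i, a_j)`, and `∏ a_i` is `det M` up to
squares. -/
def S_HS : Prop := ∀ (E : Type) [Field E] [CharZero E], IsSymbol (hil E) →
  ∀ (n : ℕ) (M : Matrix (Fin n) (Fin n) E), M.IsSymm → M.det ≠ 0 →
  (∀ T : Matrix (Fin n) (Fin n) E, T.det ≠ 0 → Hs (T * M * Tᵀ) = Hs M) ∧
  ∀ c : E, c ≠ 0 → Hs (c • M) = Hs M * hil E c M.det ^ (n - 1) * hil E c c ^ (n * (n - 1) / 2)

/-- Piece GMA: the Gram matrices. (Compare `N835/PQ/Rec.lean`: `Gm_symm`.)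
Proof. `T` in (4) is the matrix of the multiplication by `s`: `s X ^ i = ∑_k T i k X ^ k` modulo `F`, so
`Gn n F (b * s ^ 2) = T * Gn n F b * Tᵀ`; `s` is invertible modulo `F`, so `T` is invertible. `Gn n F 1` has the
entries `0` for `i + j < n - 1` and `1` for `i + j = n - 1`, so its determinant is `± 1`. -/
def S_GMA : Prop := ∀ (E : Type) [CommRing E] [Nontrivial E] (n : ℕ) (F : E[X]), 1 ≤ n → F.Monic →
  F.natDegree = n →
  (∀ b, (Gn n F b).IsSymm) ∧
  (∀ b b', F ∣ b - b' → Gn n F b = Gn n F b') ∧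
  (∀ (c : E) (b : E[X]), Gn n F (C c * b) = c • Gn n F b) ∧
  (∀ b s, IsCoprime s F → ∃ T : Matrix (Fin n) (Fin n) E, IsUnit T.det ∧
    Gn n F (b * s ^ 2) = T * Gn n F b * Tᵀ) ∧
  (Gn n F 1).det ^ 2 = 1

/-- Piece GMB: determinant, norm and base change. (Compare `N835/PQ/Rec.lean`: `Gm_map`, `norm_map`, `Gm_det`.)
Proof. `Gn n F b = T * Gn n F 1` with the (transposed) matrix `T` of the multiplication by `b` in the basis
`X ^ i` (`AdjoinRoot.powerBasis'`); its determinant is the norm. The norm is a unit if and only if `b` is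
invertible modulo `F`. Base change: the matrix of the multiplication by `b` is mapped to that of `b.map φ`. -/
def S_GMB : Prop := ∀ (E : Type) [CommRing E] [Nontrivial E] (n : ℕ) (F : E[X]), 1 ≤ n → F.Monic →
  F.natDegree = n →
  (∀ b, (Gn n F b).det = nm F b * (Gn n F 1).det) ∧
  (∀ b, IsUnit (nm F b) ↔ IsCoprime b F) ∧
  ∀ (E' : Type) [CommRing E'] [Nontrivial E'] (φ : E →+* E') (b : E[X]),
    (Gn n F b).map φ = Gn n (F.map φ) (b.map φ) ∧ nm (F.map φ) (b.map φ) = φ (nm F b)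

/-- The properties of the symbol. -/
def P_EE : Prop := ∀ (E : Type) [Field E] [CharZero E], IsSymbol (hil E) →
  ∀ (n : ℕ) (F δ a : E[X]), 1 ≤ n → Even n → F.Monic → F.natDegree = n → IsCoprime δ F →
  IsCoprime a F →
  (∀ (δ' s : E[X]) (u : E), u ≠ 0 → IsCoprime s F → F ∣ δ' - C u * δ * s ^ 2 → IsSquare (nm F a) →
    ee n F δ' a = ee n F δ a) ∧
  (∀ a' s : E[X], IsCoprime s F → F ∣ a' - a * s ^ 2 → ee n F δ a' = ee n F δ a) ∧
  (∀ (c : E) (s : E[X]), c ≠ 0 → IsCoprime s F → F ∣ a - C c * s ^ 2 →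
    ee n F δ a = hil E c (nm F δ)) ∧
  (∀ (u : E) (s : E[X]), u ≠ 0 → IsCoprime s F → F ∣ δ - C u * s ^ 2 → IsSquare (nm F a) →
    ee n F δ a = 1)

/-- Piece EE (from HS, GMA, GMB).
Proof. (1) `Gn (δ' a) = u T (Gn (δ a)) Tᵀ` and `Gn δ' = u T (Gn δ) Tᵀ`; the factors from HS are the same for both,
because `det Gn (δ a) = nm a * det Gn δ` is `det Gn δ` up to a square. (2) `T M Tᵀ`.
(3) `ee δ a = ee δ c` by (2), and HS gives for `Gn (δ c) = c Gn δ`, `Gn c = c Gn 1` the factors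
`(c, det Gn δ) ^ (n - 1) (c, det Gn 1) ^ (n - 1) = (c, nm δ) ^ (n - 1)`, `n - 1` odd. (4) like (1), (3). -/
def S_EE : Prop := S_HS → S_GMA → S_GMB → P_EE

/-- Piece UNI: unimodular matrices over `ℤ_p`, `p` odd, have Hasse invariant `1`.
Proof. They have a diagonal form over `ℤ_p` with units on the diagonal (induction: some `u` has
`uᵀ M u` a unit because `2` is a unit) and `(u, v) = 1` for units (`p` odd: `a x ^ 2 + b y ^ 2 = 1` is solvable
modulo `p` by counting, and Hensel's lemma). Compare `N783/PQ` `S_HUN` and the files which prove it (and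
`Pool.Agent.N286.PF.hvc`, which allows to replace `M` by a nearby rational matrix). -/
def S_UNI : Prop := ∀ (p : ℕ) [Fact p.Prime], p ≠ 2 → ∀ (n : ℕ) (M : Matrix (Fin n) (Fin n) ℤ_[p]),
  M.IsSymm → IsUnit M.det → Hs (M.map (algebraMap ℤ_[p] ℚ_[p])) = 1

/-- Piece PRF (uses GMA, GMB): the product formula. Proof: diagonalise the four rational matrices over `ℚ`
(`Pool.Agent.N835.PQ.exists_diag`), then `hasse_prod` in `N446/M4/Mod.lean`, `prd` in `N394/PQ/PRD.lean`. -/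
def P_PRF : Prop := ∀ (n : ℕ) (f : ℤ[X]) (δ a : ℚ[X]), 1 ≤ n → f.Monic → f.natDegree = n →
  IsCoprime δ (ov ℚ f) → IsCoprime a (ov ℚ f) →
  ∃ T₀ : Finset ℕ, (∀ p ∉ T₀, eeP p n f δ a = 1) ∧
    ee n (ov ℝ f) (oq ℝ δ) (oq ℝ a) * ∏ p ∈ T₀, eeP p n f δ a = 1

def S_PRF : Prop := S_GMA → S_GMB → P_PRF

/-! ### Group B: local statements -/

/-- Piece HEN: Hensel's lemma for squares modulo `f`.
Proof. In `R = ℤ_p[X]/(f)` (`p`-adically complete, finite free over `ℤ_p`) `t` is a unit and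
`a = t ^ 2 (1 + 4 p z)`; `w ↦ p z - w ^ 2` is a contraction of `p R` and its fixed point satisfies
`(1 + 2 w) ^ 2 = 1 + 4 p z`. (Or: Mathlib's `HenselianRing` of an adically complete ring, for `W ^ 2 + W - p z`.)
-/
def S_HEN : Prop := ∀ (p : ℕ) [Fact p.Prime] (f a t y : ℤ_[p][X]), f.Monic → 1 ≤ f.natDegree →
  IsCoprime t f → f ∣ a - t ^ 2 - C (4 * p : ℤ_[p]) * y →
  ∃ s : ℤ_[p][X], IsCoprime s f ∧ f ∣ a - s ^ 2

/-- Piece REA: positive at the real zeros, so a square modulo `F`.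
Proof. Choose square roots `b z` of `A(z)` for the complex zeros `z` of `F`, `b (conj z) = conj (b z)`, real for
real `z`; the interpolation polynomial is real. -/
def S_REA : Prop := ∀ F A : ℝ[X], F.Monic → F.Separable →
  (∀ z : ℝ, F.eval z = 0 → 0 < A.eval z) → IsCoprime A F →
  ∃ s : ℝ[X], IsCoprime s F ∧ F ∣ A - s ^ 2

/-- Piece GPT (from GMA, GMB, EE, UNI, HEN): the symbol is trivial at the primes `p` not dividing `2 D` modulo which `f`
is separable.
Proof. `δ = C x - X`. If `‖x‖ > 1` then `δ = x (1 - X / x)` and `1 - X / x = 1 + p (..)` is a square modulo `f`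
(HEN with `t = 1`), so (4) of EE. If `‖x‖ ≤ 1` then `f(x)` has even valuation. If `f(x)` is a unit then `δ` has
coefficients in `ℤ_p` and is a unit modulo `f`. If not, `f = (X - ρ) G` over `ℤ_p` by Hensel's lemma, `ρ = x` modulo
`p`, `x - ρ = p ^ (2 k) * v`, `v` a unit, `G(x)` a unit; with the idempotents `e₁`, `e₂`, `e₁ + e₂ = 1`
(`e₁ = 1` modulo `X - ρ`, `0` modulo `G`) `δ = δ₀ s ^ 2` modulo `f`, `s = p ^ k e₁ + e₂`, `δ₀ = v e₁ + (x - X) e₂`,
a unit modulo `f`. So by EE one may assume that `δ` and `a` have coefficients in `ℤ_p` and are units modulo `f`;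
the four matrices come from symmetric matrices over `ℤ_p` whose determinant is a unit (GMA, GMB over `ℤ_p`), and UNI
applies. -/
def P_GPT : Prop := ∀ (p : ℕ) [Fact p.Prime], p ≠ 2 → ∀ (n : ℕ) (f : ℤ[X]) (D : ℤ), 1 ≤ n → Even n →
  f.Monic → f.natDegree = n → (rd p f).Separable → ¬ (p : ℤ) ∣ D → ∀ x y : ℚ_[p], y ≠ 0 →
  y ^ 2 = (D : ℚ_[p]) * (ov ℚ_[p] f).eval x → ∀ a : ℚ_[p][X], IsCoprime a (ov ℚ_[p] f) →
  IsSquare (nm (ov ℚ_[p] f) a) → UnitCl p f a → ee n (ov ℚ_[p] f) (C x - X) a = 1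

def S_GPT : Prop := S_GMA → S_GMB → P_EE → S_UNI → S_HEN → P_GPT

/-- Piece QPT (from GMB, EE, HEN): the symbol at the primes `q` with `q ∥ D`, `f = (X - e) h` modulo `q`.
Proof. The norm of `A` is a square, so modulo `q` the product of `A(e)` and the norm of `A` in
`F_q[X]/(h)` is a square (`nm` of `A` modulo `f` is an integer, the norm is compatible with reduction and
multiplicative in `f`). In `F_q[X]/(h)`, a field with `q ^ (n - 1)` elements, an element is a square if and only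
if its norm is one. If `A(e)` is a square modulo `q` then `A` is a square modulo `(q, f)`, so a square modulo `f`
over `ℤ_q` (HEN, `4` is a unit) and `ee = 1` by (3) with `c = 1`. If not, then with a nonresidue `c` modulo `q`
(a nonsquare also in `F_q[X]/(h)`, because `n - 1` is odd) `c A` is a square modulo `(q, f)`, `A = c s ^ 2`, and
`ee = (c, nm (x - X)) = (c, f(x)) = (c, D) = -1` by (3), since `v_q(D) = 1` (`f(x) = y ^ 2 / D`; `nm (C x - X)`
is `f(x)`, for example from the characteristic polynomial). -/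
def P_QPT : Prop := ∀ (q : ℕ) [Fact q.Prime], q ≠ 2 → ∀ (n : ℕ) (f : ℤ[X]) (D e : ℤ) (h A : ℤ[X]),
  4 ≤ n → Even n → f.Monic → f.natDegree = n → (q : ℤ) ∣ D → ¬ (q : ℤ) ^ 2 ∣ D →
  h.Monic → h.natDegree = n - 1 → Irreducible (rd q h) → rd q f = rd q ((X - C e) * h) →
  IsCoprime (rd q A) (rd q f) → IsSquare (nm (ov ℚ f) (ov ℚ A)) → ∀ x y : ℚ_[q], y ≠ 0 →
  y ^ 2 = (D : ℚ_[q]) * (ov ℚ_[q] f).eval x →
  ee n (ov ℚ_[q] f) (C x - X) (ov ℚ_[q] A) = if IsSquare ((A.eval e : ℤ) : ZMod q) then 1 else -1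

def S_QPT : Prop := S_GMB → P_EE → S_HEN → P_QPT

/-- Piece PI: the points of `y ^ 2 = D f(x)` over `ℚ_p`, `p ∥ D`, `f` separable modulo `p`, `n` even.
Proof. (1) If `‖x‖ > 1` then `v(D f(x)) = 1 + n v(x)` is odd. So `‖x‖ ≤ 1` and `v(f(x))` is odd.
(2) Let `e` be the common residue. `f = (X - ρ) G` over `ℤ_p` (Hensel), `ρ = e` modulo `p`, `G` and `X - ρ` coprime
over `ℤ_p`. Modulo `G` the polynomial `x₁ - X` is a unit over `ℤ_p` and `(x₂ - X) = (x₁ - X) (1 + (x₂ - x₁)/(x₁ - X))` is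
`(x₁ - X)` times a square (`S_HEN` with `G` in place of `f`). Modulo `X - ρ`: `(x₂ - ρ)/(x₁ - ρ)` is up to squares `G(x₂)/G(x₁)` (as `D₁ D₂` is a square), which is
`1` modulo `p`. Chinese remainder theorem. -/
def P_PI : Prop := ∀ (p : ℕ) [Fact p.Prime], p ≠ 2 → ∀ (n : ℕ) (f : ℤ[X]), Even n → f.Monic →
  f.natDegree = n → (rd p f).Separable →
  (∀ (D : ℤ) (x y : ℚ_[p]), (p : ℤ) ∣ D → ¬ (p : ℤ) ^ 2 ∣ D → y ≠ 0 →
    y ^ 2 = (D : ℚ_[p]) * (ov ℚ_[p] f).eval x →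
    ∃ e : ℤ, (p : ℤ) ∣ f.eval e ∧ ‖x - (e : ℚ_[p])‖ < 1) ∧
  ∀ (D₁ D₂ e : ℤ) (x₁ y₁ x₂ y₂ : ℚ_[p]), (p : ℤ) ∣ D₁ → ¬ (p : ℤ) ^ 2 ∣ D₁ →
    IsSquare ((D₁ * D₂ : ℤ) : ℚ_[p]) → D₂ ≠ 0 →
    y₁ ≠ 0 → y₁ ^ 2 = (D₁ : ℚ_[p]) * (ov ℚ_[p] f).eval x₁ →
    y₂ ≠ 0 → y₂ ^ 2 = (D₂ : ℚ_[p]) * (ov ℚ_[p] f).eval x₂ →
    ‖x₁ - (e : ℚ_[p])‖ < 1 → ‖x₂ - (e : ℚ_[p])‖ < 1 →
    ∃ s : ℚ_[p][X], IsCoprime s (ov ℚ_[p] f) ∧ ov ℚ_[p] f ∣ (C x₂ - X) - (C x₁ - X) * s ^ 2

def S_PI : Prop := S_HEN → P_PI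

/-- Piece EVN: an element of `L` with even valuations at the primes above `p`, `p` not dividing `W`, is an
unramified class at `p`.
Proof. `α = A(θ)`. By weak approximation there is `s` in `L` with `v(s ^ 2) = v(α)` for the primes above `p`. Then
`β = α / s ^ 2` is a unit at these primes, there are integers `t`, `t'` prime to `p` with `t β`, `t' / β` in `𝓞 L`
(`Submodule`/ideal quotient argument or `exists` of a common denominator prime to `p`: the ideal of the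
`t : 𝓞 L` with `t β ∈ 𝓞 L` is in no prime above `p`, so it contains an element, and by the norm an integer, prime
to `p`). By `GW.ord` `W t β = B(θ)`, `W t' / β = B'(θ)` with integral polynomials, `B B' = W ^ 2 t t'` modulo `f`, so `B`
is a unit modulo `f` over `ℤ_p`; `a₀ = B / (W t)`. -/
def S_EVN : Prop := ∀ (n W : ℕ) (f : ℤ[X]) (L : Type) [Field L] [NumberField L] (θ : L), Rt n f θ →
  GW n f θ W → ∀ (p : ℕ) [Fact p.Prime], ¬ p ∣ W → ∀ A : ℤ[X], aeval θ A ≠ 0 →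
  (∀ 𝔓 : HeightOneSpectrum (𝓞 L), (p : 𝓞 L) ∈ 𝔓.asIdeal → Ev 𝔓 (aeval θ A)) →
  UnitCl p f (ov ℚ_[p] A)

/-! ### Group C: the pigeonhole principle -/

/-- Piece BAD: `W` exists. Proof. `W = T * 8 * (16 n ^ 2)! * R * Δ`, `R` a non-zero integer in the ideal `(f, f')` of
`ℤ[X]` (`f` is separable over `ℚ`) and `Δ` the discriminant of the power basis
(`Algebra.discr_mul_isIntegral_mem_adjoin`), absolute values. -/
def S_BAD : Prop := ∀ (n T : ℕ) (f : ℤ[X]) (L : Type) [Field L] [NumberField L] (θ : L), 1 ≤ n →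
  Rt n f θ → T ≠ 0 → ∃ W : ℕ, T ∣ W ∧ GW n f θ W

/-- Piece SPL: the primes above a totally split prime.
Proof. For a zero `ρ` of `f` modulo `p` the map `x ↦ Y(ρ) / W`, `W x = Y(θ)`, is a well defined ring homomorphism
`𝓞 L → ZMod p` (`f` divides `Y - Y'` in `ℤ[X]` if `Y(θ) = Y'(θ)`); it sends `θ` to `ρ`. The kernels are different
primes of norm `p`, and their product divides `(p)` and has the same norm `p ^ n`. -/
def S_SPL : Prop := ∀ (n W : ℕ) (f : ℤ[X]) (L : Type) [Field L] [NumberField L] (θ : L), Rt n f θ →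
  GW n f θ W → ∀ p : ℕ, p.Prime → ¬ p ∣ W → Tot n p f →
  ∃ 𝔭 : Fin n → HeightOneSpectrum (𝓞 L), Function.Injective 𝔭 ∧
    (∀ j, Ideal.absNorm (𝔭 j).asIdeal = p) ∧ ∏ j, (𝔭 j).asIdeal = Ideal.span {(p : 𝓞 L)}

/-- Piece LIN2 (linear algebra over `F_2` and counting).
Proof. There are `2 ^ ((n - 1) m)` matrices `v : ι → Fin n → ZMod 2` with `∑ j, v i j = 0` for all `i`. Some fibre
of `Φ` on them has at least `2 ^ ((n - 1) m) / c` elements; fix `v₀` in it. Let `K` be the space of the matrices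
which are constant in `j`, `|K| = 2 ^ m`. The image of `{v + v₀}` in the quotient by `K` has at least
`2 ^ ((n - 2) m) / c` elements; choose `v_1, ..., v_r` in the fibre such that the classes of the `v_k + v₀` are a
basis of the span of this image. Then `2 ^ r ≥ 2 ^ ((n - 2) m) / c > n ^ m` for large `m`, because `2 ^ (n - 2) > n`.
-/
def S_LIN2 : Prop := ∀ n c : ℕ, 6 ≤ n → Even n → ∃ m₀ : ℕ, ∀ (ι : Type) [Fintype ι],
  m₀ ≤ Fintype.card ι → ∀ (T : Type) [Fintype T], Fintype.card T ≤ c →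
  ∀ Φ : (ι → Fin n → ZMod 2) → T, ∃ (r : ℕ) (v₀ : ι → Fin n → ZMod 2)
    (v : Fin r → ι → Fin n → ZMod 2), (∀ i, ∑ j, v₀ i j = 0) ∧ (∀ k i, ∑ j, v k i j = 0) ∧
    (∀ k, Φ (v k) = Φ v₀) ∧ n ^ Fintype.card ι < 2 ^ r ∧
    ∀ I : Finset (Fin r), I.Nonempty → ∀ κ : ι → ZMod 2, ∃ i j, ∑ k ∈ I, (v k i j + v₀ i j) ≠ κ i

/-- The elements `A i (θ)`. -/
structure Cls {L : Type} [Field L] [NumberField L] (n W : ℕ) (f : ℤ[X]) (θ : L) (P : Finset ℕ)
    (r : ℕ) (A : Fin r → ℤ[X]) : Prop where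
  many : n ^ P.card < 2 ^ r
  ne : ∀ i, aeval θ (A i) ≠ 0
  near : ∀ i, ∃ Y : ℤ[X], A i = 1 + C (4 * W : ℤ) * Y
  sq : ∀ i, IsSquare (Algebra.norm ℚ (aeval θ (A i)))
  pos : ∀ i, ∀ z : ℝ, (ov ℝ f).eval z = 0 → 0 < (ov ℝ (A i)).eval z
  ev : ∀ i, ∀ 𝔓 : HeightOneSpectrum (𝓞 L), (∀ p ∈ P, (p : 𝓞 L) ∉ 𝔓.asIdeal) →
    Ev 𝔓 (aeval θ (A i))
  ind : ∀ I : Finset (Fin r), I.Nonempty → ∀ (c : ℚ) (s : L), ∏ i ∈ I, aeval θ (A i) ≠ c * s ^ 2

/-- The conclusion of piece PGA. -/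
def P_PGA : Prop := ∀ (n W : ℕ) (f : ℤ[X]) (L : Type) [Field L] [NumberField L] (θ : L), 1 ≤ n →
  Rt n f θ → GW n f θ W → ∃ c : ℕ, ∀ (P : Finset ℕ) (𝔭 : P → Fin n → HeightOneSpectrum (𝓞 L)),
  (∀ p : P, (p : ℕ).Prime ∧ ¬ (p : ℕ) ∣ W) → (∀ p, Function.Injective (𝔭 p)) →
  (∀ p j, Ideal.absNorm (𝔭 p j).asIdeal = p) →
  (∀ p : P, ∏ j, (𝔭 p j).asIdeal = Ideal.span {((p : ℕ) : 𝓞 L)}) →
  ∃ (T : Type) (_ : Fintype T) (Φ : (P → Fin n → ZMod 2) → T), Fintype.card T ≤ c ∧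
  ∀ v v₀ : P → Fin n → ZMod 2, Φ v = Φ v₀ → (∀ p, ∑ j, v p j = 0) → (∀ p, ∑ j, v₀ p j = 0) →
  ∃ A : ℤ[X], aeval θ A ≠ 0 ∧ (∃ Y : ℤ[X], A = 1 + C (4 * W : ℤ) * Y) ∧
    IsSquare (Algebra.norm ℚ (aeval θ A)) ∧
    (∀ z : ℝ, (ov ℝ f).eval z = 0 → 0 < (ov ℝ A).eval z) ∧
    (∀ 𝔓 : HeightOneSpectrum (𝓞 L), (∀ p ∈ P, (p : 𝓞 L) ∉ 𝔓.asIdeal) → Ev 𝔓 (aeval θ A)) ∧
    ∀ p j, (Ev (𝔭 p j) (aeval θ A) ↔ v p j + v₀ p j = 0)

/-- Piece PGA.
Proof. `c` is the cardinality of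
`T = ClassGroup (𝓞 L) × (𝓞 L ⧸ (4 W ^ 3)) × ((L →+* ℝ) → Bool) × Bool`. For
`v : P → Fin n → ZMod 2` let `I_v = ∏ 𝔭 p j ^ (v p j).val`; for each ideal class `γ` which occurs choose `v_γ` with
`[I_{v_γ}] = γ`, `J_γ = I_{v_γ} ^ (h - 1)`, `h` the class number, and let `x_v` be a generator of `I_v J_γ`. `Φ v` is:
the class of `I_v`, the class of `x_v` modulo `4 W ^ 3`, the signs of the `σ x_v`, the sign of the norm of `x_v`.
Let `Φ v = Φ v₀`. `x = x_{v₀}` is prime to `W` (only primes above `P` divide it), choose `x'` in `𝓞 L` with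
`x x' = 1` modulo `4 W ^ 3`. `α = x_v x x' ^ 2 = 1` modulo `4 W ^ 3`, so with `GW.ord`
`α = 1 + 4 W ^ 3 z = 1 + 4 W (W Y)(θ)`. Positive at the real embeddings (a real zero of `f`
gives one). The norm of `x_v x` is positive and its absolute value is the norm of the ideal
`I_v I_{v₀} J ^ 2`; the norm of `I_v` is `∏ p ^ (∑_j (v p j).val)`, a square because the row sums are even. The
ideal of `α` is `I_v I_{v₀}` times a square, so the valuations outside the `𝔭 p j` are even and the one at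
`𝔭 p j` is `v p j + v₀ p j` modulo `2` (the `𝔭 p j` are different also for different `p`). -/
def S_PGA : Prop := P_PGA

/-- The conclusion of piece PGB. -/
def P_PIG : Prop := ∀ (n W : ℕ) (f : ℤ[X]) (L : Type) [Field L] [NumberField L]
  (θ : L), 6 ≤ n → Even n → Rt n f θ → GW n f θ W → ∃ m₀ : ℕ, ∀ P : Finset ℕ, m₀ ≤ P.card →
  (∀ p ∈ P, p.Prime ∧ ¬ p ∣ W ∧ Tot n p f) → ∃ (r : ℕ) (A : Fin r → ℤ[X]), Cls n W f θ P r A

/-- Piece PGB (from SPL, LIN2 and PGA).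
Proof. LIN2 for `ι = P` and the `c` of PGA gives `m₀`, and for `Φ` of PGA the matrices `v₀`, `v k`; `A k` is the
polynomial of PGA for `v k` and `v₀`. If `∏_{k ∈ I} A k (θ) = c s ^ 2` then `∑_{k ∈ I} (v k p j + v₀ p j)` is the parity
of the valuation of `c` at `𝔭 p j`, which is that of `v_p(c)` since `(p) = ∏_j 𝔭 p j`; it does not depend on `j`. -/
def S_PGB : Prop := S_SPL → S_LIN2 → P_PGA → P_PIG

/-- Piece TOT: totally split primes (for example from `Pool.Agent.W401.Cheb.infinite_frob` with `σ = 1` in the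
Galois closure of `ℚ(θ, ζ_m)`, or elementary). -/
def S_TOT : Prop := ∀ (n : ℕ) (f : ℤ[X]), f.Monic → f.natDegree = n → (ov ℚ f).Separable →
  ∀ m B : ℕ, m ≠ 0 → ∃ p : ℕ, p.Prime ∧ B < p ∧ p % m = 1 % m ∧ Tot n p f

/-! ### Group D: Galois theory and Chebotarev's theorem -/

/-- Piece GRP (pure group theory).
Proof. Suppose that the first alternative fails. `H'` is the set of the `h` in `H` with `sign (ρ h) = 1`; it
contains all commutators, is normal. `ρ(H')` contains the commutators, so the 3-cycles, so the alternating group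
(`Equiv.Perm.closure_three_cycles_eq_alternating`). If `κ ∈ H'`, `ρ κ = 1`: take `σ` in `H'` with `ρ σ` an
`(n - 1)`-cycle which fixes `i₁` (it is even because `n - 1` is odd); `ψ σ = 1` and `ψ (σ κ) = 1` by hypothesis, so
`ψ κ = 1`. So on the elements of `H'` which fix `i₁` `ψ` is a character of the alternating group of the other
points; it is trivial on the 3-cycles `c = (c ^ 2) ^ 2`, so it is trivial. For `a` in `G` choose `h` in `H'` with
`ρ h i₁ = ρ a i₁` and put `χ a = ψ (h⁻¹ a)`. It does not depend on `h`, and it is multiplicative: with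
`a = h a'`, `b = k b'` one has `a b = h (a' k a'⁻¹) (a' b')` and `a' k a'⁻¹ ∈ H'`. -/
def S_GRP : Prop := ∀ (n : ℕ) (G ι : Type) [Group G] [Fintype ι] [DecidableEq ι]
  (ρ : G →* Equiv.Perm ι) (H : Subgroup G) (i₁ : ι) (ψ : G → ℤˣ), 6 ≤ n → Even n →
  Fintype.card ι = n → Function.Surjective ρ → (∀ a b : G, a * b * a⁻¹ * b⁻¹ ∈ H) →
  (∀ a b : G, ρ a i₁ = i₁ → ρ b i₁ = i₁ → ψ (a * b) = ψ a * ψ b) →
  (∃ σ ∈ H, ρ σ i₁ = i₁ ∧ (ρ σ).IsCycle ∧ (ρ σ).support = Finset.univ.erase i₁ ∧ ψ σ = -1) ∨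
    ∃ χ : G →* ℤˣ, ∀ a : G, ρ a i₁ = i₁ → χ a = ψ a

/-- Piece IRR (copy `H30T/Irr.lean`). -/
def S_IRR : Prop := ∀ (n : ℕ) (f : ℤ[X]), Hyp n f → Irreducible (ov ℚ f)

/-- The conclusion of piece GAL. -/
def P_GAL : Prop := ∀ (n : ℕ) (f : ℤ[X]), Hyp n f → ∀ (L : Type) [Field L] [NumberField L] (θ : L),
  Rt n f θ → ∀ A : ℤ[X], aeval θ A ≠ 0 → (∀ (c : ℚ) (s : L), aeval θ A ≠ c * s ^ 2) →
  ∀ m : ℕ, m ≠ 0 →
  ∃ (N : Type) (_ : Field N) (_ : NumberField N) (_ : IsGalois ℚ N) (σ : N ≃ₐ[ℚ] N)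
    (ζ β z₁ z₂ : N), IsPrimitiveRoot ζ m ∧ σ ζ = ζ ∧ σ z₁ = z₁ ∧
    f.map (Int.castRingHom N) =
      (X - C z₁) * ∏ j ∈ Finset.range (n - 1), (X - C ((σ ^ j) z₂)) ∧
    (σ ^ (n - 1)) z₂ = z₂ ∧ β ^ 2 = aeval z₁ A ∧ σ β = -β

/-- Piece GAL (from GRP; compare `H30T/Gal.lean`, `H30T/Gal2.lean`, in particular `exists_closure`,
`exists_action`, `prod_rootSet`).
Proof. `N` is the Galois closure of the field generated by the roots of `f`, `β = √A(z₁)`, `z₁` a root, and a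
primitive root of unity `ζ` of order `m`. Apply GRP to `G = Gal(N/ℚ)`, the action on the roots of `f` (all
permutations because of the order of the Galois group of `f`), `H` the elements which fix `ζ` (the commutators are
in it), `a β = ψ a * β` for the `a` which fix `z₁`. In the second case there is, by Hilbert's theorem 90
(`groupCohomology.isMulCoboundary₁_of_isMulCocycle₁_of_aut_to_units`), `γ ≠ 0` in `N` with `a γ = χ a * γ` for all
`a`. `γ ^ 2` is rational, `β / γ` is in `ℚ(z₁)`, so `A(z₁) = γ ^ 2 (β / γ) ^ 2`, and the isomorphism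
`ℚ(z₁) ≃ L` gives a contradiction. -/
def S_GAL : Prop := S_GRP → P_GAL

/-- The conclusion of the part on Chebotarev's theorem. -/
def P_CHEB : Prop := ∀ (n : ℕ) (f : ℤ[X]), Hyp n f → ∀ (L : Type) [Field L] [NumberField L]
  (θ : L), Rt n f θ → ∀ A : ℤ[X], aeval θ A ≠ 0 → (∀ (c : ℚ) (s : L), aeval θ A ≠ c * s ^ 2) →
  ∀ m B : ℕ, m ≠ 0 →
  ∃ (q : ℕ) (e : ℤ) (h : ℤ[X]), q.Prime ∧ B < q ∧ q % m = 1 % m ∧ h.Monic ∧
    h.natDegree = n - 1 ∧ Irreducible (rd q h) ∧ rd q f = rd q ((X - C e) * h) ∧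
    ¬ IsSquare ((A.eval e : ℤ) : ZMod q)

/-- Piece RES (from the conclusion of GAL and `Pool.Agent.W401.Cheb.infinite_frob`; compare
`H30T/Res.lean`, `ResA.lean`, `Res2.lean`).
Proof: take `N`, `σ`, ... from GAL and a large prime `q` with a ring homomorphism `φ : 𝓞 N → F̄_q`,
`φ (σ x) = φ x ^ q`. Then `φ ζ = φ ζ ^ q` gives `q = 1` modulo `m`; `φ z₁` is in `F_q`, it is the class of `e`; the
elements `φ (σ ^ j z₂) = t ^ (q ^ j)`, `j < n - 1`, are distinct (`q` is large), they are the roots of the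
irreducible polynomial `h` modulo `q`. `A(e) = φ(β) ^ 2` and `φ(β) ^ q = - φ(β) ≠ 0`, so `φ(β)` is not in `F_q`. -/
def S_RES : Prop := P_GAL → P_CHEB

/-- Piece CHB (second step, for the number of the twists): compare RES and
`Pool.Agent.W401.Cheb.chebotarev`, and `t_CHEB` of `Pool/Agent/K3h73/RS/Cheb.lean` for the density.
Proof. As in GAL take the Galois closure `N` of the field generated by the roots of `f`, the `√(A i (z₁))` and a
primitive root of unity `ζ` of order `m`. `ρ` maps the elements which fix `ζ` onto a group which contains the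
alternating group (commutators), so there is `σ₀` which fixes `ζ` and `z₁` and permutes the other roots cyclically
(`n - 1` is odd). `σ = σ₀ ^ 2` has the same property and fixes the `√(A i (z₁))`. The primes with Frobenius element
conjugate to `σ` have positive density and have the properties. -/
def S_CHB : Prop := ∀ (n : ℕ) (f : ℤ[X]), Hyp n f → ∀ (L : Type) [Field L] [NumberField L]
  (θ : L), Rt n f θ → ∀ (r : ℕ) (A : Fin r → ℤ[X]), (∀ i, aeval θ (A i) ≠ 0) →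
  ∀ m : ℕ, m ≠ 0 → ∃ c : ℝ, 0 < c ∧ ∀ᶠ x : ℕ in Filter.atTop, c * x / Real.log x ≤
    ({q : ℕ | q ≤ x ∧ q.Prime ∧ q % m = 1 % m ∧ ∃ (e : ℤ) (h : ℤ[X]), h.Monic ∧
      h.natDegree = n - 1 ∧ Irreducible (rd q h) ∧ rd q f = rd q ((X - C e) * h) ∧
      ∀ i, IsSquare (((A i).eval e : ℤ) : ZMod q)}.ncard : ℝ)

/-! ### Group E: local solubility -/

/-- Piece WEI (from `Pool.Agent.H341R2` `weil_sharp_monic` and Hensel's lemma): the good primes.
Proof. `q > 16 n ^ 2` gives `q - (n - 1) √q > n`, so with the nonresidue or residue `D` there is `x` modulo `q` with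
`D f(x)` a non-zero square; a lift of it is a square in `ℤ_q`. -/
def S_WEI : Prop := ∀ (n : ℕ) (f : ℤ[X]) (D : ℤ) (q : ℕ) [Fact q.Prime], 1 ≤ n → f.Monic →
  f.natDegree = n → (rd q f).Separable → 16 * n ^ 2 < q → ¬ (q : ℤ) ∣ D → Sol ℚ_[q] f D

/-- Piece SMP: near a simple zero. Proof. `ρ` in `ℤ_p` is the zero of `f` above `e`, `x = ρ + D f'(ρ)`:
`D f(x) = D ^ 2 f'(ρ) ^ 2 (1 + p ..)`. -/
def S_SMP : Prop := ∀ (f : ℤ[X]) (D e : ℤ) (p : ℕ) [Fact p.Prime], p ≠ 2 → D ≠ 0 → (p : ℤ) ∣ D →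
  (p : ℤ) ∣ f.eval e → ¬ (p : ℤ) ∣ (derivative f).eval e → Sol ℚ_[p] f D

/-- Piece SQR: `E = 1` modulo `W` is a square in `ℚ_p` for the primes `p` dividing `W`, if `8 ∣ W`. -/
def S_SQR : Prop := ∀ (W : ℕ) (E : ℤ) (p : ℕ) [Fact p.Prime], W ≠ 0 → 8 ∣ W → p ∣ W → (W : ℤ) ∣ E - 1 →
  ∃ s : ℚ_[p], s ≠ 0 ∧ (E : ℚ_[p]) = s ^ 2

/-! ### Group F: combinatorics and the main theorem -/

/-- Piece LIN1 (linear algebra over `F_2`, written multiplicatively): if no non-trivial product of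
coordinates is `1` on all vectors of the finite set, the products of the vectors are all the vectors.
Proof. The vectors span `F_2 ^ r` (a proper subspace is killed by a non-zero functional), and a sum of vectors of
a spanning set is a sum over a subset. -/
def S_LIN1 : Prop := ∀ (r : ℕ) (Q : Finset ℕ) (ψ : ℕ → Fin r → ℤ), (∀ q i, ψ q i = 1 ∨ ψ q i = -1) →
  (∀ I : Finset (Fin r), I.Nonempty → ∃ q ∈ Q, ∏ i ∈ I, ψ q i = -1) →
  ∀ τ : Fin r → ℤ, (∀ i, τ i = 1 ∨ τ i = -1) → ∃ J ⊆ Q, ∀ i, ∏ q ∈ J, ψ q i = τ i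

/-- The main theorem: infinitely many twists of `y ^ 2 = D₀ f(x)` by squarefree positive `E = 1` modulo
`T` are counterexamples to the Hasse principle with an empty fake 2-Selmer set. -/
def S_MAIN : Prop := ∀ (n : ℕ) (f : ℤ[X]), Hyp n f → ∀ D₀ : ℤ, D₀ ≠ 0 →
  (∀ (p : ℕ) [Fact p.Prime], Sol ℚ_[p] f D₀) → Sol ℝ f D₀ → ∀ T N : ℕ, T ≠ 0 →
  ∃ E : ℕ, Squarefree E ∧ N < E ∧ E % T = 1 % T ∧ IsCoprime (E : ℤ) D₀ ∧
    (∀ (p : ℕ) [Fact p.Prime], Sol ℚ_[p] f (D₀ * E)) ∧ Sol ℝ f (D₀ * E) ∧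
    ∀ h : ℚ[X], IsCoprime h (ov ℚ f) → (∀ (p : ℕ) [Fact p.Prime], Pt ℚ_[p] f (D₀ * E) (oq ℚ_[p] h)) →
      Pt ℝ f (D₀ * E) (oq ℝ h) → False

end Pool.Agent.H30Q
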